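import Pool.Agent.Lib.MP_47914d_nt.Defs

section
/-!
Module CM: polynomial control of singular moduli.
-/
set_option autoImplicit false

open UpperHalfPlane ModularForm Complex Polynomial Filter Topology
open scoped Real MatrixGroups

namespace Pool.Agent.Lib.MP_47914d_nt

namespace CMB

/-- Translation invariance of `Jc`. -/
theorem Jc_add_int (hJ : SpecJ) {w : ℂ} (hw : 0 < w.im) (n : ℤ) : Jc (w + n) = Jc w := by
  have hnat : ∀ (m : ℕ) (w : ℂ), 0 < w.im → Jc (w + m) = Jc w := by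
    intro m
    induction m with
    | zero => intro w _; simp
    | succ m ih =>
      intro w hw
      have h1 : 0 < (w + m).im := by simpa using hw
      have h2 := (hJ.inv (w + m) h1).1
      rw [ih w hw] at h2
      rw [← h2]
      congr 1
      push_cast
      ring
  rcases n with m | m
  · simpa using hnat m w hw
  · have h1 : 0 < (w + (Int.negSucc m : ℤ)).im := by simpa using hw
    have h2 := hnat (m + 1) _ h1
    rw [← h2]
    congr 1
    push_cast
    ring

/-- Uniform constants. -/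
theorem exists_K (hJ : SpecJ) : ∃ K : ℕ, 1 ≤ K ∧
    (∀ w : ℂ, 1 ≤ w.im → ‖Jc w - cexp (-(2 * π * Complex.I * w))‖ ≤ K) ∧
    ∀ w : ℂ, 1 / 2 ≤ w.im → w.im ≤ 1 → ‖Jc w‖ ≤ K := by
  obtain ⟨C, hC⟩ := hJ.growth
  have hS : IsCompact ((fun q : ℝ × ℝ => (q.1 : ℂ) + (q.2 : ℂ) * Complex.I) ''
      (Set.Icc 0 1 ×ˢ Set.Icc (1 / 2) 1)) :=
    (isCompact_Icc.prod isCompact_Icc).image (by fun_prop)
  have hcont : ContinuousOn Jc ((fun q : ℝ × ℝ => (q.1 : ℂ) + (q.2 : ℂ) * Complex.I) ''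
      (Set.Icc 0 1 ×ˢ Set.Icc (1 / 2) 1)) := by
    refine hJ.holo.continuousOn.mono ?_
    rintro _ ⟨⟨x, y⟩, ⟨_, hy⟩, rfl⟩
    have hy' : (1 : ℝ) / 2 ≤ y := hy.1
    show 0 < ((x : ℂ) + (y : ℂ) * Complex.I).im
    simp
    linarith
  obtain ⟨C', hC'⟩ := hS.exists_bound_of_continuousOn hcont
  obtain ⟨K, hK⟩ := exists_nat_ge (max 1 (max C C'))
  refine ⟨K, ?_, fun w hw => (hC w hw).trans ?_, fun w h1 h2 => ?_⟩
  · have : (1 : ℝ) ≤ K := (le_max_left _ _).trans hK
    exact_mod_cast this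
  · exact ((le_max_left _ _).trans (le_max_right _ _)).trans hK
  · have h3 : 0 < (w + ((-⌊w.re⌋ : ℤ) : ℂ)).im := by
      simp
      linarith
    have h4 : Jc w = Jc (w + ((-⌊w.re⌋ : ℤ) : ℂ)) := (Jc_add_int hJ (by linarith) _).symm
    rw [h4]
    refine (hC' _ ⟨(w.re - ⌊w.re⌋, w.im), ⟨⟨?_, ?_⟩, h1, h2⟩, ?_⟩).trans
      (((le_max_right _ _).trans (le_max_right _ _)).trans hK)
    · have := Int.floor_le w.re
      simp only
      linarith
    · have := Int.lt_floor_add_one w.re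
      simp only
      linarith
    · apply Complex.ext
      · have := Int.self_sub_floor w.re
        simp
        try linarith
      · simp

/-- The value of `Jc` at the image under an integral matrix of positive determinant. -/
theorem exists_rep (hJ : SpecJ) (N : ℕ) (hN : 0 < N) (x y z w : ℤ) (hdet : x * w - y * z = N)
    {κ : ℂ} (hκ : 0 < κ.im) :
    ∃ p ∈ N.divisorsAntidiagonal, ∃ b ∈ Finset.range p.2,
      Jc (((x : ℂ) * κ + y) / ((z : ℂ) * κ + w)) = Jc (((p.1 : ℂ) * κ + (b : ℂ)) / (p.2 : ℂ)) := by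
  have hxz : 0 < Int.gcd x z := by
    rw [Int.gcd_pos_iff]
    by_contra h
    push Not at h
    rw [h.1, h.2] at hdet
    have : (N : ℤ) ≠ 0 := by exact_mod_cast hN.ne'
    apply this
    rw [← hdet]
    ring
  obtain ⟨x', hx'⟩ := Int.gcd_dvd_left (a := x) (b := z)
  obtain ⟨z', hz'⟩ := Int.gcd_dvd_right (a := x) (b := z)
  set g := Int.gcd x z with hg
  have hbez := Int.gcd_eq_gcd_ab x z
  set u := Int.gcdA x z
  set v := Int.gcdB x z
  rw [← hg] at hbez
  have hgZ : (0 : ℤ) < g := by exact_mod_cast hxz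
  have h1 : u * x' + v * z' = 1 := by
    have h2 : (g : ℤ) * (u * x' + v * z') = g * 1 := by
      rw [mul_one]
      nth_rewrite 2 [hbez]
      rw [hx', hz']
      ring
    exact mul_left_cancel₀ hgZ.ne' h2
  set d : ℤ := x' * w - z' * y with hd
  have hgd : (g : ℤ) * d = N := by
    rw [← hdet, hd, hx', hz']
    ring
  have hdpos : 0 < d := by
    have : (0 : ℤ) < N := by exact_mod_cast hN
    rw [← hgd] at this
    exact (mul_pos_iff_of_pos_left hgZ).1 this
  set B : ℤ := u * y + v * w with hB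
  set k : ℤ := B / d with hk
  set b : ℤ := B % d with hb
  have hBk : b + d * k = B := Int.emod_add_mul_ediv B d
  have hb0 : 0 ≤ b := Int.emod_nonneg _ hdpos.ne'
  have hbd : b < d := Int.emod_lt_of_pos _ hdpos
  obtain ⟨dn, hdn⟩ := Int.eq_ofNat_of_zero_le hdpos.le
  obtain ⟨bn, hbn⟩ := Int.eq_ofNat_of_zero_le hb0
  refine ⟨(g, dn), ?_, bn, ?_, ?_⟩
  · rw [Nat.mem_divisorsAntidiagonal]
    refine ⟨?_, hN.ne'⟩
    have : ((g * dn : ℕ) : ℤ) = N := by
      push_cast
      rw [← hgd, hdn]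
    exact_mod_cast this
  · rw [Finset.mem_range]
    show bn < dn
    rw [hbn, hdn] at hbd
    exact_mod_cast hbd
  · simp only
    have hdnC : (dn : ℂ) = (d : ℂ) := by rw [hdn]; simp
    have hbnC : (bn : ℂ) = (b : ℂ) := by rw [hbn]; simp
    rw [hdnC, hbnC]
    have hdC : (d : ℂ) ≠ 0 := by exact_mod_cast hdpos.ne'
    have hdR : (0 : ℝ) < d := by exact_mod_cast hdpos
    have hgR : (0 : ℝ) < g := by exact_mod_cast hxz
    have him : (((g : ℂ) * κ + (b : ℂ)) / (d : ℂ)).im = g * κ.im / d := by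
      have : ((g : ℂ) * κ + (b : ℂ)) / (d : ℂ) = ((g : ℂ) * κ + (b : ℂ)) / ((d : ℝ) : ℂ) := by
        norm_cast
      rw [this, Complex.div_ofReal_im]
      simp
    have himpos : 0 < (((g : ℂ) * κ + (b : ℂ)) / (d : ℂ)).im := by
      rw [him]
      positivity
    let τ : ℍ := ⟨((g : ℂ) * κ + (b : ℂ)) / (d : ℂ), himpos⟩
    let γ : SL(2, ℤ) := ⟨!![x', x' * k - v; z', z' * k + u], by
      rw [Matrix.det_fin_two_of]
      linear_combination h1⟩
    have hτ : (τ : ℂ) = ((g : ℂ) * κ + (b : ℂ)) / (d : ℂ) := rfl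
    have hsm : ((γ • τ : ℍ) : ℂ) = ((x : ℂ) * κ + y) / ((z : ℂ) * κ + w) := by
      rw [coe_specialLinearGroup_apply, hτ]
      have e00 : (γ 0 0 : ℤ) = x' := rfl
      have e01 : (γ 0 1 : ℤ) = x' * k - v := rfl
      have e10 : (γ 1 0 : ℤ) = z' := rfl
      have e11 : (γ 1 1 : ℤ) = z' * k + u := rfl
      rw [e00, e01, e10, e11]
      simp only [algebraMap_int_eq, eq_intCast]
      push_cast
      have hx : (x : ℂ) = g * x' := by exact_mod_cast hx'
      have hz : (z : ℂ) = g * z' := by exact_mod_cast hz'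
      have hBC : (b : ℂ) + d * k = u * y + v * w := by
        have := hBk
        rw [hB] at this
        exact_mod_cast this
      have hdC' : (d : ℂ) = x' * w - z' * y := by
        have := hd
        exact_mod_cast this
      have h1C : (u : ℂ) * x' + v * z' = 1 := by exact_mod_cast h1
      have e1 : (x' : ℂ) * (((g : ℂ) * κ + b) / d) + (x' * k - v) = (x * κ + y) / d := by
        rw [eq_div_iff hdC, add_mul, mul_assoc, div_mul_cancel₀ _ hdC, hx]
        linear_combination (x' : ℂ) * hBC - (v : ℂ) * hdC' + (y : ℂ) * h1C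
      have e2 : (z' : ℂ) * (((g : ℂ) * κ + b) / d) + (z' * k + u) = (z * κ + w) / d := by
        rw [eq_div_iff hdC, add_mul, mul_assoc, div_mul_cancel₀ _ hdC, hz]
        linear_combination (z' : ℂ) * hBC + (u : ℂ) * hdC' + (w : ℂ) * h1C
      rw [e1, e2, div_div_div_cancel_right₀ hdC]
    have h3 := hJ.smul γ τ
    have hc : ∀ t : ℍ, Jc (t : ℂ) = J t := fun t => by
      rw [Jc, dif_pos (show 0 < (t : ℂ).im from t.im_pos)]
    rw [← hsm, hc, h3, ← hc, hτ]

theorem norm_q (w : ℂ) : ‖cexp (-(2 * π * Complex.I * w))‖ = Real.exp (2 * π * w.im) := by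
  rw [Complex.norm_exp]
  congr 1
  simp

theorem exp_K {K : ℕ} (hK : 1 ≤ K) : 2 * (K : ℝ) < Real.exp (2 * π * K) - 1 := by
  have h1 := Real.add_one_le_exp (2 * π * K)
  have h2 := Real.pi_gt_three
  have h3 : (1 : ℝ) ≤ K := by exact_mod_cast hK
  nlinarith

/-- Values at points whose heights differ by at least `K` are different. -/
theorem sep {K : ℕ} (hK : 1 ≤ K)
    (hup : ∀ w : ℂ, 1 ≤ w.im → ‖Jc w - cexp (-(2 * π * Complex.I * w))‖ ≤ K)
    {w₁ w₂ : ℂ} (h1 : 1 ≤ w₁.im) (h2 : w₁.im + K ≤ w₂.im) : Jc w₁ ≠ Jc w₂ := by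
  intro he
  have hK' : (1 : ℝ) ≤ K := by exact_mod_cast hK
  have h3 := hup w₁ h1
  have h4 := hup w₂ (by linarith)
  have h5 : ‖cexp (-(2 * π * Complex.I * w₂))‖ ≤ ‖cexp (-(2 * π * Complex.I * w₁))‖ + 2 * K := by
    have e1 : cexp (-(2 * π * Complex.I * w₂)) = cexp (-(2 * π * Complex.I * w₁)) +
        ((Jc w₁ - cexp (-(2 * π * Complex.I * w₁))) - (Jc w₂ - cexp (-(2 * π * Complex.I * w₂)))) := by
      rw [he]; ring
    rw [e1]
    refine (norm_add_le _ _).trans ?_
    have := norm_sub_le (Jc w₁ - cexp (-(2 * π * Complex.I * w₁)))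
      (Jc w₂ - cexp (-(2 * π * Complex.I * w₂)))
    linarith
  rw [norm_q, norm_q] at h5
  have h6 : Real.exp (2 * π * w₁.im) * Real.exp (2 * π * K) ≤ Real.exp (2 * π * w₂.im) := by
    rw [← Real.exp_add, Real.exp_le_exp]
    have := Real.pi_pos
    nlinarith
  have h7 : 1 ≤ Real.exp (2 * π * w₁.im) := by
    rw [Real.one_le_exp_iff]
    have := Real.pi_pos
    positivity
  have h8 := exp_K hK
  nlinarith

/-- Comparison of a point with its image under a triangular matrix with distinct diagonal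
entries. -/
theorem sep' {K : ℕ} (hK : 1 ≤ K)
    (hup : ∀ w : ℂ, 1 ≤ w.im → ‖Jc w - cexp (-(2 * π * Complex.I * w))‖ ≤ K) {N : ℕ}
    (hN : ¬ IsSquare N) {p : ℕ × ℕ} (hp : p ∈ N.divisorsAntidiagonal) (b : ℕ) {w : ℂ}
    (hw : (N * K : ℝ) ≤ w.im) : Jc w ≠ Jc (((p.1 : ℂ) * w + (b : ℂ)) / (p.2 : ℂ)) := by
  obtain ⟨hp1, hN0⟩ := Nat.mem_divisorsAntidiagonal.1 hp
  have hne : p.1 ≠ p.2 := fun h => hN ⟨p.1, by rw [← hp1, h]⟩
  have ha : 0 < p.1 := Nat.pos_of_ne_zero fun h => hN0 (by rw [← hp1, h, zero_mul])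
  have hd : 0 < p.2 := Nat.pos_of_ne_zero fun h => hN0 (by rw [← hp1, h, mul_zero])
  have hdN : p.2 ≤ N := Nat.le_of_dvd (Nat.pos_of_ne_zero hN0) ⟨p.1, by rw [← hp1, mul_comm]⟩
  have hK' : (1 : ℝ) ≤ K := by exact_mod_cast hK
  have haR : (1 : ℝ) ≤ p.1 := by exact_mod_cast ha
  have hdR : (0 : ℝ) < p.2 := by exact_mod_cast hd
  have hdNR : (p.2 : ℝ) ≤ N := by exact_mod_cast hdN
  have hNR : (1 : ℝ) ≤ N := by exact_mod_cast Nat.pos_of_ne_zero hN0
  have him : (((p.1 : ℂ) * w + (b : ℂ)) / (p.2 : ℂ)).im = p.1 * w.im / p.2 := by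
    have : ((p.1 : ℂ) * w + (b : ℂ)) / (p.2 : ℂ) = ((p.1 : ℂ) * w + (b : ℂ)) / ((p.2 : ℝ) : ℂ) := by
      norm_cast
    rw [this, Complex.div_ofReal_im]
    simp
  have hv1 : (1 : ℝ) ≤ N * K := by nlinarith
  have hv : 1 ≤ w.im := hv1.trans hw
  have hvN : (K : ℝ) * p.2 ≤ w.im := by nlinarith
  rcases lt_or_gt_of_ne hne with h | h
  · have h' : (p.1 : ℝ) + 1 ≤ p.2 := by exact_mod_cast h
    refine (sep hK hup ?_ ?_).symm
    · rw [him, le_div_iff₀ hdR]
      nlinarith
    · rw [him, ← le_sub_iff_add_le, div_le_iff₀ hdR]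
      nlinarith
  · have h' : (p.2 : ℝ) + 1 ≤ p.1 := by exact_mod_cast h
    refine sep hK hup hv ?_
    rw [him, le_div_iff₀ hdR]
    nlinarith

/-- A real quadratic number in the upper half plane. -/
theorem disc_pos {κ : ℂ} (hκ : 0 < κ.im) {a b c : ℤ} (habc : a ≠ 0 ∨ b ≠ 0 ∨ c ≠ 0)
    (h : (a : ℂ) * κ ^ 2 + (b : ℂ) * κ + (c : ℂ) = 0) : a ≠ 0 ∧ 0 < 4 * a * c - b ^ 2 := by
  have hre := congrArg Complex.re h
  have him := congrArg Complex.im h
  simp only [pow_two, Complex.add_re, Complex.mul_re, Complex.add_im, Complex.mul_im,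
    Complex.intCast_re, Complex.intCast_im, Complex.zero_re, Complex.zero_im] at hre him
  have hb : (b : ℝ) = -(2 * a * κ.re) := by
    have : κ.im * ((b : ℝ) + 2 * a * κ.re) = 0 := by linear_combination him
    rcases mul_eq_zero.1 this with h1 | h1
    · exact absurd h1 hκ.ne'
    · linarith
  have hc : (c : ℝ) = a * (κ.re ^ 2 + κ.im ^ 2) := by
    rw [hb] at hre
    linear_combination hre
  have ha : a ≠ 0 := by
    rintro rfl
    simp only [Int.cast_zero, mul_zero, zero_mul, neg_zero, Int.cast_eq_zero] at hb hc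
    rcases habc with h1 | h1 | h1
    · exact h1 rfl
    · exact h1 hb
    · exact h1 hc
  refine ⟨ha, ?_⟩
  have haR : (a : ℝ) ≠ 0 := by exact_mod_cast ha
  have : (0 : ℝ) < 4 * a * c - b ^ 2 := by
    rw [hb, hc]
    have : 4 * (a : ℝ) * (a * (κ.re ^ 2 + κ.im ^ 2)) - (-(2 * a * κ.re)) ^ 2 = 4 * (a * κ.im) ^ 2 := by
      ring
    rw [this]
    have : (a : ℝ) * κ.im ≠ 0 := mul_ne_zero haR hκ.ne'
    positivity
  exact_mod_cast this

/-- The stabiliser of a CM point contains an integral matrix of small nonsquare determinant. -/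
theorem exists_stab {κ : ℂ} (hκ : 0 < κ.im) {H : ℕ} (hq : QuadHeight κ H) :
    ∃ N : ℕ, 0 < N ∧ ¬ IsSquare N ∧ N ≤ 4 * H ^ 2 + 1 ∧ ∃ x y z w : ℤ, x * w - y * z = N ∧
      ((x : ℂ) * κ + y) / ((z : ℂ) * κ + w) = κ := by
  obtain ⟨a, b, c, habc, haH, hbH, hcH, h⟩ := hq
  obtain ⟨ha, hD⟩ := disc_pos hκ habc h
  obtain ⟨D, hDn⟩ := Int.eq_ofNat_of_zero_le hD.le
  have hDpos : 0 < D := by
    rw [hDn] at hD
    exact_mod_cast hD
  have hDle : D ≤ 4 * H ^ 2 := by
    have h1 : a * c ≤ H * H := by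
      calc a * c ≤ |a * c| := le_abs_self _
        _ = |a| * |c| := abs_mul _ _
        _ ≤ H * H := mul_le_mul haH hcH (abs_nonneg _) (by positivity)
    have h2 : (D : ℤ) ≤ 4 * H ^ 2 := by
      rw [← hDn]
      nlinarith [sq_nonneg b]
    exact_mod_cast h2
  have hden : ∀ w : ℤ, ((2 * a : ℤ) : ℂ) * κ + w ≠ 0 := by
    intro w h0
    have h1 := congrArg Complex.im h0
    simp only [Complex.add_im, Complex.mul_im, Complex.intCast_re, Complex.intCast_im,
      Complex.zero_im] at h1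
    push_cast at h1
    have haR : (a : ℝ) ≠ 0 := by exact_mod_cast ha
    have : (a : ℝ) * κ.im = 0 := by linarith
    exact mul_ne_zero haR hκ.ne' this
  by_cases hsq : IsSquare D
  · refine ⟨D + 1, by omega, ?_, by omega, 1 - b, -2 * c, 2 * a, 1 + b, ?_, ?_⟩
    · rintro ⟨n, hn⟩
      obtain ⟨m, hm⟩ := hsq
      have h1 : m < n := by
        by_contra hle
        push Not at hle
        have := Nat.mul_le_mul hle hle
        omega
      have h2 : (m + 1) * (m + 1) ≤ n * n := Nat.mul_le_mul h1 h1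
      have h3 : 0 < m := Nat.pos_of_ne_zero fun h0 => by
        rw [h0] at hm
        omega
      nlinarith
    · push_cast
      rw [← hDn]
      ring
    · rw [div_eq_iff (hden _)]
      push_cast
      linear_combination (-2 : ℂ) * h
  · refine ⟨D, hDpos, hsq, by omega, -b, -2 * c, 2 * a, b, ?_, ?_⟩
    · rw [← hDn]
      ring
    · rw [div_eq_iff (hden _)]
      push_cast
      linear_combination (-2 : ℂ) * h

end CMB

open CMB in
/-- Module CM. -/
theorem specCM (hJ : SpecJ)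
    (hPsi : ∀ N : ℕ, 0 < N → ∃ Ψ : ℤ[X], Ψ.natDegree ≤ N ^ 4 + 1 ∧ ∀ z : ℂ, 0 < z.im →
      aeval (Jc z) Ψ = ((∑ p ∈ N.divisorsAntidiagonal, p.2).factorial : ℂ) *
        ∏ p ∈ N.divisorsAntidiagonal, ∏ b ∈ Finset.range p.2,
          (Jc z - Jc (((p.1 : ℂ) * z + (b : ℂ)) / (p.2 : ℂ)))) : SpecCM := by
  obtain ⟨K, hK, hup, hlow⟩ := exists_K hJ
  have hKR : (1 : ℝ) ≤ K := by exact_mod_cast hK
  have hpi3 := Real.pi_gt_three
  have hpi4 := Real.pi_lt_d2
  refine ⟨20 + (16 * K + 2), fun H hH κ hκ hq => ?_⟩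
  obtain ⟨N, hN, hNsq, hNH, x, y, z, w, hdet, hfix⟩ := exists_stab hκ hq
  obtain ⟨Ψ, hdeg, hΨ⟩ := hPsi N hN
  have hNR : (1 : ℝ) ≤ N := by exact_mod_cast hN
  have hNKR : (1 : ℝ) ≤ N * K := by nlinarith
  -- `Jc κ` is a root
  have hroot : aeval (Jc κ) Ψ = 0 := by
    obtain ⟨p, hp, b, hb, he⟩ := exists_rep hJ N hN x y z w hdet hκ
    rw [hfix] at he
    rw [hΨ κ hκ]
    refine mul_eq_zero_of_right _ (Finset.prod_eq_zero hp (Finset.prod_eq_zero hb ?_))
    rw [← he, sub_self]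
  -- upper bound for the roots
  have hbd : ∀ v : ℂ, 1 ≤ v.im → ‖Jc v‖ ≤ Real.exp (2 * π * v.im) + K := by
    intro v hv
    have h1 := hup v hv
    have h2 : Jc v = cexp (-(2 * π * Complex.I * v)) + (Jc v - cexp (-(2 * π * Complex.I * v))) := by
      ring
    rw [h2, ← norm_q]
    exact (norm_add_le _ _).trans (by linarith)
  have hKexp : (K : ℝ) + 1 ≤ Real.exp (N * K) := by
    have := Real.add_one_le_exp ((N : ℝ) * K)
    nlinarith
  have hroots : ∀ r : ℂ, aeval r Ψ = 0 → ‖r‖ ≤ Real.exp (8 * (N * K)) := by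
    intro r hr
    obtain ⟨v, hv, rfl⟩ := hJ.surj r
    have hv0 : 0 < v.im := by linarith
    rw [hΨ v hv0, mul_eq_zero] at hr
    rcases hr with hr | hr
    · exact absurd hr (by exact_mod_cast Nat.factorial_ne_zero _)
    rw [Finset.prod_eq_zero_iff] at hr
    obtain ⟨p, hp, hr⟩ := hr
    rw [Finset.prod_eq_zero_iff] at hr
    obtain ⟨b, hb, hr⟩ := hr
    have hvN : v.im < N * K := by
      by_contra hle
      push Not at hle
      exact sep' hK hup hNsq hp b hle (sub_eq_zero.1 hr)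
    rcases le_total v.im 1 with h1 | h1
    · refine (hlow v hv h1).trans ?_
      have : Real.exp (N * K) ≤ Real.exp (8 * (N * K)) := by
        rw [Real.exp_le_exp]
        linarith
      linarith
    · refine (hbd v h1).trans ?_
      have h2 : Real.exp (2 * π * v.im) ≤ Real.exp (7 * (N * K)) := by
        rw [Real.exp_le_exp]
        nlinarith
      have h3 : (1 : ℝ) ≤ Real.exp (7 * (N * K)) := by
        rw [Real.one_le_exp_iff]
        positivity
      have h4 : Real.exp (8 * (N * K)) = Real.exp (7 * (N * K)) * Real.exp (N * K) := by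
        rw [← Real.exp_add]
        congr 1
        ring
      rw [h4]
      nlinarith
  -- the reference point
  set z₀ : ℂ := ((2 * (N * K) : ℝ) : ℂ) * Complex.I with hz₀
  have hz₀im : z₀.im = 2 * (N * K) := by
    rw [hz₀, Complex.mul_I_im, Complex.ofReal_re]
  have hz₀pos : 0 < z₀.im := by rw [hz₀im]; linarith
  have hΨ0 : aeval (Jc z₀) Ψ ≠ 0 := by
    rw [hΨ z₀ hz₀pos]
    refine mul_ne_zero (by exact_mod_cast Nat.factorial_ne_zero _) ?_
    rw [Finset.prod_ne_zero_iff]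
    intro p hp
    rw [Finset.prod_ne_zero_iff]
    intro b _
    exact sub_ne_zero.2 (sep' hK hup hNsq hp b (by rw [hz₀im]; linarith))
  have hΨne : Ψ ≠ 0 := by
    rintro rfl
    simp at hΨ0
  have hJ0 : Real.exp (8 * (N * K)) + 1 ≤ ‖Jc z₀‖ := by
    have h1 := hup z₀ (by rw [hz₀im]; linarith)
    have h2 : cexp (-(2 * π * Complex.I * z₀)) =
        Jc z₀ - (Jc z₀ - cexp (-(2 * π * Complex.I * z₀))) := by ring
    have h3 : ‖cexp (-(2 * π * Complex.I * z₀))‖ ≤ ‖Jc z₀‖ + K := by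
      nth_rewrite 1 [h2]
      exact (norm_sub_le _ _).trans (by linarith)
    rw [norm_q, hz₀im] at h3
    have h4 : Real.exp (12 * (N * K)) ≤ Real.exp (2 * π * (2 * (N * K))) := by
      rw [Real.exp_le_exp]
      nlinarith
    have h5 : Real.exp (12 * (N * K)) = Real.exp (8 * (N * K)) * Real.exp (4 * (N * K)) := by
      rw [← Real.exp_add]
      congr 1
      ring
    have h6 := Real.add_one_le_exp (4 * ((N : ℝ) * K))
    have h7 : (1 : ℝ) ≤ Real.exp (8 * (N * K)) := by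
      rw [Real.one_le_exp_iff]
      positivity
    have h8 : (K : ℝ) ≤ N * K := by nlinarith
    nlinarith
  have hlc : |(Ψ.leadingCoeff : ℝ)| ≤ ‖aeval (Jc z₀) Ψ‖ := by
    have hs : (Ψ.map (algebraMap ℤ ℂ)).Splits := IsAlgClosed.splits _
    have hinj : Function.Injective (algebraMap ℤ ℂ) := by
      intro a b hab
      simpa using hab
    rw [← eval_map_algebraMap, hs.eval_eq_prod_roots, norm_mul,
      leadingCoeff_map_of_injective hinj]
    have h1 : ‖(algebraMap ℤ ℂ) Ψ.leadingCoeff‖ = |(Ψ.leadingCoeff : ℝ)| := by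
      simp
    rw [h1]
    refine le_mul_of_one_le_right (abs_nonneg _) ?_
    have h2 : ∀ s : Multiset ℂ, (∀ r ∈ s, ‖r‖ ≤ Real.exp (8 * (N * K))) →
        1 ≤ ‖(s.map (fun r => Jc z₀ - r)).prod‖ := by
      intro s
      induction s using Multiset.induction_on with
      | empty => intro _; simp
      | cons r s ih =>
        intro hs
        rw [Multiset.map_cons, Multiset.prod_cons, norm_mul]
        have h3 := ih fun r hr => hs r (Multiset.mem_cons_of_mem hr)
        have h4 := hs r (Multiset.mem_cons_self r s)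
        have h5 : 1 ≤ ‖Jc z₀ - r‖ := by
          have := norm_sub_norm_le (Jc z₀) r
          linarith
        exact one_le_mul_of_one_le_of_one_le h5 h3
    refine h2 _ fun r hr => hroots r ?_
    exact (Polynomial.mem_aroots.1 hr).2
  -- size of the value at the reference point
  have hM : ∑ p ∈ N.divisorsAntidiagonal, p.2 ≤ N ^ 2 := by
    calc ∑ p ∈ N.divisorsAntidiagonal, p.2 ≤ ∑ _p ∈ N.divisorsAntidiagonal, N := by
          refine Finset.sum_le_sum fun p hp => ?_
          obtain ⟨hp1, hN0⟩ := Nat.mem_divisorsAntidiagonal.1 hp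
          exact Nat.le_of_dvd hN ⟨p.1, by rw [← hp1, mul_comm]⟩
      _ = N.divisorsAntidiagonal.card * N := by rw [Finset.sum_const, smul_eq_mul]
      _ ≤ N * N := by
          refine Nat.mul_le_mul_right _ ?_
          have h1 : N.divisorsAntidiagonal.card = N.divisors.card := by
            rw [← Nat.map_div_right_divisors, Finset.card_map]
          rw [h1]
          exact Nat.card_divisors_le_self N
      _ = N ^ 2 := by ring
  set M := ∑ p ∈ N.divisorsAntidiagonal, p.2 with hMdef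
  have hMR : (M : ℝ) ≤ (N : ℝ) ^ 2 := by exact_mod_cast hM
  have hfac : (M.factorial : ℝ) ≤ Real.exp ((N : ℝ) ^ 4) := by
    have h1 : (M.factorial : ℝ) ≤ (M : ℝ) ^ M := by exact_mod_cast Nat.factorial_le_pow M
    have h2 : (M : ℝ) ≤ Real.exp M := by
      have := Real.add_one_le_exp (M : ℝ)
      linarith
    calc (M.factorial : ℝ) ≤ (M : ℝ) ^ M := h1
      _ ≤ Real.exp M ^ M := by gcongr
      _ = Real.exp (M * M) := by rw [← Real.exp_nat_mul]
      _ ≤ Real.exp ((N : ℝ) ^ 4) := by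
        rw [Real.exp_le_exp]
        have h3 : (0 : ℝ) ≤ M := Nat.cast_nonneg M
        calc (M : ℝ) * M ≤ (N : ℝ) ^ 2 * (N : ℝ) ^ 2 := mul_le_mul hMR hMR h3 (by positivity)
          _ = (N : ℝ) ^ 4 := by ring
  have hfactor : ∀ p ∈ N.divisorsAntidiagonal, ∀ b ∈ Finset.range p.2,
      ‖Jc z₀ - Jc (((p.1 : ℂ) * z₀ + (b : ℂ)) / (p.2 : ℂ))‖ ≤ Real.exp (16 * (N ^ 2 * K)) := by
    intro p hp b _
    obtain ⟨hp1, hN0⟩ := Nat.mem_divisorsAntidiagonal.1 hp
    have ha : 0 < p.1 := Nat.pos_of_ne_zero fun h => hN0 (by rw [← hp1, h, zero_mul])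
    have hd : 0 < p.2 := Nat.pos_of_ne_zero fun h => hN0 (by rw [← hp1, h, mul_zero])
    have hdN : p.2 ≤ N := Nat.le_of_dvd hN ⟨p.1, by rw [← hp1, mul_comm]⟩
    have haN : p.1 ≤ N := Nat.le_of_dvd hN ⟨p.2, by rw [← hp1]⟩
    have haR : (1 : ℝ) ≤ p.1 := by exact_mod_cast ha
    have hdR : (1 : ℝ) ≤ p.2 := by exact_mod_cast hd
    have hdNR : (p.2 : ℝ) ≤ N := by exact_mod_cast hdN
    have haNR : (p.1 : ℝ) ≤ N := by exact_mod_cast haN
    have him : (((p.1 : ℂ) * z₀ + (b : ℂ)) / (p.2 : ℂ)).im = p.1 * (2 * (N * K)) / p.2 := by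
      have : ((p.1 : ℂ) * z₀ + (b : ℂ)) / (p.2 : ℂ) =
          ((p.1 : ℂ) * z₀ + (b : ℂ)) / ((p.2 : ℝ) : ℂ) := by norm_cast
      rw [this, Complex.div_ofReal_im, ← hz₀im]
      simp
    have h1 : 1 ≤ (((p.1 : ℂ) * z₀ + (b : ℂ)) / (p.2 : ℂ)).im := by
      rw [him, le_div_iff₀ (by linarith)]
      nlinarith
    have h2 : (((p.1 : ℂ) * z₀ + (b : ℂ)) / (p.2 : ℂ)).im ≤ 2 * (N ^ 2 * K) := by
      rw [him, div_le_iff₀ (by linarith)]
      have : (p.1 : ℝ) * (2 * (N * K)) ≤ N * (2 * (N * K)) := by gcongr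
      have h3 : (0 : ℝ) ≤ 2 * (N ^ 2 * K) := by positivity
      nlinarith
    have h3 := hbd _ h1
    have h4 := hbd z₀ (by rw [hz₀im]; linarith)
    have h5 : Real.exp (2 * π * (((p.1 : ℂ) * z₀ + (b : ℂ)) / (p.2 : ℂ)).im) ≤
        Real.exp (14 * (N ^ 2 * K)) := by
      rw [Real.exp_le_exp]
      have h6 : (0 : ℝ) ≤ N ^ 2 * K := by positivity
      nlinarith
    have h6 : Real.exp (2 * π * z₀.im) ≤ Real.exp (14 * (N ^ 2 * K)) := by
      rw [Real.exp_le_exp, hz₀im]
      have h6 : (N : ℝ) * K ≤ N ^ 2 * K := by nlinarith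
      nlinarith
    have h7 : Real.exp (16 * (N ^ 2 * K)) =
        Real.exp (14 * (N ^ 2 * K)) * Real.exp (2 * (N ^ 2 * K)) := by
      rw [← Real.exp_add]
      congr 1
      ring
    have h8 : 2 * ((K : ℝ) + 1) ≤ Real.exp (2 * (N ^ 2 * K)) := by
      have h9 : (1 : ℝ) + K ≤ Real.exp K := by
        have := Real.add_one_le_exp (K : ℝ)
        linarith
      have h10 : (2 : ℝ) ≤ Real.exp K := by
        have := Real.add_one_le_exp (K : ℝ)
        linarith
      calc 2 * ((K : ℝ) + 1) ≤ Real.exp K * Real.exp K := by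
            nlinarith
        _ = Real.exp (K + K) := by rw [Real.exp_add]
        _ ≤ Real.exp (2 * (N ^ 2 * K)) := by
          rw [Real.exp_le_exp]
          nlinarith [mul_le_mul hNR hNR zero_le_one (by linarith : (0 : ℝ) ≤ N)]
    have h9 : (1 : ℝ) ≤ Real.exp (14 * (N ^ 2 * K)) := by
      rw [Real.one_le_exp_iff]
      positivity
    calc ‖Jc z₀ - Jc (((p.1 : ℂ) * z₀ + (b : ℂ)) / (p.2 : ℂ))‖ ≤
        ‖Jc z₀‖ + ‖Jc (((p.1 : ℂ) * z₀ + (b : ℂ)) / (p.2 : ℂ))‖ := norm_sub_le _ _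
      _ ≤ 2 * Real.exp (14 * (N ^ 2 * K)) + 2 * K := by linarith
      _ ≤ Real.exp (14 * (N ^ 2 * K)) * (2 * ((K : ℝ) + 1)) := by nlinarith
      _ ≤ Real.exp (16 * (N ^ 2 * K)) := by
        rw [h7]
        gcongr
  have hval : ‖aeval (Jc z₀) Ψ‖ ≤ Real.exp (N ^ 4 * (1 + 16 * K)) := by
    rw [hΨ z₀ hz₀pos, norm_mul, norm_prod]
    have h1 : ∏ p ∈ N.divisorsAntidiagonal,
        ‖∏ b ∈ Finset.range p.2, (Jc z₀ - Jc (((p.1 : ℂ) * z₀ + (b : ℂ)) / (p.2 : ℂ)))‖ ≤
        ∏ p ∈ N.divisorsAntidiagonal, Real.exp (16 * (N ^ 2 * K)) ^ p.2 := by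
      refine Finset.prod_le_prod (fun p _ => norm_nonneg _) fun p hp => ?_
      rw [norm_prod]
      refine (Finset.prod_le_prod (fun b _ => norm_nonneg _) (hfactor p hp)).trans ?_
      rw [Finset.prod_const, Finset.card_range]
    rw [Finset.prod_pow_eq_pow_sum, ← hMdef] at h1
    have h2 : Real.exp (16 * (N ^ 2 * K)) ^ M ≤ Real.exp (16 * (N ^ 4 * K)) := by
      rw [← Real.exp_nat_mul, Real.exp_le_exp]
      have h6 : (0 : ℝ) ≤ 16 * (N ^ 2 * K) := by positivity
      nlinarith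
    rw [RCLike.norm_natCast]
    calc (M.factorial : ℝ) * ∏ p ∈ N.divisorsAntidiagonal,
        ‖∏ b ∈ Finset.range p.2, (Jc z₀ - Jc (((p.1 : ℂ) * z₀ + (b : ℂ)) / (p.2 : ℂ)))‖
        ≤ Real.exp ((N : ℝ) ^ 4) * Real.exp (16 * (N ^ 4 * K)) := by
          refine mul_le_mul hfac (h1.trans h2) ?_ (Real.exp_pos _).le
          exact Finset.prod_nonneg fun p _ => norm_nonneg _
      _ = Real.exp (N ^ 4 * (1 + 16 * K)) := by
          rw [← Real.exp_add]
          congr 1
          ring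
  -- conclusion
  have hfin : N ^ 4 * (16 * K + 2) ≤ H ^ (20 + (16 * K + 2)) := by
    have h1 : N ≤ H ^ 5 := by
      refine hNH.trans ?_
      have h2 : 8 ≤ H ^ 3 := by
        calc 8 = 2 ^ 3 := by norm_num
          _ ≤ H ^ 3 := Nat.pow_le_pow_left hH 3
      have h3 : 1 ≤ H ^ 2 := Nat.one_le_pow _ _ (by omega)
      have h4 : H ^ 5 = H ^ 2 * H ^ 3 := by ring
      rw [h4]
      nlinarith
    have h2 : N ^ 4 ≤ H ^ 20 := by
      calc N ^ 4 ≤ (H ^ 5) ^ 4 := Nat.pow_le_pow_left h1 4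
        _ = H ^ 20 := by rw [← pow_mul]
    have h3 : 16 * K + 2 ≤ H ^ (16 * K + 2) :=
      (Nat.lt_two_pow_self).le.trans (Nat.pow_le_pow_left hH _)
    rw [pow_add]
    exact Nat.mul_le_mul h2 h3
  have hN4 : 1 ≤ N ^ 4 := Nat.one_le_pow _ _ hN
  have hfinR : ((N : ℝ) ^ 4 * (16 * K + 2)) ≤ ((H ^ (20 + (16 * K + 2)) : ℕ) : ℝ) := by
    exact_mod_cast hfin
  have hN4R : (1 : ℝ) ≤ (N : ℝ) ^ 4 := by exact_mod_cast hN4
  have hNN4 : (N : ℝ) ≤ (N : ℝ) ^ 4 := by
    exact_mod_cast Nat.le_self_pow (by norm_num) N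
  refine ⟨Ψ, hΨne, hroot, ?_, ?_, fun r hr => ?_⟩
  · refine hdeg.trans (le_trans ?_ hfin)
    nlinarith
  · refine hlc.trans (hval.trans ?_)
    rw [Real.exp_le_exp]
    refine le_trans ?_ hfinR
    nlinarith
  · refine (hroots r (Polynomial.mem_aroots.1 hr).2).trans ?_
    rw [Real.exp_le_exp]
    refine le_trans ?_ hfinR
    nlinarith

end Pool.Agent.Lib.MP_47914d_nt
end

section
set_option autoImplicit false

open UpperHalfPlane hiding I
open Complex Filter Topology Polynomial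
open scoped Real

namespace Pool.Agent.Lib.MP_47914d_nt

lemma exists_int_poly {σ : Type*} (P : MvPolynomial σ ℚ) : ∃ (d : ℤ) (P' : MvPolynomial σ ℤ),
    d ≠ 0 ∧ MvPolynomial.map (Int.castRingHom ℚ) P' = MvPolynomial.C (d : ℚ) * P := by
  classical
  obtain ⟨b, hb⟩ := IsLocalization.exist_integer_multiples (nonZeroDivisors ℤ) P.support
    (fun m => MvPolynomial.coeff m P)
  have hb' : ∀ m ∈ P.support, ∃ k : ℤ, (k : ℚ) = (b : ℤ) * MvPolynomial.coeff m P := by
    intro m hm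
    obtain ⟨k, hk⟩ := hb m hm
    refine ⟨k, ?_⟩
    have h2 : (algebraMap ℤ ℚ) k = (b : ℤ) • MvPolynomial.coeff m P := hk
    rw [zsmul_eq_mul] at h2
    simpa using h2
  choose! k hk using hb'
  refine ⟨b, ∑ m ∈ P.support, MvPolynomial.monomial m (k m), nonZeroDivisors.coe_ne_zero b, ?_⟩
  rw [map_sum]
  conv_rhs => rw [P.as_sum, Finset.mul_sum]
  refine Finset.sum_congr rfl fun m hm => ?_
  rw [MvPolynomial.map_monomial, MvPolynomial.C_mul_monomial, ← hk m hm]
  rfl

/-- To prove algebraic independence over `ℚ` it is enough to consider integer polynomials. -/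
lemma algebraicIndependent_of_int {σ : Type*} (x : σ → ℂ)
    (h : ∀ P : MvPolynomial σ ℤ, P ≠ 0 → MvPolynomial.aeval x P ≠ 0) :
    AlgebraicIndependent ℚ x := by
  rw [algebraicIndependent_iff]
  intro P hP
  by_contra hne
  obtain ⟨d, P', hd, hP'⟩ := exists_int_poly P
  have h1 : P' ≠ 0 := by
    rintro rfl
    rw [map_zero] at hP'
    have := mul_ne_zero (MvPolynomial.C_ne_zero.mpr (Int.cast_ne_zero.mpr hd)) hne
    exact this hP'.symm
  apply h P' h1
  have h2 : MvPolynomial.aeval x (MvPolynomial.map (Int.castRingHom ℚ) P') =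
      MvPolynomial.aeval x P' := MvPolynomial.aeval_map_algebraMap ℚ x P'
  rw [← h2, hP', map_mul, hP, mul_zero]

lemma AlgData.mono {α : ℂ} {B B' : ℕ} (h : AlgData α B) (hB : B ≤ B') : AlgData α B' := by
  obtain ⟨F, h0, h1, h2, h3, h4⟩ := h
  have he : Real.exp B ≤ Real.exp B' := Real.exp_le_exp.mpr (by exact_mod_cast hB)
  exact ⟨F, h0, h1, h2.trans hB, h3.trans he, fun r hr => (h4 r hr).trans he⟩

/-- Quadratic numbers of height `H` have controlled algebraic data. -/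
lemma QuadHeight.algData {κ : ℂ} {H : ℕ} (hH : 2 ≤ H) (h : QuadHeight κ H) :
    AlgData κ (H ^ 2) := by
  obtain ⟨a, b, c, h0, ha, hb, hc, hk⟩ := h
  set F : ℤ[X] := C a * X ^ 2 + C b * X + C c with hF
  have e2 : F.coeff 2 = a := by
    simp only [hF, coeff_add, coeff_C_mul, coeff_X_pow, coeff_X, coeff_C]; norm_num
  have e1 : F.coeff 1 = b := by
    simp only [hF, coeff_add, coeff_C_mul, coeff_X_pow, coeff_X, coeff_C]; norm_num
  have e0 : F.coeff 0 = c := by
    simp only [hF, coeff_add, coeff_C_mul, coeff_X_pow, coeff_X, coeff_C]; norm_num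
  have hF0 : F ≠ 0 := by
    intro h
    rw [h] at e0 e1 e2
    simp only [coeff_zero] at e0 e1 e2
    rcases h0 with h0 | h0 | h0
    · exact h0 e2.symm
    · exact h0 e1.symm
    · exact h0 e0.symm
  have hHr : (2 : ℝ) ≤ H := by exact_mod_cast hH
  have hexp : (H : ℝ) ^ 2 + 1 ≤ Real.exp ((H ^ 2 : ℕ) : ℝ) := by
    have := Real.add_one_le_exp (((H ^ 2 : ℕ) : ℝ))
    push_cast at this ⊢
    linarith
  have hHe : (H : ℝ) ≤ Real.exp ((H ^ 2 : ℕ) : ℝ) := by nlinarith
  have haR : |(a : ℝ)| ≤ H := by exact_mod_cast ha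
  have hbR : |(b : ℝ)| ≤ H := by exact_mod_cast hb
  have hcR : |(c : ℝ)| ≤ H := by exact_mod_cast hc
  refine ⟨F, hF0, ?_, ?_, ?_, ?_⟩
  · simp only [hF, map_add, map_mul, map_pow, aeval_X, aeval_C]
    simpa using hk
  · have : F.natDegree ≤ 2 := by
      rw [hF]; compute_degree
    nlinarith
  · have hdeg : F.natDegree ≤ 2 := by
      rw [hF]; compute_degree
    have : |(F.leadingCoeff : ℝ)| ≤ H := by
      rw [leadingCoeff]
      interval_cases F.natDegree
      · rw [e0]; exact hcR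
      · rw [e1]; exact hbR
      · rw [e2]; exact haR
    exact this.trans hHe
  · intro r hr
    have hr2 : aeval r F = 0 := by
      have := (mem_aroots.mp hr).2
      exact this
    simp only [hF, map_add, map_mul, map_pow, aeval_X, aeval_C] at hr2
    have hr3 : (a : ℂ) * r ^ 2 + (b : ℂ) * r + (c : ℂ) = 0 := by simpa using hr2
    by_contra hlt
    push Not at hlt
    have hbig : (H : ℝ) ^ 2 + 1 < ‖r‖ := lt_of_le_of_lt hexp hlt
    have hr1 : 1 < ‖r‖ := by nlinarith
    rcases eq_or_ne a 0 with rfl | ha0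
    · rcases eq_or_ne b 0 with rfl | hb0
      · have hc0 : c ≠ 0 := by simpa using h0
        simp at hr3
        exact hc0 hr3
      · have h1 : (b : ℂ) * r = -c := by
          have := hr3
          simp only [Int.cast_zero, zero_mul, zero_add] at this
          linear_combination this
        have h2 := congrArg norm h1
        rw [norm_mul, norm_neg, Complex.norm_intCast, Complex.norm_intCast] at h2
        have h3 : (1 : ℝ) ≤ |(b : ℝ)| := by
          exact_mod_cast Int.one_le_abs hb0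
        nlinarith [norm_nonneg r]
    · have h1 : (a : ℂ) * r ^ 2 = -((b : ℂ) * r + c) := by linear_combination hr3
      have h2 := congrArg norm h1
      rw [norm_mul, norm_neg, norm_pow, Complex.norm_intCast] at h2
      have h4 := norm_add_le ((b : ℂ) * r) (c : ℂ)
      rw [norm_mul, Complex.norm_intCast, Complex.norm_intCast] at h4
      have h3 : (1 : ℝ) ≤ |(a : ℝ)| := by
        exact_mod_cast Int.one_le_abs ha0
      have h5 : ‖r‖ ^ 2 ≤ |(a : ℝ)| * ‖r‖ ^ 2 := le_mul_of_one_le_left (by positivity) h3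
      have h6 : |(b : ℝ)| * ‖r‖ ≤ H * ‖r‖ := mul_le_mul_of_nonneg_right hbR (norm_nonneg r)
      have h7 : (H : ℝ) ≤ H * ‖r‖ := le_mul_of_one_le_right (by positivity) hr1.le
      have h8 : ‖r‖ ^ 2 ≤ 2 * H * ‖r‖ := by nlinarith
      have h9 : ‖r‖ ≤ 2 * H := by
        by_contra h
        push Not at h
        nlinarith
      nlinarith

/-- The Möbius transformation `t ↦ (α t + β) / (γ t + δ)`. -/
noncomputable def moeb (α β γ δ t : ℂ) : ℂ := (α * t + β) / (γ * t + δ)

lemma moeb_im (α β γ δ t : ℂ) : (moeb α β γ δ t).im = Qf α β γ δ t / normSq (γ * t + δ) := by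
  rw [moeb, Qf, div_eq_mul_inv, Complex.inv_def, ← mul_assoc, Complex.im_mul_ofReal, div_eq_mul_inv]

lemma denom_ne {α β γ δ t : ℂ} (h : 0 < Qf α β γ δ t) : γ * t + δ ≠ 0 := by
  intro h0
  rw [Qf, h0] at h
  simp at h

lemma moeb_pos {α β γ δ t : ℂ} (h : 0 < Qf α β γ δ t) : 0 < (moeb α β γ δ t).im := by
  rw [moeb_im]
  exact div_pos h (Complex.normSq_pos.mpr (denom_ne h))

/-- The point `(t, j(g₁ t), …, j(gₙ t))`. -/
noncomputable def ptc {n : ℕ} (α β γ δ : Fin n → ℂ) (t : ℂ) (o : Option (Fin n)) : ℂ :=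
  o.elim t (fun i => Jc (moeb (α i) (β i) (γ i) (δ i) t))

lemma ptc_differentiable {n : ℕ} (hJ : SpecJ) (α β γ δ : Fin n → ℂ) {t : ℂ}
    (ht : ∀ i, 0 < Qf (α i) (β i) (γ i) (δ i) t) (o : Option (Fin n)) :
    DifferentiableAt ℂ (fun s => ptc α β γ δ s o) t := by
  rcases o with _ | i
  · simp only [ptc, Option.elim]
    exact differentiableAt_id
  · simp only [ptc, Option.elim]
    have h1 : DifferentiableAt ℂ Jc (moeb (α i) (β i) (γ i) (δ i) t) :=
      (hJ.holo).differentiableAt ((isOpen_lt continuous_const Complex.continuous_im).mem_nhds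
        (moeb_pos (ht i)))
    have h2 : DifferentiableAt ℂ (fun s => moeb (α i) (β i) (γ i) (δ i) s) t := by
      unfold moeb
      exact ((differentiableAt_id.const_mul _).add_const _).div
        ((differentiableAt_id.const_mul _).add_const _) (denom_ne (ht i))
    exact h1.comp t h2

lemma aeval_differentiable {n : ℕ} (hJ : SpecJ) (α β γ δ : Fin n → ℂ) {t : ℂ}
    (ht : ∀ i, 0 < Qf (α i) (β i) (γ i) (δ i) t) (P : MvPolynomial (Option (Fin n)) ℤ) :
    DifferentiableAt ℂ (fun s => MvPolynomial.aeval (ptc α β γ δ s) P) t := by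
  induction P using MvPolynomial.induction_on with
  | C a => simp only [MvPolynomial.aeval_C]; exact differentiableAt_const _
  | add p q hp hq => simp only [map_add]; exact hp.add hq
  | mul_X p i hp =>
    simp only [map_mul, MvPolynomial.aeval_X]
    exact hp.mul (ptc_differentiable hJ α β γ δ ht i)

/-- The approximation hypothesis: `θ` is extremely well approximable by quadratic numbers `κ` all
of whose Möbius images are quadratic of controlled height. -/
def Approx {n : ℕ} (α β γ δ : Fin n → ℂ) (θ : ℂ) : Prop :=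
  ∀ A : ℕ, ∃ H : ℕ, 2 ≤ H ∧ ∃ κ : ℂ, κ ≠ θ ∧ ‖κ - θ‖ < Real.exp (-(H : ℝ) ^ A) ∧
    QuadHeight κ H ∧ ∀ i, QuadHeight (moeb (α i) (β i) (γ i) (δ i) κ) H

theorem core (hJ : SpecJ) (hCM : SpecCM) (hL : SpecLiouville) (hF : SpecFunc)
    {n : ℕ} (α β γ δ : Fin n → ℂ) (θ : ℂ)
    (hdet : ∀ i, α i * δ i - β i * γ i ≠ 0)
    (hθ : ∀ i, 0 < Qf (α i) (β i) (γ i) (δ i) θ)
    (hne : ∀ i k, i ≠ k → ¬ ∃ c : ℝ, ∀ t : ℂ,
      Qf (α i) (β i) (γ i) (δ i) t = c * Qf (α k) (β k) (γ k) (δ k) t)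
    (happ : Approx α β γ δ θ) :
    AlgebraicIndependent ℚ (ptc α β γ δ θ) := by
  refine algebraicIndependent_of_int _ fun P hP0 hP => ?_
  obtain ⟨C1, hC1⟩ := hCM
  obtain ⟨C2, hC2⟩ := hL (n + 1) (MvPolynomial.rename (finSuccEquiv n).symm P)
  set F : ℂ → ℂ := fun t => MvPolynomial.aeval (ptc α β γ δ t) P with hFdef
  -- open neighbourhood where all images are in the upper half plane
  have hcont : ∀ i, Continuous fun t => Qf (α i) (β i) (γ i) (δ i) t := by
    intro i
    unfold Qf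
    fun_prop
  have hU : ∀ᶠ t in 𝓝 θ, ∀ i, 0 < Qf (α i) (β i) (γ i) (δ i) t := by
    rw [Filter.eventually_all]
    intro i
    exact (hcont i).continuousAt.eventually (lt_mem_nhds (hθ i))
  have hdiff : DifferentiableAt ℂ F θ := aeval_differentiable hJ α β γ δ hθ P
  have han : AnalyticAt ℂ F θ := by
    rw [Complex.analyticAt_iff_eventually_differentiableAt]
    filter_upwards [hU] with t ht using aeval_differentiable hJ α β γ δ ht P
  -- Lipschitz bound
  obtain ⟨L, hLip⟩ := (hdiff.isBigO_sub).bound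
  have hF0 : F θ = 0 := hP
  simp only [hF0, sub_zero] at hLip
  -- values at good approximations vanish
  have hfreq : ∃ᶠ t in 𝓝[≠] θ, F t = 0 := by
    rw [Filter.frequently_iff]
    intro V hV
    have hall := (hLip.and hU)
    rw [mem_nhdsWithin_iff_eventually] at hV
    obtain ⟨ε, hε, hball⟩ := Metric.eventually_nhds_iff.mp (hall.and hV)
    -- choose A
    obtain ⟨k, hk⟩ := exists_nat_gt (max (Real.log (|L| + 1)) (-Real.log ε))
    set D : ℕ := (C1 + 2) * C2 with hD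
    obtain ⟨H, hH, κ, hκθ, hκ, hq, hqi⟩ := happ (D + k + 1)
    have hHr : (2 : ℝ) ≤ H := by exact_mod_cast hH
    have hH1 : (1 : ℝ) ≤ H := by linarith
    have hkH : (k : ℝ) ≤ (H : ℝ) ^ k := by
      have h1 : (k : ℝ) < (2 : ℝ) ^ k := by exact_mod_cast Nat.lt_two_pow_self
      exact h1.le.trans (pow_le_pow_left₀ (by norm_num) hHr k)
    have hpow1 : (1 : ℝ) ≤ (H : ℝ) ^ D := one_le_pow₀ hH1
    have hpk : (1 : ℝ) ≤ (H : ℝ) ^ k := one_le_pow₀ hH1
    have hbig : (H : ℝ) ^ D + k ≤ (H : ℝ) ^ (D + k + 1) := by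
      have e : (H : ℝ) ^ (D + k + 1) = (H : ℝ) ^ D * (H : ℝ) ^ k * H := by ring
      rw [e]
      have h1 : (H : ℝ) ^ D + (H : ℝ) ^ k ≤ 2 * ((H : ℝ) ^ D * (H : ℝ) ^ k) := by nlinarith
      have h2 : 2 * ((H : ℝ) ^ D * (H : ℝ) ^ k) ≤ (H : ℝ) ^ D * (H : ℝ) ^ k * H := by
        nlinarith [mul_pos (lt_of_lt_of_le one_pos hpow1) (lt_of_lt_of_le one_pos hpk)]
      linarith
    have hsmall : Real.exp (-(H : ℝ) ^ (D + k + 1)) < ε := by
      have h1 : -(H : ℝ) ^ (D + k + 1) < Real.log ε := by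
        have := (max_lt_iff.mp hk).2
        linarith
      calc Real.exp (-(H : ℝ) ^ (D + k + 1)) < Real.exp (Real.log ε) := Real.exp_lt_exp.mpr h1
        _ = ε := Real.exp_log hε
    have hκε : dist κ θ < ε := by
      rw [Complex.dist_eq]; exact hκ.trans hsmall
    obtain ⟨⟨hLκ, hUκ⟩, hVκ⟩ := hball hκε
    refine ⟨κ, hVκ hκθ, ?_⟩
    have hB : 2 ≤ H ^ (C1 + 2) := by
      calc 2 ≤ H := hH
        _ = H ^ 1 := (pow_one H).symm
        _ ≤ H ^ (C1 + 2) := Nat.pow_le_pow_right (by omega) (by omega)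
    have hdata : ∀ j : Fin (n + 1), AlgData ((ptc α β γ δ κ) (finSuccEquiv n j)) (H ^ (C1 + 2)) := by
      intro j
      rcases h : finSuccEquiv n j with _ | i
      · exact (hq.algData hH).mono (Nat.pow_le_pow_right (by omega) (by omega))
      · exact (hC1 H hH _ (moeb_pos (hUκ i)) (hqi i)).mono
          (Nat.pow_le_pow_right (by omega) (by omega))
    have hval : MvPolynomial.aeval (fun j => (ptc α β γ δ κ) (finSuccEquiv n j))
        (MvPolynomial.rename (finSuccEquiv n).symm P) = F κ := by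
      rw [MvPolynomial.aeval_rename]
      have : (fun j => ptc α β γ δ κ ((finSuccEquiv n) j)) ∘ (finSuccEquiv n).symm =
          ptc α β γ δ κ := by
        funext o
        simp
      rw [this]
    rcases hC2 (H ^ (C1 + 2)) hB _ hdata with h0 | h0
    · rw [hval] at h0; exact h0
    · exfalso
      rw [hval] at h0
      have h1 : ‖F κ‖ ≤ (|L| + 1) * Real.exp (-(H : ℝ) ^ (D + k + 1)) := by
        refine hLκ.trans ?_
        have h2 : L * ‖κ - θ‖ ≤ (|L| + 1) * ‖κ - θ‖ :=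
          mul_le_mul_of_nonneg_right (by linarith [le_abs_self L]) (norm_nonneg _)
        exact h2.trans (mul_le_mul_of_nonneg_left hκ.le (by positivity))
      have h3 : (|L| + 1) * Real.exp (-(H : ℝ) ^ (D + k + 1)) <
          Real.exp (-((H ^ (C1 + 2) : ℕ) : ℝ) ^ C2) := by
        have hL1 : 0 < |L| + 1 := by positivity
        calc (|L| + 1) * Real.exp (-(H : ℝ) ^ (D + k + 1))
            = Real.exp (Real.log (|L| + 1)) * Real.exp (-(H : ℝ) ^ (D + k + 1)) := by
              rw [Real.exp_log hL1]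
          _ = Real.exp (Real.log (|L| + 1) - (H : ℝ) ^ (D + k + 1)) := by
              rw [← Real.exp_add]; ring_nf
          _ < _ := by
              apply Real.exp_lt_exp.mpr
              have h4 := (max_lt_iff.mp hk).1
              have h5 : (((H ^ (C1 + 2) : ℕ) : ℝ)) ^ C2 = (H : ℝ) ^ D := by
                push_cast
                rw [hD, pow_mul]
              rw [h5]
              linarith
      linarith
  have hev : ∀ᶠ t in 𝓝 θ, F t = 0 := han.frequently_zero_iff_eventually_zero.mp hfreq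
  -- contradiction with functional independence
  have hPC : MvPolynomial.map (Int.castRingHom ℂ) P ≠ 0 := by
    intro h
    apply hP0
    exact MvPolynomial.map_injective (Int.castRingHom ℂ) Int.cast_injective (by rw [h, map_zero])
  apply hF n α β γ δ θ hdet hθ hne _ hPC
  filter_upwards [hev] with t ht
  have e : MvPolynomial.eval (ptc α β γ δ t) (MvPolynomial.map (Int.castRingHom ℂ) P) = F t := by
    rw [MvPolynomial.eval_map, hFdef]
    rfl
  have e2 : (fun o : Option (Fin n) => o.elim t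
      (fun i => Jc ((α i * t + β i) / (γ i * t + δ i)))) = ptc α β γ δ t := by
    funext o
    rcases o with _ | i <;> rfl
  rw [e2, e, ht]

end Pool.Agent.Lib.MP_47914d_nt
end

section
/-!
Functional independence of `t, j(g₁ t), …, j(gₙ t)` for pairwise distinct discs.
-/
set_option autoImplicit false

open UpperHalfPlane ModularForm Complex Polynomial Filter Topology Set
open scoped Real MatrixGroups

namespace Pool.Agent.Lib.MP_47914d_nt

section Circles

theorem im_mul_conj_eq {z w : ℂ} (h : w ≠ 0) :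
    (z * (starRingEnd ℂ) w).im = Complex.normSq w * (z / w).im := by
  have hw : Complex.normSq w ≠ 0 := by
    rw [Ne, Complex.normSq_eq_zero]; exact h
  rw [Complex.div_im, Complex.mul_im, Complex.conj_re, Complex.conj_im]
  field_simp
  ring

theorem Qf_of_ne {α β γ δ t : ℂ} (h : γ * t + δ ≠ 0) :
    Qf α β γ δ t = Complex.normSq (γ * t + δ) * ((α * t + β) / (γ * t + δ)).im :=
  im_mul_conj_eq h

theorem Qf_of_eq {α β γ δ t : ℂ} (h : γ * t + δ = 0) : Qf α β γ δ t = 0 := by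
  unfold Qf
  rw [h]; simp

theorem Qf_pos {α β γ δ t : ℂ} (h : 0 < Qf α β γ δ t) :
    γ * t + δ ≠ 0 ∧ 0 < ((α * t + β) / (γ * t + δ)).im := by
  have h0 : γ * t + δ ≠ 0 := by
    intro h0
    rw [Qf_of_eq h0] at h
    exact lt_irrefl _ h
  refine ⟨h0, ?_⟩
  rw [Qf_of_ne h0] at h
  have hw : 0 ≤ Complex.normSq (γ * t + δ) := Complex.normSq_nonneg _
  by_contra h1
  push Not at h1
  have := mul_nonneg hw (neg_nonneg.2 h1)
  linarith [neg_mul_eq_mul_neg (Complex.normSq (γ * t + δ)) ((α * t + β) / (γ * t + δ)).im]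

theorem Qf_pos_of {α β γ δ t : ℂ} (h0 : γ * t + δ ≠ 0)
    (h : 0 < ((α * t + β) / (γ * t + δ)).im) : 0 < Qf α β γ δ t := by
  rw [Qf_of_ne h0]
  exact mul_pos (Complex.normSq_pos.2 h0) h

theorem Qf_continuous (α β γ δ : ℂ) : Continuous (Qf α β γ δ) := by
  unfold Qf
  exact Complex.continuous_im.comp ((by fun_prop : Continuous fun t : ℂ => α * t + β).mul
    (Complex.continuous_conj.comp (by fun_prop : Continuous fun t : ℂ => γ * t + δ)))

/-- expansion around a point -/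
theorem Qf_add (α β γ δ p u : ℂ) :
    Qf α β γ δ (p + u) = (α * (starRingEnd ℂ) γ).im * Complex.normSq u
      + ((α * (starRingEnd ℂ) (γ * p + δ) - (starRingEnd ℂ) (α * p + β) * γ) * u).im
      + Qf α β γ δ p := by
  unfold Qf
  simp only [Complex.mul_im, Complex.mul_re, Complex.add_im, Complex.add_re, Complex.sub_re,
    Complex.sub_im, Complex.conj_re, Complex.conj_im, Complex.normSq_apply]
  ring

theorem two_points {v w : ℂ} (hv : v ≠ 0) (hw : w ≠ 0) (hvw : v ≠ w) {a : ℝ} {b : ℂ}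
    (h1 : a * Complex.normSq v + (b * v).im = 0) (h2 : a * Complex.normSq w + (b * w).im = 0) :
    ∃ r : ℝ, a = r * (-(((starRingEnd ℂ) v)⁻¹ *
      (((starRingEnd ℂ) v)⁻¹ - ((starRingEnd ℂ) w)⁻¹)⁻¹).im) ∧
      b = r * (((starRingEnd ℂ) v)⁻¹ - ((starRingEnd ℂ) w)⁻¹)⁻¹ := by
  set v' := ((starRingEnd ℂ) v)⁻¹ with hv'
  set w' := ((starRingEnd ℂ) w)⁻¹ with hw'
  have key : ∀ {z : ℂ}, z ≠ 0 → a * Complex.normSq z + (b * z).im = 0 →
      a + (b * ((starRingEnd ℂ) z)⁻¹).im = 0 := by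
    intro z hz h
    have hn : Complex.normSq z ≠ 0 := by rw [Ne, Complex.normSq_eq_zero]; exact hz
    have hc : (starRingEnd ℂ) z ≠ 0 := by simpa using hz
    have e : b * ((starRingEnd ℂ) z)⁻¹ = ((Complex.normSq z)⁻¹ : ℝ) * (b * z) := by
      rw [Complex.ofReal_inv, Complex.normSq_eq_conj_mul_self]
      field_simp
    rw [e, Complex.im_ofReal_mul]
    field_simp
    linarith
  have k1 := key hv h1
  have k2 := key hw h2
  rw [← hv'] at k1
  rw [← hw'] at k2
  have hne : v' - w' ≠ 0 := by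
    intro h0
    apply hvw
    have : v' = w' := sub_eq_zero.1 h0
    rw [hv', hw', inv_inj] at this
    exact (starRingEnd ℂ).injective this
  have him : (b * (v' - w')).im = 0 := by
    rw [mul_sub, Complex.sub_im]
    linarith
  refine ⟨(b * (v' - w')).re, ?_, ?_⟩
  · have e : b = ((b * (v' - w')).re : ℂ) * (v' - w')⁻¹ := by
      have h3 : b * (v' - w') = ((b * (v' - w')).re : ℂ) := by
        apply Complex.ext
        · simp
        · rw [him]; simp
      rw [← h3]
      field_simp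
    have h4 : (b * v').im = (b * (v' - w')).re * (v' * (v' - w')⁻¹).im := by
      conv_lhs => rw [e]
      rw [show ((b * (v' - w')).re : ℂ) * (v' - w')⁻¹ * v'
        = ((b * (v' - w')).re : ℂ) * (v' * (v' - w')⁻¹) by ring, Complex.im_ofReal_mul]
    linarith
  · have h3 : b * (v' - w') = ((b * (v' - w')).re : ℂ) := by
      apply Complex.ext
      · simp
      · rw [him]; simp
    rw [← h3]
    field_simp

/-- two circle forms with three common zeros are proportional -/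
theorem three_zeros {α β γ δ α' β' γ' δ' : ℂ} {p q r θ : ℂ} (hpq : p ≠ q) (hpr : p ≠ r)
    (hqr : q ≠ r) (hp : Qf α β γ δ p = 0) (hq : Qf α β γ δ q = 0) (hr : Qf α β γ δ r = 0)
    (hp' : Qf α' β' γ' δ' p = 0) (hq' : Qf α' β' γ' δ' q = 0) (hr' : Qf α' β' γ' δ' r = 0)
    (hθ : Qf α' β' γ' δ' θ ≠ 0) :
    ∃ c : ℝ, ∀ t, Qf α β γ δ t = c * Qf α' β' γ' δ' t := by
  have e : ∀ {α β γ δ : ℂ}, Qf α β γ δ p = 0 → ∀ t, Qf α β γ δ t
      = (α * (starRingEnd ℂ) γ).im * Complex.normSq (t - p)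
      + ((α * (starRingEnd ℂ) (γ * p + δ) - (starRingEnd ℂ) (α * p + β) * γ) * (t - p)).im := by
    intro α β γ δ h t
    have := Qf_add α β γ δ p (t - p)
    rw [add_sub_cancel, h] at this
    linarith
  have hq0 : q - p ≠ 0 := sub_ne_zero.2 hpq.symm
  have hr0 : r - p ≠ 0 := sub_ne_zero.2 hpr.symm
  have hqr0 : q - p ≠ r - p := by
    intro h
    apply hqr
    linear_combination h
  obtain ⟨x, hx1, hx2⟩ := two_points hq0 hr0 hqr0 ((e hp q).symm.trans hq) ((e hp r).symm.trans hr)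
  obtain ⟨y, hy1, hy2⟩ := two_points hq0 hr0 hqr0 ((e hp' q).symm.trans hq') ((e hp' r).symm.trans hr')
  have hy : y ≠ 0 := by
    intro h
    apply hθ
    rw [e hp' θ, hy1, hy2, h]
    simp
  refine ⟨x / y, fun t => ?_⟩
  rw [e hp t, e hp' t, hx1, hx2, hy1, hy2, mul_assoc (x : ℂ), mul_assoc (y : ℂ),
    Complex.im_ofReal_mul, Complex.im_ofReal_mul]
  field_simp

theorem finite_common {α β γ δ α' β' γ' δ' : ℂ} {θ : ℂ} (hθ : Qf α' β' γ' δ' θ ≠ 0)
    (hne : ¬ ∃ c : ℝ, ∀ t, Qf α β γ δ t = c * Qf α' β' γ' δ' t) :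
    {z | Qf α β γ δ z = 0 ∧ Qf α' β' γ' δ' z = 0}.Finite := by
  by_contra h
  have hinf : {z | Qf α β γ δ z = 0 ∧ Qf α' β' γ' δ' z = 0}.Infinite := h
  obtain ⟨t, ht, hcard⟩ := hinf.exists_subset_card_eq 3
  rw [Finset.card_eq_three] at hcard
  obtain ⟨x, y, z, hxy, hxz, hyz, rfl⟩ := hcard
  have hx := ht (show x ∈ (({x, y, z} : Finset ℂ) : Set ℂ) by simp)
  have hy := ht (show y ∈ (({x, y, z} : Finset ℂ) : Set ℂ) by simp)
  have hz := ht (show z ∈ (({x, y, z} : Finset ℂ) : Set ℂ) by simp)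
  exact hne (three_zeros hxy hxz hyz hx.1 hy.1 hz.1 hx.2 hy.2 hz.2 hθ)

theorem finite_pole {α β γ δ : ℂ} (hdet : α * δ - β * γ ≠ 0) :
    {z : ℂ | γ * z + δ = 0}.Finite := by
  rcases eq_or_ne γ 0 with rfl | hγ
  · have : {z : ℂ | (0:ℂ) * z + δ = 0} = ∅ := by
      ext z
      simp only [zero_mul, zero_add, mem_ofPred_eq, mem_empty_iff_false, iff_false]
      rintro rfl
      simp at hdet
    rw [this]
    exact finite_empty
  · apply (finite_singleton (-δ / γ)).subset
    intro z hz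
    have hz' : γ * z + δ = 0 := hz
    rw [mem_singleton_iff]
    field_simp
    linear_combination hz'

theorem back_den {α β γ δ w : ℂ} (hw : -γ * w + α ≠ 0) :
    γ * ((δ * w - β) / (-γ * w + α)) + δ = (α * δ - β * γ) / (-γ * w + α) := by
  rw [eq_div_iff hw, add_mul, mul_assoc, div_mul_cancel₀ _ hw]
  ring

theorem back_num {α β γ δ w : ℂ} (hw : -γ * w + α ≠ 0) :
    α * ((δ * w - β) / (-γ * w + α)) + β = (α * δ - β * γ) / (-γ * w + α) * w := by
  rw [div_mul_eq_mul_div, eq_div_iff hw, add_mul, mul_assoc, div_mul_cancel₀ _ hw]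
  ring

theorem exists_neg {α β γ δ : ℂ} (hdet : α * δ - β * γ ≠ 0) : ∃ t, Qf α β γ δ t < 0 := by
  obtain ⟨w, hw, hw'⟩ : ∃ w : ℂ, w.im < 0 ∧ -γ * w + α ≠ 0 := by
    by_cases h : -γ * (-Complex.I) + α = 0
    · refine ⟨-2 * Complex.I, by simp, ?_⟩
      intro h2
      have hγ : γ = 0 := by
        have : γ * Complex.I = 0 := by linear_combination h2 - h
        simpa using this
      rw [hγ] at h
      have hα : α = 0 := by simpa using h
      rw [hγ, hα] at hdet
      simp at hdet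
    · exact ⟨-Complex.I, by simp, h⟩
  have h1 := back_den (α := α) (β := β) (γ := γ) (δ := δ) hw'
  have h2 := back_num (α := α) (β := β) (γ := γ) (δ := δ) hw'
  have h3 : (α * δ - β * γ) / (-γ * w + α) ≠ 0 := div_ne_zero hdet hw'
  refine ⟨(δ * w - β) / (-γ * w + α), ?_⟩
  rw [Qf_of_ne (by rw [h1]; exact h3), h1, h2, mul_div_cancel_left₀ _ h3]
  exact mul_neg_of_pos_of_neg (Complex.normSq_pos.2 h3) hw

end Circles

section Exit

variable {ι : Type} [Fintype ι]

theorem exists_first {α β γ δ : ι → ℂ} {θ t : ℂ}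
    (hpos : ∀ i, 0 < Qf (α i) (β i) (γ i) (δ i) θ) (i0 : ι)
    (ht : Qf (α i0) (β i0) (γ i0) (δ i0) t < 0) :
    ∃ σ : ℝ, 0 < σ ∧ (∀ i, 0 ≤ Qf (α i) (β i) (γ i) (δ i) (θ + σ * (t - θ))) ∧
      (∃ m, Qf (α m) (β m) (γ m) (δ m) (θ + σ * (t - θ)) = 0) ∧
      ∀ s : ℝ, 0 ≤ s → s < σ → ∀ i, 0 < Qf (α i) (β i) (γ i) (δ i) (θ + s * (t - θ)) := by
  classical
  have hne : (Finset.univ : Finset ι).Nonempty := ⟨i0, Finset.mem_univ _⟩
  set f : ℝ → ℝ := fun s => Finset.univ.inf' hne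
    (fun i => Qf (α i) (β i) (γ i) (δ i) (θ + s * (t - θ))) with hf
  have hfc : Continuous f := by
    apply Continuous.finset_inf'_apply
    intro i _
    exact (Qf_continuous _ _ _ _).comp (by fun_prop)
  have hle : ∀ s i, f s ≤ Qf (α i) (β i) (γ i) (δ i) (θ + s * (t - θ)) := fun s i =>
    Finset.inf'_le _ (Finset.mem_univ i)
  have hmem : ∀ s, ∃ i, f s = Qf (α i) (β i) (γ i) (δ i) (θ + s * (t - θ)) := by
    intro s
    obtain ⟨i, _, hi⟩ := Finset.exists_mem_eq_inf' hne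
      (fun i => Qf (α i) (β i) (γ i) (δ i) (θ + s * (t - θ)))
    exact ⟨i, hi⟩
  have hf0 : 0 < f 0 := by
    obtain ⟨i, hi⟩ := hmem 0
    rw [hi]
    simpa using hpos i
  set S : Set ℝ := {s | 0 ≤ s ∧ f s ≤ 0} with hS
  have hS1 : (1:ℝ) ∈ S := by
    refine ⟨zero_le_one, (hle 1 i0).trans ?_⟩
    simpa using ht.le
  have hSc : IsClosed S := by
    apply IsClosed.inter (isClosed_le continuous_const continuous_id)
      (isClosed_le hfc continuous_const)
  have hSb : BddBelow S := ⟨0, fun s hs => hs.1⟩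
  have hσ := hSc.csInf_mem ⟨1, hS1⟩ hSb
  set σ := sInf S with hσd
  have hσ0 : 0 < σ := by
    rcases hσ.1.eq_or_lt with h | h
    · exfalso
      have := hσ.2
      rw [← h] at this
      linarith
    · exact h
  have hlt : ∀ s, 0 ≤ s → s < σ → 0 < f s := by
    intro s h0 h1
    by_contra h
    push Not at h
    exact absurd (csInf_le hSb (show s ∈ S from ⟨h0, h⟩)) (not_le.2 h1)
  have hge : 0 ≤ f σ := by
    have h1 : Tendsto f (𝓝[<] σ) (𝓝 (f σ)) := hfc.continuousAt.tendsto.mono_left nhdsWithin_le_nhds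
    apply ge_of_tendsto h1
    have h2 : ∀ᶠ s in 𝓝[<] σ, 0 < s := nhdsWithin_le_nhds (Ioi_mem_nhds hσ0)
    filter_upwards [h2, self_mem_nhdsWithin] with s hs hs'
    exact (hlt s hs.le hs').le
  refine ⟨σ, hσ0, fun i => hge.trans (hle σ i), ?_, ?_⟩
  · obtain ⟨m, hm⟩ := hmem σ
    exact ⟨m, by rw [← hm]; exact le_antisymm hσ.2 hge⟩
  · intro s h0 h1 i
    exact (hlt s h0 h1).trans_le (hle s i)

theorem exists_exit {α β γ δ : ι → ℂ} {θ : ℂ} (hdet : ∀ i, α i * δ i - β i * γ i ≠ 0)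
    (hpos : ∀ i, 0 < Qf (α i) (β i) (γ i) (δ i) θ)
    (hne : ∀ i k, i ≠ k → ¬ ∃ c : ℝ, ∀ t : ℂ,
      Qf (α i) (β i) (γ i) (δ i) t = c * Qf (α k) (β k) (γ k) (δ k) t) (i0 : ι) :
    ∃ (m : ι) (p : ℂ), Qf (α m) (β m) (γ m) (δ m) p = 0 ∧ γ m * p + δ m ≠ 0 ∧
      (∀ i, i ≠ m → 0 < Qf (α i) (β i) (γ i) (δ i) p) ∧
      ∀ s : ℝ, 0 ≤ s → s < 1 → ∀ i, 0 < Qf (α i) (β i) (γ i) (δ i) (θ + s * (p - θ)) := by
  classical
  obtain ⟨t0, ht0⟩ := exists_neg (hdet i0)
  -- the bad points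
  set Z : Set ℂ := (⋃ i, ⋃ k, {z | i ≠ k ∧ Qf (α i) (β i) (γ i) (δ i) z = 0 ∧
    Qf (α k) (β k) (γ k) (δ k) z = 0}) ∪ ⋃ i, {z : ℂ | γ i * z + δ i = 0} with hZ
  have hZf : Z.Finite := by
    apply Set.Finite.union
    · apply Set.finite_iUnion
      intro i
      apply Set.finite_iUnion
      intro k
      by_cases hik : i = k
      · have : {z : ℂ | i ≠ k ∧ Qf (α i) (β i) (γ i) (δ i) z = 0 ∧
            Qf (α k) (β k) (γ k) (δ k) z = 0} = ∅ := by
          ext z; simp [hik]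
        rw [this]; exact finite_empty
      · apply (finite_common (hpos k).ne' (hne i k hik)).subset
        intro z hz
        exact hz.2
    · apply Set.finite_iUnion
      intro i
      exact finite_pole (hdet i)
  have ht0θ : t0 - θ ≠ 0 := by
    intro h
    have : t0 = θ := sub_eq_zero.1 h
    rw [this] at ht0
    exact absurd (hpos i0) (not_lt.2 ht0.le)
  -- nearby directions
  have hopen : IsOpen {x : ℝ | Qf (α i0) (β i0) (γ i0) (δ i0)
      (t0 + x * (Complex.I * (t0 - θ))) < 0} := by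
    apply isOpen_lt _ continuous_const
    exact (Qf_continuous _ _ _ _).comp (by fun_prop)
  obtain ⟨ε, hε, hball⟩ := Metric.isOpen_iff.1 hopen 0 (by simpa using ht0)
  by_contra hcon
  push Not at hcon
  have hbad : ∀ x : Ioo (0:ℝ) ε, ∃ p ∈ Z, ∃ σ : ℝ, 0 < σ ∧
      p = θ + σ * (1 + x * Complex.I) * (t0 - θ) := by
    rintro ⟨x, hx⟩
    have hxt : Qf (α i0) (β i0) (γ i0) (δ i0) (t0 + x * (Complex.I * (t0 - θ))) < 0 := by
      apply hball
      rw [Metric.mem_ball, Real.dist_eq, sub_zero, abs_of_pos hx.1]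
      exact hx.2
    obtain ⟨σ, hσ, h1, ⟨m, hm⟩, h3⟩ := exists_first hpos i0 hxt
    refine ⟨_, ?_, σ, hσ, rfl⟩
    have e : θ + (σ:ℂ) * (1 + (x:ℂ) * Complex.I) * (t0 - θ)
        = θ + σ * (t0 + x * (Complex.I * (t0 - θ)) - θ) := by ring
    show θ + (σ:ℂ) * (1 + (x:ℂ) * Complex.I) * (t0 - θ) ∈ Z
    rw [e]
    set p := θ + σ * (t0 + x * (Complex.I * (t0 - θ)) - θ) with hp
    by_contra hpZ
    have hpole : γ m * p + δ m ≠ 0 := by
      intro h
      apply hpZ
      right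
      exact mem_iUnion.2 ⟨m, h⟩
    have hoth : ∀ i, i ≠ m → 0 < Qf (α i) (β i) (γ i) (δ i) p := by
      intro i him
      apply lt_of_le_of_ne (h1 i)
      intro h
      apply hpZ
      left
      exact mem_iUnion.2 ⟨i, mem_iUnion.2 ⟨m, him, h.symm, hm⟩⟩
    obtain ⟨s, hs0, hs1, i, hi⟩ := hcon m p hm hpole hoth
    have := h3 (s * σ) (by positivity) (by nlinarith) i
    have e2 : θ + ((s * σ : ℝ) : ℂ) * (t0 + x * (Complex.I * (t0 - θ)) - θ)
        = θ + s * (p - θ) := by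
      rw [hp]; push_cast; ring
    rw [e2] at this
    linarith
  choose p hpZ σ hσ hpe using hbad
  have hinj : Function.Injective p := by
    intro x y hxy
    rw [hpe x, hpe y] at hxy
    have h1 : (σ x : ℂ) * (1 + (x : ℝ) * Complex.I) = σ y * (1 + (y : ℝ) * Complex.I) := by
      apply mul_right_cancel₀ ht0θ
      exact add_left_cancel hxy
    have hre := congrArg Complex.re h1
    have him := congrArg Complex.im h1
    simp at hre him
    rw [hre] at him
    have := mul_left_cancel₀ (hσ y).ne' him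
    exact Subtype.ext this
  have hinf : Z.Infinite := by
    have : Infinite (Ioo (0:ℝ) ε) := (Set.Ioo_infinite hε).to_subtype
    exact Set.infinite_of_injective_forall_mem hinj hpZ
  exact hinf hZf

end Exit

section Cusp

theorem Jc_of_pos {w : ℂ} (h : 0 < w.im) : Jc w = J ⟨w, h⟩ := by
  unfold Jc
  rw [dif_pos h]

/-- growth of `Jc` at a rational point, along the vertical line -/
theorem Jc_cusp (hJ : SpecJ) (x : ℚ) :
    Tendsto (fun ε : ℝ => ‖Jc ((x : ℂ) + ε * Complex.I)‖) (𝓝[>] 0) atTop := by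
  obtain ⟨C, hC⟩ := hJ.growth
  -- Bezout
  obtain ⟨a, b, hab⟩ : ∃ a b : ℤ, a * x.num + b * x.den = 1 := by
    have h := x.reduced
    have h2 : IsCoprime x.num (x.den : ℤ) := by
      rw [Int.isCoprime_iff_nat_coprime]
      simpa using h
    exact h2
  set γ : SL(2, ℤ) := ⟨!![-a, -b; (x.den : ℤ), -x.num], by
    rw [Matrix.det_fin_two_of]; linarith⟩ with hγ
  have hden : (0:ℝ) < x.den := by exact_mod_cast x.pos
  have key : ∀ ε : ℝ, 0 < ε → ε ≤ 1 / (x.den : ℝ) ^ 2 →
      Real.exp (2 * π * (1 / ((x.den : ℝ) ^ 2 * ε))) - C ≤ ‖Jc ((x : ℂ) + ε * Complex.I)‖ := by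
    intro ε hε hε1
    have him : 0 < ((x : ℂ) + ε * Complex.I).im := by simpa using hε
    rw [Jc_of_pos him, ← hJ.smul γ]
    set z : ℍ := ⟨(x : ℂ) + ε * Complex.I, him⟩ with hz
    have hxd : (x.den : ℂ) * (x : ℂ) = (x.num : ℂ) := by
      have := Rat.den_mul_eq_num x
      exact_mod_cast this
    have hdc : (x.den : ℂ) ≠ 0 := by
      exact_mod_cast x.den_nz
    have hεc : (ε : ℂ) ≠ 0 := by exact_mod_cast hε.ne'
    have habc : (a : ℂ) * x.num + b * x.den = 1 := by exact_mod_cast hab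
    have hw : ((γ • z : ℍ) : ℂ) = ((-a / x.den : ℝ) : ℂ)
        + ((1 / ((x.den : ℝ) ^ 2 * ε) : ℝ) : ℂ) * Complex.I := by
      rw [coe_specialLinearGroup_apply]
      have e1 : γ 0 0 = -a := rfl
      have e2 : γ 0 1 = -b := rfl
      have e3 : γ 1 0 = (x.den : ℤ) := rfl
      have e4 : γ 1 1 = -x.num := rfl
      rw [e1, e2, e3, e4]
      have hz' : (z : ℂ) = (x : ℂ) + ε * Complex.I := rfl
      rw [hz']
      have hd : ((algebraMap ℤ ℝ (x.den : ℤ) : ℝ) : ℂ) * ((x : ℂ) + ε * Complex.I)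
          + ((algebraMap ℤ ℝ (-x.num) : ℝ) : ℂ) = (x.den : ℂ) * ε * Complex.I := by
        simp only [algebraMap_int_eq, eq_intCast]
        push_cast
        linear_combination hxd
      rw [hd, div_eq_iff (by
        exact mul_ne_zero (mul_ne_zero hdc hεc) Complex.I_ne_zero)]
      simp only [algebraMap_int_eq, eq_intCast]
      push_cast
      field_simp
      have hI : Complex.I ^ 2 = -1 := Complex.I_sq
      linear_combination -hI - habc - (a:ℂ) * hxd
    have hwim : ((γ • z : ℍ) : ℂ).im = 1 / ((x.den : ℝ) ^ 2 * ε) := by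
      rw [hw, Complex.add_im, Complex.ofReal_im, Complex.im_ofReal_mul, Complex.I_im]
      ring
    have hwim1 : 1 ≤ ((γ • z : ℍ) : ℂ).im := by
      rw [hwim, le_div_iff₀ (by positivity), one_mul]
      rw [le_div_iff₀ (by positivity)] at hε1
      linarith
    have hJw : J (γ • z) = Jc ((γ • z : ℍ) : ℂ) := by
      rw [Jc_of_pos (γ • z).im_pos]
    rw [hJw]
    have h1 := hC _ hwim1
    have h2 : ‖cexp (-(2 * π * Complex.I * ((γ • z : ℍ) : ℂ)))‖
        = Real.exp (2 * π * (1 / ((x.den : ℝ) ^ 2 * ε))) := by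
      rw [Complex.norm_exp]
      congr 1
      rw [← hwim]
      simp [Complex.mul_re, Complex.mul_im]
    have h3 := norm_sub_norm_le (cexp (-(2 * π * Complex.I * ((γ • z : ℍ) : ℂ))))
      (cexp (-(2 * π * Complex.I * ((γ • z : ℍ) : ℂ))) - Jc ((γ • z : ℍ) : ℂ))
    rw [sub_sub_cancel, norm_sub_rev (cexp _) (Jc _), h2] at h3
    linarith
  have h1 : Tendsto (fun ε : ℝ => Real.exp (2 * π * (1 / ((x.den : ℝ) ^ 2 * ε))) - C)
      (𝓝[>] 0) atTop := by
    apply tendsto_atTop_add_const_right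
    apply Real.tendsto_exp_atTop.comp
    apply Tendsto.const_mul_atTop (by positivity)
    have : (fun ε : ℝ => 1 / ((x.den : ℝ) ^ 2 * ε)) = fun ε : ℝ => (1 / (x.den : ℝ) ^ 2) * ε⁻¹ := by
      funext ε
      rw [one_div, mul_inv, one_div]
    rw [this]
    exact Tendsto.const_mul_atTop (by positivity) tendsto_inv_nhdsGT_zero
  refine tendsto_atTop_mono' _ ?_ h1
  have h2 : ∀ᶠ ε : ℝ in 𝓝[>] 0, ε < 1 / (x.den : ℝ) ^ 2 :=
    nhdsWithin_le_nhds (Iio_mem_nhds (by positivity))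
  filter_upwards [h2, self_mem_nhdsWithin] with ε h2 h3
  exact key ε h3 h2.le

/-- the leading coefficient vanishes at a cusp -/
theorem lead_zero (hJ : SpecJ) (x : ℚ) (d : ℕ) (a : ℕ → ℂ → ℂ)
    (ha : ∀ k, ContinuousAt (a k) (x : ℂ))
    (h : ∀ᶠ ε : ℝ in 𝓝[>] 0, ∑ k ∈ Finset.range (d + 1),
      a k ((x : ℂ) + ε * Complex.I) * Jc ((x : ℂ) + ε * Complex.I) ^ k = 0) :
    a d (x : ℂ) = 0 := by
  have hJx := Jc_cusp hJ x
  have hpath : Tendsto (fun ε : ℝ => (x : ℂ) + ε * Complex.I) (𝓝[>] 0) (𝓝 (x : ℂ)) := by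
    have : Continuous (fun ε : ℝ => (x : ℂ) + ε * Complex.I) := by fun_prop
    have h0 := this.tendsto 0
    simp only [Complex.ofReal_zero, zero_mul, add_zero] at h0
    exact h0.mono_left nhdsWithin_le_nhds
  have hak : ∀ k, Tendsto (fun ε : ℝ => a k ((x : ℂ) + ε * Complex.I)) (𝓝[>] 0) (𝓝 (a k x)) :=
    fun k => (ha k).tendsto.comp hpath
  have hinv : Tendsto (fun ε : ℝ => (Jc ((x : ℂ) + ε * Complex.I))⁻¹) (𝓝[>] 0) (𝓝 0) := by
    rw [tendsto_zero_iff_norm_tendsto_zero]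
    simp only [norm_inv]
    exact tendsto_inv_atTop_zero.comp hJx
  have hlow : Tendsto (fun ε : ℝ => - ∑ k ∈ Finset.range d,
      a k ((x : ℂ) + ε * Complex.I) * (Jc ((x : ℂ) + ε * Complex.I))⁻¹ ^ (d - k))
      (𝓝[>] 0) (𝓝 (- ∑ k ∈ Finset.range d, a k x * 0 ^ (d - k))) := by
    apply Tendsto.neg
    apply tendsto_finsetSum
    intro k _
    exact (hak k).mul (hinv.pow _)
  have hz : (- ∑ k ∈ Finset.range d, a k (x : ℂ) * 0 ^ (d - k)) = 0 := by
    rw [neg_eq_zero]
    apply Finset.sum_eq_zero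
    intro k hk
    rw [Finset.mem_range] at hk
    rw [zero_pow (by omega), mul_zero]
  rw [hz] at hlow
  have hne : ∀ᶠ ε : ℝ in 𝓝[>] 0, Jc ((x : ℂ) + ε * Complex.I) ≠ 0 := by
    filter_upwards [hJx.eventually_gt_atTop 0] with ε hε
    exact norm_pos_iff.1 hε
  have heq : (fun ε : ℝ => a d ((x : ℂ) + ε * Complex.I)) =ᶠ[𝓝[>] 0] (fun ε : ℝ => - ∑ k ∈ Finset.range d,
      a k ((x : ℂ) + ε * Complex.I) * (Jc ((x : ℂ) + ε * Complex.I))⁻¹ ^ (d - k)) := by
    filter_upwards [h, hne] with ε h1 h2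
    rw [Finset.sum_range_succ] at h1
    set j := Jc ((x : ℂ) + ε * Complex.I)
    have h3 : a d ((x : ℂ) + ε * Complex.I) = (a d ((x : ℂ) + ε * Complex.I) * j ^ d) * (j⁻¹) ^ d := by
      rw [mul_assoc, ← mul_pow, mul_inv_cancel₀ h2, one_pow, mul_one]
    rw [h3, eq_neg_of_add_eq_zero_right h1, neg_mul, Finset.sum_mul]
    congr 1
    apply Finset.sum_congr rfl
    intro k hk
    rw [Finset.mem_range] at hk
    have : (j⁻¹) ^ d = (j⁻¹) ^ k * (j⁻¹) ^ (d - k) := by
      rw [← pow_add]; congr 1; omega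
    rw [this, mul_assoc, ← mul_assoc (j ^ k), ← mul_pow, mul_inv_cancel₀ h2, one_pow, one_mul]
  exact tendsto_nhds_unique (hak d) (hlow.congr' heq.symm)

end Cusp

section Main

/-- the evaluation point -/
noncomputable def pt {ι : Type} (α β γ δ : ι → ℂ) (t : ℂ) : Option ι → ℂ :=
  fun o => o.elim t (fun i => Jc ((α i * t + β i) / (γ i * t + δ i)))

theorem Jc_analyticAt (hJ : SpecJ) {w : ℂ} (hw : 0 < w.im) : AnalyticAt ℂ Jc w := by
  have hopen : IsOpen {w : ℂ | 0 < w.im} := isOpen_lt continuous_const Complex.continuous_im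
  exact hJ.holo.analyticAt (hopen.mem_nhds hw)

theorem pt_analyticAt (hJ : SpecJ) {ι : Type} {α β γ δ : ι → ℂ} {t : ℂ}
    (h : ∀ i, 0 < Qf (α i) (β i) (γ i) (δ i) t) (o : Option ι) :
    AnalyticAt ℂ (fun t => pt α β γ δ t o) t := by
  cases o with
  | none => exact analyticAt_id
  | some i =>
    have h1 := Qf_pos (h i)
    have h2 : AnalyticAt ℂ (fun t => (α i * t + β i) / (γ i * t + δ i)) t := by
      refine AnalyticAt.fun_div (f := fun t => α i * t + β i) (g := fun t => γ i * t + δ i)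
        ?_ ?_ h1.1
      · exact (analyticAt_const.fun_mul analyticAt_id).fun_add analyticAt_const
      · exact (analyticAt_const.fun_mul analyticAt_id).fun_add analyticAt_const
    exact AnalyticAt.fun_comp (g := Jc) (f := fun t => (α i * t + β i) / (γ i * t + δ i))
      (Jc_analyticAt hJ h1.2) h2

theorem eval_analyticAt {σ : Type} (P : MvPolynomial σ ℂ) {v : ℂ → σ → ℂ} {t : ℂ}
    (h : ∀ o, AnalyticAt ℂ (fun t => v t o) t) :
    AnalyticAt ℂ (fun t => MvPolynomial.eval (v t) P) t := by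
  induction P using MvPolynomial.induction_on with
  | C a => simpa using analyticAt_const
  | add p q hp hq => simpa using hp.fun_add hq
  | mul_X p o hp => simpa using hp.fun_mul (h o)

theorem base_case {ι : Type} [IsEmpty ι] (v : ℂ → Option ι → ℂ) (hv : ∀ t, v t none = t) (θ : ℂ)
    (P : MvPolynomial (Option ι) ℂ) (hP : P ≠ 0)
    (h : ∀ᶠ t in 𝓝 θ, MvPolynomial.eval (v t) P = 0) : False := by
  set Q := MvPolynomial.optionEquivLeft ℂ ι P with hQ
  have hQ0 : Q ≠ 0 := by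
    rw [hQ]
    simpa using hP
  set s : ι → ℂ := fun i => isEmptyElim i with hs
  have hv' : ∀ t, v t = fun o : Option ι => o.elim t s := by
    intro t
    funext o
    cases o with
    | none => exact hv t
    | some i => exact isEmptyElim i
  have hmap : (Q.map (MvPolynomial.eval s)) ≠ 0 := by
    intro h0
    apply hQ0
    ext1 n
    have h1 := congrArg (fun q => Polynomial.coeff q n) h0
    simp only [Polynomial.coeff_map, Polynomial.coeff_zero] at h1
    rw [Polynomial.coeff_zero]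
    rw [MvPolynomial.eq_C_of_isEmpty (Q.coeff n)] at h1 ⊢
    rw [MvPolynomial.eval_C] at h1
    rw [h1, MvPolynomial.C_0]
  have hroot : ∀ᶠ t in 𝓝 θ, Polynomial.eval t (Q.map (MvPolynomial.eval s)) = 0 := by
    filter_upwards [h] with t ht
    rw [hv' t, MvPolynomial.optionEquivLeft_elim_eval] at ht
    exact ht
  apply hmap
  apply Polynomial.eq_zero_of_infinite_isRoot
  have h2 : {x | (Q.map (MvPolynomial.eval s)).IsRoot x} ∈ 𝓝 θ := hroot
  exact infinite_of_mem_nhds θ h2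

theorem fwd_back {α β γ δ w : ℂ} (hdet : α * δ - β * γ ≠ 0) (hw : -γ * w + α ≠ 0) :
    (α * ((δ * w - β) / (-γ * w + α)) + β) / (γ * ((δ * w - β) / (-γ * w + α)) + δ) = w := by
  rw [back_num hw, back_den hw, mul_div_cancel_left₀]
  exact div_ne_zero hdet hw

theorem fwd_ne {α β γ δ t : ℂ} (hdet : α * δ - β * γ ≠ 0) (ht : γ * t + δ ≠ 0) :
    -γ * ((α * t + β) / (γ * t + δ)) + α ≠ 0 := by
  have : -γ * ((α * t + β) / (γ * t + δ)) + α = (α * δ - β * γ) / (γ * t + δ) := by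
    rw [eq_div_iff ht, add_mul, mul_assoc, div_mul_cancel₀ _ ht]
    ring
  rw [this]
  exact div_ne_zero hdet ht

theorem back_fwd {α β γ δ t : ℂ} (hdet : α * δ - β * γ ≠ 0) (ht : γ * t + δ ≠ 0) :
    (δ * ((α * t + β) / (γ * t + δ)) - β) / (-γ * ((α * t + β) / (γ * t + δ)) + α) = t := by
  have h1 : -γ * ((α * t + β) / (γ * t + δ)) + α = (α * δ - β * γ) / (γ * t + δ) := by
    rw [eq_div_iff ht, add_mul, mul_assoc, div_mul_cancel₀ _ ht]
    ring
  have h2 : δ * ((α * t + β) / (γ * t + δ)) - β = t * ((α * δ - β * γ) / (γ * t + δ)) := by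
    rw [← mul_div_assoc t, eq_div_iff ht, sub_mul, mul_assoc, div_mul_cancel₀ _ ht]
    ring
  rw [h1, h2, mul_div_cancel_right₀]
  exact div_ne_zero hdet ht

theorem func_aux (hJ : SpecJ) : ∀ (n : ℕ) (ι : Type) [Fintype ι], Fintype.card ι = n →
    ∀ (α β γ δ : ι → ℂ) (θ : ℂ), (∀ i, α i * δ i - β i * γ i ≠ 0) →
    (∀ i, 0 < Qf (α i) (β i) (γ i) (δ i) θ) →
    (∀ i k, i ≠ k → ¬ ∃ c : ℝ, ∀ t : ℂ,
      Qf (α i) (β i) (γ i) (δ i) t = c * Qf (α k) (β k) (γ k) (δ k) t) →
    ∀ P : MvPolynomial (Option ι) ℂ, P ≠ 0 →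
      ¬ ∀ᶠ t in 𝓝 θ, MvPolynomial.eval (pt α β γ δ t) P = 0 := by
  intro n
  induction n with
  | zero =>
    intro ι _ hcard α β γ δ θ _ _ _ P hP h
    have : IsEmpty ι := Fintype.card_eq_zero_iff.1 hcard
    exact base_case (pt α β γ δ) (fun t => rfl) θ P hP h
  | succ n ih =>
    intro ι _ hcard α β γ δ θ hdet hpos hne P hP hzero
    classical
    obtain ⟨i0⟩ : Nonempty ι := Fintype.card_pos_iff.1 (by omega)
    obtain ⟨m, p, hm0, hmp, hoth, hseg⟩ := exists_exit hdet hpos hne i0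
    -- remove the index `m`
    let f : Option (Option {i : ι // i ≠ m}) → Option ι :=
      fun o => o.elim (some m) (fun o' => o'.elim none (fun i => some i.1))
    have hfb : Function.Bijective f := by
      constructor
      · rintro (_ | _ | ⟨i, hi⟩) (_ | _ | ⟨k, hk⟩) h <;> simp [f] at h ⊢
        · exact hk h.symm
        · exact hi h
        · exact h
      · rintro (_ | i)
        · exact ⟨some none, rfl⟩
        · by_cases hi : i = m
          · exact ⟨none, by simp [f, hi]⟩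
          · exact ⟨some (some ⟨i, hi⟩), rfl⟩
    let e := Equiv.ofBijective f hfb
    set P' : MvPolynomial (Option (Option {i : ι // i ≠ m})) ℂ := MvPolynomial.rename e.symm P
      with hP'd
    have hP' : P' ≠ 0 := by
      intro h
      apply hP
      exact MvPolynomial.rename_injective _ e.symm.injective (by rw [map_zero]; exact h)
    set Q := MvPolynomial.optionEquivLeft ℂ (Option {i : ι // i ≠ m}) P' with hQ
    have hQ0 : Q ≠ 0 := by
      rw [hQ]
      simpa using hP'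
    set pt' : ℂ → Option {i : ι // i ≠ m} → ℂ := pt (fun i : {i : ι // i ≠ m} => α i.1)
      (fun i => β i.1) (fun i => γ i.1) (fun i => δ i.1) with hpt'
    have heval : ∀ t, MvPolynomial.eval (pt α β γ δ t) P
        = ∑ k ∈ Finset.range (Q.natDegree + 1), MvPolynomial.eval (pt' t) (Q.coeff k) *
          Jc ((α m * t + β m) / (γ m * t + δ m)) ^ k := by
      intro t
      have h1 : P = MvPolynomial.rename e P' := by
        rw [hP'd, MvPolynomial.rename_rename]
        simp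
      have h2 : (pt α β γ δ t) ∘ e = fun o => o.elim (Jc ((α m * t + β m) / (γ m * t + δ m)))
          (pt' t) := by
        funext o
        rcases o with _ | _ | i <;> rfl
      rw [h1, MvPolynomial.eval_rename, h2, MvPolynomial.optionEquivLeft_elim_eval,
        Polynomial.eval_map, Polynomial.eval₂_eq_sum_range]
    -- the coordinate at the exit point
    set ρ : ℂ := (α m * p + β m) / (γ m * p + δ m) with hρ
    set h : ℂ → ℂ := fun w => (δ m * w - β m) / (-γ m * w + α m) with hh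
    have hρden : -γ m * ρ + α m ≠ 0 := fwd_ne (hdet m) hmp
    have hhρ : h ρ = p := back_fwd (hdet m) hmp
    have hρim : ρ.im = 0 := by
      rw [Qf_of_ne hmp] at hm0
      exact (mul_eq_zero.1 hm0).resolve_left (Complex.normSq_pos.2 hmp).ne'
    have hhan : ∀ w, -γ m * w + α m ≠ 0 → AnalyticAt ℂ h w := by
      intro w hw
      refine AnalyticAt.fun_div (f := fun w => δ m * w - β m) (g := fun w => -γ m * w + α m)
        ?_ ?_ hw
      · exact (analyticAt_const.fun_mul analyticAt_id).fun_sub analyticAt_const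
      · exact (analyticAt_const.fun_mul analyticAt_id).fun_add analyticAt_const
    have hev : ∀ᶠ w in 𝓝 ρ, -γ m * w + α m ≠ 0 ∧
        ∀ i : {i : ι // i ≠ m}, 0 < Qf (α i.1) (β i.1) (γ i.1) (δ i.1) (h w) := by
      have h1 : ∀ᶠ w in 𝓝 ρ, -γ m * w + α m ≠ 0 :=
        (by fun_prop : Continuous fun w : ℂ => -γ m * w + α m).continuousAt.eventually_ne hρden
      refine h1.and ?_
      rw [eventually_all]
      intro i
      have h2 : ContinuousAt (fun w => Qf (α i.1) (β i.1) (γ i.1) (δ i.1) (h w)) ρ :=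
        (Qf_continuous _ _ _ _).continuousAt.comp (hhan ρ hρden).continuousAt
      apply h2.eventually_const_lt
      show 0 < Qf (α i.1) (β i.1) (γ i.1) (δ i.1) (h ρ)
      rw [hhρ]
      exact hoth i.1 i.2
    obtain ⟨r, hr, hball⟩ := Metric.eventually_nhds_iff_ball.1 hev
    -- analyticity
    have hFan : ∀ t, (∀ i, 0 < Qf (α i) (β i) (γ i) (δ i) t) →
        AnalyticAt ℂ (fun t => MvPolynomial.eval (pt α β γ δ t) P) t := fun t ht =>
      eval_analyticAt P (pt_analyticAt hJ ht)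
    have haan : ∀ k, ∀ w ∈ Metric.ball ρ r,
        AnalyticAt ℂ (fun w => MvPolynomial.eval (pt' (h w)) (Q.coeff k)) w := by
      intro k w hw
      obtain ⟨h1, h2⟩ := hball w hw
      have h3 : AnalyticAt ℂ (fun t => MvPolynomial.eval (pt' t) (Q.coeff k)) (h w) :=
        eval_analyticAt _ (pt_analyticAt hJ h2)
      exact AnalyticAt.fun_comp (g := fun t => MvPolynomial.eval (pt' t) (Q.coeff k)) (f := h)
        h3 (hhan w h1)
    -- positivity on the half disc
    have hhalf : ∀ w ∈ Metric.ball ρ r ∩ {w | 0 < w.im}, ∀ i,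
        0 < Qf (α i) (β i) (γ i) (δ i) (h w) := by
      rintro w ⟨hw, hwim⟩ i
      obtain ⟨h1, h2⟩ := hball w hw
      by_cases him : i = m
      · subst him
        apply Qf_pos_of
        · show γ i * ((δ i * w - β i) / (-γ i * w + α i)) + δ i ≠ 0
          rw [back_den h1]
          exact div_ne_zero (hdet i) h1
        · have := fwd_back (hdet i) h1
          show 0 < ((α i * ((δ i * w - β i) / (-γ i * w + α i)) + β i) /
            (γ i * ((δ i * w - β i) / (-γ i * w + α i)) + δ i)).im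
          rw [this]
          exact hwim
      · exact h2 ⟨i, him⟩
    -- vanishing on the half disc
    set U1 : Set ℂ := (fun s : ℝ => θ + s * (p - θ)) '' Ico 0 1 with hU1
    set U2 : Set ℂ := h '' (Metric.ball ρ r ∩ {w | 0 < w.im}) with hU2
    have hU1p : IsPreconnected U1 :=
      isPreconnected_Ico.image _ (by fun_prop)
    have hU2p : IsPreconnected U2 := by
      apply IsPreconnected.image
      · apply Convex.isPreconnected
        exact (convex_ball ρ r).inter (convex_halfSpace_im_gt 0)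
      · intro w hw
        exact (hhan w (hball w hw.1).1).continuousAt.continuousWithinAt
    have hinter : (U1 ∩ U2).Nonempty := by
      have hc : ContinuousAt (fun s : ℝ => (α m * (θ + s * (p - θ)) + β m) /
          (γ m * (θ + s * (p - θ)) + δ m)) 1 := by
        apply ContinuousAt.div (by fun_prop) (by fun_prop)
        simpa using hmp
      have hc1 : (fun s : ℝ => (α m * (θ + s * (p - θ)) + β m) /
          (γ m * (θ + s * (p - θ)) + δ m)) 1 = ρ := by
        simp [hρ]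
      have h1 : ∀ᶠ s : ℝ in 𝓝[<] 1, (α m * (θ + s * (p - θ)) + β m) /
          (γ m * (θ + s * (p - θ)) + δ m) ∈ Metric.ball ρ r := by
        apply nhdsWithin_le_nhds
        apply hc
        rw [hc1]
        exact Metric.ball_mem_nhds ρ hr
      have h2 : ∀ᶠ s : ℝ in 𝓝[<] 1, 0 < s := nhdsWithin_le_nhds (Ioi_mem_nhds zero_lt_one)
      obtain ⟨s, hs1, hs2, hs3⟩ := (h1.and (h2.and self_mem_nhdsWithin)).exists
      have hs3' : s < 1 := hs3
      have hq := Qf_pos (hseg s hs2.le hs3' m)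
      refine ⟨θ + s * (p - θ), ⟨s, ⟨hs2.le, hs3'⟩, rfl⟩, ?_⟩
      refine ⟨_, ⟨hs1, hq.2⟩, ?_⟩
      exact back_fwd (hdet m) hq.1
    have hUp : IsPreconnected (U1 ∪ U2) := by
      obtain ⟨x, hx1, hx2⟩ := hinter
      exact IsPreconnected.union x hx1 hx2 hU1p hU2p
    have hFU : AnalyticOnNhd ℂ (fun t => MvPolynomial.eval (pt α β γ δ t) P) (U1 ∪ U2) := by
      rintro t (⟨s, hs, rfl⟩ | ⟨w, hw, rfl⟩)
      · exact hFan _ (hseg s hs.1 hs.2)
      · exact hFan _ (hhalf w hw)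
    have hθU : θ ∈ U1 ∪ U2 := Or.inl ⟨0, ⟨le_rfl, zero_lt_one⟩, by simp⟩
    have hF0 := hFU.eqOn_zero_of_preconnected_of_eventuallyEq_zero hUp hθU hzero
    have hhalf0 : ∀ w ∈ Metric.ball ρ r ∩ {w | 0 < w.im},
        ∑ k ∈ Finset.range (Q.natDegree + 1), MvPolynomial.eval (pt' (h w)) (Q.coeff k) *
          Jc w ^ k = 0 := by
      intro w hw
      have h1 := hF0 (Or.inr ⟨w, hw, rfl⟩)
      have h2 : MvPolynomial.eval (pt α β γ δ (h w)) P = 0 := h1
      rw [heval] at h2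
      have h3 : (α m * h w + β m) / (γ m * h w + δ m) = w := fwd_back (hdet m) (hball w hw.1).1
      rw [h3] at h2
      exact h2
    -- rational points
    have hrat : ∀ x : ℚ, (x : ℂ) ∈ Metric.ball ρ r →
        MvPolynomial.eval (pt' (h x)) (Q.coeff Q.natDegree) = 0 := by
      intro x hx
      apply lead_zero hJ x Q.natDegree (fun k w => MvPolynomial.eval (pt' (h w)) (Q.coeff k))
      · intro k
        exact (haan k _ hx).continuousAt
      · have hpath : Tendsto (fun ε : ℝ => (x : ℂ) + ε * Complex.I) (𝓝[>] 0) (𝓝 (x : ℂ)) := by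
          have : Continuous (fun ε : ℝ => (x : ℂ) + ε * Complex.I) := by fun_prop
          have h0 := this.tendsto 0
          simp only [Complex.ofReal_zero, zero_mul, add_zero] at h0
          exact h0.mono_left nhdsWithin_le_nhds
        filter_upwards [hpath (Metric.isOpen_ball.mem_nhds hx), self_mem_nhdsWithin] with ε h1 h2
        apply hhalf0
        refine ⟨h1, ?_⟩
        have h2' : 0 < ε := h2
        show 0 < ((x : ℂ) + ε * Complex.I).im
        simpa using h2'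
    have hfreq : ∃ᶠ w in 𝓝[≠] ρ, MvPolynomial.eval (pt' (h w)) (Q.coeff Q.natDegree) = 0 := by
      have hρr : ρ = ((ρ.re : ℝ) : ℂ) := by
        apply Complex.ext
        · simp
        · simpa using hρim
      have htend : Tendsto (fun x : ℝ => (x : ℂ)) (𝓝[>] ρ.re) (𝓝[≠] ρ) := by
        rw [tendsto_nhdsWithin_iff]
        constructor
        · conv_rhs => rw [hρr]
          exact (Complex.continuous_ofReal.tendsto _).mono_left nhdsWithin_le_nhds
        · filter_upwards [self_mem_nhdsWithin] with x hx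
          have hx' : ρ.re < x := hx
          rw [mem_compl_iff, mem_singleton_iff]
          intro h
          rw [← h] at hx'
          simp at hx'
      apply htend.frequently
      have hev2 : ∀ᶠ x : ℝ in 𝓝[>] ρ.re, (x : ℂ) ∈ Metric.ball ρ r :=
        (htend.mono_right nhdsWithin_le_nhds) (Metric.ball_mem_nhds ρ hr)
      have hfr : ∃ᶠ x : ℝ in 𝓝[>] ρ.re, ∃ q : ℚ, (q : ℝ) = x := by
        rw [frequently_iff]
        intro U hU
        obtain ⟨b, hb, hbU⟩ := mem_nhdsGT_iff_exists_Ioo_subset.1 hU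
        obtain ⟨q, hq1, hq2⟩ := exists_rat_btwn (show ρ.re < b from hb)
        exact ⟨q, hbU ⟨hq1, hq2⟩, q, rfl⟩
      refine (hfr.and_eventually hev2).mono ?_
      rintro x ⟨⟨q, rfl⟩, hx⟩
      have := hrat q (by simpa using hx)
      simpa using this
    have hevρ := ((haan Q.natDegree ρ (Metric.mem_ball_self hr)).frequently_zero_iff_eventually_zero).1 hfreq
    -- back to `t` near `p`
    have hgc : ContinuousAt (fun t : ℂ => (α m * t + β m) / (γ m * t + δ m)) p := by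
      exact ContinuousAt.div (f := fun t : ℂ => α m * t + β m) (g := fun t : ℂ => γ m * t + δ m)
        (by fun_prop) (by fun_prop) hmp
    have hL : ∀ᶠ t in 𝓝 p, MvPolynomial.eval (pt' t) (Q.coeff Q.natDegree) = 0 := by
      have h1 : ∀ᶠ t in 𝓝 p, γ m * t + δ m ≠ 0 :=
        (by fun_prop : Continuous fun t : ℂ => γ m * t + δ m).continuousAt.eventually_ne hmp
      filter_upwards [hgc.eventually hevρ, h1] with t ht1 ht2
      have h3 : h ((α m * t + β m) / (γ m * t + δ m)) = t := back_fwd (hdet m) ht2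
      rw [h3] at ht1
      exact ht1
    have hcard' : Fintype.card {i : ι // i ≠ m} = n := by
      rw [Fintype.card_subtype_compl, hcard]
      simp
    refine ih {i : ι // i ≠ m} hcard' (fun i => α i.1) (fun i => β i.1) (fun i => γ i.1)
      (fun i => δ i.1) p (fun i => hdet i.1) (fun i => hoth i.1 i.2) ?_
      (Q.coeff Q.natDegree) (by
        rw [Polynomial.coeff_natDegree]
        exact Polynomial.leadingCoeff_ne_zero.2 hQ0) hL
    intro i k hik
    exact hne i.1 k.1 (fun h => hik (Subtype.ext h))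

theorem specFunc (hJ : SpecJ) : SpecFunc := by
  intro n α β γ δ θ hdet hpos hne P hP h
  exact func_aux hJ n (Fin n) (Fintype.card_fin n) α β γ δ θ hdet hpos hne P hP h

end Main

end Pool.Agent.Lib.MP_47914d_nt
end

section
/-!
Hecke sums of `SL₂(ℤ)`-invariant functions are invariant.
-/
set_option autoImplicit false

open Complex Finset Matrix
open scoped Real MatrixGroups

namespace Pool.Agent.Lib.MP_47914d_nt

/-- The matrix of an element of `SL₂(ℤ)`. -/
def cm (γ : SL(2, ℤ)) : Matrix (Fin 2) (Fin 2) ℤ := (γ : Matrix (Fin 2) (Fin 2) ℤ)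

theorem cm_one : cm 1 = 1 := rfl

theorem cm_mul (γ γ' : SL(2, ℤ)) : cm (γ * γ') = cm γ * cm γ' := rfl

theorem cm_det (γ : SL(2, ℤ)) : (cm γ).det = 1 := γ.2

theorem cm_S : cm ModularGroup.S = !![0, -1; 1, 0] := rfl

theorem cm_T : cm ModularGroup.T = !![1, 1; 0, 1] := rfl

/-- The Moebius action of an integral matrix. -/
noncomputable def mobH (M : Matrix (Fin 2) (Fin 2) ℤ) (z : ℂ) : ℂ :=
  ((M 0 0 : ℂ) * z + (M 0 1 : ℂ)) / ((M 1 0 : ℂ) * z + (M 1 1 : ℂ))

theorem mobH_denom_ne {M : Matrix (Fin 2) (Fin 2) ℤ} (hM : 0 < M.det) {z : ℂ} (hz : 0 < z.im) :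
    ((M 1 0 : ℂ) * z + (M 1 1 : ℂ)) ≠ 0 := by
  intro h
  have h1 : (M 1 0 : ℝ) * z.im = 0 := by
    have := congrArg Complex.im h
    simpa using this
  have h2 : (M 1 0 : ℝ) = 0 := (mul_eq_zero.1 h1).resolve_right hz.ne'
  have h3 : M 1 0 = 0 := by exact_mod_cast h2
  rw [h3] at h
  have h4 : (M 1 1 : ℂ) = 0 := by simpa using h
  have h5 : M 1 1 = 0 := by exact_mod_cast h4
  rw [det_fin_two, h3, h5] at hM
  simp at hM

theorem mobH_im {M : Matrix (Fin 2) (Fin 2) ℤ} (hM : 0 < M.det) {z : ℂ} (hz : 0 < z.im) :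
    0 < (mobH M z).im := by
  have h1 := mobH_denom_ne hM hz
  have h2 : 0 < Complex.normSq ((M 1 0 : ℂ) * z + (M 1 1 : ℂ)) := Complex.normSq_pos.2 h1
  have h3 : (mobH M z).im
      = (M.det : ℝ) * z.im / Complex.normSq ((M 1 0 : ℂ) * z + (M 1 1 : ℂ)) := by
    rw [mobH, Complex.div_im, det_fin_two]
    simp only [Complex.add_im, Complex.mul_im, Complex.intCast_re, Complex.intCast_im, zero_mul,
      add_zero, Complex.add_re, Complex.mul_re, sub_zero]
    push_cast
    rw [← sub_div]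
    congr 1
    ring
  rw [h3]
  have : (0 : ℝ) < M.det := by exact_mod_cast hM
  positivity

theorem mobH_mul {A B : Matrix (Fin 2) (Fin 2) ℤ} (hA : 0 < A.det) (hB : 0 < B.det) {z : ℂ}
    (hz : 0 < z.im) : mobH (A * B) z = mobH A (mobH B z) := by
  have h1 := mobH_denom_ne hB hz
  have h2 := mobH_denom_ne hA (mobH_im hB hz)
  have h3 : 0 < (A * B).det := by rw [det_mul]; positivity
  have h4 := mobH_denom_ne h3 hz
  rw [mobH, mobH, div_eq_div_iff h4 h2]
  simp only [Matrix.mul_apply, Fin.sum_univ_two, Int.cast_add, Int.cast_mul]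
  rw [mobH]
  field_simp
  ring

theorem mobH_one (z : ℂ) : mobH 1 z = z := by
  simp [mobH]

theorem mobH_SL {f : ℂ → ℂ} (hf : Inv f) (γ : SL(2, ℤ)) :
    ∀ z : ℂ, 0 < z.im → f (mobH (cm γ) z) = f z := by
  have hpos : ∀ g : SL(2, ℤ), 0 < (cm g).det := fun g => by rw [cm_det]; exact one_pos
  have hγ : γ ∈ Subgroup.closure {ModularGroup.S, ModularGroup.T} := by
    rw [SpecialLinearGroup.SL2Z_generators]; trivial
  induction hγ using Subgroup.closure_induction with
  | mem x hx =>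
    intro z hz
    simp only [Set.mem_insert_iff, Set.mem_singleton_iff] at hx
    rcases hx with rfl | rfl
    · have h1 : mobH (cm ModularGroup.S) z = -1 / z := by
        simp [mobH, cm_S]
      rw [h1]
      exact (hf z hz).2
    · have h1 : mobH (cm ModularGroup.T) z = z + 1 := by
        simp [mobH, cm_T]
      rw [h1]
      exact (hf z hz).1
  | one =>
    intro z hz
    rw [cm_one, mobH_one]
  | mul x y _ _ hx hy =>
    intro z hz
    rw [cm_mul, mobH_mul (hpos x) (hpos y) hz, hx _ (mobH_im (hpos y) hz),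
      hy z hz]
  | inv x _ hx =>
    intro z hz
    rw [← hx _ (mobH_im (hpos x⁻¹) hz), ← mobH_mul (hpos x) (hpos x⁻¹) hz,
      ← cm_mul, mul_inv_cancel, cm_one, mobH_one]

/-- The index set of the representatives. -/
def repIdx (N : ℕ) : Finset (Σ _ : ℕ × ℕ, ℕ) :=
  N.divisorsAntidiagonal.sigma (fun p => range p.2)

/-- The representative. -/
def repMat (s : Σ _ : ℕ × ℕ, ℕ) : Matrix (Fin 2) (Fin 2) ℤ := !![(s.1.1 : ℤ), (s.2 : ℤ); 0, (s.1.2 : ℤ)]

theorem mem_repIdx {N : ℕ} {s : Σ _ : ℕ × ℕ, ℕ} :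
    s ∈ repIdx N ↔ (s.1.1 * s.1.2 = N ∧ N ≠ 0) ∧ s.2 < s.1.2 := by
  rw [repIdx, mem_sigma, Nat.mem_divisorsAntidiagonal, mem_range]

theorem det_repMat {N : ℕ} {s : Σ _ : ℕ × ℕ, ℕ} (hs : s ∈ repIdx N) : (repMat s).det = N := by
  rw [mem_repIdx] at hs
  rw [repMat, det_fin_two_of, mul_zero, sub_zero, ← hs.1.1]
  push_cast
  rfl

/-- Existence of a representative. -/
theorem exists_repMat {N : ℕ} (hN : 0 < N) (A : Matrix (Fin 2) (Fin 2) ℤ) (hA : A.det = N) :
    ∃ s ∈ repIdx N, ∃ γ : SL(2, ℤ), (cm γ) * A = repMat s := by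
  have key : ∀ B : FixedDetMatrix (Fin 2) ℤ (N : ℤ),
      ∃ s ∈ repIdx N, ∃ γ : SL(2, ℤ), (cm γ) * B.1 = repMat s := by
    intro B
    have hN' : (N : ℤ) ≠ 0 := by exact_mod_cast hN.ne'
    refine FixedDetMatrices.induction_on (C := fun B => ∃ s ∈ repIdx N, ∃ γ : SL(2, ℤ),
      (cm γ) * B.1 = repMat s) hN' ?_ ?_ ?_
    · intro B h10 h00 h01 hlt
      have hdet : B.1 0 0 * B.1 1 1 = N := by
        have := B.2
        rw [det_fin_two, h10] at this
        simpa using this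
      have hNpos : (0 : ℤ) < N := by exact_mod_cast hN
      have h11 : 0 < B.1 1 1 := by
        rw [← hdet] at hNpos
        exact (mul_pos_iff_of_pos_left h00).1 hNpos
      rw [abs_of_nonneg h01, abs_of_pos h11] at hlt
      refine ⟨⟨((B.1 0 0).toNat, (B.1 1 1).toNat), (B.1 0 1).toNat⟩, ?_, 1, ?_⟩
      · rw [mem_repIdx]
        refine ⟨⟨?_, hN.ne'⟩, ?_⟩
        · have h1 : (((B.1 0 0).toNat * (B.1 1 1).toNat : ℕ) : ℤ) = N := by
            push_cast
            rw [Int.toNat_of_nonneg h00.le, Int.toNat_of_nonneg h11.le, hdet]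
          exact_mod_cast h1
        · show (B.1 0 1).toNat < (B.1 1 1).toNat
          omega
      · rw [cm_one, one_mul, repMat]
        simp only [Int.toNat_of_nonneg h00.le, Int.toNat_of_nonneg h11.le,
          Int.toNat_of_nonneg h01]
        ext i j
        fin_cases i <;> fin_cases j <;> simp [h10]
    · rintro B ⟨s, hs, γ, hγ⟩
      refine ⟨s, hs, γ * ModularGroup.S⁻¹, ?_⟩
      have h1 : (ModularGroup.S • B).1 = cm ModularGroup.S * B.1 := rfl
      rw [h1, cm_mul, ← Matrix.mul_assoc, Matrix.mul_assoc (cm γ), ← cm_mul, inv_mul_cancel,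
        cm_one, Matrix.mul_one, hγ]
    · rintro B ⟨s, hs, γ, hγ⟩
      refine ⟨s, hs, γ * ModularGroup.T⁻¹, ?_⟩
      have h1 : (ModularGroup.T • B).1 = cm ModularGroup.T * B.1 := rfl
      rw [h1, cm_mul, ← Matrix.mul_assoc, Matrix.mul_assoc (cm γ), ← cm_mul, inv_mul_cancel,
        cm_one, Matrix.mul_one, hγ]
  exact key ⟨A, hA⟩

/-- Uniqueness of the representative. -/
theorem rep_unique {N : ℕ} {s s' : Σ _ : ℕ × ℕ, ℕ} (hs : s ∈ repIdx N) (hs' : s' ∈ repIdx N)
    (γ : SL(2, ℤ)) (h : (cm γ) * repMat s = repMat s') : s = s' := by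
  obtain ⟨⟨a, d⟩, b⟩ := s
  obtain ⟨⟨a', d'⟩, b'⟩ := s'
  rw [mem_repIdx] at hs hs'
  simp only at hs hs'
  have e00 := congrFun (congrFun h 0) 0
  have e01 := congrFun (congrFun h 0) 1
  have e10 := congrFun (congrFun h 1) 0
  have e11 := congrFun (congrFun h 1) 1
  simp only [repMat, Matrix.mul_apply, Fin.sum_univ_two, of_apply, cons_val', cons_val_zero,
    cons_val_one, cons_val_fin_one, mul_zero, add_zero] at e00 e01 e10 e11
  have hdet := cm_det γ
  rw [det_fin_two] at hdet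
  have ha : 0 < a := Nat.pos_of_ne_zero (by rintro rfl; simp at hs; omega)
  have hd : 0 < d := Nat.pos_of_ne_zero (by rintro rfl; simp at hs)
  have ha' : 0 < a' := Nat.pos_of_ne_zero (by rintro rfl; simp at hs'; omega)
  have hu : (cm γ) 1 0 = 0 := by
    rcases mul_eq_zero.1 e10 with h1 | h1
    · exact h1
    · exact absurd h1 (by exact_mod_cast ha.ne')
  rw [hu, mul_zero, sub_zero] at hdet
  rw [hu, zero_mul, zero_add] at e11
  have hx : (cm γ) 0 0 = 1 := by
    rcases Int.mul_eq_one_iff_eq_one_or_neg_one.1 hdet with h1 | h1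
    · exact h1.1
    · rw [h1.1] at e00
      have : (0 : ℤ) < a := by exact_mod_cast ha
      have : (0 : ℤ) < a' := by exact_mod_cast ha'
      omega
  rw [hx, one_mul] at hdet e00 e01
  rw [hdet, one_mul] at e11
  have h1 : a = a' := by exact_mod_cast e00
  have h2 : d = d' := by exact_mod_cast e11
  subst h1 h2
  have h3 : b = b' := by
    have hb : (b : ℤ) < d := by exact_mod_cast hs.2
    have hb' : (b' : ℤ) < d := by exact_mod_cast hs'.2
    have hd0 : (0 : ℤ) < d := by exact_mod_cast hd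
    have hy : (cm γ) 0 1 = 0 := by
      by_contra hne
      rcases lt_or_gt_of_ne hne with h4 | h4
      · have : (cm γ) 0 1 * d ≤ -1 * d := mul_le_mul_of_nonneg_right (by omega) hd0.le
        omega
      · have : 1 * (d : ℤ) ≤ (cm γ) 0 1 * d := mul_le_mul_of_nonneg_right (by omega) hd0.le
        omega
    rw [hy, zero_mul, add_zero] at e01
    exact_mod_cast e01
  rw [h3]

theorem heckeSum_eq (N : ℕ) (f : ℂ → ℂ) (z : ℂ) :
    heckeSum N f z = ∑ s ∈ repIdx N, f (mobH (repMat s) z) := by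
  rw [heckeSum, sum_sigma', repIdx]
  apply sum_congr rfl
  intro s _
  congr 1
  simp [mobH, repMat]

theorem heckeSum_mob {f : ℂ → ℂ} {N : ℕ} (hN : 0 < N) (hf : Inv f) (g : SL(2, ℤ)) {z : ℂ}
    (hz : 0 < z.im) : heckeSum N f (mobH (cm g) z) = heckeSum N f z := by
  have hpos : ∀ g : SL(2, ℤ), 0 < (cm g).det := fun g => by rw [cm_det]; exact one_pos
  have hNpos : (0 : ℤ) < N := by exact_mod_cast hN
  have key : ∀ (g : SL(2, ℤ)), ∀ s ∈ repIdx N, ∃ s' ∈ repIdx N, ∃ γ : SL(2, ℤ),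
      (cm γ) * (repMat s * (cm g)) = repMat s' := by
    intro g s hs
    exact exists_repMat hN _ (by rw [det_mul, det_repMat hs, cm_det, mul_one])
  choose! σ hσ1 γ hγ using key
  have hinv : ∀ (g : SL(2, ℤ)), ∀ s ∈ repIdx N, σ g⁻¹ (σ g s) = s := by
    intro g s hs
    have h1 := hγ g s hs
    have h2 := hγ g⁻¹ (σ g s) (hσ1 g s hs)
    symm
    apply rep_unique hs (hσ1 _ _ (hσ1 g s hs)) (γ g⁻¹ (σ g s) * γ g s)
    rw [← h2, ← h1, cm_mul]
    simp only [Matrix.mul_assoc]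
    rw [← cm_mul, mul_inv_cancel, cm_one, Matrix.mul_one]
  rw [heckeSum_eq, heckeSum_eq]
  refine Finset.sum_nbij' (σ g) (σ g⁻¹) (hσ1 g) (hσ1 g⁻¹) (hinv g) ?_ ?_
  · intro s hs
    have := hinv g⁻¹ s hs
    rwa [inv_inv] at this
  · intro s hs
    have hd : 0 < (repMat s).det := by rw [det_repMat hs]; exact hNpos
    have hd' : 0 < (repMat s * (cm g)).det := by rw [det_mul, cm_det, mul_one]; exact hd
    rw [← mobH_mul hd (hpos g) hz, ← hγ g s hs, mobH_mul (hpos _) hd' hz,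
      mobH_SL hf _ _ (mobH_im hd' hz)]

theorem specHeckeInv : SpecHeckeInv := by
  intro f N hN hf z hz
  constructor
  · have h1 : mobH (cm ModularGroup.T) z = z + 1 := by
      simp [mobH, cm_T]
    rw [← h1]
    exact heckeSum_mob hN hf _ hz
  · have h1 : mobH (cm ModularGroup.S) z = -1 / z := by
      simp [mobH, cm_S]
    rw [← h1]
    exact heckeSum_mob hN hf _ hz

end Pool.Agent.Lib.MP_47914d_nt
end

section
/-!
Module HLAUR: Hecke sums preserve integral Laurent expansions.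
-/
set_option autoImplicit false

open Complex
open scoped Real

namespace Pool.Agent.Lib.MP_47914d_nt

/-- additive character sum -/
lemma sum_exp_range (d : ℕ) (hd : 0 < d) (k : ℤ) (w : ℂ) :
    ∑ b ∈ Finset.range d, cexp (2 * π * I * (k * ((w + b) / d))) =
      if (d : ℤ) ∣ k then (d : ℂ) * cexp (2 * π * I * (k * (w / d))) else 0 := by
  have hd0 : (d : ℂ) ≠ 0 := by exact_mod_cast hd.ne'
  have h1 : ∀ b ∈ Finset.range d, cexp (2 * π * I * (k * ((w + b) / d))) =
      cexp (2 * π * I * (k * (w / d))) * (cexp (2 * π * I * (k / d))) ^ b := by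
    intro b _
    rw [← Complex.exp_nat_mul, ← Complex.exp_add]
    congr 1
    field_simp
  rw [Finset.sum_congr rfl h1, ← Finset.mul_sum]
  split_ifs with hk
  · obtain ⟨m, rfl⟩ := hk
    have h2 : cexp (2 * π * I * (((d * m : ℤ) : ℂ) / d)) = 1 := by
      rw [Complex.exp_eq_one_iff]
      refine ⟨m, ?_⟩
      push_cast
      field_simp
    rw [h2]
    simp [mul_comm]
  · have h2 : cexp (2 * π * I * ((k : ℂ) / d)) ≠ 1 := by
      intro h
      rw [Complex.exp_eq_one_iff] at h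
      obtain ⟨m, hm⟩ := h
      apply hk
      have h3 : (k : ℂ) / d = m := by
        have h4 : (2 * π * I : ℂ) ≠ 0 := by simp [Real.pi_ne_zero, I_ne_zero]
        apply mul_left_cancel₀ h4
        rw [hm]; ring
      refine ⟨m, ?_⟩
      have h5 : (k : ℂ) = d * m := by
        rw [← h3]; field_simp
      exact_mod_cast h5
    have h3 : (cexp (2 * π * I * ((k : ℂ) / d))) ^ d = 1 := by
      rw [← Complex.exp_nat_mul, Complex.exp_eq_one_iff]
      refine ⟨k, ?_⟩
      field_simp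
    rw [geom_sum_eq h2, h3]
    simp

/-- The coefficient function of one block. -/
def blockCoeff (c : ℕ → ℤ) (L N a d m : ℕ) : ℤ :=
  if (a : ℤ) ∣ (m : ℤ) - L * N ∧ 0 ≤ (L : ℤ) + d * (((m : ℤ) - L * N) / a) then
    d * c ((L : ℤ) + d * (((m : ℤ) - L * N) / a)).toNat else 0

lemma block_hasSum (f : ℂ → ℂ) (L N a d : ℕ) (hN : 0 < N) (had : a * d = N) (c : ℕ → ℤ)
    (hc : ∀ z : ℂ, 0 < z.im →
      HasSum (fun n : ℕ => (c n : ℂ) * cexp (2 * π * I * z) ^ n) (f z * cexp (2 * π * I * z) ^ L))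
    (z : ℂ) (hz : 0 < z.im) :
    HasSum (fun m : ℕ => (blockCoeff c L N a d m : ℂ) * cexp (2 * π * I * z) ^ m)
      ((∑ b ∈ Finset.range d, f (((a : ℂ) * z + (b : ℂ)) / (d : ℂ))) *
        cexp (2 * π * I * z) ^ (L * N)) := by
  have hd : 0 < d := Nat.pos_of_ne_zero (by rintro rfl; simp at had; omega)
  have ha : 0 < a := Nat.pos_of_ne_zero (by rintro rfl; simp at had; omega)
  have hd0 : (d : ℂ) ≠ 0 := by exact_mod_cast hd.ne'
  have ha0 : (a : ℂ) ≠ 0 := by exact_mod_cast ha.ne'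
  have him : ∀ b : ℕ, 0 < (((a : ℂ) * z + (b : ℂ)) / (d : ℂ)).im := by
    intro b
    have : (((a : ℂ) * z + (b : ℂ)) / (d : ℂ)).im = a * z.im / d := by
      rw [Complex.div_natCast_im]
      simp
    rw [this]
    positivity
  -- the sum over b
  have h1 : HasSum (fun n : ℕ => ∑ b ∈ Finset.range d,
      (c n : ℂ) * cexp (2 * π * I * (((a : ℂ) * z + (b : ℂ)) / (d : ℂ))) ^ n *
      (cexp (-(2 * π * I * (((a : ℂ) * z + (b : ℂ)) / (d : ℂ)) * L)) * cexp (2 * π * I * z) ^ (L * N)))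
      (∑ b ∈ Finset.range d, f (((a : ℂ) * z + (b : ℂ)) / (d : ℂ)) *
        cexp (2 * π * I * (((a : ℂ) * z + (b : ℂ)) / (d : ℂ))) ^ L *
      (cexp (-(2 * π * I * (((a : ℂ) * z + (b : ℂ)) / (d : ℂ)) * L)) * cexp (2 * π * I * z) ^ (L * N))) :=
    hasSum_sum fun b _ => (hc _ (him b)).mul_right _
  have h2 : (∑ b ∈ Finset.range d, f (((a : ℂ) * z + (b : ℂ)) / (d : ℂ)) *
        cexp (2 * π * I * (((a : ℂ) * z + (b : ℂ)) / (d : ℂ))) ^ L *
      (cexp (-(2 * π * I * (((a : ℂ) * z + (b : ℂ)) / (d : ℂ)) * L)) * cexp (2 * π * I * z) ^ (L * N)))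
      = (∑ b ∈ Finset.range d, f (((a : ℂ) * z + (b : ℂ)) / (d : ℂ))) *
        cexp (2 * π * I * z) ^ (L * N) := by
    rw [Finset.sum_mul]
    refine Finset.sum_congr rfl fun b _ => ?_
    have h3 : cexp (2 * π * I * (((a : ℂ) * z + (b : ℂ)) / (d : ℂ))) ^ L *
        cexp (-(2 * π * I * (((a : ℂ) * z + (b : ℂ)) / (d : ℂ)) * L)) = 1 := by
      rw [← Complex.exp_nat_mul, ← Complex.exp_add]
      rw [show (L : ℂ) * (2 * π * I * (((a : ℂ) * z + (b : ℂ)) / (d : ℂ))) +
        -(2 * π * I * (((a : ℂ) * z + (b : ℂ)) / (d : ℂ)) * L) = 0 by ring, Complex.exp_zero]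
    rw [mul_assoc, ← mul_assoc (cexp _ ^ L), h3, one_mul]
  rw [h2] at h1
  -- evaluate the terms
  have h4 : ∀ n : ℕ, (∑ b ∈ Finset.range d,
      (c n : ℂ) * cexp (2 * π * I * (((a : ℂ) * z + (b : ℂ)) / (d : ℂ))) ^ n *
      (cexp (-(2 * π * I * (((a : ℂ) * z + (b : ℂ)) / (d : ℂ)) * L)) * cexp (2 * π * I * z) ^ (L * N)))
      = if (d : ℤ) ∣ (n : ℤ) - L then
          ((d * c n : ℤ) : ℂ) * cexp (2 * π * I * (((n : ℤ) - L : ℤ) * (a * z / d) + L * N * z)) else 0 := by
    intro n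
    have h5 := sum_exp_range d hd ((n : ℤ) - L) (a * z)
    have h6 : ∀ b ∈ Finset.range d,
        (c n : ℂ) * cexp (2 * π * I * (((a : ℂ) * z + (b : ℂ)) / (d : ℂ))) ^ n *
        (cexp (-(2 * π * I * (((a : ℂ) * z + (b : ℂ)) / (d : ℂ)) * L)) *
          cexp (2 * π * I * z) ^ (L * N)) =
        ((c n : ℂ) * cexp (2 * π * I * z) ^ (L * N)) *
          cexp (2 * π * I * (((n : ℤ) - L : ℤ) * ((a * z + b) / d))) := by
      intro b _
      have h7 : cexp (2 * π * I * (((a : ℂ) * z + (b : ℂ)) / (d : ℂ))) ^ n *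
        cexp (-(2 * π * I * (((a : ℂ) * z + (b : ℂ)) / (d : ℂ)) * L)) =
          cexp (2 * π * I * (((n : ℤ) - L : ℤ) * ((a * z + b) / d))) := by
        rw [← Complex.exp_nat_mul, ← Complex.exp_add]
        congr 1
        push_cast
        ring
      rw [← h7]; ring
    rw [Finset.sum_congr rfl h6, ← Finset.mul_sum, h5]
    split_ifs with hk
    · have h8 : cexp (2 * π * I * (((n : ℤ) - L : ℤ) * (a * z / d) + L * N * z)) =
          cexp (2 * π * I * (((n : ℤ) - L : ℤ) * (a * z / d))) * cexp (2 * π * I * z) ^ (L * N) := by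
        rw [← Complex.exp_nat_mul, ← Complex.exp_add]
        congr 1
        push_cast
        ring
      rw [h8]
      push_cast
      ring
    · simp
  rw [show (fun n : ℕ => ∑ b ∈ Finset.range d,
      (c n : ℂ) * cexp (2 * π * I * (((a : ℂ) * z + (b : ℂ)) / (d : ℂ))) ^ n *
      (cexp (-(2 * π * I * (((a : ℂ) * z + (b : ℂ)) / (d : ℂ)) * L)) * cexp (2 * π * I * z) ^ (L * N)))
      = _ from funext h4] at h1
  -- reindex
  set S : Set ℕ := {n : ℕ | (d : ℤ) ∣ (n : ℤ) - L} with hS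
  have h9 : HasSum ((fun n : ℕ => if (d : ℤ) ∣ (n : ℤ) - L then
          ((d * c n : ℤ) : ℂ) * cexp (2 * π * I * (((n : ℤ) - L : ℤ) * (a * z / d) + L * N * z)) else 0) ∘
          ((↑) : S → ℕ))
      ((∑ b ∈ Finset.range d, f (((a : ℂ) * z + (b : ℂ)) / (d : ℂ))) *
        cexp (2 * π * I * z) ^ (L * N)) := by
    refine (hasSum_subtype_iff_of_support_subset ?_).2 h1
    intro n hn
    by_contra hns
    apply hn
    exact if_neg hns
  have hk : ∀ n : S, ∃ k : ℤ, ((n : ℕ) : ℤ) - L = d * k := fun n => n.2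
  choose κ hκ using hk
  have haN : a ≤ N := by rw [← had]; exact Nat.le_mul_of_pos_right _ hd
  have hpos : ∀ n : S, 0 ≤ (L : ℤ) * N + a * κ n := by
    intro n
    have h10 : -(L : ℤ) ≤ κ n := by
      by_contra hlt
      push Not at hlt
      have h11 := hκ n
      have h12 : (0 : ℤ) ≤ ((n : ℕ) : ℤ) := Int.natCast_nonneg _
      have h13 : (1 : ℤ) ≤ d := by exact_mod_cast hd
      have h14 : (d : ℤ) * κ n ≤ κ n := by
        have h15 : κ n ≤ 0 := by
          have : (0 : ℤ) ≤ L := Int.natCast_nonneg _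
          omega
        nlinarith
      omega
    have h16 : (a : ℤ) ≤ N := by exact_mod_cast haN
    have h17 : (0 : ℤ) ≤ a := Int.natCast_nonneg _
    have h18 : (0 : ℤ) ≤ L := Int.natCast_nonneg _
    nlinarith
  let φ : S → ℕ := fun n => ((L : ℤ) * N + a * κ n).toNat
  have hφ : ∀ n : S, ((φ n : ℕ) : ℤ) = (L : ℤ) * N + a * κ n := fun n =>
    Int.toNat_of_nonneg (hpos n)
  have haZ : (a : ℤ) ≠ 0 := by exact_mod_cast ha.ne'
  have hdZ : (d : ℤ) ≠ 0 := by exact_mod_cast hd.ne'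
  have hφinj : Function.Injective φ := by
    intro n m hnm
    have h10 : ((φ n : ℕ) : ℤ) = (φ m : ℕ) := by rw [hnm]
    rw [hφ, hφ] at h10
    have h11 : κ n = κ m := by
      have : (a : ℤ) * κ n = a * κ m := by linarith
      exact mul_left_cancel₀ haZ this
    have h12 := hκ n
    have h13 := hκ m
    rw [h11] at h12
    apply Subtype.ext
    omega
  refine (Function.Injective.hasSum_iff hφinj ?_).1 ?_
  · intro m hm
    have : blockCoeff c L N a d m = 0 := by
      rw [blockCoeff, if_neg]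
      rintro ⟨⟨k, hk⟩, h10⟩
      apply hm
      rw [hk, Int.mul_ediv_cancel_left _ haZ] at h10
      refine ⟨⟨((L : ℤ) + d * k).toNat, ?_⟩, ?_⟩
      · show (d : ℤ) ∣ _
        rw [Int.toNat_of_nonneg h10]
        exact ⟨k, by ring⟩
      · set n : S := ⟨((L : ℤ) + d * k).toNat, _⟩ with hn
        have h11 : κ n = k := by
          have h12 := hκ n
          have h13 : ((n : ℕ) : ℤ) = (L : ℤ) + d * k := Int.toNat_of_nonneg h10
          rw [h13] at h12
          have : (d : ℤ) * κ n = d * k := by linarith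
          exact mul_left_cancel₀ hdZ this
        have h14 : ((φ n : ℕ) : ℤ) = m := by
          rw [hφ, h11]
          linarith
        exact_mod_cast h14
    rw [this]
    simp
  · convert h9 using 1
    funext n
    show (blockCoeff c L N a d (φ n) : ℂ) * cexp (2 * π * I * z) ^ (φ n) =
      if (d : ℤ) ∣ ((n : ℕ) : ℤ) - L then
          ((d * c n : ℤ) : ℂ) * cexp (2 * π * I * ((((n : ℕ) : ℤ) - L : ℤ) * (a * z / d) + L * N * z)) else 0
    have hn : (d : ℤ) ∣ ((n : ℕ) : ℤ) - L := n.2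
    rw [if_pos hn]
    have h10 : ((φ n : ℕ) : ℤ) - L * N = a * κ n := by rw [hφ]; ring
    have h11 : (L : ℤ) + d * κ n = (n : ℕ) := by rw [← hκ n]; ring
    have h12 : blockCoeff c L N a d (φ n) = d * c n := by
      rw [blockCoeff, h10, Int.mul_ediv_cancel_left _ haZ, h11, Int.toNat_natCast, if_pos]
      exact ⟨⟨_, rfl⟩, Int.natCast_nonneg _⟩
    rw [h12, ← Complex.exp_nat_mul]
    congr 2
    have h13 : ((φ n : ℕ) : ℂ) = (L : ℂ) * N + a * κ n := by
      have := congrArg (Int.cast : ℤ → ℂ) (hφ n)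
      push_cast at this
      exact this
    rw [h13, hκ n]
    push_cast
    field_simp
    ring

theorem specHeckeLaurent : SpecHeckeLaurent := by
  rintro f L N hN ⟨c, hc⟩
  refine ⟨fun m => ∑ p ∈ N.divisorsAntidiagonal, blockCoeff c L N p.1 p.2 m, fun z hz => ?_⟩
  rw [heckeSum, Finset.sum_mul]
  have h1 : (fun n : ℕ => ((∑ p ∈ N.divisorsAntidiagonal, blockCoeff c L N p.1 p.2 n : ℤ) : ℂ) *
      cexp (2 * π * Complex.I * z) ^ n) = fun n : ℕ => ∑ p ∈ N.divisorsAntidiagonal,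
        (blockCoeff c L N p.1 p.2 n : ℂ) * cexp (2 * π * Complex.I * z) ^ n := by
    funext n
    rw [Int.cast_sum, Finset.sum_mul]
  rw [h1]
  exact hasSum_sum fun p hp =>
    block_hasSum f L N p.1 p.2 hN (Nat.mem_divisorsAntidiagonal.1 hp).1 c hc z hz

end Pool.Agent.Lib.MP_47914d_nt
end

section
/-!
The frozen formula for `j` agrees with `E₄ ^ 3 / Δ`.
-/
set_option autoImplicit false

open UpperHalfPlane ModularForm Complex Polynomial Filter Topology EisensteinSeries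
open scoped Real MatrixGroups

namespace Pool.Agent.Lib.MP_47914d_nt

theorem tsum_lattice {k : ℕ} (hk : 3 ≤ k) (z : ℍ) :
    ∑' p : ℤ × ℤ, 1 / ((p.1 : ℂ) * z + (p.2 : ℂ)) ^ k = 2 * riemannZeta k * E hk z := by
  have h1 := tsum_eisSummand_eq_riemannZeta_mul_eisensteinSeries hk z
  have h2 : ∑' p : ℤ × ℤ, 1 / ((p.1 : ℂ) * z + (p.2 : ℂ)) ^ k
      = ∑' v : Fin 2 → ℤ, eisSummand k v z := by
    rw [← (finTwoArrowEquiv ℤ).symm.tsum_eq]
    refine tsum_congr fun p => ?_
    simp [eisSummand]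
  have h3 : E hk z = (1 / 2 : ℂ) * eisensteinSeries (N := 1) 0 k z := rfl
  rw [h2, h1, h3]
  ring

theorem specFormula : SpecFormula := by
  intro τ hτ
  have h4 := tsum_lattice (k := 4) (by norm_num) ⟨τ, hτ⟩
  have h6 := tsum_lattice (k := 6) (by norm_num) ⟨τ, hτ⟩
  have hz4 : riemannZeta (4 : ℕ) = (π : ℂ) ^ 4 / 90 := by
    have := riemannZeta_four
    exact_mod_cast this
  have hb : _root_.bernoulli 6 = 1 / 42 := by decide +kernel
  have hz6 : riemannZeta (6 : ℕ) = (π : ℂ) ^ 6 / 945 := by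
    have := riemannZeta_two_mul_nat (k := 3) (by norm_num)
    norm_num at this
    have h : ((6 : ℕ) : ℂ) = 6 := by norm_num
    rw [h, this, hb]
    norm_num [Nat.factorial]
    ring
  have hd := discriminant_eq_E₄_cube_sub_E₆_sq ⟨τ, hτ⟩
  have hpi : (π : ℂ) ≠ 0 := by exact_mod_cast Real.pi_ne_zero
  rw [hz4] at h4
  rw [hz6] at h6
  rw [jFormula, Jc, dif_pos hτ, J, hd]
  have e4 : ∑' p : ℤ × ℤ, 1 / ((p.1 : ℂ) * τ + (p.2 : ℂ)) ^ 4
      = 2 * ((π : ℂ) ^ 4 / 90) * E₄ ⟨τ, hτ⟩ := h4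
  have e6 : ∑' p : ℤ × ℤ, 1 / ((p.1 : ℂ) * τ + (p.2 : ℂ)) ^ 6
      = 2 * ((π : ℂ) ^ 6 / 945) * E₆ ⟨τ, hτ⟩ := h6
  rw [e4, e6]
  set a := E₄ ⟨τ, hτ⟩
  set b := E₆ ⟨τ, hτ⟩
  have hA : (60 * (2 * ((π : ℂ) ^ 4 / 90) * a)) ^ 3 = (64 / 27 * (π : ℂ) ^ 12) * a ^ 3 := by ring
  have hB : (60 * (2 * ((π : ℂ) ^ 4 / 90) * a)) ^ 3 - 27 * (140 * (2 * ((π : ℂ) ^ 6 / 945) * b)) ^ 2
      = (64 / 27 * (π : ℂ) ^ 12) * (a ^ 3 - b ^ 2) := by ring
  rw [hB, hA]
  have hc : (64 / 27 * (π : ℂ) ^ 12) ≠ 0 := mul_ne_zero (by norm_num) (pow_ne_zero _ hpi)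
  rw [mul_left_comm, mul_div_mul_left _ _ hc, div_div_eq_mul_div, mul_comm (a ^ 3)]

end Pool.Agent.Lib.MP_47914d_nt
end
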