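import Pool.Agent.Lib.MP_47914d_nt.Defs3
import Pool.Agent.Lib.MP_47914d_nt.JFormula

/-!
CLASS: singular moduli are algebraic integers of degree and logarithmic Mahler measure
`O(H ^ (1 + ε))`, where `H` is the height of the CM point.
-/

set_option autoImplicit false

open UpperHalfPlane hiding I
open ModularForm Complex Polynomial Filter Topology
open scoped Real MatrixGroups

namespace Pool.Agent.Lib.MP_47914d_nt

namespace CLS

/-- There is an integral matrix of determinant `N` fixing `κ`. -/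
def Fix (N : ℕ) (κ : ℂ) : Prop :=
  ∃ P Q R S : ℤ, P * S - Q * R = N ∧ (R : ℂ) * κ ^ 2 + ((S - P : ℤ) : ℂ) * κ + ((-Q : ℤ) : ℂ) = 0

theorem lin0 {κ : ℂ} (hκ : 0 < κ.im) {y z : ℤ} (h : (y : ℂ) * κ + z = 0) : y = 0 ∧ z = 0 := by
  have h1 := congrArg Complex.im h
  simp only [Complex.add_im, Complex.mul_im, Complex.intCast_re, Complex.intCast_im,
    Complex.zero_im, zero_mul, add_zero] at h1
  have hy : (y : ℝ) = 0 := by
    rcases mul_eq_zero.1 h1 with h2 | h2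
    · exact h2
    · exact absurd h2 hκ.ne'
  have hy' : y = 0 := by exact_mod_cast hy
  rw [hy'] at h
  simp only [Int.cast_zero, zero_mul, zero_add] at h
  exact ⟨hy', by exact_mod_cast h⟩

theorem ne_den' {κ : ℂ} (hκ : 0 < κ.im) {y z : ℤ} (h : ¬ (y = 0 ∧ z = 0)) : (y : ℂ) * κ + z ≠ 0 :=
  fun h0 => h (lin0 hκ h0)

theorem Jc_of {w : ℂ} (h : 0 < w.im) : Jc w = J ⟨w, h⟩ := by rw [Jc, dif_pos h]

theorem Fix_iff (hJ : SpecJ) (hInj : SpecInjFull) {N : ℕ} (hN : 0 < N) {κ : ℂ} (hκ : 0 < κ.im) :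
    Fix N κ ↔ ∃ p ∈ N.divisorsAntidiagonal, ∃ b ∈ Finset.range p.2,
      Jc κ = Jc (((p.1 : ℂ) * κ + (b : ℂ)) / (p.2 : ℂ)) := by
  constructor
  · rintro ⟨P, Q, R, S, hdet, h⟩
    have hRS : ¬ (R = 0 ∧ S = 0) := by
      rintro ⟨h1, h2⟩
      rw [h1, h2] at hdet
      have : (N : ℤ) ≠ 0 := by exact_mod_cast hN.ne'
      apply this
      rw [← hdet]
      ring
    have h0 := ne_den' hκ hRS
    have he : ((P : ℂ) * κ + Q) / ((R : ℂ) * κ + S) = κ := by
      rw [div_eq_iff h0]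
      push_cast at h
      linear_combination -h
    obtain ⟨p, hp, b, hb, hh⟩ := CMB.exists_rep hJ N hN P Q R S hdet hκ
    rw [he] at hh
    exact ⟨p, hp, b, hb, hh⟩
  · rintro ⟨p, hp, b, hb, h⟩
    obtain ⟨hp1, hp0⟩ := Nat.mem_divisorsAntidiagonal.1 hp
    have hp2 : 0 < p.2 := Nat.pos_of_ne_zero fun h0 => by
      rw [h0, mul_zero] at hp1
      exact hp0 hp1.symm
    have hp1' : 0 < p.1 := Nat.pos_of_ne_zero fun h0 => by
      rw [h0, zero_mul] at hp1
      exact hp0 hp1.symm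
    have hp2C : (p.2 : ℂ) ≠ 0 := by exact_mod_cast hp2.ne'
    have him : 0 < (((p.1 : ℂ) * κ + (b : ℂ)) / (p.2 : ℂ)).im := by
      have : ((p.1 : ℂ) * κ + (b : ℂ)) / (p.2 : ℂ) = ((p.1 : ℂ) * κ + (b : ℂ)) / ((p.2 : ℝ) : ℂ) := by
        norm_cast
      rw [this, Complex.div_ofReal_im]
      have h1 : (0 : ℝ) < p.1 := by exact_mod_cast hp1'
      have h2 : (0 : ℝ) < p.2 := by exact_mod_cast hp2
      simp
      positivity
    obtain ⟨a0, b0, c0, d0, hdet, hrel⟩ := hInj _ _ hκ him h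
    refine ⟨d0 * p.1, d0 * b - b0 * p.2, -c0 * p.1, a0 * p.2 - c0 * b, ?_, ?_⟩
    · have : (p.1 : ℤ) * p.2 = N := by exact_mod_cast hp1
      linear_combination (p.1 : ℤ) * p.2 * hdet + this
    · rw [mul_div_assoc', div_eq_iff hp2C] at hrel
      push_cast
      linear_combination -hrel

/-- `(a, b, c)` is the primitive form of `κ`. -/
def Prim (κ : ℂ) (a b c : ℤ) : Prop :=
  0 < a ∧ (a : ℂ) * κ ^ 2 + (b : ℂ) * κ + (c : ℂ) = 0 ∧
    ∀ x y z : ℤ, (x : ℂ) * κ ^ 2 + (y : ℂ) * κ + (z : ℂ) = 0 →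
      ∃ u : ℤ, x = u * a ∧ y = u * b ∧ z = u * c

theorem exists_prim {κ : ℂ} (hκ : 0 < κ.im) {x y z : ℤ} (h0 : x ≠ 0 ∨ y ≠ 0 ∨ z ≠ 0)
    (h : (x : ℂ) * κ ^ 2 + (y : ℂ) * κ + (z : ℂ) = 0) : ∃ a b c, Prim κ a b c := by
  classical
  obtain ⟨hx, -⟩ := CMB.disc_pos hκ h0 h
  have hex : ∃ n : ℕ, 0 < n ∧ ∃ b c : ℤ, (n : ℂ) * κ ^ 2 + (b : ℂ) * κ + (c : ℂ) = 0 := by
    rcases lt_or_gt_of_ne hx with hx | hx
    · obtain ⟨n, hn⟩ := Int.eq_ofNat_of_zero_le (neg_nonneg.2 hx.le)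
      refine ⟨n, by omega, -y, -z, ?_⟩
      have : (n : ℂ) = ((-x : ℤ) : ℂ) := by rw [hn]; simp
      rw [this]
      push_cast
      linear_combination -h
    · obtain ⟨n, hn⟩ := Int.eq_ofNat_of_zero_le hx.le
      refine ⟨n, by omega, y, z, ?_⟩
      have : (n : ℂ) = ((x : ℤ) : ℂ) := by rw [hn]; simp
      rw [this]
      exact h
  set n := Nat.find hex with hn
  obtain ⟨hn0, b, c, hbc⟩ := Nat.find_spec hex
  rw [← hn] at hn0 hbc
  have hmin : ∀ m < n, ¬ (0 < m ∧ ∃ b c : ℤ, (m : ℂ) * κ ^ 2 + (b : ℂ) * κ + (c : ℂ) = 0) :=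
    fun m hm => Nat.find_min hex hm
  refine ⟨n, b, c, by exact_mod_cast hn0, by exact_mod_cast hbc, ?_⟩
  intro x y z hxyz
  have hnZ : (0 : ℤ) < n := by exact_mod_cast hn0
  have hr0 := Int.emod_nonneg x hnZ.ne'
  have hr1 := Int.emod_lt_of_pos x hnZ
  have hr2 := Int.emod_add_mul_ediv x n
  obtain ⟨m, hm⟩ := Int.eq_ofNat_of_zero_le hr0
  set q := x / (n : ℤ) with hq
  have hmn : m < n := by omega
  have hrel : (m : ℂ) * κ ^ 2 + ((y - q * b : ℤ) : ℂ) * κ + ((z - q * c : ℤ) : ℂ) = 0 := by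
    have h1 : (m : ℂ) = x - n * q := by
      have : (m : ℤ) = x - n * q := by omega
      exact_mod_cast this
    rw [h1]
    push_cast
    linear_combination hxyz - (q : ℂ) * hbc
  have hm0 : m = 0 := by
    by_contra hm0
    exact hmin m hmn ⟨Nat.pos_of_ne_zero hm0, _, _, hrel⟩
  rw [hm0] at hrel
  simp only [Nat.cast_zero, zero_mul, zero_add] at hrel
  obtain ⟨h1, h2⟩ := lin0 hκ hrel
  refine ⟨q, ?_, by linarith, by linarith⟩
  rw [hm, hm0] at hr2
  simp only [Nat.cast_zero, zero_add] at hr2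
  linarith

/-- Coordinates of a quadratic point. -/
theorem coords {κ : ℂ} (hκ : 0 < κ.im) {a b c : ℤ}
    (h : (a : ℂ) * κ ^ 2 + (b : ℂ) * κ + (c : ℂ) = 0) :
    (b : ℝ) = -(2 * a * κ.re) ∧ (c : ℝ) = a * (κ.re ^ 2 + κ.im ^ 2) := by
  have hre := congrArg Complex.re h
  have him := congrArg Complex.im h
  simp only [pow_two, Complex.add_re, Complex.mul_re, Complex.add_im, Complex.mul_im,
    Complex.intCast_re, Complex.intCast_im, Complex.zero_re, Complex.zero_im] at hre him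
  have hb : (b : ℝ) = -(2 * a * κ.re) := by
    have : κ.im * ((b : ℝ) + 2 * a * κ.re) = 0 := by linear_combination him
    rcases mul_eq_zero.1 this with h1 | h1
    · exact absurd h1 hκ.ne'
    · linarith
  refine ⟨hb, ?_⟩
  rw [hb] at hre
  linear_combination hre

theorem disc_eq {κ : ℂ} (hκ : 0 < κ.im) {a b c : ℤ}
    (h : (a : ℂ) * κ ^ 2 + (b : ℂ) * κ + (c : ℂ) = 0) :
    ((4 * a * c - b ^ 2 : ℤ) : ℝ) = (2 * a * κ.im) ^ 2 := by
  obtain ⟨hb, hc⟩ := coords hκ h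
  push_cast
  rw [hb, hc]
  ring

/-- A quadratic point is determined by its form. -/
theorem eq_of_form {τ τ' : ℂ} (hτ : 0 < τ.im) (hτ' : 0 < τ'.im) {a b c : ℤ} (ha : 0 < a)
    (h : (a : ℂ) * τ ^ 2 + (b : ℂ) * τ + (c : ℂ) = 0)
    (h' : (a : ℂ) * τ' ^ 2 + (b : ℂ) * τ' + (c : ℂ) = 0) : τ = τ' := by
  obtain ⟨h1, h2⟩ := coords hτ h
  obtain ⟨h3, h4⟩ := coords hτ' h'
  have haR : (0 : ℝ) < a := by exact_mod_cast ha
  have hre : τ.re = τ'.re := by
    have : 2 * (a : ℝ) * (τ.re - τ'.re) = 0 := by linarith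
    rcases mul_eq_zero.1 this with h5 | h5
    · exfalso; linarith
    · linarith
  have him : τ.im ^ 2 = τ'.im ^ 2 := by
    rw [hre] at h2
    have : (a : ℝ) * (τ.im ^ 2 - τ'.im ^ 2) = 0 := by linarith
    rcases mul_eq_zero.1 this with h5 | h5
    · exfalso; linarith
    · linarith
  apply Complex.ext hre
  exact (sq_eq_sq₀ hτ.le hτ'.le).1 him

theorem fix_lower {κ : ℂ} (hκ : 0 < κ.im) {a b c : ℤ} (hp : Prim κ a b c) {N : ℕ}
    (hN : ¬ IsSquare N) (hf : Fix N κ) : 4 * a * c - b ^ 2 ≤ 4 * N := by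
  obtain ⟨P, Q, R, S, hdet, h⟩ := hf
  obtain ⟨u, h1, h2, h3⟩ := hp.2.2 _ _ _ h
  have hD := (CMB.disc_pos hκ (Or.inl hp.1.ne') hp.2.1).2
  have hu : u ≠ 0 := by
    rintro rfl
    simp only [zero_mul] at h1 h2 h3
    apply hN
    refine ⟨P.natAbs, ?_⟩
    have : (N : ℤ) = P * P := by
      have h4 : Q = 0 := by linarith
      have h5 : S = P := by linarith
      rw [h4, h5] at hdet
      linarith
    have h6 : ((P.natAbs * P.natAbs : ℕ) : ℤ) = P * P := by
      rw [Nat.cast_mul]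
      exact Int.natAbs_mul_self' P
    exact_mod_cast this.trans h6.symm
  have hu2 : 1 ≤ u ^ 2 := by
    have : 0 < u ^ 2 := by positivity
    omega
  have h4 : 4 * (N : ℤ) = (P + S) ^ 2 + u ^ 2 * (4 * a * c - b ^ 2) := by
    rw [← hdet]
    have h5 : Q = -(u * c) := by linarith
    have h6 : S = P + u * b := by linarith
    rw [h1, h5, h6]
    ring
  nlinarith [sq_nonneg (P + S)]

theorem not_sq {k n : ℕ} (hk : 0 < k) (h : n = k * k + 1 ∨ n = k * k + 2) : ¬ IsSquare n := by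
  rintro ⟨r, hr⟩
  have h1 : k < r := by
    by_contra hle
    push Not at hle
    have := Nat.mul_le_mul hle hle
    omega
  have h2 : (k + 1) * (k + 1) ≤ r * r := Nat.mul_le_mul h1 h1
  have h3 : (k + 1) * (k + 1) = k * k + 2 * k + 1 := by ring
  omega

theorem fix_upper {κ : ℂ} (hκ : 0 < κ.im) {a b c : ℤ} (hp : Prim κ a b c) :
    ∃ N : ℕ, ¬ IsSquare N ∧ Fix N κ ∧ 4 * (N : ℤ) ≤ 4 * a * c - b ^ 2 + 9 := by
  have hD := (CMB.disc_pos hκ (Or.inl hp.1.ne') hp.2.1).2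
  obtain ⟨t, s, ht, hts⟩ : ∃ t s : ℤ, (t = 0 ∨ t = 1) ∧ b = t - 2 * s := by
    refine ⟨b % 2, -(b / 2), by omega, by omega⟩
  have hrel := hp.2.1
  set n1 : ℤ := s * (t - s) + a * c with hn1
  have h4 : 4 * n1 = t ^ 2 + (4 * a * c - b ^ 2) := by rw [hn1, hts]; ring
  have hn1pos : 0 < n1 := by nlinarith [sq_nonneg t]
  obtain ⟨k1, hk1⟩ := Int.eq_ofNat_of_zero_le hn1pos.le
  obtain ⟨t', ht'⟩ : ∃ t' : ℕ, t = t' := Int.eq_ofNat_of_zero_le (by omega)
  have ht2 : t ^ 2 ≤ 1 := by rcases ht with h | h <;> rw [h] <;> norm_num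
  have ht3 : (t + 2) ^ 2 ≤ 9 := by rcases ht with h | h <;> rw [h] <;> norm_num
  by_cases hsq : IsSquare k1
  · obtain ⟨k, hk⟩ := hsq
    have hk0 : 0 < k := Nat.pos_of_ne_zero fun h0 => by
      rw [h0] at hk
      omega
    refine ⟨k1 + 1 + t', ?_, ⟨s + 1, -c, a, s + 1 + b, ?_, ?_⟩, ?_⟩
    · apply not_sq hk0
      rcases ht with h | h
      · left
        omega
      · right
        omega
    · push_cast
      rw [← ht', ← hk1, hn1, hts]
      ring
    · push_cast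
      linear_combination hrel
    · push_cast
      rw [← ht', ← hk1]
      nlinarith
  · refine ⟨k1, hsq, ⟨s, -c, a, s + b, ?_, ?_⟩, ?_⟩
    · rw [← hk1, hn1, hts]
      ring
    · push_cast
      linear_combination hrel
    · rw [← hk1]
      linarith

/-- Conjugates satisfy the same integral relations. -/
theorem galois {x : ℂ} (hx : IsIntegral ℤ x) {r : ℂ} (hr : aeval r (minpoly ℤ x) = 0) (Ψ : ℤ[X]) :
    aeval x Ψ = 0 ↔ aeval r Ψ = 0 := by
  constructor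
  · intro h
    obtain ⟨q, hq⟩ := minpoly.isIntegrallyClosed_dvd hx h
    rw [hq, map_mul, hr, zero_mul]
  · intro h
    have hrint : IsIntegral ℤ r := ⟨minpoly ℤ x, minpoly.monic hx, hr⟩
    have h1 : minpoly ℤ r ∣ minpoly ℤ x := minpoly.isIntegrallyClosed_dvd hrint hr
    have h2 : minpoly ℤ r = minpoly ℤ x := by
      have h3 := (minpoly.prime_of_isIntegrallyClosed hx).irreducible
      have h4 := (minpoly.prime_of_isIntegrallyClosed hrint).irreducible
      have h5 : Associated (minpoly ℤ r) (minpoly ℤ x) := h4.associated_of_dvd h3 h1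
      exact Polynomial.eq_of_monic_of_associated (minpoly.monic hrint) (minpoly.monic hx) h5
    obtain ⟨q, hq⟩ := minpoly.isIntegrallyClosed_dvd hrint h
    rw [hq, map_mul, h2, minpoly.aeval, zero_mul]

theorem card_roots {x : ℂ} (hx : IsIntegral ℤ x) :
    (minpoly ℤ x).natDegree = ((minpoly ℤ x).aroots ℂ).toFinset.card := by
  have hsep : (minpoly ℚ x).Separable := (minpoly.irreducible hx.tower_top).separable
  have h1 : (minpoly ℚ x) = (minpoly ℤ x).map (algebraMap ℤ ℚ) :=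
    minpoly.isIntegrallyClosed_eq_field_fractions' ℚ hx
  have hnd : ((minpoly ℤ x).aroots ℂ).Nodup := by
    have h2 : (minpoly ℤ x).aroots ℂ = ((minpoly ℚ x).map (algebraMap ℚ ℂ)).roots := by
      rw [h1, Polynomial.aroots, Polynomial.map_map]
      rfl
    rw [h2]
    exact Polynomial.nodup_roots hsep.map
  rw [Multiset.toFinset_card_of_nodup hnd,
    IsAlgClosed.card_aroots_eq_natDegree_of_leadingCoeff_ne_zero]
  rw [minpoly.monic hx]
  simp

/-- Every conjugate of a singular modulus comes from a reduced form of nearly the same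
discriminant. -/
theorem conj_data (hJ : SpecJ) (hPsi : SpecPsi) (hInj : SpecInjFull) {κ : ℂ} (hκ : 0 < κ.im)
    {a b c : ℤ} (hp : Prim κ a b c) :
    IsIntegral ℤ (Jc κ) ∧ ∃ N0 : ℕ, 4 * (N0 : ℤ) ≤ 4 * a * c - b ^ 2 + 9 ∧
      ∀ r : ℂ, aeval r (minpoly ℤ (Jc κ)) = 0 → ∃ (k : ℕ) (a' b' c' : ℤ) (τ : ℂ), k < 10 ∧
        0 < τ.im ∧ 1 ≤ Complex.normSq τ ∧ |τ.re| ≤ 1 / 2 ∧ Jc τ = r ∧ 0 < a' ∧
        (a' : ℂ) * τ ^ 2 + (b' : ℂ) * τ + (c' : ℂ) = 0 ∧ 4 * a' * c' - b' ^ 2 = 4 * N0 - k := by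
  classical
  obtain ⟨N1, hN1sq, hN1fix, hN1le⟩ := fix_upper hκ hp
  have hposN : ∀ N : ℕ, ¬ IsSquare N → 0 < N := by
    intro N hN
    apply Nat.pos_of_ne_zero
    rintro rfl
    exact hN ⟨0, rfl⟩
  have hint : IsIntegral ℤ (Jc κ) := by
    obtain ⟨Ψ, hΨm, hΨ⟩ := hPsi N1 (hposN N1 hN1sq) hN1sq
    exact ⟨Ψ, hΨm, (hΨ κ hκ).2 ((Fix_iff hJ hInj (hposN N1 hN1sq) hκ).1 hN1fix)⟩
  refine ⟨hint, ?_⟩
  have hex : ∃ N : ℕ, ¬ IsSquare N ∧ Fix N κ := ⟨N1, hN1sq, hN1fix⟩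
  set N0 := Nat.find hex with hN0
  obtain ⟨hN0sq, hN0fix⟩ := Nat.find_spec hex
  rw [← hN0] at hN0sq hN0fix
  have hmin : ∀ N : ℕ, ¬ IsSquare N → Fix N κ → N0 ≤ N := fun N h1 h2 => Nat.find_min' hex ⟨h1, h2⟩
  refine ⟨N0, ?_, ?_⟩
  · have : (N0 : ℤ) ≤ N1 := by exact_mod_cast hmin N1 hN1sq hN1fix
    linarith
  intro r hr
  obtain ⟨w, hw, hwr⟩ := hJ.surj r
  have hw0 : 0 < w.im := by linarith
  obtain ⟨g, hg⟩ := ModularGroup.exists_smul_mem_fd ⟨w, hw0⟩
  set z : ℍ := g • (⟨w, hw0⟩ : ℍ) with hz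
  have hτ0 : 0 < (z : ℂ).im := z.im_pos
  have hJz : Jc (z : ℂ) = r := by
    rw [Jc_of hτ0]
    show J z = r
    rw [hz, hJ.smul, ← hwr, Jc_of hw0]
  have hfix : ∀ N : ℕ, ¬ IsSquare N → (Fix N κ ↔ Fix N (z : ℂ)) := by
    intro N hN
    obtain ⟨Ψ, hΨm, hΨ⟩ := hPsi N (hposN N hN) hN
    rw [Fix_iff hJ hInj (hposN N hN) hκ, Fix_iff hJ hInj (hposN N hN) hτ0, ← hΨ κ hκ,
      ← hΨ z hτ0, hJz]
    exact galois hint hr Ψ
  have hzfix : Fix N0 (z : ℂ) := (hfix N0 hN0sq).1 hN0fix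
  obtain ⟨a', b', c', hp'⟩ : ∃ a' b' c', Prim (z : ℂ) a' b' c' := by
    obtain ⟨P, Q, R, S, hdet, h⟩ := hzfix
    refine exists_prim hτ0 ?_ h
    by_contra hcon
    push Not at hcon
    obtain ⟨h1, h2, h3⟩ := hcon
    apply hN0sq
    refine ⟨P.natAbs, ?_⟩
    have h4 : Q = 0 := by linarith
    have h5 : S = P := by linarith
    have h7 : (N0 : ℤ) = P * P := by
      rw [h4, h5] at hdet
      linarith
    have h6 : ((P.natAbs * P.natAbs : ℕ) : ℤ) = P * P := by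
      rw [Nat.cast_mul]
      exact Int.natAbs_mul_self' P
    exact_mod_cast h7.trans h6.symm
  have hlow := fix_lower hτ0 hp' hN0sq hzfix
  have hup : 4 * (N0 : ℤ) ≤ 4 * a' * c' - b' ^ 2 + 9 := by
    obtain ⟨N2, h1, h2, h3⟩ := fix_upper hτ0 hp'
    have h4 : (N0 : ℤ) ≤ N2 := by exact_mod_cast hmin N2 h1 ((hfix N2 h1).2 h2)
    linarith
  obtain ⟨k, hk⟩ := Int.eq_ofNat_of_zero_le (show 0 ≤ 4 * (N0 : ℤ) - (4 * a' * c' - b' ^ 2) by
    linarith)
  refine ⟨k, a', b', c', z, by omega, hτ0, hg.1, hg.2, hJz, hp'.1, hp'.2.1, by omega⟩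

theorem log_bound (hJ : SpecJ) : ∃ K : ℝ, 0 ≤ K ∧ ∀ τ : ℂ, 1 / 2 ≤ τ.im →
    Real.log (max 1 ‖Jc τ‖) ≤ K + 2 * π * τ.im := by
  obtain ⟨K, hK1, hK2, hK3⟩ := CMB.exists_K hJ
  have hK1' : (1 : ℝ) ≤ K := by exact_mod_cast hK1
  refine ⟨Real.log (K + 1), Real.log_nonneg (by linarith), fun τ hτ => ?_⟩
  have hexp : 1 ≤ Real.exp (2 * π * τ.im) := by
    apply Real.one_le_exp
    have := Real.pi_pos
    positivity
  have h1 : ‖Jc τ‖ ≤ K + Real.exp (2 * π * τ.im) := by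
    rcases le_total 1 τ.im with h | h
    · have h2 := hK2 τ h
      have h3 := norm_sub_norm_le (Jc τ) (cexp (-(2 * π * Complex.I * τ)))
      rw [CMB.norm_q] at h3
      linarith
    · have := hK3 τ hτ h
      linarith
  have h2 : max 1 ‖Jc τ‖ ≤ (K + 1) * Real.exp (2 * π * τ.im) := by
    apply max_le
    · nlinarith
    · nlinarith
  have h3 : (0 : ℝ) < max 1 ‖Jc τ‖ := lt_of_lt_of_le one_pos (le_max_left _ _)
  calc Real.log (max 1 ‖Jc τ‖) ≤ Real.log ((K + 1) * Real.exp (2 * π * τ.im)) :=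
        Real.log_le_log h3 h2
    _ = Real.log (K + 1) + 2 * π * τ.im := by
        rw [Real.log_mul (by positivity) (Real.exp_pos _).ne', Real.log_exp]

theorem harm (n : ℕ) : ∑ b ∈ Finset.Icc (-(n : ℤ)) n, 1 / max 1 |(b : ℝ)| ≤
    1 + 2 * (harmonic n : ℝ) := by
  induction n with
  | zero => simp
  | succ n ih =>
    have hI : Finset.Icc (-((n + 1 : ℕ) : ℤ)) ((n + 1 : ℕ) : ℤ)
        = insert ((n + 1 : ℕ) : ℤ) (insert (-((n + 1 : ℕ) : ℤ)) (Finset.Icc (-(n : ℤ)) n)) := by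
      ext x
      simp only [Finset.mem_Icc, Finset.mem_insert]
      push_cast
      omega
    rw [hI, Finset.sum_insert, Finset.sum_insert, harmonic_succ]
    · have h1 : max 1 |((((n + 1 : ℕ) : ℤ)) : ℝ)| = n + 1 := by
        rw [abs_of_nonneg (by positivity), max_eq_right]
        · push_cast; rfl
        · push_cast
          have : (0 : ℝ) ≤ n := Nat.cast_nonneg n
          linarith
      have h2 : max 1 |(((-((n + 1 : ℕ) : ℤ) : ℤ)) : ℝ)| = n + 1 := by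
        rw [Int.cast_neg, abs_neg, h1]
      rw [h1, h2]
      push_cast
      rw [one_div]
      linarith
    · simp only [Finset.mem_Icc]
      push_cast
      omega
    · simp only [Finset.mem_Icc, Finset.mem_insert]
      push_cast
      omega

/-- The number to be divided. -/
def mm (N : ℕ) (p : ℕ × ℤ) : ℕ := ((p.2 ^ 2 + 4 * N - p.1) / 4).toNat

/-- The weight. -/
noncomputable def wt (K : ℝ) (H : ℕ) (b : ℤ) : ℝ := K + 3 * π * H * (1 / max 1 |(b : ℝ)|)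

theorem wt_nonneg {K : ℝ} (hK : 0 ≤ K) (H : ℕ) (b : ℤ) : 0 ≤ wt K H b := by
  have := Real.pi_pos
  unfold wt
  positivity

/-- The index set. -/
noncomputable def idx (N H : ℕ) : Finset (Σ _ : ℕ × ℤ, ℕ) :=
  ((Finset.range 10) ×ˢ (Finset.Icc (-((2 * H : ℕ) : ℤ)) ((2 * H : ℕ) : ℤ))).sigma
    (fun p => (mm N p).divisors)

theorem root_idx (hJ : SpecJ) (hPsi : SpecPsi) (hInj : SpecInjFull) {K : ℝ}
    (hK : ∀ τ : ℂ, 1 / 2 ≤ τ.im → Real.log (max 1 ‖Jc τ‖) ≤ K + 2 * π * τ.im)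
    {H : ℕ} (hH : 2 ≤ H) {κ : ℂ} (hκ : 0 < κ.im)
    {a b c : ℤ} (hp : Prim κ a b c) (hΔ : 4 * a * c - b ^ 2 ≤ 4 * (H : ℤ) ^ 2) :
    IsIntegral ℤ (Jc κ) ∧ ∃ N0 : ℕ, 4 * N0 ≤ 4 * H ^ 2 + 9 ∧
      ∃ f : ℂ → Σ _ : ℕ × ℤ, ℕ,
        (∀ r ∈ ((minpoly ℤ (Jc κ)).aroots ℂ).toFinset, f r ∈ idx N0 H ∧
          Real.log (max 1 ‖r‖) ≤ wt K H (f r).1.2) ∧
        Set.InjOn f ((minpoly ℤ (Jc κ)).aroots ℂ).toFinset := by
  classical
  obtain ⟨hint, N0, hN0, hdata⟩ := conj_data hJ hPsi hInj hκ hp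
  refine ⟨hint, N0, by
    have : 4 * (N0 : ℤ) ≤ 4 * (H : ℤ) ^ 2 + 9 := by linarith
    exact_mod_cast this, ?_⟩
  have hroots : ∀ r ∈ ((minpoly ℤ (Jc κ)).aroots ℂ).toFinset, aeval r (minpoly ℤ (Jc κ)) = 0 := by
    intro r hr
    rw [Multiset.mem_toFinset, Polynomial.mem_aroots] at hr
    exact hr.2
  choose! k a' b' c' τ hk hτ0 hτ1 hτ2 hJτ ha' hform hdisc using hdata
  refine ⟨fun r => ⟨(k r, b' r), (a' r).toNat⟩, ?_, ?_⟩
  · intro r hr
    have hr' := hroots r hr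
    have h1 := hk r hr'
    have h2 := hτ0 r hr'
    have h3 := hτ1 r hr'
    have h4 := hτ2 r hr'
    have h5 := hJτ r hr'
    have h6 := ha' r hr'
    have h7 := hform r hr'
    have h8 := hdisc r hr'
    have hH' : (2 : ℤ) ≤ H := by exact_mod_cast hH
    have hHR : (2 : ℝ) ≤ H := by exact_mod_cast hH
    obtain ⟨hb, hc⟩ := coords h2 h7
    have haR : (0 : ℝ) < a' r := by exact_mod_cast h6
    have hba : |b' r| ≤ a' r := by
      have : |(b' r : ℝ)| ≤ a' r := by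
        rw [hb, abs_neg, abs_mul, abs_of_pos (by positivity : (0 : ℝ) < 2 * (a' r))]
        nlinarith
      exact_mod_cast this
    have hac : a' r ≤ c' r := by
      have : (a' r : ℝ) ≤ c' r := by
        rw [hc]
        rw [Complex.normSq_apply] at h3
        nlinarith
      exact_mod_cast this
    have hb2 : (b' r) ^ 2 ≤ (a' r) * (c' r) := by
      have h9 : (b' r) ^ 2 ≤ (a' r) ^ 2 := sq_le_sq' (by linarith [neg_le_of_abs_le hba])
        (le_of_abs_le hba)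
      nlinarith
    have hb4 : (b' r) ^ 2 ≤ (2 * (H : ℤ)) ^ 2 := by
      have h10 : (0 : ℤ) ≤ k r := Int.natCast_nonneg _
      nlinarith
    have hbH : |b' r| ≤ 2 * (H : ℤ) := abs_le_of_sq_le_sq hb4 (by positivity)
    constructor
    · simp only [idx, Finset.mem_sigma, Finset.mem_product, Finset.mem_range, Finset.mem_Icc,
        Nat.mem_divisors]
      refine ⟨⟨h1, ?_⟩, ?_⟩
      · push_cast
        exact ⟨neg_le_of_abs_le hbH, le_of_abs_le hbH⟩
      · have h11 : mm N0 (k r, b' r) = ((a' r) * (c' r)).toNat := by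
          simp only [mm]
          congr 1
          have : (b' r) ^ 2 + 4 * (N0 : ℤ) - (k r : ℤ) = 4 * ((a' r) * (c' r)) := by linarith
          rw [this]
          exact Int.mul_ediv_cancel_left _ (by norm_num)
        rw [h11, Int.toNat_mul h6.le (by linarith)]
        refine ⟨Dvd.intro _ rfl, ?_⟩
        have hc0 : 0 < c' r := by linarith
        have e1 : (a' r).toNat ≠ 0 := by omega
        have e2 : (c' r).toNat ≠ 0 := by omega
        exact Nat.mul_ne_zero e1 e2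
    · show Real.log (max 1 ‖r‖) ≤ wt K H (b' r)
      have him : 1 / 2 ≤ (τ r).im := by
        rw [Complex.normSq_apply] at h3
        have h9 : (τ r).re * (τ r).re ≤ 1 / 4 := by
          have := abs_le.1 h4
          nlinarith
        by_contra hcon
        push Not at hcon
        nlinarith
      have h9 := hK (τ r) him
      rw [h5] at h9
      refine h9.trans ?_
      unfold wt
      have h10 : 2 * (a' r : ℝ) * (τ r).im ≤ 3 * H := by
        have h11 := disc_eq h2 h7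
        have h12 : ((4 * a' r * c' r - b' r ^ 2 : ℤ) : ℝ) ≤ (3 * (H : ℝ)) ^ 2 := by
          have : (4 * a' r * c' r - b' r ^ 2 : ℤ) ≤ (3 * (H : ℤ)) ^ 2 := by
            have h10 : (0 : ℤ) ≤ k r := Int.natCast_nonneg _
            nlinarith
          exact_mod_cast this
        rw [h11] at h12
        exact (sq_le_sq₀ (by positivity) (by positivity)).1 h12
      have hmax : max 1 |(b' r : ℝ)| ≤ a' r := by
        apply max_le
        · exact_mod_cast h6
        · exact_mod_cast hba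
      have hmax0 : (0 : ℝ) < max 1 |(b' r : ℝ)| := lt_of_lt_of_le one_pos (le_max_left _ _)
      have h13 : 2 * π * (τ r).im ≤ 3 * π * H * (1 / max 1 |(b' r : ℝ)|) := by
        rw [mul_one_div, le_div_iff₀ hmax0]
        have hpi := Real.pi_pos
        have h14 : (τ r).im * max 1 |(b' r : ℝ)| ≤ (τ r).im * a' r :=
          mul_le_mul_of_nonneg_left hmax h2.le
        nlinarith
      linarith
  · intro r hr s hs hrs
    have hr' := hroots r hr
    have hs' := hroots s hs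
    simp only [Sigma.mk.injEq, Prod.mk.injEq, heq_eq_eq] at hrs
    obtain ⟨⟨e1, e2⟩, e3⟩ := hrs
    have e4 : a' r = a' s := by
      have h1 := ha' r hr'
      have h2 := ha' s hs'
      omega
    have e5 : c' r = c' s := by
      have h1 := hdisc r hr'
      have h2 := hdisc s hs'
      rw [e1, e2, e4] at h1
      have h3 := ha' s hs'
      have h4 : 4 * a' s * (c' r - c' s) = 0 := by linarith
      rcases mul_eq_zero.1 h4 with h5 | h5
      · exfalso; omega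
      · omega
    have e6 : τ r = τ s := by
      have h1 := hform r hr'
      rw [e2, e4, e5] at h1
      exact eq_of_form (hτ0 r hr') (hτ0 s hs') (ha' s hs') h1 (hform s hs')
    rw [← hJτ r hr', ← hJτ s hs', e6]

end CLS

open CLS in
/-- CLASS: degrees and Mahler measures of singular moduli. -/
theorem specClass (hJ : SpecJ) (hPsi : SpecPsi) (hInj : SpecInjFull) (hDiv : SpecDiv) :
    SpecClass := by
  classical
  intro ε hε
  obtain ⟨K, hK0, hK⟩ := log_bound hJ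
  obtain ⟨δ, hδ, hδε⟩ : ∃ δ : ℝ, 0 < δ ∧ ε = 3 * δ := ⟨ε / 3, by positivity, by ring⟩
  obtain ⟨Cd, hCd⟩ := hDiv δ hδ
  have hCd1 : 1 ≤ Cd := by
    have := hCd 1 one_pos
    simpa using this
  have hpi := Real.pi_pos
  set A : ℝ := 5 * K + 9 * π + 6 * π * (2 ^ δ / δ) with hA
  have hA0 : 0 ≤ A := by positivity
  refine ⟨50 * Cd * 3 ^ δ * (1 + A), fun H hH κ hκ hq => ?_⟩
  have hHR : (2 : ℝ) ≤ H := by exact_mod_cast hH
  have hH0 : (0 : ℝ) < H := by linarith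
  obtain ⟨x, y, z, hne, hx, hy, hz, hrel⟩ := hq
  obtain ⟨a, b, c, hp⟩ := exists_prim hκ hne hrel
  have hΔ : 4 * a * c - b ^ 2 ≤ 4 * (H : ℤ) ^ 2 := by
    obtain ⟨u, h1, h2, h3⟩ := hp.2.2 x y z hrel
    have hu : u ≠ 0 := by
      rintro rfl
      simp only [zero_mul] at h1 h2 h3
      rcases hne with h | h | h
      · exact h h1
      · exact h h2
      · exact h h3
    have hu2 : 1 ≤ u ^ 2 := by
      have : 0 < u ^ 2 := by positivity
      omega
    have hD := (CMB.disc_pos hκ (Or.inl hp.1.ne') hp.2.1).2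
    have h4 : 4 * x * z - y ^ 2 = u ^ 2 * (4 * a * c - b ^ 2) := by rw [h1, h2, h3]; ring
    have h5 : x * z ≤ H * H := by
      calc x * z ≤ |x * z| := le_abs_self _
        _ = |x| * |z| := abs_mul _ _
        _ ≤ H * H := mul_le_mul hx hz (abs_nonneg _) (by positivity)
    nlinarith [sq_nonneg y]
  obtain ⟨hint, N0, hN0, f, hf, hinj⟩ := root_idx hJ hPsi hInj hK hH hκ hp hΔ
  set X : ℝ := (H : ℝ) ^ δ with hX
  have hX1 : 1 ≤ X := Real.one_le_rpow (by linarith) hδ.le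
  have hpow : (H : ℝ) ^ (1 + ε) = H * X ^ 3 := by
    rw [Real.rpow_add hH0, Real.rpow_one, hδε, hX]
    congr 1
    rw [mul_comm, Real.rpow_mul hH0.le]
    norm_cast
  set D : ℝ := Cd * (3 ^ δ * X ^ 2) with hD
  have hD0 : 0 ≤ D := by positivity
  have hdiv : ∀ p ∈ (Finset.range 10) ×ˢ (Finset.Icc (-((2 * H : ℕ) : ℤ)) ((2 * H : ℕ) : ℤ)),
      ((mm N0 p).divisors.card : ℝ) ≤ D := by
    intro p hp'
    rw [Finset.mem_product, Finset.mem_range, Finset.mem_Icc] at hp'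
    rcases Nat.eq_zero_or_pos (mm N0 p) with h0 | h0
    · rw [h0]
      simpa using hD0
    · refine (hCd _ h0).trans ?_
      rw [hD]
      apply mul_le_mul_of_nonneg_left _ (by linarith)
      have h1 : ((mm N0 p : ℕ) : ℝ) ≤ 3 * (H : ℝ) ^ 2 := by
        have h2 : ((mm N0 p : ℕ) : ℤ) ≤ 3 * (H : ℤ) ^ 2 := by
          unfold mm
          have h3 : p.2 ^ 2 ≤ (2 * (H : ℤ)) ^ 2 := by
            have := hp'.2
            push_cast at this
            exact sq_le_sq' this.1 this.2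
          have h4 : 4 * (N0 : ℤ) ≤ 4 * (H : ℤ) ^ 2 + 9 := by exact_mod_cast hN0
          have h5 : (2 : ℤ) ≤ H := by exact_mod_cast hH
          have h6 : (0 : ℤ) ≤ p.1 := Int.natCast_nonneg _
          have h7 : p.2 ^ 2 + 4 * (N0 : ℤ) - p.1 ≤ 4 * (3 * (H : ℤ) ^ 2) := by nlinarith
          have h8 : (p.2 ^ 2 + 4 * (N0 : ℤ) - p.1) / 4 ≤ 3 * (H : ℤ) ^ 2 := by omega
          have h9 : (0 : ℤ) ≤ 3 * (H : ℤ) ^ 2 := by positivity
          omega
        exact_mod_cast h2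
      calc ((mm N0 p : ℕ) : ℝ) ^ δ ≤ (3 * (H : ℝ) ^ 2) ^ δ :=
            Real.rpow_le_rpow (by positivity) h1 hδ.le
        _ = 3 ^ δ * X ^ 2 := by
            rw [Real.mul_rpow (by norm_num) (by positivity), hX]
            congr 1
            rw [← Real.rpow_natCast, ← Real.rpow_natCast, ← Real.rpow_mul hH0.le,
              ← Real.rpow_mul hH0.le, mul_comm]
  have h50 : (0 : ℝ) ≤ 50 * Cd * 3 ^ δ := by positivity
  refine ⟨minpoly ℤ (Jc κ), minpoly.monic hint, minpoly.aeval _ _, ?_, ?_⟩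
  · -- degree
    have h1 : (minpoly ℤ (Jc κ)).natDegree ≤ (idx N0 H).card := by
      rw [card_roots hint]
      exact Finset.card_le_card_of_injOn f (fun r hr => (hf r hr).1) hinj
    have h2 : ((idx N0 H).card : ℝ) ≤ 10 * (4 * H + 1) * D := by
      unfold idx
      rw [Finset.card_sigma]
      push_cast
      refine (Finset.sum_le_sum hdiv).trans ?_
      rw [Finset.sum_const, nsmul_eq_mul, Finset.card_product, Finset.card_range, Int.card_Icc]
      have h3 : (((2 * H : ℕ) : ℤ) + 1 - -((2 * H : ℕ) : ℤ)).toNat = 4 * H + 1 := by omega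
      rw [h3]
      push_cast
      exact le_rfl
    have h3 : ((minpoly ℤ (Jc κ)).natDegree : ℝ) ≤ (idx N0 H).card := by exact_mod_cast h1
    refine h3.trans (h2.trans ?_)
    rw [hpow, hD]
    have h4 : (4 * (H : ℝ) + 1) ≤ 5 * H := by linarith
    have h5 : X ^ 2 ≤ X ^ 3 := pow_le_pow_right₀ hX1 (by norm_num)
    calc 10 * (4 * (H : ℝ) + 1) * (Cd * (3 ^ δ * X ^ 2))
        ≤ 10 * (5 * H) * (Cd * (3 ^ δ * X ^ 3)) := by gcongr
      _ = 50 * Cd * 3 ^ δ * 1 * (H * X ^ 3) := by ring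
      _ ≤ 50 * Cd * 3 ^ δ * (1 + A) * (H * X ^ 3) := by gcongr; linarith
  · -- Mahler measure
    have h1 : ∀ r ∈ ((minpoly ℤ (Jc κ)).aroots ℂ).toFinset,
        max 1 ‖r‖ = Real.exp (Real.log (max 1 ‖r‖)) := by
      intro r _
      rw [Real.exp_log (lt_of_lt_of_le one_pos (le_max_left _ _))]
    rw [Finset.prod_congr rfl h1, ← Real.exp_sum]
    apply Real.exp_le_exp.2
    have h2 : ∑ r ∈ ((minpoly ℤ (Jc κ)).aroots ℂ).toFinset, Real.log (max 1 ‖r‖)
        ≤ ∑ i ∈ idx N0 H, wt K H i.1.2 := by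
      calc ∑ r ∈ ((minpoly ℤ (Jc κ)).aroots ℂ).toFinset, Real.log (max 1 ‖r‖)
          ≤ ∑ r ∈ ((minpoly ℤ (Jc κ)).aroots ℂ).toFinset, wt K H (f r).1.2 :=
            Finset.sum_le_sum fun r hr => (hf r hr).2
        _ = ∑ i ∈ ((minpoly ℤ (Jc κ)).aroots ℂ).toFinset.image f, wt K H i.1.2 := by
            rw [Finset.sum_image hinj]
        _ ≤ ∑ i ∈ idx N0 H, wt K H i.1.2 := by
            apply Finset.sum_le_sum_of_subset_of_nonneg
            · intro i hi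
              obtain ⟨r, hr, rfl⟩ := Finset.mem_image.1 hi
              exact (hf r hr).1
            · intro i _ _
              exact wt_nonneg hK0 H _
    refine h2.trans ?_
    have h3 : ∑ i ∈ idx N0 H, wt K H i.1.2 ≤ 10 * D *
        ∑ b ∈ Finset.Icc (-((2 * H : ℕ) : ℤ)) ((2 * H : ℕ) : ℤ), wt K H b := by
      unfold idx
      rw [Finset.sum_sigma]
      calc ∑ p ∈ (Finset.range 10) ×ˢ (Finset.Icc (-((2 * H : ℕ) : ℤ)) ((2 * H : ℕ) : ℤ)),
            ∑ _s ∈ (mm N0 p).divisors, wt K H p.2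
          ≤ ∑ p ∈ (Finset.range 10) ×ˢ (Finset.Icc (-((2 * H : ℕ) : ℤ)) ((2 * H : ℕ) : ℤ)),
            D * wt K H p.2 := by
            apply Finset.sum_le_sum
            intro p hp'
            rw [Finset.sum_const, nsmul_eq_mul]
            exact mul_le_mul_of_nonneg_right (hdiv p hp') (wt_nonneg hK0 H _)
        _ = 10 * D *
            ∑ b ∈ Finset.Icc (-((2 * H : ℕ) : ℤ)) ((2 * H : ℕ) : ℤ), wt K H b := by
            rw [Finset.sum_product]
            simp only [← Finset.mul_sum, Finset.sum_const, Finset.card_range, nsmul_eq_mul]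
            push_cast
            ring
    refine h3.trans ?_
    have h4 : ∑ b ∈ Finset.Icc (-((2 * H : ℕ) : ℤ)) ((2 * H : ℕ) : ℤ), wt K H b ≤ A * (H * X) := by
      unfold wt
      rw [Finset.sum_add_distrib, ← Finset.mul_sum, Finset.sum_const, Int.card_Icc, nsmul_eq_mul]
      have h5 : (((2 * H : ℕ) : ℤ) + 1 - -((2 * H : ℕ) : ℤ)).toNat = 4 * H + 1 := by omega
      rw [h5]
      have h6 := harm (2 * H)
      have h7 := harmonic_le_one_add_log (2 * H)
      have h8 : Real.log ((2 * H : ℕ) : ℝ) ≤ 2 ^ δ / δ * X := by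
        have := Real.log_le_rpow_div (x := ((2 * H : ℕ) : ℝ)) (by positivity) hδ
        refine this.trans (le_of_eq ?_)
        push_cast
        rw [Real.mul_rpow (by norm_num) hH0.le, hX]
        ring
      have h9 : ∑ b ∈ Finset.Icc (-((2 * H : ℕ) : ℤ)) ((2 * H : ℕ) : ℤ), 1 / max 1 |(b : ℝ)|
          ≤ (3 + 2 * (2 ^ δ / δ)) * X := by
        have h10 : (3 : ℝ) ≤ 3 * X := by linarith
        linarith
      have h10 : ((4 * H + 1 : ℕ) : ℝ) * K ≤ 5 * K * (H * X) := by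
        push_cast
        have h11 : (4 * (H : ℝ) + 1) ≤ 5 * (H * X) := by nlinarith
        nlinarith
      have h12 : 3 * π * (H : ℝ) * ∑ b ∈ Finset.Icc (-((2 * H : ℕ) : ℤ)) ((2 * H : ℕ) : ℤ),
          1 / max 1 |(b : ℝ)| ≤ 3 * π * H * ((3 + 2 * (2 ^ δ / δ)) * X) :=
        mul_le_mul_of_nonneg_left h9 (by positivity)
      have h13 : 5 * K * (H * X) + 3 * π * H * ((3 + 2 * (2 ^ δ / δ)) * X) = A * (H * X) := by
        rw [hA]; ring
      linarith
    calc 10 * D * ∑ b ∈ Finset.Icc (-((2 * H : ℕ) : ℤ)) ((2 * H : ℕ) : ℤ), wt K H b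
        ≤ 10 * D * (A * (H * X)) := mul_le_mul_of_nonneg_left h4 (by positivity)
      _ = 10 * Cd * 3 ^ δ * A * (H * X ^ 3) := by rw [hD]; ring
      _ ≤ 50 * Cd * 3 ^ δ * (1 + A) * (H * X ^ 3) := by
          have h6 : 0 ≤ Cd * 3 ^ δ := by positivity
          have h7 : 10 * Cd * 3 ^ δ * A ≤ 50 * Cd * 3 ^ δ * (1 + A) := by nlinarith
          exact mul_le_mul_of_nonneg_right h7 (by positivity)
      _ = 50 * Cd * 3 ^ δ * (1 + A) * (H : ℝ) ^ (1 + ε) := by rw [hpow]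

end Pool.Agent.Lib.MP_47914d_nt
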