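import Pool.Agent.Lib.MP_47914d_nt.Defs

/-!
Definitions and module specifications for the functional transcendence theorem (Ax-Lindemann for
curves, for the Klein invariant) used in the partial result on MP_47914d_nt.
-/

set_option autoImplicit false

open UpperHalfPlane hiding I
open ModularForm Complex Polynomial Filter Topology
open scoped Real MatrixGroups

namespace Pool.Agent.Lib.MP_47914d_nt

/-! ### Analytic functions -/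

/-- Scaled Eisenstein series of weight two, extended by `0`. -/
noncomputable def Pc (w : ℂ) : ℂ :=
  if h : 0 < w.im then (π * I / 6) * EisensteinSeries.E2 ⟨w, h⟩ else 0

/-- Scaled Eisenstein series of weight four, extended by `0`. -/
noncomputable def Qc (w : ℂ) : ℂ := if h : 0 < w.im then (π * I / 6) ^ 2 * E₄ ⟨w, h⟩ else 0

/-- Scaled Eisenstein series of weight six, extended by `0`. -/
noncomputable def Rc (w : ℂ) : ℂ := if h : 0 < w.im then (π * I / 6) ^ 3 * E₆ ⟨w, h⟩ else 0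

/-- RAM: Ramanujan's equations, the discriminant, the transformation laws. -/
structure SpecRam : Prop where
  derivP : ∀ w : ℂ, 0 < w.im → HasDerivAt Pc (Pc w ^ 2 - Qc w) w
  derivQ : ∀ w : ℂ, 0 < w.im → HasDerivAt Qc (4 * (Pc w * Qc w - Rc w)) w
  derivR : ∀ w : ℂ, 0 < w.im → HasDerivAt Rc (6 * (Pc w * Rc w - Qc w ^ 2)) w
  disc : ∀ w : ℂ, 0 < w.im → Qc w ^ 3 - Rc w ^ 2 ≠ 0
  jinv : ∀ w : ℂ, 0 < w.im → Jc w * (Qc w ^ 3 - Rc w ^ 2) = 1728 * Qc w ^ 3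
  smulP : ∀ (a b c d : ℤ) (w : ℂ), a * d - b * c = 1 → 0 < w.im →
    Pc ((a * w + b) / (c * w + d)) = (c * w + d) ^ 2 * Pc w + c * (c * w + d)
  smulQ : ∀ (a b c d : ℤ) (w : ℂ), a * d - b * c = 1 → 0 < w.im →
    Qc ((a * w + b) / (c * w + d)) = (c * w + d) ^ 4 * Qc w
  smulR : ∀ (a b c d : ℤ) (w : ℂ), a * d - b * c = 1 → 0 < w.im →
    Rc ((a * w + b) / (c * w + d)) = (c * w + d) ^ 6 * Rc w

/-- MAHLER: `z, Pc z, Qc z, Rc z` are algebraically independent over `ℂ` (on any open set). -/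
def SpecMahler : Prop :=
  ∀ a : ℂ, 0 < a.im → ∀ P : MvPolynomial (Fin 4) ℂ, P ≠ 0 →
    ¬ ∀ᶠ w in 𝓝 a, MvPolynomial.eval ![w, Pc w, Qc w, Rc w] P = 0

/-- INJ: a real Möbius transformation preserving `Jc` is integral. -/
def SpecInj : Prop :=
  ∀ a b c d : ℝ, a * d - b * c = 1 →
    (∀ w : ℂ, 0 < w.im → Jc ((a * w + b) / (c * w + d)) = Jc w) →
    ∃ a' b' c' d' : ℤ, a = a' ∧ b = b' ∧ c = c' ∧ d = d'

/-! ### Flows -/

/-- The denominator of the flow of the nilpotent vector field `v 0 + v 1 Z + v 2 Z ^ 2`. -/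
noncomputable def den (v : Fin 3 → ℂ) (s z : ℂ) : ℂ := 1 - s * v 1 / 2 - s * v 2 * z

/-- The flow of the nilpotent vector field `v 0 + v 1 Z + v 2 Z ^ 2`. -/
noncomputable def mob (v : Fin 3 → ℂ) (s z : ℂ) : ℂ :=
  ((1 + s * v 1 / 2) * z + s * v 0) / den v s z

noncomputable def Pfl (v : Fin 3 → ℂ) (s z : ℂ) : ℂ :=
  Pc (mob v s z) / den v s z ^ 2 + s * v 2 / den v s z

noncomputable def Qfl (v : Fin 3 → ℂ) (s z : ℂ) : ℂ := Qc (mob v s z) / den v s z ^ 4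

noncomputable def Rfl (v : Fin 3 → ℂ) (s z : ℂ) : ℂ := Rc (mob v s z) / den v s z ^ 6

/-- Nilpotency of the vector field `v 0 + v 1 Z + v 2 Z ^ 2`. -/
def Nilp (v : Fin 3 → ℂ) : Prop := v 1 ^ 2 = 4 * v 0 * v 2

/-! ### Algebra -/

section Algebra

variable {F : Type} [Field F]

/-- The Lie bracket `ξ η' - η ξ'` of quadratic vector fields. -/
def br (u v : Fin 3 → F) : Fin 3 → F :=
  ![u 0 * v 1 - u 1 * v 0, 2 * (u 0 * v 2 - u 2 * v 0), u 1 * v 2 - u 2 * v 1]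

/-- The value `w 0 + w 1 z + w 2 z ^ 2`. -/
def om0 (w : Fin 3 → F) (z : F) : F := w 0 + w 1 * z + w 2 * z ^ 2

/-- The derivative `w 1 + 2 w 2 z`. -/
def om1 (w : Fin 3 → F) (z : F) : F := w 1 + 2 * w 2 * z

variable [Algebra ℂ F]

/-- The derivation `δ` moves the solution `(z, p, q, r)` of Ramanujan's equations by
`δ z` times the total derivative plus the infinitesimal Möbius transformation with coefficients
`w`. -/
structure IsW (δ : Derivation ℂ F F) (z p q r : F) (w : Fin 3 → F) : Prop where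
  hp : δ p = (p ^ 2 - q) * (δ z + om0 w z) + om1 w z * p + w 2
  hq : δ q = 4 * (p * q - r) * (δ z + om0 w z) + 2 * om1 w z * q
  hr : δ r = 6 * (p * r - q ^ 2) * (δ z + om0 w z) + 3 * om1 w z * r

/-- Algebraic linkage of two solutions through the automorphism `φ`. -/
structure LinkedAlg (φ : (Fin 3 → ℂ) ≃ₗ[ℂ] (Fin 3 → ℂ)) (z p q r y z' p' q' r' y' : F) :
    Prop where
  br : ∀ u v, φ (br u v) = br (φ u) (φ v)
  der : ∀ v : Fin 3 → ℂ, ∃ δ : Derivation ℂ F F, δ z = 0 ∧ δ z' = 0 ∧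
    IsW δ z p q r (fun k => algebraMap ℂ F (v k)) ∧
    IsW δ z' p' q' r' (fun k => algebraMap ℂ F (φ v k))
  dep : ¬ AlgebraicIndependent ℂ ![z, p, q, r, y']
  dep' : ¬ AlgebraicIndependent ℂ ![z', p', q', r', y]

end Algebra

/-- EXT: derivations with prescribed values on an algebraically independent family. -/
def SpecExt : Prop :=
  ∀ (F : Type) [Field F] [Algebra ℂ F] (ι : Type) [Finite ι] (x : ι → F),
    AlgebraicIndependent ℂ x → ∀ c : ι → F, ∃ δ : Derivation ℂ F F, ∀ i, δ (x i) = c i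

/-- DER0: a derivation killing `t` kills everything algebraic over `ℂ(t)`. -/
def SpecDer0 : Prop :=
  ∀ (F : Type) [Field F] [Algebra ℂ F] (t x : F), AlgebraicIndependent ℂ ![t] →
    ¬ AlgebraicIndependent ℂ ![t, x] → ∀ δ : Derivation ℂ F F, δ t = 0 → δ x = 0

/-- DERAI: a criterion for algebraic independence by values of derivations. -/
def SpecDerAI : Prop :=
  ∀ (F : Type) [Field F] [Algebra ℂ F] (ι : Type) [Finite ι] (t : F) (y : ι → F),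
    AlgebraicIndependent ℂ ![t] →
    (∀ c : ι → F, ∃ δ : Derivation ℂ F F, δ t = 0 ∧ ∀ i, δ (y i) = c i) →
    AlgebraicIndependent ℂ (fun o : Option ι => o.elim t y)

/-- STAB: subspaces stable under a derivation are spanned by constant vectors. -/
def SpecStab : Prop :=
  ∀ (F : Type) [Field F] [Algebra ℂ F] (D : Derivation ℂ F F)
    (_ : ∀ f, D f = 0 → ∃ c : ℂ, f = algebraMap ℂ F c) (ι : Type) [Finite ι]
    (U : Submodule F (ι → F)), (∀ u ∈ U, (fun i => D (u i)) ∈ U) →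
    U = Submodule.span F {u | u ∈ U ∧ ∃ c : ι → ℂ, u = fun i => algebraMap ℂ F (c i)}

/-- GOUR: Goursat's lemma for products of `sl₂`. -/
def SpecGour : Prop :=
  ∀ (ι : Type) [Finite ι] (𝔥 : Submodule ℂ (ι → Fin 3 → ℂ)),
    (∀ u ∈ 𝔥, ∀ v ∈ 𝔥, (fun i => br (u i) (v i)) ∈ 𝔥) →
    (∀ i v, ∃ u ∈ 𝔥, u i = v) →
    𝔥 = ⊤ ∨ ∃ i k, i ≠ k ∧ ∃ φ : (Fin 3 → ℂ) ≃ₗ[ℂ] (Fin 3 → ℂ),
      (∀ u v, φ (br u v) = br (φ u) (φ v)) ∧ ∀ u ∈ 𝔥, u k = φ (u i)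

/-- AUT: automorphisms of `sl₂(ℂ)` are inner. -/
def SpecAut : Prop :=
  ∀ φ : (Fin 3 → ℂ) ≃ₗ[ℂ] (Fin 3 → ℂ), (∀ u v, φ (br u v) = br (φ u) (φ v)) →
    ∃ α β γ δ : ℂ, α * δ - β * γ = 1 ∧
      φ ![1, 0, 0] = ![α ^ 2, -2 * α * γ, γ ^ 2] ∧
      φ ![0, 1, 0] = ![-(α * β), α * δ + β * γ, -(γ * δ)] ∧
      φ ![0, 0, 1] = ![β ^ 2, -2 * β * δ, δ ^ 2]

/-- ALG: the algebraic heart of the functional transcendence theorem. -/
def SpecAlg : Prop :=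
  ∀ (F : Type) [Field F] [Algebra ℂ F] (D : Derivation ℂ F F) (t : F) (n : ℕ)
    (z p q r y : Fin n → F),
    (∀ f, D f = 0 → ∃ c : ℂ, f = algebraMap ℂ F c) → D t = 1 →
    (∀ i, IsW D (z i) (p i) (q i) (r i) 0) →
    (∀ i, y i * (q i ^ 3 - r i ^ 2) = 1728 * q i ^ 3) →
    (∀ i, AlgebraicIndependent ℂ ![z i, p i, q i, r i]) →
    (∀ i, ¬ AlgebraicIndependent ℂ ![t, z i]) →
    AlgebraicIndependent ℂ (fun o : Option (Fin n) => o.elim t y) ∨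
      ∃ i k, i ≠ k ∧ ∃ φ : (Fin 3 → ℂ) ≃ₗ[ℂ] (Fin 3 → ℂ),
        LinkedAlg φ (z i) (p i) (q i) (r i) (y i) (z k) (p k) (q k) (r k) (y k)

/-! ### Germs -/

/-- A differential field containing the ring of germs of analytic functions at `θ`. -/
structure GermField (θ : ℂ) (F : Type) [Field F] [Algebra ℂ F] where
  D : Derivation ℂ F F
  T : (ℂ → ℂ) → F
  T_const : ∀ c : ℂ, T (fun _ => c) = algebraMap ℂ F c
  T_add : ∀ f g : ℂ → ℂ, AnalyticAt ℂ f θ → AnalyticAt ℂ g θ →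
    T (fun x => f x + g x) = T f + T g
  T_mul : ∀ f g : ℂ → ℂ, AnalyticAt ℂ f θ → AnalyticAt ℂ g θ →
    T (fun x => f x * g x) = T f * T g
  T_deriv : ∀ f : ℂ → ℂ, AnalyticAt ℂ f θ → T (deriv f) = D (T f)
  T_eq : ∀ f g : ℂ → ℂ, AnalyticAt ℂ f θ → AnalyticAt ℂ g θ →
    (T f = T g ↔ ∀ᶠ x in 𝓝 θ, f x = g x)
  D_ker : ∀ f, D f = 0 → ∃ c : ℂ, f = algebraMap ℂ F c

/-- FIELD: such a field exists. -/
def SpecField : Prop :=
  ∀ θ : ℂ, ∃ (F : Type) (_ : Field F) (_ : Algebra ℂ F), Nonempty (GermField θ F)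

/-- Linkage of two analytic germs, through flows. -/
structure Linked (φ : (Fin 3 → ℂ) ≃ₗ[ℂ] (Fin 3 → ℂ)) (θ : ℂ) (z1 z2 : ℂ → ℂ) : Prop where
  br : ∀ u v, φ (br u v) = br (φ u) (φ v)
  rel : ∃ P : MvPolynomial (Fin 5) ℂ, P ≠ 0 ∧ ∀ᶠ t in 𝓝 θ, ∀ v, Nilp v → ∀ᶠ s in 𝓝 (0 : ℂ),
    MvPolynomial.eval ![z1 t, Pfl v s (z1 t), Qfl v s (z1 t), Rfl v s (z1 t),
      Jc (mob (φ v) s (z2 t))] P = 0
  rel' : ∃ P : MvPolynomial (Fin 5) ℂ, P ≠ 0 ∧ ∀ᶠ t in 𝓝 θ, ∀ v, Nilp v → ∀ᶠ s in 𝓝 (0 : ℂ),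
    MvPolynomial.eval ![z2 t, Pfl v s (z2 t), Qfl v s (z2 t), Rfl v s (z2 t),
      Jc (mob (φ.symm v) s (z1 t))] P = 0

/-- PERSIST: algebraic linkage persists along flows. -/
def SpecPersist : Prop :=
  ∀ (θ : ℂ) (F : Type) [Field F] [Algebra ℂ F] (G : GermField θ F) (z1 z2 : ℂ → ℂ)
    (φ : (Fin 3 → ℂ) ≃ₗ[ℂ] (Fin 3 → ℂ)),
    AnalyticAt ℂ z1 θ → AnalyticAt ℂ z2 θ → 0 < (z1 θ).im → 0 < (z2 θ).im →
    LinkedAlg φ (G.T z1) (G.T fun x => Pc (z1 x)) (G.T fun x => Qc (z1 x))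
      (G.T fun x => Rc (z1 x)) (G.T fun x => Jc (z1 x))
      (G.T z2) (G.T fun x => Pc (z2 x)) (G.T fun x => Qc (z2 x))
      (G.T fun x => Rc (z2 x)) (G.T fun x => Jc (z2 x)) →
    Linked φ θ z1 z2

/-- Linkage of `Jc` at `a` with `Jc ∘ g` for the Möbius transformation `g` with coefficients
`α β γ δ`. -/
def LinkedM (α β γ δ a : ℂ) : Prop :=
  ∃ P : MvPolynomial (Fin 5) ℂ, P ≠ 0 ∧ ∀ v : Fin 3 → ℂ, v = ![1, 0, 0] ∨ v = ![0, 0, 1] →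
    ∀ᶠ z in 𝓝 a, ∀ᶠ s in 𝓝 (0 : ℂ),
      MvPolynomial.eval ![z, Pfl v s z, Qfl v s z, Rfl v s z,
        Jc ((α * mob v s z + β) / (γ * mob v s z + δ))] P = 0

/-- LINKA: linked germs differ by a constant Möbius transformation. -/
def SpecLinkA : Prop :=
  ∀ (φ : (Fin 3 → ℂ) ≃ₗ[ℂ] (Fin 3 → ℂ)) (θ : ℂ) (z1 z2 : ℂ → ℂ),
    AnalyticAt ℂ z1 θ → AnalyticAt ℂ z2 θ → 0 < (z1 θ).im → 0 < (z2 θ).im →
    (¬ ∀ᶠ t in 𝓝 θ, z1 t = z1 θ) → (¬ ∀ᶠ t in 𝓝 θ, z2 t = z2 θ) → Linked φ θ z1 z2 →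
    ∃ α β γ δ : ℂ, α * δ - β * γ = 1 ∧ (∀ᶠ t in 𝓝 θ, (γ * z1 t + δ) * z2 t = α * z1 t + β) ∧
      LinkedM α β γ δ (z1 θ) ∧ LinkedM δ (-β) (-γ) α (z2 θ)

/-- LINKB: the Möbius transformation is real. -/
def SpecLinkB : Prop :=
  ∀ α β γ δ a : ℂ, α * δ - β * γ = 1 → 0 < a.im → 0 < ((α * a + β) / (γ * a + δ)).im →
    LinkedM α β γ δ a → LinkedM δ (-β) (-γ) α ((α * a + β) / (γ * a + δ)) →
    ∃ a' b' c' d' : ℝ, α = a' ∧ β = b' ∧ γ = c' ∧ δ = d'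

/-- LINKC: the Möbius transformation is rational up to a scalar. -/
def SpecLinkC : Prop :=
  ∀ (a b c d : ℝ) (w : ℂ), a * d - b * c = 1 → 0 < w.im → LinkedM a b c d w →
    ∃ (m : ℝ) (a' b' c' d' : ℚ), m ≠ 0 ∧ a = m * a' ∧ b = m * b' ∧ c = m * c' ∧ d = m * d'

/-- ALW: Ax-Lindemann for curves. -/
def SpecALW : Prop :=
  ∀ (n : ℕ) (ζ : Fin n → ℂ → ℂ) (θ : ℂ),
    (∀ i, AnalyticAt ℂ (ζ i) θ) → (∀ i, 0 < (ζ i θ).im) →
    (∀ i, ¬ ∀ᶠ t in 𝓝 θ, ζ i t = ζ i θ) →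
    (∀ i, ∃ P : MvPolynomial (Fin 2) ℂ, P ≠ 0 ∧
      ∀ᶠ t in 𝓝 θ, MvPolynomial.eval ![t, ζ i t] P = 0) →
    (∀ i k, i ≠ k → ¬ ∃ a b c d : ℚ, a * d - b * c ≠ 0 ∧
      ∀ᶠ t in 𝓝 θ, ζ k t * ((c : ℂ) * ζ i t + (d : ℂ)) = (a : ℂ) * ζ i t + (b : ℂ)) →
    ∀ P : MvPolynomial (Option (Fin n)) ℂ, P ≠ 0 →
      ¬ ∀ᶠ t in 𝓝 θ,
        MvPolynomial.eval (fun o : Option (Fin n) => o.elim t (fun i => Jc (ζ i t))) P = 0

/-! ### Curves -/

/-- IMPL: the analytic implicit function theorem for plane algebraic curves. -/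
def SpecImpl : Prop :=
  ∀ (P : MvPolynomial (Fin 2) ℂ) (a b : ℂ), MvPolynomial.eval ![a, b] P = 0 →
    MvPolynomial.eval ![a, b] (MvPolynomial.pderiv 1 P) ≠ 0 →
    ∃ ζ : ℂ → ℂ, AnalyticAt ℂ ζ a ∧ ζ a = b ∧
      (∀ᶠ x in 𝓝 a, MvPolynomial.eval ![x, ζ x] P = 0) ∧
      ∀ᶠ x in 𝓝 (a, b), MvPolynomial.eval ![x.1, x.2] P = 0 → x.2 = ζ x.1

/-- SEP: a separable integral relation. -/
def SpecSep : Prop :=
  ∀ a b : ℂ, Transcendental ℚ a → ¬ AlgebraicIndependent ℚ ![a, b] →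
    ∃ P : MvPolynomial (Fin 2) ℤ, MvPolynomial.aeval ![a, b] P = 0 ∧
      MvPolynomial.aeval ![a, b] (MvPolynomial.pderiv 1 P) ≠ 0

end Pool.Agent.Lib.MP_47914d_nt
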