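import Pool.Agent.Lib.MP_47914d_nt.Defs2

/-!
Module specifications for the quantitative refinement of the arithmetic part (integrality of
singular moduli, conjugates of singular moduli, sharp Liouville inequality) for MP_47914d_nt.
-/

set_option autoImplicit false

open UpperHalfPlane hiding I
open ModularForm Complex Polynomial Filter Topology
open scoped Real MatrixGroups

namespace Pool.Agent.Lib.MP_47914d_nt

/-- INTSYM: numbers all of whose power sums are in a noetherian ring are integral. -/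
def SpecIntSym : Prop :=
  ∀ (R L : Type) [CommRing R] [IsNoetherianRing R] [Field L] [CharZero L] [Algebra R L]
    (ι : Type) [Fintype ι] (x : ι → L),
    (∀ m : ℕ, 1 ≤ m → ∃ r : R, algebraMap R L r = ∑ i, x i ^ m) → ∀ i, IsIntegral R (x i)

/-- PSI: the modular polynomial on the diagonal is monic with integral coefficients. -/
def SpecPsi : Prop :=
  ∀ N : ℕ, 0 < N → ¬ IsSquare N → ∃ Ψ : ℤ[X], Ψ.Monic ∧ ∀ z : ℂ, 0 < z.im →
    (aeval (Jc z) Ψ = 0 ↔ ∃ p ∈ N.divisorsAntidiagonal, ∃ b ∈ Finset.range p.2,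
      Jc z = Jc (((p.1 : ℂ) * z + (b : ℂ)) / (p.2 : ℂ)))

/-- INJF: injectivity of `Jc` modulo `SL₂(ℤ)`. -/
def SpecInjFull : Prop :=
  ∀ z w : ℂ, 0 < z.im → 0 < w.im → Jc z = Jc w →
    ∃ a b c d : ℤ, a * d - b * c = 1 ∧ ((c : ℂ) * z + d) * w = a * z + b

/-- DIV: the divisor bound. -/
def SpecDiv : Prop :=
  ∀ ε : ℝ, 0 < ε → ∃ C : ℝ, ∀ m : ℕ, 0 < m → (m.divisors.card : ℝ) ≤ C * (m : ℝ) ^ ε

/-- CLASS: singular moduli are algebraic integers of degree and logarithmic Mahler measure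
`O(H ^ (1 + ε))`. -/
def SpecClass : Prop :=
  ∀ ε : ℝ, 0 < ε → ∃ C : ℝ, ∀ H : ℕ, 2 ≤ H → ∀ κ : ℂ, 0 < κ.im → QuadHeight κ H →
    ∃ F : ℤ[X], F.Monic ∧ aeval (Jc κ) F = 0 ∧
      (F.natDegree : ℝ) ≤ C * (H : ℝ) ^ (1 + ε) ∧
      ∏ r ∈ (F.aroots ℂ).toFinset, max 1 ‖r‖ ≤ Real.exp (C * (H : ℝ) ^ (1 + ε))

/-- LIOU3: Liouville inequality in terms of degrees and Mahler measures. -/
def SpecLiou3 : Prop :=
  ∀ (m : ℕ) (P : MvPolynomial (Option (Fin m)) ℤ), ∃ k : ℕ, ∀ (H d : ℕ), 2 ≤ H → 1 ≤ d →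
    ∀ (κ : ℂ) (α : Fin m → ℂ), QuadHeight κ H →
    (∀ i, ∃ F : ℤ[X], F.Monic ∧ aeval (α i) F = 0 ∧ F.natDegree ≤ d ∧
      ∏ r ∈ (F.aroots ℂ).toFinset, max 1 ‖r‖ ≤ Real.exp d) →
    MvPolynomial.aeval (fun o : Option (Fin m) => o.elim κ α) P = 0 ∨
      Real.exp (-(k * (1 + Real.log H) * (d : ℝ) ^ m)) ≤
        ‖MvPolynomial.aeval (fun o : Option (Fin m) => o.elim κ α) P‖

end Pool.Agent.Lib.MP_47914d_nt
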