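import Pool.Agent.Lib.MP_47914d_nt.Defs3

/-!
Module specifications for the Ax-Schanuel theorem (for analytic sets, via ultrapowers) used in the
full version of the partial result on MP_47914d_nt.
-/

set_option autoImplicit false

open UpperHalfPlane hiding I
open ModularForm Complex Polynomial Filter Topology
open scoped Real MatrixGroups

namespace Pool.Agent.Lib.MP_47914d_nt

/-! ### Holomorphic functions of several variables -/

/-- Complex differentiability near a point. -/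
def Holo {E : Type} [NormedAddCommGroup E] [NormedSpace ℂ E] (f : E → ℂ) (z : E) : Prop :=
  ∀ᶠ x in 𝓝 z, DifferentiableAt ℂ f x

/-- PARAM: circle integrals depending on a parameter are holomorphic. -/
def SpecParam : Prop :=
  ∀ (E : Type) [NormedAddCommGroup E] [NormedSpace ℂ E] [FiniteDimensional ℂ E]
    (h : E × ℂ → ℂ) (z : E) (c : ℂ) (ρ : ℝ), 0 < ρ →
    (∀ ζ ∈ Metric.sphere c ρ, Holo h (z, ζ)) → Holo (fun x => ∮ ζ in C(c, ρ), h (x, ζ)) z

/-- HOLO: derivatives and identity theorems. -/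
structure SpecHolo : Prop where
  partialD : ∀ (E : Type) [NormedAddCommGroup E] [NormedSpace ℂ E] [FiniteDimensional ℂ E]
    (f : E → ℂ) (z v : E), Holo f z → Holo (fun x => fderiv ℂ f x v) z
  ident : ∀ (E : Type) [NormedAddCommGroup E] [NormedSpace ℂ E] (f : E → ℂ) (z : E),
    Holo f z → (∀ v : E, ∀ᶠ t in 𝓝 (0 : ℂ), f (z + t • v) = 0) → ∀ᶠ x in 𝓝 z, f x = 0
  quot : ∀ (E : Type) [NormedAddCommGroup E] [NormedSpace ℂ E] [FiniteDimensional ℂ E]
    (f g : E → ℂ) (z : E), Holo f z → Holo g z → (¬ ∀ᶠ x in 𝓝 z, g x = 0) →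
    (∀ v : E, ∀ᶠ x in 𝓝 z, g x * fderiv ℂ f x v = f x * fderiv ℂ g x v) →
    ∃ c : ℂ, ∀ᶠ x in 𝓝 z, f x = c * g x

/-- The monic polynomial in the last variable with coefficients `a`. -/
def WP {n k : ℕ} (a : Fin k → (Fin n → ℂ) → ℂ) (x : (Fin n → ℂ) × ℂ) : ℂ :=
  x.2 ^ k + ∑ i, a i x.1 * x.2 ^ (i : ℕ)

/-- WPOL: the zeros of a holomorphic function are zeros of a monic polynomial in the last
variable. -/
def SpecWPol : Prop :=
  ∀ (n : ℕ) (f : (Fin n → ℂ) × ℂ → ℂ) (z : Fin n → ℂ) (w0 : ℂ), Holo f (z, w0) →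
    (¬ ∀ᶠ w in 𝓝 w0, f (z, w) = 0) →
    ∃ (k : ℕ) (a : Fin k → (Fin n → ℂ) → ℂ), (∀ i, Holo (a i) z) ∧
      (∀ w, WP a (z, w) = 0 → w = w0) ∧ ∀ᶠ x in 𝓝 (z, w0), f x = 0 → WP a x = 0

/-- WDIV: division by a monic polynomial in the last variable. -/
def SpecWDiv : Prop :=
  ∀ (n k : ℕ) (a : Fin k → (Fin n → ℂ) → ℂ) (z : Fin n → ℂ) (w0 : ℂ), (∀ i, Holo (a i) z) →
    (∀ w, WP a (z, w) = 0 → w = w0) →
    ∀ g : (Fin n → ℂ) × ℂ → ℂ, Holo g (z, w0) →
      ∃ (q : (Fin n → ℂ) × ℂ → ℂ) (r : Fin k → (Fin n → ℂ) → ℂ), Holo q (z, w0) ∧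
        (∀ i, Holo (r i) z) ∧
        ∀ᶠ x in 𝓝 (z, w0), g x = q x * WP a x + ∑ i, r i x.1 * x.2 ^ (i : ℕ)

/-- DEREXT: derivations of subfields extend (characteristic zero). -/
structure SpecDerExt : Prop where
  ext : ∀ (k L : Type) [Field k] [Field L] [Algebra ℂ k] [Algebra ℂ L] [Algebra k L]
    [IsScalarTower ℂ k L] (d : k → L), (∀ a b, d (a + b) = d a + d b) →
    (∀ a b, d (a * b) = algebraMap k L a * d b + algebraMap k L b * d a) →
    (∀ c : ℂ, d (algebraMap ℂ k c) = 0) →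
    ∃ D : Derivation ℂ L L, ∀ a, D (algebraMap k L a) = d a
  trans : ∀ (k L : Type) [Field k] [Field L] [Algebra ℂ k] [Algebra ℂ L] [Algebra k L]
    [IsScalarTower ℂ k L] (x : L), Transcendental k x →
    ∃ D : Derivation ℂ L L, (∀ a, D (algebraMap k L a) = 0) ∧ D x = 1

/-! ### The ultrapower field with chain rule derivations -/

/-- A field in which functions near `z` are evaluated along the ultrafilter `𝒰`, together with a
set `M` of derivations satisfying the chain rule, with common constants `ℂ`. -/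
structure ArcField {n : ℕ} (z : Fin n → ℂ) (𝒰 : Ultrafilter (Fin n → ℂ)) (F : Type) [Field F]
    [Algebra ℂ F] where
  T : ((Fin n → ℂ) → ℂ) → F
  M : Set (Derivation ℂ F F)
  T_const : ∀ c : ℂ, T (fun _ => c) = algebraMap ℂ F c
  T_add : ∀ f g, T (fun x => f x + g x) = T f + T g
  T_mul : ∀ f g, T (fun x => f x * g x) = T f * T g
  T_eq : ∀ f g, T f = T g ↔ ∀ᶠ x in (𝒰 : Filter (Fin n → ℂ)), f x = g x
  chain : ∀ D ∈ M, ∀ f, Holo f z →
    D (T f) = ∑ i, T (fun x => fderiv ℂ f x (Pi.single i 1)) * D (T (fun x => x i))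
  ker : ∀ f, (∀ D ∈ M, D f = 0) → ∃ c : ℂ, f = algebraMap ℂ F c

/-- ARC: such fields exist. -/
def SpecArc : Prop :=
  ∀ (n : ℕ) (z : Fin n → ℂ) (𝒰 : Ultrafilter (Fin n → ℂ)), (𝒰 : Filter (Fin n → ℂ)) ≤ 𝓝 z →
    ∃ (F : Type) (_ : Field F) (_ : Algebra ℂ F), Nonempty (ArcField z 𝒰 F)

/-! ### Algebra -/

section Algebra

variable {F : Type} [Field F]

def R1 (y : F) : F := 1 / (2 * (y - 1728)) + 2 / (3 * y)

def V1 (y : F) : F := 1 / (144 * y * (y - 1728))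

variable [Algebra ℂ F]

/-- The differential equations of the gauge transformation between two linked solutions. -/
structure GaugeRel (δ : Derivation ℂ F F) (y y' b c c' : F) : Prop where
  g1 : δ c = (c ^ 2 - R1 y * c + V1 y) * δ y - δ y' / b
  g2 : δ c' = (c' ^ 2 - R1 y' * c' + V1 y') * δ y' - δ y / b
  g3 : δ b = b * ((R1 y - 2 * c) * δ y + (R1 y' - 2 * c') * δ y')

/-- A place of a function field with a logarithmic derivation. -/
structure Place (𝒪 : ValuationSubring F) (θ : Derivation ℂ F F) (ν : F → ℚ) : Prop where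
  mul : ∀ x y, x ≠ 0 → y ≠ 0 → ν (x * y) = ν x + ν y
  add : ∀ x y, x ≠ 0 → y ≠ 0 → x + y ≠ 0 → min (ν x) (ν y) ≤ ν (x + y)
  mem : ∀ x, x ≠ 0 → (x ∈ 𝒪 ↔ 0 ≤ ν x)
  log : ∀ x, x ≠ 0 → ∃ m : F, (m = 0 ∨ 0 < ν m) ∧ θ x = x * ((ν x : F) + m)
  res : ∀ x ∈ 𝒪, ∃ c : ℂ, x - algebraMap ℂ F c = 0 ∨ 0 < ν (x - algebraMap ℂ F c)

end Algebra

/-- PLACE: places of function fields of one variable. -/
def SpecPlace : Prop :=
  ∀ (E : Type) [Field E] [Algebra ℂ E] (y : E), Transcendental ℂ y →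
    FiniteDimensional (IntermediateField.adjoin ℂ {y}) E →
    ∀ 𝒪 : ValuationSubring E, (∀ c : ℂ, algebraMap ℂ E c ∈ 𝒪) → 𝒪 ≠ ⊤ →
      ∃ (θ : Derivation ℂ E E) (ν : E → ℚ), Place 𝒪 θ ν

/-- STEPC: there is no algebraic gauge transformation which is not triangular. -/
def SpecStepC : Prop :=
  ∀ (F : Type) [Field F] [Algebra ℂ F] (y y' b c c' : F), Transcendental ℂ y →
    Transcendental ℂ y' → ¬ AlgebraicIndependent ℂ ![y, y'] → ¬ AlgebraicIndependent ℂ ![y, b] →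
    ¬ AlgebraicIndependent ℂ ![y, c] → ¬ AlgebraicIndependent ℂ ![y, c'] →
    (∀ δ : Derivation ℂ F F, GaugeRel δ y y' b c c') → b = 0

/-- RICC: specialization of algebraic solutions of the Riccati equation. -/
def SpecRicc : Prop :=
  ∀ (F : Type) [Field F] [Algebra ℂ F] (y y' c : F), AlgebraicIndependent ℂ ![y, y'] →
    ¬ AlgebraicIndependent ℂ ![y, y', c] →
    (∀ δ : Derivation ℂ F F, δ y' = 0 → δ c = (c ^ 2 - R1 y * c + V1 y) * δ y) →
    ∃ c' : AlgebraicClosure F, ¬ AlgebraicIndependent ℂ ![algebraMap F (AlgebraicClosure F) y, c'] ∧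
      ∀ δ : Derivation ℂ (AlgebraicClosure F) (AlgebraicClosure F),
        δ c' = (c' ^ 2 - R1 (algebraMap F (AlgebraicClosure F) y) * c' +
          V1 (algebraMap F (AlgebraicClosure F) y)) * δ (algebraMap F (AlgebraicClosure F) y)

/-- NORICC: the Riccati equation has no algebraic solution. -/
def SpecNoRicc : Prop :=
  ∀ (F : Type) [Field F] [Algebra ℂ F] (M : Set (Derivation ℂ F F)) (z p q r y : F),
    (∀ f, (∀ D ∈ M, D f = 0) → ∃ c : ℂ, f = algebraMap ℂ F c) →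
    (∀ D ∈ M, IsW D z p q r 0) → y * (q ^ 3 - r ^ 2) = 1728 * q ^ 3 →
    AlgebraicIndependent ℂ ![z, p, q, r] →
    ¬ ∃ c' : AlgebraicClosure F,
      ¬ AlgebraicIndependent ℂ ![algebraMap F (AlgebraicClosure F) y, c'] ∧
      ∀ δ : Derivation ℂ (AlgebraicClosure F) (AlgebraicClosure F),
        δ c' = (c' ^ 2 - R1 (algebraMap F (AlgebraicClosure F) y) * c' +
          V1 (algebraMap F (AlgebraicClosure F) y)) * δ (algebraMap F (AlgebraicClosure F) y)

/-- GAUGE: two solutions with the same infinitesimal symmetries. -/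
def SpecGauge : Prop :=
  ∀ (F : Type) [Field F] [Algebra ℂ F] (z p q r y z' p' q' r' y' : F),
    AlgebraicIndependent ℂ ![z, p, q, r] → AlgebraicIndependent ℂ ![z', p', q', r'] →
    y * (q ^ 3 - r ^ 2) = 1728 * q ^ 3 → y' * (q' ^ 3 - r' ^ 2) = 1728 * q' ^ 3 →
    (∀ (δ : Derivation ℂ F F) (w : Fin 3 → F), IsW δ z p q r w → IsW δ z' p' q' r' w) →
    z = z' ∨ ∃ b c c' : F, b ≠ 0 ∧ ∀ δ : Derivation ℂ F F, GaugeRel δ y y' b c c'

/-- TWIST: the action of a constant Möbius transformation. -/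
def SpecTwist : Prop :=
  ∀ (F : Type) [Field F] [Algebra ℂ F] (z p q r : F) (α β γ δ' : ℂ) (δ : Derivation ℂ F F)
    (w : Fin 3 → F), α * δ' - β * γ = 1 → AlgebraicIndependent ℂ ![z, p, q, r] →
    let a := algebraMap ℂ F α
    let b := algebraMap ℂ F β
    let c := algebraMap ℂ F γ
    let d := algebraMap ℂ F δ'
    (c * z + d ≠ 0) ∧
    AlgebraicIndependent ℂ ![(a * z + b) / (c * z + d), (c * z + d) ^ 2 * p + c * (c * z + d),
      (c * z + d) ^ 4 * q, (c * z + d) ^ 6 * r] ∧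
    (IsW δ z p q r w → IsW δ ((a * z + b) / (c * z + d)) ((c * z + d) ^ 2 * p + c * (c * z + d))
      ((c * z + d) ^ 4 * q) ((c * z + d) ^ 6 * r)
      (w 0 • ![a ^ 2, -2 * a * c, c ^ 2] + w 1 • ![-(a * b), a * d + b * c, -(c * d)] +
        w 2 • ![b ^ 2, -2 * b * d, d ^ 2]))

/-- LIOU4: Liouville inequality with several quadratic numbers. -/
def SpecLiou4 : Prop :=
  ∀ (l m : ℕ) (P : MvPolynomial (Fin l ⊕ Fin m) ℤ), ∃ k : ℕ, ∀ (H d : ℕ), 2 ≤ H → 1 ≤ d →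
    ∀ (κ : Fin l → ℂ) (α : Fin m → ℂ), (∀ i, QuadHeight (κ i) H) →
    (∀ i, ∃ F : ℤ[X], F.Monic ∧ aeval (α i) F = 0 ∧ F.natDegree ≤ d ∧
      ∏ r ∈ (F.aroots ℂ).toFinset, max 1 ‖r‖ ≤ Real.exp d) →
    MvPolynomial.aeval (Sum.elim κ α) P = 0 ∨
      Real.exp (-(k * (1 + Real.log H) * (d : ℝ) ^ m)) ≤
        ‖MvPolynomial.aeval (Sum.elim κ α) P‖

end Pool.Agent.Lib.MP_47914d_nt
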