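import Pool.Agent.Lib.MP_47914d_nt.Defs2
import Pool.Agent.Lib.MP_47914d_nt.Defs4

section
/-!
Module AUT: automorphisms of `sl₂(ℂ)` are inner.
-/
set_option autoImplicit false

namespace Pool.Agent.Lib.MP_47914d_nt

theorem ad_cube (w u : Fin 3 → ℂ) :
    br w (br w (br w u)) = (w 1 ^ 2 - 4 * w 0 * w 2) • br w u := by
  funext i
  fin_cases i <;> simp [br] <;> ring

theorem eq_zero_of_br (w : Fin 3 → ℂ) (h : ∀ u, br w u = 0) : w = 0 := by
  have h0 := h ![1, 0, 0]
  have h2 := h ![0, 0, 1]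
  have a0 := congrFun h0 0
  have a1 := congrFun h0 1
  have b1 := congrFun h2 1
  simp [br] at a0 a1 b1
  funext i
  fin_cases i
  · exact b1
  · exact a0
  · exact a1

theorem nilp_of_br (φ : (Fin 3 → ℂ) ≃ₗ[ℂ] (Fin 3 → ℂ))
    (h : ∀ u v, φ (br u v) = br (φ u) (φ v)) (v : Fin 3 → ℂ) (hv : Nilp v) : Nilp (φ v) := by
  have hd : v 1 ^ 2 - 4 * v 0 * v 2 = 0 := sub_eq_zero.2 hv
  by_cases hz : ∀ u, br (φ v) u = 0
  · have := eq_zero_of_br _ hz
    rw [this]
    simp [Nilp]
  · push Not at hz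
    obtain ⟨u, hu⟩ := hz
    have h1 : br (φ v) (br (φ v) (br (φ v) u)) = 0 := by
      obtain ⟨u', rfl⟩ := φ.surjective u
      rw [← h, ← h, ← h, ad_cube, hd, zero_smul, map_zero]
    rw [ad_cube] at h1
    rcases smul_eq_zero.1 h1 with h2 | h2
    · exact sub_eq_zero.1 h2
    · exact absurd h2 hu

/-- A nilpotent vector has the form `(α², -2αγ, γ²)`. -/
theorem nilp_form (w : Fin 3 → ℂ) (h : Nilp w) :
    ∃ α γ : ℂ, w = ![α ^ 2, -2 * α * γ, γ ^ 2] := by
  obtain ⟨α, hα⟩ := IsAlgClosed.exists_pow_nat_eq (w 0) (n := 2) (by norm_num)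
  obtain ⟨γ, hγ⟩ := IsAlgClosed.exists_pow_nat_eq (w 2) (n := 2) (by norm_num)
  have h1 : (w 1 - 2 * α * γ) * (w 1 + 2 * α * γ) = 0 := by
    have : w 1 ^ 2 = 4 * w 0 * w 2 := h
    linear_combination this + 4 * w 2 * (-hα) - 4 * α ^ 2 * hγ
  rcases mul_eq_zero.1 h1 with h2 | h2
  · refine ⟨α, -γ, ?_⟩
    funext i
    fin_cases i
    · simp [hα]
    · simp
      linear_combination h2
    · simp [hγ]
  · refine ⟨α, γ, ?_⟩
    funext i
    fin_cases i
    · simp [hα]
    · simp
      linear_combination h2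
    · simp [hγ]

theorem specAut : SpecAut := by
  intro φ h
  obtain ⟨α, γ, h0⟩ := nilp_form _ (nilp_of_br φ h ![1, 0, 0] (by simp [Nilp]))
  obtain ⟨β, δ, h2⟩ := nilp_form _ (nilp_of_br φ h ![0, 0, 1] (by simp [Nilp]))
  -- the image of `e₁`
  have h1 : φ ![0, 1, 0] = (α * δ - β * γ) • ![-(α * β), α * δ + β * γ, -(γ * δ)] := by
    have e : br (F := ℂ) ![1, 0, 0] ![0, 0, 1] = (2 : ℂ) • ![0, 1, 0] := by
      funext i
      fin_cases i <;> simp [br]
    have := h ![1, 0, 0] ![0, 0, 1]
    rw [e, map_smul, h0, h2] at this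
    have h3 : φ ![0, 1, 0] = (2 : ℂ)⁻¹ • ((2 : ℂ) • φ ![0, 1, 0]) := by
      rw [smul_smul, inv_mul_cancel₀ two_ne_zero, one_smul]
    rw [h3, this]
    funext i
    fin_cases i <;> simp [br] <;> ring
  have h01 : (α * δ - β * γ) ^ 2 = 1 := by
    have e : br (F := ℂ) ![1, 0, 0] ![0, 1, 0] = ![1, 0, 0] := by
      funext i
      fin_cases i <;> simp [br]
    have h3 := h ![1, 0, 0] ![0, 1, 0]
    rw [e, h1, h0] at h3
    have h4 : ((α * δ - β * γ) ^ 2 - 1) • (![α ^ 2, -2 * α * γ, γ ^ 2] : Fin 3 → ℂ) = 0 := by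
      rw [sub_smul, one_smul, sub_eq_zero]
      conv_rhs => rw [h3]
      funext i
      fin_cases i <;> simp [br] <;> ring
    rcases smul_eq_zero.1 h4 with h5 | h5
    · exact sub_eq_zero.1 h5
    · exfalso
      rw [← h0] at h5
      have := φ.injective (h5.trans (map_zero φ).symm)
      have := congrFun this 0
      simp at this
  have h02 : (α * δ - β * γ - 1) * (α * δ - β * γ + 1) = 0 := by
    linear_combination h01
  rcases mul_eq_zero.1 h02 with h5 | h5
  · have hΔ : α * δ - β * γ = 1 := sub_eq_zero.1 h5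
    refine ⟨α, β, γ, δ, hΔ, h0, ?_, h2⟩
    rw [h1, hΔ, one_smul]
  · have hΔ : α * δ - β * γ = -1 := eq_neg_of_add_eq_zero_left h5
    refine ⟨α, -β, γ, -δ, ?_, h0, ?_, ?_⟩
    · linear_combination -hΔ
    · rw [h1, hΔ]
      funext i
      fin_cases i <;> simp <;> ring
    · rw [h2]
      funext i
      fin_cases i <;> simp

end Pool.Agent.Lib.MP_47914d_nt
end

section
/-!
Modules EXT and DER: derivations of extensions of `ℂ` with prescribed values, and two criteria
of algebraic (in)dependence by derivations.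
-/
set_option autoImplicit false
set_option linter.style.haveILetI false
set_option linter.unusedSimpArgs false

open KaehlerDifferential TensorProduct

namespace Pool.Agent.Lib.MP_47914d_nt

/-- Derivations extend along formally étale maps. -/
theorem exists_der_of_etale {R S T : Type*} [CommRing R] [CommRing S] [CommRing T] [Algebra R S]
    [Algebra R T] [Algebra S T] [IsScalarTower R S T] [Algebra.FormallyEtale S T]
    (d : Derivation R S T) : ∃ δ : Derivation R T T, ∀ s, δ (algebraMap S T s) = d s := by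
  let e := KaehlerDifferential.tensorKaehlerEquivOfFormallyEtale R S T
  let l : Ω[S⁄R] →ₗ[S] T := d.liftKaehlerDifferential
  let L : T ⊗[S] Ω[S⁄R] →ₗ[T] T := l.liftBaseChange T
  let m : Ω[T⁄R] →ₗ[T] T := L.comp e.symm.toLinearMap
  refine ⟨m.compDer (KaehlerDifferential.D R T), fun s => ?_⟩
  have h : e.symm (D R T (algebraMap S T s)) = 1 ⊗ₜ D R S s :=
    KaehlerDifferential.tensorKaehlerEquivOfFormallyEtale_symm_D_algebraMap R S T s
  change L (e.symm (D R T (algebraMap S T s))) = d s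
  rw [h]
  simp [L, l]

open scoped IntermediateField.algebraAdjoinAdjoin in
theorem exists_der_of_basis {F : Type} [Field F] [Algebra ℂ F] {t : Set F}
    (ht : IsTranscendenceBasis ℂ ((↑) : t → F)) (c : t → F) :
    ∃ δ : Derivation ℂ F F, ∀ i : t, δ (i : F) = c i := by
  classical
  let v : t → F := (↑)
  have hv : AlgebraicIndependent ℂ v := ht.1
  let A' := Algebra.adjoin ℂ (Set.range v)
  let K' := IntermediateField.adjoin ℂ (Set.range v)
  have h1 : Algebra.FormallyEtale A' K' := .of_isLocalization (nonZeroDivisors _)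
  have h2 : Algebra.IsAlgebraic K' F := ht.isAlgebraic_field
  have h3 : Algebra.FormallyEtale K' F := Algebra.FormallyEtale.of_isSeparable K' F
  have h4 : Algebra.FormallyEtale A' F := .comp A' K' F
  let e : MvPolynomial t ℂ ≃ₐ[ℂ] A' := hv.aevalEquiv
  have he : ∀ p, ((e p : A') : F) = MvPolynomial.aeval v p := fun p =>
    hv.algebraMap_aevalEquiv p
  letI : Algebra (MvPolynomial t ℂ) F := (MvPolynomial.aeval v : MvPolynomial t ℂ →ₐ[ℂ] F).toAlgebra
  haveI : IsScalarTower ℂ (MvPolynomial t ℂ) F := IsScalarTower.of_algebraMap_eq fun x => by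
    change _ = MvPolynomial.aeval v (MvPolynomial.C x)
    simp
  have hsm : ∀ (p : MvPolynomial t ℂ) (f : F), p • f = MvPolynomial.aeval v p * f := fun p f => by
    rw [Algebra.smul_def]; rfl
  let d₀ : Derivation ℂ (MvPolynomial t ℂ) F := MvPolynomial.mkDerivation ℂ c
  let d : Derivation ℂ A' F := Derivation.mk' (d₀.toLinearMap.comp e.symm.toLinearMap) (by
    intro a b
    change d₀ (e.symm (a * b)) = a • d₀ (e.symm b) + b • d₀ (e.symm a)
    rw [map_mul, d₀.leibniz, hsm, hsm, ← he, ← he, AlgEquiv.apply_symm_apply,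
      AlgEquiv.apply_symm_apply]
    rfl)
  obtain ⟨δ, hδ⟩ := exists_der_of_etale d
  refine ⟨δ, fun i => ?_⟩
  have h := hδ (e (MvPolynomial.X i))
  have h5 : algebraMap A' F (e (MvPolynomial.X i)) = (i : F) := by
    change ((e (MvPolynomial.X i) : A') : F) = _
    rw [he, MvPolynomial.aeval_X]
  rw [h5] at h
  rw [h]
  change d₀ (e.symm (e (MvPolynomial.X i))) = c i
  rw [AlgEquiv.symm_apply_apply]
  exact MvPolynomial.mkDerivation_X ℂ c i

theorem specExt : SpecExt := by
  intro F _ _ ι _ x hx c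
  classical
  obtain ⟨t, hst, ht⟩ := exists_isTranscendenceBasis_superset (R := ℂ) (s := Set.range x)
    hx.coe_range
  let c' : t → F := fun i => if h : ∃ j, x j = i then c h.choose else 0
  obtain ⟨δ, hδ⟩ := exists_der_of_basis ht c'
  refine ⟨δ, fun i => ?_⟩
  have h := hδ ⟨x i, hst ⟨i, rfl⟩⟩
  rw [h]
  have hex : ∃ j, x j = x i := ⟨i, rfl⟩
  simp only [c', hex, dif_pos]
  congr 1
  exact hx.injective hex.choose_spec

/-! ### The chain rule -/

theorem der_aeval {F : Type} [Field F] [Algebra ℂ F] {σ : Type} [Fintype σ] (a : σ → F)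
    (δ : Derivation ℂ F F) (P : MvPolynomial σ ℂ) :
    δ (MvPolynomial.aeval a P) =
      ∑ i, MvPolynomial.aeval a (MvPolynomial.pderiv i P) * δ (a i) := by
  classical
  induction P using MvPolynomial.induction_on with
  | C c => simp [MvPolynomial.aeval_C]
  | add p q hp hq => simp [hp, hq, add_mul, Finset.sum_add_distrib]
  | mul_X p i hp =>
    rw [map_mul, Derivation.leibniz, hp, MvPolynomial.aeval_X]
    simp only [Derivation.leibniz, MvPolynomial.pderiv_X, smul_eq_mul, map_add, map_mul,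
      MvPolynomial.aeval_X, add_mul, Finset.sum_add_distrib, Finset.mul_sum]
    congr 1
    · rw [Finset.sum_eq_single i]
      · simp
      · intro b _ hb
        simp [Pi.single_apply, hb.symm]
      · simp
    · exact Finset.sum_congr rfl fun j _ => by ring

/-- The partial derivatives lower the total degree. -/
theorem totalDegree_pderiv_lt {σ : Type} {i : σ} {P : MvPolynomial σ ℂ}
    (h : MvPolynomial.pderiv i P ≠ 0) :
    (MvPolynomial.pderiv i P).totalDegree < P.totalDegree := by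
  classical
  obtain ⟨m, hm, hm'⟩ : ∃ m ∈ (MvPolynomial.pderiv i P).support,
      (m.sum fun _ e => e) = (MvPolynomial.pderiv i P).totalDegree := by
    have hne : (MvPolynomial.pderiv i P).support.Nonempty := by
      rwa [Finset.nonempty_iff_ne_empty, Ne, MvPolynomial.support_eq_empty]
    obtain ⟨m, hm, h'⟩ := Finset.exists_mem_eq_sup _ hne (fun m : σ →₀ ℕ => m.sum fun _ e => e)
    exact ⟨m, hm, h'.symm⟩
  have h1 : MvPolynomial.coeff (m + Finsupp.single i 1) P ≠ 0 := by
    intro h0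
    rw [MvPolynomial.mem_support_iff] at hm
    apply hm
    rw [MvPolynomial.coeff_pderiv]
    simp [h0]
  have h2 := MvPolynomial.le_totalDegree (MvPolynomial.mem_support_iff.2 h1)
  rw [← hm']
  rw [Finsupp.sum_add_index' (by simp) (by simp)] at h2
  simp only [Finsupp.sum_single_index] at h2
  omega

theorem exists_pderiv_ne {F : Type} [Field F] [Algebra ℂ F] {σ : Type} (a : σ → F) (o : σ)
    (ho : AlgebraicIndependent ℂ ![a o]) (h : ¬ AlgebraicIndependent ℂ a) :
    ∃ P : MvPolynomial σ ℂ, MvPolynomial.aeval a P = 0 ∧ ∃ i, i ≠ o ∧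
      MvPolynomial.aeval a (MvPolynomial.pderiv i P) ≠ 0 := by
  classical
  rw [algebraicIndependent_iff] at h
  push Not at h
  obtain ⟨P₀, hP₀, hP₀'⟩ := h
  let S : Set (MvPolynomial σ ℂ) := {P | MvPolynomial.aeval a P = 0 ∧ P ≠ 0}
  have hS : S.Nonempty := ⟨P₀, hP₀, hP₀'⟩
  let P := Function.argminOn (fun P : MvPolynomial σ ℂ => P.totalDegree) S hS
  have hP : P ∈ S := Function.argminOn_mem _ S hS
  have hmin : ∀ Q ∈ S, P.totalDegree ≤ Q.totalDegree := fun Q hQ =>
    Function.argminOn_le _ S hQ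
  refine ⟨P, hP.1, ?_⟩
  by_contra hcon
  push Not at hcon
  have hz : ∀ i, i ≠ o → MvPolynomial.pderiv i P = 0 := by
    intro i hi
    by_contra hne
    exact absurd (hmin _ ⟨hcon i hi, hne⟩) (not_le.2 (totalDegree_pderiv_lt hne))
  have hvars : ∀ m ∈ P.support, ∀ i, i ≠ o → m i = 0 := by
    intro m hm i hi
    by_contra hmi
    have h1 := MvPolynomial.coeff_pderiv (i := i) P (m - Finsupp.single i 1)
    rw [hz i hi] at h1
    have h2 : m - Finsupp.single i 1 + Finsupp.single i 1 = m := by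
      apply tsub_add_cancel_of_le
      rw [Finsupp.single_le_iff]
      omega
    rw [h2] at h1
    have h3 := MvPolynomial.mem_support_iff.1 hm
    rw [MvPolynomial.coeff_zero] at h1
    rcases mul_eq_zero.1 h1.symm with h4 | h4
    · exact h3 h4
    · exact Nat.cast_add_one_ne_zero _ h4
  have hr : ((P.vars : Set σ)) ⊆ Set.range (fun _ : Fin 1 => o) := by
    intro i hi
    have hi' := (MvPolynomial.mem_vars_iff_mem_support i).1 hi
    obtain ⟨m, hm, hmi⟩ := hi'
    by_contra hne
    have : i ≠ o := fun h => hne ⟨0, h.symm⟩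
    exact (Finsupp.mem_support_iff.1 hmi) (hvars m hm i this)
  obtain ⟨Q, hQ⟩ := MvPolynomial.exists_rename_eq_of_vars_subset_range P (fun _ : Fin 1 => o)
    (fun _ _ _ => Subsingleton.elim _ _) hr
  have hQ0 : MvPolynomial.aeval ![a o] Q = 0 := by
    have h1 := hP.1
    rw [← hQ, MvPolynomial.aeval_rename] at h1
    have h2 : (a ∘ fun _ : Fin 1 => o) = ![a o] := by
      ext j
      fin_cases j
      rfl
    rwa [h2] at h1
  have := (algebraicIndependent_iff.1 ho) Q hQ0
  rw [this, map_zero] at hQ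
  exact hP.2 hQ.symm

theorem specDer0 : SpecDer0 := by
  intro F _ _ t x ht hx δ hδ
  obtain ⟨P, hP, i, hi, hne⟩ := exists_pderiv_ne ![t, x] 0 (by simpa using ht) hx
  have h := der_aeval ![t, x] δ P
  rw [hP, map_zero, Fin.sum_univ_two] at h
  have hi1 : i = 1 := by
    fin_cases i
    · exact absurd rfl hi
    · rfl
  rw [hi1] at hne
  simp only [Matrix.cons_val_zero, Matrix.cons_val_one, hδ, mul_zero, zero_add] at h
  rcases mul_eq_zero.1 h.symm with h | h
  · exact absurd h hne
  · exact h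

theorem specDerAI : SpecDerAI := by
  intro F _ _ ι _ t y ht hc
  classical
  have := Fintype.ofFinite ι
  by_contra hcon
  obtain ⟨P, hP, i, hi, hne⟩ := exists_pderiv_ne (fun o : Option ι => o.elim t y) none
    (by simpa using ht) hcon
  obtain ⟨i, rfl⟩ := Option.ne_none_iff_exists'.1 hi
  obtain ⟨δ, hδ, hδ'⟩ := hc (Pi.single i 1)
  have h := der_aeval (fun o : Option ι => o.elim t y) δ P
  rw [hP, map_zero, Finset.sum_eq_single (some i)] at h
  · simp only [Option.elim_some, hδ', Pi.single_eq_same, mul_one] at h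
    exact hne h.symm
  · intro b _ hb
    cases b with
    | none => simp [hδ]
    | some j =>
      have : j ≠ i := fun h => hb (by rw [h])
      simp [hδ', Pi.single_apply, this]
  · simp

end Pool.Agent.Lib.MP_47914d_nt
end

section
/-!
Module FIELD: the fraction field of `ℂ⟦X⟧` is a differential field which contains the ring of germs
of analytic functions at a point.
-/
set_option autoImplicit false

open Filter Topology
open scoped PowerSeries

namespace Pool.Agent.Lib.MP_47914d_nt

/-- The Taylor series of `f` at `θ`. -/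
noncomputable def taylor (θ : ℂ) (f : ℂ → ℂ) : ℂ⟦X⟧ :=
  PowerSeries.mk fun n => iteratedDeriv n f θ / (n.factorial : ℂ)

theorem taylor_const (θ c : ℂ) : taylor θ (fun _ => c) = PowerSeries.C c := by
  ext n
  rw [taylor, PowerSeries.coeff_mk, PowerSeries.coeff_C]
  rcases Nat.eq_zero_or_pos n with rfl | hn
  · simp
  · have : iteratedDeriv n (fun _ : ℂ => c) θ = 0 := by
      rw [iteratedDeriv_const]
      simp [hn.ne']
    simp [this, hn.ne']

theorem taylor_add (θ : ℂ) (f g : ℂ → ℂ) (hf : AnalyticAt ℂ f θ) (hg : AnalyticAt ℂ g θ) :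
    taylor θ (fun x => f x + g x) = taylor θ f + taylor θ g := by
  ext n
  rw [map_add, taylor, taylor, taylor, PowerSeries.coeff_mk, PowerSeries.coeff_mk,
    PowerSeries.coeff_mk, ← add_div]
  congr 1
  exact iteratedDeriv_add hf.contDiffAt hg.contDiffAt

theorem taylor_mul (θ : ℂ) (f g : ℂ → ℂ) (hf : AnalyticAt ℂ f θ) (hg : AnalyticAt ℂ g θ) :
    taylor θ (fun x => f x * g x) = taylor θ f * taylor θ g := by
  ext n
  rw [PowerSeries.coeff_mul, taylor, taylor, taylor, PowerSeries.coeff_mk]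
  simp only [PowerSeries.coeff_mk]
  have h := iteratedDeriv_mul (n := n) (x := θ) hf.contDiffAt hg.contDiffAt
  have h' : iteratedDeriv n (fun x => f x * g x) θ = iteratedDeriv n (f * g) θ := rfl
  rw [h', h, Finset.Nat.sum_antidiagonal_eq_sum_range_succ_mk, Finset.sum_div]
  refine Finset.sum_congr rfl fun i hi => ?_
  have hi' : i ≤ n := Nat.lt_succ_iff.1 (Finset.mem_range.1 hi)
  have h1 : ((n.choose i : ℕ) : ℂ) * (i.factorial : ℂ) * ((n - i).factorial : ℂ)
      = (n.factorial : ℂ) := by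
    exact_mod_cast Nat.choose_mul_factorial_mul_factorial hi'
  have h2 : (i.factorial : ℂ) ≠ 0 := Nat.cast_ne_zero.2 i.factorial_ne_zero
  have h3 : ((n - i).factorial : ℂ) ≠ 0 := Nat.cast_ne_zero.2 (n - i).factorial_ne_zero
  have h4 : (n.factorial : ℂ) ≠ 0 := Nat.cast_ne_zero.2 n.factorial_ne_zero
  rw [div_mul_div_comm, div_eq_div_iff h4 (mul_ne_zero h2 h3), ← h1]
  ring

theorem taylor_deriv (θ : ℂ) (f : ℂ → ℂ) :
    taylor θ (deriv f) = PowerSeries.derivative ℂ (taylor θ f) := by
  ext n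
  rw [PowerSeries.coeff_derivative, taylor, taylor, PowerSeries.coeff_mk, PowerSeries.coeff_mk,
    ← iteratedDeriv_succ', Nat.factorial_succ]
  have h2 : (n.factorial : ℂ) ≠ 0 := Nat.cast_ne_zero.2 n.factorial_ne_zero
  have h3 : ((n : ℂ) + 1) ≠ 0 := Nat.cast_add_one_ne_zero n
  push_cast
  field_simp

theorem taylor_eq (θ : ℂ) (f g : ℂ → ℂ) (hf : AnalyticAt ℂ f θ) (hg : AnalyticAt ℂ g θ) :
    taylor θ f = taylor θ g ↔ ∀ᶠ x in 𝓝 θ, f x = g x := by
  constructor
  · intro h
    have h1 : ∀ n, iteratedDeriv n f θ = iteratedDeriv n g θ := by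
      intro n
      have h2 := congrArg (PowerSeries.coeff n) h
      rw [taylor, taylor, PowerSeries.coeff_mk, PowerSeries.coeff_mk] at h2
      have h3 : (n.factorial : ℂ) ≠ 0 := Nat.cast_ne_zero.2 n.factorial_ne_zero
      exact (div_left_inj' h3).1 h2
    have h2 : analyticOrderAt (f - g) θ = ⊤ := by
      rw [ENat.eq_top_iff_forall_ge]
      intro n
      rw [natCast_le_analyticOrderAt_iff_iteratedDeriv_eq_zero (hf.sub hg)]
      intro i _
      rw [iteratedDeriv_sub hf.contDiffAt hg.contDiffAt, h1, sub_self]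
    rw [analyticOrderAt_eq_top] at h2
    filter_upwards [h2] with x hx
    exact sub_eq_zero.1 hx
  · intro h
    ext n
    rw [taylor, taylor, PowerSeries.coeff_mk, PowerSeries.coeff_mk]
    congr 1
    exact Filter.EventuallyEq.iteratedDeriv_eq n h

/-- FIELD. -/
theorem specField : SpecField := by
  intro θ
  let A := ℂ⟦X⟧
  let F := FractionRing A
  have : Algebra.FormallyEtale A F := .of_isLocalization (nonZeroDivisors A)
  let d : Derivation ℂ A F := (Algebra.linearMap A F).compDer (PowerSeries.derivative ℂ)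
  obtain ⟨D, hD⟩ := exists_der_of_etale d
  have hD' : ∀ a : A, D (algebraMap A F a) = algebraMap A F (PowerSeries.derivative ℂ a) :=
    fun a => hD a
  have hinj : Function.Injective (algebraMap A F) := IsFractionRing.injective A F
  have hC : ∀ c : ℂ, algebraMap A F (PowerSeries.C c) = algebraMap ℂ F c := fun c => by
    rw [IsScalarTower.algebraMap_apply ℂ A F]
    rfl
  have hconst : ∀ g : A, PowerSeries.derivative ℂ g = 0 →
      g = PowerSeries.C (PowerSeries.constantCoeff g) := by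
    intro g hg
    apply PowerSeries.derivative.ext
    · rw [hg, PowerSeries.derivative_C]
    · simp
  refine ⟨F, inferInstance, inferInstance, ⟨{
    D := D
    T := fun f => algebraMap A F (taylor θ f)
    T_const := fun c => by rw [taylor_const, hC]
    T_add := fun f g hf hg => by rw [taylor_add θ f g hf hg, map_add]
    T_mul := fun f g hf hg => by rw [taylor_mul θ f g hf hg, map_mul]
    T_deriv := fun f _ => by rw [taylor_deriv, hD']
    T_eq := fun f g hf hg => by rw [← taylor_eq θ f g hf hg, hinj.eq_iff]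
    D_ker := ?_ }⟩⟩
  intro f hf
  rcases ValuationRing.isInteger_or_isInteger A f with h | h
  · obtain ⟨g, hg⟩ := h
    rw [← hg, hD', map_eq_zero_iff _ hinj] at hf
    exact ⟨PowerSeries.constantCoeff g, by rw [← hg, ← hC, ← hconst g hf]⟩
  · obtain ⟨g, hg⟩ := h
    have h1 : D f⁻¹ = 0 := by
      rcases eq_or_ne f 0 with rfl | hne
      · simp
      · have h2 := D.leibniz f f⁻¹
        rw [mul_inv_cancel₀ hne, hf, smul_zero, add_zero, Derivation.map_one_eq_zero,
          smul_eq_mul] at h2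
        rcases mul_eq_zero.1 h2.symm with h3 | h3
        · exact absurd h3 hne
        · exact h3
    rw [← hg, hD', map_eq_zero_iff _ hinj] at h1
    refine ⟨(PowerSeries.constantCoeff g)⁻¹, ?_⟩
    rw [map_inv₀, ← hC, ← hconst g h1, hg, inv_inv]

end Pool.Agent.Lib.MP_47914d_nt
end

section
/-!
Modules IMPL and SEP: the implicit function theorem for plane curves, a separable integral relation.
-/
set_option autoImplicit false

open Complex Filter Topology
open scoped ContDiff

namespace Pool.Agent.Lib.MP_47914d_nt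

theorem isInvertible_of_ne (L : ℂ →L[ℂ] ℂ) (h : L 1 ≠ 0) : L.IsInvertible := by
  refine ⟨ContinuousLinearEquiv.unitsEquivAut ℂ (Units.mk0 (L 1) h), ?_⟩
  ext
  simp

theorem hasDerivAt_eval_snd (P : MvPolynomial (Fin 2) ℂ) (a y : ℂ) :
    HasDerivAt (fun y => MvPolynomial.eval ![a, y] P)
      (MvPolynomial.eval ![a, y] (MvPolynomial.pderiv 1 P)) y := by
  induction P using MvPolynomial.induction_on with
  | C c =>
    simp only [MvPolynomial.eval_C, MvPolynomial.pderiv_C, map_zero]
    exact hasDerivAt_const y c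
  | add p q hp hq =>
    simp only [map_add]
    exact hp.fun_add hq
  | mul_X p i hp =>
    simp only [map_mul, MvPolynomial.eval_X, MvPolynomial.pderiv_mul, map_add,
      MvPolynomial.pderiv_X]
    fin_cases i
    · have := hp.fun_mul (hasDerivAt_const y a)
      refine this.congr_deriv ?_
      simp
    · have := hp.fun_mul (hasDerivAt_id' y)
      refine this.congr_deriv ?_
      simp

theorem specImpl : SpecImpl := by
  intro P a b h0 h1
  set f : ℂ × ℂ → ℂ := fun x => MvPolynomial.eval ![x.1, x.2] P with hf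
  have hfan : AnalyticAt ℂ f (a, b) := by
    have h := AnalyticAt.aeval_mvPolynomial (𝕜 := ℂ) (f := fun x : ℂ × ℂ => ![x.1, x.2])
      (z := (a, b)) (by
        intro i
        fin_cases i
        · exact analyticAt_fst
        · exact analyticAt_snd) P
    simpa [MvPolynomial.aeval_eq_eval] using h
  have cdf : ContDiffAt ℂ ω f (a, b) := hfan.contDiffAt
  have hinv : (fderiv ℂ f (a, b) ∘L .inr ℂ ℂ ℂ).IsInvertible := by
    apply isInvertible_of_ne
    have h2 : HasFDerivAt f (fderiv ℂ f (a, b)) (a, b) := hfan.differentiableAt.hasFDerivAt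
    have h3 : HasDerivAt (fun y : ℂ => ((a, y) : ℂ × ℂ)) (0, 1) b :=
      (hasDerivAt_const b a).prodMk (hasDerivAt_id b)
    have h4 := h2.comp_hasDerivAt b h3
    have h5 := h4.unique (hasDerivAt_eval_snd P a b)
    have h6 : (fderiv ℂ f (a, b) ∘L .inr ℂ ℂ ℂ) 1 = (fderiv ℂ f (a, b)) (0, 1) := by simp
    rw [h6, h5]
    exact h1
  have hω : (ω : ℕ∞ω) ≠ 0 := by simp
  have hfab : f (a, b) = 0 := h0
  refine ⟨cdf.implicitFunction hω hinv, (cdf.contDiffAt_implicitFunction hω hinv).analyticAt,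
    cdf.implicitFunction_apply_self hω hinv, ?_, ?_⟩
  · filter_upwards [cdf.eventually_apply_implicitFunction hω hinv] with x hx
    rw [hfab] at hx
    exact hx
  · filter_upwards [cdf.eventually_apply_eq_iff_implicitFunction hω hinv] with x hx hx0
    exact (hx.1 (by rw [hfab]; exact hx0)).symm

theorem int_totalDegree_pderiv_lt {σ : Type} {i : σ} {P : MvPolynomial σ ℤ}
    (h : MvPolynomial.pderiv i P ≠ 0) :
    (MvPolynomial.pderiv i P).totalDegree < P.totalDegree := by
  classical
  obtain ⟨m, hm, hm'⟩ : ∃ m ∈ (MvPolynomial.pderiv i P).support,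
      (m.sum fun _ e => e) = (MvPolynomial.pderiv i P).totalDegree := by
    have hne : (MvPolynomial.pderiv i P).support.Nonempty := by
      rwa [Finset.nonempty_iff_ne_empty, Ne, MvPolynomial.support_eq_empty]
    obtain ⟨m, hm, h'⟩ := Finset.exists_mem_eq_sup _ hne (fun m : σ →₀ ℕ => m.sum fun _ e => e)
    exact ⟨m, hm, h'.symm⟩
  have h1 : MvPolynomial.coeff (m + Finsupp.single i 1) P ≠ 0 := by
    intro h0
    rw [MvPolynomial.mem_support_iff] at hm
    apply hm
    rw [MvPolynomial.coeff_pderiv]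
    simp [h0]
  have h2 := MvPolynomial.le_totalDegree (MvPolynomial.mem_support_iff.2 h1)
  rw [← hm']
  rw [Finsupp.sum_add_index' (by simp) (by simp)] at h2
  simp only [Finsupp.sum_single_index] at h2
  omega

theorem int_exists_pderiv_ne {F : Type} [Field F] {σ : Type} (a : σ → F) (o : σ)
    (ho : AlgebraicIndependent ℤ ![a o]) (h : ¬ AlgebraicIndependent ℤ a) :
    ∃ P : MvPolynomial σ ℤ, MvPolynomial.aeval a P = 0 ∧ ∃ i, i ≠ o ∧
      MvPolynomial.aeval a (MvPolynomial.pderiv i P) ≠ 0 := by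
  classical
  rw [algebraicIndependent_iff] at h
  push Not at h
  obtain ⟨P₀, hP₀, hP₀'⟩ := h
  let S : Set (MvPolynomial σ ℤ) := {P | MvPolynomial.aeval a P = 0 ∧ P ≠ 0}
  have hS : S.Nonempty := ⟨P₀, hP₀, hP₀'⟩
  let P := Function.argminOn (fun P : MvPolynomial σ ℤ => P.totalDegree) S hS
  have hP : P ∈ S := Function.argminOn_mem _ S hS
  have hmin : ∀ Q ∈ S, P.totalDegree ≤ Q.totalDegree := fun Q hQ =>
    Function.argminOn_le _ S hQ
  refine ⟨P, hP.1, ?_⟩
  by_contra hcon
  push Not at hcon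
  have hz : ∀ i, i ≠ o → MvPolynomial.pderiv i P = 0 := by
    intro i hi
    by_contra hne
    exact absurd (hmin _ ⟨hcon i hi, hne⟩) (not_le.2 (int_totalDegree_pderiv_lt hne))
  have hvars : ∀ m ∈ P.support, ∀ i, i ≠ o → m i = 0 := by
    intro m hm i hi
    by_contra hmi
    have h1 := MvPolynomial.coeff_pderiv (i := i) P (m - Finsupp.single i 1)
    rw [hz i hi] at h1
    have h2 : m - Finsupp.single i 1 + Finsupp.single i 1 = m := by
      apply tsub_add_cancel_of_le
      rw [Finsupp.single_le_iff]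
      omega
    rw [h2] at h1
    have h3 := MvPolynomial.mem_support_iff.1 hm
    rw [MvPolynomial.coeff_zero] at h1
    rcases mul_eq_zero.1 h1.symm with h4 | h4
    · exact h3 h4
    · exact Nat.cast_add_one_ne_zero _ h4
  have hr : ((P.vars : Set σ)) ⊆ Set.range (fun _ : Fin 1 => o) := by
    intro i hi
    have hi' := (MvPolynomial.mem_vars_iff_mem_support i).1 hi
    obtain ⟨m, hm, hmi⟩ := hi'
    by_contra hne
    have : i ≠ o := fun h => hne ⟨0, h.symm⟩
    exact (Finsupp.mem_support_iff.1 hmi) (hvars m hm i this)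
  obtain ⟨Q, hQ⟩ := MvPolynomial.exists_rename_eq_of_vars_subset_range P (fun _ : Fin 1 => o)
    (fun _ _ _ => Subsingleton.elim _ _) hr
  have hQ0 : MvPolynomial.aeval ![a o] Q = 0 := by
    have h1 := hP.1
    rw [← hQ, MvPolynomial.aeval_rename] at h1
    have h2 : (a ∘ fun _ : Fin 1 => o) = ![a o] := by
      ext j
      fin_cases j
      rfl
    rwa [h2] at h1
  have := (algebraicIndependent_iff.1 ho) Q hQ0
  rw [this, map_zero] at hQ
  exact hP.2 hQ.symm

theorem specSep : SpecSep := by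
  intro a b ha hab
  have ha' : AlgebraicIndependent ℤ ![a] := by
    rw [algebraicIndependent_unique_type_iff]
    exact ha.restrictScalars (algebraMap ℤ ℚ).injective_int
  have hab' : ¬ AlgebraicIndependent ℤ ![a, b] := by
    intro h
    apply hab
    have : Algebra.IsAlgebraic ℤ ℚ := IsLocalization.isAlgebraic (R := ℤ) (S := ℚ) (nonZeroDivisors ℤ)
    exact h.extendScalars ℚ
  obtain ⟨P, hP, i, hi, hne⟩ := int_exists_pderiv_ne ![a, b] 0 (by simpa using ha') hab'
  refine ⟨P, hP, ?_⟩
  fin_cases i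
  · exact absurd rfl hi
  · exact hne

end Pool.Agent.Lib.MP_47914d_nt
end

section
/-!
Modules STAB and GOUR: subspaces stable under a derivation, and Goursat's lemma for products of
`sl₂`.
-/
set_option autoImplicit false

namespace Pool.Agent.Lib.MP_47914d_nt

/-! ### STAB -/

theorem specStab : SpecStab := by
  classical
  intro F _ _ D hker ι _ U hU
  have : Fintype ι := Fintype.ofFinite ι
  set S : Submodule F (ι → F) :=
    Submodule.span F {u | u ∈ U ∧ ∃ c : ι → ℂ, u = fun i => algebraMap ℂ F (c i)} with hS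
  apply le_antisymm
  · -- induction on the size of the support
    have key : ∀ n : ℕ, ∀ u ∈ U, (Finset.univ.filter (fun i => u i ≠ 0)).card ≤ n → u ∈ S := by
      intro n
      induction n with
      | zero =>
        intro u _ hc
        have h0 : (Finset.univ.filter (fun i => u i ≠ 0)) = ∅ := by
          rw [← Finset.card_eq_zero]
          omega
        have : u = 0 := by
          funext i
          by_contra hne
          have : i ∈ (Finset.univ.filter (fun i => u i ≠ 0)) := by
            simp only [Finset.mem_filter, Finset.mem_univ, true_and]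
            exact hne
          rw [h0] at this
          simp at this
        rw [this]
        exact S.zero_mem
      | succ n ih =>
        intro u hu hc
        by_cases hu0 : u = 0
        · rw [hu0]
          exact S.zero_mem
        obtain ⟨i0, hi0⟩ : ∃ i, u i ≠ 0 := by
          by_contra hcon
          push Not at hcon
          exact hu0 (funext hcon)
        -- scaled vector
        set u' : ι → F := (u i0)⁻¹ • u with hu'
        have hu'U : u' ∈ U := U.smul_mem _ hu
        have hu'i : u' i0 = 1 := by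
          simp only [hu', Pi.smul_apply, smul_eq_mul]
          exact inv_mul_cancel₀ hi0
        have hsub : ∀ i, u' i ≠ 0 → u i ≠ 0 := by
          intro i hi h0
          apply hi
          simp only [hu', Pi.smul_apply, smul_eq_mul, h0, mul_zero]
        have hback : u' ∈ S → u ∈ S := by
          intro h
          have : u = (u i0) • u' := by
            rw [hu', smul_smul, mul_inv_cancel₀ hi0, one_smul]
          rw [this]
          exact S.smul_mem _ h
        apply hback
        -- a general reduction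
        have small : ∀ (v : ι → F) (j : ι), u j ≠ 0 → v j = 0 → (∀ i, v i ≠ 0 → u i ≠ 0) →
            (Finset.univ.filter (fun i => v i ≠ 0)).card ≤ n := by
          intro v j huj hvj hvu
          have hss : (Finset.univ.filter (fun i => v i ≠ 0)) ⊂
              (Finset.univ.filter (fun i => u i ≠ 0)) := by
            rw [Finset.ssubset_iff_of_subset]
            · refine ⟨j, ?_, ?_⟩
              · simp only [Finset.mem_filter, Finset.mem_univ, true_and]
                exact huj
              · simp only [Finset.mem_filter, Finset.mem_univ, true_and, not_not]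
                exact hvj
            · intro i hi
              simp only [Finset.mem_filter, Finset.mem_univ, true_and] at hi ⊢
              exact hvu i hi
          have := Finset.card_lt_card hss
          omega
        set w : ι → F := fun i => D (u' i) with hw
        have hwU : w ∈ U := hU u' hu'U
        have hwi : w i0 = 0 := by
          simp only [hw, hu'i]
          exact D.map_one_eq_zero
        have hwsub : ∀ i, w i ≠ 0 → u' i ≠ 0 := by
          intro i hi h0
          apply hi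
          simp only [hw, h0]
          exact D.map_zero
        have hwS : w ∈ S := ih w hwU (small w i0 hi0 hwi (fun i hi => hsub i (hwsub i hi)))
        by_cases hw0 : w = 0
        · -- `u'` is constant
          apply Submodule.subset_span
          refine ⟨hu'U, ?_⟩
          have : ∀ i, ∃ c : ℂ, u' i = algebraMap ℂ F c := fun i => hker _ (congrFun hw0 i)
          choose c hc using this
          exact ⟨c, funext hc⟩
        · obtain ⟨j, hj⟩ : ∃ j, w j ≠ 0 := by
            by_contra hcon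
            push Not at hcon
            exact hw0 (funext hcon)
          set v : ι → F := u' - (u' j / w j) • w with hv
          have hvU : v ∈ U := U.sub_mem hu'U (U.smul_mem _ hwU)
          have hvj : v j = 0 := by
            simp only [hv, Pi.sub_apply, Pi.smul_apply, smul_eq_mul]
            rw [div_mul_cancel₀ _ hj, sub_self]
          have hvsub : ∀ i, v i ≠ 0 → u i ≠ 0 := by
            intro i hi
            by_contra h0
            apply hi
            have h1 : u' i = 0 := by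
              by_contra h
              exact hsub i h h0
            have h2 : w i = 0 := by
              by_contra h
              exact hwsub i h h1
            simp only [hv, Pi.sub_apply, Pi.smul_apply, smul_eq_mul, h1, h2, mul_zero, sub_zero]
          have hvS : v ∈ S := ih v hvU (small v j (hsub j (hwsub j hj)) hvj hvsub)
          have : u' = v + (u' j / w j) • w := by
            rw [hv, sub_add_cancel]
          rw [this]
          exact S.add_mem hvS (S.smul_mem _ hwS)
    intro u hu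
    exact key _ u hu le_rfl
  · rw [hS, Submodule.span_le]
    rintro u ⟨hu, -⟩
    exact hu

/-! ### GOUR -/

section Goursat

theorem vec3_eq (y : Fin 3 → ℂ) :
    y = y 0 • ![1, 0, 0] + y 1 • ![0, 1, 0] + y 2 • ![0, 0, 1] := by
  funext i
  fin_cases i <;> simp

theorem submodule_eq_top_of_basis (I : Submodule ℂ (Fin 3 → ℂ)) (h0 : ![1, 0, 0] ∈ I)
    (h1 : ![0, 1, 0] ∈ I) (h2 : ![0, 0, 1] ∈ I) : I = ⊤ := by
  rw [eq_top_iff]
  intro y _
  rw [vec3_eq y]
  exact I.add_mem (I.add_mem (I.smul_mem _ h0) (I.smul_mem _ h1)) (I.smul_mem _ h2)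

theorem br01 : br (F := ℂ) ![1, 0, 0] ![0, 1, 0] = ![1, 0, 0] := by
  funext i
  fin_cases i <;> simp [br]

theorem br02 : br (F := ℂ) ![1, 0, 0] ![0, 0, 1] = (2 : ℂ) • ![0, 1, 0] := by
  funext i
  fin_cases i <;> simp [br]

theorem br12 : br (F := ℂ) ![0, 1, 0] ![0, 0, 1] = ![0, 0, 1] := by
  funext i
  fin_cases i <;> simp [br]

/-- A submodule containing all brackets is everything. -/
theorem eq_top_of_br (I : Submodule ℂ (Fin 3 → ℂ)) (h : ∀ x y, br x y ∈ I) : I = ⊤ := by
  apply submodule_eq_top_of_basis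
  · rw [← br01]
    exact h _ _
  · have := h ![1, 0, 0] ![0, 0, 1]
    rw [br02] at this
    have h2 := I.smul_mem (2 : ℂ)⁻¹ this
    rwa [smul_smul, inv_mul_cancel₀ (two_ne_zero), one_smul] at h2
  · rw [← br12]
    exact h _ _

/-- `sl₂` is simple. -/
theorem ideal_bot_or_top (I : Submodule ℂ (Fin 3 → ℂ)) (h : ∀ x, ∀ y ∈ I, br x y ∈ I) :
    I = ⊥ ∨ I = ⊤ := by
  by_cases hb : I = ⊥
  · exact Or.inl hb
  right
  obtain ⟨y, hy, hy0⟩ := Submodule.exists_mem_ne_zero_of_ne_bot hb
  -- it suffices to have `e₀` or `e₂` in `I`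
  have from0 : ![1, 0, 0] ∈ I → I = ⊤ := by
    intro h0
    have h1 : ![0, 1, 0] ∈ I := by
      have e : br (F := ℂ) ![0, 0, 1] ![1, 0, 0] = (-2 : ℂ) • ![0, 1, 0] := by
        funext i
        fin_cases i <;> simp [br]
      have := h ![0, 0, 1] _ h0
      rw [e] at this
      have h2 := I.smul_mem (-2 : ℂ)⁻¹ this
      rwa [smul_smul, inv_mul_cancel₀ (by norm_num), one_smul] at h2
    refine submodule_eq_top_of_basis I h0 h1 ?_
    have e : br (F := ℂ) ![0, 0, 1] ![0, 1, 0] = (-1 : ℂ) • ![0, 0, 1] := by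
      funext i
      fin_cases i <;> simp [br]
    have := h ![0, 0, 1] _ h1
    rw [e] at this
    have h2 := I.smul_mem (-1 : ℂ) this
    rwa [smul_smul, neg_one_mul, neg_neg, one_smul] at h2
  have from2 : ![0, 0, 1] ∈ I → I = ⊤ := by
    intro h0
    apply from0
    have h1 : ![0, 1, 0] ∈ I := by
      have := h ![1, 0, 0] _ h0
      rw [br02] at this
      have h2 := I.smul_mem (2 : ℂ)⁻¹ this
      rwa [smul_smul, inv_mul_cancel₀ (two_ne_zero), one_smul] at h2
    rw [← br01]
    exact h _ _ h1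
  have e00 : br ![1, 0, 0] (br ![1, 0, 0] y) = (2 * y 2) • ![1, 0, 0] := by
    funext i
    fin_cases i <;> simp [br]
  have e22 : br ![0, 0, 1] (br ![0, 0, 1] y) = (2 * y 0) • ![0, 0, 1] := by
    funext i
    fin_cases i <;> simp [br]
  by_cases h2 : y 2 = 0
  · by_cases h0 : y 0 = 0
    · -- y = (0, b, 0)
      have h1 : y 1 ≠ 0 := by
        intro h1
        apply hy0
        funext i
        fin_cases i
        · exact h0
        · exact h1
        · exact h2
      apply from0
      have e : br ![1, 0, 0] y = (y 1) • ![1, 0, 0] := by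
        funext i
        fin_cases i <;> simp [br, h2]
      have := h ![1, 0, 0] _ hy
      rw [e] at this
      have h3 := I.smul_mem (y 1)⁻¹ this
      rwa [smul_smul, inv_mul_cancel₀ h1, one_smul] at h3
    · apply from2
      have := h ![0, 0, 1] _ (h ![0, 0, 1] _ hy)
      rw [e22] at this
      have h3 := I.smul_mem (2 * y 0)⁻¹ this
      rwa [smul_smul, inv_mul_cancel₀ (mul_ne_zero two_ne_zero h0), one_smul] at h3
  · apply from0
    have := h ![1, 0, 0] _ (h ![1, 0, 0] _ hy)
    rw [e00] at this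
    have h3 := I.smul_mem (2 * y 2)⁻¹ this
    rwa [smul_smul, inv_mul_cancel₀ (mul_ne_zero two_ne_zero h2), one_smul] at h3

theorem br_zero_left (y : Fin 3 → ℂ) : br 0 y = 0 := by
  funext i
  fin_cases i <;> simp [br]

theorem br_zero_right (y : Fin 3 → ℂ) : br y 0 = 0 := by
  funext i
  fin_cases i <;> simp [br]

theorem specGour : SpecGour := by
  classical
  intro ι _ 𝔥 hbr honto
  have : Fintype ι := Fintype.ofFinite ι
  -- values at `i` of the elements vanishing on `S`
  let A : ι → Finset ι → Submodule ℂ (Fin 3 → ℂ) := fun i S =>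
    { carrier := {x | ∃ u ∈ 𝔥, (∀ k ∈ S, u k = 0) ∧ u i = x}
      add_mem' := by
        rintro x y ⟨u, hu, huS, rfl⟩ ⟨v, hv, hvS, rfl⟩
        refine ⟨u + v, 𝔥.add_mem hu hv, ?_, rfl⟩
        intro k hk
        rw [Pi.add_apply, huS k hk, hvS k hk, add_zero]
      zero_mem' := ⟨0, 𝔥.zero_mem, fun k _ => rfl, rfl⟩
      smul_mem' := by
        rintro c x ⟨u, hu, huS, rfl⟩
        refine ⟨c • u, 𝔥.smul_mem c hu, ?_, rfl⟩
        intro k hk
        rw [Pi.smul_apply, huS k hk, smul_zero] }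
  have hA : ∀ i S x, x ∈ A i S ↔ ∃ u ∈ 𝔥, (∀ k ∈ S, u k = 0) ∧ u i = x := fun i S x => Iff.rfl
  have hideal : ∀ i k, ∀ x, ∀ y ∈ A k {i}, br x y ∈ A k {i} := by
    intro i k x y hy
    obtain ⟨v, hv, hvi, rfl⟩ := (hA _ _ _).1 hy
    obtain ⟨u, hu, rfl⟩ := honto k x
    refine (hA _ _ _).2 ⟨_, hbr u hu v hv, ?_, rfl⟩
    intro j hj
    rw [hvi j hj, br_zero_right]
  by_cases hall : ∀ i k, i ≠ k → A k {i} = ⊤
  · left
    have claim : ∀ S : Finset ι, ∀ i, i ∉ S → A i S = ⊤ := by
      intro S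
      induction S using Finset.induction_on with
      | empty =>
        intro i _
        rw [eq_top_iff]
        intro x _
        obtain ⟨u, hu, hux⟩ := honto i x
        exact (hA _ _ _).2 ⟨u, hu, by simp, hux⟩
      | insert k S hkS ih =>
        intro i hi
        have hik : k ≠ i := by
          rintro rfl
          exact hi (Finset.mem_insert_self _ _)
        have hiS : i ∉ S := fun h => hi (Finset.mem_insert_of_mem h)
        apply eq_top_of_br
        intro x y
        have hx : x ∈ A i S := by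
          rw [ih i hiS]
          trivial
        have hy : y ∈ A i {k} := by
          rw [hall k i hik]
          trivial
        obtain ⟨u, hu, huS, rfl⟩ := (hA _ _ _).1 hx
        obtain ⟨v, hv, hvk, rfl⟩ := (hA _ _ _).1 hy
        refine (hA _ _ _).2 ⟨_, hbr u hu v hv, ?_, rfl⟩
        intro j hj
        rcases Finset.mem_insert.1 hj with rfl | hj
        · rw [hvk _ (Finset.mem_singleton_self _), br_zero_right]
        · rw [huS j hj, br_zero_left]
    have hsingle : ∀ i x, (Pi.single i x : ι → Fin 3 → ℂ) ∈ 𝔥 := by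
      intro i x
      have hx : x ∈ A i (Finset.univ.erase i) := by
        rw [claim _ i (Finset.notMem_erase _ _)]
        trivial
      obtain ⟨u, hu, huS, hux⟩ := (hA _ _ _).1 hx
      have : u = Pi.single i x := by
        funext k
        by_cases hk : k = i
        · subst hk
          rw [Pi.single_eq_same, hux]
        · rw [Pi.single_eq_of_ne hk, huS k (Finset.mem_erase.2 ⟨hk, Finset.mem_univ _⟩)]
      rwa [← this]
    rw [eq_top_iff]
    intro u _
    rw [← Finset.univ_sum_single u]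
    exact 𝔥.sum_mem (fun i _ => hsingle i (u i))
  · right
    push Not at hall
    obtain ⟨i, k, hik, hne⟩ := hall
    have hbot : A k {i} = ⊥ := (ideal_bot_or_top _ (hideal i k)).resolve_right hne
    refine ⟨i, k, hik, ?_⟩
    have hker : ∀ u ∈ 𝔥, u i = 0 → u k = 0 := by
      intro u hu hui
      have : u k ∈ A k {i} := (hA _ _ _).2 ⟨u, hu, by simpa using hui, rfl⟩
      rw [hbot] at this
      exact (Submodule.mem_bot ℂ).1 this
    -- the graph map
    choose g hg hgi using honto i
    have hgk : ∀ u ∈ 𝔥, ∀ x, u i = x → u k = g x k := by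
      intro u hu x hx
      have h1 : (u - g x) k = 0 := by
        apply hker _ (𝔥.sub_mem hu (hg x))
        rw [Pi.sub_apply, hgi, hx, sub_self]
      rw [Pi.sub_apply, sub_eq_zero] at h1
      exact h1
    let φ0 : (Fin 3 → ℂ) →ₗ[ℂ] (Fin 3 → ℂ) :=
      { toFun := fun x => g x k
        map_add' := by
          intro x y
          have := hgk (g x + g y) (𝔥.add_mem (hg x) (hg y)) (x + y)
            (by rw [Pi.add_apply, hgi, hgi])
          rw [← this, Pi.add_apply]
        map_smul' := by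
          intro c x
          have := hgk (c • g x) (𝔥.smul_mem c (hg x)) (c • x) (by rw [Pi.smul_apply, hgi])
          rw [← this, Pi.smul_apply, RingHom.id_apply] }
    have hφ0 : ∀ u ∈ 𝔥, u k = φ0 (u i) := fun u hu => hgk u hu _ rfl
    have hsurj : Function.Surjective φ0 := by
      intro y
      obtain ⟨u, hu, rfl⟩ := honto k y
      exact ⟨u i, (hφ0 u hu).symm⟩
    have hinj : Function.Injective φ0 := LinearMap.injective_iff_surjective.2 hsurj
    have hbij : Function.Bijective φ0 := ⟨hinj, hsurj⟩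
    refine ⟨LinearEquiv.ofBijective φ0 hbij, ?_, ?_⟩
    · intro x y
      have := hφ0 _ (hbr (g x) (hg x) (g y) (hg y))
      simp only [hgi] at this
      change φ0 (br x y) = br (φ0 x) (φ0 y)
      rw [← this]
      rfl
    · intro u hu
      exact hφ0 u hu

end Goursat

end Pool.Agent.Lib.MP_47914d_nt
end

section
/-!
LINKA: linked germs differ by a constant Möbius transformation.
-/
set_option autoImplicit false

open Complex Filter Topology

namespace Pool.Agent.Lib.MP_47914d_nt

namespace LinkA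

lemma push {θ : ℂ} {ζ : ℂ → ℂ} (hζ : AnalyticAt ℂ ζ θ) (hn : ¬ ∀ᶠ t in 𝓝 θ, ζ t = ζ θ)
    {p : ℂ → Prop} (h : ∀ᶠ t in 𝓝 θ, p (ζ t)) : ∀ᶠ w in 𝓝 (ζ θ), p w := by
  rcases hζ.eventually_constant_or_nhds_le_map_nhds with h1 | h1
  · exact absurd h1 hn
  · exact h1 h

lemma eval_aeval' {σ τ : Type} (P : MvPolynomial σ ℂ) (u : σ → MvPolynomial τ ℂ) (f : τ → ℂ) :
    MvPolynomial.eval f (MvPolynomial.aeval u P)
      = MvPolynomial.eval (fun i => MvPolynomial.eval f (u i)) P := by
  induction P using MvPolynomial.induction_on with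
  | C a => simp
  | add p q hp hq => simp only [map_add, hp, hq]
  | mul_X p i hp => simp only [map_mul, hp, MvPolynomial.aeval_X, MvPolynomial.eval_X]

lemma eval_analytic {σ : Type} (P : MvPolynomial σ ℂ) {θ : ℂ} (f : σ → ℂ → ℂ)
    (hf : ∀ j, AnalyticAt ℂ (f j) θ) :
    AnalyticAt ℂ (fun x => MvPolynomial.eval (fun j => f j x) P) θ := by
  induction P using MvPolynomial.induction_on with
  | C a => simp only [MvPolynomial.eval_C]; exact analyticAt_const
  | add p q hp hq => simp only [map_add]; exact hp.add hq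
  | mul_X p i hp =>
    simp only [map_mul, MvPolynomial.eval_X]
    exact hp.mul (hf i)

/-- The identity `φ (v) ∘ g = g ∘ v` for the first basis vector. -/
lemma mob_e0 (α β γ δ s z c : ℂ) (hdet : α * δ - β * γ = 1) (hk : γ * z + δ ≠ 0)
    (hc : (γ * z + δ) * c = α * z + β) :
    mob ![α ^ 2, -2 * α * γ, γ ^ 2] s c
      = (α * mob ![1, 0, 0] s z + β) / (γ * mob ![1, 0, 0] s z + δ) := by
  have e1 : mob ![1, 0, 0] s z = z + s := by
    simp [mob, den]
  rw [e1]
  have h1 : mob ![α ^ 2, -2 * α * γ, γ ^ 2] s c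
      = ((1 - s * α * γ) * c + s * α ^ 2) / (1 + s * α * γ - s * γ ^ 2 * c) := by
    simp only [mob, den, Matrix.cons_val_zero, Matrix.cons_val_one, Matrix.cons_val]
    congr 1 <;> ring
  rw [h1, ← mul_div_mul_left _ _ hk]
  congr 1
  · linear_combination (1 - s * α * γ) * hc + s * α * hdet
  · linear_combination (-s * γ ^ 2) * hc + s * γ * hdet

/-- The identity `φ (v) ∘ g = g ∘ v` for the last basis vector. -/
lemma mob_e2 (α β γ δ s z c : ℂ) (hdet : α * δ - β * γ = 1) (hk : γ * z + δ ≠ 0)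
    (hc : (γ * z + δ) * c = α * z + β) (hs : 1 - s * z ≠ 0) :
    mob ![β ^ 2, -2 * β * δ, δ ^ 2] s c
      = (α * mob ![0, 0, 1] s z + β) / (γ * mob ![0, 0, 1] s z + δ) := by
  have e1 : mob ![0, 0, 1] s z = z / (1 - s * z) := by
    simp [mob, den]
  rw [e1]
  have h1 : mob ![β ^ 2, -2 * β * δ, δ ^ 2] s c
      = ((1 - s * β * δ) * c + s * β ^ 2) / (1 + s * β * δ - s * δ ^ 2 * c) := by
    simp only [mob, den, Matrix.cons_val_zero, Matrix.cons_val_one, Matrix.cons_val]
    congr 1 <;> ring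
  have h2 : (α * (z / (1 - s * z)) + β) / (γ * (z / (1 - s * z)) + δ)
      = (α * z + β * (1 - s * z)) / (γ * z + δ * (1 - s * z)) := by
    rw [← mul_div_mul_left _ _ hs]
    congr 1
    · field_simp
    · field_simp
  rw [h1, h2, ← mul_div_mul_left _ _ hk]
  congr 1
  · linear_combination (1 - s * β * δ) * hc - s * β * z * hdet
  · linear_combination (-s * δ ^ 2) * hc - s * δ * z * hdet

lemma linkedM_of (ψ : (Fin 3 → ℂ) → (Fin 3 → ℂ)) (α β γ δ θ : ℂ) (z1 z2 : ℂ → ℂ)
    (hdet : α * δ - β * γ = 1)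
    (h1 : AnalyticAt ℂ z1 θ) (hn : ¬ ∀ᶠ t in 𝓝 θ, z1 t = z1 θ)
    (hrel : ∀ᶠ t in 𝓝 θ, (γ * z1 t + δ) * z2 t = α * z1 t + β)
    (h0 : ψ ![1, 0, 0] = ![α ^ 2, -2 * α * γ, γ ^ 2])
    (h2 : ψ ![0, 0, 1] = ![β ^ 2, -2 * β * δ, δ ^ 2])
    (rel : ∃ P : MvPolynomial (Fin 5) ℂ, P ≠ 0 ∧ ∀ᶠ t in 𝓝 θ, ∀ v, Nilp v →
      ∀ᶠ s in 𝓝 (0 : ℂ), MvPolynomial.eval ![z1 t, Pfl v s (z1 t), Qfl v s (z1 t),
        Rfl v s (z1 t), Jc (mob (ψ v) s (z2 t))] P = 0) : LinkedM α β γ δ (z1 θ) := by
  obtain ⟨P, hP, hrelP⟩ := rel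
  refine ⟨P, hP, fun v hv => ?_⟩
  apply push h1 hn
  filter_upwards [hrelP, hrel] with t ht htr
  have hk : γ * z1 t + δ ≠ 0 := by
    intro h0
    have h3 : α * z1 t + β = 0 := by rw [← htr, h0, zero_mul]
    have : (1 : ℂ) = 0 := by
      rw [← hdet]
      linear_combination α * h0 - γ * h3
    exact one_ne_zero this
  rcases hv with rfl | rfl
  · have h3 := ht ![1, 0, 0] (by simp [Nilp])
    filter_upwards [h3] with s hs
    rw [h0, mob_e0 α β γ δ s _ _ hdet hk htr] at hs
    exact hs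
  · have h3 := ht ![0, 0, 1] (by simp [Nilp])
    have h4 : ∀ᶠ s : ℂ in 𝓝 0, 1 - s * z1 t ≠ 0 := by
      have hc : ContinuousAt (fun s : ℂ => 1 - s * z1 t) 0 := by fun_prop
      apply hc.eventually_ne
      simp
    filter_upwards [h3, h4] with s hs hs1
    rw [h2, mob_e2 α β γ δ s _ _ hdet hk htr hs1] at hs
    exact hs

/-- The nilpotent vector vanishing doubly at `a`. -/
lemma special (a s : ℂ) :
    den ![a ^ 2, -2 * a, 1] s a = 1 ∧ mob ![a ^ 2, -2 * a, 1] s a = a := by
  have h1 : den ![a ^ 2, -2 * a, 1] s a = 1 := by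
    simp only [den, Matrix.cons_val_one, Matrix.cons_val]
    ring
  refine ⟨h1, ?_⟩
  rw [mob, h1]
  simp only [Matrix.cons_val_zero, Matrix.cons_val_one]
  ring

/-- The key step: off the graph of `g` the relation is trivial in two variables. -/
lemma trivial_rel (hF : SpecFunc) (P : MvPolynomial (Fin 5) ℂ) (a c : ℂ) (w : Fin 3 → ℂ)
    (hc : 0 < c.im) (hE : om0 w c ≠ 0)
    (h : ∀ᶠ s in 𝓝 (0 : ℂ), MvPolynomial.eval ![a, Pfl ![a ^ 2, -2 * a, 1] s a,
      Qfl ![a ^ 2, -2 * a, 1] s a, Rfl ![a ^ 2, -2 * a, 1] s a, Jc (mob w s c)] P = 0)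
    (x y : ℂ) : MvPolynomial.eval ![a, x, Qc a, Rc a, y] P = 0 := by
  set R : MvPolynomial (Option (Fin 1)) ℂ := MvPolynomial.aeval
    ![MvPolynomial.C a, MvPolynomial.C (Pc a) + MvPolynomial.X none, MvPolynomial.C (Qc a),
      MvPolynomial.C (Rc a), MvPolynomial.X (some 0)] P with hR
  have hev : ∀ f : Option (Fin 1) → ℂ, MvPolynomial.eval f R
      = MvPolynomial.eval ![a, Pc a + f none, Qc a, Rc a, f (some 0)] P := by
    intro f
    rw [hR, eval_aeval']
    congr 2
    ext i
    fin_cases i <;> simp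
  by_contra hne
  have hR0 : R ≠ 0 := by
    intro h0
    have := hev (fun o => o.elim (x - Pc a) (fun _ => y))
    rw [h0, map_zero] at this
    apply hne
    rw [this]
    congr 2
    simp
  refine hF 1 (fun _ => w 0 + c * w 1 / 2) (fun _ => c) (fun _ => -(w 1 / 2 + w 2 * c))
    (fun _ => 1) 0 (fun _ => ?_) (fun _ => ?_) (fun i k hik => absurd (Subsingleton.elim i k) hik)
    R hR0 ?_
  · intro h0
    apply hE
    rw [om0]
    linear_combination h0
  · simp [Qf, hc]
  · filter_upwards [h] with s hs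
    rw [hev]
    simp only [Option.elim]
    obtain ⟨hd, hm⟩ := special a s
    have e1 : Pfl ![a ^ 2, -2 * a, 1] s a = Pc a + s := by
      rw [Pfl, hd, hm]
      simp
    have e2 : Qfl ![a ^ 2, -2 * a, 1] s a = Qc a := by
      rw [Qfl, hd, hm]
      simp
    have e3 : Rfl ![a ^ 2, -2 * a, 1] s a = Rc a := by
      rw [Rfl, hd, hm]
      simp
    have e4 : mob w s c = ((w 0 + c * w 1 / 2) * s + c) / (-(w 1 / 2 + w 2 * c) * s + 1) := by
      rw [mob, den]
      congr 1 <;> ring
    rw [e1, e2, e3, e4] at hs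
    exact hs

/-- Linked germs lie on the graph of a Möbius transformation. -/
lemma graph (h : SpecRam) (hM : SpecMahler) (hF : SpecFunc)
    (φ : (Fin 3 → ℂ) ≃ₗ[ℂ] (Fin 3 → ℂ)) (θ : ℂ) (z1 z2 : ℂ → ℂ)
    (h1 : AnalyticAt ℂ z1 θ) (h2 : AnalyticAt ℂ z2 θ) (him1 : 0 < (z1 θ).im)
    (him2 : 0 < (z2 θ).im) (hn : ¬ ∀ᶠ t in 𝓝 θ, z1 t = z1 θ) (hL : Linked φ θ z1 z2) :
    ∀ᶠ t in 𝓝 θ, om0 (φ ![z1 t ^ 2, -2 * z1 t, 1]) (z2 t) = 0 := by
  set E : ℂ → ℂ := fun t => om0 (φ ![z1 t ^ 2, -2 * z1 t, 1]) (z2 t) with hE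
  have hlin : ∀ a : ℂ, φ ![a ^ 2, -2 * a, 1]
      = a ^ 2 • φ ![1, 0, 0] + (-2 * a) • φ ![0, 1, 0] + φ ![0, 0, 1] := by
    intro a
    rw [← map_smul, ← map_smul, ← map_add, ← map_add]
    congr 1
    ext i
    fin_cases i <;> simp
  have hEan : AnalyticAt ℂ E θ := by
    have e : E = fun t =>
        (z1 t ^ 2 * φ ![1, 0, 0] 0 + (-2 * z1 t) * φ ![0, 1, 0] 0 + φ ![0, 0, 1] 0)
        + (z1 t ^ 2 * φ ![1, 0, 0] 1 + (-2 * z1 t) * φ ![0, 1, 0] 1 + φ ![0, 0, 1] 1) * z2 t
        + (z1 t ^ 2 * φ ![1, 0, 0] 2 + (-2 * z1 t) * φ ![0, 1, 0] 2 + φ ![0, 0, 1] 2)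
          * z2 t ^ 2 := by
      ext t
      simp only [hE, hlin, om0, Pi.add_apply, Pi.smul_apply, smul_eq_mul]
    rw [e]
    fun_prop
  rcases hEan.eventually_eq_zero_or_eventually_ne_zero with hz | hz
  · exact hz
  exfalso
  obtain ⟨P, hP, hrel⟩ := hL.rel
  obtain ⟨x, hx⟩ : ∃ x : Fin 5 → ℂ, MvPolynomial.eval x P ≠ 0 := by
    by_contra hno
    push Not at hno
    exact hP (MvPolynomial.funext fun x => by rw [hno, map_zero])
  set R : MvPolynomial (Fin 4) ℂ := MvPolynomial.aeval
    ![MvPolynomial.X 0, MvPolynomial.X 1, MvPolynomial.X 2, MvPolynomial.X 3,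
      MvPolynomial.C (x 4)] P with hR
  have hev : ∀ f : Fin 4 → ℂ, MvPolynomial.eval f R
      = MvPolynomial.eval ![f 0, f 1, f 2, f 3, x 4] P := by
    intro f
    rw [hR, eval_aeval']
    congr 2
    ext i
    fin_cases i <;> simp
  have hR0 : R ≠ 0 := by
    intro h0
    have := hev ![x 0, x 1, x 2, x 3]
    rw [h0, map_zero] at this
    apply hx
    rw [this]
    congr 2
    ext i
    fin_cases i <;> simp
  have him2' : ∀ᶠ t in 𝓝 θ, 0 < (z2 t).im :=
    h2.continuousAt.eventually
      ((isOpen_lt continuous_const Complex.continuous_im).mem_nhds him2)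
  have him1' : ∀ᶠ t in 𝓝 θ, 0 < (z1 t).im :=
    h1.continuousAt.eventually
      ((isOpen_lt continuous_const Complex.continuous_im).mem_nhds him1)
  -- the relation on a punctured neighbourhood
  set g : ℂ → ℂ := fun t =>
    MvPolynomial.eval ![z1 t, Pc (z1 t), Qc (z1 t), Rc (z1 t)] R with hg
  have hpunct : ∀ᶠ t in 𝓝[≠] θ, g t = 0 := by
    filter_upwards [hz, hrel.filter_mono nhdsWithin_le_nhds,
      him2'.filter_mono nhdsWithin_le_nhds] with t ht htr him
    rw [hg]
    simp only
    rw [hev]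
    simp only [Matrix.cons_val_zero, Matrix.cons_val_one, Matrix.cons_val]
    exact trivial_rel hF P (z1 t) (z2 t) _ him ht
      (htr ![z1 t ^ 2, -2 * z1 t, 1] (by simp [Nilp]; ring)) _ _
  have hgan : AnalyticAt ℂ g θ := by
    have hPan : AnalyticAt ℂ (fun t => Pc (z1 t)) θ := by
      refine AnalyticAt.comp (g := Pc) ?_ h1
      rw [Complex.analyticAt_iff_eventually_differentiableAt]
      filter_upwards [(isOpen_lt continuous_const Complex.continuous_im).mem_nhds him1] with w hw
      exact (h.derivP w hw).differentiableAt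
    have hQan : AnalyticAt ℂ (fun t => Qc (z1 t)) θ := by
      refine AnalyticAt.comp (g := Qc) ?_ h1
      rw [Complex.analyticAt_iff_eventually_differentiableAt]
      filter_upwards [(isOpen_lt continuous_const Complex.continuous_im).mem_nhds him1] with w hw
      exact (h.derivQ w hw).differentiableAt
    have hRan : AnalyticAt ℂ (fun t => Rc (z1 t)) θ := by
      refine AnalyticAt.comp (g := Rc) ?_ h1
      rw [Complex.analyticAt_iff_eventually_differentiableAt]
      filter_upwards [(isOpen_lt continuous_const Complex.continuous_im).mem_nhds him1] with w hw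
      exact (h.derivR w hw).differentiableAt
    have e : g = fun t => MvPolynomial.eval (fun i => (![z1, fun t => Pc (z1 t),
        fun t => Qc (z1 t), fun t => Rc (z1 t)] : Fin 4 → ℂ → ℂ) i t) R := by
      ext t
      rw [hg]
      simp only
      congr 2
      ext i
      fin_cases i <;> rfl
    rw [e]
    have hall : ∀ i, AnalyticAt ℂ ((![z1, fun t => Pc (z1 t),
        fun t => Qc (z1 t), fun t => Rc (z1 t)] : Fin 4 → ℂ → ℂ) i) θ := by
      intro i
      fin_cases i
      · exact h1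
      · exact hPan
      · exact hQan
      · exact hRan
    exact eval_analytic R _ hall
  have hgz : ∀ᶠ t in 𝓝 θ, g t = 0 := by
    rcases hgan.eventually_eq_zero_or_eventually_ne_zero with h3 | h3
    · exact h3
    · exfalso
      obtain ⟨t, ht1, ht2⟩ := (hpunct.and h3).exists
      exact ht2 ht1
  exact hM (z1 θ) him1 R hR0 (push h1 hn (p := fun w =>
    MvPolynomial.eval ![w, Pc w, Qc w, Rc w] R = 0) hgz)

end LinkA

open LinkA in
theorem specLinkA (h : SpecRam) (hM : SpecMahler) (hF : SpecFunc) (hA : SpecAut) : SpecLinkA := by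
  intro φ θ z1 z2 h1 h2 him1 him2 hn1 hn2 hL
  obtain ⟨α, β, γ, δ, hdet, e0, e1, e2⟩ := hA φ hL.br
  have hgr := graph h hM hF φ θ z1 z2 h1 h2 him1 him2 hn1 hL
  have hlin : ∀ a : ℂ, φ ![a ^ 2, -2 * a, 1]
      = a ^ 2 • φ ![1, 0, 0] + (-2 * a) • φ ![0, 1, 0] + φ ![0, 0, 1] := by
    intro a
    rw [← map_smul, ← map_smul, ← map_add, ← map_add]
    congr 1
    ext i
    fin_cases i <;> simp
  have hrel : ∀ᶠ t in 𝓝 θ, (γ * z1 t + δ) * z2 t = α * z1 t + β := by
    filter_upwards [hgr] with t ht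
    have : ((γ * z1 t + δ) * z2 t - (α * z1 t + β)) ^ 2 = 0 := by
      rw [← ht, hlin, e0, e1, e2]
      simp only [om0, Pi.add_apply, Pi.smul_apply, smul_eq_mul, Matrix.cons_val_zero,
        Matrix.cons_val_one, Matrix.cons_val]
      ring
    have h3 := pow_eq_zero_iff (by norm_num) |>.mp this
    exact sub_eq_zero.mp h3
  have hrel' : ∀ᶠ t in 𝓝 θ, (-γ * z2 t + α) * z1 t = δ * z2 t + -β := by
    filter_upwards [hrel] with t ht
    linear_combination -ht
  have s0 : φ.symm ![1, 0, 0] = ![δ ^ 2, -2 * δ * -γ, (-γ) ^ 2] := by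
    rw [LinearEquiv.symm_apply_eq]
    have e : (![δ ^ 2, -2 * δ * -γ, (-γ) ^ 2] : Fin 3 → ℂ)
        = δ ^ 2 • ![1, 0, 0] + (2 * δ * γ) • ![0, 1, 0] + γ ^ 2 • ![0, 0, 1] := by
      ext i
      fin_cases i <;> simp
    rw [e, map_add, map_add, map_smul, map_smul, map_smul, e0, e1, e2]
    ext i
    fin_cases i
    · simp
      linear_combination (-(α * δ - β * γ) - 1) * hdet
    · simp
      ring
    · simp
      ring
  have s2 : φ.symm ![0, 0, 1] = ![(-β) ^ 2, -2 * -β * α, α ^ 2] := by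
    rw [LinearEquiv.symm_apply_eq]
    have e : (![(-β) ^ 2, -2 * -β * α, α ^ 2] : Fin 3 → ℂ)
        = β ^ 2 • ![1, 0, 0] + (2 * α * β) • ![0, 1, 0] + α ^ 2 • ![0, 0, 1] := by
      ext i
      fin_cases i <;> simp
      ring
    rw [e, map_add, map_add, map_smul, map_smul, map_smul, e0, e1, e2]
    ext i
    fin_cases i
    · simp
      ring
    · simp
      ring
    · simp
      linear_combination (-(α * δ - β * γ) - 1) * hdet
  refine ⟨α, β, γ, δ, hdet, hrel, ?_, ?_⟩
  · exact linkedM_of φ α β γ δ θ z1 z2 hdet h1 hn1 hrel e0 e2 hL.rel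
  · exact linkedM_of φ.symm δ (-β) (-γ) α θ z2 z1 (by linear_combination hdet) h2 hn2 hrel' s0 s2
      hL.rel'

end Pool.Agent.Lib.MP_47914d_nt
end

section
/-!
LINKC: a linked Möbius transformation is rational up to a scalar.
-/
set_option autoImplicit false

open UpperHalfPlane hiding I
open ModularForm Complex Polynomial Filter Topology
open scoped Real MatrixGroups

namespace Pool.Agent.Lib.MP_47914d_nt

namespace LinkC

theorem isOpen_H : IsOpen {w : ℂ | 0 < w.im} := isOpen_lt continuous_const Complex.continuous_im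

theorem preconn_H : IsPreconnected {w : ℂ | 0 < w.im} := (convex_halfSpace_im_gt 0).isPreconnected

theorem anJ (hJ : SpecJ) {w : ℂ} (hw : 0 < w.im) : AnalyticAt ℂ Jc w :=
  (hJ.holo.analyticOnNhd isOpen_H) w hw

theorem diffP (h : SpecRam) : DifferentiableOn ℂ Pc {w : ℂ | 0 < w.im} :=
  fun w hw => (h.derivP w hw).differentiableAt.differentiableWithinAt

theorem diffQ (h : SpecRam) : DifferentiableOn ℂ Qc {w : ℂ | 0 < w.im} :=
  fun w hw => (h.derivQ w hw).differentiableAt.differentiableWithinAt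

theorem diffR (h : SpecRam) : DifferentiableOn ℂ Rc {w : ℂ | 0 < w.im} :=
  fun w hw => (h.derivR w hw).differentiableAt.differentiableWithinAt

theorem anP (h : SpecRam) {w : ℂ} (hw : 0 < w.im) : AnalyticAt ℂ Pc w :=
  ((diffP h).analyticOnNhd isOpen_H) w hw

theorem anQ (h : SpecRam) {w : ℂ} (hw : 0 < w.im) : AnalyticAt ℂ Qc w :=
  ((diffQ h).analyticOnNhd isOpen_H) w hw

theorem anR (h : SpecRam) {w : ℂ} (hw : 0 < w.im) : AnalyticAt ℂ Rc w :=
  ((diffR h).analyticOnNhd isOpen_H) w hw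

theorem an_eval {n : ℕ} (P : MvPolynomial (Fin n) ℂ) {f : ℂ → Fin n → ℂ} {z : ℂ}
    (hf : ∀ i, AnalyticAt ℂ (fun x => f x i) z) :
    AnalyticAt ℂ (fun x => MvPolynomial.eval (f x) P) z := by
  have := AnalyticAt.aeval_mvPolynomial (A := ℂ) hf P
  simpa [MvPolynomial.coe_aeval_eq_eval] using this

theorem comp_an {f g : ℂ → ℂ} {s : ℂ} (hg : AnalyticAt ℂ g s) (hf : AnalyticAt ℂ f (g s)) :
    AnalyticAt ℂ (fun x => f (g x)) s := AnalyticAt.fun_comp hf hg

theorem ne_den {a b c d : ℝ} (hdet : a * d - b * c = 1) {z : ℂ} (hz : 0 < z.im) :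
    (c : ℂ) * z + d ≠ 0 := by
  intro h
  have h1 : c * z.im = 0 := by
    have := congrArg Complex.im h
    simpa using this
  have hc : c = 0 := by
    rcases mul_eq_zero.1 h1 with h | h
    · exact h
    · exact absurd h hz.ne'
  have h2 : c * z.re + d = 0 := by
    have := congrArg Complex.re h
    simpa using this
  rw [hc] at h2 hdet
  have hd : d = 0 := by linarith
  rw [hd] at hdet
  simp at hdet

theorem im_mob {a b c d : ℝ} (hdet : a * d - b * c = 1) {z : ℂ} (hz : 0 < z.im) :
    0 < (((a : ℂ) * z + b) / ((c : ℂ) * z + d)).im := by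
  have h0 := ne_den hdet hz
  have hn : 0 < Complex.normSq ((c : ℂ) * z + d) := Complex.normSq_pos.2 h0
  rw [Complex.div_im]
  have e : ((a : ℂ) * z + b).im * ((c : ℂ) * z + d).re / Complex.normSq ((c : ℂ) * z + d)
      - ((a : ℂ) * z + b).re * ((c : ℂ) * z + d).im / Complex.normSq ((c : ℂ) * z + d)
      = z.im / Complex.normSq ((c : ℂ) * z + d) := by
    rw [← sub_div]
    congr 1
    simp
    linear_combination z.im * hdet
  rw [e]
  exact div_pos hz hn

/-- The pigeonhole argument. -/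
theorem pigeon (h : SpecRam) (hM : SpecMahler) (P : MvPolynomial (Fin 5) ℂ) (hP : P ≠ 0)
    (w : ℂ) (hw : 0 < w.im) (F : ℕ → ℂ → ℂ)
    (hF : ∀ m, AnalyticOnNhd ℂ (F m) {z : ℂ | 0 < z.im})
    (hrel : ∀ᶠ z in 𝓝 w, ∀ m, MvPolynomial.eval ![z, Pc z, Qc z, Rc z, F m z] P = 0) :
    ∃ m m' : ℕ, m ≠ m' ∧ ∀ z : ℂ, 0 < z.im → F m z = F m' z := by
  classical
  set P' : MvPolynomial (Fin 5) ℂ := MvPolynomial.rename (finRotate 5) P with hP'
  have hP'0 : P' ≠ 0 := by
    intro h0
    apply hP
    apply MvPolynomial.rename_injective _ (finRotate 5).injective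
    rw [← hP', h0, map_zero]
  set p := MvPolynomial.finSuccEquiv ℂ 4 P' with hp
  have hp0 : p ≠ 0 := by
    intro h0
    apply hP'0
    apply (MvPolynomial.finSuccEquiv ℂ 4).injective
    rw [← hp, h0, map_zero]
  have hev : ∀ x0 x1 x2 x3 y : ℂ, MvPolynomial.eval ![x0, x1, x2, x3, y] P
      = Polynomial.eval y (Polynomial.map (MvPolynomial.eval ![x0, x1, x2, x3]) p) := by
    intro x0 x1 x2 x3 y
    rw [hp, ← MvPolynomial.eval_eq_eval_mv_eval', hP', MvPolynomial.eval_rename]
    congr 2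
    ext i
    fin_cases i <;> rfl
  have hc0 : p.leadingCoeff ≠ 0 := Polynomial.leadingCoeff_ne_zero.2 hp0
  have hane : ∀ᶠ z in 𝓝[≠] w, MvPolynomial.eval ![z, Pc z, Qc z, Rc z] p.leadingCoeff ≠ 0 := by
    have han : AnalyticAt ℂ (fun z => MvPolynomial.eval ![z, Pc z, Qc z, Rc z] p.leadingCoeff) w := by
      apply an_eval
      intro i
      fin_cases i
      · exact analyticAt_id
      · exact anP h hw
      · exact anQ h hw
      · exact anR h hw
    rcases han.eventually_eq_zero_or_eventually_ne_zero with h0 | h0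
    · exact absurd h0 (hM w hw _ hc0)
    · exact h0
  set N := p.natDegree with hN
  have hpt : ∀ᶠ z in 𝓝[≠] w, ∃ q ∈ (Finset.range (N + 1)).offDiag, F q.1 z = F q.2 z := by
    filter_upwards [hane, nhdsWithin_le_nhds hrel] with z hz1 hz2
    set r := Polynomial.map (MvPolynomial.eval ![z, Pc z, Qc z, Rc z]) p with hr
    have hr0 : r ≠ 0 := by
      intro h0
      apply hz1
      have : r.coeff N = 0 := by rw [h0]; simp
      rw [hr, Polynomial.coeff_map] at this
      exact this
    have hroots : ∀ m, F m z ∈ r.roots.toFinset := by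
      intro m
      rw [Multiset.mem_toFinset, Polynomial.mem_roots hr0, Polynomial.IsRoot.def]
      have := hz2 m
      rw [hev] at this
      exact this
    have hcard : r.roots.toFinset.card < (Finset.range (N + 1)).card := by
      rw [Finset.card_range]
      have h1 := Multiset.toFinset_card_le r.roots
      have h2 := Polynomial.card_roots' r
      have h3 : r.natDegree ≤ N := Polynomial.natDegree_map_le
      omega
    obtain ⟨x, hx, y, hy, hxy, hxy'⟩ := Finset.exists_ne_map_eq_of_card_lt_of_maps_to hcard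
      (f := fun m => F m z) (fun m _ => hroots m)
    exact ⟨(x, y), by simp only [Finset.mem_offDiag]; exact ⟨hx, hy, hxy⟩, hxy'⟩
  have hfreq : ∃ q ∈ (Finset.range (N + 1)).offDiag, ∃ᶠ z in 𝓝[≠] w, F q.1 z = F q.2 z := by
    by_contra hcon
    push Not at hcon
    have h1 : ∀ q ∈ (Finset.range (N + 1)).offDiag, ∀ᶠ z in 𝓝[≠] w, ¬ F q.1 z = F q.2 z := by
      intro q hq
      exact hcon q hq
    have h2 := (Filter.eventually_all_finset _).2 h1
    obtain ⟨z, ⟨q, hq, hqz⟩, hz⟩ := (hpt.and h2).exists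
    exact hz q hq hqz
  obtain ⟨⟨m, m'⟩, hq, hfr⟩ := hfreq
  refine ⟨m, m', (Finset.mem_offDiag.1 hq).2.2, ?_⟩
  have han : AnalyticOnNhd ℂ (fun z => F m z - F m' z) {z : ℂ | 0 < z.im} := (hF m).sub (hF m')
  have heq := han.eqOn_zero_of_preconnected_of_frequently_eq_zero preconn_H hw
    (hfr.mono fun z hz => sub_eq_zero.2 hz)
  intro z hz
  exact sub_eq_zero.1 (heq hz)

/-- Translations. -/
theorem rel_T (h : SpecRam) (hJ : SpecJ) {a b c d : ℝ} (hdet : a * d - b * c = 1)
    (P : MvPolynomial (Fin 5) ℂ) (z : ℂ) (hz : 0 < z.im)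
    (hP : ∀ᶠ s in 𝓝 (0 : ℂ), MvPolynomial.eval ![z, Pfl ![1, 0, 0] s z, Qfl ![1, 0, 0] s z,
      Rfl ![1, 0, 0] s z,
      Jc (((a : ℂ) * mob ![1, 0, 0] s z + b) / ((c : ℂ) * mob ![1, 0, 0] s z + d))] P = 0)
    (m : ℕ) :
    MvPolynomial.eval ![z, Pc z, Qc z, Rc z,
      Jc (((a : ℂ) * (z + m) + b) / ((c : ℂ) * (z + m) + d))] P = 0 := by
  have hden : ∀ s, den ![1, 0, 0] s z = 1 := by intro s; simp [den]
  have hmob : ∀ s, mob ![1, 0, 0] s z = z + s := by intro s; simp [mob, hden]
  simp only [Pfl, Qfl, Rfl, hden, hmob] at hP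
  simp only [Matrix.cons_val, mul_zero, one_pow, div_one, add_zero] at hP
  set S : Set ℂ := {s : ℂ | -z.im < s.im} with hS
  have hSc : IsPreconnected S := (convex_halfSpace_im_gt _).isPreconnected
  have hzs : ∀ s ∈ S, 0 < (z + s).im := by
    intro s hs
    have hs' : -z.im < s.im := hs
    simp only [Complex.add_im]
    linarith
  have han : AnalyticOnNhd ℂ (fun s => MvPolynomial.eval ![z, Pc (z + s), Qc (z + s), Rc (z + s),
      Jc (((a : ℂ) * (z + s) + b) / ((c : ℂ) * (z + s) + d))] P) S := by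
    intro s hs
    have h0 := hzs s hs
    have hadd : AnalyticAt ℂ (fun s : ℂ => z + s) s := by fun_prop
    apply an_eval
    intro i
    fin_cases i
    · exact analyticAt_const
    · exact comp_an hadd (anP h h0)
    · exact comp_an hadd (anQ h h0)
    · exact comp_an hadd (anR h h0)
    · have h1 : AnalyticAt ℂ (fun s : ℂ => ((a : ℂ) * (z + s) + b) / ((c : ℂ) * (z + s) + d)) s := by
        apply AnalyticAt.div (by fun_prop) (by fun_prop)
        exact ne_den hdet h0
      exact comp_an h1 (anJ hJ (im_mob hdet h0))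
  have h0S : (0 : ℂ) ∈ S := by
    show -z.im < (0 : ℂ).im
    simpa using hz
  have heq := han.eqOn_zero_of_preconnected_of_eventuallyEq_zero hSc h0S hP
  have hmS : (m : ℂ) ∈ S := by
    show -z.im < ((m : ℂ)).im
    simpa using hz
  have := heq hmS
  simp only [Pi.zero_apply] at this
  have e1 : Pc (z + m) = Pc z := by
    have := h.smulP 1 m 0 1 z (by ring) hz
    simpa using this
  have e2 : Qc (z + m) = Qc z := by
    have := h.smulQ 1 m 0 1 z (by ring) hz
    simpa using this
  have e3 : Rc (z + m) = Rc z := by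
    have := h.smulR 1 m 0 1 z (by ring) hz
    simpa using this
  rw [e1, e2, e3] at this
  exact this

/-- Lower triangular unipotents. -/
theorem rel_U (h : SpecRam) (hJ : SpecJ) {a b c d : ℝ} (hdet : a * d - b * c = 1)
    (P : MvPolynomial (Fin 5) ℂ) (z : ℂ) (hz : 0 < z.im)
    (hP : ∀ᶠ s in 𝓝 (0 : ℂ), MvPolynomial.eval ![z, Pfl ![0, 0, 1] s z, Qfl ![0, 0, 1] s z,
      Rfl ![0, 0, 1] s z,
      Jc (((a : ℂ) * mob ![0, 0, 1] s z + b) / ((c : ℂ) * mob ![0, 0, 1] s z + d))] P = 0)
    (m : ℕ) :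
    MvPolynomial.eval ![z, Pc z, Qc z, Rc z,
      Jc (((a : ℂ) * (z / (m * z + 1)) + b) / ((c : ℂ) * (z / (m * z + 1)) + d))] P = 0 := by
  have hden : ∀ s, den ![0, 0, 1] s z = 1 - s * z := by intro s; simp [den]
  have hmob : ∀ s, mob ![0, 0, 1] s z = z / (1 - s * z) := by intro s; simp [mob, hden]
  simp only [Pfl, Qfl, Rfl, hden, hmob] at hP
  simp only [Matrix.cons_val, mul_one] at hP
  have hz0 : z ≠ 0 := by
    intro h0
    rw [h0] at hz
    simp at hz
  set S : Set ℂ := {s : ℂ | (z⁻¹).im < s.im} with hS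
  have hSc : IsPreconnected S := (convex_halfSpace_im_gt _).isPreconnected
  have hinv : ∀ s, s * z ≠ 1 → z / (1 - s * z) = (z⁻¹ - s)⁻¹ := by
    intro s hs
    have : 1 - s * z ≠ 0 := sub_ne_zero.2 (Ne.symm hs)
    rw [div_eq_iff this]
    have h2 : z⁻¹ - s ≠ 0 := by
      intro h3
      apply hs
      have : s = z⁻¹ := (sub_eq_zero.1 h3).symm
      rw [this, inv_mul_cancel₀ hz0]
    rw [eq_comm, inv_mul_eq_iff_eq_mul₀ h2]
    field_simp
  have hsz : ∀ s ∈ S, s * z ≠ 1 := by
    intro s hs h1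
    have hs' : (z⁻¹).im < s.im := hs
    have : s = z⁻¹ := eq_inv_of_mul_eq_one_left h1
    rw [this] at hs'
    exact lt_irrefl _ hs'
  have hsz' : ∀ s ∈ S, 1 - s * z ≠ 0 := fun s hs => sub_ne_zero.2 (Ne.symm (hsz s hs))
  have hzs : ∀ s ∈ S, 0 < (z / (1 - s * z)).im := by
    intro s hs
    have hs' : (z⁻¹).im < s.im := hs
    rw [hinv s (hsz s hs), Complex.inv_im]
    apply div_pos
    · simp only [Complex.sub_im]
      linarith
    · apply Complex.normSq_pos.2
      intro h3
      rw [sub_eq_zero] at h3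
      rw [h3] at hs'
      exact lt_irrefl _ hs'
  have han : AnalyticOnNhd ℂ (fun s => MvPolynomial.eval ![z,
      Pc (z / (1 - s * z)) / (1 - s * z) ^ 2 + s / (1 - s * z),
      Qc (z / (1 - s * z)) / (1 - s * z) ^ 4, Rc (z / (1 - s * z)) / (1 - s * z) ^ 6,
      Jc (((a : ℂ) * (z / (1 - s * z)) + b) / ((c : ℂ) * (z / (1 - s * z)) + d))] P) S := by
    intro s hs
    have h0 := hzs s hs
    have h1 := hsz' s hs
    have hlin : AnalyticAt ℂ (fun s : ℂ => 1 - s * z) s := by fun_prop
    have hadd : AnalyticAt ℂ (fun s : ℂ => z / (1 - s * z)) s := by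
      apply AnalyticAt.div analyticAt_const hlin h1
    apply an_eval
    intro i
    fin_cases i
    · exact analyticAt_const
    · exact ((comp_an hadd (anP h h0)).fun_div (hlin.fun_pow 2) (pow_ne_zero 2 h1)).fun_add
        ((analyticAt_id (z := s)).fun_div hlin h1)
    · exact (comp_an hadd (anQ h h0)).fun_div (hlin.fun_pow 4) (pow_ne_zero 4 h1)
    · exact (comp_an hadd (anR h h0)).fun_div (hlin.fun_pow 6) (pow_ne_zero 6 h1)
    · have h2 : AnalyticAt ℂ (fun s : ℂ => ((a : ℂ) * (z / (1 - s * z)) + b) /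
          ((c : ℂ) * (z / (1 - s * z)) + d)) s := by
        apply AnalyticAt.div
        · exact (analyticAt_const.mul hadd).add analyticAt_const
        · exact (analyticAt_const.mul hadd).add analyticAt_const
        · exact ne_den hdet h0
      exact comp_an h2 (anJ hJ (im_mob hdet h0))
  have hzi : (z⁻¹).im < 0 := by
    rw [Complex.inv_im]
    apply div_neg_of_neg_of_pos (by linarith)
    exact Complex.normSq_pos.2 hz0
  have h0S : (0 : ℂ) ∈ S := by
    show (z⁻¹).im < (0 : ℂ).im
    simpa using hzi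
  have heq := han.eqOn_zero_of_preconnected_of_eventuallyEq_zero hSc h0S hP
  have hmS : -(m : ℂ) ∈ S := by
    show (z⁻¹).im < (-(m : ℂ)).im
    simpa using hzi
  have := heq hmS
  simp only [Pi.zero_apply] at this
  have hd0 : (m : ℂ) * z + 1 ≠ 0 := by
    have := hsz' _ hmS
    intro h3
    apply this
    linear_combination h3
  have ed : 1 - -(m : ℂ) * z = m * z + 1 := by ring
  rw [ed] at this
  have e1 : Pc (z / (m * z + 1)) = (m * z + 1) ^ 2 * Pc z + m * (m * z + 1) := by
    have := h.smulP 1 0 m 1 z (by ring) hz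
    simpa using this
  have e2 : Qc (z / (m * z + 1)) = (m * z + 1) ^ 4 * Qc z := by
    have := h.smulQ 1 0 m 1 z (by ring) hz
    simpa using this
  have e3 : Rc (z / (m * z + 1)) = (m * z + 1) ^ 6 * Rc z := by
    have := h.smulR 1 0 m 1 z (by ring) hz
    simpa using this
  rw [e1, e2, e3] at this
  have f1 : ((m * z + 1) ^ 2 * Pc z + m * (m * z + 1)) / ((m : ℂ) * z + 1) ^ 2 +
      -(m : ℂ) / (m * z + 1) = Pc z := by
    field_simp
    ring
  have f2 : ((m * z + 1) ^ 4 * Qc z) / ((m : ℂ) * z + 1) ^ 4 = Qc z := by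
    field_simp
  have f3 : ((m * z + 1) ^ 6 * Rc z) / ((m : ℂ) * z + 1) ^ 6 = Rc z := by
    field_simp
  rw [f1, f2, f3] at this
  exact this

theorem g_inv {a b c d : ℝ} (hdet : a * d - b * c = 1) {u : ℂ} (hu : 0 < u.im) :
    ∃ z D : ℂ, 0 < z.im ∧ D ≠ 0 ∧ D = a - c * u ∧ (a : ℂ) * z + b = u / D ∧
      (c : ℂ) * z + d = 1 / D ∧ z = (d * u - b) / D := by
  have hdet' : d * a - (-b) * (-c) = 1 := by linear_combination hdet
  have h0 := ne_den hdet' hu
  have h1 := im_mob hdet' hu
  have hac : (a : ℂ) - c * u ≠ 0 := by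
    intro h2
    apply h0
    push_cast
    linear_combination h2
  have hdc : (a : ℂ) * d - b * c = 1 := by exact_mod_cast hdet
  obtain ⟨D, hD⟩ : ∃ D : ℂ, D = a - c * u := ⟨_, rfl⟩
  rw [← hD] at hac
  refine ⟨(d * u - b) / D, D, ?_, hac, hD, ?_, ?_, rfl⟩
  · rw [hD]
    have e : ((d : ℂ) * u + ((-b : ℝ) : ℂ)) / (((-c : ℝ) : ℂ) * u + a)
        = (d * u - b) / (a - c * u) := by
      congr 1
      · push_cast; ring
      · push_cast; ring
    rw [← e]
    exact h1
  · field_simp
    linear_combination u * hdc + b * hD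
  · field_simp
    linear_combination hdc + d * hD

theorem aux1 (m z D : ℂ) (h : D ≠ 0) (e : D = -m * z + 1) :
    z / D / (m * (z / D) + 1) = z := by
  have : m * (z / D) + 1 = 1 / D := by
    field_simp
    rw [e]
    ring
  rw [this]
  field_simp

theorem aux2 (m m' z D : ℂ) (h : D ≠ 0) (e : D = -m * z + 1) :
    z / D / (m' * (z / D) + 1) = z / ((m' - m) * z + 1) := by
  have : m' * (z / D) + 1 = ((m' - m) * z + 1) / D := by
    field_simp
    rw [e]
    ring
  rw [this, div_div_div_cancel_right₀ h]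

theorem aux3 (a b k z D w : ℂ) (h : D ≠ 0) (e : D = k * z + 1) (h1 : a * z + b = w) :
    a * (z / D) + b = (w + b * k * z) / D := by
  rw [← h1]
  field_simp
  rw [e]
  ring

theorem aux4 (u b k z D w v : ℂ) (h : D ≠ 0) (e : w = u / D) (h1 : z = v / D) :
    w + b * k * z = (u + b * k * v) / D := by
  rw [e, h1]
  field_simp

end LinkC

open LinkC in
/-- LINKC: a linked Möbius transformation is rational up to a scalar. -/
theorem specLinkC (h : SpecRam) (hJ : SpecJ) (hM : SpecMahler) (hI : SpecInj) : SpecLinkC := by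
  intro a b c d w hdet hw hL
  obtain ⟨P, hP0, hP⟩ := hL
  have hdc : (a : ℂ) * d - b * c = 1 := by exact_mod_cast hdet
  -- translations
  have hT : ∃ k : ℤ, k ≠ 0 ∧ ∃ a' b' c' d' : ℤ, 1 - k * a * c = a' ∧ k * a ^ 2 = b' ∧
      -(k * c ^ 2) = c' ∧ 1 + k * a * c = d' := by
    obtain ⟨m, m', hmm, heq⟩ := pigeon h hM P hP0 w hw
      (fun m z => Jc (((a : ℂ) * (z + m) + b) / ((c : ℂ) * (z + m) + d)))
      (by
        intro m z hz
        have hz' : 0 < (z + m).im := by
          have : 0 < z.im := hz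
          simpa using this
        have h2 : AnalyticAt ℂ (fun z : ℂ => ((a : ℂ) * (z + m) + b) /
            ((c : ℂ) * (z + m) + d)) z := by
          apply AnalyticAt.div (by fun_prop) (by fun_prop)
          exact ne_den hdet hz'
        exact comp_an h2 (anJ hJ (im_mob hdet hz')))
      (by
        have h1 := hP ![1, 0, 0] (Or.inl rfl)
        have h2 : ∀ᶠ z in 𝓝 w, 0 < z.im := isOpen_H.mem_nhds hw
        filter_upwards [h1, h2] with z hz hz'
        exact fun m => rel_T h hJ hdet P z hz' hz m)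
    refine ⟨(m' : ℤ) - m, sub_ne_zero.2 (by exact_mod_cast hmm.symm), ?_⟩
    apply hI
    · push_cast
      ring
    · intro u hu
      obtain ⟨z, D, hz, hac, hD, e1, e2, -⟩ := g_inv hdet hu
      have hzm : 0 < (z - m).im := by simpa using hz
      have h3 := heq (z - m) hzm
      have e3 : z - m + (m : ℂ) = z := by ring
      rw [e3] at h3
      have e4 : ((a : ℂ) * z + b) / (c * z + d) = u := by
        rw [e1, e2]
        field_simp
      rw [e4] at h3
      rw [h3]
      congr 1
      have e5 : (a : ℂ) * (z - m + m') + b = u / D + a * (m' - m) := by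
        rw [← e1]; ring
      have e6 : (c : ℂ) * (z - m + m') + d = 1 / D + c * (m' - m) := by
        rw [← e2]; ring
      rw [e5, e6]
      have e7 : u / D + a * (m' - m) = (u + a * (m' - m) * D) / D := by
        field_simp
      have e8 : 1 / D + c * ((m' : ℂ) - m) = (1 + c * (m' - m) * D) / D := by
        field_simp
      rw [e7, e8, div_div_div_cancel_right₀ hac, hD]
      push_cast
      congr 1 <;> ring
  have hU : ∃ k : ℤ, k ≠ 0 ∧ ∃ a' b' c' d' : ℤ, 1 + k * b * d = a' ∧ -(k * b ^ 2) = b' ∧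
      k * d ^ 2 = c' ∧ 1 - k * b * d = d' := by
    have hmz : ∀ (m : ℝ) {z : ℂ}, 0 < z.im → (m : ℂ) * z + 1 ≠ 0 ∧ 0 < (z / (m * z + 1)).im := by
      intro m z hz
      have hd' : (1 : ℝ) * 1 - 0 * m = 1 := by ring
      have h1 := ne_den hd' hz
      have h2 := im_mob hd' hz
      simp only [Complex.ofReal_one, Complex.ofReal_zero, one_mul, add_zero] at h1 h2
      exact ⟨h1, h2⟩
    obtain ⟨m, m', hmm, heq⟩ := pigeon h hM P hP0 w hw
      (fun m z => Jc (((a : ℂ) * (z / (m * z + 1)) + b) / ((c : ℂ) * (z / (m * z + 1)) + d)))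
      (by
        intro m z hz
        have hz' := hmz m hz
        simp only [Complex.ofReal_natCast] at hz'
        have h1 : AnalyticAt ℂ (fun z : ℂ => z / (m * z + 1)) z :=
          AnalyticAt.div (by fun_prop) (by fun_prop) hz'.1
        have h2 : AnalyticAt ℂ (fun z : ℂ => ((a : ℂ) * (z / (m * z + 1)) + b) /
            ((c : ℂ) * (z / (m * z + 1)) + d)) z := by
          apply AnalyticAt.div
          · exact (analyticAt_const.mul h1).add analyticAt_const
          · exact (analyticAt_const.mul h1).add analyticAt_const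
          · exact ne_den hdet hz'.2
        exact comp_an h2 (anJ hJ (im_mob hdet hz'.2)))
      (by
        have h1 := hP ![0, 0, 1] (Or.inr rfl)
        have h2 : ∀ᶠ z in 𝓝 w, 0 < z.im := isOpen_H.mem_nhds hw
        filter_upwards [h1, h2] with z hz hz'
        exact fun m => rel_U h hJ hdet P z hz' hz m)
    refine ⟨(m' : ℤ) - m, sub_ne_zero.2 (by exact_mod_cast hmm.symm), ?_⟩
    apply hI
    · push_cast
      ring
    · intro u hu
      obtain ⟨z, D, hz, hac, hD, e1, e2, ez⟩ := g_inv hdet hu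
      have hz1 := hmz (-(m : ℝ)) hz
      have hz2 := hmz ((m' : ℝ) - m) hz
      simp only [Complex.ofReal_neg, Complex.ofReal_sub, Complex.ofReal_natCast] at hz1 hz2
      have h3 := heq (z / (-(m : ℂ) * z + 1)) hz1.2
      have hz10 := hz1.1
      have hz20 := hz2.1
      have e3 := aux1 m z _ hz10 rfl
      have e3' := aux2 m m' z _ hz10 rfl
      rw [e3, e3'] at h3
      have e4 : ((a : ℂ) * z + b) / (c * z + d) = u := by
        rw [e1, e2]
        field_simp
      rw [e4] at h3
      rw [h3]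
      congr 1
      have e5 := aux3 a b (m' - m) z _ _ hz20 rfl e1
      have e6 := aux3 c d (m' - m) z _ _ hz20 rfl e2
      rw [e5, e6, div_div_div_cancel_right₀ hz20]
      have e7 := aux4 u b (m' - m) z D _ _ hac rfl ez
      have e8 := aux4 1 d (m' - m) z D _ _ hac rfl ez
      rw [e7, e8, div_div_div_cancel_right₀ hac]
      push_cast
      congr 1 <;> ring
  obtain ⟨k, hk, -, b1, c1, d1, -, hb1, hc1, hd1⟩ := hT
  obtain ⟨l, hl, a2, b2, c2, -, ha2, hb2, hc2, -⟩ := hU
  have hk' : (k : ℝ) ≠ 0 := by exact_mod_cast hk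
  have hl' : (l : ℝ) ≠ 0 := by exact_mod_cast hl
  -- rational products
  have q_aa : a ^ 2 = ((b1 / k : ℚ) : ℝ) := by
    push_cast; rw [← hb1]; field_simp
  have q_cc : c ^ 2 = ((-c1 / k : ℚ) : ℝ) := by
    push_cast; rw [← hc1]; field_simp
  have q_ac : a * c = (((d1 - 1) / k : ℚ) : ℝ) := by
    push_cast; rw [← hd1]; field_simp; ring
  have q_bb : b ^ 2 = ((-b2 / l : ℚ) : ℝ) := by
    push_cast; rw [← hb2]; field_simp
  have q_dd : d ^ 2 = ((c2 / l : ℚ) : ℝ) := by
    push_cast; rw [← hc2]; field_simp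
  have q_bd : b * d = (((a2 - 1) / l : ℚ) : ℝ) := by
    push_cast; rw [← ha2]; field_simp; ring
  set raa : ℚ := b1 / k
  set rcc : ℚ := -c1 / k
  set rac : ℚ := (d1 - 1) / k
  set rbb : ℚ := -b2 / l
  set rdd : ℚ := c2 / l
  set rbd : ℚ := (a2 - 1) / l
  have q_ad : a * d = ((raa * rdd - rac * rbd : ℚ) : ℝ) := by
    push_cast
    rw [← q_aa, ← q_dd, ← q_ac, ← q_bd]
    linear_combination (-(a * d)) * hdet
  have q_ab : a * b = ((raa * rbd - rac * rbb : ℚ) : ℝ) := by
    push_cast
    rw [← q_aa, ← q_bb, ← q_ac, ← q_bd]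
    linear_combination (-(a * b)) * hdet
  have q_cd : c * d = ((rac * rdd - rcc * rbd : ℚ) : ℝ) := by
    push_cast
    rw [← q_cc, ← q_dd, ← q_ac, ← q_bd]
    linear_combination (-(c * d)) * hdet
  have q_bc : b * c = ((rac * rbd - rcc * rbb : ℚ) : ℝ) := by
    push_cast
    rw [← q_cc, ← q_bb, ← q_ac, ← q_bd]
    linear_combination (-(b * c)) * hdet
  by_cases ha : a = 0
  · have hc : c ≠ 0 := by
      rintro rfl
      rw [ha] at hdet
      simp at hdet
    refine ⟨1 / c, rac, rac * rbd - rcc * rbb, rcc, rac * rdd - rcc * rbd, one_div_ne_zero hc,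
      ?_, ?_, ?_, ?_⟩
    · rw [← q_ac]; field_simp
    · rw [← q_bc]; field_simp
    · rw [← q_cc]; field_simp
    · rw [← q_cd]; field_simp
  · refine ⟨1 / a, raa, raa * rbd - rac * rbb, rac, raa * rdd - rac * rbd, one_div_ne_zero ha,
      ?_, ?_, ?_, ?_⟩
    · rw [← q_aa]; field_simp
    · rw [← q_ab]; field_simp
    · rw [← q_ac]; field_simp
    · rw [← q_ad]; field_simp

end Pool.Agent.Lib.MP_47914d_nt
end

section
/-!
Module PERSIST: algebraic linkage persists along flows.
-/
set_option autoImplicit false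

open Complex Filter Topology
open MvPolynomial (X C eval aeval mkDerivation)

namespace Pool.Agent.Lib.MP_47914d_nt

/-! ### Flows solve the differential equations -/

section Flow

theorem den_zero (v : Fin 3 → ℂ) (z : ℂ) : den v 0 z = 1 := by
  simp [den]

theorem mob_zero (v : Fin 3 → ℂ) (z : ℂ) : mob v 0 z = z := by
  simp [mob, den_zero]

theorem den_eq (v : Fin 3 → ℂ) (s z : ℂ) : den v s z = 1 - s * (v 1 / 2 + v 2 * z) := by
  unfold den
  ring

theorem hasDerivAt_den (v : Fin 3 → ℂ) (s z : ℂ) :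
    HasDerivAt (fun s => den v s z) (-(v 1 / 2 + v 2 * z)) s := by
  have h : (fun s => den v s z) = fun s => 1 - s * (v 1 / 2 + v 2 * z) := by
    funext s
    exact den_eq v s z
  rw [h]
  have := ((hasDerivAt_id s).mul_const (v 1 / 2 + v 2 * z)).const_sub 1
  simpa using this

theorem hasDerivAt_mob (v : Fin 3 → ℂ) (s z : ℂ) (hd : den v s z ≠ 0) :
    HasDerivAt (fun s => mob v s z) (om0 v z / den v s z ^ 2) s := by
  have h1 : HasDerivAt (fun s : ℂ => (1 + s * v 1 / 2) * z + s * v 0)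
      (v 1 / 2 * z + v 0) s := by
    have := (((((hasDerivAt_id s).mul_const (v 1)).div_const 2).const_add 1).mul_const z).fun_add
      ((hasDerivAt_id s).mul_const (v 0))
    simpa using this
  have h2 := h1.div (hasDerivAt_den v s z) hd
  refine h2.congr_deriv ?_
  congr 1
  rw [den_eq, om0]
  ring

theorem nilp_sq {v : Fin 3 → ℂ} (hv : Nilp v) (z : ℂ) :
    v 2 * om0 v z = (v 1 / 2 + v 2 * z) ^ 2 := by
  have h : v 1 ^ 2 = 4 * v 0 * v 2 := hv
  unfold om0
  linear_combination (-1 / 4 : ℂ) * h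

theorem algP {s a o v2 P Q D : ℂ} (hD : D = 1 - s * a) (hD0 : D ≠ 0) (ho : v2 * o = a ^ 2) :
    ((P ^ 2 - Q) * (o / D ^ 2) * D ^ 2 - P * (2 * D * (-a))) / (D ^ 2) ^ 2 +
      (v2 * D - s * v2 * (-a)) / D ^ 2 =
      ((P / D ^ 2 + s * v2 / D) ^ 2 - Q / D ^ 4) * o + 2 * a * (P / D ^ 2 + s * v2 / D) + v2 := by
  rw [← sub_eq_zero]
  have key : ((P ^ 2 - Q) * (o / D ^ 2) * D ^ 2 - P * (2 * D * (-a))) / (D ^ 2) ^ 2 +
      (v2 * D - s * v2 * (-a)) / D ^ 2 -
      (((P / D ^ 2 + s * v2 / D) ^ 2 - Q / D ^ 4) * o + 2 * a * (P / D ^ 2 + s * v2 / D) + v2)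
      = (a ^ 2 - v2 * o) * (2 * s * P / D ^ 3 + v2 * s ^ 2 / D ^ 2) := by
    subst hD
    field_simp
    ring
  rw [key, ho, sub_self, zero_mul]

theorem algQ {s a o v2 P Q R D : ℂ} (hD : D = 1 - s * a) (hD0 : D ≠ 0) (ho : v2 * o = a ^ 2) :
    (4 * (P * Q - R) * (o / D ^ 2) * D ^ 4 - Q * (4 * D ^ 3 * (-a))) / (D ^ 4) ^ 2 =
      4 * ((P / D ^ 2 + s * v2 / D) * (Q / D ^ 4) - R / D ^ 6) * o + 2 * (2 * a) * (Q / D ^ 4) := by
  rw [← sub_eq_zero]
  have key : (4 * (P * Q - R) * (o / D ^ 2) * D ^ 4 - Q * (4 * D ^ 3 * (-a))) / (D ^ 4) ^ 2 -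
      (4 * ((P / D ^ 2 + s * v2 / D) * (Q / D ^ 4) - R / D ^ 6) * o + 2 * (2 * a) * (Q / D ^ 4))
      = (a ^ 2 - v2 * o) * (4 * Q * s / D ^ 5) := by
    subst hD
    field_simp
    ring
  rw [key, ho, sub_self, zero_mul]

theorem algR {s a o v2 P Q R D : ℂ} (hD : D = 1 - s * a) (hD0 : D ≠ 0) (ho : v2 * o = a ^ 2) :
    (6 * (P * R - Q ^ 2) * (o / D ^ 2) * D ^ 6 - R * (6 * D ^ 5 * (-a))) / (D ^ 6) ^ 2 =
      6 * ((P / D ^ 2 + s * v2 / D) * (R / D ^ 6) - (Q / D ^ 4) ^ 2) * o +
        3 * (2 * a) * (R / D ^ 6) := by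
  rw [← sub_eq_zero]
  have key : (6 * (P * R - Q ^ 2) * (o / D ^ 2) * D ^ 6 - R * (6 * D ^ 5 * (-a))) / (D ^ 6) ^ 2 -
      (6 * ((P / D ^ 2 + s * v2 / D) * (R / D ^ 6) - (Q / D ^ 4) ^ 2) * o +
        3 * (2 * a) * (R / D ^ 6))
      = (a ^ 2 - v2 * o) * (6 * R * s / D ^ 7) := by
    subst hD
    field_simp
    ring
  rw [key, ho, sub_self, zero_mul]

variable (h : SpecRam) {v : Fin 3 → ℂ} (hv : Nilp v) {s z : ℂ} (hd : den v s z ≠ 0)
  (hz : 0 < (mob v s z).im)

include h hv hd hz

theorem hasDerivAt_Pfl : HasDerivAt (fun s => Pfl v s z)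
    ((Pfl v s z ^ 2 - Qfl v s z) * om0 v z + om1 v z * Pfl v s z + v 2) s := by
  have h1 : HasDerivAt (fun s => Pc (mob v s z))
      ((Pc (mob v s z) ^ 2 - Qc (mob v s z)) * (om0 v z / den v s z ^ 2)) s :=
    HasDerivAt.comp (h₂ := Pc) s (h.derivP _ hz) (hasDerivAt_mob v s z hd)
  have hD := hasDerivAt_den v s z
  have h2 : HasDerivAt (fun s => den v s z ^ 2)
      (2 * den v s z * (-(v 1 / 2 + v 2 * z))) s := by
    refine (hD.fun_pow 2).congr_deriv ?_
    norm_num
  have h3 := h1.div h2 (pow_ne_zero 2 hd)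
  have h4 : HasDerivAt (fun s : ℂ => s * v 2) (v 2) s := by
    simpa using (hasDerivAt_id s).mul_const (v 2)
  have h5 := h4.div hD hd
  refine (h3.add h5).congr_deriv ?_
  have := algP (P := Pc (mob v s z)) (Q := Qc (mob v s z)) (den_eq v s z) hd (nilp_sq hv z)
  rw [this]
  unfold Pfl Qfl om1
  ring

theorem hasDerivAt_Qfl : HasDerivAt (fun s => Qfl v s z)
    (4 * (Pfl v s z * Qfl v s z - Rfl v s z) * om0 v z + 2 * om1 v z * Qfl v s z) s := by
  have h1 : HasDerivAt (fun s => Qc (mob v s z))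
      ((4 * (Pc (mob v s z) * Qc (mob v s z) - Rc (mob v s z))) * (om0 v z / den v s z ^ 2)) s :=
    HasDerivAt.comp (h₂ := Qc) s (h.derivQ _ hz) (hasDerivAt_mob v s z hd)
  have hD := hasDerivAt_den v s z
  have h2 : HasDerivAt (fun s => den v s z ^ 4)
      (4 * den v s z ^ 3 * (-(v 1 / 2 + v 2 * z))) s := by
    refine (hD.fun_pow 4).congr_deriv ?_
    norm_num
  have h3 := h1.div h2 (pow_ne_zero 4 hd)
  refine h3.congr_deriv ?_
  have := algQ (P := Pc (mob v s z)) (Q := Qc (mob v s z)) (R := Rc (mob v s z))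
    (den_eq v s z) hd (nilp_sq hv z)
  rw [this]
  unfold Pfl Qfl Rfl om1
  ring

theorem hasDerivAt_Rfl : HasDerivAt (fun s => Rfl v s z)
    (6 * (Pfl v s z * Rfl v s z - Qfl v s z ^ 2) * om0 v z + 3 * om1 v z * Rfl v s z) s := by
  have h1 : HasDerivAt (fun s => Rc (mob v s z))
      ((6 * (Pc (mob v s z) * Rc (mob v s z) - Qc (mob v s z) ^ 2)) *
        (om0 v z / den v s z ^ 2)) s :=
    HasDerivAt.comp (h₂ := Rc) s (h.derivR _ hz) (hasDerivAt_mob v s z hd)
  have hD := hasDerivAt_den v s z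
  have h2 : HasDerivAt (fun s => den v s z ^ 6)
      (6 * den v s z ^ 5 * (-(v 1 / 2 + v 2 * z))) s := by
    refine (hD.fun_pow 6).congr_deriv ?_
    norm_num
  have h3 := h1.div h2 (pow_ne_zero 6 hd)
  refine h3.congr_deriv ?_
  have := algR (P := Pc (mob v s z)) (Q := Qc (mob v s z)) (R := Rc (mob v s z))
    (den_eq v s z) hd (nilp_sq hv z)
  rw [this]
  unfold Pfl Qfl Rfl om1
  ring

omit hv in
theorem disc_fl : Qfl v s z ^ 3 - Rfl v s z ^ 2 ≠ 0 ∧
    1728 * Qfl v s z ^ 3 * (Qfl v s z ^ 3 - Rfl v s z ^ 2)⁻¹ = Jc (mob v s z) := by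
  have h1 := h.disc _ hz
  have h2 := h.jinv _ hz
  have e : Qfl v s z ^ 3 - Rfl v s z ^ 2 =
      (Qc (mob v s z) ^ 3 - Rc (mob v s z) ^ 2) / den v s z ^ 12 := by
    unfold Qfl Rfl
    field_simp
  have h3 : Qfl v s z ^ 3 - Rfl v s z ^ 2 ≠ 0 := by
    rw [e]
    exact div_ne_zero h1 (pow_ne_zero _ hd)
  refine ⟨h3, ?_⟩
  have e2 : Qfl v s z ^ 3 = Qc (mob v s z) ^ 3 / den v s z ^ 12 := by
    unfold Qfl
    field_simp
  rw [e, e2, ← div_eq_mul_inv, mul_div_assoc', div_div_div_cancel_right₀ (pow_ne_zero _ hd),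
    div_eq_iff h1, h2]

theorem hasDerivAt_Efl : HasDerivAt (fun s => (Qfl v s z ^ 3 - Rfl v s z ^ 2)⁻¹)
    (-(Qfl v s z ^ 3 - Rfl v s z ^ 2)⁻¹ * (12 * Pfl v s z * om0 v z + 6 * om1 v z)) s := by
  have h0 := (disc_fl h hd hz).1
  have hq := hasDerivAt_Qfl h hv hd hz
  have hr := hasDerivAt_Rfl h hv hd hz
  refine (((hq.fun_pow 3).sub (hr.fun_pow 2)).inv h0).congr_deriv ?_
  norm_num
  field_simp
  ring

end Flow

/-! ### The polynomial vector field -/

/-- The vector field on `ℂ⁹`. -/
noncomputable def vf (v w : Fin 3 → ℂ) : Fin 9 → MvPolynomial (Fin 9) ℂ :=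
  ![0,
    (X 1 ^ 2 - X 2) * (C (v 0) + C (v 1) * X 0 + C (v 2) * X 0 ^ 2) +
      (C (v 1) + 2 * C (v 2) * X 0) * X 1 + C (v 2),
    4 * (X 1 * X 2 - X 3) * (C (v 0) + C (v 1) * X 0 + C (v 2) * X 0 ^ 2) +
      2 * (C (v 1) + 2 * C (v 2) * X 0) * X 2,
    6 * (X 1 * X 3 - X 2 ^ 2) * (C (v 0) + C (v 1) * X 0 + C (v 2) * X 0 ^ 2) +
      3 * (C (v 1) + 2 * C (v 2) * X 0) * X 3,
    0,
    (X 5 ^ 2 - X 6) * (C (w 0) + C (w 1) * X 4 + C (w 2) * X 4 ^ 2) +
      (C (w 1) + 2 * C (w 2) * X 4) * X 5 + C (w 2),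
    4 * (X 5 * X 6 - X 7) * (C (w 0) + C (w 1) * X 4 + C (w 2) * X 4 ^ 2) +
      2 * (C (w 1) + 2 * C (w 2) * X 4) * X 6,
    6 * (X 5 * X 7 - X 6 ^ 2) * (C (w 0) + C (w 1) * X 4 + C (w 2) * X 4 ^ 2) +
      3 * (C (w 1) + 2 * C (w 2) * X 4) * X 7,
    - X 8 * (12 * X 5 * (C (w 0) + C (w 1) * X 4 + C (w 2) * X 4 ^ 2) +
      6 * (C (w 1) + 2 * C (w 2) * X 4))]

/-- The flow. -/
noncomputable def xfl (v w : Fin 3 → ℂ) (z z' s : ℂ) : Fin 9 → ℂ :=
  ![z, Pfl v s z, Qfl v s z, Rfl v s z, z', Pfl w s z', Qfl w s z', Rfl w s z',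
    (Qfl w s z' ^ 3 - Rfl w s z' ^ 2)⁻¹]

theorem hasDerivAt_xfl (h : SpecRam) {v w : Fin 3 → ℂ} (hv : Nilp v) (hw : Nilp w) {z z' s : ℂ}
    (hd : den v s z ≠ 0) (hz : 0 < (mob v s z).im) (hd' : den w s z' ≠ 0)
    (hz' : 0 < (mob w s z').im) (j : Fin 9) :
    HasDerivAt (fun s => xfl v w z z' s j) (eval (xfl v w z z' s) (vf v w j)) s := by
  fin_cases j
  · simpa [xfl, vf] using hasDerivAt_const s z
  · have := hasDerivAt_Pfl h hv hd hz
    simpa [xfl, vf, om0, om1] using this
  · have := hasDerivAt_Qfl h hv hd hz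
    simpa [xfl, vf, om0, om1] using this
  · have := hasDerivAt_Rfl h hv hd hz
    simpa [xfl, vf, om0, om1] using this
  · simpa [xfl, vf] using hasDerivAt_const s z'
  · have := hasDerivAt_Pfl h hw hd' hz'
    simpa [xfl, vf, om0, om1] using this
  · have := hasDerivAt_Qfl h hw hd' hz'
    simpa [xfl, vf, om0, om1] using this
  · have := hasDerivAt_Rfl h hw hd' hz'
    simpa [xfl, vf, om0, om1] using this
  · have := hasDerivAt_Efl h hw hd' hz'
    simpa [xfl, vf, om0, om1] using this

theorem hasDerivAt_eval {x : ℂ → Fin 9 → ℂ} {Θ : Fin 9 → MvPolynomial (Fin 9) ℂ} {s : ℂ}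
    (hx : ∀ j, HasDerivAt (fun s => x s j) (eval (x s) (Θ j)) s) (S : MvPolynomial (Fin 9) ℂ) :
    HasDerivAt (fun s => eval (x s) S) (eval (x s) (mkDerivation ℂ Θ S)) s := by
  induction S using MvPolynomial.induction_on with
  | C a =>
    simp only [MvPolynomial.eval_C, MvPolynomial.derivation_C, map_zero]
    exact hasDerivAt_const s a
  | add p q hp hq =>
    simp only [map_add]
    exact hp.add hq
  | mul_X p j hp =>
    simp only [map_mul, MvPolynomial.eval_X, Derivation.leibniz, MvPolynomial.mkDerivation_X,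
      smul_eq_mul, map_add]
    refine (hp.mul (hx j)).congr_deriv ?_
    ring

theorem derivation_aeval {F : Type} [Field F] [Algebra ℂ F] (δ : Derivation ℂ F F)
    {x : Fin 9 → F} {Θ : Fin 9 → MvPolynomial (Fin 9) ℂ} (hx : ∀ j, δ (x j) = aeval x (Θ j))
    (S : MvPolynomial (Fin 9) ℂ) : δ (aeval x S) = aeval x (mkDerivation ℂ Θ S) := by
  induction S using MvPolynomial.induction_on with
  | C a =>
    simp only [MvPolynomial.derivation_C, map_zero, MvPolynomial.aeval_C, Derivation.map_algebraMap]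
  | add p q hp hq => simp only [map_add, hp, hq]
  | mul_X p j hp =>
    simp only [map_mul, MvPolynomial.aeval_X, Derivation.leibniz, MvPolynomial.mkDerivation_X,
      smul_eq_mul, map_add, hp, hx]

/-! ### Analyticity -/

section Analytic

theorem isOpen_im : IsOpen {w : ℂ | 0 < w.im} := isOpen_lt continuous_const Complex.continuous_im

theorem analyticAt_Pc (h : SpecRam) {w : ℂ} (hw : 0 < w.im) : AnalyticAt ℂ Pc w :=
  DifferentiableOn.analyticAt (s := {w : ℂ | 0 < w.im})
    (fun u hu => (h.derivP u hu).differentiableAt.differentiableWithinAt)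
    (isOpen_im.mem_nhds hw)

theorem analyticAt_Qc (h : SpecRam) {w : ℂ} (hw : 0 < w.im) : AnalyticAt ℂ Qc w :=
  DifferentiableOn.analyticAt (s := {w : ℂ | 0 < w.im})
    (fun u hu => (h.derivQ u hu).differentiableAt.differentiableWithinAt)
    (isOpen_im.mem_nhds hw)

theorem analyticAt_Rc (h : SpecRam) {w : ℂ} (hw : 0 < w.im) : AnalyticAt ℂ Rc w :=
  DifferentiableOn.analyticAt (s := {w : ℂ | 0 < w.im})
    (fun u hu => (h.derivR u hu).differentiableAt.differentiableWithinAt)
    (isOpen_im.mem_nhds hw)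

/-- The base point of the flow, as a function of `t`. -/
noncomputable def xb (z1 z2 : ℂ → ℂ) (t : ℂ) : Fin 9 → ℂ :=
  ![z1 t, Pc (z1 t), Qc (z1 t), Rc (z1 t), z2 t, Pc (z2 t), Qc (z2 t), Rc (z2 t),
    (Qc (z2 t) ^ 3 - Rc (z2 t) ^ 2)⁻¹]

theorem analyticAt_xb (h : SpecRam) {z1 z2 : ℂ → ℂ} {t : ℂ} (h1 : AnalyticAt ℂ z1 t)
    (h2 : AnalyticAt ℂ z2 t) (hz1 : 0 < (z1 t).im) (hz2 : 0 < (z2 t).im) (j : Fin 9) :
    AnalyticAt ℂ (fun t => xb z1 z2 t j) t := by
  fin_cases j
  · exact h1
  · exact (analyticAt_Pc h hz1).fun_comp h1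
  · exact (analyticAt_Qc h hz1).fun_comp h1
  · exact (analyticAt_Rc h hz1).fun_comp h1
  · exact h2
  · exact (analyticAt_Pc h hz2).fun_comp h2
  · exact (analyticAt_Qc h hz2).fun_comp h2
  · exact (analyticAt_Rc h hz2).fun_comp h2
  · have a := ((analyticAt_Qc h hz2).fun_comp h2).pow 3
    have b := ((analyticAt_Rc h hz2).fun_comp h2).pow 2
    exact (a.sub b).inv (h.disc _ hz2)

theorem analyticAt_eval {x : ℂ → Fin 9 → ℂ} {t : ℂ} (hx : ∀ j, AnalyticAt ℂ (fun t => x t j) t)
    (S : MvPolynomial (Fin 9) ℂ) : AnalyticAt ℂ (fun t => eval (x t) S) t := by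
  induction S using MvPolynomial.induction_on with
  | C a =>
    simp only [MvPolynomial.eval_C]
    exact analyticAt_const
  | add p q hp hq =>
    simp only [map_add]
    exact hp.add hq
  | mul_X p j hp =>
    simp only [map_mul, MvPolynomial.eval_X]
    exact hp.mul (hx j)

theorem T_eval {F : Type} [Field F] [Algebra ℂ F] {θ : ℂ} (G : GermField θ F)
    {x : ℂ → Fin 9 → ℂ} (hx : ∀ j, AnalyticAt ℂ (fun t => x t j) θ)
    (S : MvPolynomial (Fin 9) ℂ) :
    G.T (fun t => eval (x t) S) = aeval (fun j => G.T (fun t => x t j)) S := by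
  induction S using MvPolynomial.induction_on with
  | C a =>
    simp only [MvPolynomial.eval_C, MvPolynomial.aeval_C]
    exact G.T_const a
  | add p q hp hq =>
    simp only [map_add]
    rw [G.T_add _ _ (analyticAt_eval hx p) (analyticAt_eval hx q), hp, hq]
  | mul_X p j hp =>
    simp only [map_mul, MvPolynomial.eval_X, MvPolynomial.aeval_X]
    rw [G.T_mul _ _ (analyticAt_eval hx p) (hx j), hp]

end Analytic

/-- A function all of whose iterated derivatives (given by a sequence) vanish at `0` is `0`. -/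
theorem eventually_zero {g : ℕ → ℂ → ℂ} (hg : ∀ᶠ s in 𝓝 (0 : ℂ), ∀ k, HasDerivAt (g k) (g (k + 1) s) s)
    (h0 : ∀ k, g k 0 = 0) : ∀ᶠ s in 𝓝 (0 : ℂ), g 0 s = 0 := by
  obtain ⟨ε, hε, hball⟩ := Metric.eventually_nhds_iff_ball.1 hg
  have hd : DifferentiableOn ℂ (g 0) (Metric.ball 0 ε) := fun s hs =>
    (hball s hs 0).differentiableAt.differentiableWithinAt
  have hit : ∀ k, ∀ s ∈ Metric.ball (0 : ℂ) ε, iteratedDeriv k (g 0) s = g k s := by
    intro k
    induction k with
    | zero =>
      intro s _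
      rw [iteratedDeriv_zero]
    | succ k ih =>
      intro s hs
      rw [iteratedDeriv_succ]
      have : iteratedDeriv k (g 0) =ᶠ[𝓝 s] g k := by
        filter_upwards [Metric.isOpen_ball.mem_nhds hs] with u hu
        exact ih u hu
      rw [this.deriv_eq]
      exact (hball s hs k).deriv
  filter_upwards [Metric.ball_mem_nhds (0 : ℂ) hε] with s hs
  have hs1 := Complex.hasSum_taylorSeries_on_ball hd hs
  have hz : ∀ n : ℕ, ((n.factorial : ℂ)⁻¹ • (s - 0) ^ n • iteratedDeriv n (g 0) 0) = 0 := by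
    intro n
    rw [hit n 0 (Metric.mem_ball_self hε), h0 n, smul_zero, smul_zero]
  simp only [hz] at hs1
  exact hs1.unique hasSum_zero

theorem xfl_zero (v w : Fin 3 → ℂ) (z1 z2 : ℂ → ℂ) (t : ℂ) :
    xfl v w (z1 t) (z2 t) 0 = xb z1 z2 t := by
  funext j
  fin_cases j <;> simp [xfl, xb, Pfl, Qfl, Rfl, den_zero, mob_zero]

/-- The substitution of `1728 Q³ / (Q³ - R²)` for the last variable. -/
noncomputable def subst (P : MvPolynomial (Fin 5) ℂ) : MvPolynomial (Fin 9) ℂ :=
  aeval (![X 0, X 1, X 2, X 3, C 1728 * X 6 ^ 3 * X 8] : Fin 5 → MvPolynomial (Fin 9) ℂ) P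

theorem aeval_subst {A : Type} [CommRing A] [Algebra ℂ A] (x : Fin 9 → A)
    (P : MvPolynomial (Fin 5) ℂ) :
    aeval x (subst P) =
      aeval ![x 0, x 1, x 2, x 3, algebraMap ℂ A 1728 * x 6 ^ 3 * x 8] P := by
  unfold subst
  induction P using MvPolynomial.induction_on with
  | C a => simp
  | add p q hp hq => simp only [map_add, hp, hq]
  | mul_X p j hp =>
    simp only [map_mul, hp, MvPolynomial.aeval_X]
    congr 1
    fin_cases j <;> simp

theorem eval_subst (x : Fin 9 → ℂ) (P : MvPolynomial (Fin 5) ℂ) :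
    eval x (subst P) = eval ![x 0, x 1, x 2, x 3, 1728 * x 6 ^ 3 * x 8] P := by
  have := aeval_subst x P
  simpa [MvPolynomial.aeval_eq_eval] using this

theorem eventually_flow (v : Fin 3 → ℂ) {z : ℂ} (hz : 0 < z.im) :
    ∀ᶠ s in 𝓝 (0 : ℂ), den v s z ≠ 0 ∧ 0 < (mob v s z).im := by
  have h0 : den v 0 z ≠ 0 := by
    rw [den_zero]
    exact one_ne_zero
  have h1 : ContinuousAt (fun s => den v s z) 0 := (hasDerivAt_den v 0 z).continuousAt
  have h2 : ContinuousAt (fun s => (mob v s z).im) 0 :=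
    Complex.continuous_im.continuousAt.comp (hasDerivAt_mob v 0 z h0).continuousAt
  have h3 : ∀ᶠ s in 𝓝 (0 : ℂ), den v s z ≠ 0 := h1.eventually_ne h0
  have h4 : ∀ᶠ s in 𝓝 (0 : ℂ), 0 < (mob v s z).im := by
    apply h2.eventually (lt_mem_nhds ?_)
    change 0 < (mob v 0 z).im
    rw [mob_zero]
    exact hz
  exact h3.and h4

theorem persist_rel (h : SpecRam) {θ : ℂ} {F : Type} [Field F] [Algebra ℂ F]
    (G : GermField θ F) (z1 z2 : ℂ → ℂ) (φ : (Fin 3 → ℂ) → (Fin 3 → ℂ))
    (hN : ∀ v, Nilp v → Nilp (φ v)) (a1 : AnalyticAt ℂ z1 θ) (a2 : AnalyticAt ℂ z2 θ)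
    (hz1 : 0 < (z1 θ).im) (hz2 : 0 < (z2 θ).im)
    (der : ∀ v : Fin 3 → ℂ, ∃ δ : Derivation ℂ F F, δ (G.T z1) = 0 ∧ δ (G.T z2) = 0 ∧
      IsW δ (G.T z1) (G.T fun x => Pc (z1 x)) (G.T fun x => Qc (z1 x)) (G.T fun x => Rc (z1 x))
        (fun k => algebraMap ℂ F (v k)) ∧
      IsW δ (G.T z2) (G.T fun x => Pc (z2 x)) (G.T fun x => Qc (z2 x)) (G.T fun x => Rc (z2 x))
        (fun k => algebraMap ℂ F (φ v k)))
    (dep : ¬ AlgebraicIndependent ℂ ![G.T z1, G.T fun x => Pc (z1 x), G.T fun x => Qc (z1 x),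
      G.T fun x => Rc (z1 x), G.T fun x => Jc (z2 x)]) :
    ∃ P : MvPolynomial (Fin 5) ℂ, P ≠ 0 ∧ ∀ᶠ t in 𝓝 θ, ∀ v, Nilp v → ∀ᶠ s in 𝓝 (0 : ℂ),
      eval ![z1 t, Pfl v s (z1 t), Qfl v s (z1 t), Rfl v s (z1 t),
        Jc (mob (φ v) s (z2 t))] P = 0 := by
  rw [algebraicIndependent_iff] at dep
  push Not at dep
  obtain ⟨P, hP, hP0⟩ := dep
  refine ⟨P, hP0, ?_⟩
  -- the ball
  have hU : ∀ᶠ t in 𝓝 θ, AnalyticAt ℂ z1 t ∧ AnalyticAt ℂ z2 t ∧ 0 < (z1 t).im ∧
      0 < (z2 t).im := by
    have e1 := a1.eventually_analyticAt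
    have e2 := a2.eventually_analyticAt
    have e3 : ∀ᶠ t in 𝓝 θ, 0 < (z1 t).im :=
      (Complex.continuous_im.continuousAt.comp a1.continuousAt).eventually (lt_mem_nhds hz1)
    have e4 : ∀ᶠ t in 𝓝 θ, 0 < (z2 t).im :=
      (Complex.continuous_im.continuousAt.comp a2.continuousAt).eventually (lt_mem_nhds hz2)
    filter_upwards [e1, e2, e3, e4] with t b1 b2 b3 b4
    exact ⟨b1, b2, b3, b4⟩
  obtain ⟨ε, hε, hball⟩ := Metric.eventually_nhds_iff_ball.1 hU
  have hθ := hball θ (Metric.mem_ball_self hε)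
  have hxa : ∀ j, AnalyticAt ℂ (fun t => xb z1 z2 t j) θ :=
    analyticAt_xb h hθ.1 hθ.2.1 hθ.2.2.1 hθ.2.2.2
  have hone : G.T (fun _ => 1) = 1 := by
    rw [G.T_const, map_one]
  have hzero : G.T (fun _ => 0) = 0 := by
    rw [G.T_const, map_zero]
  set XF : Fin 9 → F := fun j => G.T (fun t => xb z1 z2 t j) with hXF
  -- the inverse discriminant
  have hinv : XF 8 * (XF 6 ^ 3 - XF 7 ^ 2) = 1 := by
    have e1 := T_eval G hxa (X 8 * (X 6 ^ 3 - X 7 ^ 2))
    have e2 : G.T (fun t => eval (xb z1 z2 t) (X 8 * (X 6 ^ 3 - X 7 ^ 2))) = G.T (fun _ => 1) := by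
      rw [G.T_eq _ _ (analyticAt_eval hxa _) analyticAt_const]
      filter_upwards [Metric.ball_mem_nhds θ hε] with t ht
      have := h.disc _ (hball t ht).2.2.2
      simp only [map_mul, map_sub, map_pow, MvPolynomial.eval_X]
      exact inv_mul_cancel₀ this
    rw [e2, hone] at e1
    simpa using e1.symm
  have hJ : G.T (fun x => Jc (z2 x)) = algebraMap ℂ F 1728 * XF 6 ^ 3 * XF 8 := by
    have e1 := T_eval G hxa (C 1728 * X 6 ^ 3 * X 8)
    have e0 : ∀ᶠ t in 𝓝 θ, eval (xb z1 z2 t) (C 1728 * X 6 ^ 3 * X 8) = Jc (z2 t) := by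
      filter_upwards [Metric.ball_mem_nhds θ hε] with t ht
      have h1 := h.disc _ (hball t ht).2.2.2
      have h2 := h.jinv _ (hball t ht).2.2.2
      simp only [map_mul, map_pow, MvPolynomial.eval_X, MvPolynomial.eval_C]
      change 1728 * Qc (z2 t) ^ 3 * (Qc (z2 t) ^ 3 - Rc (z2 t) ^ 2)⁻¹ = Jc (z2 t)
      rw [← h2, mul_inv_cancel_right₀ h1]
    have e2 : AnalyticAt ℂ (fun x => Jc (z2 x)) θ := (analyticAt_eval hxa _).congr e0
    have e3 : G.T (fun x => Jc (z2 x)) = G.T (fun t => eval (xb z1 z2 t) (C 1728 * X 6 ^ 3 * X 8)) := by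
      rw [G.T_eq _ _ e2 (analyticAt_eval hxa _)]
      filter_upwards [e0] with t ht
      exact ht.symm
    rw [e3, e1]
    simp [hXF]
  have hS0 : aeval XF (subst P) = 0 := by
    rw [aeval_subst, ← hJ]
    exact hP
  filter_upwards [Metric.ball_mem_nhds θ hε] with t0 ht0 v hv
  obtain ⟨δ, hδ1, hδ2, hW1, hW2⟩ := der v
  set w := φ v with hw
  have hwN : Nilp w := hN v hv
  have hδ1' : δ (XF 0) = 0 := hδ1
  have hδ2' : δ (XF 4) = 0 := hδ2
  have hW1' : IsW δ (XF 0) (XF 1) (XF 2) (XF 3) (fun k => algebraMap ℂ F (v k)) := hW1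
  have hW2' : IsW δ (XF 4) (XF 5) (XF 6) (XF 7) (fun k => algebraMap ℂ F (w k)) := hW2
  clear_value XF
  -- the derivation on the generators
  have hδX : ∀ j, δ (XF j) = aeval XF (vf v w j) := by
    intro j
    fin_cases j
    · simpa [vf] using hδ1'
    · have := hW1'.hp
      rw [hδ1', zero_add] at this
      simpa [vf, om0, om1] using this
    · have := hW1'.hq
      rw [hδ1', zero_add] at this
      simpa [vf, om0, om1] using this
    · have := hW1'.hr
      rw [hδ1', zero_add] at this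
      simpa [vf, om0, om1] using this
    · simpa [vf] using hδ2'
    · have := hW2'.hp
      rw [hδ2', zero_add] at this
      simpa [vf, om0, om1] using this
    · have := hW2'.hq
      rw [hδ2', zero_add] at this
      simpa [vf, om0, om1] using this
    · have := hW2'.hr
      rw [hδ2', zero_add] at this
      simpa [vf, om0, om1] using this
    · have hq := hW2'.hq
      have hr := hW2'.hr
      rw [hδ2', zero_add] at hq hr
      have e1 : δ (XF 8 * (XF 6 ^ 3 - XF 7 ^ 2)) = 0 := by
        rw [hinv]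
        exact δ.map_one_eq_zero
      simp only [Derivation.leibniz, map_sub, Derivation.leibniz_pow, smul_eq_mul, hq, hr] at e1
      have goal : δ (XF 8) = -XF 8 * (12 * XF 5 * om0 (fun k => algebraMap ℂ F (w k)) (XF 4) +
          6 * om1 (fun k => algebraMap ℂ F (w k)) (XF 4)) := by
        simp only [nsmul_eq_mul] at e1
        norm_num at e1
        set o0 := om0 (fun k => algebraMap ℂ F (w k)) (XF 4)
        set o1 := om1 (fun k => algebraMap ℂ F (w k)) (XF 4)
        linear_combination XF 8 * e1 -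
          (δ (XF 8) + XF 8 * (12 * XF 5 * o0 + 6 * o1)) * hinv
      simpa [vf, om0, om1] using goal
  -- iterates
  set Θ := mkDerivation ℂ (vf v w) with hΘ
  set S : ℕ → MvPolynomial (Fin 9) ℂ := fun k => (fun Q => Θ Q)^[k] (subst P) with hSdef
  have hSsucc : ∀ k, S (k + 1) = Θ (S k) := fun k => Function.iterate_succ_apply' _ _ _
  have hSX : ∀ k, aeval XF (S k) = 0 := by
    intro k
    induction k with
    | zero => exact hS0
    | succ k ih =>
      rw [hSsucc, hΘ, ← derivation_aeval δ hδX, ih, map_zero]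
  have hSt : ∀ k, ∀ t ∈ Metric.ball θ ε, eval (xb z1 z2 t) (S k) = 0 := by
    intro k
    have e1 := T_eval G hxa (S k)
    rw [← hXF, hSX k, ← hzero, G.T_eq _ _ (analyticAt_eval hxa _) analyticAt_const] at e1
    have e2 : AnalyticOnNhd ℂ (fun t => eval (xb z1 z2 t) (S k)) (Metric.ball θ ε) := by
      intro t ht
      have b := hball t ht
      exact analyticAt_eval (analyticAt_xb h b.1 b.2.1 b.2.2.1 b.2.2.2) _
    exact e2.eqOn_zero_of_preconnected_of_eventuallyEq_zero
      (convex_ball θ ε).isPreconnected (Metric.mem_ball_self hε) e1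
  have b0 := hball t0 ht0
  have hfl : ∀ᶠ s in 𝓝 (0 : ℂ), (den v s (z1 t0) ≠ 0 ∧ 0 < (mob v s (z1 t0)).im) ∧
      (den w s (z2 t0) ≠ 0 ∧ 0 < (mob w s (z2 t0)).im) :=
    (eventually_flow v b0.2.2.1).and (eventually_flow w b0.2.2.2)
  have hz := eventually_zero (g := fun k s => eval (xfl v w (z1 t0) (z2 t0) s) (S k))
    (by
      filter_upwards [hfl] with s hs k
      have := hasDerivAt_eval (fun j => hasDerivAt_xfl h hv hwN hs.1.1 hs.1.2 hs.2.1 hs.2.2 j)
        (S k)
      rw [hSsucc]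
      exact this)
    (by
      intro k
      rw [xfl_zero]
      exact hSt k t0 ht0)
  filter_upwards [hz, hfl] with s hs hs'
  have e1 : eval (xfl v w (z1 t0) (z2 t0) s) (subst P) = 0 := hs
  rw [eval_subst] at e1
  rw [← (disc_fl h hs'.2.1 hs'.2.2).2]
  exact e1

/-- PERSIST. -/
theorem specPersist (h : SpecRam) : SpecPersist := by
  intro θ F _ _ G z1 z2 φ a1 a2 hz1 hz2 L
  have hbr' : ∀ u v, φ.symm (br u v) = br (φ.symm u) (φ.symm v) := by
    intro u v
    apply φ.injective
    rw [L.br, LinearEquiv.apply_symm_apply, LinearEquiv.apply_symm_apply,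
      LinearEquiv.apply_symm_apply]
  refine ⟨L.br, ?_, ?_⟩
  · exact persist_rel h G z1 z2 φ (nilp_of_br φ L.br) a1 a2 hz1 hz2 L.der L.dep
  · refine persist_rel h G z2 z1 φ.symm (nilp_of_br φ.symm hbr') a2 a1 hz2 hz1 ?_ L.dep'
    intro v
    obtain ⟨δ, h1, h2, h3, h4⟩ := L.der (φ.symm v)
    refine ⟨δ, h2, h1, ?_, h3⟩
    simpa using h4

end Pool.Agent.Lib.MP_47914d_nt
end

section
/-!
Module DEREXT: derivations extend along field extensions in characteristic zero.
-/
set_option autoImplicit false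
set_option linter.style.haveILetI false
set_option linter.unusedSimpArgs false

namespace Pool.Agent.Lib.MP_47914d_nt

/-- Field extensions in characteristic zero are formally smooth. -/
theorem formallySmooth_of_charZero (k L : Type) [Field k] [Field L] [Algebra k L] [CharZero k] :
    Algebra.FormallySmooth k L := by
  obtain ⟨t, ht⟩ := exists_isTranscendenceBasis k L
  have h2 : Algebra.IsAlgebraic (IntermediateField.adjoin k (Set.range ((↑) : t → L))) L :=
    ht.isAlgebraic_field
  exact Algebra.FormallySmooth.of_algebraicIndependent_of_isSeparable ht.1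

theorem exists_section {k L B : Type} [Field k] [Field L] [Algebra k L] [CommRing B]
    [Algebra.FormallySmooth k L] (φ : k →+* B) (g : B →+* L) (hg : Function.Surjective g)
    (hk : IsNilpotent (RingHom.ker g)) (h : ∀ a, g (φ a) = algebraMap k L a) :
    ∃ s : L →+* B, (∀ x, g (s x) = x) ∧ ∀ a, s (algebraMap k L a) = φ a := by
  letI : Algebra k B := φ.toAlgebra
  let g' : B →ₐ[k] L := { g with commutes' := h }
  have hg' : IsNilpotent (RingHom.ker (g' : B →+* L)) := hk
  let s := Algebra.FormallySmooth.liftOfSurjective (AlgHom.id k L) g' hg hg'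
  refine ⟨s, fun x => ?_, fun a => ?_⟩
  · exact Algebra.FormallySmooth.liftOfSurjective_apply (AlgHom.id k L) g' hg hg' x
  · exact s.commutes a

open scoped IntermediateField.algebraAdjoinAdjoin in
theorem exists_der_of_basis' {k F : Type} [Field k] [Field F] [Algebra k F] [CharZero k]
    {t : Set F} (ht : IsTranscendenceBasis k ((↑) : t → F)) (c : t → F) :
    ∃ δ : Derivation k F F, ∀ i : t, δ (i : F) = c i := by
  classical
  let v : t → F := (↑)
  have hv : AlgebraicIndependent k v := ht.1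
  let A' := Algebra.adjoin k (Set.range v)
  let K' := IntermediateField.adjoin k (Set.range v)

  have h1 : Algebra.FormallyEtale A' K' := .of_isLocalization (nonZeroDivisors _)
  have h2 : Algebra.IsAlgebraic K' F := ht.isAlgebraic_field
  have h3 : Algebra.FormallyEtale K' F := Algebra.FormallyEtale.of_isSeparable K' F
  have h4 : Algebra.FormallyEtale A' F := .comp A' K' F
  let e : MvPolynomial t k ≃ₐ[k] A' := hv.aevalEquiv
  have he : ∀ p, ((e p : A') : F) = MvPolynomial.aeval v p := fun p =>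
    hv.algebraMap_aevalEquiv p
  letI : Algebra (MvPolynomial t k) F := (MvPolynomial.aeval v : MvPolynomial t k →ₐ[k] F).toAlgebra
  haveI : IsScalarTower k (MvPolynomial t k) F := IsScalarTower.of_algebraMap_eq fun x => by
    change _ = MvPolynomial.aeval v (MvPolynomial.C x)
    simp
  have hsm : ∀ (p : MvPolynomial t k) (f : F), p • f = MvPolynomial.aeval v p * f := fun p f => by
    rw [Algebra.smul_def]; rfl
  let d₀ : Derivation k (MvPolynomial t k) F := MvPolynomial.mkDerivation k c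
  let d : Derivation k A' F := Derivation.mk' (d₀.toLinearMap.comp e.symm.toLinearMap) (by
    intro a b
    change d₀ (e.symm (a * b)) = a • d₀ (e.symm b) + b • d₀ (e.symm a)
    rw [map_mul, d₀.leibniz, hsm, hsm, ← he, ← he, AlgEquiv.apply_symm_apply,
      AlgEquiv.apply_symm_apply]
    rfl)
  obtain ⟨δ, hδ⟩ := exists_der_of_etale d
  refine ⟨δ, fun i => ?_⟩
  have h := hδ (e (MvPolynomial.X i))
  have h5 : algebraMap A' F (e (MvPolynomial.X i)) = (i : F) := by
    change ((e (MvPolynomial.X i) : A') : F) = _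
    rw [he, MvPolynomial.aeval_X]
  rw [h5] at h
  rw [h]
  change d₀ (e.symm (e (MvPolynomial.X i))) = c i
  rw [AlgEquiv.symm_apply_apply]
  exact MvPolynomial.mkDerivation_X k c i

theorem specDerExt : SpecDerExt where
  ext := by
    intro k L _ _ _ _ _ _ d hadd hmul hc
    haveI : CharZero k := charZero_of_injective_algebraMap (algebraMap ℂ k).injective
    haveI := formallySmooth_of_charZero k L
    have h1 : d 1 = 0 := by
      have h := hmul 1 1
      simp only [mul_one, map_one, one_mul] at h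
      exact left_eq_add.1 h
    have h0 : d 0 = 0 := by
      have h := hadd 0 0
      simp only [add_zero] at h
      exact left_eq_add.1 h
    let φ : k →+* TrivSqZeroExt L L :=
      { toFun := fun a => TrivSqZeroExt.inl (algebraMap k L a) + TrivSqZeroExt.inr (d a)
        map_one' := by ext <;> simp [h1]
        map_mul' := fun a b => by ext <;> simp [hmul, mul_comm]
        map_zero' := by ext <;> simp [h0]
        map_add' := fun a b => by ext <;> simp [hadd] }
    let g : TrivSqZeroExt L L →+* L := (TrivSqZeroExt.fstHom L L L).toRingHom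
    have hg : ∀ x, g x = x.fst := fun x => rfl
    obtain ⟨s, hs, hs'⟩ := exists_section (k := k) φ g (fun x => ⟨TrivSqZeroExt.inl x, by
      rw [hg]; simp⟩) ⟨2, by
        rw [Ideal.zero_eq_bot, eq_bot_iff, sq]
        refine Ideal.mul_le.2 fun x hx y hy => ?_
        rw [RingHom.mem_ker, hg] at hx hy
        rw [Ideal.mem_bot]
        ext <;> simp [hx, hy]⟩ (fun a => by rw [hg]; simp [φ])
    have hfst : ∀ x, (s x).fst = x := hs
    have hsC : ∀ c : ℂ, (s (algebraMap ℂ L c)).snd = 0 := fun c => by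
      rw [IsScalarTower.algebraMap_apply ℂ k L, hs']
      simp [φ, hc]
    let D₀ : L →ₗ[ℂ] L :=
      { toFun := fun x => (s x).snd
        map_add' := fun x y => by simp
        map_smul' := fun c x => by
          rw [Algebra.smul_def, map_mul, TrivSqZeroExt.snd_mul, hsC, hfst]
          simp [Algebra.smul_def] }
    refine ⟨Derivation.mk' D₀ fun a b => ?_, fun a => ?_⟩
    · change (s (a * b)).snd = a • (s b).snd + b • (s a).snd
      rw [map_mul, TrivSqZeroExt.snd_mul, hfst, hfst]
      simp [mul_comm]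
    · change (s (algebraMap k L a)).snd = d a
      rw [hs']
      simp [φ]
  trans := by
    intro k L _ _ _ _ _ _ x hx
    haveI : CharZero k := charZero_of_injective_algebraMap (algebraMap ℂ k).injective
    classical
    have hx' : AlgebraicIndependent k (fun _ : Unit => x) :=
      (algebraicIndependent_unique_type_iff).2 hx
    obtain ⟨t, hst, ht⟩ := exists_isTranscendenceBasis_superset (R := k)
      (s := Set.range fun _ : Unit => x) hx'.coe_range
    obtain ⟨δ, hδ⟩ := exists_der_of_basis' ht (fun i => if (i : L) = x then 1 else 0)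
    refine ⟨δ.restrictScalars ℂ, fun a => ?_, ?_⟩
    · change δ (algebraMap k L a) = 0
      exact δ.map_algebraMap a
    · change δ x = 1
      have h := hδ ⟨x, hst ⟨(), rfl⟩⟩
      simpa using h

end Pool.Agent.Lib.MP_47914d_nt
end
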