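import Pool.Agent.Lib.MP_47914d_nt.Defs
import Pool.Agent.Lib.MP_47914d_nt.Defs2

section
/-!
Module LIOU: Liouville inequality for several algebraic numbers.
-/
set_option autoImplicit false

open Polynomial

namespace Pool.Agent.Lib.MP_47914d_nt

/-- Sum of the absolute values of the coefficients. -/
noncomputable def coefSum {n : ℕ} (P : MvPolynomial (Fin n) ℤ) : ℕ :=
  ∑ m ∈ P.support, (P.coeff m).natAbs

lemma norm_aeval_le_coefSum {n : ℕ} (P : MvPolynomial (Fin n) ℤ) (x : Fin n → ℂ) {R : ℝ}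
    (hR : 1 ≤ R) (hx : ∀ i, ‖x i‖ ≤ R) :
    ‖MvPolynomial.aeval x P‖ ≤ (coefSum P : ℝ) * R ^ P.totalDegree := by
  rw [MvPolynomial.aeval_def, MvPolynomial.eval₂_eq']
  refine (norm_sum_le _ _).trans ?_
  rw [coefSum, Nat.cast_sum, Finset.sum_mul]
  refine Finset.sum_le_sum fun m hm => ?_
  rw [norm_mul]
  have h1 : ‖(algebraMap ℤ ℂ) (MvPolynomial.coeff m P)‖ = ((MvPolynomial.coeff m P).natAbs : ℝ) := by
    simp [Nat.cast_natAbs]
  rw [h1]
  refine mul_le_mul_of_nonneg_left ?_ (Nat.cast_nonneg _)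
  rw [norm_prod]
  calc ∏ i, ‖x i ^ m i‖ ≤ ∏ i, R ^ m i := by
        refine Finset.prod_le_prod (fun i _ => norm_nonneg _) fun i _ => ?_
        rw [norm_pow]
        exact pow_le_pow_left₀ (norm_nonneg _) (hx i) _
    _ = R ^ (∑ i, m i) := by rw [Finset.prod_pow_eq_pow_sum]
    _ ≤ R ^ P.totalDegree := by
        refine pow_le_pow_right₀ hR ?_
        have := MvPolynomial.le_totalDegree hm
        rwa [Finsupp.sum_fintype] at this
        intro i; rfl

lemma isIntegral_pow_mul_aeval {n : ℕ} {A : Type*} [Field A] (P : MvPolynomial (Fin n) ℤ)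
    (x : Fin n → A) (L : ℤ) (hx : ∀ i, IsIntegral ℤ ((L : A) * x i)) :
    IsIntegral ℤ ((L : A) ^ P.totalDegree * MvPolynomial.aeval x P) := by
  rw [MvPolynomial.aeval_def, MvPolynomial.eval₂_eq', Finset.mul_sum]
  refine IsIntegral.sum _ fun m hm => ?_
  have hdeg : ∑ i, m i ≤ P.totalDegree := by
    have := MvPolynomial.le_totalDegree hm
    rwa [Finsupp.sum_fintype] at this
    intro i; rfl
  have key : (L : A) ^ P.totalDegree * ((algebraMap ℤ A) (MvPolynomial.coeff m P) * ∏ i, x i ^ m i)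
      = (algebraMap ℤ A) (MvPolynomial.coeff m P) *
        ((algebraMap ℤ A) L ^ (P.totalDegree - ∑ i, m i) * ∏ i, ((L : A) * x i) ^ m i) := by
    have h1 : ∏ i, ((L : A) * x i) ^ m i = (L : A) ^ (∑ i, m i) * ∏ i, x i ^ m i := by
      rw [← Finset.prod_pow_eq_pow_sum, ← Finset.prod_mul_distrib]
      exact Finset.prod_congr rfl fun i _ => mul_pow _ _ _
    rw [h1]
    have h2 : (L : A) ^ P.totalDegree = (L : A) ^ (P.totalDegree - ∑ i, m i) * (L : A) ^ (∑ i, m i) := by
      rw [← pow_add]; congr 1; omega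
    rw [h2]
    simp only [algebraMap_int_eq, eq_intCast]
    ring
  rw [key]
  refine isIntegral_algebraMap.mul ((isIntegral_algebraMap.pow _).mul ?_)
  exact IsIntegral.prod _ fun i _ => (hx i).pow _

theorem specLiouville : SpecLiouville := by
  intro n P
  set D := P.totalDegree with hD
  refine ⟨n + 1 + (n * D + D + coefSum P), fun B hB α hα => ?_⟩
  by_cases hv : MvPolynomial.aeval α P = 0
  · exact Or.inl hv
  right
  choose F hF0 hFα hFdeg hFlc hFroots using hα
  -- the number field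
  set K := IntermediateField.adjoin ℚ (Set.range α) with hK
  have hint : ∀ i, IsIntegral ℚ (α i) := by
    intro i
    refine IsAlgebraic.isIntegral ?_
    refine ⟨(F i).map (Int.castRingHom ℚ), ?_, ?_⟩
    · exact (Polynomial.map_ne_zero_iff (RingHom.injective_int _)).2 (hF0 i)
    · have : aeval (α i) ((F i).map (Int.castRingHom ℚ)) = aeval (α i) (F i) := by
        rw [← algebraMap_int_eq, aeval_map_algebraMap]
      rw [this, hFα i]
  have hfd : FiniteDimensional ℚ K := by
    refine IntermediateField.finiteDimensional_adjoin ?_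
    rintro x ⟨i, rfl⟩
    exact hint i
  -- generators in K
  let β : Fin n → K := fun i => ⟨α i, IntermediateField.subset_adjoin _ _ ⟨i, rfl⟩⟩
  have hβF : ∀ i, aeval (β i) (F i) = 0 := by
    intro i
    have h : (algebraMap K ℂ) (aeval (β i) (F i)) = aeval (α i) (F i) := by
      rw [← aeval_algebraMap_apply]; rfl
    rw [hFα i] at h
    exact (map_eq_zero _).1 h
  set L : ℤ := ∏ i, (F i).leadingCoeff with hL
  have hL0 : L ≠ 0 := Finset.prod_ne_zero_iff.2 fun i _ => leadingCoeff_ne_zero.2 (hF0 i)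
  have hLβ : ∀ i, IsIntegral ℤ ((L : K) * β i) := by
    intro i
    have h1 : IsIntegral ℤ ((F i).leadingCoeff • β i) := isIntegral_leadingCoeff_smul _ _ (hβF i)
    have h2 : (L : K) * β i = ((∏ j ∈ Finset.univ.erase i, (F j).leadingCoeff : ℤ) : K) *
        ((F i).leadingCoeff • β i) := by
      rw [hL, ← Finset.mul_prod_erase _ _ (Finset.mem_univ i), zsmul_eq_mul]
      push_cast
      ring
    rw [h2]
    refine IsIntegral.mul ?_ h1
    exact isIntegral_algebraMap (R := ℤ) (A := K) (x := _)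
  set y : K := (L : K) ^ D * MvPolynomial.aeval β P with hy
  have hyint : IsIntegral ℤ y := isIntegral_pow_mul_aeval P β L hLβ
  have hyval : ∀ σ : K →ₐ[ℚ] ℂ, σ y = (L : ℂ) ^ D * MvPolynomial.aeval (fun i => σ (β i)) P := by
    intro σ
    rw [hy, map_mul, map_pow, map_intCast]
    congr 1
    rw [MvPolynomial.aeval_def, MvPolynomial.aeval_def, MvPolynomial.eval₂_eq', MvPolynomial.eval₂_eq',
      map_sum]
    refine Finset.sum_congr rfl fun m _ => ?_
    rw [map_mul, map_prod]
    simp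
  have hyα : (K.val) y = (L : ℂ) ^ D * MvPolynomial.aeval α P := hyval K.val
  have hy0 : y ≠ 0 := by
    intro h
    rw [h, map_zero] at hyα
    have : (L : ℂ) ^ D ≠ 0 := pow_ne_zero _ (Int.cast_ne_zero.2 hL0)
    exact hv ((mul_eq_zero.1 hyα.symm).resolve_left this)
  -- norm
  have hnorm : (algebraMap ℚ ℂ) (Algebra.norm ℚ y) = ∏ σ : K →ₐ[ℚ] ℂ, σ y :=
    Algebra.norm_eq_prod_embeddings ℚ ℂ y
  have hnint : IsIntegral ℤ (Algebra.norm ℚ y) := Algebra.isIntegral_norm ℚ hyint
  obtain ⟨N, hN⟩ := IsIntegrallyClosed.isIntegral_iff.1 hnint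
  have hN0 : N ≠ 0 := by
    rintro rfl
    rw [map_zero] at hN
    exact hy0 (Algebra.norm_eq_zero_iff.1 hN.symm)
  have hprod : 1 ≤ ∏ σ : K →ₐ[ℚ] ℂ, ‖σ y‖ := by
    rw [← norm_prod, ← hnorm, ← hN]
    have : ‖(algebraMap ℚ ℂ) ((algebraMap ℤ ℚ) N)‖ = |(N : ℝ)| := by
      simp
    rw [this]
    exact_mod_cast Int.one_le_abs hN0
  -- bounds
  have hσF : ∀ (σ : K →ₐ[ℚ] ℂ) (i : Fin n), σ (β i) ∈ (F i).aroots ℂ := by
    intro σ i
    rw [mem_aroots]
    refine ⟨hF0 i, ?_⟩
    have h : aeval (σ (β i)) (F i) = σ (aeval (β i) (F i)) := by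
      rw [aeval_def, aeval_def, ← AlgHom.coe_toRingHom, hom_eval₂]
      congr 1
      exact RingHom.ext_int _ _
    rw [h, hβF i, map_zero]
  have hBpos : (0 : ℝ) < B := by exact_mod_cast (by omega : 0 < B)
  have hexp1 : (1 : ℝ) ≤ Real.exp B := Real.one_le_exp hBpos.le
  have hcS : 1 ≤ coefSum P := by
    by_contra hc
    have hc0 : coefSum P = 0 := by omega
    apply hv
    have hP0 : P = 0 := by
      by_contra hP
      obtain ⟨m, hm⟩ := MvPolynomial.ne_zero_iff.1 hP
      have h1 : (P.coeff m).natAbs ≤ coefSum P :=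
        Finset.single_le_sum (f := fun m => (P.coeff m).natAbs) (fun _ _ => Nat.zero_le _)
          (MvPolynomial.mem_support_iff.2 hm)
      rw [hc0] at h1
      exact hm (Int.natAbs_eq_zero.1 (by omega))
    rw [hP0, map_zero]
  have hLle : ‖(L : ℂ)‖ ≤ Real.exp (n * B) := by
    have h1 : ‖(L : ℂ)‖ = ∏ i, |((F i).leadingCoeff : ℝ)| := by
      rw [hL]
      push_cast
      rw [norm_prod]
      exact Finset.prod_congr rfl fun i _ => by rw [Complex.norm_intCast]
    rw [h1]
    calc ∏ i, |((F i).leadingCoeff : ℝ)| ≤ ∏ _i : Fin n, Real.exp B :=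
          Finset.prod_le_prod (fun i _ => abs_nonneg _) fun i _ => hFlc i
      _ = Real.exp (n * B) := by
          rw [Finset.prod_const, Finset.card_univ, Fintype.card_fin, ← Real.exp_nat_mul]
  set k : ℕ := n * D + D + coefSum P with hk
  have hM : ∀ σ : K →ₐ[ℚ] ℂ, ‖σ y‖ ≤ Real.exp (k * B) := by
    intro σ
    rw [hyval σ, norm_mul, norm_pow]
    have h1 := norm_aeval_le_coefSum P (fun i => σ (β i)) hexp1
      (fun i => hFroots i _ (hσF σ i))
    have h2 : (coefSum P : ℝ) ≤ Real.exp (coefSum P * B) := by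
      have h3 : (coefSum P : ℝ) ≤ coefSum P * B := by
        have : (1 : ℝ) ≤ B := by exact_mod_cast (by omega : 1 ≤ B)
        nlinarith [Nat.cast_nonneg (α := ℝ) (coefSum P)]
      linarith [Real.add_one_le_exp ((coefSum P : ℝ) * B)]
    calc ‖(L : ℂ)‖ ^ D * ‖MvPolynomial.aeval (fun i => σ (β i)) P‖
        ≤ Real.exp (n * B) ^ D * (Real.exp (coefSum P * B) * Real.exp B ^ D) := by
          refine mul_le_mul (pow_le_pow_left₀ (norm_nonneg _) hLle _) (h1.trans ?_)
            (norm_nonneg _) (by positivity)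
          exact mul_le_mul_of_nonneg_right h2 (by positivity)
      _ = Real.exp (k * B) := by
          rw [← Real.exp_nat_mul, ← Real.exp_nat_mul, ← Real.exp_add, ← Real.exp_add]
          congr 1
          rw [hk]; push_cast; ring
  have hcard : Fintype.card (K →ₐ[ℚ] ℂ) ≤ B ^ n := by
    classical
    let T : Fin n → Finset ℂ := fun i => ((F i).aroots ℂ).toFinset
    have hT : ∀ i, (T i).card ≤ B := by
      intro i
      refine (Multiset.toFinset_card_le _).trans ?_
      refine (card_roots' _).trans ?_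
      exact natDegree_map_le.trans (hFdeg i)
    let ι : (K →ₐ[ℚ] ℂ) → Fintype.piFinset T := fun σ =>
      ⟨fun i => σ (β i), Fintype.mem_piFinset.2 fun i => Multiset.mem_toFinset.2 (hσF σ i)⟩
    have hι : Function.Injective ι := by
      intro σ τ hστ
      refine IntermediateField.algHom_ext_of_eq_adjoin ℚ hK ?_
      rintro x ⟨i, rfl⟩
      exact congrFun (congrArg Subtype.val hστ) i
    calc Fintype.card (K →ₐ[ℚ] ℂ) ≤ Fintype.card (Fintype.piFinset T) :=
          Fintype.card_le_of_injective ι hι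
      _ = ∏ i, (T i).card := by rw [Fintype.card_coe, Fintype.card_piFinset]
      _ ≤ ∏ _i : Fin n, B := Finset.prod_le_prod' fun i _ => hT i
      _ = B ^ n := by simp
  -- conclusion
  classical
  have hsplit : ∏ σ : K →ₐ[ℚ] ℂ, ‖σ y‖ =
      ‖(K.val) y‖ * ∏ σ ∈ Finset.univ.erase K.val, ‖σ y‖ :=
    (Finset.mul_prod_erase Finset.univ (fun σ : K →ₐ[ℚ] ℂ => ‖σ y‖) (Finset.mem_univ K.val)).symm
  have hrest : ∏ σ ∈ Finset.univ.erase K.val, ‖σ y‖ ≤ Real.exp (k * B) ^ (B ^ n - 1) := by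
    calc ∏ σ ∈ Finset.univ.erase K.val, ‖σ y‖
        ≤ ∏ _σ ∈ Finset.univ.erase K.val, Real.exp (k * B) :=
          Finset.prod_le_prod (fun _ _ => norm_nonneg _) fun σ _ => hM σ
      _ = Real.exp (k * B) ^ (Finset.univ.erase K.val).card := by rw [Finset.prod_const]
      _ ≤ Real.exp (k * B) ^ (B ^ n - 1) := by
          refine pow_le_pow_right₀ (Real.one_le_exp (by positivity)) ?_
          rw [Finset.card_erase_of_mem (Finset.mem_univ _), Finset.card_univ]
          exact Nat.sub_le_sub_right hcard 1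
  have hval : ‖(K.val) y‖ ≤ Real.exp (k * B) * ‖MvPolynomial.aeval α P‖ := by
    rw [hyα, norm_mul, norm_pow]
    refine mul_le_mul_of_nonneg_right ?_ (norm_nonneg _)
    refine (pow_le_pow_left₀ (norm_nonneg _) hLle _).trans ?_
    rw [← Real.exp_nat_mul]
    refine Real.exp_le_exp.2 ?_
    rw [hk]; push_cast
    have : (0 : ℝ) ≤ (D + coefSum P) * B := by positivity
    nlinarith
  have hBn : 1 ≤ B ^ n := Nat.one_le_pow _ _ (by omega)
  have hfin : 1 ≤ Real.exp (k * B * B ^ n) * ‖MvPolynomial.aeval α P‖ := by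
    calc (1 : ℝ) ≤ ‖(K.val) y‖ * ∏ σ ∈ Finset.univ.erase K.val, ‖σ y‖ := by
          rw [← hsplit]; exact hprod
      _ ≤ (Real.exp (k * B) * ‖MvPolynomial.aeval α P‖) * Real.exp (k * B) ^ (B ^ n - 1) :=
          mul_le_mul hval hrest (Finset.prod_nonneg fun _ _ => norm_nonneg _) (by positivity)
      _ = (Real.exp (k * B) ^ (B ^ n - 1) * Real.exp (k * B)) * ‖MvPolynomial.aeval α P‖ := by ring
      _ = Real.exp (k * B * B ^ n) * ‖MvPolynomial.aeval α P‖ := by
          rw [← pow_succ, Nat.sub_add_cancel hBn, ← Real.exp_nat_mul]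
          congr 2
          push_cast; ring
  have hlow : Real.exp (-(k * B * B ^ n)) ≤ ‖MvPolynomial.aeval α P‖ := by
    rw [Real.exp_neg]
    exact (inv_le_iff_one_le_mul₀' (Real.exp_pos _)).2 hfin
  refine le_trans (Real.exp_le_exp.2 (neg_le_neg ?_)) hlow
  have hkB : (k : ℝ) ≤ (B : ℝ) ^ k := by
    have : k ≤ B ^ k := (Nat.lt_pow_self (by omega)).le
    exact_mod_cast this
  calc (k : ℝ) * B * B ^ n ≤ (B : ℝ) ^ k * B * B ^ n := by gcongr
    _ = (B : ℝ) ^ (n + 1 + k) := by rw [pow_add, pow_add]; ring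

end Pool.Agent.Lib.MP_47914d_nt
end

section
/-!
Module NEWTON: from integral power sums to the (denominator cleared) modular polynomial.
-/
set_option autoImplicit false

open Polynomial

namespace Pool.Agent.Lib.MP_47914d_nt

open Finset in
/-- Newton's identities: factorial multiples of elementary symmetric functions are integral
polynomials in the power sums. -/
lemma newton_family {σ Z : Type*} [Fintype σ] (S : Set Z) (N : ℕ) (j : Z → ℂ) (x : Z → σ → ℂ)
    (h : ∀ m : ℕ, ∃ Q : ℤ[X], Q.natDegree ≤ m * N ∧ ∀ z ∈ S, ∑ i, x z i ^ m = aeval (j z) Q) :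
    ∀ k : ℕ, ∃ E : ℤ[X], E.natDegree ≤ k * N ∧ ∀ z ∈ S,
      aeval (j z) E = (k.factorial : ℂ) * MvPolynomial.aeval (x z) (MvPolynomial.esymm σ ℤ k) := by
  classical
  choose Q hQdeg hQ using h
  intro k
  induction k using Nat.strong_induction_on with
  | _ k ih =>
    rcases Nat.eq_zero_or_pos k with rfl | hk
    · refine ⟨1, by simp, fun z _ => by simp⟩
    choose! E hEdeg hE using ih
    refine ⟨(-1) ^ (k + 1) * ∑ a ∈ antidiagonal k with a.1 < k,
        (-1) ^ a.1 * (C (((k - 1).factorial / a.1.factorial : ℕ) : ℤ)) * E a.1 * Q a.2, ?_, ?_⟩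
    · refine natDegree_mul_le.trans ?_
      have h1 : ((-1 : ℤ[X]) ^ (k + 1)).natDegree ≤ 0 := by
        refine natDegree_pow_le.trans ?_
        simp
      have h2 : (∑ a ∈ antidiagonal k with a.1 < k,
          (-1 : ℤ[X]) ^ a.1 * (C (((k - 1).factorial / a.1.factorial : ℕ) : ℤ)) * E a.1 * Q a.2).natDegree
          ≤ k * N := by
        refine natDegree_sum_le_of_forall_le _ _ fun a ha => ?_
        rw [mem_filter, HasAntidiagonal.mem_antidiagonal] at ha
        have h3 : ((-1 : ℤ[X]) ^ a.1).natDegree ≤ 0 := by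
          refine natDegree_pow_le.trans ?_
          simp
        have h4 := hEdeg a.1 ha.2
        have h5 := hQdeg a.2
        refine natDegree_mul_le.trans ?_
        have h6 : ((-1 : ℤ[X]) ^ a.1 * (C (((k - 1).factorial / a.1.factorial : ℕ) : ℤ)) *
            E a.1).natDegree ≤ a.1 * N := by
          refine natDegree_mul_le.trans ?_
          have h7 : ((-1 : ℤ[X]) ^ a.1 * (C (((k - 1).factorial / a.1.factorial : ℕ) : ℤ))).natDegree
              ≤ 0 := by
            refine natDegree_mul_le.trans ?_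
            rw [natDegree_C]
            omega
          omega
        have h8 : a.1 * N + a.2 * N = k * N := by rw [← ha.1]; ring
        omega
      omega
    · intro z hz
      have hN := congrArg (MvPolynomial.aeval (x z)) (MvPolynomial.mul_esymm_eq_sum σ ℤ k)
      rw [map_mul, map_mul, map_sum, map_pow, map_neg, map_one, map_natCast] at hN
      have hfac : (k.factorial : ℂ) = ((k - 1).factorial : ℂ) * k := by
        have : k.factorial = k * (k - 1).factorial := (Nat.mul_factorial_pred (by omega)).symm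
        rw [this]; push_cast; ring
      rw [hfac, mul_assoc, hN, map_mul, map_sum, map_pow, map_neg, map_one, ← mul_assoc,
        mul_comm ((k - 1).factorial : ℂ), mul_assoc]
      congr 1
      rw [mul_sum]
      refine sum_congr rfl fun a ha => ?_
      rw [mem_filter, HasAntidiagonal.mem_antidiagonal] at ha
      simp only [map_mul, map_pow, map_neg, map_one, hE a.1 ha.2 z hz]
      have hp : MvPolynomial.aeval (x z) (MvPolynomial.psum σ ℤ a.2) = aeval (j z) (Q a.2) := by
        rw [← hQ a.2 z hz, MvPolynomial.psum, map_sum]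
        refine sum_congr rfl fun i _ => ?_
        rw [map_pow, MvPolynomial.aeval_X]
      rw [hp, aeval_C]
      have hdiv : (((k - 1).factorial / a.1.factorial : ℕ) : ℂ) * (a.1.factorial : ℂ)
          = ((k - 1).factorial : ℂ) := by
        rw [← Nat.cast_mul, Nat.div_mul_cancel (Nat.factorial_dvd_factorial (by omega))]
      rw [← hdiv]
      simp only [algebraMap_int_eq, eq_intCast, Int.cast_natCast]
      ring

open Finset in
theorem specNewton : SpecNewton := by
  classical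
  intro N hN h
  let σ := Σ p : {p : ℕ × ℕ // p ∈ N.divisorsAntidiagonal}, Fin p.1.2
  let x : ℂ → σ → ℂ := fun z s => Jc (((s.1.1.1 : ℂ) * z + ((s.2 : ℕ) : ℂ)) / (s.1.1.2 : ℂ))
  set M := ∑ p ∈ N.divisorsAntidiagonal, p.2 with hM
  have hcard : Fintype.card σ = M := by
    rw [Fintype.card_sigma, hM, ← Finset.sum_coe_sort N.divisorsAntidiagonal]
    simp
  have hsum : ∀ (m : ℕ) (z : ℂ), ∑ s, x z s ^ m = heckeSum N (fun w => Jc w ^ m) z := by
    intro m z
    rw [heckeSum, Fintype.sum_sigma, ← Finset.sum_coe_sort N.divisorsAntidiagonal]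
    refine Finset.sum_congr rfl fun p _ => ?_
    rw [Finset.sum_range]
  have hprod : ∀ z : ℂ, ∏ s, (Jc z - x z s) = ∏ p ∈ N.divisorsAntidiagonal,
      ∏ b ∈ Finset.range p.2, (Jc z - Jc (((p.1 : ℂ) * z + (b : ℂ)) / (p.2 : ℂ))) := by
    intro z
    rw [Fintype.prod_sigma, ← Finset.prod_coe_sort N.divisorsAntidiagonal]
    refine Finset.prod_congr rfl fun p _ => ?_
    rw [Finset.prod_range]
  obtain hE := newton_family (σ := σ) {z : ℂ | 0 < z.im} N Jc x (fun m => by
    obtain ⟨Q, hQ1, hQ2⟩ := h m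
    exact ⟨Q, hQ1, fun z hz => by rw [hsum m z]; exact hQ2 z hz⟩)
  choose E hEdeg hE using hE
  refine ⟨∑ k ∈ Finset.range (M + 1), (-1) ^ k * C ((M.factorial / k.factorial : ℕ) : ℤ) * E k *
    X ^ (M - k), ?_, ?_⟩
  · have hMN : M ≤ N ^ 2 := by
      rw [hM]
      have h1 : ∀ p ∈ N.divisorsAntidiagonal, p.2 ≤ N := fun p hp => by
        have := Nat.divisor_le (Nat.snd_mem_divisors_of_mem_antidiagonal hp)
        exact this
      refine (Finset.sum_le_sum h1).trans ?_
      rw [Finset.sum_const, smul_eq_mul]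
      have h2 : N.divisorsAntidiagonal.card ≤ N := by
        rw [← Nat.map_div_right_divisors, Finset.card_map]
        exact Nat.card_divisors_le_self N
      nlinarith
    have hmain : M * N ≤ N ^ 4 + 1 := by
      have h1 : M * N ≤ N ^ 2 * N := Nat.mul_le_mul_right _ hMN
      have h2 : N ^ 2 * N ≤ N ^ 4 := by
        rw [← pow_succ]
        exact Nat.pow_le_pow_right hN (by norm_num)
      omega
    refine le_trans ?_ hmain
    refine natDegree_sum_le_of_forall_le _ _ fun k hk => ?_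
    rw [Finset.mem_range] at hk
    have h3 : ((-1 : ℤ[X]) ^ k).natDegree ≤ 0 := by
      refine natDegree_pow_le.trans ?_
      simp
    have h4 : ((-1 : ℤ[X]) ^ k * C ((M.factorial / k.factorial : ℕ) : ℤ)).natDegree ≤ 0 := by
      refine natDegree_mul_le.trans ?_
      rw [natDegree_C]
      omega
    have h5 : ((-1 : ℤ[X]) ^ k * C ((M.factorial / k.factorial : ℕ) : ℤ) * E k).natDegree
        ≤ k * N := by
      refine natDegree_mul_le.trans ?_
      have := hEdeg k
      omega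
    refine natDegree_mul_le.trans ?_
    rw [natDegree_X_pow]
    have h6 : M - k ≤ (M - k) * N := Nat.le_mul_of_pos_right _ hN
    have h7 : k * N + (M - k) * N = M * N := by
      rw [← Nat.add_mul]; congr 1; omega
    omega
  · intro z hz
    rw [← hprod z]
    have hv := Multiset.prod_X_sub_X_eq_sum_esymm (Multiset.map (x z) Finset.univ.val)
    have hv2 := congrArg (Polynomial.eval (Jc z)) hv
    rw [Polynomial.eval_multiset_prod, Multiset.map_map, Multiset.map_map,
      Polynomial.eval_finsetSum, Multiset.card_map] at hv2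
    have hc : Multiset.card (Finset.univ : Finset σ).val = M := by
      rw [Finset.card_val, Finset.card_univ, hcard]
    rw [hc] at hv2
    have hl : (Multiset.map ((Polynomial.eval (Jc z) ∘ fun t => X - C t) ∘ x z)
        (Finset.univ : Finset σ).val).prod = ∏ s, (Jc z - x z s) := by
      rw [Finset.prod_eq_multiset_prod]
      congr 1
      refine Multiset.map_congr rfl fun s _ => ?_
      simp
    rw [hl] at hv2
    rw [hv2, map_sum, Finset.mul_sum]
    refine Finset.sum_congr rfl fun k hk => ?_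
    rw [Finset.mem_range] at hk
    simp only [map_mul, map_pow, map_neg, map_one, aeval_X, hE k z hz, aeval_C,
      MvPolynomial.aeval_esymm_eq_multiset_esymm, Polynomial.eval_mul, Polynomial.eval_pow,
      Polynomial.eval_neg, Polynomial.eval_one, Polynomial.eval_C, Polynomial.eval_X]
    have hdiv : ((M.factorial / k.factorial : ℕ) : ℂ) * (k.factorial : ℂ)
        = (M.factorial : ℂ) := by
      rw [← Nat.cast_mul, Nat.div_mul_cancel (Nat.factorial_dvd_factorial (by omega))]
    rw [← hdiv]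
    simp only [algebraMap_int_eq, eq_intCast, Int.cast_natCast]
    ring

end Pool.Agent.Lib.MP_47914d_nt
end

section
set_option autoImplicit false

open UpperHalfPlane hiding I
open ModularForm Complex Filter Topology
open scoped Real MatrixGroups CongruenceSubgroup Manifold

namespace Pool.Agent.Lib.MP_47914d_nt

lemma E4_smul (γ : SL(2, ℤ)) (z : ℍ) : E₄ (γ • z) = denom γ z ^ (4 : ℤ) * E₄ z := by
  have : SlashInvariantFormClass (ModularForm 𝒮ℒ 4) Γ(1) 4 :=
    CongruenceSubgroup.Gamma_one_coe_eq_SL ▸ inferInstance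
  exact SlashInvariantForm.slash_action_eqn_SL'' (Γ := Γ(1)) E₄ (CongruenceSubgroup.mem_Gamma_one γ) z

lemma disc_smul (γ : SL(2, ℤ)) (z : ℍ) :
    discriminant (γ • z) = denom γ z ^ (12 : ℤ) * discriminant z := by
  have : SlashInvariantFormClass (CuspForm 𝒮ℒ 12) Γ(1) 12 :=
    CongruenceSubgroup.Gamma_one_coe_eq_SL ▸ inferInstance
  have := SlashInvariantForm.slash_action_eqn_SL'' (Γ := Γ(1)) CuspForm.discriminant
    (CongruenceSubgroup.mem_Gamma_one γ) z
  simpa using this

lemma J_smul (γ : SL(2, ℤ)) (z : ℍ) : J (γ • z) = J z := by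
  have hd : denom γ z ≠ 0 := denom_ne_zero γ z
  have hz := discriminant_ne_zero z
  simp only [J, E4_smul, disc_smul]
  rw [mul_pow, ← zpow_natCast, ← zpow_mul]
  have : ((4 : ℤ) * (3 : ℕ)) = 12 := by norm_num
  rw [this, mul_div_mul_left _ _ (zpow_ne_zero _ hd)]

lemma Jc_coe (z : ℍ) : Jc z = J z := by
  have h : 0 < (z : ℂ).im := z.im_pos
  simp only [Jc, h, dif_pos]

lemma Jc_of_pos {w : ℂ} (h : 0 < w.im) : Jc w = J ⟨w, h⟩ := by
  simp only [Jc, h, dif_pos]

lemma Jc_inv : Inv Jc := by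
  intro z hz
  constructor
  · have h1 : 0 < (z + 1).im := by simpa using hz
    rw [Jc_of_pos hz, Jc_of_pos h1, ← J_smul ModularGroup.T ⟨z, hz⟩, UpperHalfPlane.modular_T_smul]
    congr 1
    ext
    simp [add_comm]
  · have h1 : 0 < (-1 / z).im := by
      have := (UpperHalfPlane.mk z hz).im_inv_neg_coe_pos
      have e : -1 / z = (-z)⁻¹ := by rw [inv_neg, neg_div, one_div]
      rw [e]
      simpa using this
    rw [Jc_of_pos hz, Jc_of_pos h1, ← J_smul ModularGroup.S ⟨z, hz⟩, UpperHalfPlane.modular_S_smul]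
    congr 1
    ext
    change -1 / z = (-z)⁻¹
    rw [inv_neg, neg_div, one_div]

lemma Jc_eq_comp : Set.EqOn Jc (J ∘ ofComplex) {w | 0 < w.im} := by
  intro w hw
  simp only [Function.comp]
  rw [Jc_of_pos hw, ofComplex_apply_of_im_pos hw]

lemma J_mdiff : MDiff J := by
  rw [UpperHalfPlane.mdifferentiable_iff]
  have h1 : DifferentiableOn ℂ ((E₄ : ℍ → ℂ) ∘ ofComplex) {w | 0 < w.im} :=
    UpperHalfPlane.mdifferentiable_iff.mp (ModularFormClass.holo E₄)
  have h2 : DifferentiableOn ℂ ((CuspForm.discriminant : ℍ → ℂ) ∘ ofComplex) {w | 0 < w.im} :=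
    UpperHalfPlane.mdifferentiable_iff.mp (ModularFormClass.holo CuspForm.discriminant)
  have h3 := (h1.pow 3).div h2 (fun w hw => by
    simpa using discriminant_ne_zero (ofComplex w))
  exact h3.congr fun w hw => by simp [J]

lemma Jc_holo : DifferentiableOn ℂ Jc {w | 0 < w.im} :=
  (UpperHalfPlane.mdifferentiable_iff.mp J_mdiff).congr Jc_eq_comp

end Pool.Agent.Lib.MP_47914d_nt
end

section
/-!
RAM: Ramanujan's equations for the scaled Eisenstein series.
-/
set_option autoImplicit false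

open UpperHalfPlane hiding I
open ModularForm Complex Filter Topology EisensteinSeries
open scoped Real MatrixGroups CongruenceSubgroup Manifold ModularForm Derivative
open scoped ArithmeticFunction.sigma

namespace Pool.Agent.Lib.MP_47914d_nt

namespace Ram

/-! ### Limits at the cusp -/

lemma tendsto_D_zero {F : ℍ → ℂ} (hF : MDiff F) (hb : IsBoundedAtImInfty F) :
    Tendsto (D F) atImInfty (𝓝 0) := by
  obtain ⟨M, A, hM⟩ := isBoundedAtImInfty_iff.mp hb
  have hd := UpperHalfPlane.mdifferentiable_iff.mp hF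
  have key : ∀ z : ℍ, 2 * max A 1 ≤ z.im → ‖D F z‖ ≤ (2 * π)⁻¹ * (M / (z.im / 2)) := by
    intro z hz
    have hz0 : 0 < z.im := z.im_pos
    have h1 : ∀ w ∈ Metric.closedBall (z : ℂ) (z.im / 2), z.im / 2 ≤ w.im := by
      intro w hw
      rw [Metric.mem_closedBall, dist_eq_norm] at hw
      have := (abs_le.mp ((Complex.abs_im_le_norm (w - z)).trans hw)).1
      simp only [Complex.sub_im, UpperHalfPlane.coe_im] at this
      linarith
    have h2 : DiffContOnCl ℂ (F ∘ ofComplex) (Metric.ball (z : ℂ) (z.im / 2)) := by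
      apply DifferentiableOn.diffContOnCl
      apply hd.mono
      refine (Metric.closure_ball_subset_closedBall).trans fun w hw => ?_
      have := h1 w hw
      show 0 < w.im
      linarith
    have h3 := Complex.norm_deriv_le_of_forall_mem_sphere_norm_le (by linarith : 0 < z.im / 2) h2
      (C := M) (fun w hw => by
        have hw1 := h1 w (Metric.sphere_subset_closedBall hw)
        have hw0 : 0 < w.im := by linarith
        rw [Function.comp_apply, ofComplex_apply_of_im_pos hw0]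
        apply hM
        have := le_max_left A 1
        show A ≤ w.im
        linarith)
    rw [Derivative.normalizedDerivOfComplex, norm_mul]
    refine mul_le_mul (le_of_eq ?_) h3 (norm_nonneg _) (by positivity)
    rw [norm_inv]
    simp [abs_of_pos Real.pi_pos]
  have hT : Tendsto (fun z : ℍ => (2 * π)⁻¹ * (M / (z.im / 2))) atImInfty (𝓝 0) := by
    have h1 : Tendsto (fun z : ℍ => z.im / 2) atImInfty atTop :=
      Tendsto.atTop_div_const (by norm_num) tendsto_comap
    have h2 := (h1.const_div_atTop M).const_mul ((2 * π)⁻¹)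
    simpa using h2
  refine squeeze_zero_norm' ?_ hT
  have : ∀ᶠ z : ℍ in atImInfty, 2 * max A 1 ≤ z.im :=
    tendsto_comap.eventually (eventually_ge_atTop _)
  filter_upwards [this] with z hz using key z hz

lemma tendsto_of_qExp {f : ℍ → ℂ} (hf : AnalyticAt ℂ (cuspFunction 1 f) 0)
    (hper : Function.Periodic (f ∘ ofComplex) 1) :
    Tendsto f atImInfty (𝓝 (cuspFunction 1 f 0)) := by
  have h1 := hf.continuousAt.tendsto.comp (qParam_tendsto_atImInfty one_pos)
  refine h1.congr fun z => ?_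
  exact eq_cuspFunction z one_ne_zero hper

lemma tendsto_of_hasSum {f : ℍ → ℂ} {c : ℕ → ℂ} (hf : MDiff f)
    (hs : ∀ τ : ℍ, HasSum (fun m ↦ c m • Function.Periodic.qParam 1 τ ^ m) (f τ)) :
    Tendsto f atImInfty (𝓝 (c 0)) := by
  have hb := isBoundedAtImInfty_of_hasSum_qExpansion one_pos hs
  have hper : Function.Periodic (f ∘ ofComplex) 1 := by
    intro w
    by_cases hw : 0 < w.im
    · have h1 : 0 < (w + 1).im := by simpa using hw
      simp only [Function.comp_apply, ofComplex_apply_of_im_pos h1, ofComplex_apply_of_im_pos hw]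
      have e : Function.Periodic.qParam 1 (w + 1) = Function.Periodic.qParam 1 w := by
        simp only [Function.Periodic.qParam, ofReal_one, div_one]
        rw [mul_add, Complex.exp_add, mul_one, Complex.exp_two_pi_mul_I, mul_one]
      have h2 := hs ⟨w + 1, h1⟩
      have h3 := hs ⟨w, hw⟩
      simp only [e] at h2 h3
      exact h2.unique h3
    · have h1 : (w + 1).im ≤ 0 := by simpa using hw
      simp [ofComplex_apply_of_im_nonpos h1, ofComplex_apply_of_im_nonpos (not_lt.mp hw)]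
  have hper' : Function.Periodic (f ∘ ofComplex) ((1 : ℝ) : ℂ) := by
    rw [Complex.ofReal_one]; exact hper
  have ha := analyticAt_cuspFunction_zero one_pos hper' hf hb
  have h1 := (hasFPowerSeriesOnBall_cuspFunction one_pos ha hs).coeff_zero (fun _ => 0)
  have h2 := tendsto_of_qExp ha hper
  have h3 : c 0 = cuspFunction 1 f 0 := by
    rw [← h1]
    simp [FormalMultilinearSeries.ofScalars]
  rw [h3]
  exact h2

lemma E2_tendsto : Tendsto E2 atImInfty (𝓝 1) := by
  have := tendsto_of_hasSum (f := E2) (c := fun m => if m = 0 then 1 else -24 * σ 1 m)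
    E2_mdifferentiable (fun τ => by
      simpa only [Function.Periodic.qParam, ofReal_one, div_one] using hasSum_qExpansion_E2 (z := τ))
  simpa using this

lemma E_tendsto {k : ℕ} (hk : 3 ≤ k) (hk2 : Even k) : Tendsto (E hk) atImInfty (𝓝 1) := by
  have h0 := ModularFormClass.analyticAt_cuspFunction_zero (E hk) one_pos one_mem_strictPeriods_SL
  have h1 := tendsto_of_qExp h0 (by
    have := SlashInvariantFormClass.periodic_comp_ofComplex (E hk) one_mem_strictPeriods_SL
    simpa using this)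
  have h2 := E_qExpansion_coeff_zero hk hk2
  rw [qExpansion_coeff] at h2
  simp only [Nat.factorial_zero, Nat.cast_one, inv_one, iteratedDeriv_zero, one_mul] at h2
  rw [h2] at h1
  exact h1

/-! ### Modular forms of level one from invariant functions -/

/-- A modular form from its properties. -/
noncomputable def mkForm (k : ℤ) (f : ℍ → ℂ) (hinv : ∀ γ : SL(2, ℤ), f ∣[k] γ = f)
    (hf : MDiff f) (hb : IsBoundedAtImInfty f) : ModularForm 𝒮ℒ k where
  toFun := f
  slash_action_eq' A hA := by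
    obtain ⟨A, rfl⟩ := hA
    exact hinv A
  holo' := hf
  bdd_at_cusps' hc := by
    rw [Subgroup.IsArithmetic.isCusp_iff_isCusp_SL2Z] at hc
    rw [OnePoint.isBoundedAt_iff_forall_SL2Z hc]
    intro γ _
    rw [hinv]
    exact hb

lemma eq_smul_of_rank {k : ℤ} (hr : Module.rank ℂ (ModularForm 𝒮ℒ k) = 1)
    (F G : ModularForm 𝒮ℒ k) {c : ℂ} (hF : Tendsto F atImInfty (𝓝 c))
    (hG : Tendsto G atImInfty (𝓝 1)) (z : ℍ) : F z = c * G z := by
  have hG0 : G ≠ 0 := by
    rintro rfl
    have h1 : Tendsto (⇑(0 : ModularForm 𝒮ℒ k)) atImInfty (𝓝 0) := by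
      have : (⇑(0 : ModularForm 𝒮ℒ k) : ℍ → ℂ) = fun _ => 0 := by ext; simp
      rw [this]
      exact tendsto_const_nhds
    exact one_ne_zero (tendsto_nhds_unique hG h1)
  obtain ⟨c', hc'⟩ := (finrank_eq_one_iff_of_nonzero' G hG0).mp
    (Module.rank_eq_one_iff_finrank_eq_one.mp hr) F
  have h1 : ∀ z, F z = c' * G z := by
    intro z
    rw [← hc']
    rfl
  have h2 : Tendsto F atImInfty (𝓝 (c' * 1)) := by
    have := hG.const_mul c'
    refine this.congr fun z => (h1 z).symm
  have h3 := tendsto_nhds_unique hF h2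
  rw [mul_one] at h3
  rw [h1, h3]

lemma form_slash {k : ℤ} (F : ModularForm 𝒮ℒ k) (γ : SL(2, ℤ)) : (F : ℍ → ℂ) ∣[k] γ = F := by
  have hγ : (γ : GL (Fin 2) ℝ) ∈ 𝒮ℒ := ⟨γ, rfl⟩
  exact SlashInvariantFormClass.slash_action_eq F _ hγ

lemma bdd_of_tendsto {f : ℍ → ℂ} {c : ℂ} (h : Tendsto f atImInfty (𝓝 c)) :
    IsBoundedAtImInfty f := h.isBigO_one ℝ

lemma E4_tendsto : Tendsto E₄ atImInfty (𝓝 1) := E_tendsto _ ⟨2, rfl⟩

lemma E6_tendsto : Tendsto E₆ atImInfty (𝓝 1) := E_tendsto _ ⟨3, rfl⟩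

lemma D_E4 (z : ℍ) : D E₄ z = (E2 z * E₄ z - E₆ z) / 3 := by
  have hm : MDiff (E₄ : ℍ → ℂ) := ModularFormClass.holo E₄
  set f : ℍ → ℂ := Derivative.serreDerivative ((4 : ℤ) : ℂ) E₄ with hf
  have hlim : Tendsto f atImInfty (𝓝 (-1 / 3)) := by
    have h1 := (tendsto_D_zero hm (bdd_of_tendsto E4_tendsto)).sub
      ((E2_tendsto.const_mul (((4 : ℤ) : ℂ) * 12⁻¹)).mul E4_tendsto)
    have e : (0 : ℂ) - ((4 : ℤ) : ℂ) * 12⁻¹ * 1 * 1 = -1 / 3 := by norm_num
    rw [e] at h1
    exact h1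
  have hinv : ∀ γ : SL(2, ℤ), f ∣[(6 : ℤ)] γ = f := fun γ =>
    Derivative.serreDerivative_slash_invariant (k := 4) hm (form_slash E₄ γ)
  have h := eq_smul_of_rank levelOne_weight_six_rank_one
    (mkForm 6 f hinv (Derivative.serreDerivative_mdifferentiable _ hm) (bdd_of_tendsto hlim)) E₆
    hlim E6_tendsto z
  have h1 : f z = -1 / 3 * E₆ z := h
  rw [hf, Derivative.serreDerivative_apply] at h1
  push_cast at h1
  linear_combination h1

lemma D_E6 (z : ℍ) : D E₆ z = (E2 z * E₆ z - E₄ z ^ 2) / 2 := by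
  have hm : MDiff (E₆ : ℍ → ℂ) := ModularFormClass.holo E₆
  set f : ℍ → ℂ := Derivative.serreDerivative ((6 : ℤ) : ℂ) E₆ with hf
  have hlim : Tendsto f atImInfty (𝓝 (-1 / 2)) := by
    have h1 := (tendsto_D_zero hm (bdd_of_tendsto E6_tendsto)).sub
      ((E2_tendsto.const_mul (((6 : ℤ) : ℂ) * 12⁻¹)).mul E6_tendsto)
    have e : (0 : ℂ) - ((6 : ℤ) : ℂ) * 12⁻¹ * 1 * 1 = -1 / 2 := by norm_num
    rw [e] at h1
    exact h1
  have hinv : ∀ γ : SL(2, ℤ), f ∣[(8 : ℤ)] γ = f := fun γ =>
    Derivative.serreDerivative_slash_invariant (k := 6) hm (form_slash E₆ γ)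
  have hr : Module.rank ℂ (ModularForm 𝒮ℒ 8) = 1 := by
    have := dimension_level_one 8 ⟨4, rfl⟩
    simpa [Nat.ModEq] using this
  have hg : ∀ γ : SL(2, ℤ), (fun z => E₄ z ^ 2 : ℍ → ℂ) ∣[(8 : ℤ)] γ = fun z => E₄ z ^ 2 := by
    intro γ
    have h1 := ModularForm.mul_slash_SL2 4 4 γ (E₄ : ℍ → ℂ) (E₄ : ℍ → ℂ)
    rw [form_slash E₄ γ] at h1
    have e : (fun z => E₄ z ^ 2 : ℍ → ℂ) = (E₄ : ℍ → ℂ) * (E₄ : ℍ → ℂ) := by
      ext z; simp [pow_two]
    rw [e]
    exact h1
  have hglim : Tendsto (fun z => E₄ z ^ 2 : ℍ → ℂ) atImInfty (𝓝 1) := by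
    have := E4_tendsto.pow 2
    simpa using this
  have hgm : MDiff (fun z => E₄ z ^ 2 : ℍ → ℂ) := by
    have hm4 : MDiff (E₄ : ℍ → ℂ) := ModularFormClass.holo E₄
    have := hm4.mul hm4
    have e : (fun z => E₄ z ^ 2 : ℍ → ℂ) = (E₄ : ℍ → ℂ) * (E₄ : ℍ → ℂ) := by
      ext z; simp [pow_two]
    rw [e]
    exact this
  have h := eq_smul_of_rank hr
    (mkForm 8 f hinv (Derivative.serreDerivative_mdifferentiable _ hm) (bdd_of_tendsto hlim))
    (mkForm 8 _ hg hgm (bdd_of_tendsto hglim)) hlim hglim z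
  have h1 : f z = -1 / 2 * E₄ z ^ 2 := h
  rw [hf, Derivative.serreDerivative_apply] at h1
  push_cast at h1
  linear_combination h1

/-! ### The quasimodular Eisenstein series -/

/-- The logarithmic derivative of the automorphy factor. -/
noncomputable def uu (γ : SL(2, ℤ)) (z : ℍ) : ℂ := (γ 1 0 : ℂ) / denom γ z

lemma E2_slash' (γ : SL(2, ℤ)) :
    (E2 : ℍ → ℂ) ∣[(2 : ℤ)] γ = fun z => E2 z + 12 * (2 * π * I)⁻¹ * uu γ z := by
  rw [E2_slash_action]
  ext z
  simp only [Pi.sub_apply, Pi.smul_apply, D2, uu, riemannZeta_two, smul_eq_mul]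
  have h1 : (π : ℂ) ≠ 0 := by exact_mod_cast Real.pi_ne_zero
  have h2 := I_ne_zero
  have h3 : denom γ z ≠ 0 := denom_ne_zero γ z
  field_simp
  have : I ^ 2 = -1 := I_sq
  linear_combination (-12 : ℂ) * ((γ 1 0 : ℤ) : ℂ) * this

lemma denom_im_ne (γ : SL(2, ℤ)) (w : ℂ) (hw : 0 < w.im) :
    (γ 1 0 : ℂ) * w + (γ 1 1 : ℂ) ≠ 0 := by
  have := denom_ne_zero γ (⟨w, hw⟩ : ℍ)
  rwa [ModularGroup.denom_apply] at this

lemma uu_comp (γ : SL(2, ℤ)) (w : ℂ) (hw : 0 < w.im) :
    (uu γ ∘ ofComplex) w = (γ 1 0 : ℂ) / ((γ 1 0 : ℂ) * w + (γ 1 1 : ℂ)) := by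
  rw [Function.comp_apply, ofComplex_apply_of_im_pos hw, uu, ModularGroup.denom_apply]

lemma uu_hasDeriv (γ : SL(2, ℤ)) (w : ℂ) (hw : 0 < w.im) :
    HasDerivAt (uu γ ∘ ofComplex) (-((γ 1 0 : ℂ) / ((γ 1 0 : ℂ) * w + (γ 1 1 : ℂ))) ^ 2) w := by
  have hne := denom_im_ne γ w hw
  have h1 : HasDerivAt (fun w : ℂ => (γ 1 0 : ℂ) / ((γ 1 0 : ℂ) * w + (γ 1 1 : ℂ)))
      (-((γ 1 0 : ℂ) / ((γ 1 0 : ℂ) * w + (γ 1 1 : ℂ))) ^ 2) w := by
    have h2 : HasDerivAt (fun w : ℂ => (γ 1 0 : ℂ) * w + (γ 1 1 : ℂ)) (γ 1 0 : ℂ) w := by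
      simpa using ((hasDerivAt_id w).const_mul (γ 1 0 : ℂ)).add_const (γ 1 1 : ℂ)
    have h3 := (hasDerivAt_const w (γ 1 0 : ℂ)).div h2 hne
    refine h3.congr_deriv ?_
    rw [div_pow]
    ring
  refine h1.congr_of_eventuallyEq ?_
  filter_upwards [(isOpen_lt continuous_const Complex.continuous_im).mem_nhds hw] with v hv
  exact uu_comp γ v hv

lemma uu_mdiff (γ : SL(2, ℤ)) : MDiff (uu γ) := by
  rw [UpperHalfPlane.mdifferentiable_iff]
  intro w hw
  exact (uu_hasDeriv γ w hw).differentiableAt.differentiableWithinAt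

lemma D_uu (γ : SL(2, ℤ)) (z : ℍ) : D (uu γ) z = -(2 * π * I)⁻¹ * uu γ z ^ 2 := by
  rw [Derivative.normalizedDerivOfComplex, (uu_hasDeriv γ z z.im_pos).deriv, uu,
    ModularGroup.denom_apply]
  ring

lemma D_E2 (z : ℍ) : D E2 z = (E2 z ^ 2 - E₄ z) / 12 := by
  have hm : MDiff (E2 : ℍ → ℂ) := E2_mdifferentiable
  set f : ℍ → ℂ := fun z => D E2 z - 12⁻¹ * E2 z ^ 2 with hf
  have hlim : Tendsto f atImInfty (𝓝 (-1 / 12)) := by
    have h1 := (tendsto_D_zero hm isBoundedAtImInfty_E2).sub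
      ((E2_tendsto.pow 2).const_mul (12⁻¹ : ℂ))
    have e : (0 : ℂ) - 12⁻¹ * 1 ^ 2 = -1 / 12 := by norm_num
    rw [e] at h1
    exact h1
  have hfm : MDiff f := by
    have h1 := Derivative.serreDerivative_mdifferentiable 1 hm
    have e : f = Derivative.serreDerivative 1 E2 := by
      ext z
      rw [hf, Derivative.serreDerivative_apply]
      ring
    rw [e]
    exact h1
  have hinv : ∀ γ : SL(2, ℤ), f ∣[(4 : ℤ)] γ = f := by
    intro γ
    ext z
    have h1 := congrFun (Derivative.normalizedDerivOfComplex_SL_slash (k := 2) hm (γ := γ)) z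
    rw [E2_slash'] at h1
    have hum := uu_mdiff γ
    have h2 : D (fun z => E2 z + 12 * (2 * π * I)⁻¹ * uu γ z) z
        = D E2 z + 12 * (2 * π * I)⁻¹ * D (uu γ) z := by
      have h3 := Derivative.normalizedDerivOfComplex_add E2
        ((12 * (2 * π * I)⁻¹ : ℂ) • uu γ) hm (hum.const_smul _)
      have h4 := Derivative.normalizedDerivOfComplex_smul (12 * (2 * π * I)⁻¹ : ℂ) (uu γ) hum
      rw [h4] at h3
      exact congrFun h3 z
    rw [h2, D_uu] at h1
    simp only [Pi.sub_apply] at h1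
    have h5 := ModularForm.mul_slash_SL2 2 2 γ (E2 : ℍ → ℂ) (E2 : ℍ → ℂ)
    have h6 := congrFun h5 z
    rw [E2_slash'] at h6
    simp only [Pi.mul_apply] at h6
    have h7 : (f ∣[(4 : ℤ)] γ) z = ((D E2) ∣[(4 : ℤ)] γ) z
        - 12⁻¹ * (((E2 : ℍ → ℂ) * (E2 : ℍ → ℂ)) ∣[(4 : ℤ)] γ) z := by
      simp only [SL_slash_apply, hf, Pi.mul_apply]
      ring
    rw [h7]
    have h9 : (((E2 : ℍ → ℂ) * (E2 : ℍ → ℂ)) ∣[(4 : ℤ)] γ) z
        = (((E2 : ℍ → ℂ) * (E2 : ℍ → ℂ)) ∣[(2 + 2 : ℤ)] γ) z := rfl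
    rw [h9, h6]
    simp only [hf]
    have h10 : (γ 1 0 : ℂ) / denom γ z = uu γ z := rfl
    rw [h10] at h1
    push_cast at h1
    linear_combination -h1
  have h := eq_smul_of_rank levelOne_weight_four_rank_one
    (mkForm 4 f hinv hfm (bdd_of_tendsto hlim)) E₄ hlim E4_tendsto z
  have h1 : f z = -1 / 12 * E₄ z := h
  rw [hf] at h1
  simp only at h1
  linear_combination h1

/-! ### Ramanujan's equations on the complex plane -/

lemma nhds_upper {w : ℂ} (hw : 0 < w.im) : ∀ᶠ v in 𝓝 w, 0 < v.im :=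
  (isOpen_lt continuous_const Complex.continuous_im).mem_nhds hw

lemma hasDeriv_of_D {F : ℍ → ℂ} (hF : MDiff F) (w : ℂ) (hw : 0 < w.im) :
    HasDerivAt (F ∘ ofComplex) (2 * π * I * D F ⟨w, hw⟩) w := by
  have h1 := (UpperHalfPlane.mdifferentiableAt_iff.mp (hF ⟨w, hw⟩)).hasDerivAt
  have h2 : (2 * π * I : ℂ) ≠ 0 := Complex.two_pi_I_ne_zero
  rw [Derivative.normalizedDerivOfComplex, mul_inv_cancel_left₀ h2]
  exact h1

lemma Pc_eq {w : ℂ} (hw : 0 < w.im) : Pc w = (π * I / 6) * E2 ⟨w, hw⟩ := by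
  simp only [Pc, hw, dif_pos]

lemma Qc_eq {w : ℂ} (hw : 0 < w.im) : Qc w = (π * I / 6) ^ 2 * E₄ ⟨w, hw⟩ := by
  simp only [Qc, hw, dif_pos]

lemma Rc_eq {w : ℂ} (hw : 0 < w.im) : Rc w = (π * I / 6) ^ 3 * E₆ ⟨w, hw⟩ := by
  simp only [Rc, hw, dif_pos]

lemma derivP' (w : ℂ) (hw : 0 < w.im) : HasDerivAt Pc (Pc w ^ 2 - Qc w) w := by
  have h1 := (hasDeriv_of_D E2_mdifferentiable w hw).const_mul (π * I / 6 : ℂ)
  rw [D_E2] at h1
  have h2 : HasDerivAt Pc _ w := h1.congr_of_eventuallyEq (by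
    filter_upwards [nhds_upper hw] with v hv
    rw [Pc_eq hv, Function.comp_apply, ofComplex_apply_of_im_pos hv])
  convert h2 using 1
  rw [Pc_eq hw, Qc_eq hw]
  ring

lemma derivQ' (w : ℂ) (hw : 0 < w.im) : HasDerivAt Qc (4 * (Pc w * Qc w - Rc w)) w := by
  have hm : MDiff (E₄ : ℍ → ℂ) := ModularFormClass.holo E₄
  have h1 := (hasDeriv_of_D hm w hw).const_mul ((π * I / 6) ^ 2 : ℂ)
  rw [D_E4] at h1
  have h2 : HasDerivAt Qc _ w := h1.congr_of_eventuallyEq (by
    filter_upwards [nhds_upper hw] with v hv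
    rw [Qc_eq hv, Function.comp_apply, ofComplex_apply_of_im_pos hv])
  convert h2 using 1
  rw [Pc_eq hw, Qc_eq hw, Rc_eq hw]
  ring

lemma derivR' (w : ℂ) (hw : 0 < w.im) : HasDerivAt Rc (6 * (Pc w * Rc w - Qc w ^ 2)) w := by
  have hm : MDiff (E₆ : ℍ → ℂ) := ModularFormClass.holo E₆
  have h1 := (hasDeriv_of_D hm w hw).const_mul ((π * I / 6) ^ 3 : ℂ)
  rw [D_E6] at h1
  have h2 : HasDerivAt Rc _ w := h1.congr_of_eventuallyEq (by
    filter_upwards [nhds_upper hw] with v hv
    rw [Rc_eq hv, Function.comp_apply, ofComplex_apply_of_im_pos hv])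
  convert h2 using 1
  rw [Pc_eq hw, Qc_eq hw, Rc_eq hw]
  ring

lemma disc_eq (w : ℂ) (hw : 0 < w.im) :
    Qc w ^ 3 - Rc w ^ 2 = 1728 * (π * I / 6) ^ 6 * discriminant ⟨w, hw⟩ := by
  rw [Qc_eq hw, Rc_eq hw, discriminant_eq_E₄_cube_sub_E₆_sq]
  ring

/-- The integral matrix with given coefficients. -/
def mat (a b c d : ℤ) (h : a * d - b * c = 1) : SL(2, ℤ) :=
  ⟨!![a, b; c, d], by rw [Matrix.det_fin_two_of]; exact h⟩

lemma im_pos_mob (a b c d : ℤ) (h : a * d - b * c = 1) (w : ℂ) (hw : 0 < w.im) :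
    ∃ hv : 0 < (((a : ℂ) * w + b) / (c * w + d)).im,
      (⟨((a : ℂ) * w + b) / (c * w + d), hv⟩ : ℍ) = mat a b c d h • (⟨w, hw⟩ : ℍ) := by
  have e : ((a : ℂ) * w + b) / (c * w + d) = ((mat a b c d h • (⟨w, hw⟩ : ℍ) : ℍ) : ℂ) := by
    rw [UpperHalfPlane.specialLinearGroup_apply]
    simp [mat]
  have hv : 0 < (((a : ℂ) * w + b) / (c * w + d)).im := by
    rw [e]
    exact UpperHalfPlane.im_pos _
  refine ⟨hv, ?_⟩
  ext
  exact e

lemma mat_denom (a b c d : ℤ) (h : a * d - b * c = 1) (w : ℂ) (hw : 0 < w.im) :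
    denom (mat a b c d h) (⟨w, hw⟩ : ℍ) = c * w + d := by
  rw [ModularGroup.denom_apply]
  simp [mat]

lemma slash_val {k : ℤ} {f g : ℍ → ℂ} {γ : SL(2, ℤ)} (h : f ∣[k] γ = g) (z : ℍ) :
    f (γ • z) = denom γ z ^ k * g z := by
  have h1 := congrFun h z
  rw [SL_slash_apply] at h1
  have h2 : denom γ z ≠ 0 := denom_ne_zero γ z
  rw [← h1, mul_comm, mul_assoc, ← zpow_add₀ h2, neg_add_cancel, zpow_zero, mul_one]

theorem specRam' : SpecRam where
  derivP := derivP'
  derivQ := derivQ'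
  derivR := derivR'
  disc w hw := by
    rw [disc_eq w hw]
    refine mul_ne_zero (mul_ne_zero (by norm_num) (pow_ne_zero _ ?_)) (discriminant_ne_zero _)
    have h1 : (π : ℂ) ≠ 0 := by exact_mod_cast Real.pi_ne_zero
    exact div_ne_zero (mul_ne_zero h1 I_ne_zero) (by norm_num)
  jinv w hw := by
    rw [disc_eq w hw, Qc_eq hw, Jc_of_pos hw, J]
    have := discriminant_ne_zero ⟨w, hw⟩
    field_simp
  smulP a b c d w h hw := by
    obtain ⟨hv, e⟩ := im_pos_mob a b c d h w hw
    have h1 := slash_val (E2_slash' (mat a b c d h)) ⟨w, hw⟩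
    have hne := denom_im_ne (mat a b c d h) w hw
    have hc : ((mat a b c d h) 1 0 : ℤ) = c := by simp [mat]
    have hd : ((mat a b c d h) 1 1 : ℤ) = d := by simp [mat]
    rw [hc, hd] at hne
    rw [Pc_eq hv, Pc_eq hw, e, h1, uu, mat_denom, hc]
    have h2 : (2 * π * I : ℂ) ≠ 0 := Complex.two_pi_I_ne_zero
    have h3 : ((c : ℂ) * w + d) ^ (2 : ℤ) = (c * w + d) ^ 2 := by norm_cast
    rw [h3]
    have h4 : (π * I / 6 : ℂ) * (12 * (2 * π * I)⁻¹) = 1 := by
      have h1 : (π : ℂ) ≠ 0 := by exact_mod_cast Real.pi_ne_zero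
      have := I_ne_zero
      field_simp
      norm_num
    have h5 : ((c : ℂ) * w + d) ^ 2 * (c / (c * w + d)) = c * (c * w + d) := by
      field_simp
    linear_combination (c * (c * w + d) : ℂ) * h4
      + (π * I / 6 : ℂ) * (12 * (2 * π * I)⁻¹) * h5
  smulQ a b c d w h hw := by
    obtain ⟨hv, e⟩ := im_pos_mob a b c d h w hw
    have h1 := slash_val (form_slash E₄ (mat a b c d h)) ⟨w, hw⟩
    rw [Qc_eq hv, Qc_eq hw, e, h1, mat_denom]
    have h3 : ((c : ℂ) * w + d) ^ (4 : ℤ) = (c * w + d) ^ 4 := by norm_cast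
    rw [h3]
    ring
  smulR a b c d w h hw := by
    obtain ⟨hv, e⟩ := im_pos_mob a b c d h w hw
    have h1 := slash_val (form_slash E₆ (mat a b c d h)) ⟨w, hw⟩
    rw [Rc_eq hv, Rc_eq hw, e, h1, mat_denom]
    have h3 : ((c : ℂ) * w + d) ^ (6 : ℤ) = (c * w + d) ^ 6 := by norm_cast
    rw [h3]
    ring

end Ram

theorem specRam : SpecRam := Ram.specRam'

end Pool.Agent.Lib.MP_47914d_nt
end

section
/-!
MAHLER: the variable and the three Eisenstein series are algebraically independent.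
-/
set_option autoImplicit false

open UpperHalfPlane hiding I
open ModularForm Complex Polynomial Filter Topology
open scoped Real MatrixGroups

namespace Pool.Agent.Lib.MP_47914d_nt

namespace Mahler

lemma eval_aeval (P : MvPolynomial (Fin 4) ℂ) (u : Fin 4 → ℂ[X]) (t : ℂ) :
    (MvPolynomial.aeval u P : ℂ[X]).eval t = MvPolynomial.eval (fun i => (u i).eval t) P := by
  induction P using MvPolynomial.induction_on with
  | C a => simp
  | add p q hp hq => simp only [map_add, Polynomial.eval_add, hp, hq]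
  | mul_X p i hp => simp only [map_mul, Polynomial.eval_mul, hp, MvPolynomial.aeval_X,
      MvPolynomial.eval_X]

lemma poly_ext (P : MvPolynomial (Fin 4) ℂ) (u : Fin 4 → ℂ[X]) {S : Set ℂ} (hS : S.Infinite)
    (h : ∀ t ∈ S, MvPolynomial.eval (fun i => (u i).eval t) P = 0) (t : ℂ) :
    MvPolynomial.eval (fun i => (u i).eval t) P = 0 := by
  rw [← eval_aeval]
  have : (MvPolynomial.aeval u P : ℂ[X]) = 0 := by
    apply Polynomial.eq_zero_of_infinite_isRoot
    refine hS.mono fun s hs => ?_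
    have := h s hs
    rw [← eval_aeval] at this
    exact this
  rw [this, Polynomial.eval_zero]

lemma poly_ext' (P : MvPolynomial (Fin 4) ℂ) (a b c d : ℂ[X]) {S : Set ℂ} (hS : S.Infinite)
    (h : ∀ t ∈ S, MvPolynomial.eval ![a.eval t, b.eval t, c.eval t, d.eval t] P = 0) (t : ℂ) :
    MvPolynomial.eval ![a.eval t, b.eval t, c.eval t, d.eval t] P = 0 := by
  have e : ∀ t : ℂ, ![a.eval t, b.eval t, c.eval t, d.eval t]
      = fun i => ((![a, b, c, d] : Fin 4 → ℂ[X]) i).eval t := by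
    intro t
    ext i
    fin_cases i <;> rfl
  rw [e]
  refine poly_ext P _ hS (fun s hs => ?_) t
  rw [← e]
  exact h s hs

lemma diff_eval {ι : Type} (P : MvPolynomial ι ℂ) (x : ι → ℂ → ℂ) (v : ℂ)
    (hx : ∀ i, DifferentiableAt ℂ (x i) v) :
    DifferentiableAt ℂ (fun w => MvPolynomial.eval (fun i => x i w) P) v := by
  induction P using MvPolynomial.induction_on with
  | C a => simp
  | add p q hp hq =>
    simp only [map_add]
    exact hp.add hq
  | mul_X p i hp =>
    simp only [map_mul, MvPolynomial.eval_X]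
    exact hp.mul (hx i)

/-- The relation persists on the half plane. -/
lemma step0 (h : SpecRam) (P : MvPolynomial (Fin 4) ℂ) (a : ℂ) (ha : 0 < a.im)
    (hP : ∀ᶠ w in 𝓝 a, MvPolynomial.eval ![w, Pc w, Qc w, Rc w] P = 0) (w : ℂ) (hw : 0 < w.im) :
    MvPolynomial.eval ![w, Pc w, Qc w, Rc w] P = 0 := by
  set U : Set ℂ := {w : ℂ | 0 < w.im} with hU
  have hUo : IsOpen U := isOpen_lt continuous_const Complex.continuous_im
  have hd : DifferentiableOn ℂ (fun w => MvPolynomial.eval ![w, Pc w, Qc w, Rc w] P) U := by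
    intro v hv
    have hv0 : 0 < v.im := hv
    have e : (fun w => MvPolynomial.eval ![w, Pc w, Qc w, Rc w] P)
        = fun w => MvPolynomial.eval (fun i => (![id, Pc, Qc, Rc] : Fin 4 → ℂ → ℂ) i w) P := by
      ext w
      congr 2
      ext i
      fin_cases i <;> rfl
    rw [e]
    refine (diff_eval P _ v fun i => ?_).differentiableWithinAt
    fin_cases i
    · exact differentiableAt_id
    · exact (h.derivP v hv0).differentiableAt
    · exact (h.derivQ v hv0).differentiableAt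
    · exact (h.derivR v hv0).differentiableAt
  have han := hd.analyticOnNhd hUo
  have hpre : IsPreconnected U := (convex_halfSpace_im_gt 0).isPreconnected
  exact han.eqOn_zero_of_preconnected_of_eventuallyEq_zero hpre ha hP hw

lemma shift (h : SpecRam) (w : ℂ) (hw : 0 < w.im) (m : ℤ) :
    Pc (w + m) = Pc w ∧ Qc (w + m) = Qc w ∧ Rc (w + m) = Rc w := by
  have h1 := h.smulP 1 m 0 1 w (by ring) hw
  have h2 := h.smulQ 1 m 0 1 w (by ring) hw
  have h3 := h.smulR 1 m 0 1 w (by ring) hw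
  simp only [Int.cast_one, Int.cast_zero, one_mul, zero_mul, zero_add, div_one, one_pow,
    add_zero] at h1 h2 h3
  exact ⟨h1, h2, h3⟩

lemma infinite_range_int {f : ℤ → ℂ} (hf : Function.Injective f) : (Set.range f).Infinite :=
  Set.infinite_range_of_injective hf

section

variable (h : SpecRam) (P : MvPolynomial (Fin 4) ℂ)
  (H : ∀ w : ℂ, 0 < w.im → MvPolynomial.eval ![w, Pc w, Qc w, Rc w] P = 0)

include h H

lemma step1 (w : ℂ) (hw : 0 < w.im) (x : ℂ) :
    MvPolynomial.eval ![x, Pc w, Qc w, Rc w] P = 0 := by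
  have hinf : (Set.range fun m : ℤ => w + (m : ℂ)).Infinite :=
    infinite_range_int fun m n hmn => by
      have : (m : ℂ) = n := add_left_cancel hmn
      exact_mod_cast this
  have := poly_ext' P Polynomial.X (Polynomial.C (Pc w)) (Polynomial.C (Qc w))
    (Polynomial.C (Rc w)) hinf (by
      rintro _ ⟨m, rfl⟩
      simp only [Polynomial.eval_X, Polynomial.eval_C]
      obtain ⟨h1, h2, h3⟩ := shift h w hw m
      rw [← h1, ← h2, ← h3]
      exact H _ (by simpa using hw)) x
  simpa only [Polynomial.eval_X, Polynomial.eval_C] using this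

lemma step2 (x w : ℂ) (hw : 0 < w.im) (m : ℂ) :
    MvPolynomial.eval ![x, (m * w + 1) ^ 2 * Pc w + m * (m * w + 1), (m * w + 1) ^ 4 * Qc w,
      (m * w + 1) ^ 6 * Rc w] P = 0 := by
  have hinf : (Set.range fun m : ℤ => (m : ℂ)).Infinite :=
    infinite_range_int fun m n hmn => by exact_mod_cast hmn
  have := poly_ext' P (Polynomial.C x)
    ((Polynomial.X * Polynomial.C w + 1) ^ 2 * Polynomial.C (Pc w)
      + Polynomial.X * (Polynomial.X * Polynomial.C w + 1))
    ((Polynomial.X * Polynomial.C w + 1) ^ 4 * Polynomial.C (Qc w))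
    ((Polynomial.X * Polynomial.C w + 1) ^ 6 * Polynomial.C (Rc w)) hinf (by
      rintro _ ⟨m, rfl⟩
      simp only [Polynomial.eval_X, Polynomial.eval_C, Polynomial.eval_mul, Polynomial.eval_add,
        Polynomial.eval_pow, Polynomial.eval_one]
      obtain ⟨hv, -⟩ := Ram.im_pos_mob 1 0 m 1 (by ring) w hw
      have h1 := h.smulP 1 0 m 1 w (by ring) hw
      have h2 := h.smulQ 1 0 m 1 w (by ring) hw
      have h3 := h.smulR 1 0 m 1 w (by ring) hw
      have h4 := step1 h P H _ hv x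
      rw [h1, h2, h3] at h4
      simpa only [Int.cast_one] using h4) m
  simpa only [Polynomial.eval_X, Polynomial.eval_C, Polynomial.eval_mul, Polynomial.eval_add,
        Polynomial.eval_pow, Polynomial.eval_one] using this

lemma step3 (x y w l : ℂ) (hw : 0 < w.im) (hl0 : l ≠ 0) (hl1 : l ≠ 1) :
    MvPolynomial.eval ![x, y, l ^ 4 * Qc w, l ^ 6 * Rc w] P = 0 := by
  have hwk : ∀ k : ℤ, w + (k : ℂ) ≠ 0 := by
    intro k h0
    have := congrArg Complex.im h0
    simp only [Complex.add_im, Complex.intCast_im, add_zero, Complex.zero_im] at this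
    linarith
  have hll : l * (l - 1) ≠ 0 := mul_ne_zero hl0 (sub_ne_zero.mpr hl1)
  have hinf : (Set.range fun k : ℤ => l ^ 2 * Pc w + l * (l - 1) / (w + (k : ℂ))).Infinite :=
    infinite_range_int fun m n hmn => by
      have h1 : l * (l - 1) / (w + (m : ℂ)) = l * (l - 1) / (w + (n : ℂ)) := add_left_cancel hmn
      rw [div_eq_div_iff (hwk m) (hwk n)] at h1
      have h2 := mul_left_cancel₀ hll h1
      have h3 : (n : ℂ) = m := add_left_cancel h2
      exact_mod_cast h3.symm
  have := poly_ext' P (Polynomial.C x) Polynomial.X (Polynomial.C (l ^ 4 * Qc w))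
    (Polynomial.C (l ^ 6 * Rc w)) hinf (by
      rintro _ ⟨k, rfl⟩
      simp only [Polynomial.eval_X, Polynomial.eval_C]
      have hk := hwk k
      have h4 := step2 h P H x (w + k) (by simpa using hw) ((l - 1) / (w + k))
      obtain ⟨h1, h2, h3⟩ := shift h w hw k
      rw [h1, h2, h3] at h4
      have e : (l - 1) / (w + (k : ℂ)) * (w + k) + 1 = l := by
        rw [div_mul_cancel₀ _ hk]; ring
      rw [e] at h4
      have e2 : (l - 1) / (w + (k : ℂ)) * l = l * (l - 1) / (w + k) := by ring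
      rw [e2] at h4
      exact h4) y
  simpa only [Polynomial.eval_X, Polynomial.eval_C] using this

lemma step4 (x y w l : ℂ) (hw : 0 < w.im) :
    MvPolynomial.eval ![x, y, l ^ 4 * Qc w, l ^ 6 * Rc w] P = 0 := by
  have hinf : (({0, 1} : Set ℂ)ᶜ).Infinite := (Set.toFinite {0, 1}).infinite_compl
  have := poly_ext' P (Polynomial.C x) (Polynomial.C y) (Polynomial.X ^ 4 * Polynomial.C (Qc w))
    (Polynomial.X ^ 6 * Polynomial.C (Rc w)) hinf (by
      intro t ht
      simp only [Set.mem_compl_iff, Set.mem_insert_iff, Set.mem_singleton_iff, not_or] at ht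
      simp only [Polynomial.eval_X, Polynomial.eval_C, Polynomial.eval_mul, Polynomial.eval_pow]
      exact step3 h P H x y w t hw ht.1 ht.2) l
  simpa only [Polynomial.eval_X, Polynomial.eval_C, Polynomial.eval_mul,
    Polynomial.eval_pow] using this

end

/-- Every point off the discriminant locus is a twist of a value of the Eisenstein series. -/
lemma cover (h : SpecRam) (hJ : SpecJ) (y z : ℂ) (hyz : y ^ 3 - z ^ 2 ≠ 0) :
    ∃ w : ℂ, 0 < w.im ∧ ∃ l : ℂ, l ^ 4 * Qc w = y ∧ l ^ 6 * Rc w = z := by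
  obtain ⟨w, hw, hw2⟩ := hJ.surj (1728 * y ^ 3 / (y ^ 3 - z ^ 2))
  have hw0 : 0 < w.im := by linarith
  refine ⟨w, hw0, ?_⟩
  have h1 := h.jinv w hw0
  have hd := h.disc w hw0
  rw [hw2, div_mul_eq_mul_div, div_eq_iff hyz] at h1
  set q := Qc w
  set r := Rc w
  have key : q ^ 3 * z ^ 2 = y ^ 3 * r ^ 2 := by
    have h1728 : (1728 : ℂ) ≠ 0 := by norm_num
    apply mul_left_cancel₀ h1728
    linear_combination h1
  by_cases hq : q = 0
  · have hr : r ≠ 0 := by
      rintro hr
      apply hd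
      rw [hq, hr]
      ring
    have hy : y = 0 := by
      have h2 : y ^ 3 * r ^ 2 = 0 := by rw [← key, hq]; ring
      rcases mul_eq_zero.mp h2 with h3 | h3
      · exact pow_eq_zero_iff (by norm_num) |>.mp h3
      · exact absurd (pow_eq_zero_iff (by norm_num) |>.mp h3) hr
    obtain ⟨l, hl⟩ := IsAlgClosed.exists_pow_nat_eq (z / r) (by norm_num : 0 < 6)
    refine ⟨l, by rw [hq, hy, mul_zero], ?_⟩
    rw [hl, div_mul_cancel₀ _ hr]
  · by_cases hr : r = 0
    · have hz : z = 0 := by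
        have h2 : q ^ 3 * z ^ 2 = 0 := by rw [key, hr]; ring
        rcases mul_eq_zero.mp h2 with h3 | h3
        · exact absurd (pow_eq_zero_iff (by norm_num) |>.mp h3) hq
        · exact pow_eq_zero_iff (by norm_num) |>.mp h3
      obtain ⟨l, hl⟩ := IsAlgClosed.exists_pow_nat_eq (y / q) (by norm_num : 0 < 4)
      refine ⟨l, ?_, by rw [hr, hz, mul_zero]⟩
      rw [hl, div_mul_cancel₀ _ hq]
    · have hy : y ≠ 0 := by
        rintro rfl
        have h2 : q ^ 3 * z ^ 2 = 0 := by rw [key]; ring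
        rcases mul_eq_zero.mp h2 with h3 | h3
        · exact hq (pow_eq_zero_iff (by norm_num) |>.mp h3)
        · apply hyz
          rw [h3]
          ring
      obtain ⟨l, hl⟩ := IsAlgClosed.exists_pow_nat_eq (z * q / (r * y)) (by norm_num : 0 < 2)
      refine ⟨l, ?_, ?_⟩
      · have e : l ^ 4 = (l ^ 2) ^ 2 := by ring
        rw [e, hl]
        field_simp
        linear_combination key
      · have e : l ^ 6 = (l ^ 2) ^ 3 := by ring
        rw [e, hl]
        field_simp
        linear_combination z * key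

end Mahler

open Mahler in
theorem specMahler (h : SpecRam) (hJ : SpecJ) : SpecMahler := by
  intro a ha P hP hrel
  have H := step0 h P a ha hrel
  set D : MvPolynomial (Fin 4) ℂ := MvPolynomial.X 2 ^ 3 - MvPolynomial.X 3 ^ 2 with hD
  have hD0 : D ≠ 0 := by
    intro h0
    have := congrArg (MvPolynomial.eval ![0, 0, 1, 0]) h0
    simp [hD] at this
  have hPD : P * D ≠ 0 := mul_ne_zero hP hD0
  obtain ⟨x, hx⟩ : ∃ x : Fin 4 → ℂ, MvPolynomial.eval x (P * D) ≠ 0 := by
    by_contra hno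
    push Not at hno
    exact hPD (MvPolynomial.funext fun x => by rw [hno, map_zero])
  rw [map_mul] at hx
  have hx1 := left_ne_zero_of_mul hx
  have hx2 := right_ne_zero_of_mul hx
  have hx3 : x 2 ^ 3 - x 3 ^ 2 ≠ 0 := by simpa [hD] using hx2
  obtain ⟨w, hw, l, h1, h2⟩ := cover h hJ (x 2) (x 3) hx3
  have h3 := step4 h P H (x 0) (x 1) w l hw
  rw [h1, h2] at h3
  apply hx1
  have e : ![x 0, x 1, x 2, x 3] = x := by
    ext i
    fin_cases i <;> rfl
  rw [e] at h3
  exact h3

end Pool.Agent.Lib.MP_47914d_nt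
end

section
/-!
Liouville inequality for several algebraic numbers, with explicit exponents.
-/
set_option autoImplicit false

open Polynomial

namespace Pool.Agent.Lib.MP_47914d_nt

/-- `α` is a zero of a nonzero integer polynomial of degree at most `d`, all of whose complex
zeros and whose leading coefficient are at most `exp B` in absolute value. -/
def AlgD (α : ℂ) (d B : ℕ) : Prop :=
  ∃ F : ℤ[X], F ≠ 0 ∧ aeval α F = 0 ∧ F.natDegree ≤ d ∧
    |(F.leadingCoeff : ℝ)| ≤ Real.exp B ∧ ∀ r ∈ F.aroots ℂ, ‖r‖ ≤ Real.exp B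

/-- Liouville inequality with explicit dependence on degrees and sizes. -/
theorem liouville2 (n : ℕ) (P : MvPolynomial (Fin n) ℤ) : ∃ k : ℕ, ∀ (B : ℕ), 1 ≤ B →
    ∀ (d : Fin n → ℕ) (α : Fin n → ℂ), (∀ i, AlgD (α i) (d i) B) →
      MvPolynomial.aeval α P = 0 ∨
        Real.exp (-((k * B * ∏ i, d i : ℕ) : ℝ)) ≤ ‖MvPolynomial.aeval α P‖ := by
  set D := P.totalDegree with hD
  refine ⟨n * D + D + coefSum P, fun B hB d α hα => ?_⟩
  by_cases hv : MvPolynomial.aeval α P = 0
  · exact Or.inl hv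
  right
  choose F hF0 hFα hFdeg hFlc hFroots using hα
  -- the number field
  set K := IntermediateField.adjoin ℚ (Set.range α) with hK
  have hint : ∀ i, IsIntegral ℚ (α i) := by
    intro i
    refine IsAlgebraic.isIntegral ?_
    refine ⟨(F i).map (Int.castRingHom ℚ), ?_, ?_⟩
    · exact (Polynomial.map_ne_zero_iff (RingHom.injective_int _)).2 (hF0 i)
    · have : aeval (α i) ((F i).map (Int.castRingHom ℚ)) = aeval (α i) (F i) := by
        rw [← algebraMap_int_eq, aeval_map_algebraMap]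
      rw [this, hFα i]
  have hfd : FiniteDimensional ℚ K := by
    refine IntermediateField.finiteDimensional_adjoin ?_
    rintro x ⟨i, rfl⟩
    exact hint i
  -- generators in K
  let β : Fin n → K := fun i => ⟨α i, IntermediateField.subset_adjoin _ _ ⟨i, rfl⟩⟩
  have hβF : ∀ i, aeval (β i) (F i) = 0 := by
    intro i
    have h : (algebraMap K ℂ) (aeval (β i) (F i)) = aeval (α i) (F i) := by
      rw [← aeval_algebraMap_apply]; rfl
    rw [hFα i] at h
    exact (map_eq_zero _).1 h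
  set L : ℤ := ∏ i, (F i).leadingCoeff with hL
  have hL0 : L ≠ 0 := Finset.prod_ne_zero_iff.2 fun i _ => leadingCoeff_ne_zero.2 (hF0 i)
  have hLβ : ∀ i, IsIntegral ℤ ((L : K) * β i) := by
    intro i
    have h1 : IsIntegral ℤ ((F i).leadingCoeff • β i) := isIntegral_leadingCoeff_smul _ _ (hβF i)
    have h2 : (L : K) * β i = ((∏ j ∈ Finset.univ.erase i, (F j).leadingCoeff : ℤ) : K) *
        ((F i).leadingCoeff • β i) := by
      rw [hL, ← Finset.mul_prod_erase _ _ (Finset.mem_univ i), zsmul_eq_mul]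
      push_cast
      ring
    rw [h2]
    refine IsIntegral.mul ?_ h1
    exact isIntegral_algebraMap (R := ℤ) (A := K) (x := _)
  set y : K := (L : K) ^ D * MvPolynomial.aeval β P with hy
  have hyint : IsIntegral ℤ y := isIntegral_pow_mul_aeval P β L hLβ
  have hyval : ∀ σ : K →ₐ[ℚ] ℂ, σ y = (L : ℂ) ^ D * MvPolynomial.aeval (fun i => σ (β i)) P := by
    intro σ
    rw [hy, map_mul, map_pow, map_intCast]
    congr 1
    rw [MvPolynomial.aeval_def, MvPolynomial.aeval_def, MvPolynomial.eval₂_eq', MvPolynomial.eval₂_eq',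
      map_sum]
    refine Finset.sum_congr rfl fun m _ => ?_
    rw [map_mul, map_prod]
    simp
  have hyα : (K.val) y = (L : ℂ) ^ D * MvPolynomial.aeval α P := hyval K.val
  have hy0 : y ≠ 0 := by
    intro h
    rw [h, map_zero] at hyα
    have : (L : ℂ) ^ D ≠ 0 := pow_ne_zero _ (Int.cast_ne_zero.2 hL0)
    exact hv ((mul_eq_zero.1 hyα.symm).resolve_left this)
  -- norm
  have hnorm : (algebraMap ℚ ℂ) (Algebra.norm ℚ y) = ∏ σ : K →ₐ[ℚ] ℂ, σ y :=
    Algebra.norm_eq_prod_embeddings ℚ ℂ y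
  have hnint : IsIntegral ℤ (Algebra.norm ℚ y) := Algebra.isIntegral_norm ℚ hyint
  obtain ⟨N, hN⟩ := IsIntegrallyClosed.isIntegral_iff.1 hnint
  have hN0 : N ≠ 0 := by
    rintro rfl
    rw [map_zero] at hN
    exact hy0 (Algebra.norm_eq_zero_iff.1 hN.symm)
  have hprod : 1 ≤ ∏ σ : K →ₐ[ℚ] ℂ, ‖σ y‖ := by
    rw [← norm_prod, ← hnorm, ← hN]
    have : ‖(algebraMap ℚ ℂ) ((algebraMap ℤ ℚ) N)‖ = |(N : ℝ)| := by
      simp
    rw [this]
    exact_mod_cast Int.one_le_abs hN0
  -- bounds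
  have hσF : ∀ (σ : K →ₐ[ℚ] ℂ) (i : Fin n), σ (β i) ∈ (F i).aroots ℂ := by
    intro σ i
    rw [mem_aroots]
    refine ⟨hF0 i, ?_⟩
    have h : aeval (σ (β i)) (F i) = σ (aeval (β i) (F i)) := by
      rw [aeval_def, aeval_def, ← AlgHom.coe_toRingHom, hom_eval₂]
      congr 1
      exact RingHom.ext_int _ _
    rw [h, hβF i, map_zero]
  have hBpos : (0 : ℝ) < B := by exact_mod_cast (by omega : 0 < B)
  have hexp1 : (1 : ℝ) ≤ Real.exp B := Real.one_le_exp hBpos.le
  have hcS : 1 ≤ coefSum P := by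
    by_contra hc
    have hc0 : coefSum P = 0 := by omega
    apply hv
    have hP0 : P = 0 := by
      by_contra hP
      obtain ⟨m, hm⟩ := MvPolynomial.ne_zero_iff.1 hP
      have h1 : (P.coeff m).natAbs ≤ coefSum P :=
        Finset.single_le_sum (f := fun m => (P.coeff m).natAbs) (fun _ _ => Nat.zero_le _)
          (MvPolynomial.mem_support_iff.2 hm)
      rw [hc0] at h1
      exact hm (Int.natAbs_eq_zero.1 (by omega))
    rw [hP0, map_zero]
  have hLle : ‖(L : ℂ)‖ ≤ Real.exp (n * B) := by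
    have h1 : ‖(L : ℂ)‖ = ∏ i, |((F i).leadingCoeff : ℝ)| := by
      rw [hL]
      push_cast
      rw [norm_prod]
      exact Finset.prod_congr rfl fun i _ => by rw [Complex.norm_intCast]
    rw [h1]
    calc ∏ i, |((F i).leadingCoeff : ℝ)| ≤ ∏ _i : Fin n, Real.exp B :=
          Finset.prod_le_prod (fun i _ => abs_nonneg _) fun i _ => hFlc i
      _ = Real.exp (n * B) := by
          rw [Finset.prod_const, Finset.card_univ, Fintype.card_fin, ← Real.exp_nat_mul]
  set k : ℕ := n * D + D + coefSum P with hk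
  have hM : ∀ σ : K →ₐ[ℚ] ℂ, ‖σ y‖ ≤ Real.exp (k * B) := by
    intro σ
    rw [hyval σ, norm_mul, norm_pow]
    have h1 := norm_aeval_le_coefSum P (fun i => σ (β i)) hexp1
      (fun i => hFroots i _ (hσF σ i))
    have h2 : (coefSum P : ℝ) ≤ Real.exp (coefSum P * B) := by
      have h3 : (coefSum P : ℝ) ≤ coefSum P * B := by
        have : (1 : ℝ) ≤ B := by exact_mod_cast (by omega : 1 ≤ B)
        nlinarith [Nat.cast_nonneg (α := ℝ) (coefSum P)]
      linarith [Real.add_one_le_exp ((coefSum P : ℝ) * B)]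
    calc ‖(L : ℂ)‖ ^ D * ‖MvPolynomial.aeval (fun i => σ (β i)) P‖
        ≤ Real.exp (n * B) ^ D * (Real.exp (coefSum P * B) * Real.exp B ^ D) := by
          refine mul_le_mul (pow_le_pow_left₀ (norm_nonneg _) hLle _) (h1.trans ?_)
            (norm_nonneg _) (by positivity)
          exact mul_le_mul_of_nonneg_right h2 (by positivity)
      _ = Real.exp (k * B) := by
          rw [← Real.exp_nat_mul, ← Real.exp_nat_mul, ← Real.exp_add, ← Real.exp_add]
          congr 1
          rw [hk]; push_cast; ring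
  have hcard : Fintype.card (K →ₐ[ℚ] ℂ) ≤ ∏ i, d i := by
    classical
    let T : Fin n → Finset ℂ := fun i => ((F i).aroots ℂ).toFinset
    have hT : ∀ i, (T i).card ≤ d i := by
      intro i
      refine (Multiset.toFinset_card_le _).trans ?_
      refine (card_roots' _).trans ?_
      exact natDegree_map_le.trans (hFdeg i)
    let ι : (K →ₐ[ℚ] ℂ) → Fintype.piFinset T := fun σ =>
      ⟨fun i => σ (β i), Fintype.mem_piFinset.2 fun i => Multiset.mem_toFinset.2 (hσF σ i)⟩
    have hι : Function.Injective ι := by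
      intro σ τ hστ
      refine IntermediateField.algHom_ext_of_eq_adjoin ℚ hK ?_
      rintro x ⟨i, rfl⟩
      exact congrFun (congrArg Subtype.val hστ) i
    calc Fintype.card (K →ₐ[ℚ] ℂ) ≤ Fintype.card (Fintype.piFinset T) :=
          Fintype.card_le_of_injective ι hι
      _ = ∏ i, (T i).card := by rw [Fintype.card_coe, Fintype.card_piFinset]
      _ ≤ ∏ i : Fin n, d i := Finset.prod_le_prod' fun i _ => hT i
  -- conclusion
  classical
  have hsplit : ∏ σ : K →ₐ[ℚ] ℂ, ‖σ y‖ =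
      ‖(K.val) y‖ * ∏ σ ∈ Finset.univ.erase K.val, ‖σ y‖ :=
    (Finset.mul_prod_erase Finset.univ (fun σ : K →ₐ[ℚ] ℂ => ‖σ y‖) (Finset.mem_univ K.val)).symm
  have hrest : ∏ σ ∈ Finset.univ.erase K.val, ‖σ y‖ ≤ Real.exp (k * B) ^ ((∏ i, d i) - 1) := by
    calc ∏ σ ∈ Finset.univ.erase K.val, ‖σ y‖
        ≤ ∏ _σ ∈ Finset.univ.erase K.val, Real.exp (k * B) :=
          Finset.prod_le_prod (fun _ _ => norm_nonneg _) fun σ _ => hM σ
      _ = Real.exp (k * B) ^ (Finset.univ.erase K.val).card := by rw [Finset.prod_const]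
      _ ≤ Real.exp (k * B) ^ ((∏ i, d i) - 1) := by
          refine pow_le_pow_right₀ (Real.one_le_exp (by positivity)) ?_
          rw [Finset.card_erase_of_mem (Finset.mem_univ _), Finset.card_univ]
          exact Nat.sub_le_sub_right hcard 1
  have hval : ‖(K.val) y‖ ≤ Real.exp (k * B) * ‖MvPolynomial.aeval α P‖ := by
    rw [hyα, norm_mul, norm_pow]
    refine mul_le_mul_of_nonneg_right ?_ (norm_nonneg _)
    refine (pow_le_pow_left₀ (norm_nonneg _) hLle _).trans ?_
    rw [← Real.exp_nat_mul]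
    refine Real.exp_le_exp.2 ?_
    rw [hk]; push_cast
    have : (0 : ℝ) ≤ (D + coefSum P) * B := by positivity
    nlinarith
  have hBn : 1 ≤ ∏ i, d i := by
    refine le_trans ?_ hcard
    exact Fintype.card_pos_iff.2 ⟨K.val⟩
  have hfin : 1 ≤ Real.exp ((k * B * ∏ i, d i : ℕ) : ℝ) * ‖MvPolynomial.aeval α P‖ := by
    calc (1 : ℝ) ≤ ‖(K.val) y‖ * ∏ σ ∈ Finset.univ.erase K.val, ‖σ y‖ := by
          rw [← hsplit]; exact hprod
      _ ≤ (Real.exp (k * B) * ‖MvPolynomial.aeval α P‖) * Real.exp (k * B) ^ ((∏ i, d i) - 1) :=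
          mul_le_mul hval hrest (Finset.prod_nonneg fun _ _ => norm_nonneg _) (by positivity)
      _ = (Real.exp (k * B) ^ ((∏ i, d i) - 1) * Real.exp (k * B)) *
          ‖MvPolynomial.aeval α P‖ := by ring
      _ = Real.exp ((k * B * ∏ i, d i : ℕ) : ℝ) * ‖MvPolynomial.aeval α P‖ := by
          rw [← pow_succ, Nat.sub_add_cancel hBn, ← Real.exp_nat_mul]
          congr 2
          push_cast; ring
  rw [Real.exp_neg]
  exact (inv_le_iff_one_le_mul₀' (Real.exp_pos _)).2 hfin

end Pool.Agent.Lib.MP_47914d_nt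
end
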