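import Pool.Agent.Lib.MP_47914d_nt.JInt
import Pool.Agent.Lib.MP_47914d_nt.JFormula
import Pool.Agent.Lib.MP_47914d_nt.Liouville2
import Pool.Agent.Lib.MP_47914d_nt.Defs2
import Pool.Agent.Lib.MP_47914d_nt.Defs3

section
set_option autoImplicit false

open UpperHalfPlane hiding I
open ModularForm Complex Filter Topology SlashInvariantForm
open scoped Real MatrixGroups CongruenceSubgroup Manifold ModularForm

namespace Pool.Agent.Lib.MP_47914d_nt


/-- The weight zero modular form attached to an invariant function. -/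
noncomputable def mf (f : ℍ → ℂ) (hinv : ∀ (γ : SL(2, ℤ)) (z : ℍ), f (γ • z) = f z)
    (hf : MDiff f) (hb : IsBoundedAtImInfty f) : ModularForm 𝒮ℒ 0 where
  toFun := f
  slash_action_eq' A hA := by
    obtain ⟨A, rfl⟩ := hA
    have : f ∣[(0 : ℤ)] A = f := by
      ext z
      rw [SL_slash_apply, hinv, neg_zero, zpow_zero, mul_one]
    exact this
  holo' := hf
  bdd_at_cusps' hc := by
    rw [Subgroup.IsArithmetic.isCusp_iff_isCusp_SL2Z] at hc
    rw [OnePoint.isBoundedAt_iff_forall_SL2Z hc]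
    intro γ _
    have : f ∣[(0 : ℤ)] γ = f := by
      ext z
      rw [SL_slash_apply, hinv, neg_zero, zpow_zero, mul_one]
    rw [this]
    exact hb

lemma const_of_inv {f : ℍ → ℂ} (hinv : ∀ (γ : SL(2, ℤ)) (z : ℍ), f (γ • z) = f z)
    (hf : MDiff f) (hb : IsBoundedAtImInfty f) : ∃ c : ℂ, ∀ z, f z = c := by
  obtain ⟨c, hc⟩ := ModularFormClass.levelOne_weight_zero_const (mf f hinv hf hb)
  exact ⟨c, fun z => congrFun hc z⟩

/-- Growth at the cusp. -/
lemma Jc_growth : ∃ C : ℝ, ∀ w : ℂ, 1 ≤ w.im →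
    ‖Jc w - cexp (-(2 * π * Complex.I * w))‖ ≤ C := by
  obtain ⟨c, hc0, hc⟩ := specJLaurent
  have hI := hc Complex.I (by simp)
  have hs : Summable fun n : ℕ => ‖(c n : ℂ) * cexp (2 * π * Complex.I * Complex.I) ^ n‖ :=
    hI.summable.norm
  set r : ℝ := Real.exp (-(2 * π)) with hr
  have hr0 : 0 < r := Real.exp_pos _
  have hn : ‖cexp (2 * π * Complex.I * Complex.I)‖ = r := by
    rw [Complex.norm_exp, hr]
    congr 1
    simp [mul_assoc]
  have hs2 : Summable fun n : ℕ => ‖(c (n + 1) : ℂ)‖ * r ^ n := by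
    have h1 := (summable_nat_add_iff 1).mpr hs
    have h2 := h1.mul_right r⁻¹
    refine h2.congr fun n => ?_
    rw [norm_mul, norm_pow, hn, pow_succ]
    field_simp
  refine ⟨∑' n : ℕ, ‖(c (n + 1) : ℂ)‖ * r ^ n, fun w hw => ?_⟩
  have hw0 : 0 < w.im := by linarith
  set q : ℂ := cexp (2 * π * Complex.I * w) with hq
  have hq0 : q ≠ 0 := Complex.exp_ne_zero _
  have hqr : ‖q‖ ≤ r := by
    rw [hq, Complex.norm_exp, hr]
    apply Real.exp_le_exp.mpr
    simp only [mul_re, re_ofNat, ofReal_re, im_ofNat, ofReal_im, Complex.I_re, mul_zero,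
      Complex.I_im, mul_one, mul_im, zero_mul, sub_zero, add_zero]
    nlinarith [Real.pi_pos]
  have h := hc w hw0
  have h1 := (hasSum_nat_add_iff' 1).mpr h
  simp only [Finset.range_one, Finset.sum_singleton, hc0, pow_zero, mul_one, pow_one,
    Int.cast_one] at h1
  have h2 := h1.mul_right q⁻¹
  have e : (Jc w * q - 1) * q⁻¹ = Jc w - cexp (-(2 * π * Complex.I * w)) := by
    rw [Complex.exp_neg, ← hq]
    field_simp
  rw [← hq, e] at h2
  refine (h2.norm_le_of_bounded hs2.hasSum fun n => ?_)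
  rw [pow_succ, mul_assoc, mul_assoc, mul_inv_cancel₀ hq0, mul_one, norm_mul, norm_pow]
  exact mul_le_mul_of_nonneg_left (pow_le_pow_left₀ (norm_nonneg _) hqr n) (norm_nonneg _)

lemma J_tendsto : Tendsto (fun z : ℍ => ‖J z‖) atImInfty atTop := by
  obtain ⟨C, hC⟩ := Jc_growth
  have h1 : Tendsto (fun z : ℍ => Real.exp (2 * π * z.im) - C) atImInfty atTop := by
    apply tendsto_atTop_add_const_right
    apply Real.tendsto_exp_atTop.comp
    exact Tendsto.const_mul_atTop (by positivity) tendsto_comap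
  refine tendsto_atTop_mono' _ ?_ h1
  have : ∀ᶠ z : ℍ in atImInfty, 1 ≤ z.im := tendsto_comap.eventually (eventually_ge_atTop 1)
  filter_upwards [this] with z hz
  have h2 := hC z hz
  rw [Jc_coe] at h2
  have h3 := norm_sub_norm_le (cexp (-(2 * π * Complex.I * z))) (J z)
  rw [norm_sub_rev] at h3
  have h4 : ‖cexp (-(2 * π * Complex.I * z))‖ = Real.exp (2 * π * z.im) := by
    rw [Complex.norm_exp]
    simp
  rw [h4] at h3
  linarith

lemma J_surj (r : ℂ) : ∃ z : ℍ, J z = r := by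
  by_contra hno
  push Not at hno
  have hne : ∀ z : ℍ, J z - r ≠ 0 := fun z => sub_ne_zero.mpr (hno z)
  set f : ℍ → ℂ := fun z => (J z - r)⁻¹ with hf
  have hT : Tendsto f atImInfty (𝓝 0) := by
    rw [tendsto_zero_iff_norm_tendsto_zero]
    have h1 : Tendsto (fun z : ℍ => ‖J z - r‖) atImInfty atTop := by
      refine tendsto_atTop_mono (fun z => ?_) (tendsto_atTop_add_const_right _ (-‖r‖) J_tendsto)
      have := norm_sub_norm_le (J z) r
      linarith
    have := h1.inv_tendsto_atTop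
    refine this.congr fun z => ?_
    simp [hf]
  obtain ⟨c, hc⟩ := const_of_inv (f := f) (fun γ z => by simp only [hf, J_smul]) (by
    rw [UpperHalfPlane.mdifferentiable_iff]
    have h1 := UpperHalfPlane.mdifferentiable_iff.mp J_mdiff
    have h2 : DifferentiableOn ℂ (fun w => ((J ∘ ofComplex) w - r)⁻¹) {w | 0 < w.im} :=
      (h1.sub_const r).inv fun w hw => hne _
    exact h2) (hT.isBigO_one ℝ)
  have h0 : c = 0 := by
    have h1 : Tendsto f atImInfty (𝓝 c) := by
      have : f = fun _ => c := funext hc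
      rw [this]
      exact tendsto_const_nhds
    exact tendsto_nhds_unique h1 hT
  have := hc UpperHalfPlane.I
  rw [h0] at this
  exact inv_ne_zero (hne _) this

theorem specJ : SpecJ where
  holo := Jc_holo
  smul := J_smul
  inv := Jc_inv
  growth := Jc_growth
  surj r := by
    obtain ⟨z, hz⟩ := J_surj r
    obtain ⟨γ, hγ⟩ := ModularGroup.exists_one_half_le_im_smul z
    exact ⟨((γ • z : ℍ) : ℂ), hγ, by rw [Jc_coe, J_smul, hz]⟩

end Pool.Agent.Lib.MP_47914d_nt
end

section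
set_option autoImplicit false

open UpperHalfPlane hiding I
open ModularForm Complex Filter Topology SlashInvariantForm Polynomial
open scoped Real MatrixGroups CongruenceSubgroup Manifold ModularForm

namespace Pool.Agent.Lib.MP_47914d_nt


lemma hasSum_congr' {f g : ℕ → ℂ} {a : ℂ} (h : ∀ n, f n = g n) : HasSum f a ↔ HasSum g a := by
  rw [funext h]

lemma IntLaurent.mul {f g : ℂ → ℂ} {K L : ℕ} (hf : IntLaurent f K) (hg : IntLaurent g L) :
    IntLaurent (fun z => f z * g z) (K + L) := by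
  obtain ⟨c, hc⟩ := hf
  obtain ⟨d, hd⟩ := hg
  refine ⟨fun n => ∑ p ∈ Finset.HasAntidiagonal.antidiagonal n, c p.1 * d p.2, fun z hz => ?_⟩
  have h1 := hc z hz
  have h2 := hd z hz
  have h3 := summable_norm_sum_mul_antidiagonal_of_summable_norm h1.summable.norm h2.summable.norm
  have h4 := tsum_mul_tsum_eq_tsum_sum_antidiagonal_of_summable_norm h1.summable.norm
    h2.summable.norm
  rw [h1.tsum_eq, h2.tsum_eq] at h4
  have e : f z * g z * cexp (2 * π * Complex.I * z) ^ (K + L) =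
      f z * cexp (2 * π * Complex.I * z) ^ K * (g z * cexp (2 * π * Complex.I * z) ^ L) := by
    rw [pow_add]; ring
  rw [e, h4]
  have h5 := h3.of_norm.hasSum
  refine (hasSum_congr' fun n => ?_).mpr h5
  push_cast
  rw [Finset.sum_mul]
  refine Finset.sum_congr rfl fun p hp => ?_
  rw [← Finset.HasAntidiagonal.mem_antidiagonal.mp hp, pow_add]
  ring

lemma IntLaurent.sub {f g : ℂ → ℂ} {L : ℕ} (hf : IntLaurent f L) (hg : IntLaurent g L) :
    IntLaurent (fun z => f z - g z) L := by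
  obtain ⟨c, hc⟩ := hf
  obtain ⟨d, hd⟩ := hg
  refine ⟨fun n => c n - d n, fun z hz => ?_⟩
  have h := (hc z hz).sub (hd z hz)
  rw [← sub_mul] at h
  refine (hasSum_congr' fun n => ?_).mpr h
  push_cast
  rw [sub_mul]

lemma Jpow_laurent (L : ℕ) : ∃ c : ℕ → ℤ, c 0 = 1 ∧ ∀ z : ℂ, 0 < z.im →
    HasSum (fun n : ℕ => (c n : ℂ) * cexp (2 * π * Complex.I * z) ^ n)
      (Jc z ^ L * cexp (2 * π * Complex.I * z) ^ L) := by
  induction L with
  | zero =>
    refine ⟨fun n => if n = 0 then 1 else 0, by simp, fun z _ => ?_⟩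
    have := hasSum_single (f := fun n : ℕ => (((if n = 0 then 1 else 0 : ℤ) : ℂ)) *
      cexp (2 * π * Complex.I * z) ^ n) 0 (fun n hn => by simp [hn])
    simpa using this
  | succ L ih =>
    obtain ⟨c, hc0, hc⟩ := ih
    obtain ⟨d, hd0, hd⟩ := specJLaurent
    refine ⟨fun n => ∑ p ∈ Finset.HasAntidiagonal.antidiagonal n, c p.1 * d p.2, by simp [hc0, hd0], fun z hz => ?_⟩
    have h1 := hc z hz
    have h2 := hd z hz
    have h3 := summable_norm_sum_mul_antidiagonal_of_summable_norm h1.summable.norm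
      h2.summable.norm
    have h4 := tsum_mul_tsum_eq_tsum_sum_antidiagonal_of_summable_norm h1.summable.norm
      h2.summable.norm
    rw [h1.tsum_eq, h2.tsum_eq] at h4
    have e : Jc z ^ (L + 1) * cexp (2 * π * Complex.I * z) ^ (L + 1) =
        Jc z ^ L * cexp (2 * π * Complex.I * z) ^ L *
          (Jc z * cexp (2 * π * Complex.I * z) ^ 1) := by
      ring
    rw [e, h4]
    have h5 := h3.of_norm.hasSum
    refine (hasSum_congr' fun n => ?_).mpr h5
    push_cast
    rw [Finset.sum_mul]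
    refine Finset.sum_congr rfl fun p hp => ?_
    rw [← Finset.HasAntidiagonal.mem_antidiagonal.mp hp, pow_add]
    ring

lemma inv_all {f : ℂ → ℂ} (hf : Inv f) (γ : SL(2, ℤ)) (z : ℍ) : f ((γ • z : ℍ) : ℂ) = f z := by
  have hS : ∀ z : ℍ, f ((ModularGroup.S • z : ℍ) : ℂ) = f z := by
    intro z
    rw [UpperHalfPlane.modular_S_smul, ← (hf z z.im_pos).2]
    congr 1
    change (-(z : ℂ))⁻¹ = -1 / z
    rw [inv_neg, neg_div, one_div]
  have hT : ∀ z : ℍ, f ((ModularGroup.T • z : ℍ) : ℂ) = f z := by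
    intro z
    rw [UpperHalfPlane.modular_T_smul, ← (hf z z.im_pos).1]
    congr 1
    simp [add_comm]
  have hmem : γ ∈ Subgroup.closure ({ModularGroup.S, ModularGroup.T} : Set SL(2, ℤ)) := by
    rw [SpecialLinearGroup.SL2Z_generators]
    trivial
  induction hmem using Subgroup.closure_induction generalizing z with
  | mem x hx =>
    rcases hx with rfl | rfl
    · exact hS z
    · exact hT z
  | one => rw [one_smul]
  | mul x y _ _ hx hy => rw [mul_smul, hx, hy]
  | inv x _ hx =>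
    have := hx (x⁻¹ • z)
    rw [smul_inv_smul] at this
    exact this.symm

lemma const_case {f : ℂ → ℂ} (hd : DifferentiableOn ℂ f {w | 0 < w.im}) (hf : Inv f)
    (hl : IntLaurent f 0) : ∃ m : ℤ, ∀ z : ℂ, 0 < z.im → f z = m := by
  obtain ⟨c, hc⟩ := hl
  set F : ℍ → ℂ := fun z => f z with hF
  have hsum : ∀ τ : ℍ, HasSum (fun m => (c m : ℂ) • Function.Periodic.qParam 1 τ ^ m) (F τ) := by
    intro τ
    have := hc τ τ.im_pos
    simpa [Function.Periodic.qParam] using this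
  have hb : IsBoundedAtImInfty F := isBoundedAtImInfty_of_hasSum_qExpansion one_pos hsum
  have hm : MDiff F := by
    rw [UpperHalfPlane.mdifferentiable_iff]
    refine hd.congr fun w hw => ?_
    simp only [Function.comp, hF, ofComplex_apply_of_im_pos hw]
  obtain ⟨a, ha⟩ := const_of_inv (f := F) (fun γ z => inv_all hf γ z) hm hb
  have hper : Function.Periodic (F ∘ ofComplex) (1 : ℝ) :=
    periodic_of (g := f) (fun z => rfl) fun z hz => (hf z hz).1
  have han : AnalyticAt ℂ (cuspFunction 1 F) 0 := analyticAt_cuspFunction_zero one_pos hper hm hb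
  have h0 : (c 0 : ℂ) = a := by
    rw [qExp_unique han hsum 0]
    have h1 : HasSum (fun m => (if m = 0 then a else 0 : ℂ) • Function.Periodic.qParam 1 (UpperHalfPlane.I : ℂ) ^ m) a := by
      have := hasSum_single (f := fun m : ℕ => (if m = 0 then a else 0 : ℂ) •
        Function.Periodic.qParam 1 (UpperHalfPlane.I : ℂ) ^ m) 0 (fun n hn => by simp [hn])
      simpa using this
    have h2 := qExp_unique (f := F) (c := fun m => if m = 0 then a else 0) han (fun τ => by
      have := hasSum_single (f := fun m : ℕ => (if m = 0 then a else 0 : ℂ) •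
        Function.Periodic.qParam 1 (τ : ℂ) ^ m) 0 (fun n hn => by simp [hn])
      simpa [ha] using this) 0
    rw [← h2]
    simp
  exact ⟨c 0, fun z hz => by rw [h0]; exact ha ⟨z, hz⟩⟩

theorem specPolyJ : SpecPolyJ := by
  intro f L
  induction L generalizing f with
  | zero =>
    intro hd hf hl
    obtain ⟨m, hm⟩ := const_case hd hf hl
    exact ⟨Polynomial.C m, by simp, fun z hz => by rw [hm z hz]; simp⟩
  | succ L ih =>
    intro hd hf hl
    obtain ⟨c, hc⟩ := hl
    obtain ⟨d, hd0, hdd⟩ := Jpow_laurent (L + 1)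
    set g : ℂ → ℂ := fun z => f z - (c 0 : ℂ) * Jc z ^ (L + 1) with hg
    have h1 : DifferentiableOn ℂ g {w | 0 < w.im} :=
      hd.sub ((Jc_holo.pow (L + 1)).const_mul _)
    have h2 : Inv g := fun z hz => ⟨by simp only [hg, (hf z hz).1, (Jc_inv z hz).1],
      by simp only [hg, (hf z hz).2, (Jc_inv z hz).2]⟩
    have h3 : IntLaurent g L := by
      refine ⟨fun n => c (n + 1) - c 0 * d (n + 1), fun z hz => ?_⟩
      have a1 := (hc z hz).sub ((hdd z hz).mul_left (c 0 : ℂ))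
      have a2 := (hasSum_nat_add_iff' 1).mpr a1
      simp only [Finset.range_one, Finset.sum_singleton, hd0, pow_zero, mul_one, Int.cast_one,
        sub_self, sub_zero] at a2
      have hq0 : cexp (2 * π * Complex.I * z) ≠ 0 := Complex.exp_ne_zero _
      have a3 := a2.mul_right (cexp (2 * π * Complex.I * z))⁻¹
      have e : (f z * cexp (2 * π * Complex.I * z) ^ (L + 1) -
          (c 0 : ℂ) * (Jc z ^ (L + 1) * cexp (2 * π * Complex.I * z) ^ (L + 1))) *
          (cexp (2 * π * Complex.I * z))⁻¹ = g z * cexp (2 * π * Complex.I * z) ^ L := by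
        simp only [hg]
        field_simp
        ring
      rw [e] at a3
      refine (hasSum_congr' fun n => ?_).mpr a3
      push_cast
      rw [pow_succ]
      field_simp
    obtain ⟨Q, hQ1, hQ2⟩ := ih g h1 h2 h3
    refine ⟨Q + Polynomial.C (c 0) * Polynomial.X ^ (L + 1), ?_, fun z hz => ?_⟩
    · refine (Polynomial.natDegree_add_le _ _).trans (max_le (hQ1.trans (Nat.le_succ L)) ?_)
      exact Polynomial.natDegree_C_mul_X_pow_le _ _
    · have := hQ2 z hz
      simp only [hg] at this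
      rw [map_add, ← this]
      simp

end Pool.Agent.Lib.MP_47914d_nt
end

section
set_option autoImplicit false

open UpperHalfPlane hiding I
open Complex Filter Topology Polynomial
open scoped Real

namespace Pool.Agent.Lib.MP_47914d_nt

lemma heckeSum_differentiable {N : ℕ} {f : ℂ → ℂ} (hN : 0 < N)
    (hf : DifferentiableOn ℂ f {w | 0 < w.im}) :
    DifferentiableOn ℂ (heckeSum N f) {w | 0 < w.im} := by
  unfold heckeSum
  refine DifferentiableOn.fun_sum fun p hp => DifferentiableOn.fun_sum fun b _ => ?_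
  have h1 := Nat.mem_divisorsAntidiagonal.mp hp
  have hp1 : 0 < p.1 := Nat.pos_of_ne_zero (by rintro h; rw [h] at h1; simp at h1; omega)
  have hp2 : 0 < p.2 := Nat.pos_of_ne_zero (by rintro h; rw [h] at h1; simp at h1; omega)
  refine hf.comp (by fun_prop) fun z hz => ?_
  simp only [Set.mem_setOf_eq] at hz ⊢
  rw [Complex.div_natCast_im]
  have : ((p.1 : ℂ) * z + (b : ℂ)).im = p.1 * z.im := by simp
  rw [this]
  positivity

lemma powerSum (N m : ℕ) (hN : 0 < N) : ∃ Q : ℤ[X], Q.natDegree ≤ m * N ∧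
    ∀ z : ℂ, 0 < z.im → heckeSum N (fun w => Jc w ^ m) z = aeval (Jc z) Q := by
  obtain ⟨c, -, hc⟩ := Jpow_laurent m
  have h1 : IntLaurent (fun w => Jc w ^ m) m := ⟨c, hc⟩
  have h2 : Inv (fun w => Jc w ^ m) := fun z hz =>
    ⟨by simp only [(Jc_inv z hz).1], by simp only [(Jc_inv z hz).2]⟩
  exact specPolyJ _ _ (heckeSum_differentiable hN (Jc_holo.pow m)) (specHeckeInv _ N hN h2)
    (specHeckeLaurent _ m N hN h1)

theorem specCM_all : SpecCM :=
  specCM specJ fun N hN => specNewton N hN fun m => powerSum N m hN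

theorem specFunc_all : SpecFunc := specFunc specJ

/-- The transfer theorem, unconditionally. -/
theorem core_all {n : ℕ} (α β γ δ : Fin n → ℂ) (θ : ℂ)
    (hdet : ∀ i, α i * δ i - β i * γ i ≠ 0)
    (hθ : ∀ i, 0 < Qf (α i) (β i) (γ i) (δ i) θ)
    (hne : ∀ i k, i ≠ k → ¬ ∃ c : ℝ, ∀ t : ℂ,
      Qf (α i) (β i) (γ i) (δ i) t = c * Qf (α k) (β k) (γ k) (δ k) t)
    (happ : Approx α β γ δ θ) :
    AlgebraicIndependent ℚ (ptc α β γ δ θ) :=
  core specJ specCM_all specLiouville specFunc_all α β γ δ θ hdet hθ hne happ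

end Pool.Agent.Lib.MP_47914d_nt
end

section
/-!
INJ: a real Möbius transformation preserving `Jc` is integral.
-/
set_option autoImplicit false

open UpperHalfPlane hiding I
open ModularForm Complex Filter Topology
open scoped Real MatrixGroups

namespace Pool.Agent.Lib.MP_47914d_nt

lemma norm_pow_sub_aux {r : ℝ} (hr : 0 ≤ r) {a b : ℂ} (ha : ‖a‖ ≤ r) (hb : ‖b‖ ≤ r) (n : ℕ) :
    r * ‖a ^ n - b ^ n‖ ≤ n * r ^ n * ‖a - b‖ := by
  induction n with
  | zero => simp
  | succ n ih =>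
    have e : a ^ (n + 1) - b ^ (n + 1) = a * (a ^ n - b ^ n) + (a - b) * b ^ n := by ring
    have h1 : ‖a ^ (n + 1) - b ^ (n + 1)‖ ≤ r * ‖a ^ n - b ^ n‖ + ‖a - b‖ * r ^ n := by
      rw [e]
      refine (norm_add_le _ _).trans ?_
      rw [norm_mul, norm_mul, norm_pow]
      gcongr
    calc r * ‖a ^ (n + 1) - b ^ (n + 1)‖ ≤ r * (r * ‖a ^ n - b ^ n‖ + ‖a - b‖ * r ^ n) := by gcongr
      _ ≤ r * (n * r ^ n * ‖a - b‖ + ‖a - b‖ * r ^ n) := by gcongr
      _ = ((n + 1 : ℕ) : ℝ) * r ^ (n + 1) * ‖a - b‖ := by push_cast; ring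

lemma norm_q (w : ℂ) : ‖cexp (2 * π * Complex.I * w)‖ = Real.exp (-(2 * π * w.im)) := by
  rw [Complex.norm_exp]
  congr 1
  simp

/-- The regular part of `Jc` is Lipschitz in `q`. -/
lemma Jc_reg_lip : ∃ L : ℝ, ∀ w w' : ℂ, 1 ≤ w.im → 1 ≤ w'.im →
    ‖(Jc w - (cexp (2 * π * Complex.I * w))⁻¹) - (Jc w' - (cexp (2 * π * Complex.I * w'))⁻¹)‖ ≤
      L * ‖cexp (2 * π * Complex.I * w) - cexp (2 * π * Complex.I * w')‖ := by
  obtain ⟨c, hc0, hc⟩ := specJLaurent
  -- summability at the base point `I / 2`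
  have hI := hc (Complex.I / 2) (by simp)
  have hs : Summable fun n : ℕ => ‖(c n : ℂ) * cexp (2 * π * Complex.I * (Complex.I / 2)) ^ n‖ :=
    hI.summable.norm
  set ρ : ℝ := Real.exp (-π) with hρ
  have hρ0 : 0 < ρ := Real.exp_pos _
  have hn : ‖cexp (2 * π * Complex.I * (Complex.I / 2))‖ = ρ := by
    rw [norm_q, hρ]
    congr 1
    simp
    ring
  have hs2 : Summable fun n : ℕ => ‖(c (n + 1) : ℂ)‖ * ρ ^ n := by
    have h1 := (summable_nat_add_iff 1).mpr hs
    have h2 := h1.mul_right ρ⁻¹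
    refine h2.congr fun n => ?_
    rw [norm_mul, norm_pow, hn, pow_succ]
    field_simp
  set r : ℝ := Real.exp (-(2 * π)) with hr
  have hr0 : 0 < r := Real.exp_pos _
  have hrρ : r = ρ * ρ := by
    rw [hr, hρ, ← Real.exp_add]
    congr 1
    ring
  have hnr : ∀ n : ℕ, (n : ℝ) * r ^ n ≤ ρ ^ n := by
    intro n
    rw [hrρ, mul_pow, ← mul_assoc]
    have h1 : (n : ℝ) * ρ ^ n ≤ 1 := by
      rw [hρ, ← Real.exp_nat_mul]
      have h2 : (n : ℝ) ≤ Real.exp (n * π) := by
        have h3 := Real.add_one_le_exp ((n : ℝ) * π)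
        have h4 : (n : ℝ) ≤ n * π := by
          have := Real.pi_gt_three
          nlinarith [Nat.cast_nonneg (α := ℝ) n]
        linarith
      calc (n : ℝ) * Real.exp (n * -π) ≤ Real.exp (n * π) * Real.exp (n * -π) := by gcongr
        _ = 1 := by rw [← Real.exp_add]; simp
    calc (n : ℝ) * ρ ^ n * ρ ^ n ≤ 1 * ρ ^ n := by gcongr
      _ = ρ ^ n := one_mul _
  refine ⟨r⁻¹ * ∑' n : ℕ, ‖(c (n + 1) : ℂ)‖ * ρ ^ n, fun w w' hw hw' => ?_⟩
  have key : ∀ w : ℂ, 1 ≤ w.im → ‖cexp (2 * π * Complex.I * w)‖ ≤ r ∧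
      HasSum (fun n : ℕ => (c (n + 1) : ℂ) * cexp (2 * π * Complex.I * w) ^ n)
        (Jc w - (cexp (2 * π * Complex.I * w))⁻¹) := by
    intro w hw
    constructor
    · rw [norm_q, hr]
      apply Real.exp_le_exp.mpr
      nlinarith [Real.pi_pos]
    · have h := hc w (by linarith)
      have h1 := (hasSum_nat_add_iff' 1).mpr h
      simp only [Finset.range_one, Finset.sum_singleton, hc0, pow_zero, mul_one, pow_one,
        Int.cast_one] at h1
      set q : ℂ := cexp (2 * π * Complex.I * w) with hq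
      have hq0 : q ≠ 0 := Complex.exp_ne_zero _
      have h2 := h1.mul_right q⁻¹
      have e : (Jc w * q - 1) * q⁻¹ = Jc w - q⁻¹ := by field_simp
      rw [e] at h2
      refine h2.congr_fun fun n => ?_
      rw [pow_succ, mul_assoc, mul_assoc, mul_inv_cancel₀ hq0, mul_one]
  obtain ⟨hq, hsum⟩ := key w hw
  obtain ⟨hq', hsum'⟩ := key w' hw'
  have h3 := hsum.sub hsum'
  have hb : HasSum (fun n : ℕ => r⁻¹ * (‖(c (n + 1) : ℂ)‖ * ρ ^ n) *
      ‖cexp (2 * π * Complex.I * w) - cexp (2 * π * Complex.I * w')‖)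
      (r⁻¹ * (∑' n : ℕ, ‖(c (n + 1) : ℂ)‖ * ρ ^ n) *
      ‖cexp (2 * π * Complex.I * w) - cexp (2 * π * Complex.I * w')‖) :=
    (hs2.hasSum.mul_left r⁻¹).mul_right _
  refine h3.norm_le_of_bounded hb fun n => ?_
  rw [← mul_sub, norm_mul]
  have h4 := norm_pow_sub_aux hr0.le hq hq' n
  have h5 : ‖cexp (2 * π * Complex.I * w) ^ n - cexp (2 * π * Complex.I * w') ^ n‖ ≤
      r⁻¹ * (ρ ^ n * ‖cexp (2 * π * Complex.I * w) - cexp (2 * π * Complex.I * w')‖) := by
    rw [le_inv_mul_iff₀ hr0]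
    exact h4.trans (mul_le_mul_of_nonneg_right (hnr n) (norm_nonneg _))
  calc ‖(c (n + 1) : ℂ)‖ * ‖cexp (2 * π * Complex.I * w) ^ n - cexp (2 * π * Complex.I * w') ^ n‖
      ≤ ‖(c (n + 1) : ℂ)‖ * (r⁻¹ * (ρ ^ n *
        ‖cexp (2 * π * Complex.I * w) - cexp (2 * π * Complex.I * w')‖)) := by gcongr
    _ = _ := by ring

/-- `Jc` is injective modulo integral translations high up. -/
lemma Jc_inj_high : ∃ Y : ℝ, 1 ≤ Y ∧ ∀ w w' : ℂ, Y ≤ w.im → Y ≤ w'.im → Jc w = Jc w' →
    ∃ m : ℤ, w = w' + m := by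
  obtain ⟨L, hL⟩ := Jc_reg_lip
  refine ⟨max 1 L, le_max_left _ _, fun w w' hw hw' h => ?_⟩
  have hw1 : 1 ≤ w.im := (le_max_left _ _).trans hw
  have hw1' : 1 ≤ w'.im := (le_max_left _ _).trans hw'
  have h1 := hL w w' hw1 hw1'
  set q := cexp (2 * π * Complex.I * w) with hq
  set q' := cexp (2 * π * Complex.I * w') with hq'
  have hq0 : q ≠ 0 := Complex.exp_ne_zero _
  have hq0' : q' ≠ 0 := Complex.exp_ne_zero _
  have hqq : q = q' := by
    by_contra hne
    have hpos : 0 < ‖q - q'‖ := norm_pos_iff.mpr (sub_ne_zero.mpr hne)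
    have e : (Jc w - q⁻¹) - (Jc w' - q'⁻¹) = (q - q') * (q⁻¹ * q'⁻¹) := by
      rw [h]
      field_simp
      ring
    rw [e, norm_mul, mul_comm] at h1
    have h2 : ‖q⁻¹ * q'⁻¹‖ ≤ L := le_of_mul_le_mul_right h1 hpos
    rw [norm_mul, norm_inv, norm_inv, norm_q, norm_q, ← Real.exp_neg, ← Real.exp_neg,
      ← Real.exp_add] at h2
    have h3 := Real.add_one_le_exp (-(-(2 * π * w.im)) + -(-(2 * π * w'.im)))
    have h4 : L ≤ w.im := (le_max_right _ _).trans hw
    have := Real.pi_gt_three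
    nlinarith
  rw [hq, hq', Complex.exp_eq_exp_iff_exists_int] at hqq
  obtain ⟨n, hn⟩ := hqq
  refine ⟨n, ?_⟩
  have h2 : (2 * π * Complex.I : ℂ) ≠ 0 := Complex.two_pi_I_ne_zero
  apply mul_left_cancel₀ h2
  rw [hn]
  ring

/-- In the fundamental domain a large value of `J` forces a large imaginary part. -/
lemma J_large (Y : ℝ) : ∃ M : ℝ, ∀ z : ℍ, z ∈ ModularGroup.fd → M < ‖J z‖ → Y < z.im := by
  have hK : IsCompact ((Set.Icc (-(1/2) : ℝ) (1/2)) ×ℂ (Set.Icc (1/2 : ℝ) Y)) :=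
    isCompact_Icc.reProdIm isCompact_Icc
  have hcont : ContinuousOn Jc ((Set.Icc (-(1/2) : ℝ) (1/2)) ×ℂ (Set.Icc (1/2 : ℝ) Y)) := by
    apply Jc_holo.continuousOn.mono
    intro w hw
    have := hw.2.1
    change 0 < w.im
    linarith
  obtain ⟨M, hM⟩ := hK.exists_bound_of_continuousOn hcont
  refine ⟨M, fun z hz hJ => ?_⟩
  by_contra hle
  push Not at hle
  have hre := hz.2
  have him := ModularGroup.three_le_four_mul_im_sq_of_mem_fd hz
  have hpos := z.im_pos
  have hmem : (z : ℂ) ∈ ((Set.Icc (-(1/2) : ℝ) (1/2)) ×ℂ (Set.Icc (1/2 : ℝ) Y)) := by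
    refine ⟨⟨?_, ?_⟩, ⟨?_, ?_⟩⟩
    · have := neg_le_of_abs_le hre
      simpa using this
    · have := le_of_abs_le hre
      simpa using this
    · change 1 / 2 ≤ z.im
      nlinarith
    · exact hle
  have := hM _ hmem
  rw [Jc_coe] at this
  linarith

theorem specInj (hJ : SpecJ) : SpecInj := by
  intro a b c d hdet hg
  obtain ⟨Y, hY1, hY⟩ := Jc_inj_high
  obtain ⟨M, hM⟩ := J_large Y
  obtain ⟨C, hC⟩ := hJ.growth
  -- a height above which everything works
  set Y' : ℝ := max Y (M + C) with hY'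
  -- for every `y > Y'` some integral matrix sends `g (i y)` to `i y`
  have key : ∀ y : Set.Ioi Y', ∃ γ : ℤ × ℤ × ℤ × ℤ, γ.1 * γ.2.2.2 - γ.2.1 * γ.2.2.1 = 1 ∧
      (γ.1 : ℂ) * (a * ((y : ℝ) * Complex.I) + b) +
        (γ.2.1 : ℂ) * (c * ((y : ℝ) * Complex.I) + d) =
      ((y : ℝ) * Complex.I) * ((γ.2.2.1 : ℂ) * (a * ((y : ℝ) * Complex.I) + b) +
        (γ.2.2.2 : ℂ) * (c * ((y : ℝ) * Complex.I) + d)) := by
    rintro ⟨y, hy⟩
    change Y' < y at hy
    have hyY : Y < y := (le_max_left _ _).trans_lt hy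
    have hyM : M + C < y := (le_max_right _ _).trans_lt hy
    have hy0 : 0 < y := by linarith
    set z : ℍ := ⟨(y : ℝ) * Complex.I, by simpa using hy0⟩ with hz
    have hzc : (z : ℂ) = (y : ℝ) * Complex.I := rfl
    have hcd : (c * (z : ℂ) + d) ≠ 0 := by
      intro h0
      have h1 := congrArg Complex.im h0
      have h2 := congrArg Complex.re h0
      simp [hzc] at h1 h2
      rcases h1 with h1 | h1
      · rw [h1, h2] at hdet
        simp at hdet
      · exact hy0.ne' h1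
    have him : 0 < ((a * (z : ℂ) + b) / (c * z + d)).im := by
      have h1 : ((a * (z : ℂ) + b) / (c * z + d)).im = y / Complex.normSq (c * z + d) := by
        rw [Complex.div_im, ← sub_div]
        congr 1
        simp [hzc]
        linear_combination y * hdet
      rw [h1]
      exact div_pos hy0 (Complex.normSq_pos.mpr hcd)
    set z' : ℍ := ⟨(a * (z : ℂ) + b) / (c * z + d), him⟩ with hz'
    obtain ⟨γ, hγ⟩ := ModularGroup.exists_smul_mem_fd z'
    have hJ1 : J (γ • z') = J z := by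
      rw [J_smul, ← Jc_coe, ← Jc_coe]
      exact hg z z.im_pos
    have hbig : M < ‖J (γ • z')‖ := by
      rw [hJ1, ← Jc_coe]
      have h1 := hC z (by change 1 ≤ z.im; have : z.im = y := by simp [hz, UpperHalfPlane.im]
                          linarith)
      have h2 := norm_sub_norm_le (cexp (-(2 * π * Complex.I * z))) (Jc z)
      rw [norm_sub_rev] at h2
      have h3 : ‖cexp (-(2 * π * Complex.I * z))‖ = Real.exp (2 * π * y) := by
        rw [Complex.norm_exp]
        simp [hzc]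
      rw [h3] at h2
      have h4 := Real.add_one_le_exp (2 * π * y)
      have := Real.pi_gt_three
      nlinarith
    have hYim := hM _ hγ hbig
    obtain ⟨m, hm⟩ := hY ((γ • z' : ℍ) : ℂ) (z : ℂ) hYim.le (by
      change Y ≤ z.im
      have : z.im = y := by simp [hz, UpperHalfPlane.im]
      linarith) (by rw [Jc_coe, Jc_coe, hJ1])
    have h1 : (ModularGroup.T ^ (-m) * γ) • z' = z := by
      rw [mul_smul]
      ext
      rw [UpperHalfPlane.modular_T_zpow_smul]
      push_cast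
      rw [UpperHalfPlane.coe_vadd, hm]
      push_cast
      ring
    have h2 : ((((ModularGroup.T ^ (-m) * γ) • z' : ℍ)) : ℂ) = (z : ℂ) := by rw [h1]
    set δ : SL(2, ℤ) := ModularGroup.T ^ (-m) * γ with hδ
    rw [UpperHalfPlane.coe_specialLinearGroup_apply] at h2
    have h3 : (((δ 1 0 : ℤ) : ℂ) * (z' : ℂ) + ((δ 1 1 : ℤ) : ℂ)) ≠ 0 := by
      have := UpperHalfPlane.denom_ne_zero δ z'
      simpa [UpperHalfPlane.denom] using this
    refine ⟨(δ 0 0, δ 0 1, δ 1 0, δ 1 1), ?_, ?_⟩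
    · have := δ.2
      rw [Matrix.det_fin_two] at this
      exact this
    · have h4 : ((δ 0 0 : ℤ) : ℂ) * (z' : ℂ) + ((δ 0 1 : ℤ) : ℂ) =
          z * (((δ 1 0 : ℤ) : ℂ) * (z' : ℂ) + ((δ 1 1 : ℤ) : ℂ)) := by
        rw [← h2]
        simp only [algebraMap_int_eq, eq_intCast, Complex.ofReal_intCast]
        rw [div_mul_cancel₀ _ h3]
      have h5 : (z' : ℂ) * (c * z + d) = (a * (z : ℂ) + b) := div_mul_cancel₀ _ hcd
      simp only
      rw [← hzc]
      linear_combination (-((δ 0 0 : ℤ) : ℂ) + z * ((δ 1 0 : ℤ) : ℂ)) * h5 + (c * z + d) * h4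
  choose f hf using key
  have hninj : ¬ Function.Injective f := by
    intro hinj
    have h1 := hinj.countable
    have h2 : Cardinal.mk (Set.Ioi Y') ≤ Cardinal.aleph0 := Cardinal.mk_le_aleph0_iff.mpr h1
    rw [Cardinal.mk_Ioi_real] at h2
    exact absurd h2 (not_le.mpr Cardinal.aleph0_lt_continuum)
  rw [Function.not_injective_iff] at hninj
  obtain ⟨⟨y1, hy1⟩, ⟨y2, hy2⟩, hfe, hne⟩ := hninj
  have hne' : y1 ≠ y2 := fun h => hne (Subtype.ext h)
  obtain ⟨hd1, he1⟩ := hf ⟨y1, hy1⟩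
  obtain ⟨-, he2⟩ := hf ⟨y2, hy2⟩
  rw [← hfe] at he2
  generalize f ⟨y1, hy1⟩ = g at hd1 he1 he2
  obtain ⟨p, q, r, s⟩ := g
  simp only at hd1 he1 he2
  have hy10 : 0 < y1 := by
    have h1 : Y ≤ Y' := le_max_left _ _
    have h2 : Y' < y1 := hy1
    linarith
  have hy20 : 0 < y2 := by
    have h1 : Y ≤ Y' := le_max_left _ _
    have h2 : Y' < y2 := hy2
    linarith
  have r1 := congrArg Complex.re he1
  have i1 := congrArg Complex.im he1
  have r2 := congrArg Complex.re he2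
  simp at r1 i1 r2
  have hd : (p : ℝ) * s - q * r = 1 := by exact_mod_cast hd1
  -- the lower left entry vanishes
  have hC0 : (r : ℝ) * a + s * c = 0 := by
    have h1 : (y1 ^ 2 - y2 ^ 2) * ((r : ℝ) * a + s * c) = 0 := by linear_combination r1 - r2
    rcases mul_eq_zero.mp h1 with h2 | h2
    · exfalso
      apply hne'
      have h3 : (y1 - y2) * (y1 + y2) = 0 := by linear_combination h2
      rcases mul_eq_zero.mp h3 with h4 | h4
      · linarith
      · linarith
    · exact h2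
  have hB0 : (p : ℝ) * b + q * d = 0 := by linear_combination r1 - y1 ^ 2 * hC0
  have hAD : (p : ℝ) * a + q * c = r * b + s * d := by
    apply mul_left_cancel₀ hy10.ne'
    linear_combination i1
  set ε : ℝ := (p : ℝ) * a + q * c with hε
  have hε2 : ε * ε = 1 := by
    have h1 : ε * ((r : ℝ) * b + s * d) - (p * b + q * d) * (r * a + s * c) = 1 := by
      rw [hε]
      linear_combination (a * d - b * c) * hd + hdet
    rw [← hAD, hC0] at h1
    linarith
  have ha : a = s * ε := by rw [hε]; linear_combination (-a) * hd - q * hC0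
  have hc : c = -(r * ε) := by rw [hε]; linear_combination (-c) * hd + p * hC0
  have hb : b = -(q * ε) := by rw [hAD]; linear_combination (-b) * hd + s * hB0
  have hdd : d = p * ε := by rw [hAD]; linear_combination (-d) * hd - r * hB0
  rcases mul_self_eq_one_iff.mp hε2 with h1 | h1
  · refine ⟨s, -q, -r, p, ?_, ?_, ?_, ?_⟩
    · rw [ha, h1, mul_one]
    · rw [hb, h1, mul_one]; push_cast; ring
    · rw [hc, h1, mul_one]; push_cast; ring
    · rw [hdd, h1, mul_one]
  · refine ⟨-s, q, r, -p, ?_, ?_, ?_, ?_⟩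
    · rw [ha, h1]; push_cast; ring
    · rw [hb, h1]; ring
    · rw [hc, h1]; ring
    · rw [hdd, h1]; push_cast; ring

end Pool.Agent.Lib.MP_47914d_nt
end

section
/-!
INJF: injectivity of `Jc` modulo `SL₂(ℤ)`.
-/
set_option autoImplicit false

open UpperHalfPlane hiding I
open ModularForm Complex Filter Topology Polynomial
open scoped Real MatrixGroups

namespace Pool.Agent.Lib.MP_47914d_nt

/-- Hecke sums of polynomials in `Jc` only depend on the value of `Jc`. -/
lemma heckeSum_poly_congr {N : ℕ} (hN : 0 < N) {z w : ℂ} (hz : 0 < z.im) (hw : 0 < w.im)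
    (h : Jc z = Jc w) (B : ℂ[X]) :
    heckeSum N (fun x => B.eval (Jc x)) z = heckeSum N (fun x => B.eval (Jc x)) w := by
  have key : ∀ x : ℂ, heckeSum N (fun x => B.eval (Jc x)) x =
      ∑ m ∈ Finset.range (B.natDegree + 1), B.coeff m * heckeSum N (fun x => Jc x ^ m) x := by
    intro x
    unfold heckeSum
    simp only [eval_eq_sum_range]
    rw [Finset.sum_congr rfl fun p _ => Finset.sum_comm, Finset.sum_comm]
    apply Finset.sum_congr rfl
    intro m _
    rw [Finset.mul_sum]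
    apply Finset.sum_congr rfl
    intro p _
    rw [Finset.mul_sum]
  rw [key, key]
  apply Finset.sum_congr rfl
  intro m _
  obtain ⟨Q, -, hQ⟩ := powerSum N m hN
  rw [hQ z hz, hQ w hw, h]

/-- The Hecke orbits of `z` and `w` have the same `Jc`-values. -/
lemma exists_rep {N : ℕ} (hN : 0 < N) {z w : ℂ} (hz : 0 < z.im) (hw : 0 < w.im)
    (h : Jc z = Jc w) : ∃ p ∈ N.divisorsAntidiagonal, ∃ b ∈ Finset.range p.2,
      Jc (((p.1 : ℂ) * w + (b : ℂ)) / (p.2 : ℂ)) = Jc (N * z) := by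
  classical
  by_contra hcon
  push Not at hcon
  set t : ℂ := Jc (N * z) with ht
  set T : Finset ℂ := insert t ((N.divisorsAntidiagonal.biUnion fun p => (Finset.range p.2).image
      fun b : ℕ => Jc (((p.1 : ℂ) * z + (b : ℂ)) / (p.2 : ℂ))) ∪
    (N.divisorsAntidiagonal.biUnion fun p => (Finset.range p.2).image
      fun b : ℕ => Jc (((p.1 : ℂ) * w + (b : ℂ)) / (p.2 : ℂ)))) with hT
  have htT : t ∈ T := Finset.mem_insert_self _ _
  set B : ℂ[X] := Lagrange.basis T id t with hB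
  have hBt : B.eval t = 1 := Lagrange.eval_basis_self Function.injective_id.injOn htT
  have hBs : ∀ s ∈ T, s ≠ t → B.eval s = 0 := fun s hs hst =>
    Lagrange.eval_basis_of_ne (v := id) (Ne.symm hst) hs
  have h1 := heckeSum_poly_congr hN hz hw h B
  have h2 : heckeSum N (fun x => B.eval (Jc x)) w = 0 := by
    unfold heckeSum
    apply Finset.sum_eq_zero
    intro p hp
    apply Finset.sum_eq_zero
    intro b hb
    apply hBs _ _ (hcon p hp b hb)
    rw [hT]
    apply Finset.mem_insert_of_mem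
    apply Finset.mem_union_right
    rw [Finset.mem_biUnion]
    exact ⟨p, hp, Finset.mem_image_of_mem _ hb⟩
  have h3 : heckeSum N (fun x => B.eval (Jc x)) z =
      ((∑ p ∈ N.divisorsAntidiagonal, ((Finset.range p.2).filter
        (fun b : ℕ => Jc (((p.1 : ℂ) * z + (b : ℂ)) / (p.2 : ℂ)) = t)).card : ℕ) : ℂ) := by
    unfold heckeSum
    push_cast
    apply Finset.sum_congr rfl
    intro p hp
    rw [Finset.card_filter]
    push_cast
    apply Finset.sum_congr rfl
    intro b hb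
    split_ifs with hc
    · rw [hc, hBt]
    · apply hBs _ _ hc
      rw [hT]
      apply Finset.mem_insert_of_mem
      apply Finset.mem_union_left
      rw [Finset.mem_biUnion]
      exact ⟨p, hp, Finset.mem_image_of_mem _ hb⟩
  rw [h2] at h1
  rw [h1] at h3
  have h4 : (∑ p ∈ N.divisorsAntidiagonal, ((Finset.range p.2).filter
        (fun b : ℕ => Jc (((p.1 : ℂ) * z + (b : ℂ)) / (p.2 : ℂ)) = t)).card : ℕ) = 0 := by
    exact_mod_cast h3.symm
  have hmem : (N, 1) ∈ N.divisorsAntidiagonal := by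
    rw [Nat.mem_divisorsAntidiagonal]; exact ⟨by simp, hN.ne'⟩
  have h5 := (Finset.sum_eq_zero_iff.1 h4) _ hmem
  rw [Finset.card_eq_zero] at h5
  have h6 : (0 : ℕ) ∈ (Finset.range ((N, 1) : ℕ × ℕ).2).filter
      (fun b : ℕ => Jc (((((N, 1) : ℕ × ℕ).1 : ℂ) * z + (b : ℂ)) / (((N, 1) : ℕ × ℕ).2 : ℂ)) = t) := by
    rw [Finset.mem_filter]
    refine ⟨by simp, ?_⟩
    simp [ht]
  rw [h5] at h6
  simp at h6

/-- The key step: for large `N` the point `N z` is, up to an integral translation, the image of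
`w` under an integral matrix of determinant `N`. -/
lemma exists_matrix (hJ : SpecJ) {z w : ℂ} (hz : 0 < z.im) (hw : 0 < w.im) (h : Jc z = Jc w) :
    ∃ N₀ : ℕ, ∀ N : ℕ, N₀ ≤ N → 0 < N → ∃ p q u v : ℤ, p * v - q * u = N ∧
      ((u : ℂ) * w + v) * ((N : ℂ) * z) = p * w + q ∧
      z.im * Complex.normSq ((u : ℂ) * w + v) = w.im := by
  obtain ⟨Y, hY1, hY⟩ := Jc_inj_high
  obtain ⟨M, hM⟩ := J_large Y
  obtain ⟨C, hC⟩ := hJ.growth
  obtain ⟨N₀, hN₀⟩ := exists_nat_ge (max Y (M + C) / z.im)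
  refine ⟨N₀, fun N hN hNpos => ?_⟩
  have hNr : (0 : ℝ) < N := by exact_mod_cast hNpos
  set y : ℝ := N * z.im with hy
  have hyge : max Y (M + C) ≤ y := by
    rw [div_le_iff₀ hz] at hN₀
    calc max Y (M + C) ≤ N₀ * z.im := hN₀
      _ ≤ N * z.im := by gcongr
  have hyY : Y ≤ y := (le_max_left _ _).trans hyge
  have hyM : M + C ≤ y := (le_max_right _ _).trans hyge
  have him : ((N : ℂ) * z).im = y := by simp [hy]
  -- the value of `Jc` at `N z` is large
  have hbig : M < ‖Jc (N * z)‖ := by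
    have h1 := hC (N * z) (by rw [him]; linarith)
    have h2 := norm_sub_norm_le (cexp (-(2 * π * Complex.I * (N * z)))) (Jc (N * z))
    rw [norm_sub_rev] at h2
    have h3 : ‖cexp (-(2 * π * Complex.I * (N * z)))‖ = Real.exp (2 * π * y) := by
      rw [Complex.norm_exp]
      congr 1
      have : (-(2 * π * Complex.I * ((N : ℂ) * z))).re = 2 * π * ((N : ℂ) * z).im := by simp
      rw [this, him]
    rw [h3] at h2
    have h4 := Real.add_one_le_exp (2 * π * y)
    have := Real.pi_gt_three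
    nlinarith
  obtain ⟨P, hP, b, hb, hPJ⟩ := exists_rep hNpos hz hw h
  rw [Nat.mem_divisorsAntidiagonal] at hP
  have hP1 : 0 < P.1 := Nat.pos_of_ne_zero (by rintro h; rw [h] at hP; simp at hP; omega)
  have hP2 : 0 < P.2 := Nat.pos_of_ne_zero (by rintro h; rw [h] at hP; simp at hP; omega)
  have hP2c : (P.2 : ℂ) ≠ 0 := by exact_mod_cast hP2.ne'
  set w' : ℂ := ((P.1 : ℂ) * w + (b : ℂ)) / (P.2 : ℂ) with hw'
  have hw'im : 0 < w'.im := by
    rw [hw', Complex.div_natCast_im]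
    have : ((P.1 : ℂ) * w + (b : ℂ)).im = P.1 * w.im := by simp
    rw [this]
    positivity
  set z' : ℍ := ⟨w', hw'im⟩ with hz'
  have hz'c : (z' : ℂ) = w' := rfl
  obtain ⟨γ, hγ⟩ := ModularGroup.exists_smul_mem_fd z'
  have hJ1 : J (γ • z') = Jc (N * z) := by
    rw [J_smul, ← Jc_coe, hz'c, hPJ]
  have hYim := hM _ hγ (by rw [hJ1]; exact hbig)
  obtain ⟨k, hk⟩ := hY ((γ • z' : ℍ) : ℂ) (N * z) hYim.le (by rw [him]; exact hyY)
    (by rw [Jc_coe, hJ1])
  have h2 : (((γ • z' : ℍ)) : ℂ) = (N : ℂ) * z + k := hk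
  rw [UpperHalfPlane.coe_specialLinearGroup_apply] at h2
  have h3 : (((γ 1 0 : ℤ) : ℂ) * w' + ((γ 1 1 : ℤ) : ℂ)) ≠ 0 := by
    have := UpperHalfPlane.denom_ne_zero γ z'
    simpa [UpperHalfPlane.denom, hz'c] using this
  have h4 : ((γ 0 0 : ℤ) : ℂ) * w' + ((γ 0 1 : ℤ) : ℂ) =
      ((N : ℂ) * z + k) * (((γ 1 0 : ℤ) : ℂ) * w' + ((γ 1 1 : ℤ) : ℂ)) := by
    rw [← h2, hz'c]
    simp only [algebraMap_int_eq, eq_intCast, Complex.ofReal_intCast]
    rw [div_mul_cancel₀ _ h3]
  have h5 : w' * P.2 = (P.1 : ℂ) * w + b := div_mul_cancel₀ _ hP2c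
  have hdet : (γ 0 0 : ℤ) * γ 1 1 - (γ 0 1 : ℤ) * γ 1 0 = 1 := by
    have := γ.2
    rw [Matrix.det_fin_two] at this
    exact this
  -- the matrix
  set u : ℤ := γ 1 0 * P.1 with hu
  set v : ℤ := γ 1 0 * b + γ 1 1 * P.2 with hv
  set p : ℤ := γ 0 0 * P.1 - k * u with hp
  set q : ℤ := γ 0 0 * b + γ 0 1 * P.2 - k * v with hq
  have hNP : (P.1 : ℤ) * P.2 = N := by exact_mod_cast hP.1
  have hpv : p * v - q * u = N := by
    rw [hp, hq, ← hNP]
    have : (γ 0 0 * (P.1 : ℤ) - k * u) * v - (γ 0 0 * (b : ℤ) + γ 0 1 * P.2 - k * v) * u =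
        γ 0 0 * P.1 * v - (γ 0 0 * b + γ 0 1 * P.2) * u := by ring
    rw [this, hu, hv]
    linear_combination (P.1 * P.2 : ℤ) * hdet
  have hrel : ((u : ℂ) * w + v) * ((N : ℂ) * z) = p * w + q := by
    rw [hp, hq]
    push_cast [hu, hv]
    linear_combination (((γ 0 0 : ℤ) : ℂ) - ((N : ℂ) * z + k) * ((γ 1 0 : ℤ) : ℂ)) * h5 -
      (P.2 : ℂ) * h4
  refine ⟨p, q, u, v, hpv, hrel, ?_⟩
  -- imaginary parts
  have hpvr : (p : ℝ) * v - q * u = N := by exact_mod_cast hpv
  have e1 := congrArg Complex.re hrel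
  have e2 := congrArg Complex.im hrel
  simp at e1 e2
  have e0 : Complex.normSq ((u : ℂ) * w + v) = (u * w.re + v) ^ 2 + (u * w.im) ^ 2 := by
    rw [Complex.normSq_apply]
    simp
    ring
  have e3 : (N : ℝ) * (z.im * Complex.normSq ((u : ℂ) * w + v)) = N * w.im := by
    rw [e0]
    linear_combination (u * w.re + v) * e2 - (u * w.im) * e1 + w.im * hpvr
  exact mul_left_cancel₀ hNr.ne' e3

theorem specInjFull (hJ : SpecJ) : SpecInjFull := by
  intro z w hz hw h
  obtain ⟨N₀, hN₀⟩ := exists_matrix hJ hz hw h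
  have hch : ∀ N : ℕ, ∃ D : ℤ × ℤ × ℤ × ℤ, N₀ ≤ N → 0 < N →
      D.1 * D.2.2.2 - D.2.1 * D.2.2.1 = N ∧
      ((D.2.2.1 : ℂ) * w + D.2.2.2) * ((N : ℂ) * z) = D.1 * w + D.2.1 ∧
      z.im * Complex.normSq ((D.2.2.1 : ℂ) * w + D.2.2.2) = w.im := by
    intro N
    by_cases hc : N₀ ≤ N ∧ 0 < N
    · obtain ⟨p, q, u, v, h1, h2, h3⟩ := hN₀ N hc.1 hc.2
      exact ⟨(p, q, u, v), fun _ _ => ⟨h1, h2, h3⟩⟩
    · exact ⟨0, fun h1 h2 => absurd ⟨h1, h2⟩ hc⟩
  choose D hD using hch
  -- bounded bottom rows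
  set ρ : ℝ := w.im / z.im with hρ
  have hρ0 : 0 < ρ := div_pos hw hz
  obtain ⟨U, hU⟩ := exists_nat_ge (Real.sqrt ρ / w.im)
  obtain ⟨V, hV⟩ := exists_nat_ge (Real.sqrt ρ + U * |w.re|)
  have hbd : ∀ u v : ℤ, z.im * Complex.normSq ((u : ℂ) * w + v) = w.im →
      |u| ≤ U ∧ |v| ≤ V := by
    intro u v huv
    have h1 : Complex.normSq ((u : ℂ) * w + v) = ρ := by
      rw [hρ, eq_div_iff hz.ne', ← huv]; ring
    rw [Complex.normSq_apply] at h1
    simp at h1
    have h2 : |(u : ℝ) * w.im| ≤ Real.sqrt ρ := by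
      apply Real.abs_le_sqrt
      rw [← h1]; nlinarith [mul_self_nonneg ((u : ℝ) * w.re + v)]
    have h3 : |(u : ℝ) * w.re + v| ≤ Real.sqrt ρ := by
      apply Real.abs_le_sqrt
      rw [← h1]; nlinarith [mul_self_nonneg ((u : ℝ) * w.im)]
    have h4 : |(u : ℝ)| ≤ U := by
      rw [abs_mul, abs_of_pos hw] at h2
      exact ((le_div_iff₀ hw).2 h2).trans hU
    have h5 : |(v : ℝ)| ≤ V := by
      have h6 : |(v : ℝ)| ≤ |(u : ℝ) * w.re + v| + |(u : ℝ) * w.re| := by
        have := abs_sub ((u : ℝ) * w.re + v) ((u : ℝ) * w.re)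
        simpa using this
      rw [abs_mul] at h6
      have h7 : |(u : ℝ)| * |w.re| ≤ U * |w.re| := mul_le_mul_of_nonneg_right h4 (abs_nonneg _)
      linarith
    exact ⟨by exact_mod_cast h4, by exact_mod_cast h5⟩
  -- pigeonhole
  have hinf : {N : ℕ | N.Prime ∧ N₀ < N}.Infinite := by
    rw [Set.infinite_iff_exists_gt]
    intro a
    obtain ⟨p, hp1, hp2⟩ := Nat.exists_infinite_primes (max a N₀ + 1)
    have h1 : a ≤ max a N₀ := le_max_left _ _
    have h2 : N₀ ≤ max a N₀ := le_max_right _ _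
    exact ⟨p, ⟨hp2, by omega⟩, by omega⟩
  obtain ⟨N, hN, N', hN', hne, hf⟩ := hinf.exists_ne_map_eq_of_mapsTo
    (f := fun N => ((D N).2.2.1, (D N).2.2.2))
    (t := Set.Icc (-(U : ℤ)) U ×ˢ Set.Icc (-(V : ℤ)) V) (by
      intro N hN
      obtain ⟨-, -, h3⟩ := hD N hN.2.le hN.1.pos
      obtain ⟨h4, h5⟩ := hbd _ _ h3
      exact ⟨abs_le.1 h4, abs_le.1 h5⟩)
    ((Set.finite_Icc _ _).prod (Set.finite_Icc _ _))
  obtain ⟨a1, a2, -⟩ := hD N hN.2.le hN.1.pos
  obtain ⟨b1, b2, -⟩ := hD N' hN'.2.le hN'.1.pos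
  simp only [Prod.mk.injEq] at hf
  obtain ⟨f1, f2⟩ := hf
  rw [← f1, ← f2] at b1 b2
  generalize (D N).2.2.1 = u at a1 a2 b1 b2
  generalize (D N).2.2.2 = v at a1 a2 b1 b2
  generalize (D N).1 = p at a1 a2
  generalize (D N).2.1 = q at a1 a2
  generalize (D N').1 = p' at b1 b2
  generalize (D N').2.1 = q' at b1 b2
  have hcop : IsCoprime (N : ℤ) (N' : ℤ) :=
    Nat.isCoprime_iff_coprime.2 ((Nat.coprime_primes hN.1 hN'.1).2 hne)
  obtain ⟨x, x', hx⟩ := hcop
  have hxc : (x : ℂ) * N + x' * N' = 1 := by exact_mod_cast congrArg (Int.cast : ℤ → ℂ) hx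
  refine ⟨v, -(x * q + x' * q'), -u, x * p + x' * p', ?_, ?_⟩
  · linear_combination x * a1 + x' * b1 + hx
  · push_cast
    linear_combination (-(x : ℂ)) * a2 - (x' : ℂ) * b2 + (((u : ℂ) * w + v) * z) * hxc

end Pool.Agent.Lib.MP_47914d_nt
end
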