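import Pool.Agent.Lib.MP_47914d_nt.Defs2
import Pool.Agent.Lib.MP_47914d_nt.JFormula

/-!
LINKB: a linked Möbius transformation is real.
-/

set_option autoImplicit false

open UpperHalfPlane hiding I
open ModularForm Complex Polynomial Filter Topology Set
open scoped Real MatrixGroups

namespace Pool.Agent.Lib.MP_47914d_nt

namespace LinkB

theorem isOpen_H : IsOpen {w : ℂ | 0 < w.im} := isOpen_lt continuous_const Complex.continuous_im

theorem anP (h : SpecRam) {w : ℂ} (hw : 0 < w.im) : AnalyticAt ℂ Pc w := by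
  have : DifferentiableOn ℂ Pc {w : ℂ | 0 < w.im} :=
    fun w hw => (h.derivP w hw).differentiableAt.differentiableWithinAt
  exact (this.analyticOnNhd isOpen_H) w hw

theorem anQ (h : SpecRam) {w : ℂ} (hw : 0 < w.im) : AnalyticAt ℂ Qc w := by
  have : DifferentiableOn ℂ Qc {w : ℂ | 0 < w.im} :=
    fun w hw => (h.derivQ w hw).differentiableAt.differentiableWithinAt
  exact (this.analyticOnNhd isOpen_H) w hw

theorem anR (h : SpecRam) {w : ℂ} (hw : 0 < w.im) : AnalyticAt ℂ Rc w := by
  have : DifferentiableOn ℂ Rc {w : ℂ | 0 < w.im} :=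
    fun w hw => (h.derivR w hw).differentiableAt.differentiableWithinAt
  exact (this.analyticOnNhd isOpen_H) w hw

/-- the evaluation point -/
noncomputable def pr (u : ℂ) : Fin 3 → ℂ := ![Pc u, Qc u, Rc u]

theorem pr_an (h : SpecRam) {u : ℂ} (hu : 0 < u.im) (i : Fin 3) :
    AnalyticAt ℂ (fun u => pr u i) u := by
  fin_cases i
  · exact anP h hu
  · exact anQ h hu
  · exact anR h hu

theorem rel_an (h : SpecRam) (hJ : SpecJ) {α β γ δ : ℂ} (Q : MvPolynomial (Fin 4) ℂ) {u : ℂ}
    (hu : 0 < u.im) (hq : 0 < Qf α β γ δ u) :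
    AnalyticAt ℂ (fun u => MvPolynomial.eval ![Pc u, Qc u, Rc u,
      Jc ((α * u + β) / (γ * u + δ))] Q) u := by
  apply eval_analyticAt
  intro i
  have h1 := Qf_pos hq
  have h2 : AnalyticAt ℂ (fun t => (α * t + β) / (γ * t + δ)) u := by
    refine AnalyticAt.fun_div (f := fun t => α * t + β) (g := fun t => γ * t + δ)
      ?_ ?_ h1.1
    · exact (analyticAt_const.fun_mul analyticAt_id).fun_add analyticAt_const
    · exact (analyticAt_const.fun_mul analyticAt_id).fun_add analyticAt_const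
  fin_cases i
  · exact anP h hu
  · exact anQ h hu
  · exact anR h hu
  · exact AnalyticAt.fun_comp (g := Jc) (f := fun t => (α * t + β) / (γ * t + δ))
      (Jc_analyticAt hJ h1.2) h2

/-- Leaving the disc of `g` inside the upper half plane is impossible. -/
theorem exitB (h : SpecRam) (hJ : SpecJ) (hM : SpecMahler) {α β γ δ : ℂ}
    (hdet : α * δ - β * γ ≠ 0) (c : ℝ → ℂ) (hc : ContinuousOn c (Icc 0 1))
    (him : ∀ s ∈ Icc (0 : ℝ) 1, 0 < (c s).im)
    (hs : ∀ s ∈ Ico (0 : ℝ) 1, 0 < Qf α β γ δ (c s))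
    (hp : γ * c 1 + δ ≠ 0) (hq : Qf α β γ δ (c 1) = 0)
    (Q : MvPolynomial (Fin 4) ℂ) (hQ0 : Q ≠ 0)
    (hrel : ∀ᶠ u in 𝓝 (c 0), MvPolynomial.eval ![Pc u, Qc u, Rc u,
      Jc ((α * u + β) / (γ * u + δ))] Q = 0) : False := by
  set Q' : MvPolynomial (Fin 4) ℂ := MvPolynomial.rename (finRotate 4) Q with hQ'
  have hQ'0 : Q' ≠ 0 := by
    intro h0
    apply hQ0
    apply MvPolynomial.rename_injective _ (finRotate 4).injective
    rw [← hQ', h0, map_zero]
  set q := MvPolynomial.finSuccEquiv ℂ 3 Q' with hqd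
  have hq0 : q ≠ 0 := by
    intro h0
    apply hQ'0
    apply (MvPolynomial.finSuccEquiv ℂ 3).injective
    rw [← hqd, h0, map_zero]
  set N := q.natDegree with hN
  have hev : ∀ u y : ℂ, MvPolynomial.eval ![Pc u, Qc u, Rc u, y] Q
      = ∑ k ∈ Finset.range (N + 1), MvPolynomial.eval (pr u) (q.coeff k) * y ^ k := by
    intro u y
    have e1 : MvPolynomial.eval ![Pc u, Qc u, Rc u, y] Q
        = MvPolynomial.eval (Fin.cons y (pr u)) Q' := by
      rw [hQ', MvPolynomial.eval_rename]
      congr 2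
      ext i
      fin_cases i <;> rfl
    rw [e1, MvPolynomial.eval_eq_eval_mv_eval', ← hqd, Polynomial.eval_map,
      Polynomial.eval₂_eq_sum_range]
  set p := c 1 with hpd
  have hpim : 0 < p.im := him 1 ⟨zero_le_one, le_rfl⟩
  -- the coordinate at the exit point
  set ρ : ℂ := (α * p + β) / (γ * p + δ) with hρ
  set g' : ℂ → ℂ := fun w => (δ * w - β) / (-γ * w + α) with hh
  have hρden : -γ * ρ + α ≠ 0 := fwd_ne hdet hp
  have hhρ : g' ρ = p := back_fwd hdet hp
  have hρim : ρ.im = 0 := by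
    rw [Qf_of_ne hp] at hq
    exact (mul_eq_zero.1 hq).resolve_left (Complex.normSq_pos.2 hp).ne'
  have hhan : ∀ w, -γ * w + α ≠ 0 → AnalyticAt ℂ g' w := by
    intro w hw
    refine AnalyticAt.fun_div (f := fun w => δ * w - β) (g := fun w => -γ * w + α)
      ?_ ?_ hw
    · exact (analyticAt_const.fun_mul analyticAt_id).fun_sub analyticAt_const
    · exact (analyticAt_const.fun_mul analyticAt_id).fun_add analyticAt_const
  have hevρ0 : ∀ᶠ w in 𝓝 ρ, -γ * w + α ≠ 0 ∧ 0 < (g' w).im := by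
    have h1 : ∀ᶠ w in 𝓝 ρ, -γ * w + α ≠ 0 :=
      (by fun_prop : Continuous fun w : ℂ => -γ * w + α).continuousAt.eventually_ne hρden
    refine h1.and ?_
    have h2 : ContinuousAt (fun w => (g' w).im) ρ :=
      Complex.continuous_im.continuousAt.comp (hhan ρ hρden).continuousAt
    apply h2.eventually_const_lt
    show 0 < (g' ρ).im
    rw [hhρ]
    exact hpim
  obtain ⟨r, hr, hball⟩ := Metric.eventually_nhds_iff_ball.1 hevρ0
  have haan : ∀ k, ∀ w ∈ Metric.ball ρ r,
      AnalyticAt ℂ (fun w => MvPolynomial.eval (pr (g' w)) (q.coeff k)) w := by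
    intro k w hw
    obtain ⟨h1, h2⟩ := hball w hw
    have h3 : AnalyticAt ℂ (fun t => MvPolynomial.eval (pr t) (q.coeff k)) (g' w) :=
      eval_analyticAt _ (pr_an h h2)
    exact AnalyticAt.fun_comp (g := fun t => MvPolynomial.eval (pr t) (q.coeff k)) (f := g')
      h3 (hhan w h1)
  -- positivity on the half disc
  have hhalf : ∀ w ∈ Metric.ball ρ r ∩ {w | 0 < w.im}, 0 < Qf α β γ δ (g' w) := by
    rintro w ⟨hw, hwim⟩
    obtain ⟨h1, h2⟩ := hball w hw
    apply Qf_pos_of
    · show γ * ((δ * w - β) / (-γ * w + α)) + δ ≠ 0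
      rw [back_den h1]
      exact div_ne_zero hdet h1
    · have := fwd_back hdet h1
      show 0 < ((α * ((δ * w - β) / (-γ * w + α)) + β) /
        (γ * ((δ * w - β) / (-γ * w + α)) + δ)).im
      rw [this]
      exact hwim
  -- vanishing on the half disc
  set U1 : Set ℂ := c '' Ico 0 1 with hU1
  set U2 : Set ℂ := g' '' (Metric.ball ρ r ∩ {w | 0 < w.im}) with hU2
  have hU1p : IsPreconnected U1 :=
    isPreconnected_Ico.image _ (hc.mono Ico_subset_Icc_self)
  have hU2p : IsPreconnected U2 := by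
    apply IsPreconnected.image
    · apply Convex.isPreconnected
      exact (convex_ball ρ r).inter (convex_halfSpace_im_gt 0)
    · intro w hw
      exact (hhan w (hball w hw.1).1).continuousAt.continuousWithinAt
  have hinter : (U1 ∩ U2).Nonempty := by
    have hc0 : ContinuousWithinAt c (Iio 1) 1 := by
      have h1 := hc 1 ⟨zero_le_one, le_rfl⟩
      have h2 : Ico (0:ℝ) 1 ∈ 𝓝[<] (1:ℝ) := Ico_mem_nhdsLT zero_lt_one
      exact (h1.mono Ico_subset_Icc_self).mono_of_mem_nhdsWithin h2
    have hcw : ContinuousWithinAt (fun s : ℝ => (α * c s + β) / (γ * c s + δ)) (Iio 1) 1 := by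
      apply ContinuousWithinAt.div
      · exact (continuousWithinAt_const.mul hc0).add continuousWithinAt_const
      · exact (continuousWithinAt_const.mul hc0).add continuousWithinAt_const
      · exact hp
    have h1 : ∀ᶠ s : ℝ in 𝓝[<] 1, (α * c s + β) / (γ * c s + δ) ∈ Metric.ball ρ r :=
      hcw (Metric.ball_mem_nhds ρ hr)
    have h2 : ∀ᶠ s : ℝ in 𝓝[<] 1, 0 < s := nhdsWithin_le_nhds (Ioi_mem_nhds zero_lt_one)
    obtain ⟨s, hs1, hs2, hs3⟩ := (h1.and (h2.and self_mem_nhdsWithin)).exists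
    have hs3' : s < 1 := hs3
    have hq := Qf_pos (hs s ⟨hs2.le, hs3'⟩)
    refine ⟨c s, ⟨s, ⟨hs2.le, hs3'⟩, rfl⟩, ?_⟩
    refine ⟨_, ⟨hs1, hq.2⟩, ?_⟩
    exact back_fwd hdet hq.1
  have hUp : IsPreconnected (U1 ∪ U2) := by
    obtain ⟨x, hx1, hx2⟩ := hinter
    exact IsPreconnected.union x hx1 hx2 hU1p hU2p
  have hFU : AnalyticOnNhd ℂ (fun u => MvPolynomial.eval ![Pc u, Qc u, Rc u,
      Jc ((α * u + β) / (γ * u + δ))] Q) (U1 ∪ U2) := by
    rintro t (⟨s, hss, rfl⟩ | ⟨w, hw, rfl⟩)
    · exact rel_an h hJ Q (him s ⟨hss.1, hss.2.le⟩) (hs s hss)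
    · exact rel_an h hJ Q (hball w hw.1).2 (hhalf w hw)
  have hθU : c 0 ∈ U1 ∪ U2 := Or.inl ⟨0, ⟨le_rfl, zero_lt_one⟩, rfl⟩
  have hF0 := hFU.eqOn_zero_of_preconnected_of_eventuallyEq_zero hUp hθU hrel
  have hhalf0 : ∀ w ∈ Metric.ball ρ r ∩ {w | 0 < w.im},
      ∑ k ∈ Finset.range (N + 1), MvPolynomial.eval (pr (g' w)) (q.coeff k) *
        Jc w ^ k = 0 := by
    intro w hw
    have h1 := hF0 (Or.inr ⟨w, hw, rfl⟩)
    have h3 : (α * g' w + β) / (γ * g' w + δ) = w := fwd_back hdet (hball w hw.1).1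
    simp only [h3, Pi.zero_apply] at h1
    rw [hev] at h1
    exact h1
  -- rational points
  have hrat : ∀ x : ℚ, (x : ℂ) ∈ Metric.ball ρ r →
      MvPolynomial.eval (pr (g' x)) (q.coeff N) = 0 := by
    intro x hx
    apply lead_zero hJ x N (fun k w => MvPolynomial.eval (pr (g' w)) (q.coeff k))
    · intro k
      exact (haan k _ hx).continuousAt
    · have hpath : Tendsto (fun ε : ℝ => (x : ℂ) + ε * Complex.I) (𝓝[>] 0) (𝓝 (x : ℂ)) := by
        have : Continuous (fun ε : ℝ => (x : ℂ) + ε * Complex.I) := by fun_prop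
        have h0 := this.tendsto 0
        simp only [Complex.ofReal_zero, zero_mul, add_zero] at h0
        exact h0.mono_left nhdsWithin_le_nhds
      filter_upwards [hpath (Metric.isOpen_ball.mem_nhds hx), self_mem_nhdsWithin] with ε h1 h2
      apply hhalf0
      refine ⟨h1, ?_⟩
      have h2' : 0 < ε := h2
      show 0 < ((x : ℂ) + ε * Complex.I).im
      simpa using h2'
  have hfreq : ∃ᶠ w in 𝓝[≠] ρ, MvPolynomial.eval (pr (g' w)) (q.coeff N) = 0 := by
    have hρr : ρ = ((ρ.re : ℝ) : ℂ) := by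
      apply Complex.ext
      · simp
      · simpa using hρim
    have htend : Tendsto (fun x : ℝ => (x : ℂ)) (𝓝[>] ρ.re) (𝓝[≠] ρ) := by
      rw [tendsto_nhdsWithin_iff]
      constructor
      · conv_rhs => rw [hρr]
        exact (Complex.continuous_ofReal.tendsto _).mono_left nhdsWithin_le_nhds
      · filter_upwards [self_mem_nhdsWithin] with x hx
        have hx' : ρ.re < x := hx
        rw [mem_compl_iff, mem_singleton_iff]
        intro h
        rw [← h] at hx'
        simp at hx'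
    apply htend.frequently
    have hev2 : ∀ᶠ x : ℝ in 𝓝[>] ρ.re, (x : ℂ) ∈ Metric.ball ρ r :=
      (htend.mono_right nhdsWithin_le_nhds) (Metric.ball_mem_nhds ρ hr)
    have hfr : ∃ᶠ x : ℝ in 𝓝[>] ρ.re, ∃ q : ℚ, (q : ℝ) = x := by
      rw [frequently_iff]
      intro U hU
      obtain ⟨b, hb, hbU⟩ := mem_nhdsGT_iff_exists_Ioo_subset.1 hU
      obtain ⟨q, hq1, hq2⟩ := exists_rat_btwn (show ρ.re < b from hb)
      exact ⟨q, hbU ⟨hq1, hq2⟩, q, rfl⟩
    refine (hfr.and_eventually hev2).mono ?_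
    rintro x ⟨⟨q, rfl⟩, hx⟩
    have := hrat q (by simpa using hx)
    simpa using this
  have hevρ := ((haan N ρ (Metric.mem_ball_self hr)).frequently_zero_iff_eventually_zero).1 hfreq
  -- back to `t` near `p`
  have hgc : ContinuousAt (fun t : ℂ => (α * t + β) / (γ * t + δ)) p := by
    exact ContinuousAt.div (f := fun t : ℂ => α * t + β) (g := fun t : ℂ => γ * t + δ)
      (by fun_prop) (by fun_prop) hp
  have hL : ∀ᶠ t in 𝓝 p, MvPolynomial.eval (pr t) (q.coeff N) = 0 := by
    have h1 : ∀ᶠ t in 𝓝 p, γ * t + δ ≠ 0 :=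
      (by fun_prop : Continuous fun t : ℂ => γ * t + δ).continuousAt.eventually_ne hp
    filter_upwards [hgc.eventually hevρ, h1] with t ht1 ht2
    have h3 : g' ((α * t + β) / (γ * t + δ)) = t := back_fwd hdet ht2
    rw [h3] at ht1
    exact ht1
  -- contradiction
  have hcoef : q.coeff N ≠ 0 := Polynomial.leadingCoeff_ne_zero.2 hq0
  refine hM p hpim (MvPolynomial.rename Fin.succ (q.coeff N)) ?_ ?_
  · intro h0
    apply hcoef
    apply MvPolynomial.rename_injective _ (Fin.succ_injective 3)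
    rw [h0, map_zero]
  · filter_upwards [hL] with t ht
    rw [MvPolynomial.eval_rename]
    rw [← ht]
    congr 2

/-- the relation with constant coefficients -/
theorem exists_rel (h : SpecRam) (hJ : SpecJ) {α β γ δ a : ℂ} (ha : 0 < a.im)
    (hg : 0 < Qf α β γ δ a) (hL : LinkedM α β γ δ a) :
    ∃ Q : MvPolynomial (Fin 4) ℂ, Q ≠ 0 ∧ ∀ᶠ u in 𝓝 a, MvPolynomial.eval ![Pc u, Qc u, Rc u,
      Jc ((α * u + β) / (γ * u + δ))] Q = 0 := by
  obtain ⟨P, hP0, hP⟩ := hL
  have hP1 := hP ![1, 0, 0] (Or.inl rfl)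
  have hden : ∀ s z, den ![1, 0, 0] s z = 1 := by intro s z; simp [den]
  have hmob : ∀ s z, mob ![1, 0, 0] s z = z + s := by intro s z; simp [mob, hden]
  simp only [Pfl, Qfl, Rfl, hden, hmob] at hP1
  simp only [Matrix.cons_val, mul_zero, one_pow, div_one, add_zero] at hP1
  -- a ball around `a`
  have hD : IsOpen {u : ℂ | 0 < u.im ∧ 0 < Qf α β γ δ u} :=
    isOpen_H.inter (isOpen_lt continuous_const (Qf_continuous _ _ _ _))
  obtain ⟨r, hr, hball⟩ := Metric.isOpen_iff.1 hD a ⟨ha, hg⟩
  set p := MvPolynomial.finSuccEquiv ℂ 4 P with hp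
  have hp0 : p ≠ 0 := by
    intro h0
    apply hP0
    apply (MvPolynomial.finSuccEquiv ℂ 4).injective
    rw [← hp, h0, map_zero]
  have hfin : {z : ℂ | Polynomial.eval (MvPolynomial.C z) p = 0}.Finite := by
    have h1 : {y : MvPolynomial (Fin 4) ℂ | p.IsRoot y}.Finite := Polynomial.finite_setOfPred_isRoot hp0
    exact h1.preimage (MvPolynomial.C_injective (Fin 4) ℂ).injOn
  have h1 : ∀ᶠ z in 𝓝[≠] a, Polynomial.eval (MvPolynomial.C z) p ≠ 0 := by
    have h2 : ({z : ℂ | Polynomial.eval (MvPolynomial.C z) p = 0} \ {a}).Finite := hfin.subset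
      sdiff_subset
    have h3 : ({z : ℂ | Polynomial.eval (MvPolynomial.C z) p = 0} \ {a})ᶜ ∈ 𝓝 a :=
      h2.isClosed.isOpen_compl.mem_nhds (by simp)
    filter_upwards [nhdsWithin_le_nhds h3, self_mem_nhdsWithin] with z hz1 hz2 hz3
    exact hz1 ⟨hz3, hz2⟩
  have h4 : ∀ᶠ z in 𝓝[≠] a, z ∈ Metric.ball a r := nhdsWithin_le_nhds (Metric.ball_mem_nhds a hr)
  obtain ⟨z, hz1, hz2, hz3⟩ := (h1.and (h4.and (nhdsWithin_le_nhds hP1))).exists
  refine ⟨Polynomial.eval (MvPolynomial.C z) p, hz1, ?_⟩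
  have hev : ∀ x : Fin 4 → ℂ, MvPolynomial.eval x (Polynomial.eval (MvPolynomial.C z) p)
      = MvPolynomial.eval (Fin.cons z x) P := by
    intro x
    rw [hp, MvPolynomial.eval_polynomial_eval_finSuccEquiv]
    congr 2
    ext i
    refine Fin.cases ?_ (fun i => ?_) i
    · simp
    · rfl
  have hzu : ∀ᶠ u in 𝓝 z, MvPolynomial.eval ![Pc u, Qc u, Rc u,
      Jc ((α * u + β) / (γ * u + δ))] (Polynomial.eval (MvPolynomial.C z) p) = 0 := by
    have ht : Tendsto (fun u : ℂ => u - z) (𝓝 z) (𝓝 0) := by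
      have : Continuous fun u : ℂ => u - z := by fun_prop
      simpa using this.tendsto z
    filter_upwards [ht.eventually hz3] with u hu
    rw [add_sub_cancel] at hu
    rw [hev]
    exact hu
  have han : AnalyticOnNhd ℂ (fun u => MvPolynomial.eval ![Pc u, Qc u, Rc u,
      Jc ((α * u + β) / (γ * u + δ))] (Polynomial.eval (MvPolynomial.C z) p))
      (Metric.ball a r) := fun u hu => rel_an h hJ _ (hball hu).1 (hball hu).2
  have heq := han.eqOn_zero_of_preconnected_of_eventuallyEq_zero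
    (convex_ball a r).isPreconnected hz2 hzu
  filter_upwards [Metric.ball_mem_nhds a hr] with u hu
  exact heq hu

theorem Qf_id (t : ℂ) : Qf 1 0 0 1 t = t.im := by simp [Qf]

/-- A Möbius transformation of determinant one preserving the half plane is real. -/
theorem real_of_prop {α β γ δ : ℂ} {c : ℝ} (hdet : α * δ - β * γ = 1) (hc : 0 < c)
    (h : ∀ t, Qf α β γ δ t = c * t.im) :
    α.im = 0 ∧ β.im = 0 ∧ γ.im = 0 ∧ δ.im = 0 := by
  have hexp : ∀ u, (α * (starRingEnd ℂ) γ).im * Complex.normSq u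
      + ((α * (starRingEnd ℂ) δ - (starRingEnd ℂ) β * γ) * u).im
      + Qf α β γ δ 0 = c * u.im := by
    intro u
    have := Qf_add α β γ δ 0 u
    simp only [mul_zero, zero_add] at this
    rw [← this]
    exact h u
  have h0 : Qf α β γ δ 0 = 0 := by rw [h 0]; simp
  have h1 := hexp 1
  have h2 := hexp (-1)
  have h3 := hexp Complex.I
  rw [h0] at h1 h2 h3
  set W := α * (starRingEnd ℂ) δ - (starRingEnd ℂ) β * γ with hW
  simp only [map_one, mul_one, Complex.one_im, mul_zero, add_zero, Complex.normSq_neg,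
    mul_neg, Complex.neg_im, Complex.normSq_I, Complex.I_im, neg_zero] at h1 h2 h3
  have h4 : (W * Complex.I).im = W.re := by simp
  rw [h4] at h3
  have hagi : (α * (starRingEnd ℂ) γ).im = 0 := by linarith
  have hWi : W.im = 0 := by linarith
  have hWr : W.re = c := by linarith
  have hw : W = c := by
    apply Complex.ext
    · simpa using hWr
    · simpa using hWi
  have hbdi : (β * (starRingEnd ℂ) δ).im = 0 := by
    have := h0
    simp only [Qf, mul_zero, zero_add] at this
    exact this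
  have hag : (starRingEnd ℂ) α * γ = α * (starRingEnd ℂ) γ := by
    have := Complex.conj_eq_iff_im.2 hagi
    simpa using this
  have hbd : (starRingEnd ℂ) β * δ = β * (starRingEnd ℂ) δ := by
    have := Complex.conj_eq_iff_im.2 hbdi
    simpa using this
  have hdetc : (starRingEnd ℂ) α * (starRingEnd ℂ) δ - (starRingEnd ℂ) β * (starRingEnd ℂ) γ = 1 := by
    have := congrArg (starRingEnd ℂ) hdet
    simpa using this
  rw [hW] at hw
  have e1 : (starRingEnd ℂ) δ = c * δ := by
    linear_combination δ * hw - (starRingEnd ℂ) δ * hdet + γ * hbd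
  have e2 : γ = c * (starRingEnd ℂ) γ := by
    linear_combination (starRingEnd ℂ) γ * hw - γ * hdetc + (starRingEnd ℂ) δ * hag
  have e3 : α = c * (starRingEnd ℂ) α := by
    linear_combination (starRingEnd ℂ) α * hw - α * hdetc + (starRingEnd ℂ) β * hag
  have e4 : (starRingEnd ℂ) β = c * β := by
    linear_combination β * hw - (starRingEnd ℂ) β * hdet + α * hbd
  have hc1 : c = 1 := by
    by_cases hδ : δ = 0
    · have hγ : γ ≠ 0 := by
        rintro rfl
        rw [hδ] at hdet
        simp at hdet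
      have := congrArg (fun z : ℂ => ‖z‖) e2
      simp only [norm_mul, Complex.norm_conj, Complex.norm_real, Real.norm_eq_abs,
        abs_of_pos hc] at this
      have hn : 0 < ‖γ‖ := norm_pos_iff.2 hγ
      have h5 : (c - 1) * ‖γ‖ = 0 := by linarith
      rcases mul_eq_zero.1 h5 with h6 | h6
      · linarith
      · exact absurd h6 hn.ne'
    · have := congrArg (fun z : ℂ => ‖z‖) e1
      simp only [norm_mul, Complex.norm_conj, Complex.norm_real, Real.norm_eq_abs,
        abs_of_pos hc] at this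
      have hn : 0 < ‖δ‖ := norm_pos_iff.2 hδ
      have h5 : (c - 1) * ‖δ‖ = 0 := by linarith
      rcases mul_eq_zero.1 h5 with h6 | h6
      · linarith
      · exact absurd h6 hn.ne'
  rw [hc1] at e1 e2 e3 e4
  simp only [Complex.ofReal_one, one_mul] at e1 e2 e3 e4
  exact ⟨Complex.conj_eq_iff_im.1 e3.symm, Complex.conj_eq_iff_im.1 e4,
    Complex.conj_eq_iff_im.1 e2.symm, Complex.conj_eq_iff_im.1 e1⟩

end LinkB

open LinkB in
/-- LINKB: a linked Möbius transformation is real. -/
theorem specLinkB (h : SpecRam) (hJ : SpecJ) (hM : SpecMahler) : SpecLinkB := by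
  intro α β γ δ a hdet ha hga hL1 hL2
  have hdet0 : α * δ - β * γ ≠ 0 := by rw [hdet]; exact one_ne_zero
  have hden : γ * a + δ ≠ 0 := by
    intro h0
    rw [h0] at hga
    simp at hga
  have hQa : 0 < Qf α β γ δ a := Qf_pos_of hden hga
  by_cases hprop : ∃ c : ℝ, ∀ t, Qf α β γ δ t = c * t.im
  · obtain ⟨c, hc⟩ := hprop
    have hc0 : 0 < c := by
      have := hc a
      rw [this] at hQa
      exact (pos_iff_pos_of_mul_pos hQa).2 ha
    obtain ⟨h1, h2, h3, h4⟩ := real_of_prop hdet hc0 hc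
    refine ⟨α.re, β.re, γ.re, δ.re, ?_, ?_, ?_, ?_⟩ <;>
    · apply Complex.ext <;> simp [*]
  exfalso
  -- the exit point
  obtain ⟨m, p, hm0, hmp, hoth, hseg⟩ := exists_exit (ι := Fin 2) (α := ![1, α]) (β := ![0, β])
    (γ := ![0, γ]) (δ := ![1, δ]) (θ := a)
    (by
      intro i
      fin_cases i
      · simp
      · simpa using hdet0)
    (by
      intro i
      fin_cases i
      · simpa [Qf_id] using ha
      · simpa using hQa)
    (by
      intro i k hik
      rintro ⟨c, hc⟩
      fin_cases i <;> fin_cases k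
      · exact hik rfl
      · simp only [Fin.zero_eta, Matrix.cons_val_zero, Fin.mk_one, Matrix.cons_val_one,
          Qf_id] at hc
        have hc0 : c ≠ 0 := by
          rintro rfl
          have := hc a
          rw [zero_mul] at this
          exact ha.ne' this
        apply hprop
        refine ⟨c⁻¹, fun t => ?_⟩
        rw [hc t]
        field_simp
      · simp only [Fin.zero_eta, Matrix.cons_val_zero, Fin.mk_one, Matrix.cons_val_one,
          Qf_id] at hc
        exact hprop ⟨c, hc⟩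
      · exact hik rfl) 0
  have hcont : Continuous (fun s : ℝ => a + s * (p - a)) := by fun_prop
  have h1p : a + ((1 : ℝ) : ℂ) * (p - a) = p := by push_cast; ring
  have h0p : a + ((0 : ℝ) : ℂ) * (p - a) = a := by push_cast; ring
  fin_cases m
  · -- exit through the real line
    simp only [Fin.zero_eta, Matrix.cons_val_zero, Qf_id] at hm0
    have hgp : 0 < Qf α β γ δ p := by
      have := hoth 1 (by decide)
      simpa using this
    have hseg0 : ∀ s : ℝ, 0 ≤ s → s < 1 → 0 < (a + s * (p - a)).im := by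
      intro s hs0 hs1
      have := hseg s hs0 hs1 0
      simpa [Qf_id] using this
    have hseg1 : ∀ s : ℝ, 0 ≤ s → s ≤ 1 → 0 < Qf α β γ δ (a + s * (p - a)) := by
      intro s hs0 hs1
      rcases hs1.lt_or_eq with hs | hs
      · have := hseg s hs0 hs 1
        simpa using this
      · rw [hs, h1p]
        exact hgp
    have hdet' : δ * α - -β * -γ ≠ 0 := by
      rw [show δ * α - -β * -γ = α * δ - β * γ by ring]
      exact hdet0
    have hQ' : 0 < Qf δ (-β) (-γ) α ((α * a + β) / (γ * a + δ)) := by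
      apply Qf_pos_of
      · exact fwd_ne hdet0 hden
      · have := back_fwd hdet0 hden
        rw [← sub_eq_add_neg, this]
        exact ha
    obtain ⟨Q, hQ0, hQ⟩ := exists_rel h hJ hga hQ' hL2
    refine exitB h hJ hM hdet' (fun s : ℝ => (α * (a + s * (p - a)) + β) /
      (γ * (a + s * (p - a)) + δ)) ?_ ?_ ?_ ?_ ?_ Q hQ0 ?_
    · intro s hs
      apply ContinuousWithinAt.div
      · exact (continuousWithinAt_const.mul hcont.continuousWithinAt).add continuousWithinAt_const
      · exact (continuousWithinAt_const.mul hcont.continuousWithinAt).add continuousWithinAt_const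
      · exact (Qf_pos (hseg1 s hs.1 hs.2)).1
    · intro s hs
      exact (Qf_pos (hseg1 s hs.1 hs.2)).2
    · intro s hs
      have h5 := (Qf_pos (hseg1 s hs.1 hs.2.le)).1
      apply Qf_pos_of
      · exact fwd_ne hdet0 h5
      · have := back_fwd hdet0 h5
        rw [← sub_eq_add_neg]
        show 0 < ((δ * ((α * (a + s * (p - a)) + β) / (γ * (a + s * (p - a)) + δ)) - β) /
          (-γ * ((α * (a + s * (p - a)) + β) / (γ * (a + s * (p - a)) + δ)) + α)).im
        rw [this]
        exact hseg0 s hs.1 hs.2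
    · have h5 := (Qf_pos (hseg1 1 zero_le_one le_rfl)).1
      exact fwd_ne hdet0 h5
    · have h5 := (Qf_pos (hseg1 1 zero_le_one le_rfl)).1
      rw [Qf_of_ne (fwd_ne hdet0 h5)]
      have := back_fwd hdet0 h5
      rw [← sub_eq_add_neg, this, h1p, hm0, mul_zero]
    · show ∀ᶠ u in 𝓝 ((α * (a + ((0 : ℝ) : ℂ) * (p - a)) + β) /
        (γ * (a + ((0 : ℝ) : ℂ) * (p - a)) + δ)), _
      rw [h0p]
      exact hQ
  · -- exit through the boundary of the disc of `g`
    simp only [Fin.mk_one, Matrix.cons_val_one] at hm0 hmp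
    have hpim : 0 < p.im := by
      have := hoth 0 (by decide)
      simpa [Qf_id] using this
    obtain ⟨Q, hQ0, hQ⟩ := exists_rel h hJ ha hQa hL1
    refine exitB h hJ hM hdet0 (fun s : ℝ => a + s * (p - a)) hcont.continuousOn ?_ ?_ ?_ ?_
      Q hQ0 ?_
    · intro s hs
      rcases hs.2.lt_or_eq with hs' | hs'
      · have := hseg s hs.1 hs' 0
        simpa [Qf_id] using this
      · show 0 < (a + (s : ℂ) * (p - a)).im
        rw [hs', h1p]
        exact hpim
    · intro s hs
      have := hseg s hs.1 hs.2 1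
      simpa using this
    · show γ * (a + ((1 : ℝ) : ℂ) * (p - a)) + δ ≠ 0
      rw [h1p]
      exact hmp
    · show Qf α β γ δ (a + ((1 : ℝ) : ℂ) * (p - a)) = 0
      rw [h1p]
      exact hm0
    · show ∀ᶠ u in 𝓝 (a + ((0 : ℝ) : ℂ) * (p - a)), _
      rw [h0p]
      exact hQ

end Pool.Agent.Lib.MP_47914d_nt
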