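import Pool.Agent.Lib.MP_47914d_nt.Defs2
import Pool.Agent.Lib.MP_47914d_nt.Defs4
import Pool.Agent.Lib.MP_47914d_nt.DerExt

section
set_option autoImplicit false

open Complex Filter Topology

namespace Pool.Agent.Lib.MP_47914d_nt

variable {θ : ℂ} {F : Type} [Field F] [Algebra ℂ F]

theorem GermField.T_zero (G : GermField θ F) : G.T (fun _ => 0) = 0 := by
  rw [G.T_const]; exact map_zero _

theorem evalfun_analyticAt {σ : Type*} (P : MvPolynomial σ ℂ) {f : σ → ℂ → ℂ}
    (hf : ∀ j, AnalyticAt ℂ (f j) θ) :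
    AnalyticAt ℂ (fun x => MvPolynomial.eval (fun j => f j x) P) θ := by
  induction P using MvPolynomial.induction_on with
  | C a => simp only [MvPolynomial.eval_C]; exact analyticAt_const
  | add p q hp hq => simp only [map_add]; exact hp.add hq
  | mul_X p i hp =>
    simp only [map_mul, MvPolynomial.eval_X]
    exact hp.mul (hf i)

theorem GermField.T_eval (G : GermField θ F) {σ : Type*} (P : MvPolynomial σ ℂ) {f : σ → ℂ → ℂ}
    (hf : ∀ j, AnalyticAt ℂ (f j) θ) :
    G.T (fun x => MvPolynomial.eval (fun j => f j x) P) =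
      MvPolynomial.aeval (fun j => G.T (f j)) P := by
  induction P using MvPolynomial.induction_on with
  | C a => simp only [MvPolynomial.eval_C, MvPolynomial.aeval_C]; exact G.T_const a
  | add p q hp hq =>
    simp only [map_add]
    rw [G.T_add _ _ (evalfun_analyticAt p hf) (evalfun_analyticAt q hf), hp, hq]
  | mul_X p i hp =>
    simp only [map_mul, MvPolynomial.eval_X, MvPolynomial.aeval_X]
    rw [G.T_mul _ _ (evalfun_analyticAt p hf) (hf i), hp]

theorem GermField.aeval_eq_zero_iff (G : GermField θ F) {σ : Type*} (P : MvPolynomial σ ℂ)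
    {f : σ → ℂ → ℂ} (hf : ∀ j, AnalyticAt ℂ (f j) θ) :
    MvPolynomial.aeval (fun j => G.T (f j)) P = 0 ↔
      ∀ᶠ x in 𝓝 θ, MvPolynomial.eval (fun j => f j x) P = 0 := by
  rw [← G.T_eval P hf, ← G.T_zero, G.T_eq _ _ (evalfun_analyticAt P hf) analyticAt_const]

theorem fin4_fun (a b c d : ℂ → ℂ) :
    (fun x => ![a x, b x, c x, d x]) = fun x (j : Fin 4) => (![a, b, c, d] j) x := by
  funext x j
  fin_cases j <;> rfl

theorem push_forward {ζ : ℂ → ℂ} (hζ : AnalyticAt ℂ ζ θ) (hn : ¬ ∀ᶠ t in 𝓝 θ, ζ t = ζ θ)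
    {p : ℂ → Prop} (h : ∀ᶠ t in 𝓝 θ, p (ζ t)) : ∀ᶠ w in 𝓝 (ζ θ), p w := by
  rcases hζ.eventually_constant_or_nhds_le_map_nhds with h1 | h1
  · exact absurd h1 hn
  · exact h1 h

theorem comp_analyticAt {f f' : ℂ → ℂ} (hf : ∀ w : ℂ, 0 < w.im → HasDerivAt f (f' w) w)
    {ζ : ℂ → ℂ} (hζ : AnalyticAt ℂ ζ θ) (him : 0 < (ζ θ).im) :
    AnalyticAt ℂ (fun x => f (ζ x)) θ := by
  have h1 : AnalyticAt ℂ f (ζ θ) := by
    rw [Complex.analyticAt_iff_eventually_differentiableAt]
    filter_upwards [(isOpen_lt continuous_const Complex.continuous_im).mem_nhds him] with w hw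
    exact (hf w hw).differentiableAt
  exact h1.comp hζ

theorem Jc_analyticAt' (hJ : SpecJ) {w : ℂ} (hw : 0 < w.im) : AnalyticAt ℂ Jc w := by
  rw [Complex.analyticAt_iff_eventually_differentiableAt]
  filter_upwards [(isOpen_lt continuous_const Complex.continuous_im).mem_nhds hw] with w hw
  exact (hJ.holo).differentiableAt ((isOpen_lt continuous_const Complex.continuous_im).mem_nhds hw)

/-- The derivative of a composition, in the germ field. -/
theorem GermField.D_comp (G : GermField θ F) {f f' : ℂ → ℂ}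
    (hf : ∀ w : ℂ, 0 < w.im → HasDerivAt f (f' w) w) (hf' : ∀ w : ℂ, 0 < w.im → AnalyticAt ℂ f' w)
    {ζ : ℂ → ℂ} (hζ : AnalyticAt ℂ ζ θ) (him : 0 < (ζ θ).im) :
    G.D (G.T fun x => f (ζ x)) = G.T (fun x => f' (ζ x)) * G.D (G.T ζ) := by
  have hc : AnalyticAt ℂ (fun x => f' (ζ x)) θ := (hf' _ him).comp hζ
  rw [← G.T_deriv _ (comp_analyticAt hf hζ him), ← G.T_deriv _ hζ,
    ← G.T_mul _ _ hc hζ.deriv]
  refine (G.T_eq _ _ (comp_analyticAt hf hζ him).deriv (hc.fun_mul hζ.deriv)).mpr ?_
  have h1 : ∀ᶠ x in 𝓝 θ, 0 < (ζ x).im :=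
    hζ.continuousAt.eventually ((isOpen_lt continuous_const Complex.continuous_im).mem_nhds him)
  filter_upwards [h1, hζ.eventually_analyticAt] with x hx hx2
  exact ((hf _ hx).comp x hx2.differentiableAt.hasDerivAt).deriv

theorem specALW (hJ : SpecJ) (hR : SpecRam) (hM : SpecMahler) (hField : SpecField)
    (hAlg : SpecAlg) (hP : SpecPersist) (hA : SpecLinkA) (hB : SpecLinkB) (hC : SpecLinkC) :
    SpecALW := by
  intro n ζ θ hζ him hnc halg hne P hP0 hPz
  obtain ⟨F, _, _, ⟨G⟩⟩ := hField θ
  -- analyticity facts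
  have hPan : ∀ w : ℂ, 0 < w.im → AnalyticAt ℂ Pc w := fun w hw =>
    comp_analyticAt (ζ := fun x => x) hR.derivP analyticAt_id hw
  have hQan : ∀ w : ℂ, 0 < w.im → AnalyticAt ℂ Qc w := fun w hw =>
    comp_analyticAt (ζ := fun x => x) hR.derivQ analyticAt_id hw
  have hRan : ∀ w : ℂ, 0 < w.im → AnalyticAt ℂ Rc w := fun w hw =>
    comp_analyticAt (ζ := fun x => x) hR.derivR analyticAt_id hw
  have hPz' : ∀ i, AnalyticAt ℂ (fun x => Pc (ζ i x)) θ := fun i => (hPan _ (him i)).comp (hζ i)
  have hQz' : ∀ i, AnalyticAt ℂ (fun x => Qc (ζ i x)) θ := fun i => (hQan _ (him i)).comp (hζ i)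
  have hRz' : ∀ i, AnalyticAt ℂ (fun x => Rc (ζ i x)) θ := fun i => (hRan _ (him i)).comp (hζ i)
  have hJz' : ∀ i, AnalyticAt ℂ (fun x => Jc (ζ i x)) θ := fun i =>
    (Jc_analyticAt' hJ (him i)).comp (hζ i)
  have himev : ∀ i, ∀ᶠ x in 𝓝 θ, 0 < (ζ i x).im := fun i =>
    (hζ i).continuousAt.eventually
      ((isOpen_lt continuous_const Complex.continuous_im).mem_nhds (him i))
  have hid : AnalyticAt ℂ (fun x : ℂ => x) θ := analyticAt_id
  -- the elements of the germ field
  set t : F := G.T (fun x => x) with ht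
  set z : Fin n → F := fun i => G.T (ζ i) with hz
  set p : Fin n → F := fun i => G.T (fun x => Pc (ζ i x)) with hp
  set q : Fin n → F := fun i => G.T (fun x => Qc (ζ i x)) with hq
  set r : Fin n → F := fun i => G.T (fun x => Rc (ζ i x)) with hr
  set y : Fin n → F := fun i => G.T (fun x => Jc (ζ i x)) with hy
  have hDt : G.D t = 1 := by
    rw [ht, ← G.T_deriv _ hid]
    have : deriv (fun x : ℂ => x) = fun _ => 1 := by
      funext x; exact (hasDerivAt_id x).deriv
    rw [this, G.T_const, map_one]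
  have e4 : algebraMap ℂ F 4 = 4 := map_ofNat _ 4
  have e6 : algebraMap ℂ F 6 = 6 := map_ofNat _ 6
  have e1728 : algebraMap ℂ F 1728 = 1728 := map_ofNat _ 1728
  have hDp : ∀ i, G.D (p i) = (p i ^ 2 - q i) * G.D (z i) := by
    intro i
    have h1 := G.D_comp (f := Pc) (f' := fun w => Pc w ^ 2 - Qc w) hR.derivP
      (fun w hw => ((hPan w hw).pow 2).sub (hQan w hw)) (hζ i) (him i)
    have h2 := G.T_eval (MvPolynomial.X 0 ^ 2 - MvPolynomial.X 1 : MvPolynomial (Fin 2) ℂ)
      (f := ![fun x => Pc (ζ i x), fun x => Qc (ζ i x)]) (by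
        intro j; fin_cases j
        · exact hPz' i
        · exact hQz' i)
    simp at h2
    rw [hp, hq, hz]
    simp only
    rw [h1, h2]
  have hDq : ∀ i, G.D (q i) = 4 * (p i * q i - r i) * G.D (z i) := by
    intro i
    have h1 := G.D_comp (f := Qc) (f' := fun w => 4 * (Pc w * Qc w - Rc w)) hR.derivQ
      (fun w hw => analyticAt_const.mul (((hPan w hw).mul (hQan w hw)).sub (hRan w hw)))
      (hζ i) (him i)
    have h2 := G.T_eval (MvPolynomial.C 4 * (MvPolynomial.X 0 * MvPolynomial.X 1 -
        MvPolynomial.X 2) : MvPolynomial (Fin 3) ℂ)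
      (f := ![fun x => Pc (ζ i x), fun x => Qc (ζ i x), fun x => Rc (ζ i x)]) (by
        intro j; fin_cases j
        · exact hPz' i
        · exact hQz' i
        · exact hRz' i)
    simp at h2
    rw [hp, hq, hr, hz]
    simp only
    rw [h1, h2, e4]
  have hDr : ∀ i, G.D (r i) = 6 * (p i * r i - q i ^ 2) * G.D (z i) := by
    intro i
    have h1 := G.D_comp (f := Rc) (f' := fun w => 6 * (Pc w * Rc w - Qc w ^ 2)) hR.derivR
      (fun w hw => analyticAt_const.mul (((hPan w hw).mul (hRan w hw)).sub ((hQan w hw).pow 2)))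
      (hζ i) (him i)
    have h2 := G.T_eval (MvPolynomial.C 6 * (MvPolynomial.X 0 * MvPolynomial.X 2 -
        MvPolynomial.X 1 ^ 2) : MvPolynomial (Fin 3) ℂ)
      (f := ![fun x => Pc (ζ i x), fun x => Qc (ζ i x), fun x => Rc (ζ i x)]) (by
        intro j; fin_cases j
        · exact hPz' i
        · exact hQz' i
        · exact hRz' i)
    simp at h2
    rw [hp, hq, hr, hz]
    simp only
    rw [h1, h2, e6]
  have hD : ∀ i, IsW G.D (z i) (p i) (q i) (r i) 0 := by
    intro i
    constructor
    · rw [hDp]; simp [om0, om1]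
    · rw [hDq]; simp [om0, om1]
    · rw [hDr]; simp [om0, om1]
  have hyrel : ∀ i, y i * (q i ^ 3 - r i ^ 2) = 1728 * q i ^ 3 := by
    intro i
    have h1 : MvPolynomial.aeval (fun j => G.T ((![fun x => Jc (ζ i x), fun x => Qc (ζ i x),
        fun x => Rc (ζ i x)] : Fin 3 → ℂ → ℂ) j)) (MvPolynomial.X 0 * (MvPolynomial.X 1 ^ 3 -
        MvPolynomial.X 2 ^ 2) - MvPolynomial.C 1728 * MvPolynomial.X 1 ^ 3 :
          MvPolynomial (Fin 3) ℂ) = 0 := by
      rw [G.aeval_eq_zero_iff]
      · filter_upwards [himev i] with x hx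
        have := hR.jinv _ hx
        simp
        linear_combination this
      · intro j; fin_cases j
        · exact hJz' i
        · exact hQz' i
        · exact hRz' i
    simp at h1
    rw [e1728] at h1
    rw [hy, hq, hr]
    simp only
    linear_combination h1
  have hAI : ∀ i, AlgebraicIndependent ℂ ![z i, p i, q i, r i] := by
    intro i
    rw [algebraicIndependent_iff]
    intro S hS
    by_contra hS0
    apply hM _ (him i) S hS0
    apply push_forward (hζ i) (hnc i)
    have h1 : MvPolynomial.aeval (fun j => G.T ((![ζ i, fun x => Pc (ζ i x), fun x => Qc (ζ i x),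
        fun x => Rc (ζ i x)] : Fin 4 → ℂ → ℂ) j)) S = 0 := by
      convert hS using 2
      congr 1
      funext j
      fin_cases j <;> rfl
    rw [G.aeval_eq_zero_iff] at h1
    · filter_upwards [h1] with x hx
      convert hx using 2
      congr 1
      funext j
      fin_cases j <;> rfl
    · intro j; fin_cases j
      · exact hζ i
      · exact hPz' i
      · exact hQz' i
      · exact hRz' i
  have hzalg : ∀ i, ¬ AlgebraicIndependent ℂ ![t, z i] := by
    intro i hcon
    obtain ⟨S, hS0, hS⟩ := halg i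
    apply hS0
    rw [algebraicIndependent_iff] at hcon
    apply hcon S
    have h1 : MvPolynomial.aeval (fun j => G.T ((![fun x => x, ζ i] : Fin 2 → ℂ → ℂ) j)) S
        = 0 := by
      rw [G.aeval_eq_zero_iff]
      · filter_upwards [hS] with x hx
        convert hx using 2
        congr 1
        funext j
        fin_cases j <;> rfl
      · intro j; fin_cases j
        · exact hid
        · exact hζ i
    convert h1 using 2
    congr 1
    funext j
    fin_cases j <;> rfl
  rcases hAlg F G.D t n z p q r y G.D_ker hDt hD hyrel hAI hzalg with hind | hlink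
  · apply hP0
    rw [algebraicIndependent_iff] at hind
    apply hind
    have h1 : MvPolynomial.aeval (fun j => G.T ((fun o : Option (Fin n) =>
        o.elim (fun x : ℂ => x) (fun i x => Jc (ζ i x))) j)) P = 0 := by
      rw [G.aeval_eq_zero_iff]
      · filter_upwards [hPz] with x hx
        convert hx using 2
        congr 1
        funext j
        rcases j with _ | j <;> rfl
      · intro j
        rcases j with _ | j
        · exact hid
        · exact hJz' j
    convert h1 using 2
    congr 1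
    funext j
    rcases j with _ | j <;> rfl
  · obtain ⟨i, k, hik, φ, hφ⟩ := hlink
    have hL := hP θ F G (ζ i) (ζ k) φ (hζ i) (hζ k) (him i) (him k) hφ
    obtain ⟨α, β, γ, δ, hdet, hrel, hM1, hM2⟩ :=
      hA φ θ (ζ i) (ζ k) (hζ i) (hζ k) (him i) (him k) (hnc i) (hnc k) hL
    have hrel0 := hrel.self_of_nhds
    have hden : γ * ζ i θ + δ ≠ 0 := by
      intro h0
      rw [h0, zero_mul] at hrel0
      have : α * δ - β * γ = 0 := by
        linear_combination α * h0 + γ * hrel0
      rw [hdet] at this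
      exact one_ne_zero this
    have hzk : (α * ζ i θ + β) / (γ * ζ i θ + δ) = ζ k θ := by
      rw [← hrel0, mul_div_cancel_left₀ _ hden]
    obtain ⟨a, b, c, d, rfl, rfl, rfl, rfl⟩ := hB α β γ δ (ζ i θ) hdet (him i)
      (by rw [hzk]; exact him k) hM1 (by rw [hzk]; exact hM2)
    have hdet' : a * d - b * c = 1 := by exact_mod_cast hdet
    obtain ⟨m, a', b', c', d', hm, rfl, rfl, rfl, rfl⟩ :=
      hC a b c d (ζ i θ) hdet' (him i) hM1
    apply hne i k hik
    refine ⟨a', b', c', d', ?_, ?_⟩
    · intro h0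
      have h1 : (a' : ℝ) * d' - b' * c' = 0 := by exact_mod_cast h0
      have h2 : m * a' * (m * d') - m * b' * (m * c') = 0 := by linear_combination m ^ 2 * h1
      rw [hdet'] at h2
      exact one_ne_zero h2
    · filter_upwards [hrel] with x hx
      have hmc : (m : ℂ) ≠ 0 := Complex.ofReal_ne_zero.mpr hm
      apply mul_left_cancel₀ hmc
      push_cast at hx
      linear_combination hx

end Pool.Agent.Lib.MP_47914d_nt
end

section
set_option autoImplicit false

open Complex

namespace Pool.Agent.Lib.MP_47914d_nt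

section

variable {F : Type} [Field F] [Algebra ℂ F]

theorem isW_lie {δ δ' : Derivation ℂ F F} {z p q r : F} {w w' : Fin 3 → F}
    (h : IsW δ z p q r w) (h' : IsW δ' z p q r w') :
    IsW ⁅δ, δ'⁆ z p q r (fun k => δ (w' k) - δ' (w k) - br w w' k) := by
  have e2 : ∀ δ : Derivation ℂ F F, δ 2 = 0 := fun δ => by
    have := δ.map_natCast 2; simpa using this
  have e3 : ∀ δ : Derivation ℂ F F, δ 3 = 0 := fun δ => by
    have := δ.map_natCast 3; simpa using this
  have e4 : ∀ δ : Derivation ℂ F F, δ 4 = 0 := fun δ => by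
    have := δ.map_natCast 4; simpa using this
  have e6 : ∀ δ : Derivation ℂ F F, δ 6 = 0 := fun δ => by
    have := δ.map_natCast 6; simpa using this
  constructor
  · rw [Derivation.commutator_apply, h.hp, h'.hp, Derivation.commutator_apply]
    simp only [om0, om1, map_add, map_sub, Derivation.leibniz, Derivation.leibniz_pow, smul_eq_mul,
      nsmul_eq_mul, h.hp, h'.hp, h.hq, h'.hq, br, e2]
    simp
    ring
  · rw [Derivation.commutator_apply, h.hq, h'.hq, Derivation.commutator_apply]
    simp only [om0, om1, map_add, map_sub, Derivation.leibniz, Derivation.leibniz_pow, smul_eq_mul,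
      nsmul_eq_mul, h.hp, h'.hp, h.hq, h'.hq, h.hr, h'.hr, br, e2, e4]
    simp
    ring
  · rw [Derivation.commutator_apply, h.hr, h'.hr, Derivation.commutator_apply]
    simp only [om0, om1, map_add, map_sub, Derivation.leibniz, Derivation.leibniz_pow, smul_eq_mul,
      nsmul_eq_mul, h.hp, h'.hp, h.hq, h'.hq, h.hr, h'.hr, br, e2, e3, e6]
    simp
    ring

theorem IsW.add {δ δ' : Derivation ℂ F F} {z p q r : F} {w w' : Fin 3 → F}
    (h : IsW δ z p q r w) (h' : IsW δ' z p q r w') : IsW (δ + δ') z p q r (w + w') := by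
  constructor
  · rw [Derivation.add_apply, h.hp, h'.hp, Derivation.add_apply]
    simp only [om0, om1, Pi.add_apply]; ring
  · rw [Derivation.add_apply, h.hq, h'.hq, Derivation.add_apply]
    simp only [om0, om1, Pi.add_apply]; ring
  · rw [Derivation.add_apply, h.hr, h'.hr, Derivation.add_apply]
    simp only [om0, om1, Pi.add_apply]; ring

theorem IsW.smul {δ : Derivation ℂ F F} {z p q r : F} {w : Fin 3 → F} (f : F)
    (h : IsW δ z p q r w) : IsW (f • δ) z p q r (f • w) := by
  constructor
  · rw [Derivation.smul_apply, h.hp, Derivation.smul_apply]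
    simp only [om0, om1, Pi.smul_apply, smul_eq_mul]; ring
  · rw [Derivation.smul_apply, h.hq, Derivation.smul_apply]
    simp only [om0, om1, Pi.smul_apply, smul_eq_mul]; ring
  · rw [Derivation.smul_apply, h.hr, Derivation.smul_apply]
    simp only [om0, om1, Pi.smul_apply, smul_eq_mul]; ring

theorem IsW.zero (z p q r : F) : IsW (0 : Derivation ℂ F F) z p q r 0 := by
  constructor <;> simp [om0, om1]

theorem exists_isW (δ : Derivation ℂ F F) (z p q r : F) (h : q ^ 3 - r ^ 2 ≠ 0) :
    ∃ w : Fin 3 → F, IsW δ z p q r w := by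
  have h12 : (12 : F) ≠ 0 := by
    have : CharZero F := charZero_of_injective_algebraMap (algebraMap ℂ F).injective
    norm_num
  have h2 : (2 : F) ≠ 0 := by
    have : CharZero F := charZero_of_injective_algebraMap (algebraMap ℂ F).injective
    norm_num
  set ηP := δ p - (p ^ 2 - q) * δ z with hP
  set ηQ := δ q - 4 * (p * q - r) * δ z with hQ
  set ηR := δ r - 6 * (p * r - q ^ 2) * δ z with hR
  set M := 12 * (q ^ 3 - r ^ 2) with hM
  have hM0 : M ≠ 0 := mul_ne_zero h12 h
  set o0 := (3 * r * ηQ - 2 * q * ηR) / M with ho0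
  set o1 := (4 * (p * q - r) * ηR - 6 * (p * r - q ^ 2) * ηQ) / M with ho1
  set w2 := ηP - o0 * (p ^ 2 - q) - o1 * p with hw2
  have e0 : M * o0 = 3 * r * ηQ - 2 * q * ηR := by rw [ho0]; field_simp
  have e1 : M * o1 = 4 * (p * q - r) * ηR - 6 * (p * r - q ^ 2) * ηQ := by rw [ho1]; field_simp
  have eQ : ηQ = 4 * (p * q - r) * o0 + 2 * o1 * q := by
    apply mul_left_cancel₀ hM0
    linear_combination (-4 * (p * q - r)) * e0 - (2 * q) * e1 + ηQ * hM
  have eR : ηR = 6 * (p * r - q ^ 2) * o0 + 3 * o1 * r := by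
    apply mul_left_cancel₀ hM0
    linear_combination (-6 * (p * r - q ^ 2)) * e0 - (3 * r) * e1 + ηR * hM
  refine ⟨![o0 - z * o1 + z ^ 2 * w2, o1 - 2 * z * w2, w2], ?_, ?_, ?_⟩
  · simp only [om0, om1, Matrix.cons_val_zero, Matrix.cons_val_one, Matrix.cons_val]
    linear_combination hw2 + hP
  · simp only [om0, om1, Matrix.cons_val_zero, Matrix.cons_val_one, Matrix.cons_val]
    linear_combination eQ - hQ
  · simp only [om0, om1, Matrix.cons_val_zero, Matrix.cons_val_one, Matrix.cons_val]
    linear_combination eR - hR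

theorem isW_unique {δ : Derivation ℂ F F} {z p q r : F} {w w' : Fin 3 → F}
    (h : q ^ 3 - r ^ 2 ≠ 0) (hw : IsW δ z p q r w) (hw' : IsW δ z p q r w') : w = w' := by
  have h12 : (12 : F) ≠ 0 := by
    have : CharZero F := charZero_of_injective_algebraMap (algebraMap ℂ F).injective
    norm_num
  have hM0 : 12 * (q ^ 3 - r ^ 2) ≠ 0 := mul_ne_zero h12 h
  have eP := hw.hp.symm.trans hw'.hp
  have eQ := hw.hq.symm.trans hw'.hq
  have eR := hw.hr.symm.trans hw'.hr
  have e0 : om0 w z = om0 w' z := by
    apply mul_left_cancel₀ hM0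
    linear_combination 3 * r * eQ - 2 * q * eR
  have e1 : om1 w z = om1 w' z := by
    apply mul_left_cancel₀ hM0
    linear_combination 4 * (p * q - r) * eR - 6 * (p * r - q ^ 2) * eQ
  have e2 : w 2 = w' 2 := by
    linear_combination eP - (p ^ 2 - q) * e0 - p * e1
  have e1' : w 1 = w' 1 := by
    unfold om1 at e1
    linear_combination e1 - 2 * z * e2
  have e0' : w 0 = w' 0 := by
    unfold om0 at e0
    linear_combination e0 - z * e1' - z ^ 2 * e2
  funext k
  fin_cases k
  · exact e0'
  · exact e1'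
  · exact e2

theorem mem_ne_zero {z p q r : F} (h : AlgebraicIndependent ℂ ![z, p, q, r])
    (P : MvPolynomial (Fin 4) ℂ) (hP : P ≠ 0) : MvPolynomial.aeval ![z, p, q, r] P ≠ 0 := by
  intro h0
  exact hP ((algebraicIndependent_iff.mp h) P h0)

theorem disc_ne {z p q r : F} (h : AlgebraicIndependent ℂ ![z, p, q, r]) :
    q ^ 3 - r ^ 2 ≠ 0 := by
  have h1 := mem_ne_zero h (MvPolynomial.X 2 ^ 3 - MvPolynomial.X 3 ^ 2) (by
    intro h0
    have := congrArg (MvPolynomial.eval ![0, 0, 1, 0]) h0
    simp at this)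
  simpa using h1

theorem q_ne {z p q r : F} (h : AlgebraicIndependent ℂ ![z, p, q, r]) : q ≠ 0 := by
  have h1 := mem_ne_zero h (MvPolynomial.X 2) (MvPolynomial.X_ne_zero _)
  simpa using h1

theorem r_ne {z p q r : F} (h : AlgebraicIndependent ℂ ![z, p, q, r]) : r ≠ 0 := by
  have h1 := mem_ne_zero h (MvPolynomial.X 3) (MvPolynomial.X_ne_zero _)
  simpa using h1

theorem z_trans {z p q r : F} (h : AlgebraicIndependent ℂ ![z, p, q, r]) :
    AlgebraicIndependent ℂ ![z] := by
  have h1 := h.comp (fun _ : Fin 1 => (0 : Fin 4)) (fun a b _ => Subsingleton.elim a b)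
  convert h1 using 1
  funext i
  fin_cases i
  rfl

theorem not_swap {t x : F} (h : ¬ AlgebraicIndependent ℂ ![t, x]) :
    ¬ AlgebraicIndependent ℂ ![x, t] := by
  intro h1
  apply h
  have h2 := (algebraicIndependent_equiv (Equiv.swap (0 : Fin 2) 1) (R := ℂ)
    (f := ![x, t])).mpr h1
  convert h2 using 1
  funext i
  fin_cases i <;> simp

theorem t_trans {D : Derivation ℂ F F} {t : F} (h : D t = 1) : AlgebraicIndependent ℂ ![t] := by
  rw [algebraicIndependent_unique_type_iff]
  intro halg
  have ht : IsAlgebraic ℂ t := by simpa using halg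
  have h1 := IsAlgClosed.degree_eq_one_of_irreducible ℂ (minpoly.irreducible ht.isIntegral)
  rw [minpoly.degree_eq_one_iff] at h1
  obtain ⟨c, hc⟩ := h1
  rw [← hc, Derivation.map_algebraMap] at h
  exact zero_ne_one h

/-- The space of all `W`-values of derivations. -/
noncomputable def Uspace {n : ℕ} (z p q r : Fin n → F) : Submodule F (Fin n × Fin 3 → F) where
  carrier := {u | ∃ δ : Derivation ℂ F F, ∀ i, IsW δ (z i) (p i) (q i) (r i) (fun k => u (i, k))}
  add_mem' := by
    rintro u u' ⟨δ, h⟩ ⟨δ', h'⟩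
    exact ⟨δ + δ', fun i => (h i).add (h' i)⟩
  zero_mem' := ⟨0, fun i => IsW.zero _ _ _ _⟩
  smul_mem' := by
    rintro c u ⟨δ, h⟩
    exact ⟨c • δ, fun i => (h i).smul c⟩

theorem mem_Uspace {n : ℕ} {z p q r : Fin n → F} {u : Fin n × Fin 3 → F} :
    u ∈ Uspace z p q r ↔
      ∃ δ : Derivation ℂ F F, ∀ i, IsW δ (z i) (p i) (q i) (r i) (fun k => u (i, k)) := Iff.rfl

/-- Its constant vectors. -/
noncomputable def Hspace {n : ℕ} (z p q r : Fin n → F) : Submodule ℂ (Fin n → Fin 3 → ℂ) where
  carrier := {c | (fun ik : Fin n × Fin 3 => algebraMap ℂ F (c ik.1 ik.2)) ∈ Uspace z p q r}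
  add_mem' := by
    intro a b ha hb
    rw [Set.mem_ofPred_eq] at ha hb ⊢
    have := (Uspace z p q r).add_mem ha hb
    convert this using 1
    funext ik
    simp
  zero_mem' := by
    rw [Set.mem_ofPred_eq]
    have := (Uspace z p q r).zero_mem
    convert this using 1
    funext ik
    simp
  smul_mem' := by
    intro c a ha
    rw [Set.mem_ofPred_eq] at ha ⊢
    have := (Uspace z p q r).smul_mem (algebraMap ℂ F c) ha
    convert this using 1
    funext ik
    simp

theorem mem_Hspace {n : ℕ} {z p q r : Fin n → F} {c : Fin n → Fin 3 → ℂ} :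
    c ∈ Hspace z p q r ↔
      ∃ δ : Derivation ℂ F F, ∀ i, IsW δ (z i) (p i) (q i) (r i)
        (fun k => algebraMap ℂ F (c i k)) := Iff.rfl

theorem Uspace_stable {n : ℕ} {z p q r : Fin n → F} {D : Derivation ℂ F F}
    (hD : ∀ i, IsW D (z i) (p i) (q i) (r i) 0) :
    ∀ u ∈ Uspace z p q r, (fun ik => D (u ik)) ∈ Uspace z p q r := by
  rintro u ⟨δ, h⟩
  refine ⟨⁅D, δ⁆, fun i => ?_⟩
  have := isW_lie (hD i) (h i)
  convert this using 2 with k
  have : br (0 : Fin 3 → F) (fun k => u (i, k)) k = 0 := by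
    fin_cases k <;> simp [br]
  rw [this]
  simp

theorem Hspace_br {n : ℕ} {z p q r : Fin n → F} :
    ∀ u ∈ Hspace z p q r, ∀ v ∈ Hspace z p q r, (fun i => br (u i) (v i)) ∈ Hspace z p q r := by
  rintro u ⟨δ, h⟩ v ⟨δ', h'⟩
  refine ⟨-⁅δ, δ'⁆, fun i => ?_⟩
  have h1 := (isW_lie (h i) (h' i)).smul (-1 : F)
  have e : (-1 : F) • ⁅δ, δ'⁆ = -⁅δ, δ'⁆ := by
    simp
  rw [e] at h1
  convert h1 using 1
  funext k
  simp only [Pi.smul_apply, smul_eq_mul, Derivation.map_algebraMap]
  have e2 : algebraMap ℂ F 2 = 2 := map_ofNat _ 2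
  fin_cases k <;> simp [br, e2]

theorem exists_mem_U (hE : SpecExt) {n : ℕ} {z p q r : Fin n → F}
    (hAI : ∀ i, AlgebraicIndependent ℂ ![z i, p i, q i, r i]) (i : Fin n) (w : Fin 3 → F) :
    ∃ u ∈ Uspace z p q r, (fun k => u (i, k)) = w := by
  classical
  obtain ⟨δ, hδ⟩ := hE F (Fin 4) _ (hAI i) ![0,
    (p i ^ 2 - q i) * (0 + om0 w (z i)) + om1 w (z i) * p i + w 2,
    4 * (p i * q i - r i) * (0 + om0 w (z i)) + 2 * om1 w (z i) * q i,
    6 * (p i * r i - q i ^ 2) * (0 + om0 w (z i)) + 3 * om1 w (z i) * r i]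
  have h0 : δ (z i) = 0 := hδ 0
  have h1 : δ (p i) = (p i ^ 2 - q i) * (0 + om0 w (z i)) + om1 w (z i) * p i + w 2 := hδ 1
  have h2 : δ (q i) = 4 * (p i * q i - r i) * (0 + om0 w (z i)) + 2 * om1 w (z i) * q i := hδ 2
  have h3 : δ (r i) = 6 * (p i * r i - q i ^ 2) * (0 + om0 w (z i)) + 3 * om1 w (z i) * r i :=
    hδ 3
  have hi : IsW δ (z i) (p i) (q i) (r i) w :=
    ⟨by rw [h1, h0], by rw [h2, h0], by rw [h3, h0]⟩
  have hex : ∀ k, ∃ w : Fin 3 → F, IsW δ (z k) (p k) (q k) (r k) w := fun k =>
    exists_isW δ _ _ _ _ (disc_ne (hAI k))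
  choose W hW using hex
  refine ⟨fun ik => if ik.1 = i then w ik.2 else W ik.1 ik.2, ⟨δ, fun k => ?_⟩, ?_⟩
  · by_cases hk : k = i
    · subst hk
      simpa using hi
    · simpa [hk] using hW k
  · funext k
    simp

theorem single_surj (hE : SpecExt) {n : ℕ} {z p q r : Fin n → F}
    (hAI : ∀ i, AlgebraicIndependent ℂ ![z i, p i, q i, r i])
    (hU : Uspace z p q r = Submodule.span F {u | u ∈ Uspace z p q r ∧
      ∃ c : Fin n × Fin 3 → ℂ, u = fun i => algebraMap ℂ F (c i)}) (i : Fin n) (v : Fin 3 → ℂ) :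
    ∃ u ∈ Hspace z p q r, u i = v := by
  by_contra hcon
  push Not at hcon
  set S : Submodule ℂ (Fin 3 → ℂ) := (Hspace z p q r).map (LinearMap.proj i) with hS
  have hv : v ∉ S := by
    rintro ⟨u, hu, hui⟩
    exact hcon u hu hui
  obtain ⟨f, hf1, hf2⟩ := Submodule.exists_le_ker_of_notMem hv
  set a : Fin 3 → ℂ := fun k => f (Pi.single k 1) with ha
  have hfa : ∀ w : Fin 3 → ℂ, f w = ∑ k, a k * w k := by
    intro w
    rw [LinearMap.pi_apply_eq_sum_univ f w]
    refine Finset.sum_congr rfl fun k _ => ?_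
    rw [smul_eq_mul, mul_comm, ha]
    congr 2
    funext j
    simp [Pi.single_apply, eq_comm]
  have hall : ∀ u ∈ Uspace z p q r, ∑ k, algebraMap ℂ F (a k) * u (i, k) = 0 := by
    intro u hu
    rw [hU] at hu
    induction hu using Submodule.span_induction with
    | mem u hu =>
      obtain ⟨hu1, c, rfl⟩ := hu
      have hc : (fun j k => c (j, k)) ∈ Hspace z p q r := hu1
      have h1 : f (fun k => c (i, k)) = 0 := by
        have : (fun k => c (i, k)) ∈ S := ⟨_, hc, rfl⟩
        exact hf2 this
      rw [hfa] at h1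
      have h2 := congrArg (algebraMap ℂ F) h1
      simpa using h2
    | zero => simp
    | add u u' _ _ h1 h2 =>
      simp only [Pi.add_apply, mul_add, Finset.sum_add_distrib, h1, h2, add_zero]
    | smul c u _ h1 =>
      simp only [Pi.smul_apply, smul_eq_mul]
      have : ∀ k, algebraMap ℂ F (a k) * (c * u (i, k)) = c * (algebraMap ℂ F (a k) * u (i, k)) := by
        intro k; ring
      simp only [this, ← Finset.mul_sum, h1, mul_zero]
  obtain ⟨u, hu, huw⟩ := exists_mem_U hE hAI i (fun k => algebraMap ℂ F (v k))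
  have h3 := hall u hu
  have h4 : ∀ k, u (i, k) = algebraMap ℂ F (v k) := fun k => congrFun huw k
  simp only [h4, ← map_mul, ← map_sum] at h3
  rw [← hfa] at h3
  rw [map_eq_zero] at h3
  exact hf1 h3

/-- Subtract a multiple of `D` to kill `t`. -/
theorem adjust {D δ : Derivation ℂ F F} {t : F} (ht : D t = 1) {n : ℕ} {z p q r : Fin n → F}
    (hD : ∀ i, IsW D (z i) (p i) (q i) (r i) 0) {w : Fin n → Fin 3 → F}
    (h : ∀ i, IsW δ (z i) (p i) (q i) (r i) (w i)) :
    ∃ δ' : Derivation ℂ F F, δ' t = 0 ∧ ∀ i, IsW δ' (z i) (p i) (q i) (r i) (w i) := by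
  refine ⟨δ + (-δ t) • D, ?_, fun i => ?_⟩
  · rw [Derivation.add_apply, Derivation.smul_apply, ht]
    simp
  · have := (h i).add ((hD i).smul (-δ t))
    simpa using this

/-- The effect on `y`. -/
theorem delta_y {δ : Derivation ℂ F F} {z p q r y : F} {w : Fin 3 → F}
    (hy : y * (q ^ 3 - r ^ 2) = 1728 * q ^ 3) (h : IsW δ z p q r w) :
    δ y * (q ^ 3 - r ^ 2) = -20736 * (q ^ 2 * r) * (δ z + om0 w z) := by
  have e1728 : δ 1728 = 0 := by
    have := δ.map_natCast 1728; simpa using this
  have h1 := congrArg δ hy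
  simp only [Derivation.leibniz, Derivation.leibniz_pow, map_sub, smul_eq_mul, nsmul_eq_mul,
    e1728, h.hq, h.hr] at h1
  have h2 : ((3 : ℕ) : F) = 3 := by norm_num
  have h3 : ((2 : ℕ) : F) = 2 := by norm_num
  rw [h2, h3] at h1
  norm_num at h1
  linear_combination h1 - (12 * p * (δ z + om0 w z) + 6 * om1 w z) * hy

theorem linked_aux (hE : SpecExt) (h0 : SpecDer0) {D : Derivation ℂ F F} {t : F} (ht : D t = 1)
    {n : ℕ} {z p q r y : Fin n → F}
    (hy : ∀ i, y i * (q i ^ 3 - r i ^ 2) = 1728 * q i ^ 3)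
    (hAI : ∀ i, AlgebraicIndependent ℂ ![z i, p i, q i, r i])
    (hz : ∀ i, ¬ AlgebraicIndependent ℂ ![t, z i]) (i k : Fin n)
    (hU : ∀ u ∈ Uspace z p q r, (fun l => u (i, l)) = 0 → (fun l => u (k, l)) = 0) :
    ¬ AlgebraicIndependent ℂ ![z i, p i, q i, r i, y k] := by
  intro hcon
  obtain ⟨δ, hδ⟩ := hE F (Fin 5) _ hcon ![0, 0, 0, 0, 1]
  have e0 : δ (z i) = 0 := hδ 0
  have e1 : δ (p i) = 0 := hδ 1
  have e2 : δ (q i) = 0 := hδ 2
  have e3 : δ (r i) = 0 := hδ 3
  have e4 : δ (y k) = 1 := hδ 4
  have hi : IsW δ (z i) (p i) (q i) (r i) 0 := by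
    constructor <;> simp [e0, e1, e2, e3, om0, om1]
  have hex : ∀ k, ∃ w : Fin 3 → F, IsW δ (z k) (p k) (q k) (r k) w := fun k =>
    exists_isW δ _ _ _ _ (disc_ne (hAI k))
  choose W hW using hex
  have hWi : W i = 0 := isW_unique (disc_ne (hAI i)) (hW i) hi
  have hWk : W k = 0 := hU (fun ik => W ik.1 ik.2) ⟨δ, fun k => hW k⟩ hWi
  have hk : IsW δ (z k) (p k) (q k) (r k) 0 := hWk ▸ hW k
  have hδt : δ t = 0 := h0 F (z i) t (z_trans (hAI i)) (not_swap (hz i)) δ e0
  have hδz : δ (z k) = 0 := h0 F t (z k) (t_trans ht) (hz k) δ hδt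
  have h5 := delta_y (hy k) hk
  rw [e4, hδz] at h5
  simp [om0] at h5
  exact disc_ne (hAI k) h5

theorem specAlg (hE : SpecExt) (h0 : SpecDer0) (hDA : SpecDerAI) (hS : SpecStab)
    (hG : SpecGour) : SpecAlg := by
  intro F _ _ D t n z p q r y hker ht hD hy hAI hz
  have hchar : CharZero F := charZero_of_injective_algebraMap (algebraMap ℂ F).injective
  have hU := hS F D hker (Fin n × Fin 3) (Uspace z p q r) (Uspace_stable hD)
  rcases hG (Fin n) (Hspace z p q r) Hspace_br (single_surj hE hAI hU) with htop | hlink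
  · left
    apply hDA F (Fin n) t y (t_trans ht)
    intro c
    -- the whole space
    have hUtop : ∀ u : Fin n × Fin 3 → F, u ∈ Uspace z p q r := by
      intro u
      have hcst : ∀ ik : Fin n × Fin 3, Pi.single ik (1 : F) ∈ Uspace z p q r := by
        intro ik
        have h1 : (fun j l => if (j, l) = ik then (1 : ℂ) else 0) ∈ Hspace z p q r := by
          rw [htop]; trivial
        have h2 : (fun jl : Fin n × Fin 3 => algebraMap ℂ F (if (jl.1, jl.2) = ik then 1 else 0)) ∈
          Uspace z p q r := h1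
        convert h2 using 1
        funext jl
        by_cases h : jl = ik
        · subst h; simp
        · simp [Pi.single_apply, h]
      have : u = ∑ ik, u ik • Pi.single ik (1 : F) := by
        funext jl
        simp [Finset.sum_apply, Pi.single_apply]
      rw [this]
      exact Submodule.sum_mem _ fun ik _ => Submodule.smul_mem _ _ (hcst ik)
    set a : Fin n → F := fun i =>
      c i * (q i ^ 3 - r i ^ 2) / (-20736 * (q i ^ 2 * r i)) with ha
    obtain ⟨δ, hδ⟩ := hUtop (fun ik => if ik.2 = 0 then a ik.1 else 0)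
    obtain ⟨δ', hδt, hδ'⟩ := adjust ht hD hδ
    refine ⟨δ', hδt, fun i => ?_⟩
    have hδz : δ' (z i) = 0 := h0 F t (z i) (t_trans ht) (hz i) δ' hδt
    have h5 := delta_y (hy i) (hδ' i)
    rw [hδz] at h5
    have h20 : ¬ ((2 : Fin 3) = 0) := by decide
    simp only [om0, h20, if_false, if_true] at h5
    norm_num at h5
    apply mul_right_cancel₀ (disc_ne (hAI i))
    rw [h5, ha]
    have hq := q_ne (hAI i)
    have hr := r_ne (hAI i)
    field_simp
  · right
    obtain ⟨i, k, hik, φ, hφ, hφu⟩ := hlink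
    have key : ∀ u ∈ Uspace z p q r, ∀ l, u (k, l) =
        ∑ m, algebraMap ℂ F (φ (Pi.single m 1) l) * u (i, m) := by
      intro u hu
      rw [hU] at hu
      induction hu using Submodule.span_induction with
      | mem u hu =>
        obtain ⟨hu1, c, rfl⟩ := hu
        intro l
        have hc : (fun j k => c (j, k)) ∈ Hspace z p q r := hu1
        have h1 := hφu _ hc
        have h2 := congrFun h1 l
        have h3 : (fun m => c (i, m)) = ∑ m, c (i, m) • Pi.single m (1 : ℂ) := by
          funext j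
          simp [Finset.sum_apply, Pi.single_apply]
        rw [h3] at h2
        rw [map_sum] at h2
        simp only [map_smul, Finset.sum_apply, Pi.smul_apply, smul_eq_mul] at h2
        show algebraMap ℂ F _ = _
        rw [h2, map_sum]
        refine Finset.sum_congr rfl fun m _ => ?_
        rw [map_mul, mul_comm]
      | zero => intro l; simp
      | add u u' _ _ h1 h2 =>
        intro l
        simp only [Pi.add_apply, h1 l, h2 l, mul_add, Finset.sum_add_distrib]
      | smul c u _ h1 =>
        intro l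
        simp only [Pi.smul_apply, smul_eq_mul, h1 l, Finset.mul_sum]
        refine Finset.sum_congr rfl fun m _ => ?_
        ring
    have key' : ∀ u ∈ Uspace z p q r, ∀ l, u (i, l) =
        ∑ m, algebraMap ℂ F (φ.symm (Pi.single m 1) l) * u (k, m) := by
      intro u hu
      rw [hU] at hu
      induction hu using Submodule.span_induction with
      | mem u hu =>
        obtain ⟨hu1, c, rfl⟩ := hu
        intro l
        have hc : (fun j k => c (j, k)) ∈ Hspace z p q r := hu1
        have h1 : (fun m => c (i, m)) = φ.symm (fun m => c (k, m)) := by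
          rw [LinearEquiv.eq_symm_apply]
          exact (hφu _ hc).symm
        have h2 := congrFun h1 l
        have h3 : (fun m => c (k, m)) = ∑ m, c (k, m) • Pi.single m (1 : ℂ) := by
          funext j
          simp [Finset.sum_apply, Pi.single_apply]
        rw [h3] at h2
        rw [map_sum] at h2
        simp only [map_smul, Finset.sum_apply, Pi.smul_apply, smul_eq_mul] at h2
        show algebraMap ℂ F _ = _
        rw [h2, map_sum]
        refine Finset.sum_congr rfl fun m _ => ?_
        rw [map_mul, mul_comm]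
      | zero => intro l; simp
      | add u u' _ _ h1 h2 =>
        intro l
        simp only [Pi.add_apply, h1 l, h2 l, mul_add, Finset.sum_add_distrib]
      | smul c u _ h1 =>
        intro l
        simp only [Pi.smul_apply, smul_eq_mul, h1 l, Finset.mul_sum]
        refine Finset.sum_congr rfl fun m _ => ?_
        ring
    refine ⟨i, k, hik, φ, hφ, ?_, ?_, ?_⟩
    · intro v
      obtain ⟨u, hu, hui⟩ := single_surj hE hAI hU i v
      have huk := hφu u hu
      obtain ⟨δ, hδ⟩ := hu
      obtain ⟨δ', hδt, hδ'⟩ := adjust ht hD hδ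
      refine ⟨δ', h0 F t (z i) (t_trans ht) (hz i) δ' hδt,
        h0 F t (z k) (t_trans ht) (hz k) δ' hδt, ?_, ?_⟩
      · have := hδ' i
        simp only [hui] at this
        exact this
      · have := hδ' k
        simp only [huk, hui] at this
        exact this
    · apply linked_aux hE h0 ht hy hAI hz i k
      intro u hu hui
      funext l
      rw [key u hu l]
      have : ∀ m, u (i, m) = 0 := fun m => congrFun hui m
      simp [this]
    · apply linked_aux hE h0 ht hy hAI hz k i
      intro u hu hui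
      funext l
      rw [key' u hu l]
      have : ∀ m, u (k, m) = 0 := fun m => congrFun hui m
      simp [this]

end

end Pool.Agent.Lib.MP_47914d_nt
end

section
/-!
The dichotomy of the Ax-Schanuel theorem: STAB2 and ALG2.
-/
set_option autoImplicit false

open Complex

namespace Pool.Agent.Lib.MP_47914d_nt

/-! ### STAB2 -/

theorem stab2 {F : Type} [Field F] [Algebra ℂ F] (M : Set (Derivation ℂ F F))
    (hker : ∀ f, (∀ D ∈ M, D f = 0) → ∃ c : ℂ, f = algebraMap ℂ F c) {ι : Type} [Finite ι]
    (U : Submodule F (ι → F)) (hU : ∀ D ∈ M, ∀ u ∈ U, (fun i => D (u i)) ∈ U) :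
    U = Submodule.span F {u | u ∈ U ∧ ∃ c : ι → ℂ, u = fun i => algebraMap ℂ F (c i)} := by
  classical
  have : Fintype ι := Fintype.ofFinite ι
  set S : Submodule F (ι → F) :=
    Submodule.span F {u | u ∈ U ∧ ∃ c : ι → ℂ, u = fun i => algebraMap ℂ F (c i)} with hS
  apply le_antisymm
  · -- induction on the size of the support
    have key : ∀ n : ℕ, ∀ u ∈ U, (Finset.univ.filter (fun i => u i ≠ 0)).card ≤ n → u ∈ S := by
      intro n
      induction n with
      | zero =>
        intro u _ hc
        have h0 : (Finset.univ.filter (fun i => u i ≠ 0)) = ∅ := by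
          rw [← Finset.card_eq_zero]
          omega
        have : u = 0 := by
          funext i
          by_contra hne
          have : i ∈ (Finset.univ.filter (fun i => u i ≠ 0)) := by
            simp only [Finset.mem_filter, Finset.mem_univ, true_and]
            exact hne
          rw [h0] at this
          simp at this
        rw [this]
        exact S.zero_mem
      | succ n ih =>
        intro u hu hc
        by_cases hu0 : u = 0
        · rw [hu0]
          exact S.zero_mem
        obtain ⟨i0, hi0⟩ : ∃ i, u i ≠ 0 := by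
          by_contra hcon
          push Not at hcon
          exact hu0 (funext hcon)
        -- scaled vector
        set u' : ι → F := (u i0)⁻¹ • u with hu'
        have hu'U : u' ∈ U := U.smul_mem _ hu
        have hu'i : u' i0 = 1 := by
          simp only [hu', Pi.smul_apply, smul_eq_mul]
          exact inv_mul_cancel₀ hi0
        have hsub : ∀ i, u' i ≠ 0 → u i ≠ 0 := by
          intro i hi h0
          apply hi
          simp only [hu', Pi.smul_apply, smul_eq_mul, h0, mul_zero]
        have hback : u' ∈ S → u ∈ S := by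
          intro h
          have : u = (u i0) • u' := by
            rw [hu', smul_smul, mul_inv_cancel₀ hi0, one_smul]
          rw [this]
          exact S.smul_mem _ h
        apply hback
        -- a general reduction
        have small : ∀ (v : ι → F) (j : ι), u j ≠ 0 → v j = 0 → (∀ i, v i ≠ 0 → u i ≠ 0) →
            (Finset.univ.filter (fun i => v i ≠ 0)).card ≤ n := by
          intro v j huj hvj hvu
          have hss : (Finset.univ.filter (fun i => v i ≠ 0)) ⊂
              (Finset.univ.filter (fun i => u i ≠ 0)) := by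
            rw [Finset.ssubset_iff_of_subset]
            · refine ⟨j, ?_, ?_⟩
              · simp only [Finset.mem_filter, Finset.mem_univ, true_and]
                exact huj
              · simp only [Finset.mem_filter, Finset.mem_univ, true_and, not_not]
                exact hvj
            · intro i hi
              simp only [Finset.mem_filter, Finset.mem_univ, true_and] at hi ⊢
              exact hvu i hi
          have := Finset.card_lt_card hss
          omega
        by_cases hall : ∀ D ∈ M, ∀ i, D (u' i) = 0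
        · -- `u'` is constant
          apply Submodule.subset_span
          refine ⟨hu'U, ?_⟩
          have : ∀ i, ∃ c : ℂ, u' i = algebraMap ℂ F c := fun i => hker _ fun D hD => hall D hD i
          choose c hc using this
          exact ⟨c, funext hc⟩
        · push Not at hall
          obtain ⟨D, hD, j, hj⟩ := hall
          set w : ι → F := fun i => D (u' i) with hw
          have hwU : w ∈ U := hU D hD u' hu'U
          have hwi : w i0 = 0 := by
            simp only [hw, hu'i]
            exact D.map_one_eq_zero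
          have hwsub : ∀ i, w i ≠ 0 → u' i ≠ 0 := by
            intro i hi h0
            apply hi
            simp only [hw, h0]
            exact D.map_zero
          have hwS : w ∈ S := ih w hwU (small w i0 hi0 hwi (fun i hi => hsub i (hwsub i hi)))
          have hj : w j ≠ 0 := hj
          set v : ι → F := u' - (u' j / w j) • w with hv
          have hvU : v ∈ U := U.sub_mem hu'U (U.smul_mem _ hwU)
          have hvj : v j = 0 := by
            simp only [hv, Pi.sub_apply, Pi.smul_apply, smul_eq_mul]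
            rw [div_mul_cancel₀ _ hj, sub_self]
          have hvsub : ∀ i, v i ≠ 0 → u i ≠ 0 := by
            intro i hi
            by_contra h0
            apply hi
            have h1 : u' i = 0 := by
              by_contra h
              exact hsub i h h0
            have h2 : w i = 0 := by
              by_contra h
              exact hwsub i h h1
            simp only [hv, Pi.sub_apply, Pi.smul_apply, smul_eq_mul, h1, h2, mul_zero, sub_zero]
          have hvS : v ∈ S := ih v hvU (small v j (hsub j (hwsub j hj)) hvj hvsub)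
          have : u' = v + (u' j / w j) • w := by
            rw [hv, sub_add_cancel]
          rw [this]
          exact S.add_mem hvS (S.smul_mem _ hwS)
    intro u hu
    exact key _ u hu le_rfl
  · rw [hS, Submodule.span_le]
    rintro u ⟨hu, -⟩
    exact hu

/-! ### Derivations and algebraic independence -/

/-- A derivation killing a subfield kills everything algebraic over it. -/
theorem der_zero_of_alg {F : Type} [Field F] [Algebra ℂ F] (K : IntermediateField ℂ F) {x : F}
    (hx : IsAlgebraic K x) (δ : Derivation ℂ F F) (hδ : ∀ a ∈ K, δ a = 0) : δ x = 0 := by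
  have hchar : CharZero F := charZero_of_injective_algebraMap (algebraMap ℂ F).injective
  have hcharK : CharZero K := charZero_of_injective_algebraMap (algebraMap ℂ K).injective
  let δ' : Derivation K F F := Derivation.mk'
    { toFun := δ
      map_add' := δ.map_add
      map_smul' := by
        intro a b
        rw [Algebra.smul_def, Derivation.leibniz]
        have : δ (algebraMap K F a) = 0 := hδ _ a.2
        rw [this, smul_zero, add_zero]
        rfl }
    (by intro a b; exact δ.leibniz a b)
  have h1 := δ'.map_aeval (minpoly K x) x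
  rw [minpoly.aeval, map_zero] at h1
  have hsep : (minpoly K x).Separable := (minpoly.irreducible hx.isIntegral).separable
  have h2 : Polynomial.aeval x (Polynomial.derivative (minpoly K x)) ≠ 0 :=
    hsep.aeval_derivative_ne_zero (minpoly.aeval K x)
  have h3 : δ' x = 0 := by
    rw [smul_eq_mul] at h1
    rcases mul_eq_zero.mp h1.symm with h | h
    · exact absurd h h2
    · exact h
  exact h3

theorem der_zero_adjoin {F : Type} [Field F] [Algebra ℂ F] (S : Set F) (δ : Derivation ℂ F F)
    (hδ : ∀ a ∈ S, δ a = 0) : ∀ a ∈ IntermediateField.adjoin ℂ S, δ a = 0 := by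
  intro a ha
  induction ha using IntermediateField.adjoin_induction with
  | mem x hx => exact hδ x hx
  | algebraMap c => exact δ.map_algebraMap c
  | add x y _ _ hx hy => rw [map_add, hx, hy, add_zero]
  | inv x _ hx => rw [Derivation.leibniz_inv, hx, smul_zero]
  | mul x y _ _ hx hy => rw [Derivation.leibniz, hx, hy, smul_zero, smul_zero, add_zero]

/-- A maximal algebraically independent subfamily detects derivations. -/
theorem exists_detect {F : Type} [Field F] [Algebra ℂ F] {ι : Type} [Fintype ι]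
    (v : ι → F) : ∃ s : Finset ι, AlgebraicIndepOn ℂ v (s : Set ι) ∧
      ∀ δ : Derivation ℂ F F, (∀ i ∈ s, δ (v i) = 0) → ∀ i, δ (v i) = 0 := by
  classical
  let 𝒮 : Finset (Finset ι) := Finset.univ.filter
    (fun s : Finset ι => AlgebraicIndepOn ℂ v (s : Set ι))
  have hne : 𝒮.Nonempty := by
    refine ⟨∅, ?_⟩
    simp only [𝒮, Finset.mem_filter, Finset.mem_univ, true_and]
    have : IsEmpty ((∅ : Finset ι) : Set ι) := by
      rw [Finset.coe_empty]
      infer_instance
    exact algebraicIndependent_empty_type_iff.mpr (algebraMap ℂ F).injective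
  obtain ⟨s, hs, hmax⟩ := Finset.exists_max_image 𝒮 Finset.card hne
  simp only [𝒮, Finset.mem_filter, Finset.mem_univ, true_and] at hs hmax
  refine ⟨s, hs, fun δ hδ i => ?_⟩
  by_cases hi : i ∈ s
  · exact hδ i hi
  apply der_zero_of_alg (IntermediateField.adjoin ℂ (v '' s))
  · have h1 : IsAlgebraic (Algebra.adjoin ℂ (v '' s)) (v i) := by
      by_contra htr
      have h2 := hs.insert htr
      have h3 := hmax (insert i s) (by rw [Finset.coe_insert]; exact h2)
      rw [Finset.card_insert_of_notMem hi] at h3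
      omega
    open scoped IntermediateField.algebraAdjoinAdjoin in
    exact h1.extendScalars (S := IntermediateField.adjoin ℂ (v '' s))
      (Subalgebra.inclusion_injective (IntermediateField.algebra_adjoin_le_adjoin ℂ (v '' s)))
  · apply der_zero_adjoin
    rintro a ⟨j, hj, rfl⟩
    exact hδ _ hj

/-! ### The dichotomy -/

theorem alg2 (hE : SpecExt) (hG : SpecGour) {F : Type} [Field F] [Algebra ℂ F]
    (M : Set (Derivation ℂ F F)) {n : ℕ} (z p q r y : Fin n → F) (hn : 0 < n)
    (hker : ∀ f, (∀ D ∈ M, D f = 0) → ∃ c : ℂ, f = algebraMap ℂ F c)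
    (hD : ∀ D ∈ M, ∀ i, IsW D (z i) (p i) (q i) (r i) 0)
    (hy : ∀ i, y i * (q i ^ 3 - r i ^ 2) = 1728 * q i ^ 3)
    (hAI : ∀ i, AlgebraicIndependent ℂ ![z i, p i, q i, r i]) :
    (∃ s : Finset (Fin n ⊕ Fin n), n + 1 ≤ s.card ∧
      AlgebraicIndepOn ℂ (Sum.elim z y) (s : Set (Fin n ⊕ Fin n))) ∨
    ∃ i k, i ≠ k ∧ ∃ φ : (Fin 3 → ℂ) ≃ₗ[ℂ] (Fin 3 → ℂ),
      (∀ u v, φ (br u v) = br (φ u) (φ v)) ∧
      ∀ u ∈ Uspace z p q r, ∀ l, u (k, l) =
        ∑ m, algebraMap ℂ F (φ (Pi.single m 1) l) * u (i, m) := by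
  classical
  have hchar : CharZero F := charZero_of_injective_algebraMap (algebraMap ℂ F).injective
  have hU := stab2 M hker (Uspace z p q r) (fun D hDM => Uspace_stable (hD D hDM))
  rcases hG (Fin n) (Hspace z p q r) Hspace_br (single_surj hE hAI hU) with htop | hlink
  · left
    -- the whole space
    have hUtop : ∀ u : Fin n × Fin 3 → F, u ∈ Uspace z p q r := by
      intro u
      have hcst : ∀ ik : Fin n × Fin 3, Pi.single ik (1 : F) ∈ Uspace z p q r := by
        intro ik
        have h1 : (fun j l => if (j, l) = ik then (1 : ℂ) else 0) ∈ Hspace z p q r := by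
          rw [htop]; trivial
        have h2 : (fun jl : Fin n × Fin 3 => algebraMap ℂ F (if (jl.1, jl.2) = ik then 1 else 0)) ∈
          Uspace z p q r := h1
        convert h2 using 1
        funext jl
        by_cases h : jl = ik
        · subst h; simp
        · simp [Pi.single_apply, h]
      have : u = ∑ ik, u ik • Pi.single ik (1 : F) := by
        funext jl
        simp [Finset.sum_apply, Pi.single_apply]
      rw [this]
      exact Submodule.sum_mem _ fun ik _ => Submodule.smul_mem _ _ (hcst ik)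
    obtain ⟨s, hs, hdet⟩ := exists_detect (Sum.elim z y)
    refine ⟨s, ?_, hs⟩
    -- the space of values
    let V : Submodule F (Fin n ⊕ Fin n → F) :=
      { carrier := {u | ∃ δ : Derivation ℂ F F, ∀ i, u i = δ (Sum.elim z y i)}
        add_mem' := by
          rintro u u' ⟨δ, h⟩ ⟨δ', h'⟩
          exact ⟨δ + δ', fun i => by rw [Pi.add_apply, h, h', Derivation.add_apply]⟩
        zero_mem' := ⟨0, fun i => by simp⟩
        smul_mem' := by
          rintro c u ⟨δ, h⟩
          exact ⟨c • δ, fun i => by rw [Pi.smul_apply, h, Derivation.smul_apply]⟩ }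
    -- upper bound for its dimension
    have hle : Module.finrank F V ≤ s.card := by
      let L : V →ₗ[F] (s → F) :=
        { toFun := fun u i => u.1 i
          map_add' := fun _ _ => rfl
          map_smul' := fun _ _ => rfl }
      have hinj : Function.Injective L := by
        rw [injective_iff_map_eq_zero]
        rintro ⟨u, δ, hδ⟩ h0
        ext i
        have h1 : ∀ j ∈ s, δ (Sum.elim z y j) = 0 := by
          intro j hj
          rw [← hδ]
          exact congrFun h0 ⟨j, hj⟩
        show u i = 0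
        rw [hδ]
        exact hdet δ h1 i
      have h2 := LinearMap.finrank_le_finrank_of_injective hinj
      rwa [Module.finrank_fintype_fun_eq_card, Fintype.card_coe] at h2
    -- lower bound
    set K : Fin n → F := fun i => -20736 * (q i ^ 2 * r i) / (q i ^ 3 - r i ^ 2) with hK
    have hK0 : ∀ i, K i ≠ 0 := by
      intro i
      have hq := q_ne (hAI i)
      have hr := r_ne (hAI i)
      have hd := disc_ne (hAI i)
      simp only [hK]
      exact div_ne_zero (mul_ne_zero (by norm_num) (mul_ne_zero (pow_ne_zero _ hq) hr)) hd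
    have hKy : ∀ (δ : Derivation ℂ F F) (i : Fin n) (w : Fin 3 → F),
        IsW δ (z i) (p i) (q i) (r i) w → δ (y i) / K i - δ (z i) = om0 w (z i) := by
      intro δ i w hw
      have h5 := delta_y (hy i) hw
      have h6 : δ (y i) = K i * (δ (z i) + om0 w (z i)) := by
        apply mul_right_cancel₀ (disc_ne (hAI i))
        rw [h5, hK]
        have hd := disc_ne (hAI i)
        field_simp
      rw [h6, mul_div_cancel_left₀ _ (hK0 i)]
      ring
    let ρ : V →ₗ[F] (Fin n → F) :=
      { toFun := fun u i => u.1 (Sum.inr i) / K i - u.1 (Sum.inl i)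
        map_add' := by
          intro u v
          funext i
          simp only [Submodule.coe_add, Pi.add_apply]
          ring
        map_smul' := by
          intro c u
          funext i
          simp only [Submodule.coe_smul, Pi.smul_apply, smul_eq_mul, RingHom.id_apply]
          ring }
    have hsurj : LinearMap.range ρ = ⊤ := by
      rw [LinearMap.range_eq_top]
      intro c
      obtain ⟨δ, hδ⟩ := hUtop (fun ik => if ik.2 = 0 then c ik.1 else 0)
      refine ⟨⟨fun i => δ (Sum.elim z y i), δ, fun i => rfl⟩, ?_⟩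
      funext i
      show δ (y i) / K i - δ (z i) = c i
      rw [hKy δ i _ (hδ i)]
      have h20 : ¬ ((2 : Fin 3) = 0) := by decide
      have h10 : ¬ ((1 : Fin 3) = 0) := by decide
      simp [om0, h20, h10]
    have hker1 : 1 ≤ Module.finrank F (LinearMap.ker ρ) := by
      suffices hne : ∃ x : LinearMap.ker ρ, x ≠ 0 by
        exact (Module.finrank_pos_iff_exists_ne_zero (R := F) (M := LinearMap.ker ρ)).mpr hne
      -- a derivation in `M` moving `z 0`
      have hex : ∃ D ∈ M, D (z ⟨0, hn⟩) ≠ 0 := by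
        by_contra hcon
        push Not at hcon
        obtain ⟨c, hc⟩ := hker _ hcon
        have h1 := z_trans (hAI ⟨0, hn⟩)
        rw [algebraicIndependent_unique_type_iff] at h1
        apply h1
        simp only [default]
        have : (![z ⟨0, hn⟩] : Fin 1 → F) 0 = algebraMap ℂ F c := by simpa using hc
        rw [this]
        exact isAlgebraic_algebraMap c
      obtain ⟨D, hDM, hD0⟩ := hex
      refine ⟨⟨⟨fun i => D (Sum.elim z y i), D, fun i => rfl⟩, ?_⟩, ?_⟩
      · rw [LinearMap.mem_ker]
        funext i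
        show D (y i) / K i - D (z i) = 0
        rw [hKy D i 0 (hD D hDM i)]
        simp [om0]
      · intro h
        apply hD0
        have := congrArg (fun u => (u.1.1 : Fin n ⊕ Fin n → F) (Sum.inl ⟨0, hn⟩)) h
        exact this
    have h3 := LinearMap.finrank_range_add_finrank_ker ρ
    rw [hsurj, finrank_top, Module.finrank_fintype_fun_eq_card, Fintype.card_fin] at h3
    omega
  · right
    obtain ⟨i, k, hik, φ, hφ, hφu⟩ := hlink
    refine ⟨i, k, hik, φ, hφ, ?_⟩
    intro u hu
    rw [hU] at hu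
    induction hu using Submodule.span_induction with
    | mem u hu =>
      obtain ⟨hu1, c, rfl⟩ := hu
      intro l
      have hc : (fun j k => c (j, k)) ∈ Hspace z p q r := hu1
      have h1 := hφu _ hc
      have h2 := congrFun h1 l
      have h3 : (fun m => c (i, m)) = ∑ m, c (i, m) • Pi.single m (1 : ℂ) := by
        funext j
        simp [Finset.sum_apply, Pi.single_apply]
      rw [h3] at h2
      rw [map_sum] at h2
      simp only [map_smul, Finset.sum_apply, Pi.smul_apply, smul_eq_mul] at h2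
      show algebraMap ℂ F _ = _
      rw [h2, map_sum]
      refine Finset.sum_congr rfl fun m _ => ?_
      rw [map_mul, mul_comm]
    | zero => intro l; simp
    | add u u' _ _ h1 h2 =>
      intro l
      simp only [Pi.add_apply, h1 l, h2 l, mul_add, Finset.sum_add_distrib]
    | smul c u _ h1 =>
      intro l
      simp only [Pi.smul_apply, smul_eq_mul, h1 l, Finset.mul_sum]
      refine Finset.sum_congr rfl fun m _ => ?_
      ring

end Pool.Agent.Lib.MP_47914d_nt
end

section
/-!
The linked case of the Ax-Schanuel theorem, algebraic part: two linked solutions differ by a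
constant Möbius transformation.
-/
set_option autoImplicit false

open Complex

namespace Pool.Agent.Lib.MP_47914d_nt

variable {F : Type} [Field F] [Algebra ℂ F]

theorem dep2_of_der (hE : SpecExt) {y x : F} (h : ∀ δ : Derivation ℂ F F, δ y = 0 → δ x = 0) :
    ¬ AlgebraicIndependent ℂ ![y, x] := by
  intro hAI
  obtain ⟨δ, hδ⟩ := hE F (Fin 2) _ hAI ![0, 1]
  have h0 : δ y = 0 := hδ 0
  have h1 : δ x = 1 := hδ 1
  rw [h δ h0] at h1
  exact zero_ne_one h1

theorem dep3_of_der (hE : SpecExt) {y y' x : F}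
    (h : ∀ δ : Derivation ℂ F F, δ y = 0 → δ y' = 0 → δ x = 0) :
    ¬ AlgebraicIndependent ℂ ![y, y', x] := by
  intro hAI
  obtain ⟨δ, hδ⟩ := hE F (Fin 3) _ hAI ![0, 0, 1]
  have h0 : δ y = 0 := hδ 0
  have h1 : δ y' = 0 := hδ 1
  have h2 : δ x = 1 := hδ 2
  rw [h δ h0 h1] at h2
  exact zero_ne_one h2

/-- `y` is transcendental. -/
theorem y_trans (hE : SpecExt) {z p q r y : F} (h : AlgebraicIndependent ℂ ![z, p, q, r])
    (hy : y * (q ^ 3 - r ^ 2) = 1728 * q ^ 3) : Transcendental ℂ y := by
  have hchar : CharZero F := charZero_of_injective_algebraMap (algebraMap ℂ F).injective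
  obtain ⟨δ, hδ⟩ := hE F (Fin 4) _ h ![1, p ^ 2 - q, 4 * (p * q - r), 6 * (p * r - q ^ 2)]
  have h0 : δ z = 1 := hδ 0
  have h1 : δ p = p ^ 2 - q := hδ 1
  have h2 : δ q = 4 * (p * q - r) := hδ 2
  have h3 : δ r = 6 * (p * r - q ^ 2) := hδ 3
  have hW : IsW δ z p q r 0 := by
    constructor
    · simp [h0, h1, om0, om1]
    · simp [h0, h2, om0, om1]
    · simp [h0, h3, om0, om1]
  have h5 := delta_y hy hW
  intro halg
  have hK : δ y = 0 := by
    apply der_zero_of_alg ⊥ (x := y)
    · exact halg.extendScalars (S := (⊥ : IntermediateField ℂ F))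
        (algebraMap ℂ (⊥ : IntermediateField ℂ F)).injective
    · intro a ha
      obtain ⟨c, rfl⟩ := IntermediateField.mem_bot.mp ha
      exact δ.map_algebraMap c
  rw [hK, h0] at h5
  simp only [om0, Pi.zero_apply, zero_mul, add_zero, mul_one] at h5
  have hq := q_ne h
  have hr := r_ne h
  have : (-20736 : F) * (q ^ 2 * r) ≠ 0 :=
    mul_ne_zero (by norm_num) (mul_ne_zero (pow_ne_zero _ hq) hr)
  exact this h5.symm

theorem ai_singleton {y : F} : AlgebraicIndependent ℂ ![y] ↔ Transcendental ℂ y := by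
  rw [algebraicIndependent_unique_type_iff]
  simp

/-- Two solutions with the same symmetries coincide. -/
theorem gauge_eq (hE : SpecExt) (h0 : SpecDer0) (hSt : SpecStepC) (hRi : SpecRicc)
    (hNo : SpecNoRicc) (hGa : SpecGauge) (M : Set (Derivation ℂ F F))
    (hker : ∀ f, (∀ D ∈ M, D f = 0) → ∃ c : ℂ, f = algebraMap ℂ F c)
    {z p q r y z' p' q' r' y' : F}
    (hD : ∀ D ∈ M, IsW D z p q r 0)
    (hAI : AlgebraicIndependent ℂ ![z, p, q, r])
    (hAI' : AlgebraicIndependent ℂ ![z', p', q', r'])
    (hy : y * (q ^ 3 - r ^ 2) = 1728 * q ^ 3)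
    (hy' : y' * (q' ^ 3 - r' ^ 2) = 1728 * q' ^ 3)
    (hW : ∀ (δ : Derivation ℂ F F) (w : Fin 3 → F), IsW δ z p q r w → IsW δ z' p' q' r' w) :
    z = z' := by
  rcases hGa F z p q r y z' p' q' r' y' hAI hAI' hy hy' hW with h | ⟨b, c, c', hb, hG⟩
  · exact h
  exfalso
  have hty := y_trans hE hAI hy
  have hty' := y_trans hE hAI' hy'
  by_cases hyy : AlgebraicIndependent ℂ ![y, y']
  · -- independent
    have hdep : ¬ AlgebraicIndependent ℂ ![y, y', c] := by
      apply dep3_of_der hE
      intro δ h1 h2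
      rw [(hG δ).g1, h1, h2]
      simp
    obtain ⟨c1, hc1, hc2⟩ := hRi F y y' c hyy hdep (by
      intro δ h1
      rw [(hG δ).g1, h1]
      simp)
    exact hNo F M z p q r y hker hD hy hAI ⟨c1, hc1, hc2⟩
  · apply hb
    have hyy0 : ∀ δ : Derivation ℂ F F, δ y = 0 → δ y' = 0 := fun δ hδ =>
      h0 F y y' (ai_singleton.mpr hty) hyy δ hδ
    apply hSt F y y' b c c' hty hty' hyy
    · apply dep2_of_der hE
      intro δ h1
      rw [(hG δ).g3, h1, hyy0 δ h1]
      simp
    · apply dep2_of_der hE
      intro δ h1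
      rw [(hG δ).g1, h1, hyy0 δ h1]
      simp
    · apply dep2_of_der hE
      intro δ h1
      rw [(hG δ).g2, h1, hyy0 δ h1]
      simp
    · exact hG

/-- Linked solutions differ by a constant Möbius transformation, and their `y`-values are
algebraically dependent. -/
theorem link_alg (hE : SpecExt) (h0 : SpecDer0) (hSt : SpecStepC) (hRi : SpecRicc)
    (hNo : SpecNoRicc) (hGa : SpecGauge) (hTw : SpecTwist) (hA : SpecAut)
    (M : Set (Derivation ℂ F F))
    (hker : ∀ f, (∀ D ∈ M, D f = 0) → ∃ c : ℂ, f = algebraMap ℂ F c)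
    {n : ℕ} {z p q r y : Fin n → F}
    (hD : ∀ D ∈ M, ∀ i, IsW D (z i) (p i) (q i) (r i) 0)
    (hy : ∀ i, y i * (q i ^ 3 - r i ^ 2) = 1728 * q i ^ 3)
    (hAI : ∀ i, AlgebraicIndependent ℂ ![z i, p i, q i, r i]) {i k : Fin n}
    (φ : (Fin 3 → ℂ) ≃ₗ[ℂ] (Fin 3 → ℂ)) (hφ : ∀ u v, φ (br u v) = br (φ u) (φ v))
    (hU : ∀ u ∈ Uspace z p q r, ∀ l, u (k, l) =
        ∑ m, algebraMap ℂ F (φ (Pi.single m 1) l) * u (i, m)) :
    ∃ α β γ δ : ℂ, α * δ - β * γ = 1 ∧
      (algebraMap ℂ F γ * z i + algebraMap ℂ F δ) * z k =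
        algebraMap ℂ F α * z i + algebraMap ℂ F β ∧
      ¬ AlgebraicIndependent ℂ ![y i, y k] := by
  obtain ⟨α, β, γ, δ, hdet, e0, e1, e2⟩ := hA φ hφ
  have hs0 : (Pi.single 0 1 : Fin 3 → ℂ) = ![1, 0, 0] := by
    funext j; fin_cases j <;> simp
  have hs1 : (Pi.single 1 1 : Fin 3 → ℂ) = ![0, 1, 0] := by
    funext j; fin_cases j <;> simp
  have hs2 : (Pi.single 2 1 : Fin 3 → ℂ) = ![0, 0, 1] := by
    funext j; fin_cases j <;> simp
  have htw := fun (δ' : Derivation ℂ F F) (w : Fin 3 → F) =>
    hTw F (z i) (p i) (q i) (r i) α β γ δ δ' w hdet (hAI i)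
  simp only at htw
  set a := algebraMap ℂ F α with ha
  set b := algebraMap ℂ F β with hb
  set c := algebraMap ℂ F γ with hc
  set d := algebraMap ℂ F δ with hd
  have hcd : c * z i + d ≠ 0 := (htw 0 0).1
  have hAI1 := (htw 0 0).2.1
  have hW1 := fun δ' w => (htw δ' w).2.2
  set z1 := (a * z i + b) / (c * z i + d) with hz1
  set p1 := (c * z i + d) ^ 2 * p i + c * (c * z i + d) with hp1
  set q1 := (c * z i + d) ^ 4 * q i with hq1
  set r1 := (c * z i + d) ^ 6 * r i with hr1
  have hy1 : y i * (q1 ^ 3 - r1 ^ 2) = 1728 * q1 ^ 3 := by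
    rw [hq1, hr1]
    linear_combination (c * z i + d) ^ 12 * hy i
  -- all symmetries of the twisted solution are symmetries of the other one
  have hsym : ∀ (δ' : Derivation ℂ F F) (w : Fin 3 → F), IsW δ' z1 p1 q1 r1 w →
      IsW δ' (z k) (p k) (q k) (r k) w := by
    intro δ' w hw
    have hex : ∀ j, ∃ u : Fin 3 → F, IsW δ' (z j) (p j) (q j) (r j) u := fun j =>
      exists_isW δ' _ _ _ _ (disc_ne (hAI j))
    choose u hu using hex
    have h1 := hW1 δ' (u i) (hu i)
    have h2 := isW_unique (disc_ne hAI1) hw h1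
    have h3 := hU (fun jl => u jl.1 jl.2) ⟨δ', hu⟩
    have em : algebraMap ℂ F 2 = 2 := map_ofNat _ 2
    have h4 : w = u k := by
      rw [h2]
      funext l
      rw [show u k l = _ from h3 l, Fin.sum_univ_three, hs0, hs1, hs2, e0, e1, e2]
      fin_cases l
      · simp [ha, hb, hc, hd, em]
        ring
      · simp [ha, hb, hc, hd, em]
        ring
      · simp [ha, hb, hc, hd, em]
        ring
    rw [h4]
    exact hu k
  have hD1 : ∀ D ∈ M, IsW D z1 p1 q1 r1 0 := by
    intro D hDM
    have h1 := hW1 D 0 (hD D hDM i)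
    simpa using h1
  have hz : z1 = z k := gauge_eq hE h0 hSt hRi hNo hGa M hker hD1 hAI1 (hAI k) hy1 (hy k) hsym
  refine ⟨α, β, γ, δ, hdet, ?_, ?_⟩
  · rw [← hz, hz1]
    rw [mul_div_cancel₀ _ hcd]
  · apply dep2_of_der hE
    intro δ' hδ'
    obtain ⟨w, hw⟩ := exists_isW δ' z1 p1 q1 r1 (disc_ne hAI1)
    have hwk := hsym δ' w hw
    have h1 := delta_y hy1 hw
    rw [hδ', zero_mul] at h1
    have hchar : CharZero F := charZero_of_injective_algebraMap (algebraMap ℂ F).injective
    have h2 : δ' z1 + om0 w z1 = 0 := by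
      have hq := q_ne hAI1
      have hr := r_ne hAI1
      have h3 : (-20736 : F) * (q1 ^ 2 * r1) ≠ 0 :=
        mul_ne_zero (by norm_num) (mul_ne_zero (pow_ne_zero _ hq) hr)
      rcases mul_eq_zero.mp h1.symm with h | h
      · exact absurd h h3
      · exact h
    have h3 := delta_y (hy k) hwk
    rw [← hz, h2, mul_zero] at h3
    rcases mul_eq_zero.mp h3 with h | h
    · exact h
    · exact absurd h (disc_ne (hAI k))

end Pool.Agent.Lib.MP_47914d_nt
end

section
/-!
Modules GAUGE and TWIST: the gauge transformation between two solutions with the same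
infinitesimal symmetries, and the action of constant Moebius transformations.
-/
set_option autoImplicit false

namespace Pool.Agent.Lib.MP_47914d_nt

section

variable {F : Type} [Field F] [Algebra ℂ F]

theorem charZero_F (F : Type) [Field F] [Algebra ℂ F] : CharZero F :=
  charZero_of_injective_algebraMap (algebraMap ℂ F).injective

theorem y_ne {q r y : F} (hq : q ≠ 0)
    (hy : y * (q ^ 3 - r ^ 2) = 1728 * q ^ 3) : y ≠ 0 := by
  have := charZero_F F
  rintro rfl
  have h1 : (1728 : F) * q ^ 3 = 0 := by rw [← hy]; ring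
  exact (mul_ne_zero (by norm_num) (pow_ne_zero 3 hq)) h1

theorem y_sub_ne {q r y : F} (hr : r ≠ 0)
    (hy : y * (q ^ 3 - r ^ 2) = 1728 * q ^ 3) : y - 1728 ≠ 0 := by
  have := charZero_F F
  intro h
  have h1 : (1728 : F) * r ^ 2 = 0 := by linear_combination (q ^ 3 - r ^ 2) * h - hy
  exact (mul_ne_zero (by norm_num) (pow_ne_zero 2 hr)) h1

theorem kap_ne {q r y : F} (hq : q ≠ 0) (hr : r ≠ 0) (hy0 : y ≠ 0) : -12 * y * r / q ≠ 0 := by
  have := charZero_F F
  exact div_ne_zero (mul_ne_zero (mul_ne_zero (by norm_num) hy0) hr) hq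

theorem R1_kap {q r y : F} (hq : q ≠ 0) (hr : r ≠ 0)
    (hy : y * (q ^ 3 - r ^ 2) = 1728 * q ^ 3) :
    R1 y * (-12 * y * r / q) = -6 * q ^ 2 / r - 8 * r / q := by
  have := charZero_F F
  have h0 := y_ne hq hy
  have h1 := y_sub_ne hr hy
  unfold R1
  field_simp
  linear_combination 36 * hy

theorem V1_kap {q r y : F} (hq : q ≠ 0) (hr : r ≠ 0)
    (hy : y * (q ^ 3 - r ^ 2) = 1728 * q ^ 3) :
    V1 y * (-12 * y * r / q) ^ 2 = q := by
  have := charZero_F F
  have h0 := y_ne hq hy
  have h1 := y_sub_ne hr hy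
  unfold V1
  field_simp
  linear_combination (-144) * hy

/-- The two basic differential equations. -/
theorem basic_der {δ : Derivation ℂ F F} {z p q r y : F} {w : Fin 3 → F} (hq : q ≠ 0)
    (hr : r ≠ 0) (hd : q ^ 3 - r ^ 2 ≠ 0) (hy : y * (q ^ 3 - r ^ 2) = 1728 * q ^ 3)
    (h : IsW δ z p q r w) :
    δ y = -12 * y * r / q * (δ z + om0 w z) ∧
    δ (-12 * y * r / q) = -12 * y * r / q * (2 * p * (δ z + om0 w z) + om1 w z + R1 y * δ y) := by
  have := charZero_F F
  have e12 : δ (-12 : F) = 0 := by
    have := δ.map_intCast (-12); simpa using this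
  have e1728 : δ (1728 : F) = 0 := by
    have := δ.map_natCast 1728; simpa using this
  have h1 : δ y * (q ^ 3 - r ^ 2) + y * (3 * q ^ 2 * δ q - 2 * r * δ r) =
      5184 * q ^ 2 * δ q := by
    have h2 := congrArg δ hy
    rw [Derivation.leibniz, Derivation.leibniz, map_sub, Derivation.leibniz_pow,
      Derivation.leibniz_pow, e1728] at h2
    simp only [smul_eq_mul, nsmul_eq_mul, mul_zero, add_zero] at h2
    push_cast at h2
    linear_combination h2
  have h3 : q * δ y = -12 * y * r * (δ z + om0 w z) := by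
    apply mul_left_cancel₀ hd
    linear_combination q * h1 - 3 * δ q * hy + (-3 * y * r ^ 2) * h.hq + (2 * y * q * r) * h.hr
  have h4 : δ y = -12 * y * r / q * (δ z + om0 w z) := by
    field_simp
    linear_combination h3
  refine ⟨h4, ?_⟩
  have h5 : δ (-12 * y * r / q) * q + (-12 * y * r / q) * δ q = -12 * (δ y * r + y * δ r) := by
    have h6 : (-12 * y * r / q) * q = -12 * y * r := by field_simp
    have h7 := congrArg δ h6
    rw [Derivation.leibniz, Derivation.leibniz (a := -12 * y), Derivation.leibniz (a := -12),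
      e12] at h7
    simp only [smul_eq_mul, mul_zero, add_zero] at h7
    linear_combination h7
  have h8 : R1 y * δ y = (-6 * q ^ 2 / r - 8 * r / q) * (δ z + om0 w z) := by
    rw [h4, ← R1_kap hq hr hy]
    ring
  have h9 : (-12 * y * r / q) * q = -12 * y * r := by field_simp
  apply mul_right_cancel₀ hq
  rw [h8]
  rw [h.hq, h.hr, h4] at h5
  field_simp at h5 ⊢
  linear_combination h5

/-- The Riccati equation of the gauge transformation. -/
theorem gauge_c {δ : Derivation ℂ F F} {z z' p q y y' κ κ' R V : F} {w : Fin 3 → F}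
    (he : z' - z ≠ 0) (hκ0 : κ ≠ 0) (hκ0' : κ' ≠ 0)
    (hy : δ y = κ * (δ z + om0 w z)) (hy' : δ y' = κ' * (δ z' + om0 w z'))
    (hκ : δ κ = κ * (2 * p * (δ z + om0 w z) + om1 w z + R * δ y))
    (hp : δ p = (p ^ 2 - q) * (δ z + om0 w z) + om1 w z * p + w 2) (hV : V * κ ^ 2 = q) :
    δ ((1 - (z' - z) * p) / ((z' - z) * κ)) =
      (((1 - (z' - z) * p) / ((z' - z) * κ)) ^ 2 - R * ((1 - (z' - z) * p) / ((z' - z) * κ)) + V) *
        δ y - δ y' / ((z' - z) ^ 2 * κ * κ') := by
  set c := (1 - (z' - z) * p) / ((z' - z) * κ) with hc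
  have hek : (z' - z) * κ ≠ 0 := mul_ne_zero he hκ0
  have h1 : c * ((z' - z) * κ) = 1 - (z' - z) * p := by rw [hc]; field_simp
  have h2 := congrArg δ h1
  simp only [Derivation.leibniz, map_sub, Derivation.map_one_eq_zero, smul_eq_mul] at h2
  have h3 : c = 1 / ((z' - z) * κ) - p / κ := by rw [hc]; field_simp
  apply mul_left_cancel₀ hek
  have h4 : (z' - z) * κ * δ c = -(δ z' - δ z) * p - (z' - z) * δ p -
      c * ((δ z' - δ z) * κ + (z' - z) * δ κ) := by linear_combination h2
  rw [h4, hκ, hp, hy', hy, ← hV, h3]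
  unfold om0 om1
  field_simp
  ring

/-- The equation of the off-diagonal coefficient of the gauge transformation. -/
theorem gauge_b {δ : Derivation ℂ F F} {z z' p p' y y' κ κ' R R' : F} {w : Fin 3 → F}
    (he : z' - z ≠ 0) (hκ0 : κ ≠ 0) (hκ0' : κ' ≠ 0)
    (hy : δ y = κ * (δ z + om0 w z)) (hy' : δ y' = κ' * (δ z' + om0 w z'))
    (hκ : δ κ = κ * (2 * p * (δ z + om0 w z) + om1 w z + R * δ y))
    (hκ' : δ κ' = κ' * (2 * p' * (δ z' + om0 w z') + om1 w z' + R' * δ y')) :
    δ ((z' - z) ^ 2 * κ * κ') = (z' - z) ^ 2 * κ * κ' *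
      ((R - 2 * ((1 - (z' - z) * p) / ((z' - z) * κ))) * δ y +
        (R' - 2 * ((-1 - (z' - z) * p') / ((z' - z) * κ'))) * δ y') := by
  simp only [Derivation.leibniz, Derivation.leibniz_pow, map_sub, smul_eq_mul, nsmul_eq_mul, hκ,
    hκ']
  rw [hy, hy']
  unfold om0 om1
  field_simp
  push_cast
  ring

end

theorem specGauge : SpecGauge := by
  intro F _ _ z p q r y z' p' q' r' y' h h' hy hy' hW
  have := charZero_F F
  by_cases hzz : z = z'
  · exact Or.inl hzz
  refine Or.inr ?_
  have he : z' - z ≠ 0 := sub_ne_zero.2 (Ne.symm hzz)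
  have he' : z - z' ≠ 0 := sub_ne_zero.2 hzz
  have hq := q_ne h
  have hr := r_ne h
  have hd := disc_ne h
  have hq' := q_ne h'
  have hr' := r_ne h'
  have hd' := disc_ne h'
  have hκ0 := kap_ne hq hr (y_ne hq hy)
  have hκ0' := kap_ne hq' hr' (y_ne hq' hy')
  refine ⟨(z' - z) ^ 2 * (-12 * y * r / q) * (-12 * y' * r' / q'),
    (1 - (z' - z) * p) / ((z' - z) * (-12 * y * r / q)),
    (-1 - (z' - z) * p') / ((z' - z) * (-12 * y' * r' / q')),
    mul_ne_zero (mul_ne_zero (pow_ne_zero 2 he) hκ0) hκ0', fun δ => ?_⟩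
  obtain ⟨w, hw⟩ := exists_isW δ z p q r hd
  have hw' := hW δ w hw
  obtain ⟨a1, a2⟩ := basic_der hq hr hd hy hw
  obtain ⟨b1, b2⟩ := basic_der hq' hr' hd' hy' hw'
  refine ⟨?_, ?_, ?_⟩
  · exact gauge_c he hκ0 hκ0' a1 b1 a2 hw.hp (V1_kap hq hr hy)
  · have h1 := gauge_c he' hκ0' hκ0 b1 a1 b2 hw'.hp (V1_kap hq' hr' hy')
    have h2 : (1 - (z - z') * p') / ((z - z') * (-12 * y' * r' / q')) =
        (-1 - (z' - z) * p') / ((z' - z) * (-12 * y' * r' / q')) := by
      rw [div_eq_div_iff (mul_ne_zero he' hκ0') (mul_ne_zero he hκ0')]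
      ring
    rw [h2] at h1
    rw [h1]
    congr 2
    ring
  · exact gauge_b he hκ0 hκ0' a1 b1 a2 b2

section

variable {F : Type} [Field F] [Algebra ℂ F]

/-- The twisted vector field. -/
def twistW (a b c d : F) (w : Fin 3 → F) : Fin 3 → F :=
  w 0 • ![a ^ 2, -2 * a * c, c ^ 2] + w 1 • ![-(a * b), a * d + b * c, -(c * d)] +
    w 2 • ![b ^ 2, -2 * b * d, d ^ 2]

omit [Algebra ℂ F] in
theorem twist_om0 {a b c d z : F} (w : Fin 3 → F) (hdet : a * d - b * c = 1)
    (hD : c * z + d ≠ 0) :
    om0 (twistW a b c d w) ((a * z + b) / (c * z + d)) = om0 w z / (c * z + d) ^ 2 := by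
  have h1 : a * (c * z + d) - c * (a * z + b) = 1 := by linear_combination hdet
  have h2 : d * (a * z + b) - b * (c * z + d) = z := by linear_combination z * hdet
  have h3 : om0 (twistW a b c d w) ((a * z + b) / (c * z + d)) =
      (w 0 * (a * (c * z + d) - c * (a * z + b)) ^ 2 +
        w 1 * ((a * (c * z + d) - c * (a * z + b)) * (d * (a * z + b) - b * (c * z + d))) +
        w 2 * (d * (a * z + b) - b * (c * z + d)) ^ 2) / (c * z + d) ^ 2 := by
    simp only [om0, twistW, Pi.add_apply, Pi.smul_apply, smul_eq_mul, Matrix.cons_val_zero,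
      Matrix.cons_val_one, Matrix.cons_val]
    field_simp
    ring
  rw [h3, h1, h2]
  simp only [om0]
  ring

omit [Algebra ℂ F] in
theorem twist_om1 {a b c d z : F} (w : Fin 3 → F) (hdet : a * d - b * c = 1)
    (hD : c * z + d ≠ 0) :
    om1 (twistW a b c d w) ((a * z + b) / (c * z + d)) =
      om1 w z - 2 * c * om0 w z / (c * z + d) := by
  have h1 : a * (c * z + d) - c * (a * z + b) = 1 := by linear_combination hdet
  have h2 : d * (a * z + b) - b * (c * z + d) = z := by linear_combination z * hdet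
  have h3 : om1 (twistW a b c d w) ((a * z + b) / (c * z + d)) =
      (-2 * c * w 0 * (a * (c * z + d) - c * (a * z + b)) +
        w 1 * (d * (a * (c * z + d) - c * (a * z + b)) -
          c * (d * (a * z + b) - b * (c * z + d))) +
        2 * d * w 2 * (d * (a * z + b) - b * (c * z + d))) / (c * z + d) := by
    simp only [om1, twistW, Pi.add_apply, Pi.smul_apply, smul_eq_mul, Matrix.cons_val_zero,
      Matrix.cons_val_one, Matrix.cons_val]
    field_simp
    ring
  rw [h3, h1, h2]
  simp only [om0, om1]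
  field_simp
  ring

theorem der_mob {δ : Derivation ℂ F F} {a b c d z : F} (ha : δ a = 0) (hb : δ b = 0)
    (hc : δ c = 0) (hd : δ d = 0) (hdet : a * d - b * c = 1) (hD : c * z + d ≠ 0) :
    δ ((a * z + b) / (c * z + d)) = δ z / (c * z + d) ^ 2 := by
  have h1 : (a * z + b) / (c * z + d) * (c * z + d) = a * z + b := div_mul_cancel₀ _ hD
  have h2 := congrArg δ h1
  simp only [Derivation.leibniz, map_add, smul_eq_mul, ha, hb, hc, hd, mul_zero, add_zero] at h2
  have h3 : (c * z + d) ^ 2 * δ ((a * z + b) / (c * z + d)) = δ z := by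
    have h4 : (c * z + d) ^ 2 * δ ((a * z + b) / (c * z + d)) =
        (c * z + d) * (a * δ z) - (a * z + b) / (c * z + d) * (c * z + d) * (c * δ z) := by
      linear_combination (c * z + d) * h2
    rw [h4, h1]
    linear_combination (δ z) * hdet
  rw [eq_div_iff (pow_ne_zero 2 hD)]
  linear_combination h3

theorem twist_isW {δ : Derivation ℂ F F} {a b c d z p q r : F} {w : Fin 3 → F} (ha : δ a = 0)
    (hb : δ b = 0) (hc : δ c = 0) (hd : δ d = 0) (hdet : a * d - b * c = 1)
    (hD : c * z + d ≠ 0) (h : IsW δ z p q r w) :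
    IsW δ ((a * z + b) / (c * z + d)) ((c * z + d) ^ 2 * p + c * (c * z + d))
      ((c * z + d) ^ 4 * q) ((c * z + d) ^ 6 * r) (twistW a b c d w) := by
  have h2 : twistW a b c d w 2 = c ^ 2 * w 0 - c * d * w 1 + d ^ 2 * w 2 := by
    simp only [twistW, Pi.add_apply, Pi.smul_apply, smul_eq_mul, Matrix.cons_val]
    ring
  constructor
  · rw [twist_om0 w hdet hD, twist_om1 w hdet hD, der_mob ha hb hc hd hdet hD, h2]
    simp only [Derivation.leibniz, Derivation.leibniz_pow, map_add, smul_eq_mul, nsmul_eq_mul,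
      hc, hd, h.hp, om0, om1]
    field_simp
    push_cast
    ring
  · rw [twist_om0 w hdet hD, twist_om1 w hdet hD, der_mob ha hb hc hd hdet hD]
    simp only [Derivation.leibniz, Derivation.leibniz_pow, map_add, smul_eq_mul, nsmul_eq_mul,
      hc, hd, h.hq, om0, om1]
    field_simp
    push_cast
    ring
  · rw [twist_om0 w hdet hD, twist_om1 w hdet hD, der_mob ha hb hc hd hdet hD]
    simp only [Derivation.leibniz, Derivation.leibniz_pow, map_add, smul_eq_mul, nsmul_eq_mul,
      hc, hd, h.hr, om0, om1]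
    field_simp
    push_cast
    ring

end

theorem specTwist : SpecTwist := by
  intro F _ _ z p q r α β γ δ' δ w hdet hai a b c d
  have h0 : a * d - b * c = 1 := by
    have h1 := congrArg (algebraMap ℂ F) hdet
    rw [map_sub, map_mul, map_mul, map_one] at h1
    exact h1
  have hz : Transcendental ℂ z := by
    have := z_trans hai
    rw [algebraicIndependent_unique_type_iff] at this
    simpa using this
  have hD : c * z + d ≠ 0 := by
    intro h
    by_cases hγ : γ = 0
    · have hc : c = 0 := by simp only [c, hγ, map_zero]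
      rw [hc, zero_mul, zero_add] at h
      rw [hc, h] at h0
      simp at h0
    · have hc : c ≠ 0 := by
        simp only [c]
        rwa [Ne, map_eq_zero]
      have h1 : z = algebraMap ℂ F (-δ' / γ) := by
        rw [map_div₀, map_neg]
        change z = -d / c
        field_simp
        linear_combination h
      exact hz (h1 ▸ isAlgebraic_algebraMap _)
  refine ⟨hD, ?_, fun h => ?_⟩
  · have ha' : ∀ (e : Derivation ℂ F F) (x : ℂ), e (algebraMap ℂ F x) = 0 := fun e x =>
      e.map_algebraMap x
    have ht : AlgebraicIndependent ℂ ![(a * z + b) / (c * z + d)] := by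
      obtain ⟨e, he⟩ := specExt F (Fin 4) ![z, p, q, r] hai ![(c * z + d) ^ 2, 0, 0, 0]
      have hez : e z = (c * z + d) ^ 2 := by simpa using he 0
      refine t_trans (D := e) ?_
      rw [der_mob (ha' e α) (ha' e β) (ha' e γ) (ha' e δ') h0 hD, hez]
      exact div_self (pow_ne_zero 2 hD)
    have hy := specDerAI F (Fin 3) ((a * z + b) / (c * z + d))
      ![(c * z + d) ^ 2 * p + c * (c * z + d), (c * z + d) ^ 4 * q, (c * z + d) ^ 6 * r] ht
      (fun v => by
        obtain ⟨e, he⟩ := specExt F (Fin 4) ![z, p, q, r] hai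
          ![0, v 0 / (c * z + d) ^ 2, v 1 / (c * z + d) ^ 4, v 2 / (c * z + d) ^ 6]
        have hez : e z = 0 := by simpa using he 0
        have hep : e p = v 0 / (c * z + d) ^ 2 := by simpa using he 1
        have heq : e q = v 1 / (c * z + d) ^ 4 := by simpa using he 2
        have her : e r = v 2 / (c * z + d) ^ 6 := by simpa using he 3
        have hc : e c = 0 := ha' e γ
        have hd : e d = 0 := ha' e δ'
        refine ⟨e, ?_, fun i => ?_⟩
        · rw [der_mob (ha' e α) (ha' e β) (ha' e γ) (ha' e δ') h0 hD, hez]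
          simp
        · fin_cases i
          · simp only [Fin.zero_eta, Matrix.cons_val_zero, Derivation.leibniz,
              Derivation.leibniz_pow, map_add, smul_eq_mul, nsmul_eq_mul, hc, hd, hez, hep]
            field_simp
            ring
          · simp only [Fin.mk_one, Matrix.cons_val_one, Matrix.cons_val_zero, Derivation.leibniz,
              Derivation.leibniz_pow, map_add, smul_eq_mul, nsmul_eq_mul, hc, hd, hez, heq]
            field_simp
            ring
          · simp only [Fin.reduceFinMk, Matrix.cons_val, Derivation.leibniz,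
              Derivation.leibniz_pow, map_add, smul_eq_mul, nsmul_eq_mul, hc, hd, hez, her]
            field_simp
            ring)
    have h1 := hy.comp (finSuccEquiv 3) (finSuccEquiv 3).injective
    convert h1 using 1
    funext i
    fin_cases i <;> rfl
  · exact twist_isW (δ.map_algebraMap α) (δ.map_algebraMap β) (δ.map_algebraMap γ)
      (δ.map_algebraMap δ') h0 hD h

end Pool.Agent.Lib.MP_47914d_nt
end

section
/-!
Module NORICC: the Riccati equation has no algebraic solution.
-/
set_option autoImplicit false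

open Polynomial

namespace Pool.Agent.Lib.MP_47914d_nt

namespace NoRicc

theorem der_inv {K : Type} [Field K] [Algebra ℂ K] (δ : Derivation ℂ K K) (x : K) (hx : x ≠ 0) :
    δ x⁻¹ = - δ x / x ^ 2 := by
  have h := δ.leibniz x x⁻¹
  rw [mul_inv_cancel₀ hx, Derivation.map_one_eq_zero] at h
  simp only [smul_eq_mul] at h
  have : x * δ x⁻¹ = - (x⁻¹ * δ x) := by linear_combination -h
  field_simp
  field_simp at this
  linear_combination this

/-- An algebraic element killed by all the extensions of the derivations in `M` is constant. -/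
theorem const_of_alg {F K : Type} [Field F] [Algebra ℂ F] [Field K] [Algebra ℂ K] [Algebra F K]
    [IsScalarTower ℂ F K] [Algebra.IsAlgebraic F K]
    (M : Set (Derivation ℂ F F))
    (hM : ∀ f, (∀ D ∈ M, D f = 0) → ∃ c : ℂ, f = algebraMap ℂ F c) (x : K)
    (hx : ∀ D ∈ M, ∃ D' : Derivation ℂ K K, (∀ a, D' (algebraMap F K a) = algebraMap F K (D a)) ∧
      D' x = 0) : ∃ c : ℂ, x = algebraMap ℂ K c := by
  classical
  have hint : IsIntegral F x := (Algebra.IsAlgebraic.isAlgebraic x).isIntegral
  set p := minpoly F x with hp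
  have hpm : p.Monic := minpoly.monic hint
  -- the coefficients are constant
  have hcoef : ∀ n, ∃ c : ℂ, p.coeff n = algebraMap ℂ F c := by
    intro n
    apply hM
    intro D hD
    obtain ⟨D', hD', hDx⟩ := hx D hD
    -- the coefficientwise derivative has smaller degree and kills `x`
    set q : F[X] := ∑ n ∈ Finset.range p.natDegree, monomial n (D (p.coeff n)) with hq
    have hqx : aeval x q = 0 := by
      have h1 : aeval x p = 0 := minpoly.aeval F x
      have h2 := congrArg D' h1
      rw [map_zero, aeval_eq_sum_range, map_sum, Finset.sum_range_succ,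
        hpm.coeff_natDegree, one_smul, Derivation.leibniz_pow, hDx, smul_zero, smul_zero,
        add_zero] at h2
      rw [hq, map_sum, ← h2]
      refine Finset.sum_congr rfl fun m _ => ?_
      rw [aeval_monomial, Algebra.smul_def, Derivation.leibniz, Derivation.leibniz_pow, hDx,
        smul_zero, smul_zero, smul_zero, zero_add, hD', smul_eq_mul, mul_comm]
    have hq0 : q = 0 := by
      by_contra hne
      have h1 : p.degree ≤ q.degree := minpoly.degree_le_of_ne_zero F x hne hqx
      have h2 : q.degree < p.degree := by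
        rw [degree_eq_natDegree hpm.ne_zero]
        refine lt_of_le_of_lt (degree_sum_le _ _) ?_
        rw [Finset.sup_lt_iff (WithBot.bot_lt_coe _)]
        intro m hm
        exact lt_of_le_of_lt (degree_monomial_le _ _) (by exact_mod_cast Finset.mem_range.1 hm)
      exact absurd h1 (not_le.2 h2)
    by_cases hn : n < p.natDegree
    · have h3 : q.coeff n = D (p.coeff n) := by
        rw [hq, finsetSum_coeff]
        simp only [coeff_monomial]
        rw [Finset.sum_ite_eq' (Finset.range p.natDegree) n (fun m => D (p.coeff m)),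
          if_pos (Finset.mem_range.2 hn)]
      rw [← h3, hq0, coeff_zero]
    · push Not at hn
      rcases hn.lt_or_eq with hn | hn
      · rw [coeff_eq_zero_of_natDegree_lt hn, map_zero]
      · rw [← hn, hpm.coeff_natDegree, Derivation.map_one_eq_zero]
  have hlift : p ∈ lifts (algebraMap ℂ F) := by
    rw [lifts_iff_coeff_lifts]
    intro n
    obtain ⟨c, hc⟩ := hcoef n
    exact ⟨c, hc.symm⟩
  obtain ⟨p', hp', -, hp'm⟩ := lifts_and_degree_eq_and_monic hlift hpm
  have hx' : aeval x p' = 0 := by
    rw [← aeval_map_algebraMap F, hp']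
    exact minpoly.aeval F x
  have hxint : IsIntegral ℂ x := ⟨p', hp'm, hx'⟩
  have hdeg : (minpoly ℂ x).degree = 1 :=
    IsAlgClosed.degree_eq_one_of_irreducible ℂ (minpoly.irreducible hxint)
  obtain ⟨c, hc⟩ := minpoly.mem_range_of_degree_eq_one ℂ x hdeg
  exact ⟨c, hc.symm⟩

end NoRicc

open NoRicc in
theorem specNoRicc (hE : SpecDerExt) (hX : SpecExt) : SpecNoRicc := by
  intro F _ _ M z p q r y hM hIs hy hind
  suffices H : ∀ (K : Type) [Field K] [Algebra ℂ K] [Algebra F K] [IsScalarTower ℂ F K]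
      [Algebra.IsAlgebraic F K], ¬ ∃ c' : K, 
      ∀ δ : Derivation ℂ K K,
        δ c' = (c' ^ 2 - R1 (algebraMap F K y) * c' +
          V1 (algebraMap F K y)) * δ (algebraMap F K y) by
    rintro ⟨c', -, hc'⟩
    exact H (AlgebraicClosure F) ⟨c', hc'⟩
  intro K _ _ _ _ _
  rintro ⟨c', hc'⟩
  have : CharZero F := charZero_of_injective_algebraMap (algebraMap ℂ F).injective
  have : CharZero K := charZero_of_injective_algebraMap (algebraMap ℂ K).injective
  set φ := algebraMap F K with hφ
  have hφi : Function.Injective φ := φ.injective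
  have hindK : AlgebraicIndependent ℂ ![φ z, φ p, φ q, φ r] := by
    have h1 := hind.map' (f := IsScalarTower.toAlgHom ℂ F K) hφi
    convert h1 using 1
    ext i
    fin_cases i <;> rfl
  -- nonvanishing
  have hq : q ≠ 0 := by
    have := hind.ne_zero 2
    exact this
  have hr : r ≠ 0 := by
    have := hind.ne_zero 3
    exact this
  have hΔ : q ^ 3 - r ^ 2 ≠ 0 := by
    intro h0
    rw [h0, mul_zero] at hy
    have : q ^ 3 = 0 := by
      rcases mul_eq_zero.1 hy.symm with h | h
      · norm_num at h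
      · exact h
    exact hq (pow_eq_zero_iff (by norm_num) |>.1 this)
  set Z := φ z with hZd
  set P := φ p with hPd
  set Q := φ q with hQd
  set R := φ r with hRd
  set Y := φ y with hYd
  have hQ : Q ≠ 0 := by rw [hQd]; exact (map_ne_zero φ).2 hq
  have hR : R ≠ 0 := by rw [hRd]; exact (map_ne_zero φ).2 hr
  have hD : Q ^ 3 - R ^ 2 ≠ 0 := by
    rw [hQd, hRd, ← map_pow, ← map_pow, ← map_sub]
    exact (map_ne_zero φ).2 hΔ
  have hYe : Y * (Q ^ 3 - R ^ 2) = 1728 * Q ^ 3 := by
    have h1 := congrArg φ hy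
    rw [map_mul, map_sub, map_pow, map_pow, map_mul, map_pow, map_ofNat] at h1
    exact h1
  have hYf : Y = 1728 * Q ^ 3 / (Q ^ 3 - R ^ 2) := by
    rw [eq_div_iff hD, hYe]
  have hY1 : Y - 1728 = 1728 * R ^ 2 / (Q ^ 3 - R ^ 2) := by
    rw [eq_div_iff hD]
    linear_combination hYe
  have hY0 : Y ≠ 0 := by
    intro h0
    rw [h0, zero_mul] at hYe
    exact mul_ne_zero (by norm_num) (pow_ne_zero 3 hQ) hYe.symm
  set κ : K := -12 * Y * R / Q with hκ
  have hκ0 : κ ≠ 0 := by
    rw [hκ]
    exact div_ne_zero (mul_ne_zero (mul_ne_zero (by norm_num) hY0) hR) hQ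
  have hκe : κ * Q = -12 * Y * R := by rw [hκ]; field_simp
  have f2 : κ ^ 2 * V1 Y = Q := by
    rw [hκ, V1, hY1, hYf]
    field_simp
    norm_num
  have f1 : κ * R1 Y * Q * R = -6 * Q ^ 3 - 8 * R ^ 2 := by
    rw [hκ, R1, hY1, hYf]
    field_simp
    ring
  -- the derivative of the equation of `Y`
  have hYder : ∀ δ : Derivation ℂ K K, δ Y * (Q ^ 3 - R ^ 2) + Y * (3 * Q ^ 2 * δ Q -
      2 * R * δ R) = 1728 * (3 * Q ^ 2 * δ Q) := by
    intro δ
    have h1 := congrArg δ hYe
    have h1728 : δ (1728 : K) = 0 := by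
      have := δ.map_natCast 1728
      exact_mod_cast this
    rw [Derivation.leibniz, Derivation.leibniz, map_sub, Derivation.leibniz_pow,
      Derivation.leibniz_pow, h1728] at h1
    simp only [smul_eq_mul, nsmul_eq_mul] at h1
    push_cast at h1
    linear_combination h1
  have hκder : ∀ δ : Derivation ℂ K K, δ κ * Q + κ * δ Q = -12 * (δ Y * R + Y * δ R) := by
    intro δ
    have h1 := congrArg δ hκe
    have h12 : δ (-12 : K) = 0 := by
      have := δ.map_natCast 12
      rw [map_neg]
      simpa using this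
    rw [Derivation.leibniz, Derivation.leibniz, Derivation.leibniz, h12] at h1
    simp only [smul_eq_mul] at h1
    linear_combination h1
  set g : K := c' * κ + P with hg
  have hgD : ∀ δ : Derivation ℂ K K, δ P = (P ^ 2 - Q) * δ Z → δ Q = 4 * (P * Q - R) * δ Z →
      δ R = 6 * (P * R - Q ^ 2) * δ Z → δ g = g ^ 2 * δ Z := by
    intro δ h1 h2 h3
    have hY' : δ Y = κ * δ Z := by
      have h4 := hYder δ
      rw [h2, h3] at h4
      have h5 : (δ Y - κ * δ Z) * (Q ^ 3 - R ^ 2) = 0 := by
        have h6 : κ * Q * (Q ^ 3 - R ^ 2) = -12 * (1728 * Q ^ 3) * R := by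
          rw [hκe]; linear_combination (-12 * R) * hYe
        have h7 : κ * (Q ^ 3 - R ^ 2) = -12 * 1728 * Q ^ 2 * R := by
          apply mul_left_cancel₀ hQ
          linear_combination h6
        linear_combination h4 - δ Z * h7 - 12 * P * δ Z * hYe
      rcases mul_eq_zero.1 h5 with h6 | h6
      · exact sub_eq_zero.1 h6
      · exact absurd h6 hD
    have hκ' : δ κ = κ * (2 * P + κ * R1 Y) * δ Z := by
      have h4 := hκder δ
      rw [h2, h3, hY'] at h4
      apply mul_right_cancel₀ hQ
      apply mul_right_cancel₀ hR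
      linear_combination R * h4 - 6 * (P * R - Q ^ 2) * δ Z * hκe - κ * δ Z * f1
    rw [hg, map_add, Derivation.leibniz, hc' δ, hY', hκ', h1]
    simp only [smul_eq_mul]
    linear_combination δ Z * f2
  -- the special derivation
  obtain ⟨δ, hδ⟩ := hX K (Fin 4) ![Z, P, Q, R] hindK ![0, 1, 0, 0]
  have d0 : δ Z = 0 := hδ 0
  have d1 : δ P = 1 := hδ 1
  have d2 : δ Q = 0 := hδ 2
  have d3 : δ R = 0 := hδ 3
  have dY : δ Y = 0 := by
    have h1 := hYder δ
    rw [d2, d3] at h1
    have h2 : δ Y * (Q ^ 3 - R ^ 2) = 0 := by linear_combination h1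
    exact (mul_eq_zero.1 h2).resolve_right hD
  have dκ : δ κ = 0 := by
    have h1 := hκder δ
    rw [d2, d3, dY] at h1
    have h2 : δ κ * Q = 0 := by linear_combination h1
    exact (mul_eq_zero.1 h2).resolve_right hQ
  have dg : δ g = 1 := by
    rw [hg, map_add, Derivation.leibniz, hc' δ, dY, dκ, d1]
    simp
  by_cases hg0 : g = 0
  · rw [hg0, map_zero] at dg
    exact zero_ne_one dg
  obtain ⟨c0, hc0⟩ := const_of_alg M hM (Z + g⁻¹) (by
    intro D hD
    obtain ⟨D', hD'⟩ := hE.ext F K (fun a => φ (D a)) (fun a b => by rw [map_add, map_add])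
      (fun a b => by
        rw [Derivation.leibniz, map_add, smul_eq_mul, smul_eq_mul, map_mul, map_mul])
      (fun c => by rw [Derivation.map_algebraMap, map_zero])
    refine ⟨D', hD', ?_⟩
    have hW := hIs D hD
    have n4 : φ 4 = 4 := map_ofNat φ 4
    have n6 : φ 6 = 6 := map_ofNat φ 6
    have h0 : om0 (0 : Fin 3 → F) z = 0 := by simp [om0]
    have h1 : om1 (0 : Fin 3 → F) z = 0 := by simp [om1]
    have e1 : D' P = (P ^ 2 - Q) * D' Z := by
      have h2 := hW.hp
      rw [h0, h1] at h2
      rw [hPd, hZd, hD', hD', h2]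
      simp [hQd]
    have e2 : D' Q = 4 * (P * Q - R) * D' Z := by
      have h2 := hW.hq
      rw [h0, h1] at h2
      rw [hQd, hZd, hD', hD', h2]
      simp [hPd, hRd, n4]
    have e3 : D' R = 6 * (P * R - Q ^ 2) * D' Z := by
      have h2 := hW.hr
      rw [h0, h1] at h2
      rw [hRd, hZd, hD', hD', h2]
      simp [hPd, hQd, n6]
    rw [map_add, der_inv D' g hg0, hgD D' e1 e2 e3]
    field_simp
    ring)
  have h1 := congrArg δ hc0
  rw [map_add, der_inv δ g hg0, d0, dg, Derivation.map_algebraMap, zero_add] at h1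
  have h2 : (1 : K) / g ^ 2 = 0 := by
    rw [neg_div, neg_eq_zero] at h1
    exact h1
  exact (div_ne_zero one_ne_zero (pow_ne_zero 2 hg0)) h2

end Pool.Agent.Lib.MP_47914d_nt
end

section
/-!
Module RICC: specialization of an algebraic solution of the Riccati equation with a parameter.
-/
set_option autoImplicit false

open Polynomial

namespace Pool.Agent.Lib.MP_47914d_nt

namespace Ricc

/-- Pseudo-division. -/
theorem pseudo_div {A : Type} [CommRing A] [IsDomain A] (P : A[X]) (hP : P ≠ 0) :
    ∀ (n : ℕ) (G : A[X]), G.natDegree ≤ n → ∃ (k : ℕ) (S R : A[X]),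
      C P.leadingCoeff ^ k * G = P * S + R ∧ (R = 0 ∨ R.natDegree < P.natDegree) := by
  intro n
  induction n using Nat.strong_induction_on with
  | _ n ih =>
    intro G hG
    by_cases h0 : G = 0
    · exact ⟨0, 0, 0, by simp [h0], Or.inl rfl⟩
    by_cases hlt : G.natDegree < P.natDegree
    · exact ⟨0, 0, G, by simp, Or.inr hlt⟩
    push Not at hlt
    by_cases hd0 : P.natDegree = 0
    · refine ⟨1, G, 0, ?_, Or.inl rfl⟩
      rw [eq_C_of_natDegree_eq_zero hd0]
      simp
    have hl : P.leadingCoeff ≠ 0 := leadingCoeff_ne_zero.2 hP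
    have hg : G.leadingCoeff ≠ 0 := leadingCoeff_ne_zero.2 h0
    set U : A[X] := C P.leadingCoeff * G with hU
    set V : A[X] := C G.leadingCoeff * X ^ (G.natDegree - P.natDegree) * P with hV
    have hUne : U ≠ 0 := mul_ne_zero (C_ne_zero.2 hl) h0
    have hUd : U.degree = G.degree := by rw [hU, degree_C_mul hl]
    have hVd : V.degree = G.degree := by
      rw [hV, mul_assoc, degree_C_mul hg, degree_mul, degree_X_pow, degree_eq_natDegree hP,
        degree_eq_natDegree h0]
      norm_cast
      omega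
    have hlc : U.leadingCoeff = V.leadingCoeff := by
      rw [hU, hV]
      simp only [leadingCoeff_mul, leadingCoeff_C, leadingCoeff_pow, leadingCoeff_X, one_pow,
        mul_one]
      ring
    have hlt' : (U - V).degree < U.degree := degree_sub_lt_left (hUd.trans hVd.symm) hUne hlc
    by_cases hW : U - V = 0
    · refine ⟨1, C G.leadingCoeff * X ^ (G.natDegree - P.natDegree), 0, ?_, Or.inl rfl⟩
      rw [sub_eq_zero] at hW
      rw [pow_one, ← hU, hW, hV]
      ring
    have hWd : (U - V).natDegree < G.natDegree := by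
      have h1 : (U - V).degree < G.degree := hUd ▸ hlt'
      exact natDegree_lt_natDegree hW h1
    obtain ⟨k, S, R, hS, hR⟩ := ih (U - V).natDegree (lt_of_lt_of_le hWd hG) (U - V) le_rfl
    refine ⟨k + 1, S + C P.leadingCoeff ^ k * (C G.leadingCoeff *
      X ^ (G.natDegree - P.natDegree)), R, ?_, hR⟩
    have : C P.leadingCoeff ^ (k + 1) * G = C P.leadingCoeff ^ k * (U - V) +
        C P.leadingCoeff ^ k * V := by rw [hU]; ring
    rw [this, hS, hV]
    ring

/-- A nonzero polynomial of minimal degree vanishing at `c`. -/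
theorem exists_min {A F : Type} [CommRing A] [IsDomain A] [Field F] (ev : A →+* F) (c : F)
    (h : ∃ P : A[X], P ≠ 0 ∧ P.eval₂ ev c = 0) :
    ∃ P : A[X], P ≠ 0 ∧ P.eval₂ ev c = 0 ∧
      ∀ R : A[X], R ≠ 0 → R.eval₂ ev c = 0 → P.natDegree ≤ R.natDegree := by
  classical
  let S : Set A[X] := {P | P ≠ 0 ∧ P.eval₂ ev c = 0}
  have hS : S.Nonempty := h
  have h1 : Function.argminOn (fun P : A[X] => P.natDegree) S hS ∈ S :=
    Function.argminOn_mem _ S hS
  exact ⟨_, h1.1, h1.2, fun R hR hR' => Function.argminOn_le (fun P : A[X] => P.natDegree) S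
    (show R ∈ S from ⟨hR, hR'⟩)⟩

/-- The coefficientwise derivative. -/
noncomputable def cd {A : Type} [CommRing A] (d : A → A) (P : A[X]) : A[X] :=
  ∑ n ∈ Finset.range (P.natDegree + 1), monomial n (d (P.coeff n))

/-- The chain rule. -/
theorem chain {A K : Type} [CommRing A] [Field K] [Algebra ℂ K] (d : A → A) (f : A →+* K)
    (δ : Derivation ℂ K K) (e : K) (h : ∀ a, δ (f a) = f (d a) * e) (P : A[X]) (t : K) :
    δ (P.eval₂ f t) = (cd d P).eval₂ f t * e + (derivative P).eval₂ f t * δ t := by
  rw [eval₂_eq_sum_range, map_sum, cd, eval₂_finsetSum]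
  have h2 : (derivative P).eval₂ f t =
      ∑ n ∈ Finset.range (P.natDegree + 1), f (P.coeff n) * (n * t ^ (n - 1)) := by
    conv_lhs => rw [P.as_sum_range' (P.natDegree + 1) (Nat.lt_succ_self _)]
    rw [derivative_sum, eval₂_finsetSum]
    refine Finset.sum_congr rfl fun n _ => ?_
    rw [derivative_monomial, eval₂_monomial, map_mul, map_natCast]
    ring
  rw [h2, Finset.sum_mul, Finset.sum_mul, ← Finset.sum_add_distrib]
  refine Finset.sum_congr rfl fun n _ => ?_
  rw [Derivation.leibniz, h, Derivation.leibniz_pow, eval₂_monomial]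
  simp only [smul_eq_mul, nsmul_eq_mul]
  ring

/-- Nonvanishing after specialization of the second variable. -/
theorem exists_spec {K : Type} [Field K] [Algebra ℂ K] (y : K) (hy : Transcendental ℂ y)
    (q : MvPolynomial (Fin 2) ℂ) (hq : q ≠ 0) :
    ∃ a : ℂ, MvPolynomial.aeval ![y, algebraMap ℂ K a] q ≠ 0 := by
  have h1 : ∃ x : Fin 2 → ℂ, MvPolynomial.eval x q ≠ 0 := by
    by_contra hcon
    push Not at hcon
    exact hq (MvPolynomial.funext fun x => by rw [hcon x, map_zero])
  obtain ⟨x, hx⟩ := h1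
  refine ⟨x 1, fun h0 => hx ?_⟩
  let q' : ℂ[X] := MvPolynomial.aeval ![X, C (x 1)] q
  have h2 : aeval y q' = 0 := by
    rw [← h0]
    change aeval y (MvPolynomial.aeval ![X, C (x 1)] q) = _
    rw [MvPolynomial.comp_aeval_apply]
    congr 2
    ext i
    fin_cases i <;> simp
  have h3 : q' = 0 := by
    by_contra hne
    exact hy ⟨q', hne, h2⟩
  have h4 : aeval (x 0) q' = MvPolynomial.eval x q := by
    change aeval (x 0) (MvPolynomial.aeval ![X, C (x 1)] q) = _
    rw [MvPolynomial.comp_aeval_apply, ← MvPolynomial.coe_aeval_eq_eval]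
    change _ = MvPolynomial.aeval x q
    congr 2
    ext i
    fin_cases i <;> simp
  rw [← h4, h3, map_zero]

/-- An algebraically dependent third element satisfies a polynomial over the first two. -/
theorem exists_poly {F : Type} [Field F] [Algebra ℂ F] (y y' c : F)
    (h : AlgebraicIndependent ℂ ![y, y']) (hc : ¬ AlgebraicIndependent ℂ ![y, y', c]) :
    ∃ P : (MvPolynomial (Fin 2) ℂ)[X], P ≠ 0 ∧
      P.eval₂ (MvPolynomial.aeval ![y, y'] : MvPolynomial (Fin 2) ℂ →ₐ[ℂ] F).toRingHom c = 0 := by
  have h1 : ¬ Transcendental (Algebra.adjoin ℂ (Set.range ![y, y'])) c := by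
    intro h2
    apply hc
    have h3 := (h.option_iff_transcendental c).2 h2
    refine (algebraicIndependent_equiv' (finSuccEquivLast (n := 2)) ?_).2 h3
    ext i
    fin_cases i <;> rfl
  rw [Transcendental, not_not] at h1
  obtain ⟨p, hp, hp'⟩ := h1
  refine ⟨p.map (h.aevalEquiv.symm : _ →+* MvPolynomial (Fin 2) ℂ), ?_, ?_⟩
  · rwa [Ne, Polynomial.map_eq_zero_iff (RingEquiv.injective _)]
  · rw [eval₂_map]
    convert hp' using 1
    rw [aeval_def]
    congr 1
    ext x
    obtain ⟨z, rfl⟩ := h.aevalEquiv.surjective x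
    simp

end Ricc

open Ricc in
theorem specRicc : SpecRicc := by
  intro F _ _ y y' c hyy hc hδ
  classical
  have : CharZero F := charZero_of_injective_algebraMap (algebraMap ℂ F).injective
  set ev : MvPolynomial (Fin 2) ℂ →+* F :=
    (MvPolynomial.aeval ![y, y'] : MvPolynomial (Fin 2) ℂ →ₐ[ℂ] F).toRingHom with hev
  have hevinj : Function.Injective ev := hyy
  obtain ⟨P, hP0, hPc, hmin⟩ := exists_min ev c (exists_poly y y' c hyy hc)
  have hy : Transcendental ℂ y := hyy.transcendental 0
  have hne : ∀ z : ℂ, y ≠ algebraMap ℂ F z := fun z h =>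
    hy (h ▸ isAlgebraic_algebraMap z)
  -- the degree is positive
  have hdeg : P.natDegree ≠ 0 := by
    intro h0
    rw [eq_C_of_natDegree_eq_zero h0, eval₂_C] at hPc
    have h1 : P.coeff 0 = 0 := hevinj (by rw [hPc, map_zero])
    rw [eq_C_of_natDegree_eq_zero h0, h1, map_zero] at hP0
    exact hP0 rfl
  -- the derivative does not vanish
  have hdlt : (derivative P).natDegree < P.natDegree := natDegree_derivative_lt hdeg
  have hd0 : derivative P ≠ 0 := by
    intro h0
    exact hdeg (derivative_eq_zero.1 h0)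
  have hPT : (derivative P).eval₂ ev c ≠ 0 := fun h0 => absurd (hmin _ hd0 h0) (not_le.2 hdlt)
  -- specialization of relations
  have hrel : ∀ G : (MvPolynomial (Fin 2) ℂ)[X], G.eval₂ ev c = 0 → ∀ (K : Type) [Field K]
      (ψ : MvPolynomial (Fin 2) ℂ →+* K) (t : K), P.eval₂ ψ t = 0 → ψ P.leadingCoeff ≠ 0 →
      G.eval₂ ψ t = 0 := by
    intro G hG K _ ψ t ht hl
    obtain ⟨k, S, R, hS, hR⟩ := pseudo_div P hP0 G.natDegree G le_rfl
    have h1 := congrArg (eval₂ ev c) hS
    rw [eval₂_mul, eval₂_add, eval₂_mul, hG, hPc, mul_zero, zero_mul, zero_add] at h1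
    have hR0 : R = 0 := by
      rcases hR with hR | hR
      · exact hR
      · by_contra hne
        exact absurd (hmin R hne h1.symm) (not_le.2 hR)
    have h2 := congrArg (eval₂ ψ t) hS
    rw [hR0, add_zero, eval₂_mul, eval₂_mul, ht, zero_mul, ← C_pow, eval₂_C, map_pow] at h2
    rcases mul_eq_zero.1 h2 with h3 | h3
    · exact absurd h3 (pow_ne_zero _ hl)
    · exact h3
  -- the inverse of the derivative
  obtain ⟨V, r, hr, hV⟩ : ∃ (V : (MvPolynomial (Fin 2) ℂ)[X]) (r : MvPolynomial (Fin 2) ℂ),
      r ≠ 0 ∧ V.eval₂ ev c * (derivative P).eval₂ ev c = ev r := by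
    let : Algebra (MvPolynomial (Fin 2) ℂ) F := ev.toAlgebra
    have hcalg : IsAlgebraic (MvPolynomial (Fin 2) ℂ) c := ⟨P, hP0, hPc⟩
    have hx : IsAlgebraic (MvPolynomial (Fin 2) ℂ) (aeval c (derivative P)) :=
      Algebra.isAlgebraic_adjoin_singleton_iff.mpr hcalg _ (aeval_mem_adjoin_singleton _ _)
    obtain ⟨t, ht, r, hr, h⟩ := hx.exists_nonzero_eq_adjoin_mul
      (mem_nonZeroDivisors_of_ne_zero hPT)
    obtain ⟨V, rfl⟩ := Algebra.adjoin_mem_exists_aeval _ _ ht
    refine ⟨V.comp (derivative P), r, hr, ?_⟩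
    have h2 : (V.comp (derivative P)).eval₂ ev c = aeval (aeval c (derivative P)) V := by
      change aeval c (V.comp (derivative P)) = _
      rw [aeval_comp]
    rw [h2, mul_comm]
    exact h
  -- the relation
  set s : MvPolynomial (Fin 2) ℂ := 144 * (MvPolynomial.X 0 * (MvPolynomial.X 0 - 1728)) with hs
  set N : (MvPolynomial (Fin 2) ℂ)[X] := C s * X ^ 2 -
    C (168 * MvPolynomial.X 0 - 165888) * X + 1 with hN
  set PY := cd (MvPolynomial.pderiv 0) P with hPY
  have hG : (C s * PY + N * derivative P).eval₂ ev c = 0 := by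
    obtain ⟨δ, hδ'⟩ := specExt F (Fin 2) ![y, y'] hyy ![1, 0]
    have h0 : δ y = 1 := hδ' 0
    have h1 : δ y' = 0 := hδ' 1
    have h2 := chain (MvPolynomial.pderiv 0) ev δ 1 (fun a => by
      have := der_aeval ![y, y'] δ a
      rw [Fin.sum_univ_two] at this
      simp only [Matrix.cons_val_zero, Matrix.cons_val_one, h0, h1, mul_zero, add_zero] at this
      exact this) P c
    rw [hPc, map_zero, mul_one, hδ δ h1, h0, mul_one] at h2
    have hy0 : y ≠ 0 := by simpa using hne 0
    have hy1 : y - 1728 ≠ 0 := by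
      intro h
      exact hne 1728 ((sub_eq_zero.1 h).trans (map_ofNat (algebraMap ℂ F) 1728).symm)
    have h3 : ev s = 144 * (y * (y - 1728)) := by
      simp [hev, hs]
    have h4 : N.eval₂ ev c = 144 * (y * (y - 1728)) * (c ^ 2 - R1 y * c + V1 y) := by
      rw [hN]
      simp only [eval₂_add, eval₂_sub, eval₂_mul, eval₂_C, eval₂_pow, eval₂_X, eval₂_one, h3]
      have h5 : ev (168 * MvPolynomial.X 0 - 165888) = 168 * y - 165888 := by
        simp [hev]
      rw [h5, R1, V1]
      field_simp
      ring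
    rw [eval₂_add, eval₂_mul, eval₂_mul, eval₂_C, h3, h4]
    linear_combination (-144 * (y * (y - 1728))) * h2
  -- choice of the specialization
  suffices H : ∀ (K : Type) [Field K] [Algebra ℂ K] [IsAlgClosed K] (Y : K),
      Transcendental ℂ Y → ∃ t : K, ¬ AlgebraicIndependent ℂ ![Y, t] ∧
        ∀ δ : Derivation ℂ K K, δ t = (t ^ 2 - R1 Y * t + V1 Y) * δ Y by
    refine H (AlgebraicClosure F) (algebraMap F (AlgebraicClosure F) y) ?_
    intro h
    exact hy ((isAlgebraic_algebraMap_iff (algebraMap F (AlgebraicClosure F)).injective).1 h)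
  intro K _ _ _ Y hYt
  have : CharZero K := charZero_of_injective_algebraMap (algebraMap ℂ K).injective
  obtain ⟨a, ha⟩ := exists_spec Y hYt (P.leadingCoeff * r)
    (mul_ne_zero (leadingCoeff_ne_zero.2 hP0) hr)
  set ψ : MvPolynomial (Fin 2) ℂ →+* K :=
    (MvPolynomial.aeval ![Y, algebraMap ℂ K a] : MvPolynomial (Fin 2) ℂ →ₐ[ℂ] K).toRingHom
    with hψ
  have hl : ψ P.leadingCoeff ≠ 0 := by
    intro h0
    apply ha
    rw [map_mul]
    change ψ P.leadingCoeff * _ = 0
    rw [h0, zero_mul]
  have hr' : ψ r ≠ 0 := by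
    intro h0
    apply ha
    rw [map_mul]
    change _ * ψ r = 0
    rw [h0, mul_zero]
  obtain ⟨t, ht⟩ : ∃ t : K, P.eval₂ ψ t = 0 := by
    have h1 : (P.map ψ).natDegree = P.natDegree := natDegree_map_of_leadingCoeff_ne_zero _ hl
    have h2 : (P.map ψ).degree ≠ 0 := by
      intro h3
      apply hdeg
      rw [← h1]
      exact natDegree_eq_of_degree_eq_some h3
    obtain ⟨t, ht⟩ := IsAlgClosed.exists_root (P.map ψ) h2
    exact ⟨t, by rwa [IsRoot, eval_map] at ht⟩
  have hPT' : (derivative P).eval₂ ψ t ≠ 0 := by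
    intro h0
    have h1 := hrel (V * derivative P - C r) (by
      rw [eval₂_sub, eval₂_mul, eval₂_C, hV, sub_self]) K ψ t ht hl
    rw [eval₂_sub, eval₂_mul, eval₂_C, h0, mul_zero, zero_sub, neg_eq_zero] at h1
    exact hr' h1
  have hG' := hrel _ hG K ψ t ht hl
  have hY0 : Y ≠ 0 := by
    intro h
    apply hYt
    rw [h]
    exact isAlgebraic_zero
  have hY1 : Y - 1728 ≠ 0 := by
    intro h
    apply hYt
    rw [sub_eq_zero.1 h]
    have : (1728 : K) = algebraMap ℂ K 1728 := (map_ofNat (algebraMap ℂ K) 1728).symm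
    rw [this]
    exact isAlgebraic_algebraMap _
  have hs' : ψ s = 144 * (Y * (Y - 1728)) := by
    simp [hψ, hs]
  have hN' : N.eval₂ ψ t = 144 * (Y * (Y - 1728)) * (t ^ 2 - R1 Y * t + V1 Y) := by
    rw [hN]
    simp only [eval₂_add, eval₂_sub, eval₂_mul, eval₂_C, eval₂_pow, eval₂_X, eval₂_one, hs']
    have h5 : ψ (168 * MvPolynomial.X 0 - 165888) = 168 * Y - 165888 := by
      simp [hψ]
    rw [h5, R1, V1]
    field_simp
    ring
  have key : ∀ δ : Derivation ℂ K K, δ t = (t ^ 2 - R1 Y * t + V1 Y) * δ Y := by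
    intro δ
    have h2 := chain (MvPolynomial.pderiv 0) ψ δ (δ Y) (fun b => by
      have := der_aeval ![Y, algebraMap ℂ K a] δ b
      rw [Fin.sum_univ_two] at this
      simp only [Matrix.cons_val_zero, Matrix.cons_val_one, Derivation.map_algebraMap, mul_zero,
        add_zero] at this
      exact this) P t
    rw [ht, map_zero, ← hPY] at h2
    rw [eval₂_add, eval₂_mul, eval₂_mul, eval₂_C, hs', hN'] at hG'
    have h3 : (derivative P).eval₂ ψ t * (δ t - (t ^ 2 - R1 Y * t + V1 Y) * δ Y) = 0 := by
      have h4 : (144 * (Y * (Y - 1728))) * ((derivative P).eval₂ ψ t *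
          (δ t - (t ^ 2 - R1 Y * t + V1 Y) * δ Y)) = 0 := by
        linear_combination (-(144 * (Y * (Y - 1728)))) * h2 - δ Y * hG'
      rcases mul_eq_zero.1 h4 with h5 | h5
      · exact absurd h5 (mul_ne_zero (by norm_num) (mul_ne_zero hY0 hY1))
      · exact h5
    rcases mul_eq_zero.1 h3 with h5 | h5
    · exact absurd h5 hPT'
    · exact sub_eq_zero.1 h5
  refine ⟨t, ?_, key⟩
  intro hind
  obtain ⟨δ, hδ'⟩ := specExt K (Fin 2) ![Y, t] hind ![0, 1]
  have h0 : δ Y = 0 := hδ' 0
  have h1 : δ t = 1 := hδ' 1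
  have h2 := key δ
  rw [h0, h1, mul_zero] at h2
  exact one_ne_zero h2

end Pool.Agent.Lib.MP_47914d_nt
end
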