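import Pool.Agent.Lib.MP_47914d_nt.JFormula
import Pool.Agent.Lib.MP_47914d_nt.Defs2
import Pool.Agent.Lib.MP_47914d_nt.InjFull
import Pool.Agent.Lib.MP_47914d_nt.Liouville2
import Pool.Agent.Lib.MP_47914d_nt.DerExt
import Pool.Agent.Lib.MP_47914d_nt.LinkB
import Pool.Agent.Lib.MP_47914d_nt.Ricc
import Pool.Agent.Lib.MP_47914d_nt.Defs3

section
set_option autoImplicit false

open UpperHalfPlane hiding I
open Complex Filter Topology Polynomial
open scoped Real

namespace Pool.Agent.Lib.MP_47914d_nt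

/-- The point `(t, j(ζ₁ t), …, j(ζₙ t))`. -/
noncomputable def ptz {n : ℕ} (ζ : Fin n → ℂ → ℂ) (t : ℂ) (o : Option (Fin n)) : ℂ :=
  o.elim t (fun i => Jc (ζ i t))

lemma aeval_ptz_analyticAt {n : ℕ} (hJ : SpecJ) {ζ : Fin n → ℂ → ℂ} {t : ℂ}
    (hζ : ∀ i, AnalyticAt ℂ (ζ i) t) (him : ∀ i, 0 < (ζ i t).im)
    (P : MvPolynomial (Option (Fin n)) ℤ) :
    AnalyticAt ℂ (fun s => MvPolynomial.aeval (ptz ζ s) P) t := by
  have hJa : ∀ w : ℂ, 0 < w.im → AnalyticAt ℂ Jc w := by
    intro w hw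
    rw [Complex.analyticAt_iff_eventually_differentiableAt]
    filter_upwards [(isOpen_lt continuous_const Complex.continuous_im).mem_nhds hw] with w hw
    exact (hJ.holo).differentiableAt
      ((isOpen_lt continuous_const Complex.continuous_im).mem_nhds hw)
  induction P using MvPolynomial.induction_on with
  | C a => simp only [MvPolynomial.aeval_C]; exact analyticAt_const
  | add p q hp hq => simp only [map_add]; exact hp.add hq
  | mul_X p i hp =>
    simp only [map_mul, MvPolynomial.aeval_X]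
    refine hp.mul ?_
    rcases i with _ | i
    · exact analyticAt_id
    · exact (hJa _ (him i)).comp (hζ i)

theorem core2 (hJ : SpecJ) (hCM : SpecCM) (hL : SpecLiouville)
    {n : ℕ} (ζ : Fin n → ℂ → ℂ) (θ : ℂ)
    (hζ : ∀ i, AnalyticAt ℂ (ζ i) θ) (him : ∀ i, 0 < (ζ i θ).im)
    (hF : ∀ P : MvPolynomial (Option (Fin n)) ℂ, P ≠ 0 →
      ¬ ∀ᶠ t in 𝓝 θ, MvPolynomial.eval (ptz ζ t) P = 0)
    (happ : ∀ A : ℕ, ∃ H : ℕ, 2 ≤ H ∧ ∃ κ : ℂ, κ ≠ θ ∧ ‖κ - θ‖ < Real.exp (-(H : ℝ) ^ A) ∧
      QuadHeight κ H ∧ ∀ i, QuadHeight (ζ i κ) H) :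
    AlgebraicIndependent ℚ (ptz ζ θ) := by
  refine algebraicIndependent_of_int _ fun P hP0 hP => ?_
  obtain ⟨C1, hC1⟩ := hCM
  obtain ⟨C2, hC2⟩ := hL (n + 1) (MvPolynomial.rename (finSuccEquiv n).symm P)
  set F : ℂ → ℂ := fun t => MvPolynomial.aeval (ptz ζ t) P with hFdef
  -- open neighbourhood where all images are in the upper half plane
  have hU : ∀ᶠ t in 𝓝 θ, ∀ i, 0 < (ζ i t).im := by
    rw [Filter.eventually_all]
    intro i
    exact (hζ i).continuousAt.eventually
      ((isOpen_lt continuous_const Complex.continuous_im).mem_nhds (him i))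
  have han : AnalyticAt ℂ F θ := aeval_ptz_analyticAt hJ hζ him P
  have hdiff : DifferentiableAt ℂ F θ := han.differentiableAt
  -- Lipschitz bound
  obtain ⟨L, hLip⟩ := (hdiff.isBigO_sub).bound
  have hF0 : F θ = 0 := hP
  simp only [hF0, sub_zero] at hLip
  -- values at good approximations vanish
  have hfreq : ∃ᶠ t in 𝓝[≠] θ, F t = 0 := by
    rw [Filter.frequently_iff]
    intro V hV
    have hall := (hLip.and hU)
    rw [mem_nhdsWithin_iff_eventually] at hV
    obtain ⟨ε, hε, hball⟩ := Metric.eventually_nhds_iff.mp (hall.and hV)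
    -- choose A
    obtain ⟨k, hk⟩ := exists_nat_gt (max (Real.log (|L| + 1)) (-Real.log ε))
    set D : ℕ := (C1 + 2) * C2 with hD
    obtain ⟨H, hH, κ, hκθ, hκ, hq, hqi⟩ := happ (D + k + 1)
    have hHr : (2 : ℝ) ≤ H := by exact_mod_cast hH
    have hH1 : (1 : ℝ) ≤ H := by linarith
    have hkH : (k : ℝ) ≤ (H : ℝ) ^ k := by
      have h1 : (k : ℝ) < (2 : ℝ) ^ k := by exact_mod_cast Nat.lt_two_pow_self
      exact h1.le.trans (pow_le_pow_left₀ (by norm_num) hHr k)
    have hpow1 : (1 : ℝ) ≤ (H : ℝ) ^ D := one_le_pow₀ hH1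
    have hpk : (1 : ℝ) ≤ (H : ℝ) ^ k := one_le_pow₀ hH1
    have hbig : (H : ℝ) ^ D + k ≤ (H : ℝ) ^ (D + k + 1) := by
      have e : (H : ℝ) ^ (D + k + 1) = (H : ℝ) ^ D * (H : ℝ) ^ k * H := by ring
      rw [e]
      have h1 : (H : ℝ) ^ D + (H : ℝ) ^ k ≤ 2 * ((H : ℝ) ^ D * (H : ℝ) ^ k) := by nlinarith
      have h2 : 2 * ((H : ℝ) ^ D * (H : ℝ) ^ k) ≤ (H : ℝ) ^ D * (H : ℝ) ^ k * H := by
        nlinarith [mul_pos (lt_of_lt_of_le one_pos hpow1) (lt_of_lt_of_le one_pos hpk)]
      linarith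
    have hsmall : Real.exp (-(H : ℝ) ^ (D + k + 1)) < ε := by
      have h1 : -(H : ℝ) ^ (D + k + 1) < Real.log ε := by
        have := (max_lt_iff.mp hk).2
        linarith
      calc Real.exp (-(H : ℝ) ^ (D + k + 1)) < Real.exp (Real.log ε) := Real.exp_lt_exp.mpr h1
        _ = ε := Real.exp_log hε
    have hκε : dist κ θ < ε := by
      rw [Complex.dist_eq]; exact hκ.trans hsmall
    obtain ⟨⟨hLκ, hUκ⟩, hVκ⟩ := hball hκε
    refine ⟨κ, hVκ hκθ, ?_⟩
    have hB : 2 ≤ H ^ (C1 + 2) := by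
      calc 2 ≤ H := hH
        _ = H ^ 1 := (pow_one H).symm
        _ ≤ H ^ (C1 + 2) := Nat.pow_le_pow_right (by omega) (by omega)
    have hdata : ∀ j : Fin (n + 1), AlgData ((ptz ζ κ) (finSuccEquiv n j)) (H ^ (C1 + 2)) := by
      intro j
      rcases h : finSuccEquiv n j with _ | i
      · exact (hq.algData hH).mono (Nat.pow_le_pow_right (by omega) (by omega))
      · exact (hC1 H hH _ (hUκ i) (hqi i)).mono
          (Nat.pow_le_pow_right (by omega) (by omega))
    have hval : MvPolynomial.aeval (fun j => (ptz ζ κ) (finSuccEquiv n j))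
        (MvPolynomial.rename (finSuccEquiv n).symm P) = F κ := by
      rw [MvPolynomial.aeval_rename]
      have : (fun j => ptz ζ κ ((finSuccEquiv n) j)) ∘ (finSuccEquiv n).symm =
          ptz ζ κ := by
        funext o
        simp
      rw [this]
    rcases hC2 (H ^ (C1 + 2)) hB _ hdata with h0 | h0
    · rw [hval] at h0; exact h0
    · exfalso
      rw [hval] at h0
      have h1 : ‖F κ‖ ≤ (|L| + 1) * Real.exp (-(H : ℝ) ^ (D + k + 1)) := by
        refine hLκ.trans ?_
        have h2 : L * ‖κ - θ‖ ≤ (|L| + 1) * ‖κ - θ‖ :=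
          mul_le_mul_of_nonneg_right (by linarith [le_abs_self L]) (norm_nonneg _)
        exact h2.trans (mul_le_mul_of_nonneg_left hκ.le (by positivity))
      have h3 : (|L| + 1) * Real.exp (-(H : ℝ) ^ (D + k + 1)) <
          Real.exp (-((H ^ (C1 + 2) : ℕ) : ℝ) ^ C2) := by
        have hL1 : 0 < |L| + 1 := by positivity
        calc (|L| + 1) * Real.exp (-(H : ℝ) ^ (D + k + 1))
            = Real.exp (Real.log (|L| + 1)) * Real.exp (-(H : ℝ) ^ (D + k + 1)) := by
              rw [Real.exp_log hL1]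
          _ = Real.exp (Real.log (|L| + 1) - (H : ℝ) ^ (D + k + 1)) := by
              rw [← Real.exp_add]; ring_nf
          _ < _ := by
              apply Real.exp_lt_exp.mpr
              have h4 := (max_lt_iff.mp hk).1
              have h5 : (((H ^ (C1 + 2) : ℕ) : ℝ)) ^ C2 = (H : ℝ) ^ D := by
                push_cast
                rw [hD, pow_mul]
              rw [h5]
              linarith
      linarith
  have hev : ∀ᶠ t in 𝓝 θ, F t = 0 := han.frequently_zero_iff_eventually_zero.mp hfreq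
  -- contradiction with functional independence
  have hPC : MvPolynomial.map (Int.castRingHom ℂ) P ≠ 0 := by
    intro h
    apply hP0
    exact MvPolynomial.map_injective (Int.castRingHom ℂ) Int.cast_injective (by rw [h, map_zero])
  apply hF _ hPC
  filter_upwards [hev] with t ht
  have e : MvPolynomial.eval (ptz ζ t) (MvPolynomial.map (Int.castRingHom ℂ) P) = F t := by
    rw [MvPolynomial.eval_map, hFdef]
    rfl
  rw [e, ht]

end Pool.Agent.Lib.MP_47914d_nt
end

section
set_option autoImplicit false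

open UpperHalfPlane hiding I
open Complex Filter Topology Polynomial
open scoped Real

namespace Pool.Agent.Lib.MP_47914d_nt

lemma pow_big {H : ℝ} (hH : 2 ≤ H) {D k A : ℕ} (hA : D + k + 1 ≤ A) :
    H ^ D + k ≤ H ^ A := by
  have hH1 : 1 ≤ H := by linarith
  have hkH : (k : ℝ) ≤ H ^ k := by
    have h1 : (k : ℝ) < (2 : ℝ) ^ k := by exact_mod_cast Nat.lt_two_pow_self
    exact h1.le.trans (pow_le_pow_left₀ (by norm_num) hH k)
  have hpow1 : 1 ≤ H ^ D := one_le_pow₀ hH1
  have hpk : 1 ≤ H ^ k := one_le_pow₀ hH1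
  have e : H ^ (D + k + 1) = H ^ D * H ^ k * H := by ring
  have h0 : H ^ (D + k + 1) ≤ H ^ A := pow_le_pow_right₀ hH1 hA
  have h1 : H ^ D + H ^ k ≤ 2 * (H ^ D * H ^ k) := by nlinarith
  have h2 : 2 * (H ^ D * H ^ k) ≤ H ^ D * H ^ k * H := by
    nlinarith [mul_pos (lt_of_lt_of_le one_pos hpow1) (lt_of_lt_of_le one_pos hpk)]
  linarith

/-- Simultaneous approximation by quadratic numbers. -/
def SimApprox {m : ℕ} (z : Fin m → ℂ) : Prop :=
  ∀ A : ℕ, ∃ H : ℕ, 2 ≤ H ∧ ∃ κ : Fin m → ℂ,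
    ∀ i, ‖κ i - z i‖ < Real.exp (-(H : ℝ) ^ A) ∧ QuadHeight (κ i) H

/-- Closeness to `z` in every coordinate for large exponents. -/
lemma close {m : ℕ} (z : Fin m → ℂ) {V : Set (Fin m → ℂ)} (hV : V ∈ 𝓝 z) :
    ∃ A0 : ℕ, ∀ A, A0 ≤ A → ∀ H : ℕ, 2 ≤ H → ∀ κ : Fin m → ℂ,
      (∀ i, ‖κ i - z i‖ < Real.exp (-(H : ℝ) ^ A)) → κ ∈ V := by
  obtain ⟨ε, hε, hball⟩ := Metric.mem_nhds_iff.mp hV
  obtain ⟨k, hk⟩ := exists_nat_gt (-Real.log ε)
  refine ⟨0 + k + 1, fun A hA H hH κ hκ => hball ?_⟩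
  have hHr : (2 : ℝ) ≤ H := by exact_mod_cast hH
  have h1 := pow_big hHr hA
  rw [Metric.mem_ball, dist_pi_lt_iff hε]
  intro i
  rw [Complex.dist_eq]
  refine (hκ i).trans ?_
  calc Real.exp (-(H : ℝ) ^ A) < Real.exp (Real.log ε) := by
        apply Real.exp_lt_exp.mpr
        have : (0 : ℝ) < (H : ℝ) ^ 0 := by positivity
        linarith
    _ = ε := Real.exp_log hε

lemma aeval_diff {m : ℕ} (P : MvPolynomial (Fin m) ℤ) (z : Fin m → ℂ) :
    DifferentiableAt ℂ (fun x : Fin m → ℂ => MvPolynomial.aeval x P) z := by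
  induction P using MvPolynomial.induction_on with
  | C a => simp only [MvPolynomial.aeval_C]; exact differentiableAt_const _
  | add p q hp hq => simp only [map_add]; exact hp.add hq
  | mul_X p i hp =>
    simp only [map_mul, MvPolynomial.aeval_X]
    exact hp.mul (differentiableAt_apply i z)

/-- Integral relations persist at very good approximations. -/
lemma vanish (hL : SpecLiouville) {m : ℕ} (z : Fin m → ℂ) (P : MvPolynomial (Fin m) ℤ)
    (hP : MvPolynomial.aeval z P = 0) :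
    ∃ A0 : ℕ, ∀ A, A0 ≤ A → ∀ H : ℕ, 2 ≤ H → ∀ κ : Fin m → ℂ,
      (∀ i, ‖κ i - z i‖ < Real.exp (-(H : ℝ) ^ A) ∧ QuadHeight (κ i) H) →
      MvPolynomial.aeval κ P = 0 := by
  obtain ⟨C, hC⟩ := hL m P
  obtain ⟨L, hLip⟩ := ((aeval_diff P z).isBigO_sub).bound
  simp only [hP, sub_zero] at hLip
  obtain ⟨A1, hA1⟩ := close z hLip
  obtain ⟨k, hk⟩ := exists_nat_gt (Real.log (|L| + 1))
  refine ⟨max A1 (2 * C + k + 1), fun A hA H hH κ hκ => ?_⟩
  have hHr : (2 : ℝ) ≤ H := by exact_mod_cast hH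
  have hLκ : ‖MvPolynomial.aeval κ P‖ ≤ L * ‖κ - z‖ :=
    hA1 A ((le_max_left _ _).trans hA) H hH κ (fun i => (hκ i).1)
  have hbig := pow_big hHr ((le_max_right _ _).trans hA)
  have hnorm : ‖κ - z‖ ≤ Real.exp (-(H : ℝ) ^ A) := by
    rw [pi_norm_le_iff_of_nonneg (Real.exp_pos _).le]
    intro i
    exact (hκ i).1.le
  rcases hC (H ^ 2) (by nlinarith) κ (fun i => (hκ i).2.algData hH) with h0 | h0
  · exact h0
  · exfalso
    have h1 : ‖MvPolynomial.aeval κ P‖ ≤ (|L| + 1) * Real.exp (-(H : ℝ) ^ A) := by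
      refine hLκ.trans ?_
      have h2 : L * ‖κ - z‖ ≤ (|L| + 1) * ‖κ - z‖ :=
        mul_le_mul_of_nonneg_right (by linarith [le_abs_self L]) (norm_nonneg _)
      exact h2.trans (mul_le_mul_of_nonneg_left hnorm (by positivity))
    have h3 : (|L| + 1) * Real.exp (-(H : ℝ) ^ A) < Real.exp (-((H ^ 2 : ℕ) : ℝ) ^ C) := by
      have hL1 : 0 < |L| + 1 := by positivity
      calc (|L| + 1) * Real.exp (-(H : ℝ) ^ A)
          = Real.exp (Real.log (|L| + 1)) * Real.exp (-(H : ℝ) ^ A) := by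
            rw [Real.exp_log hL1]
        _ = Real.exp (Real.log (|L| + 1) - (H : ℝ) ^ A) := by
            rw [← Real.exp_add]; ring_nf
        _ < _ := by
            apply Real.exp_lt_exp.mpr
            have h5 : (((H ^ 2 : ℕ) : ℝ)) ^ C = (H : ℝ) ^ (2 * C) := by
              push_cast
              rw [pow_mul]
            rw [h5]
            linarith
    linarith

/-- Non-quadratic numbers with very good quadratic approximations are transcendental. -/
lemma transc (hL : SpecLiouville) {m : ℕ} (z : Fin m → ℂ)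
    (hcm : ∀ i, ¬ ∃ a b c : ℤ, (a ≠ 0 ∨ b ≠ 0 ∨ c ≠ 0) ∧
      (a : ℂ) * z i ^ 2 + (b : ℂ) * z i + (c : ℂ) = 0) (happ : SimApprox z) (i : Fin m) :
    Transcendental ℚ (z i) := by
  intro halg
  rw [← IsFractionRing.isAlgebraic_iff ℤ ℚ ℂ] at halg
  obtain ⟨p, hp0, hp⟩ := halg
  set P : MvPolynomial (Fin m) ℤ := Polynomial.aeval (MvPolynomial.X i) p with hPd
  have hPκ : ∀ x : Fin m → ℂ, MvPolynomial.aeval x P = Polynomial.aeval (x i) p := by
    intro x
    rw [hPd, ← Polynomial.aeval_algHom_apply, MvPolynomial.aeval_X]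
  obtain ⟨A1, hA1⟩ := vanish hL z P (by rw [hPκ]; exact hp)
  have hfin : (p.rootSet ℂ \ {z i}).Finite := (Polynomial.rootSet_finite p ℂ).subset Set.sdiff_subset
  have hV : {x : Fin m → ℂ | x i ∉ p.rootSet ℂ \ {z i}} ∈ 𝓝 z := by
    have h1 : (p.rootSet ℂ \ {z i})ᶜ ∈ 𝓝 (z i) := by
      apply hfin.isClosed.isOpen_compl.mem_nhds
      simp
    exact (continuous_apply i).continuousAt.preimage_mem_nhds h1
  obtain ⟨A2, hA2⟩ := close z hV
  obtain ⟨H, hH, κ, hκ⟩ := happ (max A1 A2)
  have h1 := hA1 _ (le_max_left _ _) H hH κ hκ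
  have h2 := hA2 _ (le_max_right _ _) H hH κ (fun i => (hκ i).1)
  rw [hPκ] at h1
  have h3 : κ i = z i := by
    by_contra hne
    apply h2
    refine ⟨?_, hne⟩
    rw [Polynomial.mem_rootSet]
    exact ⟨hp0, h1⟩
  obtain ⟨a, b, c, h0, -, -, -, hq⟩ := (hκ i).2
  rw [h3] at hq
  exact hcm i ⟨a, b, c, h0, hq⟩

theorem curveC (hJ : SpecJ) (hCM : SpecCM) (hL : SpecLiouville) (hALW : SpecALW)
    (hI : SpecImpl) (hS : SpecSep) {n : ℕ} (z : Fin (n + 1) → ℂ)
    (him : ∀ i, 0 < (z i).im)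
    (hcm : ∀ i, ¬ ∃ a b c : ℤ, (a ≠ 0 ∨ b ≠ 0 ∨ c ≠ 0) ∧
      (a : ℂ) * z i ^ 2 + (b : ℂ) * z i + (c : ℂ) = 0)
    (hne : ∀ i k, i ≠ k → ¬ ∃ a b c d : ℚ, 0 < a * d - b * c ∧
      z k * ((c : ℂ) * z i + (d : ℂ)) = (a : ℂ) * z i + (b : ℂ))
    (hdep : ∀ i, ¬ AlgebraicIndependent ℚ ![z 0, z i])
    (happ : SimApprox z) :
    AlgebraicIndependent ℚ (fun o : Option (Fin (n + 1)) => o.elim (z 0) (fun i => Jc (z i))) := by
  have htr := transc hL z hcm happ
  have hsep := fun i => hS (z 0) (z i) (htr 0) (hdep i)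
  choose P hP0 hPd using hsep
  set P' : Fin (n + 1) → MvPolynomial (Fin 2) ℂ := fun i =>
    MvPolynomial.map (Int.castRingHom ℂ) (P i) with hP'
  have hev : ∀ i (a b : ℂ), MvPolynomial.eval ![a, b] (P' i) = MvPolynomial.aeval ![a, b] (P i) := by
    intro i a b
    rw [hP', MvPolynomial.eval_map]
    rfl
  have hev' : ∀ i (a b : ℂ), MvPolynomial.eval ![a, b] (MvPolynomial.pderiv 1 (P' i)) =
      MvPolynomial.aeval ![a, b] (MvPolynomial.pderiv 1 (P i)) := by
    intro i a b
    rw [hP']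
    simp only
    rw [MvPolynomial.pderiv_map, MvPolynomial.eval_map]
    rfl
  have himpl := fun i => hI (P' i) (z 0) (z i) (by rw [hev]; exact hP0 i)
    (by rw [hev']; exact hPd i)
  choose ζ hζan hζ0 hζP hζu using himpl
  -- very good approximations lie on the branch
  have hbr : ∃ A0 : ℕ, ∀ A, A0 ≤ A → ∀ H : ℕ, 2 ≤ H → ∀ κ : Fin (n + 1) → ℂ,
      (∀ i, ‖κ i - z i‖ < Real.exp (-(H : ℝ) ^ A) ∧ QuadHeight (κ i) H) →
      ∀ i, κ i = ζ i (κ 0) := by
    have h1 : ∀ i, ∃ A0 : ℕ, ∀ A, A0 ≤ A → ∀ H : ℕ, 2 ≤ H → ∀ κ : Fin (n + 1) → ℂ,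
        (∀ i, ‖κ i - z i‖ < Real.exp (-(H : ℝ) ^ A) ∧ QuadHeight (κ i) H) →
        κ i = ζ i (κ 0) := by
      intro i
      have hren : ∀ x : Fin (n + 1) → ℂ, MvPolynomial.aeval x
          (MvPolynomial.rename ![0, i] (P i)) = MvPolynomial.aeval ![x 0, x i] (P i) := by
        intro x
        rw [MvPolynomial.aeval_rename]
        congr 2
        funext j
        fin_cases j <;> rfl
      obtain ⟨A1, hA1⟩ := vanish hL z (MvPolynomial.rename ![0, i] (P i)) (by
        rw [hren]; exact hP0 i)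
      have hV : {x : Fin (n + 1) → ℂ | MvPolynomial.eval ![x 0, x i] (P' i) = 0 →
          x i = ζ i (x 0)} ∈ 𝓝 z := by
        have hc : ContinuousAt (fun x : Fin (n + 1) → ℂ => (x 0, x i)) z :=
          ((continuous_apply 0).prodMk (continuous_apply i)).continuousAt
        exact hc.eventually (hζu i)
      obtain ⟨A2, hA2⟩ := close z hV
      refine ⟨max A1 A2, fun A hA H hH κ hκ => ?_⟩
      have h1 := hA1 _ ((le_max_left _ _).trans hA) H hH κ hκ
      have h2 := hA2 _ ((le_max_right _ _).trans hA) H hH κ (fun i => (hκ i).1)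
      rw [hren] at h1
      exact h2 (by rw [hev]; exact h1)
    choose A0 hA0 using h1
    refine ⟨Finset.univ.sup A0, fun A hA H hH κ hκ i => ?_⟩
    exact hA0 i A ((Finset.le_sup (Finset.mem_univ i)).trans hA) H hH κ hκ
  obtain ⟨A0, hA0⟩ := hbr
  have hnoq : ∀ i H, ¬ QuadHeight (z i) H := by
    rintro i H ⟨a, b, c, h0, -, -, -, hq⟩
    exact hcm i ⟨a, b, c, h0, hq⟩
  have hres := core2 hJ hCM hL ζ (z 0) hζan (fun i => by rw [hζ0]; exact him i) ?_ ?_
  · have e : ptz ζ (z 0) = fun o : Option (Fin (n + 1)) => o.elim (z 0) (fun i => Jc (z i)) := by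
      funext o
      rcases o with _ | i
      · rfl
      · simp only [ptz, Option.elim, hζ0]
    rwa [e] at hres
  · -- functional independence
    apply hALW (n + 1) ζ (z 0) hζan (fun i => by rw [hζ0]; exact him i)
    · -- non constant
      intro i hconst
      have hV : {x : Fin (n + 1) → ℂ | ζ i (x 0) = ζ i (z 0)} ∈ 𝓝 z :=
        (continuous_apply 0).continuousAt.eventually hconst
      obtain ⟨A2, hA2⟩ := close z hV
      obtain ⟨H, hH, κ, hκ⟩ := happ (max A0 A2)
      have h1 := hA0 _ (le_max_left _ _) H hH κ hκ i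
      have h2 := hA2 _ (le_max_right _ _) H hH κ (fun i => (hκ i).1)
      simp only [Set.mem_ofPred_eq] at h2
      have h3 : κ i = z i := by rw [h1, h2, hζ0]
      exact hnoq i H (h3 ▸ (hκ i).2)
    · intro i
      refine ⟨P' i, ?_, hζP i⟩
      intro h0
      apply hPd i
      rw [← hev', h0, map_zero, map_zero]
    · intro i k hik
      rintro ⟨a, b, c, d, hdet, hrel⟩
      have h1 := hrel.self_of_nhds
      rw [hζ0, hζ0] at h1
      rcases lt_or_gt_of_ne hdet with hneg | hpos
      · -- negative determinant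
        have hden : (c : ℂ) * z i + d ≠ 0 := by
          intro h0
          rw [h0, mul_zero] at h1
          have h2 : (a : ℂ) * d - b * c = 0 := by
            linear_combination (a : ℂ) * h0 + (c : ℂ) * h1
          have h3 : a * d - b * c = 0 := by exact_mod_cast h2
          exact hdet h3
        have h2 : z k = moeb (a : ℂ) b c d (z i) := by
          rw [moeb, eq_div_iff hden, h1]
        have h3 : (z k).im = Qf (a : ℂ) b c d (z i) / normSq ((c : ℂ) * z i + d) := by
          rw [h2, moeb_im]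
        have h4 : Qf (a : ℂ) b c d (z i) = ((a * d - b * c : ℚ) : ℝ) * (z i).im := by
          rw [Qf]
          simp only [map_add, map_mul, Complex.mul_im, Complex.add_re, Complex.add_im,
            Complex.mul_re, Complex.conj_re, Complex.conj_im]
          simp
          ring
        have h5 : Qf (a : ℂ) b c d (z i) < 0 := by
          rw [h4]
          apply mul_neg_of_neg_of_pos _ (him i)
          exact_mod_cast hneg
        have h6 : (z k).im < 0 := by
          rw [h3]
          exact div_neg_of_neg_of_pos h5 (Complex.normSq_pos.mpr hden)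
        exact absurd (him k) (not_lt.mpr h6.le)
      · exact hne i k hik ⟨a, b, c, d, hpos, h1⟩
  · -- approximations
    intro A
    obtain ⟨H, hH, κ, hκ⟩ := happ (max A0 A)
    have h1 := hA0 _ (le_max_left _ _) H hH κ hκ
    refine ⟨H, hH, κ 0, ?_, ?_, (hκ 0).2, fun i => ?_⟩
    · intro h0
      exact hnoq 0 H (h0 ▸ (hκ 0).2)
    · refine (hκ 0).1.trans_le (Real.exp_le_exp.mpr (neg_le_neg ?_))
      exact pow_le_pow_right₀ (by exact_mod_cast (by omega : 1 ≤ H)) (le_max_right _ _)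
    · rw [← h1 i]
      exact (hκ i).2

end Pool.Agent.Lib.MP_47914d_nt
end

section
set_option autoImplicit false

open Complex Filter Topology

namespace Pool.Agent.Lib.MP_47914d_nt

theorem specMahler_all : SpecMahler := specMahler specRam specJ

theorem specAlg_all : SpecAlg := specAlg specExt specDer0 specDerAI specStab specGour

/-- Ax-Lindemann for curves, unconditionally. -/
theorem specALW_all : SpecALW :=
  specALW specJ specRam specMahler_all specField specAlg_all (specPersist specRam)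
    (specLinkA specRam specMahler_all specFunc_all specAut)
    (specLinkB specRam specJ specMahler_all)
    (specLinkC specRam specJ specMahler_all (specInj specJ))

end Pool.Agent.Lib.MP_47914d_nt
end

section
/-!
Assembly of the quantitative refinement: simultaneous approximation with a fixed exponent.
-/
set_option autoImplicit false

open UpperHalfPlane hiding I
open Complex Filter Topology Polynomial
open scoped Real

namespace Pool.Agent.Lib.MP_47914d_nt

/-- Quadratic numbers of height `H` have controlled algebraic data. -/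
lemma QuadHeight.algD {κ : ℂ} {H : ℕ} (hH : 2 ≤ H) (h : QuadHeight κ H) :
    AlgD κ 2 (2 * H) := by
  obtain ⟨a, b, c, h0, ha, hb, hc, hk⟩ := h
  set F : ℤ[X] := C a * X ^ 2 + C b * X + C c with hF
  have e2 : F.coeff 2 = a := by
    simp only [hF, coeff_add, coeff_C_mul, coeff_X_pow, coeff_X, coeff_C]; norm_num
  have e1 : F.coeff 1 = b := by
    simp only [hF, coeff_add, coeff_C_mul, coeff_X_pow, coeff_X, coeff_C]; norm_num
  have e0 : F.coeff 0 = c := by
    simp only [hF, coeff_add, coeff_C_mul, coeff_X_pow, coeff_X, coeff_C]; norm_num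
  have hF0 : F ≠ 0 := by
    intro h
    rw [h] at e0 e1 e2
    simp only [coeff_zero] at e0 e1 e2
    rcases h0 with h0 | h0 | h0
    · exact h0 e2.symm
    · exact h0 e1.symm
    · exact h0 e0.symm
  have hHr : (2 : ℝ) ≤ H := by exact_mod_cast hH
  have hexp : 2 * (H : ℝ) + 1 ≤ Real.exp ((2 * H : ℕ) : ℝ) := by
    have := Real.add_one_le_exp (((2 * H : ℕ) : ℝ))
    push_cast at this ⊢
    linarith
  have hHe : (H : ℝ) ≤ Real.exp ((2 * H : ℕ) : ℝ) := by nlinarith
  have haR : |(a : ℝ)| ≤ H := by exact_mod_cast ha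
  have hbR : |(b : ℝ)| ≤ H := by exact_mod_cast hb
  have hcR : |(c : ℝ)| ≤ H := by exact_mod_cast hc
  refine ⟨F, hF0, ?_, ?_, ?_, ?_⟩
  · simp only [hF, map_add, map_mul, map_pow, aeval_X, aeval_C]
    simpa using hk
  · rw [hF]; compute_degree
  · have hdeg : F.natDegree ≤ 2 := by
      rw [hF]; compute_degree
    have : |(F.leadingCoeff : ℝ)| ≤ H := by
      rw [leadingCoeff]
      interval_cases F.natDegree
      · rw [e0]; exact hcR
      · rw [e1]; exact hbR
      · rw [e2]; exact haR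
    exact this.trans hHe
  · intro r hr
    have hr2 : aeval r F = 0 := by
      have := (mem_aroots.mp hr).2
      exact this
    simp only [hF, map_add, map_mul, map_pow, aeval_X, aeval_C] at hr2
    have hr3 : (a : ℂ) * r ^ 2 + (b : ℂ) * r + (c : ℂ) = 0 := by simpa using hr2
    by_contra hlt
    push Not at hlt
    have hbig : 2 * (H : ℝ) + 1 < ‖r‖ := lt_of_le_of_lt hexp hlt
    have hr1 : 1 < ‖r‖ := by nlinarith
    rcases eq_or_ne a 0 with rfl | ha0
    · rcases eq_or_ne b 0 with rfl | hb0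
      · have hc0 : c ≠ 0 := by simpa using h0
        simp at hr3
        exact hc0 hr3
      · have h1 : (b : ℂ) * r = -c := by
          have := hr3
          simp only [Int.cast_zero, zero_mul, zero_add] at this
          linear_combination this
        have h2 := congrArg norm h1
        rw [norm_mul, norm_neg, Complex.norm_intCast, Complex.norm_intCast] at h2
        have h3 : (1 : ℝ) ≤ |(b : ℝ)| := by
          exact_mod_cast Int.one_le_abs hb0
        nlinarith [norm_nonneg r]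
    · have h1 : (a : ℂ) * r ^ 2 = -((b : ℂ) * r + c) := by linear_combination hr3
      have h2 := congrArg norm h1
      rw [norm_mul, norm_neg, norm_pow, Complex.norm_intCast] at h2
      have h4 := norm_add_le ((b : ℂ) * r) (c : ℂ)
      rw [norm_mul, Complex.norm_intCast, Complex.norm_intCast] at h4
      have h3 : (1 : ℝ) ≤ |(a : ℝ)| := by
        exact_mod_cast Int.one_le_abs ha0
      have h5 : ‖r‖ ^ 2 ≤ |(a : ℝ)| * ‖r‖ ^ 2 := le_mul_of_one_le_left (by positivity) h3
      have h6 : |(b : ℝ)| * ‖r‖ ≤ H * ‖r‖ := mul_le_mul_of_nonneg_right hbR (norm_nonneg r)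
      have h7 : (H : ℝ) ≤ H * ‖r‖ := le_mul_of_one_le_right (by positivity) hr1.le
      have h8 : ‖r‖ ^ 2 ≤ 2 * H * ‖r‖ := by nlinarith
      have h9 : ‖r‖ ≤ 2 * H := by
        by_contra h
        push Not at h
        nlinarith
      nlinarith

/-- Growth comparison. -/
lemma growth_lt (K a b : ℝ) (hab : a < b) (hb : 0 < b) :
    ∀ᶠ H : ℕ in atTop, K * ((1 + Real.log H) * (H : ℝ) ^ a) + K < (H : ℝ) ^ b := by
  have h1 : (fun x : ℝ => 1 + Real.log x) =o[atTop] fun x => x ^ (b - a) := by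
    refine Asymptotics.IsLittleO.add ?_ (isLittleO_log_rpow_atTop (by linarith))
    exact (Asymptotics.isLittleO_const_left.mpr (Or.inr
      (tendsto_norm_atTop_atTop.comp (tendsto_rpow_atTop (by linarith)))))
  have h2 : (fun x : ℝ => (1 + Real.log x) * x ^ a) =o[atTop] fun x => x ^ b := by
    have h3 := h1.mul_isBigO (Asymptotics.isBigO_refl (fun x : ℝ => x ^ a) atTop)
    refine h3.congr' (Filter.EventuallyEq.rfl) ?_
    filter_upwards [eventually_gt_atTop 0] with x hx
    rw [← Real.rpow_add hx]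
    congr 1
    ring
  have h4 : (fun x : ℝ => K * ((1 + Real.log x) * x ^ a) + K) =o[atTop] fun x => x ^ b := by
    refine Asymptotics.IsLittleO.add (h2.const_mul_left K) ?_
    exact (Asymptotics.isLittleO_const_left.mpr (Or.inr
      (tendsto_norm_atTop_atTop.comp (tendsto_rpow_atTop hb))))
  have h5 := h4.def (c := 1 / 2) (by norm_num)
  have h6 : ∀ᶠ x : ℝ in atTop, K * ((1 + Real.log x) * x ^ a) + K < x ^ b := by
    filter_upwards [h5, eventually_gt_atTop 0] with x hx hx0
    have h7 : 0 < x ^ b := Real.rpow_pos_of_pos hx0 b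
    rw [Real.norm_eq_abs, Real.norm_of_nonneg h7.le] at hx
    have := le_abs_self (K * ((1 + Real.log x) * x ^ a) + K)
    linarith
  exact tendsto_natCast_atTop_atTop.eventually h6

/-- Growth comparison without logarithm. -/
lemma growth_lt' (K a b : ℝ) (hab : a < b) (hb : 0 < b) :
    ∀ᶠ H : ℕ in atTop, K * (H : ℝ) ^ a + K < (H : ℝ) ^ b := by
  have h := growth_lt (|K|) a b hab hb
  filter_upwards [h, eventually_ge_atTop 1] with H hH h1
  have h1r : (1 : ℝ) ≤ H := by exact_mod_cast h1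
  have h2 : 0 ≤ Real.log H := Real.log_nonneg h1r
  have h3 : 0 ≤ (H : ℝ) ^ a := Real.rpow_nonneg (by linarith) a
  have h4 : K * (H : ℝ) ^ a ≤ |K| * ((1 + Real.log H) * (H : ℝ) ^ a) := by
    calc K * (H : ℝ) ^ a ≤ |K| * (H : ℝ) ^ a := mul_le_mul_of_nonneg_right (le_abs_self K) h3
      _ ≤ |K| * ((1 + Real.log H) * (H : ℝ) ^ a) := by
        refine mul_le_mul_of_nonneg_left ?_ (abs_nonneg K)
        nlinarith
  have := le_abs_self K
  linarith

/-- `κ` is a good approximation of height `H` and exponent `s` to `z`. -/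
def Good {m : ℕ} (z : Fin m → ℂ) (s : ℝ) (H : ℕ) (κ : Fin m → ℂ) : Prop :=
  ∀ i, ‖κ i - z i‖ < Real.exp (-(H : ℝ) ^ s) ∧ QuadHeight (κ i) H

lemma exp_small {s : ℝ} (hs : 0 < s) {δ : ℝ} (hδ : 0 < δ) :
    ∀ᶠ H : ℕ in atTop, Real.exp (-(H : ℝ) ^ s) < δ := by
  have h1 : Tendsto (fun H : ℕ => Real.exp (-(H : ℝ) ^ s)) atTop (𝓝 0) :=
    Real.tendsto_exp_neg_atTop_nhds_zero.comp
      ((tendsto_rpow_atTop hs).comp tendsto_natCast_atTop_atTop)
  exact h1.eventually (gt_mem_nhds hδ)

lemma close3 {m : ℕ} (z : Fin m → ℂ) {s : ℝ} (hs : 0 < s) {V : Set (Fin m → ℂ)}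
    (hV : V ∈ 𝓝 z) : ∀ᶠ H : ℕ in atTop, ∀ κ, Good z s H κ → κ ∈ V := by
  obtain ⟨ε, hε, hball⟩ := Metric.mem_nhds_iff.mp hV
  filter_upwards [exp_small hs hε] with H hH κ hκ
  apply hball
  rw [Metric.mem_ball, dist_pi_lt_iff hε]
  intro i
  rw [Complex.dist_eq]
  exact (hκ i).1.trans hH

lemma aeval_diff3 {m : ℕ} (P : MvPolynomial (Fin m) ℤ) (z : Fin m → ℂ) :
    DifferentiableAt ℂ (fun x : Fin m → ℂ => MvPolynomial.aeval x P) z := by
  induction P using MvPolynomial.induction_on with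
  | C a => simp only [MvPolynomial.aeval_C]; exact differentiableAt_const _
  | add p q hp hq => simp only [map_add]; exact hp.add hq
  | mul_X p i hp =>
    simp only [map_mul, MvPolynomial.aeval_X]
    exact hp.mul (differentiableAt_apply i z)

/-- Integral relations persist at very good approximations. -/
lemma vanish3 {m : ℕ} (z : Fin m → ℂ) {s : ℝ} (hs : 1 < s) (P : MvPolynomial (Fin m) ℤ)
    (hP : MvPolynomial.aeval z P = 0) :
    ∀ᶠ H : ℕ in atTop, ∀ κ, Good z s H κ → MvPolynomial.aeval κ P = 0 := by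
  obtain ⟨k, hk⟩ := liouville2 m P
  obtain ⟨L, hLip⟩ := ((aeval_diff3 P z).isBigO_sub).bound
  simp only [hP, sub_zero] at hLip
  have hA1 := close3 z (by linarith : 0 < s) hLip
  set K : ℝ := max (k * 2 * 2 ^ m) (Real.log (|L| + 1)) with hK
  filter_upwards [hA1, growth_lt' K 1 s hs (by linarith), eventually_ge_atTop 2] with H h1 h2 hH κ hκ
  have hHr : (2 : ℝ) ≤ H := by exact_mod_cast hH
  have hLκ : ‖MvPolynomial.aeval κ P‖ ≤ L * ‖κ - z‖ := h1 κ hκ
  have hnorm : ‖κ - z‖ ≤ Real.exp (-(H : ℝ) ^ s) := by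
    rw [pi_norm_le_iff_of_nonneg (Real.exp_pos _).le]
    intro i
    exact (hκ i).1.le
  rcases hk (2 * H) (by omega) (fun _ => 2) κ (fun i => (hκ i).2.algD hH) with h0 | h0
  · exact h0
  · exfalso
    have h3 : ‖MvPolynomial.aeval κ P‖ ≤ (|L| + 1) * Real.exp (-(H : ℝ) ^ s) := by
      refine hLκ.trans ?_
      have h2 : L * ‖κ - z‖ ≤ (|L| + 1) * ‖κ - z‖ :=
        mul_le_mul_of_nonneg_right (by linarith [le_abs_self L]) (norm_nonneg _)
      exact h2.trans (mul_le_mul_of_nonneg_left hnorm (by positivity))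
    have h4 : (|L| + 1) * Real.exp (-(H : ℝ) ^ s) <
        Real.exp (-((k * (2 * H) * ∏ _i : Fin m, 2 : ℕ) : ℝ)) := by
      have hL1 : 0 < |L| + 1 := by positivity
      calc (|L| + 1) * Real.exp (-(H : ℝ) ^ s)
          = Real.exp (Real.log (|L| + 1)) * Real.exp (-(H : ℝ) ^ s) := by
            rw [Real.exp_log hL1]
        _ = Real.exp (Real.log (|L| + 1) - (H : ℝ) ^ s) := by
            rw [← Real.exp_add]; ring_nf
        _ < _ := by
            apply Real.exp_lt_exp.mpr
            rw [Finset.prod_const, Finset.card_univ, Fintype.card_fin]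
            push_cast
            rw [Real.rpow_one] at h2
            have h5 : (k : ℝ) * (2 * H) * 2 ^ m ≤ K * H := by
              have h6 := mul_le_mul_of_nonneg_right
                (le_max_left ((k : ℝ) * 2 * 2 ^ m) (Real.log (|L| + 1)))
                (by linarith : (0 : ℝ) ≤ H)
              rw [← hK] at h6
              linarith
            have h7 : Real.log (|L| + 1) ≤ K := le_max_right _ _
            linarith
    linarith

/-- Non-quadratic numbers with very good quadratic approximations are transcendental. -/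
lemma transc3 {m : ℕ} (z : Fin m → ℂ)
    (hcm : ∀ i, ¬ ∃ a b c : ℤ, (a ≠ 0 ∨ b ≠ 0 ∨ c ≠ 0) ∧
      (a : ℂ) * z i ^ 2 + (b : ℂ) * z i + (c : ℂ) = 0) {s : ℝ} (hs : 1 < s)
    (happ : ∃ᶠ H : ℕ in atTop, ∃ κ, Good z s H κ) (i : Fin m) :
    Transcendental ℚ (z i) := by
  intro halg
  rw [← IsFractionRing.isAlgebraic_iff ℤ ℚ ℂ] at halg
  obtain ⟨p, hp0, hp⟩ := halg
  set P : MvPolynomial (Fin m) ℤ := Polynomial.aeval (MvPolynomial.X i) p with hPd
  have hPκ : ∀ x : Fin m → ℂ, MvPolynomial.aeval x P = Polynomial.aeval (x i) p := by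
    intro x
    rw [hPd, ← Polynomial.aeval_algHom_apply, MvPolynomial.aeval_X]
  have hA1 := vanish3 z hs P (by rw [hPκ]; exact hp)
  have hfin : (p.rootSet ℂ \ {z i}).Finite := (Polynomial.rootSet_finite p ℂ).subset Set.sdiff_subset
  have hV : {x : Fin m → ℂ | x i ∉ p.rootSet ℂ \ {z i}} ∈ 𝓝 z := by
    have h1 : (p.rootSet ℂ \ {z i})ᶜ ∈ 𝓝 (z i) := by
      apply hfin.isClosed.isOpen_compl.mem_nhds
      simp
    exact (continuous_apply i).continuousAt.preimage_mem_nhds h1
  have hA2 := close3 z (by linarith : 0 < s) hV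
  obtain ⟨H, ⟨κ, hκ⟩, h1, h2⟩ := (happ.and_eventually (hA1.and hA2)).exists
  replace h1 := h1 κ hκ
  replace h2 := h2 κ hκ
  rw [hPκ] at h1
  have h3 : κ i = z i := by
    by_contra hne
    apply h2
    refine ⟨?_, hne⟩
    rw [Polynomial.mem_rootSet]
    exact ⟨hp0, h1⟩
  obtain ⟨a, b, c, h0, -, -, -, hq⟩ := (hκ i).2
  rw [h3] at hq
  exact hcm i ⟨a, b, c, h0, hq⟩

theorem core3 (hJ : SpecJ) (hCl : SpecClass) (hL : SpecLiou3)
    {n : ℕ} (ζ : Fin n → ℂ → ℂ) (θ : ℂ)
    (hζ : ∀ i, AnalyticAt ℂ (ζ i) θ) (him : ∀ i, 0 < (ζ i θ).im)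
    (hF : ∀ P : MvPolynomial (Option (Fin n)) ℂ, P ≠ 0 →
      ¬ ∀ᶠ t in 𝓝 θ, MvPolynomial.eval (ptz ζ t) P = 0) {s : ℝ} (hs : (n : ℝ) < s)
    (happ : ∃ᶠ H : ℕ in atTop, ∃ κ : ℂ, κ ≠ θ ∧ ‖κ - θ‖ < Real.exp (-(H : ℝ) ^ s) ∧
      QuadHeight κ H ∧ ∀ i, QuadHeight (ζ i κ) H) :
    AlgebraicIndependent ℚ (ptz ζ θ) := by
  refine algebraicIndependent_of_int _ fun P hP0 hP => ?_
  have hs0 : 0 < s := lt_of_le_of_lt (Nat.cast_nonneg n) hs
  -- choice of exponents
  obtain ⟨ε, hε, hεs⟩ : ∃ ε : ℝ, 0 < ε ∧ (1 + ε) * n < s := by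
    refine ⟨(s - n) / (n + 1), div_pos (by linarith) (by positivity), ?_⟩
    have h1 : (0 : ℝ) < n + 1 := by positivity
    have h2 : (s - n) / (n + 1) * n < s - n := by
      rw [div_mul_eq_mul_div, div_lt_iff₀ h1]
      nlinarith
    linarith
  obtain ⟨C1, hC1⟩ := hCl ε hε
  obtain ⟨k, hk⟩ := hL n P
  set F : ℂ → ℂ := fun t => MvPolynomial.aeval (ptz ζ t) P with hFdef
  have hU : ∀ᶠ t in 𝓝 θ, ∀ i, 0 < (ζ i t).im := by
    rw [Filter.eventually_all]
    intro i
    exact (hζ i).continuousAt.eventually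
      ((isOpen_lt continuous_const Complex.continuous_im).mem_nhds (him i))
  have han : AnalyticAt ℂ F θ := aeval_ptz_analyticAt hJ hζ him P
  have hdiff : DifferentiableAt ℂ F θ := han.differentiableAt
  obtain ⟨L, hLip⟩ := (hdiff.isBigO_sub).bound
  have hF0 : F θ = 0 := hP
  simp only [hF0, sub_zero] at hLip
  have hfreq : ∃ᶠ t in 𝓝[≠] θ, F t = 0 := by
    rw [Filter.frequently_iff]
    intro V hV
    have hall := (hLip.and hU)
    rw [mem_nhdsWithin_iff_eventually] at hV
    obtain ⟨δ, hδ, hball⟩ := Metric.eventually_nhds_iff.mp (hall.and hV)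
    set K : ℝ := max (k * (|C1| + 2) ^ n) (Real.log (|L| + 1)) with hK
    obtain ⟨H, ⟨κ, hκθ, hκ, hq, hqi⟩, hsm, hgr, hH⟩ := (happ.and_eventually
      ((exp_small hs0 hδ).and ((growth_lt K ((1 + ε) * n) s hεs hs0).and
        (eventually_ge_atTop 2)))).exists
    have hHr : (2 : ℝ) ≤ H := by exact_mod_cast hH
    have hH0 : (0 : ℝ) < H := by linarith
    have hlog : 0 ≤ Real.log H := Real.log_nonneg (by linarith)
    have hκε : dist κ θ < δ := by
      rw [Complex.dist_eq]; exact hκ.trans hsm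
    obtain ⟨⟨hLκ, hUκ⟩, hVκ⟩ := hball hκε
    refine ⟨κ, hVκ hκθ, ?_⟩
    -- the common bound
    set x : ℝ := (H : ℝ) ^ (1 + ε) with hx
    have hx1 : 1 ≤ x := Real.one_le_rpow (by linarith) (by linarith)
    set d : ℕ := ⌈(|C1| + 1) * x⌉₊ with hd
    have hd1 : (|C1| + 1) * x ≤ d := Nat.le_ceil _
    have hd2 : (d : ℝ) ≤ (|C1| + 2) * x := by
      have := Nat.ceil_lt_add_one (a := (|C1| + 1) * x) (by positivity)
      rw [← hd] at this
      nlinarith
    have hd0 : 1 ≤ d := by
      have h1 : (1 : ℝ) ≤ d := by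
        refine le_trans ?_ hd1
        nlinarith [abs_nonneg C1]
      exact_mod_cast h1
    have hC1d : C1 * x ≤ d := by
      refine le_trans ?_ hd1
      nlinarith [le_abs_self C1]
    have hdata : ∀ i : Fin n, ∃ F : ℤ[X], F.Monic ∧ aeval (Jc (ζ i κ)) F = 0 ∧ F.natDegree ≤ d ∧
        ∏ r ∈ (F.aroots ℂ).toFinset, max 1 ‖r‖ ≤ Real.exp d := by
      intro i
      obtain ⟨F, hF1, hF2, hF3, hF4⟩ := hC1 H hH _ (hUκ i) (hqi i)
      refine ⟨F, hF1, hF2, ?_, hF4.trans (Real.exp_le_exp.mpr hC1d)⟩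
      exact_mod_cast hF3.trans hC1d
    have hval : (fun o : Option (Fin n) => o.elim κ fun i => Jc (ζ i κ)) = ptz ζ κ := rfl
    rcases hk H d hH hd0 κ _ hq hdata with h0 | h0
    · rw [hval] at h0; exact h0
    · exfalso
      rw [hval] at h0
      have h1 : ‖F κ‖ ≤ (|L| + 1) * Real.exp (-(H : ℝ) ^ s) := by
        refine hLκ.trans ?_
        have h2 : L * ‖κ - θ‖ ≤ (|L| + 1) * ‖κ - θ‖ :=
          mul_le_mul_of_nonneg_right (by linarith [le_abs_self L]) (norm_nonneg _)
        exact h2.trans (mul_le_mul_of_nonneg_left hκ.le (by positivity))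
      have h3 : (|L| + 1) * Real.exp (-(H : ℝ) ^ s) <
          Real.exp (-(k * (1 + Real.log H) * (d : ℝ) ^ n)) := by
        have hL1 : 0 < |L| + 1 := by positivity
        calc (|L| + 1) * Real.exp (-(H : ℝ) ^ s)
            = Real.exp (Real.log (|L| + 1)) * Real.exp (-(H : ℝ) ^ s) := by
              rw [Real.exp_log hL1]
          _ = Real.exp (Real.log (|L| + 1) - (H : ℝ) ^ s) := by
              rw [← Real.exp_add]; ring_nf
          _ < _ := by
              apply Real.exp_lt_exp.mpr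
              have h4 : (d : ℝ) ^ n ≤ (|C1| + 2) ^ n * (H : ℝ) ^ ((1 + ε) * n) := by
                calc (d : ℝ) ^ n ≤ ((|C1| + 2) * x) ^ n := pow_le_pow_left₀ (by positivity) hd2 n
                  _ = (|C1| + 2) ^ n * (H : ℝ) ^ ((1 + ε) * n) := by
                    rw [mul_pow, hx, ← Real.rpow_natCast ((H : ℝ) ^ (1 + ε)) n,
                      ← Real.rpow_mul hH0.le]
              have h5 : k * (1 + Real.log H) * (d : ℝ) ^ n ≤
                  K * ((1 + Real.log H) * (H : ℝ) ^ ((1 + ε) * n)) := by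
                have h6 : (k : ℝ) * (|C1| + 2) ^ n ≤ K := le_max_left _ _
                have h7 : 0 ≤ (1 + Real.log H) * (H : ℝ) ^ ((1 + ε) * n) :=
                  mul_nonneg (by linarith) (Real.rpow_nonneg hH0.le _)
                calc k * (1 + Real.log H) * (d : ℝ) ^ n
                    ≤ k * (1 + Real.log H) * ((|C1| + 2) ^ n * (H : ℝ) ^ ((1 + ε) * n)) :=
                      mul_le_mul_of_nonneg_left h4 (by positivity)
                  _ = (k * (|C1| + 2) ^ n) * ((1 + Real.log H) * (H : ℝ) ^ ((1 + ε) * n)) := by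
                      ring
                  _ ≤ _ := mul_le_mul_of_nonneg_right h6 h7
              have h8 : Real.log (|L| + 1) ≤ K := le_max_right _ _
              linarith
      linarith
  have hev : ∀ᶠ t in 𝓝 θ, F t = 0 := han.frequently_zero_iff_eventually_zero.mp hfreq
  have hPC : MvPolynomial.map (Int.castRingHom ℂ) P ≠ 0 := by
    intro h
    apply hP0
    exact MvPolynomial.map_injective (Int.castRingHom ℂ) Int.cast_injective (by rw [h, map_zero])
  apply hF _ hPC
  filter_upwards [hev] with t ht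
  have e : MvPolynomial.eval (ptz ζ t) (MvPolynomial.map (Int.castRingHom ℂ) P) = F t := by
    rw [MvPolynomial.eval_map, hFdef]
    rfl
  rw [e, ht]

theorem curve3 (hJ : SpecJ) (hCl : SpecClass) (hL : SpecLiou3) (hALW : SpecALW)
    (hI : SpecImpl) (hS : SpecSep) {n : ℕ} (z : Fin (n + 1) → ℂ)
    (him : ∀ i, 0 < (z i).im)
    (hcm : ∀ i, ¬ ∃ a b c : ℤ, (a ≠ 0 ∨ b ≠ 0 ∨ c ≠ 0) ∧
      (a : ℂ) * z i ^ 2 + (b : ℂ) * z i + (c : ℂ) = 0)
    (hne : ∀ i k, i ≠ k → ¬ ∃ a b c d : ℚ, 0 < a * d - b * c ∧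
      z k * ((c : ℂ) * z i + (d : ℂ)) = (a : ℂ) * z i + (b : ℂ))
    (hdep : ∀ i, ¬ AlgebraicIndependent ℚ ![z 0, z i]) {s : ℝ} (hs : (n : ℝ) + 1 < s)
    (happ : ∃ᶠ H : ℕ in atTop, ∃ κ, Good z s H κ) :
    AlgebraicIndependent ℚ (fun o : Option (Fin (n + 1)) => o.elim (z 0) (fun i => Jc (z i))) := by
  have hs1 : 1 < s := by
    have : (0 : ℝ) ≤ n := Nat.cast_nonneg n
    linarith
  have hs0 : 0 < s := by linarith
  have htr := transc3 z hcm hs1 happ
  have hsep := fun i => hS (z 0) (z i) (htr 0) (hdep i)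
  choose P hP0 hPd using hsep
  set P' : Fin (n + 1) → MvPolynomial (Fin 2) ℂ := fun i =>
    MvPolynomial.map (Int.castRingHom ℂ) (P i) with hP'
  have hev : ∀ i (a b : ℂ), MvPolynomial.eval ![a, b] (P' i) = MvPolynomial.aeval ![a, b] (P i) := by
    intro i a b
    rw [hP', MvPolynomial.eval_map]
    rfl
  have hev' : ∀ i (a b : ℂ), MvPolynomial.eval ![a, b] (MvPolynomial.pderiv 1 (P' i)) =
      MvPolynomial.aeval ![a, b] (MvPolynomial.pderiv 1 (P i)) := by
    intro i a b
    rw [hP']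
    simp only
    rw [MvPolynomial.pderiv_map, MvPolynomial.eval_map]
    rfl
  have himpl := fun i => hI (P' i) (z 0) (z i) (by rw [hev]; exact hP0 i)
    (by rw [hev']; exact hPd i)
  choose ζ hζan hζ0 hζP hζu using himpl
  -- very good approximations lie on the branch
  have hbr : ∀ᶠ H : ℕ in atTop, ∀ κ, Good z s H κ → ∀ i, κ i = ζ i (κ 0) := by
    have h1 : ∀ i, ∀ᶠ H : ℕ in atTop, ∀ κ, Good z s H κ → κ i = ζ i (κ 0) := by
      intro i
      have hren : ∀ x : Fin (n + 1) → ℂ, MvPolynomial.aeval x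
          (MvPolynomial.rename ![0, i] (P i)) = MvPolynomial.aeval ![x 0, x i] (P i) := by
        intro x
        rw [MvPolynomial.aeval_rename]
        congr 2
        funext j
        fin_cases j <;> rfl
      have hA1 := vanish3 z hs1 (MvPolynomial.rename ![0, i] (P i)) (by
        rw [hren]; exact hP0 i)
      have hV : {x : Fin (n + 1) → ℂ | MvPolynomial.eval ![x 0, x i] (P' i) = 0 →
          x i = ζ i (x 0)} ∈ 𝓝 z := by
        have hc : ContinuousAt (fun x : Fin (n + 1) → ℂ => (x 0, x i)) z :=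
          ((continuous_apply 0).prodMk (continuous_apply i)).continuousAt
        exact hc.eventually (hζu i)
      have hA2 := close3 z hs0 hV
      filter_upwards [hA1, hA2] with H h1 h2 κ hκ
      have h1 := h1 κ hκ
      have h2 := h2 κ hκ
      rw [hren] at h1
      exact h2 (by rw [hev]; exact h1)
    filter_upwards [Filter.eventually_all.mpr h1] with H hH κ hκ i
    exact hH i κ hκ
  have hnoq : ∀ i H, ¬ QuadHeight (z i) H := by
    rintro i H ⟨a, b, c, h0, -, -, -, hq⟩
    exact hcm i ⟨a, b, c, h0, hq⟩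
  have hres := core3 hJ hCl hL ζ (z 0) hζan (fun i => by rw [hζ0]; exact him i) ?_
    (s := s) (by push_cast; exact hs) ?_
  · have e : ptz ζ (z 0) = fun o : Option (Fin (n + 1)) => o.elim (z 0) (fun i => Jc (z i)) := by
      funext o
      rcases o with _ | i
      · rfl
      · simp only [ptz, Option.elim, hζ0]
    rwa [e] at hres
  · -- functional independence
    apply hALW (n + 1) ζ (z 0) hζan (fun i => by rw [hζ0]; exact him i)
    · -- non constant
      intro i hconst
      have hV : {x : Fin (n + 1) → ℂ | ζ i (x 0) = ζ i (z 0)} ∈ 𝓝 z :=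
        (continuous_apply 0).continuousAt.eventually hconst
      have hA2 := close3 z hs0 hV
      obtain ⟨H, ⟨κ, hκ⟩, h1, h2⟩ := (happ.and_eventually (hbr.and hA2)).exists
      replace h1 := h1 κ hκ i
      replace h2 := h2 κ hκ
      simp only [Set.mem_ofPred_eq] at h2
      have h3 : κ i = z i := by rw [h1, h2, hζ0]
      exact hnoq i H (h3 ▸ (hκ i).2)
    · intro i
      refine ⟨P' i, ?_, hζP i⟩
      intro h0
      apply hPd i
      rw [← hev', h0, map_zero, map_zero]
    · intro i k hik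
      rintro ⟨a, b, c, d, hdet, hrel⟩
      have h1 := hrel.self_of_nhds
      rw [hζ0, hζ0] at h1
      rcases lt_or_gt_of_ne hdet with hneg | hpos
      · -- negative determinant
        have hden : (c : ℂ) * z i + d ≠ 0 := by
          intro h0
          rw [h0, mul_zero] at h1
          have h2 : (a : ℂ) * d - b * c = 0 := by
            linear_combination (a : ℂ) * h0 + (c : ℂ) * h1
          have h3 : a * d - b * c = 0 := by exact_mod_cast h2
          exact hdet h3
        have h2 : z k = moeb (a : ℂ) b c d (z i) := by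
          rw [moeb, eq_div_iff hden, h1]
        have h3 : (z k).im = Qf (a : ℂ) b c d (z i) / normSq ((c : ℂ) * z i + d) := by
          rw [h2, moeb_im]
        have h4 : Qf (a : ℂ) b c d (z i) = ((a * d - b * c : ℚ) : ℝ) * (z i).im := by
          rw [Qf]
          simp only [map_add, map_mul, Complex.mul_im, Complex.add_re, Complex.add_im,
            Complex.mul_re, Complex.conj_re, Complex.conj_im]
          simp
          ring
        have h5 : Qf (a : ℂ) b c d (z i) < 0 := by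
          rw [h4]
          apply mul_neg_of_neg_of_pos _ (him i)
          exact_mod_cast hneg
        have h6 : (z k).im < 0 := by
          rw [h3]
          exact div_neg_of_neg_of_pos h5 (Complex.normSq_pos.mpr hden)
        exact absurd (him k) (not_lt.mpr h6.le)
      · exact hne i k hik ⟨a, b, c, d, hpos, h1⟩
  · -- approximations
    refine (happ.and_eventually hbr).mono ?_
    rintro H ⟨⟨κ, hκ⟩, h1⟩
    replace h1 := h1 κ hκ
    refine ⟨κ 0, ?_, (hκ 0).1, (hκ 0).2, fun i => ?_⟩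
    · intro h0
      exact hnoq 0 H (h0 ▸ (hκ 0).2)
    · rw [← h1 i]
      exact (hκ i).2

end Pool.Agent.Lib.MP_47914d_nt
end
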