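import Pool.Agent.Lib.MP_47914d_nt.Defs3

/-!
Module LIOU3: Liouville inequality in terms of degrees and Mahler measures.
-/

set_option autoImplicit false

open Polynomial

namespace Pool.Agent.Lib.MP_47914d_nt.L3

/-- Sum of the absolute values of the coefficients. -/
noncomputable def cSum {ι : Type*} (P : MvPolynomial ι ℤ) : ℕ :=
  ∑ m ∈ P.support, (P.coeff m).natAbs

lemma one_le_cSum {ι : Type*} {P : MvPolynomial ι ℤ} (hP : P ≠ 0) : 1 ≤ cSum P := by
  by_contra hc
  have hc0 : cSum P = 0 := by omega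
  obtain ⟨m, hm⟩ := MvPolynomial.ne_zero_iff.1 hP
  have h1 : (P.coeff m).natAbs ≤ cSum P :=
    Finset.single_le_sum (f := fun m => (P.coeff m).natAbs) (fun _ _ => Nat.zero_le _)
      (MvPolynomial.mem_support_iff.2 hm)
  rw [hc0] at h1
  exact hm (Int.natAbs_eq_zero.1 (by omega))

lemma sum_le_totalDegree {ι : Type*} [Fintype ι] {P : MvPolynomial ι ℤ} {m : ι →₀ ℕ}
    (hm : m ∈ P.support) : ∑ i, m i ≤ P.totalDegree := by
  have := MvPolynomial.le_totalDegree hm
  rwa [Finsupp.sum_fintype] at this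
  intro i; rfl

lemma one_le_prod_max {κ : Type*} (s : Finset κ) (f : κ → ℝ) : (1 : ℝ) ≤ ∏ i ∈ s, max 1 (f i) := by
  calc (1 : ℝ) = ∏ _i ∈ s, (1 : ℝ) := by simp
    _ ≤ _ := Finset.prod_le_prod (fun _ _ => zero_le_one) fun _ _ => le_max_left _ _

lemma norm_aeval_le {ι : Type*} [Fintype ι] (P : MvPolynomial ι ℤ) (x : ι → ℂ) :
    ‖MvPolynomial.aeval x P‖ ≤ (cSum P : ℝ) * (∏ i, max 1 ‖x i‖) ^ P.totalDegree := by
  rw [MvPolynomial.aeval_def, MvPolynomial.eval₂_eq']
  refine (norm_sum_le _ _).trans ?_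
  rw [cSum, Nat.cast_sum, Finset.sum_mul]
  refine Finset.sum_le_sum fun m hm => ?_
  rw [norm_mul]
  have h1 : ‖(algebraMap ℤ ℂ) (MvPolynomial.coeff m P)‖ = ((MvPolynomial.coeff m P).natAbs : ℝ) := by
    simp [Nat.cast_natAbs]
  rw [h1]
  refine mul_le_mul_of_nonneg_left ?_ (Nat.cast_nonneg _)
  rw [norm_prod, ← Finset.prod_pow]
  refine Finset.prod_le_prod (fun i _ => norm_nonneg _) fun i _ => ?_
  rw [norm_pow]
  have hmi : m i ≤ P.totalDegree :=
    (Finset.single_le_sum (f := fun i => m i) (fun _ _ => Nat.zero_le _)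
      (Finset.mem_univ i)).trans (sum_le_totalDegree hm)
  calc ‖x i‖ ^ m i ≤ (max 1 ‖x i‖) ^ m i := pow_le_pow_left₀ (norm_nonneg _) (le_max_right _ _) _
    _ ≤ (max 1 ‖x i‖) ^ P.totalDegree := pow_le_pow_right₀ (le_max_left _ _) hmi

lemma isIntegral_pow_mul_aeval {ι : Type*} [Fintype ι] {A : Type*} [Field A]
    (P : MvPolynomial ι ℤ) (x : ι → A) (L : ℤ) (hx : ∀ i, IsIntegral ℤ ((L : A) * x i)) :
    IsIntegral ℤ ((L : A) ^ P.totalDegree * MvPolynomial.aeval x P) := by
  rw [MvPolynomial.aeval_def, MvPolynomial.eval₂_eq', Finset.mul_sum]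
  refine IsIntegral.sum _ fun m hm => ?_
  have hdeg : ∑ i, m i ≤ P.totalDegree := sum_le_totalDegree hm
  have key : (L : A) ^ P.totalDegree * ((algebraMap ℤ A) (MvPolynomial.coeff m P) * ∏ i, x i ^ m i)
      = (algebraMap ℤ A) (MvPolynomial.coeff m P) *
        ((algebraMap ℤ A) L ^ (P.totalDegree - ∑ i, m i) * ∏ i, ((L : A) * x i) ^ m i) := by
    have h1 : ∏ i, ((L : A) * x i) ^ m i = (L : A) ^ (∑ i, m i) * ∏ i, x i ^ m i := by
      rw [← Finset.prod_pow_eq_pow_sum, ← Finset.prod_mul_distrib]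
      exact Finset.prod_congr rfl fun i _ => mul_pow _ _ _
    rw [h1]
    have h2 : (L : A) ^ P.totalDegree = (L : A) ^ (P.totalDegree - ∑ i, m i) * (L : A) ^ (∑ i, m i) := by
      rw [← pow_add]; congr 1; omega
    rw [h2]
    simp only [algebraMap_int_eq, eq_intCast]
    ring
  rw [key]
  refine isIntegral_algebraMap.mul ((isIntegral_algebraMap.pow _).mul ?_)
  exact IsIntegral.prod _ fun i _ => (hx i).pow _

/-- Zeros of integer polynomials of degree at most two. -/
lemma quad_root_le {a b c : ℤ} {H : ℕ} (h0 : a ≠ 0 ∨ b ≠ 0 ∨ c ≠ 0) (ha : |a| ≤ H) (hb : |b| ≤ H)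
    (hc : |c| ≤ H) {r : ℂ} (hr : (a : ℂ) * r ^ 2 + (b : ℂ) * r + (c : ℂ) = 0) : ‖r‖ ≤ 2 * H := by
  have haR : |(a : ℝ)| ≤ H := by exact_mod_cast ha
  have hbR : |(b : ℝ)| ≤ H := by exact_mod_cast hb
  have hcR : |(c : ℝ)| ≤ H := by exact_mod_cast hc
  have hH0 : (0 : ℝ) ≤ H := Nat.cast_nonneg H
  rcases eq_or_ne a 0 with rfl | ha0
  · rcases eq_or_ne b 0 with rfl | hb0
    · have hc0 : c ≠ 0 := by simpa using h0
      simp at hr
      exact absurd hr hc0
    · have h1 : (b : ℂ) * r = -c := by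
        simp only [Int.cast_zero, zero_mul, zero_add] at hr
        linear_combination hr
      have h2 := congrArg norm h1
      rw [norm_mul, norm_neg, Complex.norm_intCast, Complex.norm_intCast] at h2
      have h3 : (1 : ℝ) ≤ |(b : ℝ)| := by exact_mod_cast Int.one_le_abs hb0
      have h4 : ‖r‖ ≤ |(b : ℝ)| * ‖r‖ := le_mul_of_one_le_left (norm_nonneg _) h3
      linarith
  · by_contra hlt
    push Not at hlt
    have h1 : (a : ℂ) * r ^ 2 = -((b : ℂ) * r + c) := by linear_combination hr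
    have h2 := congrArg norm h1
    rw [norm_mul, norm_neg, norm_pow, Complex.norm_intCast] at h2
    have h4 := norm_add_le ((b : ℂ) * r) (c : ℂ)
    rw [norm_mul, Complex.norm_intCast, Complex.norm_intCast] at h4
    have h3 : (1 : ℝ) ≤ |(a : ℝ)| := by exact_mod_cast Int.one_le_abs ha0
    have hH1 : (1 : ℝ) ≤ H := h3.trans haR
    have hr1 : 1 ≤ ‖r‖ := by linarith
    have h5 : ‖r‖ ^ 2 ≤ |(a : ℝ)| * ‖r‖ ^ 2 := le_mul_of_one_le_left (by positivity) h3
    have h6 : |(b : ℝ)| * ‖r‖ ≤ H * ‖r‖ := mul_le_mul_of_nonneg_right hbR (norm_nonneg r)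
    have h7 : (H : ℝ) ≤ H * ‖r‖ := le_mul_of_one_le_right hH0 hr1
    have h8 : ‖r‖ * ‖r‖ ≤ (2 * H) * ‖r‖ := by nlinarith
    have h9 : ‖r‖ ≤ 2 * H := le_of_mul_le_mul_right h8 (by linarith)
    linarith

/-- A polynomial whose leading coefficient is bounded, vanishing at a quadratic number. -/
lemma exists_quad_poly {κ : ℂ} {H : ℕ} (h : QuadHeight κ H) :
    ∃ G : ℤ[X], G ≠ 0 ∧ aeval κ G = 0 ∧ G.natDegree ≤ 2 ∧ |(G.leadingCoeff : ℝ)| ≤ H ∧
      ∀ r ∈ G.aroots ℂ, ‖r‖ ≤ 2 * H := by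
  obtain ⟨a, b, c, h0, ha, hb, hc, hk⟩ := h
  set F : ℤ[X] := C a * X ^ 2 + C b * X + C c with hF
  have e2 : F.coeff 2 = a := by
    simp only [hF, coeff_add, coeff_C_mul, coeff_X_pow, coeff_X, coeff_C]; norm_num
  have e1 : F.coeff 1 = b := by
    simp only [hF, coeff_add, coeff_C_mul, coeff_X_pow, coeff_X, coeff_C]; norm_num
  have e0 : F.coeff 0 = c := by
    simp only [hF, coeff_add, coeff_C_mul, coeff_X_pow, coeff_X, coeff_C]; norm_num
  have hF0 : F ≠ 0 := by
    intro h
    rw [h] at e0 e1 e2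
    simp only [coeff_zero] at e0 e1 e2
    rcases h0 with h0 | h0 | h0
    · exact h0 e2.symm
    · exact h0 e1.symm
    · exact h0 e0.symm
  have haR : |(a : ℝ)| ≤ H := by exact_mod_cast ha
  have hbR : |(b : ℝ)| ≤ H := by exact_mod_cast hb
  have hcR : |(c : ℝ)| ≤ H := by exact_mod_cast hc
  have hdeg : F.natDegree ≤ 2 := by
    rw [hF]; compute_degree
  refine ⟨F, hF0, ?_, hdeg, ?_, ?_⟩
  · simp only [hF, map_add, map_mul, map_pow, aeval_X, aeval_C]
    simpa using hk
  · rw [leadingCoeff]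
    interval_cases F.natDegree
    · rw [e0]; exact hcR
    · rw [e1]; exact hbR
    · rw [e2]; exact haR
  · intro r hr
    have hr2 : aeval r F = 0 := (mem_aroots.mp hr).2
    simp only [hF, map_add, map_mul, map_pow, aeval_X, aeval_C] at hr2
    exact quad_root_le h0 ha hb hc (by simpa using hr2)

end L3

open L3

theorem specLiou3 : SpecLiou3 := by
  classical
  intro m P
  set D := P.totalDegree with hD
  refine ⟨2 * (3 * D + cSum P + m * D) + D, fun H d hH hd κ α hκ hα => ?_⟩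
  set x : Option (Fin m) → ℂ := fun o => o.elim κ α with hx
  by_cases hv : MvPolynomial.aeval x P = 0
  · exact Or.inl hv
  right
  obtain ⟨G0, hG0, hG0κ, hG0deg, hG0lc, hG0roots⟩ := exists_quad_poly hκ
  choose F hFm hFα hFdeg hFprod using hα
  set G : Option (Fin m) → ℤ[X] := fun o => o.elim G0 F with hG
  have hGne : ∀ o, G o ≠ 0 := by
    rintro (_ | i)
    · exact hG0
    · exact (hFm i).ne_zero
  have hGx : ∀ o, aeval (x o) (G o) = 0 := by
    rintro (_ | i)
    · exact hG0κ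
    · exact hFα i
  -- the number field
  set K := IntermediateField.adjoin ℚ (Set.range x) with hK
  have hint : ∀ i, IsIntegral ℚ (x i) := by
    intro i
    refine IsAlgebraic.isIntegral ?_
    refine ⟨(G i).map (Int.castRingHom ℚ), ?_, ?_⟩
    · exact (Polynomial.map_ne_zero_iff (RingHom.injective_int _)).2 (hGne i)
    · have : aeval (x i) ((G i).map (Int.castRingHom ℚ)) = aeval (x i) (G i) := by
        rw [← algebraMap_int_eq, aeval_map_algebraMap]
      rw [this, hGx i]
  have hfd : FiniteDimensional ℚ K := by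
    refine IntermediateField.finiteDimensional_adjoin ?_
    rintro _ ⟨i, rfl⟩
    exact hint i
  let β : Option (Fin m) → K := fun i => ⟨x i, IntermediateField.subset_adjoin _ _ ⟨i, rfl⟩⟩
  have hβG : ∀ i, aeval (β i) (G i) = 0 := by
    intro i
    have h : (algebraMap K ℂ) (aeval (β i) (G i)) = aeval (x i) (G i) := by
      rw [← aeval_algebraMap_apply]; rfl
    rw [hGx i] at h
    exact (map_eq_zero _).1 h
  set L : ℤ := G0.leadingCoeff with hL
  have hL0 : L ≠ 0 := leadingCoeff_ne_zero.2 hG0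
  have hLβ : ∀ i, IsIntegral ℤ ((L : K) * β i) := by
    rintro (_ | i)
    · have h1 : IsIntegral ℤ ((G none).leadingCoeff • β none) :=
        isIntegral_leadingCoeff_smul _ _ (hβG none)
      rwa [zsmul_eq_mul] at h1
    · refine IsIntegral.mul (isIntegral_algebraMap (R := ℤ) (A := K) (x := L)) ?_
      exact ⟨F i, hFm i, by rw [← aeval_def]; exact hβG (some i)⟩
  set y : K := (L : K) ^ D * MvPolynomial.aeval β P with hy
  have hyint : IsIntegral ℤ y := L3.isIntegral_pow_mul_aeval P β L hLβ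
  have hyval : ∀ σ : K →ₐ[ℚ] ℂ, σ y = (L : ℂ) ^ D * MvPolynomial.aeval (fun i => σ (β i)) P := by
    intro σ
    rw [hy, map_mul, map_pow, map_intCast]
    congr 1
    rw [MvPolynomial.aeval_def, MvPolynomial.aeval_def, MvPolynomial.eval₂_eq', MvPolynomial.eval₂_eq',
      map_sum]
    refine Finset.sum_congr rfl fun m _ => ?_
    rw [map_mul, map_prod]
    simp
  have hyα : (K.val) y = (L : ℂ) ^ D * MvPolynomial.aeval x P := hyval K.val
  have hy0 : y ≠ 0 := by
    intro h
    rw [h, map_zero] at hyα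
    have : (L : ℂ) ^ D ≠ 0 := pow_ne_zero _ (Int.cast_ne_zero.2 hL0)
    exact hv ((mul_eq_zero.1 hyα.symm).resolve_left this)
  -- norm
  have hnorm : (algebraMap ℚ ℂ) (Algebra.norm ℚ y) = ∏ σ : K →ₐ[ℚ] ℂ, σ y :=
    Algebra.norm_eq_prod_embeddings ℚ ℂ y
  have hnint : IsIntegral ℤ (Algebra.norm ℚ y) := Algebra.isIntegral_norm ℚ hyint
  obtain ⟨N, hN⟩ := IsIntegrallyClosed.isIntegral_iff.1 hnint
  have hN0 : N ≠ 0 := by
    rintro rfl
    rw [map_zero] at hN
    exact hy0 (Algebra.norm_eq_zero_iff.1 hN.symm)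
  have hprod : 1 ≤ ∏ σ : K →ₐ[ℚ] ℂ, ‖σ y‖ := by
    rw [← norm_prod, ← hnorm, ← hN]
    have : ‖(algebraMap ℚ ℂ) ((algebraMap ℤ ℚ) N)‖ = |(N : ℝ)| := by
      simp
    rw [this]
    exact_mod_cast Int.one_le_abs hN0
  -- the conjugates
  set T : Option (Fin m) → Finset ℂ := fun o => ((G o).aroots ℂ).toFinset with hT
  have hσT : ∀ (σ : K →ₐ[ℚ] ℂ) (o : Option (Fin m)), σ (β o) ∈ T o := by
    intro σ o
    rw [hT, Multiset.mem_toFinset, mem_aroots]
    refine ⟨hGne o, ?_⟩
    have h : aeval (σ (β o)) (G o) = σ (aeval (β o) (G o)) := by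
      rw [aeval_def, aeval_def, ← AlgHom.coe_toRingHom, hom_eval₂]
      congr 1
      exact RingHom.ext_int _ _
    rw [h, hβG o, map_zero]
  have hTcard : ∀ o, (T o).card ≤ (G o).natDegree := by
    intro o
    refine (Multiset.toFinset_card_le _).trans ?_
    exact (card_roots' _).trans natDegree_map_le
  have hTn : (T none).card ≤ 2 := (hTcard none).trans hG0deg
  have hTs : ∀ i, (T (some i)).card ≤ d := fun i => (hTcard (some i)).trans (hFdeg i)
  have hinj : ∀ σ τ : K →ₐ[ℚ] ℂ, (∀ o, σ (β o) = τ (β o)) → σ = τ := by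
    intro σ τ hστ
    refine IntermediateField.algHom_ext_of_eq_adjoin ℚ hK ?_
    rintro _ ⟨i, rfl⟩
    exact hστ i
  -- number of embeddings
  have hcount : ∀ (S : Finset (K →ₐ[ℚ] ℂ)) (U : Option (Fin m) → Finset ℂ),
      (∀ σ ∈ S, ∀ o, σ (β o) ∈ U o) → S.card ≤ ∏ o, (U o).card := by
    intro S U hU
    rw [← Fintype.card_piFinset]
    apply Finset.card_le_card_of_injOn (fun σ o => σ (β o))
    · intro σ hσ
      exact Finset.mem_coe.2 (Fintype.mem_piFinset.2 fun o => hU σ hσ o)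
    · intro σ _ τ _ h
      exact hinj σ τ fun o => congrFun h o
  have hcard : (Finset.univ : Finset (K →ₐ[ℚ] ℂ)).card ≤ 2 * d ^ m := by
    refine (hcount _ T fun σ _ o => hσT σ o).trans ?_
    rw [Fintype.prod_option]
    refine Nat.mul_le_mul hTn ?_
    calc ∏ i, (T (some i)).card ≤ ∏ _i : Fin m, d := Finset.prod_le_prod' fun i _ => hTs i
      _ = d ^ m := by simp
  -- product over the embeddings of the sizes of one generator
  have hone : ∀ o : Option (Fin m), (1 : ℝ) ≤ ∏ σ : K →ₐ[ℚ] ℂ, max 1 ‖σ (β o)‖ := fun o =>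
    one_le_prod_max _ _
  have hgen : ∀ i : Fin m, ∏ σ : K →ₐ[ℚ] ℂ, max 1 ‖σ (β (some i))‖ ≤
      Real.exp (2 * (d : ℝ) ^ m) := by
    intro i
    have hm1 : 1 ≤ m := by have := i.2; omega
    have hfib : ∀ r ∈ T (some i),
        (Finset.univ.filter (fun σ : K →ₐ[ℚ] ℂ => σ (β (some i)) = r)).card ≤
          2 * d ^ (m - 1) := by
      intro r _
      refine (hcount _ (Function.update T (some i) {r}) ?_).trans ?_
      · intro σ hσ o
        rcases eq_or_ne o (some i) with rfl | ho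
        · rw [Function.update_self]
          exact Finset.mem_singleton.2 (Finset.mem_filter.1 hσ).2
        · rw [Function.update_of_ne ho]
          exact hσT σ o
      · rw [Fintype.prod_option]
        have h1 : (Function.update T (some i) {r} none).card ≤ 2 := by
          rw [Function.update_of_ne (by simp)]; exact hTn
        refine Nat.mul_le_mul h1 ?_
        rw [← Finset.mul_prod_erase _ _ (Finset.mem_univ i), Function.update_self,
          Finset.card_singleton, one_mul]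
        calc ∏ j ∈ Finset.univ.erase i, (Function.update T (some i) {r} (some j)).card
            ≤ ∏ _j ∈ Finset.univ.erase i, d := by
              apply Finset.prod_le_prod'
              intro j hj
              have hji : (some j) ≠ some i := by
                intro h
                exact (Finset.ne_of_mem_erase hj) (Option.some.inj h)
              rw [Function.update_of_ne hji]
              exact hTs j
          _ = d ^ (m - 1) := by
              rw [Finset.prod_const, Finset.card_erase_of_mem (Finset.mem_univ _),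
                Finset.card_univ, Fintype.card_fin]
    rw [← Finset.prod_fiberwise_of_maps_to (g := fun σ : K →ₐ[ℚ] ℂ => σ (β (some i)))
      (t := T (some i)) (fun σ _ => hσT σ (some i))]
    have h1 : ∀ r ∈ T (some i),
        ∏ σ ∈ Finset.univ.filter (fun σ : K →ₐ[ℚ] ℂ => σ (β (some i)) = r),
          max 1 ‖σ (β (some i))‖ ≤ (max 1 ‖r‖) ^ (2 * d ^ (m - 1)) := by
      intro r hr
      have h2 : ∏ σ ∈ Finset.univ.filter (fun σ : K →ₐ[ℚ] ℂ => σ (β (some i)) = r),
          max 1 ‖σ (β (some i))‖ =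
          (max 1 ‖r‖) ^ (Finset.univ.filter
            (fun σ : K →ₐ[ℚ] ℂ => σ (β (some i)) = r)).card := by
        rw [← Finset.prod_const]
        apply Finset.prod_congr rfl
        intro σ hσ
        rw [(Finset.mem_filter.1 hσ).2]
      rw [h2]
      exact pow_le_pow_right₀ (le_max_left _ _) (hfib r hr)
    calc ∏ r ∈ T (some i), ∏ σ ∈ Finset.univ.filter (fun σ : K →ₐ[ℚ] ℂ => σ (β (some i)) = r),
          max 1 ‖σ (β (some i))‖
        ≤ ∏ r ∈ T (some i), (max 1 ‖r‖) ^ (2 * d ^ (m - 1)) :=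
          Finset.prod_le_prod (fun r _ => Finset.prod_nonneg fun _ _ => by positivity) h1
      _ = (∏ r ∈ T (some i), max 1 ‖r‖) ^ (2 * d ^ (m - 1)) := by rw [Finset.prod_pow]
      _ ≤ (Real.exp d) ^ (2 * d ^ (m - 1)) := by
          apply pow_le_pow_left₀ (Finset.prod_nonneg fun _ _ => by positivity)
          exact hFprod i
      _ = Real.exp (2 * (d : ℝ) ^ m) := by
          rw [← Real.exp_nat_mul]
          congr 1
          push_cast
          have : (d : ℝ) ^ m = (d : ℝ) ^ (m - 1) * d := by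
            rw [← pow_succ, Nat.sub_add_cancel hm1]
          rw [this]; ring
  have hHr : (2 : ℝ) ≤ H := by exact_mod_cast hH
  have hgen0 : ∏ σ : K →ₐ[ℚ] ℂ, max 1 ‖σ (β none)‖ ≤ (2 * (H : ℝ)) ^ (2 * d ^ m) := by
    calc ∏ σ : K →ₐ[ℚ] ℂ, max 1 ‖σ (β none)‖ ≤ ∏ _σ : K →ₐ[ℚ] ℂ, (2 * (H : ℝ)) := by
          apply Finset.prod_le_prod (fun _ _ => by positivity)
          intro σ _
          apply max_le (by linarith)
          exact hG0roots _ (Multiset.mem_toFinset.1 (hσT σ none))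
      _ = (2 * (H : ℝ)) ^ (Finset.univ : Finset (K →ₐ[ℚ] ℂ)).card := by
          rw [Finset.prod_const]
      _ ≤ _ := pow_le_pow_right₀ (by linarith) hcard
  -- bounds of the conjugates of `y`
  have hcS : 1 ≤ cSum P := one_le_cSum (by rintro rfl; exact hv (map_zero _))
  have hcSr : (1 : ℝ) ≤ cSum P := by exact_mod_cast hcS
  have hLabs : ‖(L : ℂ)‖ ≤ H := by rw [Complex.norm_intCast]; exact hG0lc
  set b : (K →ₐ[ℚ] ℂ) → ℝ := fun σ =>
    (H : ℝ) ^ D * ((cSum P : ℝ) * (∏ o, max 1 ‖σ (β o)‖) ^ D) with hb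
  have hb1 : ∀ σ, 1 ≤ b σ := by
    intro σ
    have h1 : (1 : ℝ) ≤ (H : ℝ) ^ D := one_le_pow₀ (by linarith)
    have h2 : (1 : ℝ) ≤ (∏ o, max 1 ‖σ (β o)‖) ^ D :=
      one_le_pow₀ (one_le_prod_max _ _)
    exact one_le_mul_of_one_le_of_one_le h1 (one_le_mul_of_one_le_of_one_le hcSr h2)
  have hyb : ∀ σ, ‖σ y‖ ≤ b σ := by
    intro σ
    rw [hyval σ, norm_mul, norm_pow]
    exact mul_le_mul (pow_le_pow_left₀ (norm_nonneg _) hLabs _)
      (L3.norm_aeval_le P (fun i => σ (β i))) (norm_nonneg _) (by positivity)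
  have hprodb : ∏ σ, b σ ≤ ((H : ℝ) ^ D * cSum P) ^ (2 * d ^ m) *
      ((2 * (H : ℝ)) ^ (2 * d ^ m) * Real.exp (2 * (d : ℝ) ^ m) ^ m) ^ D := by
    have h1 : ∏ σ, b σ = ((H : ℝ) ^ D * cSum P) ^ (Finset.univ : Finset (K →ₐ[ℚ] ℂ)).card *
        (∏ o, ∏ σ : K →ₐ[ℚ] ℂ, max 1 ‖σ (β o)‖) ^ D := by
      rw [Finset.prod_comm, ← Finset.prod_pow, ← Finset.prod_const, ← Finset.prod_mul_distrib]
      apply Finset.prod_congr rfl
      intro σ _
      rw [hb]; ring
    rw [h1]
    apply mul_le_mul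
    · apply pow_le_pow_right₀ _ hcard
      exact one_le_mul_of_one_le_of_one_le (one_le_pow₀ (by linarith)) hcSr
    · apply pow_le_pow_left₀ (Finset.prod_nonneg fun _ _ =>
        Finset.prod_nonneg fun _ _ => by positivity)
      rw [Fintype.prod_option]
      apply mul_le_mul hgen0 _ (Finset.prod_nonneg fun _ _ =>
        Finset.prod_nonneg fun _ _ => by positivity) (by positivity)
      calc ∏ i, ∏ σ : K →ₐ[ℚ] ℂ, max 1 ‖σ (β (some i))‖
          ≤ ∏ _i : Fin m, Real.exp (2 * (d : ℝ) ^ m) :=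
            Finset.prod_le_prod (fun _ _ => Finset.prod_nonneg fun _ _ => by positivity)
              fun i _ => hgen i
        _ = Real.exp (2 * (d : ℝ) ^ m) ^ m := by simp
    · exact pow_nonneg (Finset.prod_nonneg fun _ _ =>
        Finset.prod_nonneg fun _ _ => by positivity) _
    · positivity
  -- in terms of the exponential function
  have hHpos : (0 : ℝ) < H := by linarith
  have hlogH : 0 ≤ Real.log H := Real.log_nonneg (by linarith)
  have hexpH : (H : ℝ) = Real.exp (Real.log H) := (Real.exp_log hHpos).symm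
  have h2H : (2 * (H : ℝ)) ≤ Real.exp (1 + Real.log H) := by
    rw [Real.exp_add, Real.exp_log hHpos]
    have := Real.add_one_le_exp (1 : ℝ)
    exact mul_le_mul_of_nonneg_right (by linarith) hHpos.le
  have hcSe : (cSum P : ℝ) ≤ Real.exp (cSum P) := by
    linarith [Real.add_one_le_exp (cSum P : ℝ)]
  have hdm : (1 : ℝ) ≤ (d : ℝ) ^ m := one_le_pow₀ (by exact_mod_cast hd)
  set E : ℝ := (1 + Real.log H) * (d : ℝ) ^ m with hE
  have hbig : ∏ σ, b σ ≤ Real.exp ((2 * (3 * D + cSum P + m * D) : ℕ) * E) := by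
    refine hprodb.trans ?_
    have e1 : (H : ℝ) ^ D * cSum P ≤ Real.exp (D * Real.log H + cSum P) := by
      rw [Real.exp_add, Real.exp_nat_mul, Real.exp_log hHpos]
      exact mul_le_mul_of_nonneg_left hcSe (by positivity)
    calc ((H : ℝ) ^ D * cSum P) ^ (2 * d ^ m) *
        ((2 * (H : ℝ)) ^ (2 * d ^ m) * Real.exp (2 * (d : ℝ) ^ m) ^ m) ^ D
        ≤ Real.exp (D * Real.log H + cSum P) ^ (2 * d ^ m) *
        (Real.exp (1 + Real.log H) ^ (2 * d ^ m) * Real.exp (2 * (d : ℝ) ^ m) ^ m) ^ D := by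
          gcongr
      _ = Real.exp (2 * (d : ℝ) ^ m * (D * Real.log H + cSum P + D * (1 + Real.log H) + m * D)) := by
          rw [← Real.exp_nat_mul, ← Real.exp_nat_mul, ← Real.exp_nat_mul, ← Real.exp_add,
            ← Real.exp_nat_mul, ← Real.exp_add]
          congr 1
          push_cast; ring
      _ ≤ _ := by
          apply Real.exp_le_exp.2
          have e2 : D * Real.log H + cSum P + D * (1 + Real.log H) + m * D ≤
              (3 * D + cSum P + m * D) * (1 + Real.log H) := by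
            have f1 : 0 ≤ (D : ℝ) * Real.log H := by positivity
            have f2 : 0 ≤ (cSum P : ℝ) * Real.log H := by positivity
            have f3 : 0 ≤ (m * D : ℝ) * Real.log H := by positivity
            have f4 : 0 ≤ (D : ℝ) := Nat.cast_nonneg D
            nlinarith
          have e3 : 2 * (d : ℝ) ^ m * (D * Real.log H + cSum P + D * (1 + Real.log H) + m * D) ≤
              2 * (d : ℝ) ^ m * ((3 * D + cSum P + m * D) * (1 + Real.log H)) :=
            mul_le_mul_of_nonneg_left e2 (by positivity)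
          refine e3.trans (le_of_eq ?_)
          rw [hE]; push_cast; ring
  have hsplit : ∏ σ : K →ₐ[ℚ] ℂ, ‖σ y‖ =
      ‖(K.val) y‖ * ∏ σ ∈ Finset.univ.erase K.val, ‖σ y‖ :=
    (Finset.mul_prod_erase Finset.univ (fun σ : K →ₐ[ℚ] ℂ => ‖σ y‖) (Finset.mem_univ K.val)).symm
  have hrest : ∏ σ ∈ Finset.univ.erase K.val, ‖σ y‖ ≤ ∏ σ, b σ := by
    calc ∏ σ ∈ Finset.univ.erase K.val, ‖σ y‖ ≤ ∏ σ ∈ Finset.univ.erase K.val, b σ :=
          Finset.prod_le_prod (fun _ _ => norm_nonneg _) fun σ _ => hyb σ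
      _ = 1 * ∏ σ ∈ Finset.univ.erase K.val, b σ := (one_mul _).symm
      _ ≤ b K.val * ∏ σ ∈ Finset.univ.erase K.val, b σ :=
          mul_le_mul_of_nonneg_right (hb1 _)
            (Finset.prod_nonneg fun σ _ => (zero_le_one.trans (hb1 σ)))
      _ = ∏ σ, b σ := Finset.mul_prod_erase Finset.univ b (Finset.mem_univ K.val)
  have hval : ‖(K.val) y‖ ≤ Real.exp (D * E) * ‖MvPolynomial.aeval x P‖ := by
    rw [hyα, norm_mul, norm_pow]
    refine mul_le_mul_of_nonneg_right ?_ (norm_nonneg _)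
    refine (pow_le_pow_left₀ (norm_nonneg _) hLabs _).trans ?_
    rw [hexpH, ← Real.exp_nat_mul]
    apply Real.exp_le_exp.2
    apply mul_le_mul_of_nonneg_left _ (Nat.cast_nonneg D)
    rw [hE]
    nlinarith
  have hfin : 1 ≤ Real.exp ((2 * (3 * D + cSum P + m * D) + D : ℕ) * E) *
      ‖MvPolynomial.aeval x P‖ := by
    calc (1 : ℝ) ≤ ‖(K.val) y‖ * ∏ σ ∈ Finset.univ.erase K.val, ‖σ y‖ := by
          rw [← hsplit]; exact hprod
      _ ≤ (Real.exp (D * E) * ‖MvPolynomial.aeval x P‖) *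
          Real.exp ((2 * (3 * D + cSum P + m * D) : ℕ) * E) :=
          mul_le_mul hval (hrest.trans hbig) (Finset.prod_nonneg fun _ _ => norm_nonneg _)
            (by positivity)
      _ = _ := by
          have : Real.exp ((2 * (3 * D + cSum P + m * D) + D : ℕ) * E) =
              Real.exp ((2 * (3 * D + cSum P + m * D) : ℕ) * E) * Real.exp (D * E) := by
            rw [← Real.exp_add]; congr 1; push_cast; ring
          rw [this]; ring
  have hgoal : ((2 * (3 * D + cSum P + m * D) + D : ℕ) : ℝ) * (1 + Real.log H) * (d : ℝ) ^ m =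
      ((2 * (3 * D + cSum P + m * D) + D : ℕ) : ℝ) * E := by rw [hE]; ring
  rw [hgoal, Real.exp_neg]
  exact (inv_le_iff_one_le_mul₀' (Real.exp_pos _)).2 hfin

end Pool.Agent.Lib.MP_47914d_nt
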