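import Pool.Agent.Lib.MP_47914d_nt.Defs3
import Pool.Agent.Lib.MP_47914d_nt.InjFull
import Pool.Agent.Lib.MP_47914d_nt.Curve3
import Pool.Agent.Lib.MP_47914d_nt.Class
import Pool.Agent.Lib.MP_47914d_nt.Liou3

section
/-!
The divisor bound.
-/
set_option autoImplicit false

namespace Pool.Agent.Lib.MP_47914d_nt

theorem specDiv : SpecDiv := by
  intro ε hε
  have hl2 : 0 < Real.log 2 := Real.log_pos (by norm_num)
  set c : ℝ := max 1 (1 / (ε * Real.log 2)) with hc
  have hc1 : 1 ≤ c := le_max_left _ _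
  have hc2 : 1 / (ε * Real.log 2) ≤ c := le_max_right _ _
  obtain ⟨P, hP⟩ := exists_nat_ge ((2 : ℝ) ^ (1 / ε))
  refine ⟨c ^ P, fun m hm => ?_⟩
  have hm0 : m ≠ 0 := hm.ne'
  -- the local bound
  have hloc : ∀ p ∈ m.primeFactors, ((m.factorization p + 1 : ℕ) : ℝ) ≤
      (if p < P then c else 1) * (((p ^ m.factorization p : ℕ) : ℝ) ^ ε) := by
    intro p hp
    have hp' := Nat.prime_of_mem_primeFactors hp
    set e := m.factorization p with he
    have hp0 : (0 : ℝ) ≤ (p : ℝ) := Nat.cast_nonneg p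
    have hpe : (((p ^ e : ℕ) : ℝ) ^ ε) = ((p : ℝ) ^ ε) ^ e := by
      push_cast
      rw [← Real.rpow_natCast, ← Real.rpow_mul hp0, ← Real.rpow_natCast, ← Real.rpow_mul hp0,
        mul_comm]
    rw [hpe]
    split_ifs with h
    · -- small primes
      have h2 : (2 : ℝ) ^ ε ≤ (p : ℝ) ^ ε :=
        Real.rpow_le_rpow (by norm_num) (by exact_mod_cast hp'.two_le) hε.le
      have h3 : 1 + e * (ε * Real.log 2) ≤ ((p : ℝ) ^ ε) ^ e := by
        calc 1 + e * (ε * Real.log 2) ≤ Real.exp (e * (ε * Real.log 2)) := by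
              have := Real.add_one_le_exp ((e : ℝ) * (ε * Real.log 2))
              linarith
          _ = ((2 : ℝ) ^ ε) ^ e := by
              rw [Real.rpow_def_of_pos (by norm_num), ← Real.exp_nat_mul]
              ring_nf
          _ ≤ _ := pow_le_pow_left₀ (by positivity) h2 e
      have h4 : ((e + 1 : ℕ) : ℝ) ≤ c * (1 + e * (ε * Real.log 2)) := by
        have h5 : 1 ≤ c * (ε * Real.log 2) := by
          have := mul_le_mul_of_nonneg_right hc2 (by positivity : 0 ≤ ε * Real.log 2)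
          rwa [one_div, inv_mul_cancel₀ (by positivity)] at this
        push_cast
        have h6 : (e : ℝ) * 1 ≤ e * (c * (ε * Real.log 2)) :=
          mul_le_mul_of_nonneg_left h5 (Nat.cast_nonneg e)
        linarith
      exact h4.trans (mul_le_mul_of_nonneg_left h3 (by positivity))
    · -- large primes
      push Not at h
      have h2 : (2 : ℝ) ≤ (p : ℝ) ^ ε := by
        have h3 : (2 : ℝ) ^ (1 / ε) ≤ p := hP.trans (by exact_mod_cast h)
        calc (2 : ℝ) = ((2 : ℝ) ^ (1 / ε)) ^ ε := by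
              rw [← Real.rpow_mul (by norm_num), one_div, inv_mul_cancel₀ hε.ne', Real.rpow_one]
          _ ≤ _ := Real.rpow_le_rpow (by positivity) h3 hε.le
      have h3 : ((e + 1 : ℕ) : ℝ) ≤ 2 ^ e := by
        have : e + 1 ≤ 2 ^ e := Nat.lt_two_pow_self
        exact_mod_cast this
      rw [one_mul]
      exact h3.trans (pow_le_pow_left₀ (by norm_num) h2 e)
  have hcard : (m.divisors.card : ℝ) =
      ∏ p ∈ m.primeFactors, ((m.factorization p + 1 : ℕ) : ℝ) := by
    rw [Nat.card_divisors hm0]; push_cast; rfl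
  have hself : (m : ℝ) ^ ε =
      ∏ p ∈ m.primeFactors, ((p ^ m.factorization p : ℕ) : ℝ) ^ ε := by
    conv_lhs => rw [← Nat.prod_factorization_pow_eq_self hm0]
    rw [Finsupp.prod, Nat.support_factorization, Nat.cast_prod,
      Real.finsetProd_rpow _ _ (fun i _ => Nat.cast_nonneg _)]
  have hite : ∏ p ∈ m.primeFactors, (if p < P then c else 1) ≤ c ^ P := by
    rw [← Finset.prod_filter, Finset.prod_const]
    apply pow_le_pow_right₀ hc1
    calc (m.primeFactors.filter (fun p => p < P)).card ≤ (Finset.range P).card := by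
          apply Finset.card_le_card
          intro p hp
          exact Finset.mem_range.2 (Finset.mem_filter.1 hp).2
      _ = P := Finset.card_range P
  calc (m.divisors.card : ℝ) = ∏ p ∈ m.primeFactors, ((m.factorization p + 1 : ℕ) : ℝ) := hcard
    _ ≤ ∏ p ∈ m.primeFactors,
        ((if p < P then c else 1) * (((p ^ m.factorization p : ℕ) : ℝ) ^ ε)) :=
        Finset.prod_le_prod (fun _ _ => by positivity) hloc
    _ = (∏ p ∈ m.primeFactors, (if p < P then c else 1)) * (m : ℝ) ^ ε := by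
        rw [Finset.prod_mul_distrib, hself]
    _ ≤ c ^ P * (m : ℝ) ^ ε := mul_le_mul_of_nonneg_right hite (by positivity)

end Pool.Agent.Lib.MP_47914d_nt
end

section
/-!
Numbers all of whose power sums lie in a noetherian ring are integral.
-/
set_option autoImplicit false

namespace Pool.Agent.Lib.MP_47914d_nt

open Polynomial

theorem specIntSym : SpecIntSym := by
  classical
  intro R L _ _ _ _ _ ι _ x hx i₀
  choose! r hr using hx
  set t := x i₀ with ht
  set T : Finset L := Finset.univ.image x with hT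
  set B : L[X] := Lagrange.basis T id t with hB
  have htT : t ∈ T := Finset.mem_image_of_mem _ (Finset.mem_univ _)
  have hinj : Set.InjOn (id : L → L) (T : Set L) := Function.injective_id.injOn
  have hBt : B.eval t = 1 := Lagrange.eval_basis_self hinj htT
  have hBs : ∀ s ∈ T, s ≠ t → B.eval s = 0 := fun s hs hst =>
    Lagrange.eval_basis_of_ne (v := id) (Ne.symm hst) hs
  set m : ℕ := (Finset.univ.filter (fun i => x i = t)).card with hm
  have hm0 : (m : L) ≠ 0 := by
    have : 0 < m := Finset.card_pos.2 ⟨i₀, by simp [ht]⟩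
    exact_mod_cast this.ne'
  have key : ∀ l : ℕ, 1 ≤ l →
      t ^ l = ∑ j ∈ Finset.range (B.natDegree + 1), r (l + j) • (B.coeff j / m) := by
    intro l hl
    have h1 : ∑ i, x i ^ l * B.eval (x i) = m * t ^ l := by
      have h2 : ∀ i, x i ^ l * B.eval (x i) = if x i = t then t ^ l else 0 := by
        intro i
        split_ifs with h
        · rw [h, hBt, mul_one]
        · rw [hBs _ (Finset.mem_image_of_mem _ (Finset.mem_univ _)) h, mul_zero]
      rw [Finset.sum_congr rfl fun i _ => h2 i, ← Finset.sum_filter, Finset.sum_const,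
        nsmul_eq_mul]
    have h2 : ∑ i, x i ^ l * B.eval (x i) =
        ∑ j ∈ Finset.range (B.natDegree + 1), B.coeff j * algebraMap R L (r (l + j)) := by
      calc ∑ i, x i ^ l * B.eval (x i)
          = ∑ i, ∑ j ∈ Finset.range (B.natDegree + 1), B.coeff j * x i ^ (l + j) := by
            apply Finset.sum_congr rfl
            intro i _
            rw [eval_eq_sum_range, Finset.mul_sum]
            apply Finset.sum_congr rfl
            intro j _
            rw [pow_add]; ring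
        _ = ∑ j ∈ Finset.range (B.natDegree + 1), B.coeff j * ∑ i, x i ^ (l + j) := by
            rw [Finset.sum_comm]
            apply Finset.sum_congr rfl
            intro j _
            rw [Finset.mul_sum]
        _ = _ := by
            apply Finset.sum_congr rfl
            intro j _
            rw [hr (l + j) (by omega)]
    have h3 : t ^ l = (m : L)⁻¹ * (m * t ^ l) := by
      rw [← mul_assoc, inv_mul_cancel₀ hm0, one_mul]
    rw [h3, ← h1, h2, Finset.mul_sum]
    apply Finset.sum_congr rfl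
    intro j _
    rw [Algebra.smul_def]
    field_simp
  -- the finitely generated module
  set s : Finset L := insert 1 ((Finset.range (B.natDegree + 1)).image (fun j => B.coeff j / m))
    with hs
  set M : Submodule R L := Submodule.span R (s : Set L) with hM
  have hfg : M.FG := ⟨s, rfl⟩
  have hpow : ∀ l : ℕ, t ^ l ∈ M := by
    intro l
    rcases Nat.eq_zero_or_pos l with h | h
    · rw [h, pow_zero]
      exact Submodule.subset_span (by simp [hs])
    · rw [key l h]
      apply Submodule.sum_mem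
      intro j hj
      apply Submodule.smul_mem
      apply Submodule.subset_span
      rw [hs, Finset.coe_insert]
      right
      exact Finset.mem_coe.2 (Finset.mem_image_of_mem _ hj)
  have hle : (Algebra.adjoin R {t}).toSubmodule ≤ M := by
    rw [Algebra.adjoin_eq_span, Submodule.span_le]
    intro y hy
    obtain ⟨l, rfl⟩ := Submonoid.mem_closure_singleton.1 hy
    exact hpow l
  have hfg2 : (Algebra.adjoin R {t}).toSubmodule.FG := hfg.of_le hle
  exact IsIntegral.of_mem_of_fg _ hfg2 t (Algebra.subset_adjoin (Set.mem_singleton t))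

end Pool.Agent.Lib.MP_47914d_nt
end

section
/-!
Module PSI: the modular polynomial on the diagonal is monic with integral coefficients.
-/
set_option autoImplicit false

open Complex Filter Topology Polynomial
open scoped Real

namespace Pool.Agent.Lib.MP_47914d_nt

/-- There is a point where `Jc` is transcendental over `ℤ`. -/
lemma exists_transc : ∃ z : ℂ, 0 < z.im ∧ Transcendental ℤ (Jc z) := by
  obtain ⟨r, hr⟩ : ∃ r : ℂ, Transcendental ℤ r := by
    have h := Algebraic.countable ℤ ℂ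
    by_contra hcon
    have h2 : {x : ℂ | IsAlgebraic ℤ x} = Set.univ :=
      Set.eq_univ_of_forall fun x => by
        by_contra hx
        exact hcon ⟨x, hx⟩
    rw [h2] at h
    exact not_countable_complex h
  obtain ⟨w, hw, hwr⟩ := specJ.surj r
  exact ⟨w, by linarith, by rw [hwr]; exact hr⟩

/-- An element of `ℤ[X]` whose value at a transcendental number is `m` times an integral element is
divisible by `m`. -/
lemma divis_of_integral (t : ℂ) (ht : Transcendental ℤ t) (Ψ₀ : ℤ[X]) (m : ℤ) (hm : m ≠ 0) (f : ℂ)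
    (hf : letI := (aeval t : ℤ[X] →ₐ[ℤ] ℂ).toRingHom.toAlgebra; IsIntegral ℤ[X] f)
    (h : aeval t Ψ₀ = (m : ℂ) * f) : ∃ Ψ₁ : ℤ[X], Ψ₀ = C m * Ψ₁ := by
  let alg : Algebra ℤ[X] ℂ := (aeval t : ℤ[X] →ₐ[ℤ] ℂ).toRingHom.toAlgebra
  have halg : ∀ p : ℤ[X], algebraMap ℤ[X] ℂ p = aeval t p := fun p => rfl
  have hinj : Function.Injective (algebraMap ℤ[X] ℂ) := by
    rw [injective_iff_map_eq_zero]
    intro p hp
    rw [halg] at hp
    by_contra h0
    exact ht ⟨p, h0, hp⟩
  let K := FractionRing ℤ[X]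
  have hC : (algebraMap ℤ[X] K (C m)) ≠ 0 := by
    rw [Ne, IsFractionRing.to_map_eq_zero_iff]
    simpa using hm
  let φ : K →ₐ[ℤ[X]] ℂ := IsFractionRing.liftAlgHom (g := Algebra.ofId ℤ[X] ℂ) hinj
  have hφinj : Function.Injective φ := φ.toRingHom.injective
  let y : K := algebraMap ℤ[X] K Ψ₀ / algebraMap ℤ[X] K (C m)
  have hy : φ y = f := by
    have h1 : y * algebraMap ℤ[X] K (C m) = algebraMap ℤ[X] K Ψ₀ := div_mul_cancel₀ _ hC
    have h2 := congrArg φ h1
    rw [map_mul, φ.commutes, φ.commutes, halg, halg, h, aeval_C] at h2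
    have hm' : (m : ℂ) ≠ 0 := by exact_mod_cast hm
    have h3 : (algebraMap ℤ ℂ) m = (m : ℂ) := by simp
    rw [h3, mul_comm] at h2
    exact mul_left_cancel₀ hm' h2
  have hyint : IsIntegral ℤ[X] y := by
    rw [← isIntegral_algHom_iff φ hφinj, hy]
    exact hf
  obtain ⟨Ψ₁, hΨ₁⟩ := IsIntegrallyClosed.isIntegral_iff.1 hyint
  refine ⟨Ψ₁, ?_⟩
  apply IsFractionRing.injective ℤ[X] K
  rw [map_mul, hΨ₁, mul_comm]
  exact (div_mul_cancel₀ _ hC).symm

/-- The product over the diagonal is an integral polynomial in `Jc`. -/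
lemma diag_poly (N : ℕ) (hN : 0 < N) : ∃ Ψ : ℤ[X], ∀ z : ℂ, 0 < z.im →
    aeval (Jc z) Ψ = ∏ p ∈ N.divisorsAntidiagonal, ∏ b ∈ Finset.range p.2,
      (Jc z - Jc (((p.1 : ℂ) * z + (b : ℂ)) / (p.2 : ℂ))) := by
  classical
  obtain ⟨Ψ₀, -, hΨ₀⟩ := specNewton N hN fun m => powerSum N m hN
  obtain ⟨z₀, hz₀, ht⟩ := exists_transc
  set M := (∑ p ∈ N.divisorsAntidiagonal, p.2).factorial with hM
  have hM0 : M ≠ 0 := Nat.factorial_ne_zero _
  set t := Jc z₀ with htdef
  let σ := Σ p : {p : ℕ × ℕ // p ∈ N.divisorsAntidiagonal}, Fin p.1.2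
  let x : ℂ → σ → ℂ := fun z s => Jc (((s.1.1.1 : ℂ) * z + ((s.2 : ℕ) : ℂ)) / (s.1.1.2 : ℂ))
  have hsum : ∀ (m : ℕ) (z : ℂ), ∑ s, x z s ^ m = heckeSum N (fun w => Jc w ^ m) z := by
    intro m z
    rw [heckeSum, Fintype.sum_sigma, ← Finset.sum_coe_sort N.divisorsAntidiagonal]
    refine Finset.sum_congr rfl fun p _ => ?_
    rw [Finset.sum_range]
  have hprod : ∀ z : ℂ, ∏ s, (Jc z - x z s) = ∏ p ∈ N.divisorsAntidiagonal,
      ∏ b ∈ Finset.range p.2, (Jc z - Jc (((p.1 : ℂ) * z + (b : ℂ)) / (p.2 : ℂ))) := by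
    intro z
    rw [Fintype.prod_sigma, ← Finset.prod_coe_sort N.divisorsAntidiagonal]
    refine Finset.prod_congr rfl fun p _ => ?_
    rw [Finset.prod_range]
  obtain ⟨Ψ₁, hΨ₁⟩ : ∃ Ψ₁ : ℤ[X], Ψ₀ = C (M : ℤ) * Ψ₁ := by
    apply divis_of_integral t ht Ψ₀ M (by exact_mod_cast hM0) (∏ s, (Jc z₀ - x z₀ s))
    · let alg : Algebra ℤ[X] ℂ := (aeval t : ℤ[X] →ₐ[ℤ] ℂ).toRingHom.toAlgebra
      have halg : ∀ p : ℤ[X], algebraMap ℤ[X] ℂ p = aeval t p := fun p => rfl
      have h1 := specIntSym ℤ[X] ℂ σ (x z₀) (fun m _ => by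
        obtain ⟨Q, -, hQ⟩ := powerSum N m hN
        exact ⟨Q, by rw [halg, hsum, hQ z₀ hz₀]⟩)
      have h2 : IsIntegral ℤ[X] (Jc z₀) := by
        have h3 : Jc z₀ = algebraMap ℤ[X] ℂ X := by rw [halg, aeval_X]
        rw [h3]
        exact isIntegral_algebraMap
      exact IsIntegral.prod _ fun s _ => h2.sub (h1 s)
    · rw [hΨ₀ z₀ hz₀, hprod]
      simp
  refine ⟨Ψ₁, fun z hz => ?_⟩
  have h1 := hΨ₀ z hz
  rw [hΨ₁, map_mul, aeval_C] at h1
  have hM' : (M : ℂ) ≠ 0 := by exact_mod_cast hM0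
  have h3 : (algebraMap ℤ ℂ) (M : ℤ) = (M : ℂ) := by simp
  rw [h3] at h1
  exact mul_left_cancel₀ hM' h1

/-- Real part of the comparison: `e^{2πμy}(1 + o(1))`. -/
lemma norm_growth (J1 J2 : ℝ → ℂ) (E1 E2 : ℝ → ℂ) (ν μ C : ℝ) (hνμ : ν < μ) (hμ : 0 < μ)
    (h1 : ∀ᶠ y in atTop, ‖J1 y - E1 y‖ ≤ C) (h2 : ∀ᶠ y in atTop, ‖J2 y - E2 y‖ ≤ C)
    (hE1 : ∀ y, ‖E1 y‖ = Real.exp (2 * π * μ * y)) (hE2 : ∀ y, ‖E2 y‖ = Real.exp (2 * π * ν * y)) :
    Tendsto (fun y : ℝ => ‖J1 y - J2 y‖ * Real.exp (-(2 * π * μ * y))) atTop (𝓝 1) := by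
  have key : ∀ᶠ y in atTop, |‖J1 y - J2 y‖ * Real.exp (-(2 * π * μ * y)) - 1| ≤
      Real.exp (-(2 * π * (μ - ν) * y)) + 2 * C * Real.exp (-(2 * π * μ * y)) := by
    filter_upwards [h1, h2] with y h1 h2
    have h3 : |‖J1 y - J2 y‖ - ‖E1 y‖| ≤ ‖E2 y‖ + 2 * C := by
      have h4 := abs_norm_sub_norm_le (J1 y - J2 y) (E1 y)
      have h5 : J1 y - J2 y - E1 y = (J1 y - E1 y) - (J2 y - E2 y) - E2 y := by ring
      have h6 : ‖J1 y - J2 y - E1 y‖ ≤ ‖J1 y - E1 y‖ + ‖J2 y - E2 y‖ + ‖E2 y‖ := by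
        rw [h5]
        exact (norm_sub_le _ _).trans (by gcongr; exact norm_sub_le _ _)
      linarith
    rw [hE1, hE2] at h3
    have h7 : ‖J1 y - J2 y‖ * Real.exp (-(2 * π * μ * y)) - 1 =
        (‖J1 y - J2 y‖ - Real.exp (2 * π * μ * y)) * Real.exp (-(2 * π * μ * y)) := by
      rw [sub_mul, ← Real.exp_add, add_neg_cancel, Real.exp_zero]
    rw [h7, abs_mul, abs_of_pos (Real.exp_pos _)]
    refine (mul_le_mul_of_nonneg_right h3 (Real.exp_pos _).le).trans (le_of_eq ?_)
    rw [add_mul, ← Real.exp_add]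
    congr 2
    ring
  have hlim : ∀ c : ℝ, 0 < c → Tendsto (fun y : ℝ => Real.exp (-(2 * π * c * y))) atTop (𝓝 0) := by
    intro c hc
    refine Real.tendsto_exp_neg_atTop_nhds_zero.comp ?_
    exact tendsto_id.const_mul_atTop (by positivity)
  have hlim2 : Tendsto (fun y : ℝ => Real.exp (-(2 * π * (μ - ν) * y)) +
      2 * C * Real.exp (-(2 * π * μ * y))) atTop (𝓝 0) := by
    have := (hlim (μ - ν) (by linarith)).add ((hlim μ hμ).const_mul (2 * C))
    simpa using this
  have h8 : Tendsto (fun y : ℝ => ‖J1 y - J2 y‖ * Real.exp (-(2 * π * μ * y)) - 1) atTop (𝓝 0) :=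
    squeeze_zero_norm' key hlim2
  have h9 := h8.add_const 1
  simpa using h9

lemma factor_growth (a d b : ℕ) (ha : 0 < a) (hd : 0 < d) (had : a ≠ d) :
    Tendsto (fun y : ℝ => ‖Jc ((y : ℂ) * Complex.I) -
      Jc (((a : ℂ) * ((y : ℂ) * Complex.I) + (b : ℂ)) / (d : ℂ))‖ *
        Real.exp (-(2 * π * ((max a d : ℕ) / (d : ℝ)) * y))) atTop (𝓝 1) := by
  obtain ⟨C, hC⟩ := specJ.growth
  have hd' : (0 : ℝ) < d := by exact_mod_cast hd
  have ha' : (0 : ℝ) < a := by exact_mod_cast ha
  set r : ℝ := (a : ℝ) / d with hr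
  have hr0 : 0 < r := by positivity
  have him : ∀ y : ℝ, (((a : ℂ) * ((y : ℂ) * Complex.I) + (b : ℂ)) / (d : ℂ)).im = r * y := by
    intro y
    rw [Complex.div_natCast_im]
    simp [hr]
    ring
  have h1 : ∀ᶠ y : ℝ in atTop, ‖Jc ((y : ℂ) * Complex.I) -
      cexp (-(2 * π * Complex.I * ((y : ℂ) * Complex.I)))‖ ≤ C := by
    filter_upwards [eventually_ge_atTop 1] with y hy
    exact hC _ (by simpa using hy)
  have h2 : ∀ᶠ y : ℝ in atTop, ‖Jc (((a : ℂ) * ((y : ℂ) * Complex.I) + (b : ℂ)) / (d : ℂ)) -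
      cexp (-(2 * π * Complex.I * (((a : ℂ) * ((y : ℂ) * Complex.I) + (b : ℂ)) / (d : ℂ))))‖
        ≤ C := by
    filter_upwards [eventually_ge_atTop (1 / r)] with y hy
    refine hC _ ?_
    rw [him]
    rw [div_le_iff₀ hr0] at hy
    linarith
  have hnorm : ∀ w : ℂ, ‖cexp (-(2 * π * Complex.I * w))‖ = Real.exp (2 * π * w.im) := by
    intro w
    rw [Complex.norm_exp]
    congr 1
    simp [Complex.mul_re, Complex.mul_im]
  have hE1 : ∀ y : ℝ, ‖cexp (-(2 * π * Complex.I * ((y : ℂ) * Complex.I)))‖ =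
      Real.exp (2 * π * 1 * y) := by
    intro y
    rw [hnorm]
    simp
  have hE2 : ∀ y : ℝ, ‖cexp (-(2 * π * Complex.I * (((a : ℂ) * ((y : ℂ) * Complex.I) + (b : ℂ)) /
      (d : ℂ))))‖ = Real.exp (2 * π * r * y) := by
    intro y
    rw [hnorm, him, mul_assoc (2 * π)]
  rcases lt_or_gt_of_ne had with h | h
  · have h3 : ((max a d : ℕ) : ℝ) / d = 1 := by
      rw [max_eq_right h.le]
      exact div_self hd'.ne'
    rw [h3]
    have h4 : r < 1 := by
      rw [hr, div_lt_one hd']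
      exact_mod_cast h
    exact norm_growth _ _ _ _ r 1 C h4 one_pos h1 h2 hE1 hE2
  · have h3 : ((max a d : ℕ) : ℝ) / d = r := by
      rw [max_eq_left h.le]
    rw [h3]
    have h4 : 1 < r := by
      rw [hr, one_lt_div hd']
      exact_mod_cast h
    have h5 := norm_growth _ _ _ _ 1 r C h4 hr0 h2 h1 hE2 hE1
    refine h5.congr fun y => ?_
    rw [norm_sub_rev]

/-- A complex polynomial with integral coefficients which grows like `w ^ n` in norm along a
sequence tending to infinity has leading coefficient `±1`. -/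
lemma leading_of_growth {α : Type*} (l : Filter α) [l.NeBot] (P : ℤ[X]) (w : α → ℂ) (n : ℕ)
    (hw : Tendsto (fun a => ‖w a‖) l atTop)
    (h : Tendsto (fun a => ‖aeval (w a) P‖ / ‖w a‖ ^ n) l (𝓝 1)) :
    P.leadingCoeff = 1 ∨ P.leadingCoeff = -1 := by
  have hP : P ≠ 0 := by
    rintro rfl
    simp only [map_zero, norm_zero, zero_div] at h
    exact zero_ne_one (tendsto_nhds_unique tendsto_const_nhds h)
  have hlc : (P.leadingCoeff : ℂ) ≠ 0 := by
    exact_mod_cast leadingCoeff_ne_zero.2 hP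
  have hinv : Tendsto (fun a => (w a)⁻¹) l (𝓝 0) := by
    rw [tendsto_zero_iff_norm_tendsto_zero]
    simp only [norm_inv]
    exact hw.inv_tendsto_atTop
  have hrev : Tendsto (fun a => ‖aeval (w a)⁻¹ P.reverse‖) l (𝓝 ‖(P.leadingCoeff : ℂ)‖) := by
    have h1 : Continuous fun x : ℂ => ‖aeval x P.reverse‖ := by fun_prop
    have h2 := (h1.tendsto 0).comp hinv
    have h3 : ‖aeval (0 : ℂ) P.reverse‖ = ‖(P.leadingCoeff : ℂ)‖ := by
      rw [← coeff_zero_reverse, ← eq_intCast (algebraMap ℤ ℂ), ← coeff_zero_eq_aeval_zero']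
    rw [h3] at h2
    exact h2
  have hne : ∀ᶠ a in l, ‖w a‖ ≠ 0 := by
    filter_upwards [hw.eventually_gt_atTop 0] with a ha
    exact ha.ne'
  have hfac : ∀ᶠ a in l, ‖aeval (w a) P‖ / ‖w a‖ ^ n =
      ‖aeval (w a)⁻¹ P.reverse‖ * (‖w a‖ ^ P.natDegree / ‖w a‖ ^ n) := by
    filter_upwards [hne] with a ha
    have ha' : w a ≠ 0 := norm_ne_zero_iff.1 ha
    let _ := invertibleOfNonzero ha'
    have h4 := eval₂_reverse_mul_pow (algebraMap ℤ ℂ) (w a) P
    rw [invOf_eq_inv] at h4
    rw [aeval_def, aeval_def, ← h4, norm_mul, norm_pow, mul_div_assoc]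
  have hratio : Tendsto (fun a => ‖w a‖ ^ P.natDegree / ‖w a‖ ^ n) l
      (𝓝 (1 / ‖(P.leadingCoeff : ℂ)‖)) := by
    have h5 := (h.congr' hfac).div hrev (norm_ne_zero_iff.2 hlc)
    refine h5.congr' ?_
    have h6 : ∀ᶠ a in l, ‖aeval (w a)⁻¹ P.reverse‖ ≠ 0 :=
      hrev.eventually_ne (norm_ne_zero_iff.2 hlc)
    filter_upwards [h6] with a ha
    change ‖aeval (w a)⁻¹ P.reverse‖ * (‖w a‖ ^ P.natDegree / ‖w a‖ ^ n) /
      ‖aeval (w a)⁻¹ P.reverse‖ = _
    rw [mul_div_cancel_left₀ _ ha]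
  have hpos : (0 : ℝ) < 1 / ‖(P.leadingCoeff : ℂ)‖ := by positivity
  have hdeg : P.natDegree = n := by
    rcases lt_trichotomy P.natDegree n with hlt | heq | hgt
    · exfalso
      have h6 : Tendsto (fun a => ‖w a‖ ^ P.natDegree / ‖w a‖ ^ n) l (𝓝 0) := by
        have h7 : Tendsto (fun a => (‖w a‖ ^ (n - P.natDegree))⁻¹) l (𝓝 0) :=
          ((tendsto_pow_atTop (by omega)).comp hw).inv_tendsto_atTop
        refine h7.congr' ?_
        filter_upwards [hne] with a ha
        rw [← Nat.sub_add_cancel hlt.le, pow_add, Nat.sub_add_cancel hlt.le]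
        field_simp
      exact hpos.ne (tendsto_nhds_unique h6 hratio)
    · exact heq
    · exfalso
      have h6 : Tendsto (fun a => ‖w a‖ ^ P.natDegree / ‖w a‖ ^ n) l atTop := by
        have h7 : Tendsto (fun a => (‖w a‖ ^ (P.natDegree - n))) l atTop :=
          ((tendsto_pow_atTop (by omega)).comp hw)
        refine h7.congr' ?_
        filter_upwards [hne] with a ha
        rw [eq_div_iff (pow_ne_zero _ ha), ← pow_add, Nat.sub_add_cancel hgt.le]
      exact not_tendsto_nhds_of_tendsto_atTop h6 _ hratio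
  rw [hdeg] at hratio
  have h8 : Tendsto (fun a => ‖w a‖ ^ n / ‖w a‖ ^ n) l (𝓝 1) := by
    refine tendsto_const_nhds.congr' ?_
    filter_upwards [hne] with a ha
    rw [div_self (pow_ne_zero _ ha)]
  have h9 := tendsto_nhds_unique hratio h8
  rw [div_eq_one_iff_eq (norm_ne_zero_iff.2 hlc), Complex.norm_intCast] at h9
  have h10 : |P.leadingCoeff| = 1 := by exact_mod_cast h9.symm
  exact eq_or_eq_neg_of_abs_eq h10

/-- PSI. -/
theorem specPsi : SpecPsi := by
  classical
  intro N hN hsq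
  obtain ⟨Ψ, hΨ⟩ := diag_poly N hN
  have hlead : Ψ.leadingCoeff = 1 ∨ Ψ.leadingCoeff = -1 := by
    set n := ∑ p ∈ N.divisorsAntidiagonal, max p.1 p.2 with hn
    have hp : ∀ p ∈ N.divisorsAntidiagonal, 0 < p.1 ∧ 0 < p.2 ∧ p.1 ≠ p.2 := by
      intro p hp
      have h1 := Nat.mem_divisorsAntidiagonal.mp hp
      refine ⟨Nat.pos_of_ne_zero ?_, Nat.pos_of_ne_zero ?_, ?_⟩
      · rintro h; rw [h] at h1; simp at h1; omega
      · rintro h; rw [h] at h1; simp at h1; omega
      · intro h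
        exact hsq ⟨p.2, by rw [← h1.1, h]⟩
    -- the product
    have hprod : Tendsto (fun y : ℝ => ‖aeval (Jc ((y : ℂ) * Complex.I)) Ψ‖ *
        Real.exp (-(2 * π * n * y))) atTop (𝓝 1) := by
      have h1 : Tendsto (fun y : ℝ => ∏ p ∈ N.divisorsAntidiagonal, ∏ b ∈ Finset.range p.2,
          (‖Jc ((y : ℂ) * Complex.I) -
            Jc (((p.1 : ℂ) * ((y : ℂ) * Complex.I) + (b : ℂ)) / (p.2 : ℂ))‖ *
              Real.exp (-(2 * π * ((max p.1 p.2 : ℕ) / (p.2 : ℝ)) * y)))) atTop
          (𝓝 (∏ p ∈ N.divisorsAntidiagonal, ∏ b ∈ Finset.range p.2, (1 : ℝ))) :=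
        tendsto_finsetProd _ fun p hp' => tendsto_finsetProd _ fun b _ =>
          factor_growth p.1 p.2 b (hp p hp').1 (hp p hp').2.1 (hp p hp').2.2
      rw [Finset.prod_congr rfl (fun p _ => Finset.prod_const_one), Finset.prod_const_one] at h1
      refine h1.congr' ?_
      filter_upwards [eventually_gt_atTop 0] with y hy
      rw [hΨ _ (by simpa using hy), norm_prod]
      simp only [norm_prod, Finset.prod_mul_distrib]
      congr 1
      have h2 : ∀ p ∈ N.divisorsAntidiagonal, ∏ _b ∈ Finset.range p.2,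
          Real.exp (-(2 * π * ((max p.1 p.2 : ℕ) / (p.2 : ℝ)) * y)) =
            Real.exp (-(2 * π * (max p.1 p.2 : ℕ) * y)) := by
        intro p hp'
        have h3 : (p.2 : ℝ) ≠ 0 := by exact_mod_cast (hp p hp').2.1.ne'
        rw [Finset.prod_const, Finset.card_range, ← Real.exp_nat_mul]
        congr 1
        field_simp
      rw [Finset.prod_congr rfl h2, ← Real.exp_sum]
      congr 1
      rw [hn]
      push_cast
      rw [Finset.sum_neg_distrib, Finset.mul_sum, Finset.sum_mul]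
    have hJ1 : Tendsto (fun y : ℝ => ‖Jc ((y : ℂ) * Complex.I)‖ * Real.exp (-(2 * π * y)))
        atTop (𝓝 1) := by
      obtain ⟨C, hC⟩ := specJ.growth
      have h1 := norm_growth (fun y : ℝ => Jc ((y : ℂ) * Complex.I)) (fun _ => 0)
        (fun y : ℝ => cexp (-(2 * π * Complex.I * ((y : ℂ) * Complex.I)))) (fun _ => 1) 0 1
        (max C 1) one_pos one_pos
        (by
          filter_upwards [eventually_ge_atTop 1] with y hy
          exact (hC _ (by simpa using hy)).trans (le_max_left _ _))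
        (by simp)
        (by
          intro y
          rw [Complex.norm_exp]
          congr 1
          simp [Complex.mul_re, Complex.mul_im])
        (by intro y; simp)
      simpa using h1
    have hJ2 : Tendsto (fun y : ℝ => ‖Jc ((y : ℂ) * Complex.I)‖) atTop atTop := by
      have h1 : Tendsto (fun y : ℝ => Real.exp (2 * π * y)) atTop atTop :=
        Real.tendsto_exp_atTop.comp (tendsto_id.const_mul_atTop (by positivity))
      have h2 := hJ1.pos_mul_atTop one_pos h1
      refine h2.congr fun y => ?_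
      rw [mul_assoc, ← Real.exp_add, neg_add_cancel, Real.exp_zero, mul_one]
    have hJ3 : Tendsto (fun y : ℝ => ‖Jc ((y : ℂ) * Complex.I)‖ ^ n * Real.exp (-(2 * π * n * y)))
        atTop (𝓝 1) := by
      have h1 := hJ1.pow n
      rw [one_pow] at h1
      refine h1.congr fun y => ?_
      rw [mul_pow, ← Real.exp_nat_mul]
      congr 2
      ring
    refine leading_of_growth atTop Ψ (fun y : ℝ => Jc ((y : ℂ) * Complex.I)) n hJ2 ?_
    have h4 := hprod.div hJ3 one_ne_zero
    rw [div_one] at h4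
    refine h4.congr fun y => ?_
    change ‖aeval (Jc ((y : ℂ) * Complex.I)) Ψ‖ * Real.exp (-(2 * π * n * y)) /
      (‖Jc ((y : ℂ) * Complex.I)‖ ^ n * Real.exp (-(2 * π * n * y))) = _
    rw [mul_div_mul_right _ _ (Real.exp_pos _).ne']
  have hiff : ∀ z : ℂ, 0 < z.im →
    (aeval (Jc z) Ψ = 0 ↔ ∃ p ∈ N.divisorsAntidiagonal, ∃ b ∈ Finset.range p.2,
      Jc z = Jc (((p.1 : ℂ) * z + (b : ℂ)) / (p.2 : ℂ))) := by
    intro z hz
    rw [hΨ z hz, Finset.prod_eq_zero_iff]
    refine exists_congr fun p => and_congr_right fun _ => ?_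
    rw [Finset.prod_eq_zero_iff]
    refine exists_congr fun b => and_congr_right fun _ => ?_
    rw [sub_eq_zero]
  rcases hlead with h | h
  · exact ⟨Ψ, h, hiff⟩
  · refine ⟨-Ψ, ?_, fun z hz => ?_⟩
    · rw [Monic, leadingCoeff_neg, h, neg_neg]
    · rw [map_neg, neg_eq_zero]
      exact hiff z hz

end Pool.Agent.Lib.MP_47914d_nt
end

section
set_option autoImplicit false

open Complex Filter Topology

namespace Pool.Agent.Lib.MP_47914d_nt

/-- Degrees and Mahler measures of singular moduli, unconditionally. -/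
theorem specClass_all : SpecClass := specClass specJ specPsi (specInjFull specJ) specDiv

end Pool.Agent.Lib.MP_47914d_nt
end
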