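import Pool.Agent.Lib.MP_47914d_nt.Defs4

/-!
Module ARC: the ultrapower of `ℂ` along an ultrafilter converging to `z`, with all derivations
satisfying the chain rule for holomorphic functions near `z`, has field of constants `ℂ`.
-/

set_option autoImplicit false

open Polynomial Filter Topology

namespace Pool.Agent.Lib.MP_47914d_nt

namespace Arc

section Alg

variable {k L : Type} [Field k] [Field L] [Algebra ℂ L] [Algebra k L]

/-- The coefficients of the minimal polynomial of a constant are constants. -/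
theorem minpoly_coeff_der (x : L) (hx : IsAlgebraic k x)
    (D : Derivation ℂ L L) (d : k → k)
    (hd : ∀ a, D (algebraMap k L a) = algebraMap k L (d a)) (hDx : D x = 0) (j : ℕ) :
    d ((minpoly k x).coeff j) = 0 := by
  have hmon : (minpoly k x).Monic := minpoly.monic hx.isIntegral
  have hd0 : d 0 = 0 := by
    apply (algebraMap k L).injective
    rw [← hd, map_zero, map_zero]
  have hd1 : d 1 = 0 := by
    apply (algebraMap k L).injective
    rw [← hd, map_one, Derivation.map_one_eq_zero, map_zero]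
  set P := minpoly k x with hP
  set R : k[X] := ∑ i ∈ Finset.range P.natDegree,
    Polynomial.C (d (P.coeff i)) * Polynomial.X ^ i with hR
  have hP0 : P ≠ 0 := hmon.ne_zero
  have hRdeg : R.degree < P.degree := by
    rw [degree_eq_natDegree hP0, hR]
    refine lt_of_le_of_lt (degree_sum_le _ _) ?_
    rw [Finset.sup_lt_iff (by exact_mod_cast bot_lt_iff_ne_bot.2 (by simp))]
    intro i hi
    refine lt_of_le_of_lt (degree_C_mul_X_pow_le _ _) ?_
    exact_mod_cast Finset.mem_range.1 hi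
  have hRx : aeval x R = 0 := by
    have h1 : aeval x P = 0 := minpoly.aeval k x
    rw [aeval_eq_sum_range] at h1
    have h2 := congrArg D h1
    have hpow : ∀ i : ℕ, D (x ^ i) = 0 := by
      intro i
      rw [Derivation.leibniz_pow, hDx, smul_zero, smul_zero]
    have h3 : ∀ i : ℕ, D (P.coeff i • x ^ i) = x ^ i * algebraMap k L (d (P.coeff i)) := by
      intro i
      rw [Algebra.smul_def, Derivation.leibniz, hpow, smul_zero, zero_add, hd, smul_eq_mul]
    rw [map_zero, map_sum, Finset.sum_range_succ, h3, hmon.coeff_natDegree, hd1, map_zero,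
      mul_zero, add_zero] at h2
    rw [hR, map_sum, ← h2]
    refine Finset.sum_congr rfl fun i _ => ?_
    rw [h3, map_mul, aeval_C, map_pow, aeval_X, mul_comm]
  have hR0 : R = 0 := by
    by_contra h
    exact absurd (minpoly.degree_le_of_ne_zero k x h hRx) (not_le.2 hRdeg)
  rcases lt_trichotomy j P.natDegree with h | h | h
  · have := congrArg (fun p => p.coeff j) hR0
    simpa [hR, finsetSum_coeff, coeff_C_mul, coeff_X_pow, h] using this
  · rw [h, hmon.coeff_natDegree, hd1]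
  · rw [coeff_eq_zero_of_natDegree_lt h, hd0]

theorem mem_const_of_minpoly [Algebra ℂ k] [IsScalarTower ℂ k L] (x : L)
    (hx : IsAlgebraic k x) (h : ∀ j, ∃ c : ℂ, (minpoly k x).coeff j = algebraMap ℂ k c) :
    ∃ c : ℂ, x = algebraMap ℂ L c := by
  have hl : minpoly k x ∈ Polynomial.lifts (algebraMap ℂ k) := by
    rw [Polynomial.lifts_iff_coeff_lifts]
    intro j
    obtain ⟨c, hc⟩ := h j
    exact ⟨c, hc.symm⟩
  obtain ⟨q, hq⟩ := (Polynomial.mem_lifts _).1 hl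
  have hq0 : q ≠ 0 := by
    rintro rfl
    rw [Polynomial.map_zero] at hq
    exact minpoly.ne_zero hx.isIntegral hq.symm
  have hqx : aeval x q = 0 := by
    rw [← Polynomial.aeval_map_algebraMap k x q, hq]
    exact minpoly.aeval k x
  have hxa : IsAlgebraic ℂ x := ⟨q, hq0, hqx⟩
  have hxi : IsIntegral ℂ x := hxa.isIntegral
  have h1 : (minpoly ℂ x).degree = 1 :=
    IsAlgClosed.degree_eq_one_of_irreducible ℂ (minpoly.irreducible hxi)
  obtain ⟨c, hc⟩ := minpoly.mem_range_of_degree_eq_one ℂ x h1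
  exact ⟨c, hc.symm⟩

end Alg

section Germs

variable {α β : Type}

noncomputable instance instAlg (𝒰 : Ultrafilter α) :
    Algebra ℂ (Filter.Germ (𝒰 : Filter α) ℂ) :=
  Algebra.ofModule
    (fun r x y => by
      induction x using Filter.Germ.inductionOn with | _ f
      induction y using Filter.Germ.inductionOn with | _ g
      rw [← Filter.Germ.coe_smul, ← Filter.Germ.coe_mul, ← Filter.Germ.coe_mul,
        ← Filter.Germ.coe_smul, smul_mul_assoc])
    (fun r x y => by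
      induction x using Filter.Germ.inductionOn with | _ f
      induction y using Filter.Germ.inductionOn with | _ g
      rw [← Filter.Germ.coe_smul, ← Filter.Germ.coe_mul, ← Filter.Germ.coe_mul,
        ← Filter.Germ.coe_smul, mul_smul_comm])

/-- The class of a function in the ultrapower. -/
def T (𝒰 : Ultrafilter α) (f : α → ℂ) : Filter.Germ (𝒰 : Filter α) ℂ :=
  (f : Filter.Germ (𝒰 : Filter α) ℂ)

variable (𝒰 : Ultrafilter α)

theorem T_eq {𝒰 : Ultrafilter α} {f g : α → ℂ} :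
    T 𝒰 f = T 𝒰 g ↔ ∀ᶠ x in (𝒰 : Filter α), f x = g x :=
  Filter.Germ.coe_eq

theorem T_const (c : ℂ) : T 𝒰 (fun _ => c) = algebraMap ℂ _ c := by
  rw [Algebra.algebraMap_eq_smul_one]
  show T 𝒰 (fun _ => c) = ((c • (1 : α → ℂ) : α → ℂ) : Filter.Germ (𝒰 : Filter α) ℂ)
  rw [T]
  congr 1
  ext x
  simp

theorem T_add (f g : α → ℂ) : T 𝒰 (fun x => f x + g x) = T 𝒰 f + T 𝒰 g := rfl

theorem T_mul (f g : α → ℂ) : T 𝒰 (fun x => f x * g x) = T 𝒰 f * T 𝒰 g := rfl

theorem T_sub (f g : α → ℂ) : T 𝒰 (fun x => f x - g x) = T 𝒰 f - T 𝒰 g := rfl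

theorem T_zero : T 𝒰 (fun _ => 0) = 0 := rfl

theorem T_one : T 𝒰 (fun _ => 1) = 1 := rfl

theorem T_pow (f : α → ℂ) (k : ℕ) : T 𝒰 (fun x => f x ^ k) = T 𝒰 f ^ k := rfl

theorem T_sum {ι : Type} (s : Finset ι) (f : ι → α → ℂ) :
    T 𝒰 (fun x => ∑ i ∈ s, f i x) = ∑ i ∈ s, T 𝒰 (f i) := by
  classical
  induction s using Finset.induction_on with
  | empty => rfl
  | insert i s hi ih =>
    rw [Finset.sum_insert hi, ← ih, ← T_add]
    congr 1
    ext x
    rw [Finset.sum_insert hi]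

theorem exists_T (x : Filter.Germ (𝒰 : Filter α) ℂ) : ∃ f : α → ℂ, T 𝒰 f = x := by
  induction x using Filter.Germ.inductionOn with | _ f
  exact ⟨f, rfl⟩

/-- Pullback of germs. -/
noncomputable def pb (π : α → β) : Filter.Germ ((𝒰.map π : Ultrafilter β) : Filter β) ℂ →+*
    Filter.Germ (𝒰 : Filter α) ℂ where
  toFun f := f.compTendsto π (by exact Filter.tendsto_map)
  map_one' := rfl
  map_zero' := rfl
  map_mul' x y := by
    induction x using Filter.Germ.inductionOn with | _ f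
    induction y using Filter.Germ.inductionOn with | _ g
    rfl
  map_add' x y := by
    induction x using Filter.Germ.inductionOn with | _ f
    induction y using Filter.Germ.inductionOn with | _ g
    rfl

theorem pb_T (π : α → β) (f : β → ℂ) : pb 𝒰 π (T (𝒰.map π) f) = T 𝒰 (fun x => f (π x)) := rfl

theorem pb_const (π : α → β) (c : ℂ) : pb 𝒰 π (algebraMap ℂ _ c) = algebraMap ℂ _ c := by
  rw [← T_const, ← T_const, pb_T]

end Germs

section Chain

variable {E : Type} [NormedAddCommGroup E] [NormedSpace ℂ E]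

theorem holo_congr {f g : E → ℂ} {z : E} (hf : Holo f z) (h : ∀ᶠ x in 𝓝 z, f x = g x) :
    Holo g z := by
  filter_upwards [hf, h.eventually_nhds] with x hx h'
  exact hx.congr_of_eventuallyEq (h'.mono fun y hy => hy.symm)

theorem holo_const (c : ℂ) (z : E) : Holo (fun _ => c) z :=
  Eventually.of_forall fun _ => differentiableAt_const c

theorem holo_add {f g : E → ℂ} {z : E} (hf : Holo f z) (hg : Holo g z) :
    Holo (fun x => f x + g x) z := by
  filter_upwards [hf, hg] with x hx h'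
  exact hx.add h'

theorem holo_sub {f g : E → ℂ} {z : E} (hf : Holo f z) (hg : Holo g z) :
    Holo (fun x => f x - g x) z := by
  filter_upwards [hf, hg] with x hx h'
  exact hx.sub h'

theorem holo_mul {f g : E → ℂ} {z : E} (hf : Holo f z) (hg : Holo g z) :
    Holo (fun x => f x * g x) z := by
  filter_upwards [hf, hg] with x hx h'
  exact hx.mul h'

theorem holo_clm (l : E →L[ℂ] ℂ) (z : E) : Holo (fun x => l x) z :=
  Eventually.of_forall fun _ => l.differentiableAt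

theorem holo_comp {E' : Type} [NormedAddCommGroup E'] [NormedSpace ℂ E'] (π : E →L[ℂ] E')
    {h : E' → ℂ} {z : E} (hh : Holo h (π z)) : Holo (fun x => h (π x)) z := by
  have : Tendsto π (𝓝 z) (𝓝 (π z)) := π.continuous.tendsto z
  filter_upwards [this.eventually hh] with x hx
  exact hx.comp x π.differentiableAt

variable {ι : Type} [Fintype ι] (𝒰 : Ultrafilter E) (z : E)

/-- The chain rule with respect to vectors `v` and coordinates `l`. -/
def Good (v : ι → E) (l : ι → E →L[ℂ] ℂ)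
    (D : Derivation ℂ (Filter.Germ (𝒰 : Filter E) ℂ) (Filter.Germ (𝒰 : Filter E) ℂ))
    (f : E → ℂ) : Prop :=
  Holo f z ∧ D (T 𝒰 f) = ∑ i, T 𝒰 (fun x => fderiv ℂ f x (v i)) * D (T 𝒰 (fun x => l i x))

variable {𝒰 z} {v : ι → E} {l : ι → E →L[ℂ] ℂ}
  {D : Derivation ℂ (Filter.Germ (𝒰 : Filter E) ℂ) (Filter.Germ (𝒰 : Filter E) ℂ)}

omit [NormedSpace ℂ E] in
theorem T_congr {f g : E → ℂ} (h𝒰 : (𝒰 : Filter E) ≤ 𝓝 z) (h : ∀ᶠ x in 𝓝 z, f x = g x) :
    T 𝒰 f = T 𝒰 g :=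
  T_eq.2 (h𝒰 h)

theorem T_fderiv_congr {f g : E → ℂ} (h𝒰 : (𝒰 : Filter E) ≤ 𝓝 z)
    (h : ∀ᶠ x in 𝓝 z, f x = g x) (w : E) :
    T 𝒰 (fun x => fderiv ℂ f x w) = T 𝒰 (fun x => fderiv ℂ g x w) := by
  apply T_congr h𝒰
  filter_upwards [h.eventually_nhds] with x hx
  rw [Filter.EventuallyEq.fderiv_eq hx]

theorem good_congr {f g : E → ℂ} (h𝒰 : (𝒰 : Filter E) ≤ 𝓝 z) (hf : Good 𝒰 z v l D f)
    (h : ∀ᶠ x in 𝓝 z, f x = g x) : Good 𝒰 z v l D g := by
  refine ⟨holo_congr hf.1 h, ?_⟩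
  rw [← T_congr h𝒰 h, hf.2]
  refine Finset.sum_congr rfl fun i _ => ?_
  rw [T_fderiv_congr h𝒰 h]

theorem T_fderiv_add {f g : E → ℂ} (h𝒰 : (𝒰 : Filter E) ≤ 𝓝 z) (hf : Holo f z)
    (hg : Holo g z) (w : E) :
    T 𝒰 (fun x => fderiv ℂ (fun x => f x + g x) x w) =
      T 𝒰 (fun x => fderiv ℂ f x w) + T 𝒰 (fun x => fderiv ℂ g x w) := by
  rw [← T_add]
  apply T_congr h𝒰
  filter_upwards [hf, hg] with x hx hx'
  rw [fderiv_fun_add hx hx']
  rfl

theorem T_fderiv_mul {f g : E → ℂ} (h𝒰 : (𝒰 : Filter E) ≤ 𝓝 z) (hf : Holo f z)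
    (hg : Holo g z) (w : E) :
    T 𝒰 (fun x => fderiv ℂ (fun x => f x * g x) x w) =
      T 𝒰 f * T 𝒰 (fun x => fderiv ℂ g x w) + T 𝒰 g * T 𝒰 (fun x => fderiv ℂ f x w) := by
  rw [← T_mul, ← T_mul, ← T_add]
  apply T_congr h𝒰
  filter_upwards [hf, hg] with x hx hx'
  rw [fderiv_fun_mul hx hx']
  rfl

theorem T_fderiv_const (c : ℂ) (w : E) :
    T 𝒰 (fun x => fderiv ℂ (fun _ : E => c) x w) = 0 := by
  rw [← T_zero]
  congr 1
  ext x
  simp

theorem good_const (c : ℂ) : Good 𝒰 z v l D (fun _ => c) := by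
  refine ⟨holo_const c z, ?_⟩
  rw [T_const, Derivation.map_algebraMap]
  symm
  apply Finset.sum_eq_zero
  intro i _
  rw [T_fderiv_const, zero_mul]

theorem good_add {f g : E → ℂ} (h𝒰 : (𝒰 : Filter E) ≤ 𝓝 z) (hf : Good 𝒰 z v l D f)
    (hg : Good 𝒰 z v l D g) : Good 𝒰 z v l D (fun x => f x + g x) := by
  refine ⟨holo_add hf.1 hg.1, ?_⟩
  rw [T_add, map_add, hf.2, hg.2, ← Finset.sum_add_distrib]
  refine Finset.sum_congr rfl fun i _ => ?_
  rw [T_fderiv_add h𝒰 hf.1 hg.1]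
  ring

theorem good_mul {f g : E → ℂ} (h𝒰 : (𝒰 : Filter E) ≤ 𝓝 z) (hf : Good 𝒰 z v l D f)
    (hg : Good 𝒰 z v l D g) : Good 𝒰 z v l D (fun x => f x * g x) := by
  refine ⟨holo_mul hf.1 hg.1, ?_⟩
  rw [T_mul, Derivation.leibniz, hf.2, hg.2, smul_eq_mul, smul_eq_mul, Finset.mul_sum,
    Finset.mul_sum, ← Finset.sum_add_distrib]
  refine Finset.sum_congr rfl fun i _ => ?_
  rw [T_fderiv_mul h𝒰 hf.1 hg.1]
  ring

theorem good_pow {f : E → ℂ} (h𝒰 : (𝒰 : Filter E) ≤ 𝓝 z) (hf : Good 𝒰 z v l D f) (k : ℕ) :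
    Good 𝒰 z v l D (fun x => f x ^ k) := by
  induction k with
  | zero => simpa using good_const (𝒰 := 𝒰) (z := z) (v := v) (l := l) (D := D) 1
  | succ k ih => simpa [pow_succ] using good_mul h𝒰 ih hf

theorem good_sum {κ : Type} (s : Finset κ) {f : κ → E → ℂ} (h𝒰 : (𝒰 : Filter E) ≤ 𝓝 z)
    (hf : ∀ k ∈ s, Good 𝒰 z v l D (f k)) : Good 𝒰 z v l D (fun x => ∑ k ∈ s, f k x) := by
  classical
  induction s using Finset.induction_on with
  | empty => simpa using good_const (𝒰 := 𝒰) (z := z) (v := v) (l := l) (D := D) 0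
  | insert i s hi ih =>
    have := good_add h𝒰 (hf i (Finset.mem_insert_self _ _))
      (ih fun k hk => hf k (Finset.mem_insert_of_mem hk))
    simpa [Finset.sum_insert hi] using this

/-- Linear functionals satisfy the chain rule. -/
theorem good_clm (hvl : ∀ x : E, x = ∑ i, l i x • v i) (m : E →L[ℂ] ℂ) :
    Good 𝒰 z v l D (fun x => m x) := by
  refine ⟨holo_clm m z, ?_⟩
  have h1 : (fun x => m x) = fun x => ∑ i, m (v i) * l i x := by
    ext x
    conv_lhs => rw [hvl x]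
    rw [map_sum]
    refine Finset.sum_congr rfl fun i _ => ?_
    rw [map_smul, smul_eq_mul, mul_comm]
  have h2 : ∀ i, T 𝒰 (fun x => fderiv ℂ (fun x => m x) x (v i)) = algebraMap ℂ _ (m (v i)) := by
    intro i
    rw [← T_const]
    congr 1
    ext x
    rw [show (fun x => m x) = (m : E → ℂ) from rfl, m.fderiv]
  conv_lhs => rw [h1, T_sum]
  rw [map_sum]
  refine Finset.sum_congr rfl fun i _ => ?_
  rw [h2, T_mul, T_const, Derivation.leibniz, Derivation.map_algebraMap, smul_zero, add_zero,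
    smul_eq_mul]

/-- Change of the basis in the chain rule. -/
theorem good_basis {κ : Type} [Fintype κ] {v' : κ → E} {l' : κ → E →L[ℂ] ℂ}
    (hvl : ∀ x : E, x = ∑ i, l i x • v i) (hvl' : ∀ x : E, x = ∑ i, l' i x • v' i)
    {f : E → ℂ} (hf : Good 𝒰 z v l D f) : Good 𝒰 z v' l' D f := by
  refine ⟨hf.1, ?_⟩
  have h1 : ∀ j, D (T 𝒰 (fun x => l' j x)) =
      ∑ i, algebraMap ℂ _ (l' j (v i)) * D (T 𝒰 (fun x => l i x)) := by
    intro j
    rw [(good_clm (𝒰 := 𝒰) (z := z) (D := D) hvl (l' j)).2]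
    refine Finset.sum_congr rfl fun i _ => ?_
    congr 1
    rw [← T_const]
    congr 1
    ext x
    rw [show (fun x => l' j x) = (l' j : E → ℂ) from rfl, (l' j).fderiv]
  have h2 : ∀ i, T 𝒰 (fun x => fderiv ℂ f x (v i)) =
      ∑ j, T 𝒰 (fun x => fderiv ℂ f x (v' j)) * algebraMap ℂ _ (l' j (v i)) := by
    intro i
    have : (fun x => fderiv ℂ f x (v i)) =
        fun x => ∑ j, fderiv ℂ f x (v' j) * l' j (v i) := by
      ext x
      conv_lhs => rw [hvl' (v i)]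
      rw [map_sum]
      refine Finset.sum_congr rfl fun j _ => ?_
      rw [map_smul, smul_eq_mul, mul_comm]
    rw [this, T_sum]
    refine Finset.sum_congr rfl fun j _ => ?_
    rw [T_mul, T_const]
  rw [hf.2]
  simp_rw [h1, h2, Finset.sum_mul, Finset.mul_sum]
  rw [Finset.sum_comm]
  refine Finset.sum_congr rfl fun j _ => Finset.sum_congr rfl fun i _ => ?_
  ring

end Chain

section CaseA

variable {E : Type} [NormedAddCommGroup E] [NormedSpace ℂ E] (𝒰 : Ultrafilter E) (z : E)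

/-- The subfield of quotients of classes of holomorphic functions. -/
noncomputable def Q : IntermediateField ℂ (Filter.Germ (𝒰 : Filter E) ℂ) where
  carrier := {x | ∃ f g : E → ℂ, Holo f z ∧ Holo g z ∧ T 𝒰 g ≠ 0 ∧ x = T 𝒰 f / T 𝒰 g}
  mul_mem' := by
    rintro _ _ ⟨f, g, hf, hg, hg0, rfl⟩ ⟨f', g', hf', hg', hg0', rfl⟩
    refine ⟨fun x => f x * f' x, fun x => g x * g' x, holo_mul hf hf', holo_mul hg hg', ?_, ?_⟩
    · rw [T_mul]
      exact mul_ne_zero hg0 hg0'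
    · rw [T_mul, T_mul, div_mul_div_comm]
  add_mem' := by
    rintro _ _ ⟨f, g, hf, hg, hg0, rfl⟩ ⟨f', g', hf', hg', hg0', rfl⟩
    refine ⟨fun x => f x * g' x + g x * f' x, fun x => g x * g' x,
      holo_add (holo_mul hf hg') (holo_mul hg hf'), holo_mul hg hg', ?_, ?_⟩
    · rw [T_mul]
      exact mul_ne_zero hg0 hg0'
    · rw [T_add, T_mul, T_mul, T_mul, div_add_div _ _ hg0 hg0']
  algebraMap_mem' := by
    intro c
    refine ⟨fun _ => c, fun _ => 1, holo_const c z, holo_const 1 z, ?_, ?_⟩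
    · rw [T_one]
      exact one_ne_zero
    · rw [T_one, div_one, T_const]
  inv_mem' := by
    rintro _ ⟨f, g, hf, hg, hg0, rfl⟩
    by_cases hf0 : T 𝒰 f = 0
    · refine ⟨fun _ => 0, fun _ => 1, holo_const 0 z, holo_const 1 z, ?_, ?_⟩
      · rw [T_one]
        exact one_ne_zero
      · rw [hf0, T_zero]
        simp
    · exact ⟨g, f, hg, hf, hf0, by rw [inv_div]⟩

variable {𝒰 z}

theorem mem_Q {x : Filter.Germ (𝒰 : Filter E) ℂ} (hx : x ∈ Q 𝒰 z) :
    ∃ f g : E → ℂ, Holo f z ∧ Holo g z ∧ T 𝒰 g ≠ 0 ∧ x = T 𝒰 f / T 𝒰 g := hx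

theorem T_mem_Q {f : E → ℂ} (hf : Holo f z) : T 𝒰 f ∈ Q 𝒰 z := by
  refine ⟨f, fun _ => 1, hf, holo_const 1 z, ?_, ?_⟩
  · rw [T_one]
    exact one_ne_zero
  · rw [T_one, div_one]

/-- The formula for the derivative of a quotient. -/
noncomputable def dq (𝒰 : Ultrafilter E) (v : E) (f g : E → ℂ) :
    Filter.Germ (𝒰 : Filter E) ℂ :=
  (T 𝒰 (fun x => fderiv ℂ f x v) * T 𝒰 g - T 𝒰 f * T 𝒰 (fun x => fderiv ℂ g x v)) / T 𝒰 g ^ 2

theorem dq_unique (h𝒰 : (𝒰 : Filter E) ≤ 𝓝 z)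
    (hA : ∀ f, Holo f z → T 𝒰 f = 0 → ∀ᶠ x in 𝓝 z, f x = 0) (v : E) {f g f' g' : E → ℂ}
    (hf : Holo f z) (hg : Holo g z) (hf' : Holo f' z) (hg' : Holo g' z)
    (hg0 : T 𝒰 g ≠ 0) (hg0' : T 𝒰 g' ≠ 0) (h : T 𝒰 f / T 𝒰 g = T 𝒰 f' / T 𝒰 g') :
    dq 𝒰 v f g = dq 𝒰 v f' g' := by
  rw [div_eq_div_iff hg0 hg0'] at h
  have h1 : ∀ᶠ x in 𝓝 z, f x * g' x = f' x * g x := by
    have := hA (fun x => f x * g' x - f' x * g x) (holo_sub (holo_mul hf hg') (holo_mul hf' hg))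
      (by rw [T_sub, T_mul, T_mul, h, sub_self])
    filter_upwards [this] with x hx using sub_eq_zero.1 hx
  have h2 := T_fderiv_congr h𝒰 h1 v
  rw [T_fderiv_mul h𝒰 hf hg', T_fderiv_mul h𝒰 hf' hg] at h2
  rw [dq, dq, div_eq_div_iff (pow_ne_zero 2 hg0) (pow_ne_zero 2 hg0')]
  linear_combination (T 𝒰 g * T 𝒰 g') * h2 - (T 𝒰 (fun x => fderiv ℂ g x v) * T 𝒰 g' +
    T 𝒰 g * T 𝒰 (fun x => fderiv ℂ g' x v)) * h

open Classical in
/-- The derivation of `Q` in the direction `v`. -/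
noncomputable def dQ (𝒰 : Ultrafilter E) (z : E) (v : E) (x : Q 𝒰 z) :
    Filter.Germ (𝒰 : Filter E) ℂ :=
  dq 𝒰 v (mem_Q x.2).choose (mem_Q x.2).choose_spec.choose

theorem dQ_eq (h𝒰 : (𝒰 : Filter E) ≤ 𝓝 z)
    (hA : ∀ f, Holo f z → T 𝒰 f = 0 → ∀ᶠ x in 𝓝 z, f x = 0) (v : E) (x : Q 𝒰 z)
    {f g : E → ℂ} (hf : Holo f z) (hg : Holo g z) (hg0 : T 𝒰 g ≠ 0)
    (h : (x : Filter.Germ (𝒰 : Filter E) ℂ) = T 𝒰 f / T 𝒰 g) :
    dQ 𝒰 z v x = dq 𝒰 v f g := by
  obtain ⟨h1, h2, h3, h4⟩ := (mem_Q x.2).choose_spec.choose_spec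
  exact dq_unique h𝒰 hA v h1 h2 hf hg h3 hg0 (h4.symm.trans h)

/-- Case A: the directional derivatives extend to the ultrapower. -/
theorem exists_D (hE : SpecDerExt) (h𝒰 : (𝒰 : Filter E) ≤ 𝓝 z)
    (hA : ∀ f, Holo f z → T 𝒰 f = 0 → ∀ᶠ x in 𝓝 z, f x = 0) (v : E) :
    ∃ D : Derivation ℂ (Filter.Germ (𝒰 : Filter E) ℂ) (Filter.Germ (𝒰 : Filter E) ℂ),
      (∀ f, Holo f z → D (T 𝒰 f) = T 𝒰 (fun x => fderiv ℂ f x v)) ∧
      ∀ f g, Holo f z → Holo g z → T 𝒰 g ≠ 0 → D (T 𝒰 f / T 𝒰 g) = dq 𝒰 v f g := by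
  obtain ⟨D, hD⟩ := hE.ext (Q 𝒰 z) (Filter.Germ (𝒰 : Filter E) ℂ) (dQ 𝒰 z v)
    (by
      intro a b
      obtain ⟨f, g, hf, hg, hg0, ha⟩ := mem_Q a.2
      obtain ⟨f', g', hf', hg', hg0', hb⟩ := mem_Q b.2
      rw [dQ_eq h𝒰 hA v a hf hg hg0 ha, dQ_eq h𝒰 hA v b hf' hg' hg0' hb,
        dQ_eq h𝒰 hA v (a + b) (f := fun x => f x * g' x + g x * f' x)
          (g := fun x => g x * g' x) (holo_add (holo_mul hf hg') (holo_mul hg hf'))
          (holo_mul hg hg') (by rw [T_mul]; exact mul_ne_zero hg0 hg0')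
          (by rw [IntermediateField.coe_add, ha, hb, T_add, T_mul, T_mul, T_mul,
                div_add_div _ _ hg0 hg0'])]
      rw [dq, dq, dq, T_fderiv_add h𝒰 (holo_mul hf hg') (holo_mul hg hf'),
        T_fderiv_mul h𝒰 hf hg', T_fderiv_mul h𝒰 hg hf', T_fderiv_mul h𝒰 hg hg', T_add, T_mul,
        T_mul, T_mul]
      field_simp
      ring)
    (by
      intro a b
      obtain ⟨f, g, hf, hg, hg0, ha⟩ := mem_Q a.2
      obtain ⟨f', g', hf', hg', hg0', hb⟩ := mem_Q b.2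
      rw [dQ_eq h𝒰 hA v a hf hg hg0 ha, dQ_eq h𝒰 hA v b hf' hg' hg0' hb,
        dQ_eq h𝒰 hA v (a * b) (f := fun x => f x * f' x)
          (g := fun x => g x * g' x) (holo_mul hf hf')
          (holo_mul hg hg') (by rw [T_mul]; exact mul_ne_zero hg0 hg0')
          (by rw [IntermediateField.coe_mul, ha, hb, T_mul, T_mul, div_mul_div_comm])]
      rw [show algebraMap (Q 𝒰 z) (Filter.Germ (𝒰 : Filter E) ℂ) a = T 𝒰 f / T 𝒰 g from ha,
        show algebraMap (Q 𝒰 z) (Filter.Germ (𝒰 : Filter E) ℂ) b = T 𝒰 f' / T 𝒰 g' from hb]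
      rw [dq, dq, dq, T_fderiv_mul h𝒰 hf hf', T_fderiv_mul h𝒰 hg hg', T_mul, T_mul]
      field_simp
      ring)
    (by
      intro c
      rw [dQ_eq h𝒰 hA v _ (holo_const c z) (holo_const 1 z)
        (by rw [T_one]; exact one_ne_zero)
        (by rw [T_one, div_one, T_const]; rfl), dq, T_fderiv_const, T_fderiv_const]
      simp)
  refine ⟨D, ?_, ?_⟩
  · intro f hf
    have h1 : T 𝒰 (fun _ : E => (1 : ℂ)) ≠ 0 := by
      rw [T_one]
      exact one_ne_zero
    have := hD ⟨T 𝒰 f, T_mem_Q hf⟩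
    rw [dQ_eq h𝒰 hA v _ hf (holo_const 1 z) h1 (by rw [T_one, div_one]), dq,
      T_fderiv_const, T_one] at this
    simpa using this
  · intro f g hf hg hg0
    have := hD ⟨T 𝒰 f / T 𝒰 g, ⟨f, g, hf, hg, hg0, rfl⟩⟩
    rw [dQ_eq h𝒰 hA v _ hf hg hg0 rfl] at this
    exact this

end CaseA

/-- The derivations satisfying the chain rule. -/
def Chain {n : ℕ} (𝒰 : Ultrafilter (Fin n → ℂ)) (z : Fin n → ℂ)
    (D : Derivation ℂ (Filter.Germ (𝒰 : Filter (Fin n → ℂ)) ℂ)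
      (Filter.Germ (𝒰 : Filter (Fin n → ℂ)) ℂ)) : Prop :=
  ∀ f, Holo f z →
    D (T 𝒰 f) = ∑ i, T 𝒰 (fun x => fderiv ℂ f x (Pi.single i 1)) * D (T 𝒰 (fun x => x i))

theorem pi_basis {n : ℕ} (x : Fin n → ℂ) :
    x = ∑ i, (ContinuousLinearMap.proj (R := ℂ) (φ := fun _ : Fin n => ℂ) i) x •
      (Pi.single i (1 : ℂ) : Fin n → ℂ) := by
  ext j
  simp [Finset.sum_apply, Pi.single_apply]

theorem fderiv_proj {n : ℕ} (i : Fin n) (x v : Fin n → ℂ) :
    fderiv ℂ (fun x : Fin n → ℂ => x i) x v = v i := by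
  have : (fun x : Fin n → ℂ => x i) =
      (ContinuousLinearMap.proj (R := ℂ) (φ := fun _ : Fin n => ℂ) i : (Fin n → ℂ) → ℂ) := rfl
  rw [this, ContinuousLinearMap.fderiv]
  rfl

theorem caseA (hH : SpecHolo) (hE : SpecDerExt) {n : ℕ} (z : Fin n → ℂ)
    (𝒰 : Ultrafilter (Fin n → ℂ)) (h𝒰 : (𝒰 : Filter (Fin n → ℂ)) ≤ 𝓝 z)
    (hA : ∀ f, Holo f z → T 𝒰 f = 0 → ∀ᶠ x in 𝓝 z, f x = 0)
    (x : Filter.Germ (𝒰 : Filter (Fin n → ℂ)) ℂ) (hx : ∀ D, Chain 𝒰 z D → D x = 0) :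
    ∃ c : ℂ, x = algebraMap ℂ _ c := by
  have hproj : ∀ i : Fin n, Holo (fun x : Fin n → ℂ => x i) z := fun i =>
    holo_clm (ContinuousLinearMap.proj (R := ℂ) (φ := fun _ : Fin n => ℂ) i) z
  have halg : IsAlgebraic (Q 𝒰 z) x := by
    by_contra htr
    obtain ⟨D, hD0, hD1⟩ := hE.trans (Q 𝒰 z) _ x htr
    have hT : ∀ f, Holo f z → D (T 𝒰 f) = 0 := fun f hf => hD0 ⟨T 𝒰 f, T_mem_Q hf⟩
    have hch : Chain 𝒰 z D := by
      intro f hf
      rw [hT f hf]
      symm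
      apply Finset.sum_eq_zero
      intro i _
      rw [hT _ (hproj i), mul_zero]
    rw [hx D hch] at hD1
    exact zero_ne_one hD1
  choose D hD1 hD2 using fun i : Fin n =>
    exists_D (z := z) hE h𝒰 hA (Pi.single i 1 : Fin n → ℂ)
  have hch : ∀ i, Chain 𝒰 z (D i) := by
    intro i f hf
    rw [hD1 i f hf]
    have : ∀ j, D i (T 𝒰 (fun x => x j)) = if j = i then 1 else 0 := by
      intro j
      rw [hD1 i _ (hproj j)]
      simp_rw [fderiv_proj]
      by_cases h : j = i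
      · subst h
        simp only [Pi.single_eq_same, if_true]
        exact T_one 𝒰
      · rw [if_neg h]
        simp only [Pi.single_eq_of_ne h]
        exact T_zero 𝒰
    simp_rw [this]
    simp
  refine mem_const_of_minpoly x halg fun j => ?_
  set c := (minpoly (Q 𝒰 z) x).coeff j with hc
  obtain ⟨f, g, hf, hg, hg0, hcfg⟩ := mem_Q c.2
  have hDc : ∀ i, D i (c : Filter.Germ (𝒰 : Filter (Fin n → ℂ)) ℂ) = 0 := by
    intro i
    have hmem : ∀ a : Q 𝒰 z, D i (a : Filter.Germ (𝒰 : Filter (Fin n → ℂ)) ℂ) ∈ Q 𝒰 z := by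
      intro a
      obtain ⟨f, g, hf, hg, hg0, ha⟩ := mem_Q a.2
      rw [ha, hD2 i f g hf hg hg0]
      refine ⟨fun x => fderiv ℂ f x (Pi.single i 1) * g x - f x * fderiv ℂ g x (Pi.single i 1),
        fun x => g x ^ 2, holo_sub (holo_mul (hH.partialD _ f z _ hf) hg)
          (holo_mul hf (hH.partialD _ g z _ hg)), ?_, ?_, ?_⟩
      · simpa [pow_two] using holo_mul hg hg
      · rw [T_pow]
        exact pow_ne_zero 2 hg0
      · rw [dq, T_sub, T_mul, T_mul, T_pow]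
    have := minpoly_coeff_der x halg (D i) (fun a => ⟨D i a, hmem a⟩) (fun a => rfl)
      (hx _ (hch i)) j
    exact congrArg Subtype.val this
  have hev : ∀ i, ∀ᶠ x in 𝓝 z, fderiv ℂ f x (Pi.single i 1) * g x -
      f x * fderiv ℂ g x (Pi.single i 1) = 0 := by
    intro i
    apply hA
    · exact holo_sub (holo_mul (hH.partialD _ f z _ hf) hg)
          (holo_mul hf (hH.partialD _ g z _ hg))
    · have h1 := hDc i
      rw [hcfg, hD2 i f g hf hg hg0, dq, div_eq_zero_iff] at h1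
      rw [T_sub, T_mul, T_mul]
      exact h1.resolve_right (pow_ne_zero 2 hg0)
  obtain ⟨c0, hc0⟩ := hH.quot (Fin n → ℂ) f g z hf hg
    (fun h => hg0 (T_eq.2 (h𝒰 h)))
    (by
      intro v
      filter_upwards [eventually_all.2 hev] with x hx
      conv_lhs => rw [pi_basis v]
      conv_rhs => rw [pi_basis v]
      rw [map_sum, map_sum, Finset.mul_sum, Finset.mul_sum]
      refine Finset.sum_congr rfl fun i _ => ?_
      rw [map_smul, map_smul, smul_eq_mul, smul_eq_mul]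
      linear_combination (ContinuousLinearMap.proj (R := ℂ) (φ := fun _ : Fin n => ℂ) i) v * hx i)
  refine ⟨c0, ?_⟩
  apply Subtype.ext
  rw [hcfg, T_congr h𝒰 hc0, T_mul, T_const, mul_div_cancel_right₀ _ hg0]
  rfl

theorem exists_coord {n : ℕ} (v : Fin (n + 1) → ℂ) (hv : v ≠ 0) :
    ∃ A : (Fin (n + 1) → ℂ) ≃L[ℂ] (Fin n → ℂ) × ℂ, A v = (0, 1) := by
  obtain ⟨B⟩ : Nonempty ((Fin (n + 1) → ℂ) ≃L[ℂ] (Fin n → ℂ) × ℂ) := by
    apply FiniteDimensional.nonempty_continuousLinearEquiv_of_finrank_eq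
    simp
  have hw : B.symm (0, 1) ≠ 0 := by
    intro h
    have := congrArg B h
    rw [B.apply_symm_apply, map_zero] at this
    exact one_ne_zero (congrArg Prod.snd this)
  obtain ⟨A0, hA0⟩ := SeparatingDual.exists_continuousLinearEquiv_apply_eq (R := ℂ) hv hw
  refine ⟨A0.trans B, ?_⟩
  rw [ContinuousLinearEquiv.trans_apply, hA0, B.apply_symm_apply]

section CaseB

variable {n : ℕ} (A : (Fin (n + 1) → ℂ) ≃L[ℂ] (Fin n → ℂ) × ℂ)

/-- The first coordinates. -/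
noncomputable def pr : (Fin (n + 1) → ℂ) →L[ℂ] (Fin n → ℂ) :=
  (ContinuousLinearMap.fst ℂ (Fin n → ℂ) ℂ).comp (A : (Fin (n + 1) → ℂ) →L[ℂ] (Fin n → ℂ) × ℂ)

/-- The last coordinate. -/
noncomputable def la : (Fin (n + 1) → ℂ) →L[ℂ] ℂ :=
  (ContinuousLinearMap.snd ℂ (Fin n → ℂ) ℂ).comp (A : (Fin (n + 1) → ℂ) →L[ℂ] (Fin n → ℂ) × ℂ)

/-- The basis vectors. -/
noncomputable def bv (i : Option (Fin n)) : Fin (n + 1) → ℂ :=
  match i with
  | none => A.symm (0, 1)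
  | some i => A.symm (Pi.single i 1, 0)

/-- The coordinates. -/
noncomputable def bl (i : Option (Fin n)) : (Fin (n + 1) → ℂ) →L[ℂ] ℂ :=
  match i with
  | none => la A
  | some i => (ContinuousLinearMap.proj (R := ℂ) (φ := fun _ : Fin n => ℂ) i).comp (pr A)

theorem pr_apply (x : Fin (n + 1) → ℂ) : pr A x = (A x).1 := rfl

theorem la_apply (x : Fin (n + 1) → ℂ) : la A x = (A x).2 := rfl

theorem bvl (x : Fin (n + 1) → ℂ) : x = ∑ i, bl A i x • bv A i := by
  apply A.injective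
  rw [map_sum, Fintype.sum_option]
  simp only [map_smul, bv, bl, ContinuousLinearEquiv.apply_symm_apply]
  refine Prod.ext ?_ ?_
  · rw [Prod.fst_add, Prod.fst_sum]
    ext j
    simp [Finset.sum_apply, Pi.single_apply, pr_apply]
  · rw [Prod.snd_add, Prod.snd_sum]
    simp [la_apply]

theorem caseB (hH : SpecHolo) (hP : SpecWPol) (hDv : SpecWDiv) (hE : SpecDerExt)
    (ih : ∀ (z : Fin n → ℂ) (𝒰 : Ultrafilter (Fin n → ℂ)), (𝒰 : Filter (Fin n → ℂ)) ≤ 𝓝 z →
      ∀ x : Filter.Germ (𝒰 : Filter (Fin n → ℂ)) ℂ, (∀ D, Chain 𝒰 z D → D x = 0) →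
        ∃ c : ℂ, x = algebraMap ℂ _ c)
    (z : Fin (n + 1) → ℂ) (𝒰 : Ultrafilter (Fin (n + 1) → ℂ))
    (h𝒰 : (𝒰 : Filter (Fin (n + 1) → ℂ)) ≤ 𝓝 z) (f : (Fin (n + 1) → ℂ) → ℂ)
    (hf : Holo f z) (hTf : T 𝒰 f = 0) (hnz : ¬ ∀ᶠ x in 𝓝 z, f x = 0)
    (x : Filter.Germ (𝒰 : Filter (Fin (n + 1) → ℂ)) ℂ) (hx : ∀ D, Chain 𝒰 z D → D x = 0) :
    ∃ c : ℂ, x = algebraMap ℂ _ c := by
  have hTf' : ∀ᶠ x in (𝒰 : Filter (Fin (n + 1) → ℂ)), f x = 0 := T_eq.1 hTf
  -- a direction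
  obtain ⟨v, hv⟩ : ∃ v, ¬ ∀ᶠ t in 𝓝 (0 : ℂ), f (z + t • v) = 0 := by
    by_contra h
    push Not at h
    exact hnz (hH.ident _ f z hf h)
  have hv0 : v ≠ 0 := by
    rintro rfl
    apply hv
    have hc : Tendsto f (𝒰 : Filter (Fin (n + 1) → ℂ)) (𝓝 (f z)) :=
      (hf.self_of_nhds.continuousAt.tendsto).mono_left h𝒰
    have hc' : Tendsto f (𝒰 : Filter (Fin (n + 1) → ℂ)) (𝓝 0) := by
      refine tendsto_nhds_of_eventually_eq hTf'
    have := tendsto_nhds_unique hc hc'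
    simp [this]
  obtain ⟨A, hA⟩ := exists_coord v hv0
  have hAv : A.symm (0, 1) = v := by rw [← hA, A.symm_apply_apply]
  -- the projection
  set 𝒰' := 𝒰.map (pr A) with h𝒰'
  have hle : (𝒰' : Filter (Fin n → ℂ)) ≤ 𝓝 (pr A z) := by
    rw [h𝒰', Ultrafilter.coe_map]
    exact (Filter.map_mono h𝒰).trans ((pr A).continuous.tendsto z)
  let _ : Algebra (Filter.Germ (𝒰' : Filter (Fin n → ℂ)) ℂ)
    (Filter.Germ (𝒰 : Filter (Fin (n + 1) → ℂ)) ℂ) := (pb 𝒰 (pr A)).toAlgebra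
  have halgmap : ∀ a : Filter.Germ (𝒰' : Filter (Fin n → ℂ)) ℂ,
    algebraMap _ (Filter.Germ (𝒰 : Filter (Fin (n + 1) → ℂ)) ℂ) a = pb 𝒰 (pr A) a := fun a => rfl
  have : IsScalarTower ℂ (Filter.Germ (𝒰' : Filter (Fin n → ℂ)) ℂ)
    (Filter.Germ (𝒰 : Filter (Fin (n + 1) → ℂ)) ℂ) :=
    IsScalarTower.of_algebraMap_eq fun c => (pb_const 𝒰 (pr A) c).symm
  -- the Weierstrass polynomial
  have hAz : (pr A z, la A z) = A z := rfl
  have hf' : Holo (fun p => f (A.symm p)) (pr A z, la A z) := by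
    apply holo_comp (A.symm : (Fin n → ℂ) × ℂ →L[ℂ] (Fin (n + 1) → ℂ))
    rw [hAz]
    show Holo f (A.symm (A z))
    rw [A.symm_apply_apply]
    exact hf
  have hnz' : ¬ ∀ᶠ w in 𝓝 (la A z), f (A.symm (pr A z, w)) = 0 := by
    intro h
    apply hv
    have ht : Tendsto (fun t : ℂ => la A z + t) (𝓝 0) (𝓝 (la A z)) := by
      have : Tendsto (fun t : ℂ => la A z + t) (𝓝 0) (𝓝 (la A z + 0)) :=
        (continuous_const.add continuous_id).tendsto 0
      rwa [add_zero] at this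
    filter_upwards [ht.eventually h] with t ht'
    rw [← ht']
    congr 1
    apply A.injective
    rw [map_add, map_smul, hA, A.apply_symm_apply]
    refine Prod.ext ?_ ?_
    · simp [pr_apply]
    · simp [la_apply]
  obtain ⟨k, a, ha, hroot, hW⟩ := hP n _ _ _ hf' hnz'
  have htA : Tendsto A (𝓝 z) (𝓝 (pr A z, la A z)) := A.continuous.tendsto z
  have hTW : T 𝒰 (fun x => WP a (A x)) = 0 := by
    refine T_eq.2 ?_
    filter_upwards [hTf', h𝒰 (htA.eventually hW)] with x h1 h2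
    apply h2
    rw [A.symm_apply_apply]
    exact h1
  -- extension of chain derivations
  have hext : ∀ D' : Derivation ℂ (Filter.Germ (𝒰' : Filter (Fin n → ℂ)) ℂ)
      (Filter.Germ (𝒰' : Filter (Fin n → ℂ)) ℂ), Chain 𝒰' (pr A z) D' →
      ∀ D : Derivation ℂ (Filter.Germ (𝒰 : Filter (Fin (n + 1) → ℂ)) ℂ)
      (Filter.Germ (𝒰 : Filter (Fin (n + 1) → ℂ)) ℂ),
      (∀ b, D (pb 𝒰 (pr A) b) = pb 𝒰 (pr A) (D' b)) → Chain 𝒰 z D := by
    intro D' hD' D hD
    have good1 : ∀ h, Holo h (pr A z) → Good 𝒰 z (bv A) (bl A) D (fun x => h (pr A x)) := by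
      intro h hh
      refine ⟨holo_comp (pr A) hh, ?_⟩
      have h1 := hD (T 𝒰' h)
      rw [hD' h hh, map_sum] at h1
      simp only [map_mul, ← hD] at h1
      rw [pb_T] at h1
      rw [h1, Fintype.sum_option]
      have h2 : ∀ w, T 𝒰 (fun x => fderiv ℂ (fun x => h (pr A x)) x w) =
          T 𝒰 (fun x => fderiv ℂ h (pr A x) (pr A w)) := by
        intro w
        apply T_congr h𝒰
        have : Tendsto (pr A) (𝓝 z) (𝓝 (pr A z)) := (pr A).continuous.tendsto z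
        filter_upwards [this.eventually hh] with x hx
        have := (hx.hasFDerivAt.comp x (pr A).hasFDerivAt).fderiv
        rw [show (fun x => h (pr A x)) = h ∘ (pr A) from rfl, this]
        rfl
      have h3 : pr A (bv A none) = 0 := by
        rw [pr_apply, bv, A.apply_symm_apply]
      have h4 : ∀ i : Fin n, pr A (bv A (some i)) = Pi.single i 1 := by
        intro i
        rw [pr_apply, bv, A.apply_symm_apply]
      rw [h2, h3]
      simp only [map_zero]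
      rw [T_zero, zero_mul, zero_add]
      refine Finset.sum_congr rfl fun i _ => ?_
      rw [h2, h4, pb_T, pb_T]
      rfl
    have good2 : Good 𝒰 z (bv A) (bl A) D (fun x => la A x) := good_clm (bvl A) (la A)
    have good3 : ∀ r : Fin k → (Fin n → ℂ) → ℂ, (∀ i, Holo (r i) (pr A z)) →
        Good 𝒰 z (bv A) (bl A) D (fun x => ∑ i, r i (pr A x) * (la A x) ^ (i : ℕ)) := by
      intro r hr
      apply good_sum _ h𝒰
      intro i _
      exact good_mul h𝒰 (good1 _ (hr i)) (good_pow h𝒰 good2 _)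
    have goodW : Good 𝒰 z (bv A) (bl A) D (fun x => WP a (A x)) :=
      good_add h𝒰 (good_pow h𝒰 good2 k) (good3 a ha)
    have key : ∀ g, Holo g z → Good 𝒰 z (bv A) (bl A) D g := by
      intro g hg
      have hg' : Holo (fun p => g (A.symm p)) (pr A z, la A z) := by
        apply holo_comp (A.symm : (Fin n → ℂ) × ℂ →L[ℂ] (Fin (n + 1) → ℂ))
        rw [hAz]
        show Holo g (A.symm (A z))
        rw [A.symm_apply_apply]
        exact hg
      obtain ⟨q, r, hq, hr, heq⟩ := hDv n k a _ _ ha hroot _ hg'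
      have heq' : ∀ᶠ x in 𝓝 z, q (A x) * WP a (A x) +
          ∑ i, r i (pr A x) * (la A x) ^ (i : ℕ) = g x := by
        filter_upwards [htA.eventually heq] with x hx
        rw [A.symm_apply_apply] at hx
        exact hx.symm
      have goodR := good3 r hr
      have hq' : Holo (fun x => q (A x)) z :=
        holo_comp (A : (Fin (n + 1) → ℂ) →L[ℂ] (Fin n → ℂ) × ℂ) hq
      refine good_congr h𝒰 ⟨holo_add (holo_mul hq' goodW.1) goodR.1, ?_⟩ heq'
      have hW0 := goodW.2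
      rw [hTW, map_zero] at hW0
      rw [T_add, T_mul, hTW, mul_zero, zero_add, goodR.2]
      have : ∀ i, T 𝒰 (fun x => fderiv ℂ (fun x => q (A x) * WP a (A x) +
          ∑ i, r i (pr A x) * (la A x) ^ (i : ℕ)) x (bv A i)) =
          T 𝒰 (fun x => q (A x)) * T 𝒰 (fun x => fderiv ℂ (fun x => WP a (A x)) x (bv A i)) +
          T 𝒰 (fun x => fderiv ℂ (fun x => ∑ i, r i (pr A x) * (la A x) ^ (i : ℕ)) x
            (bv A i)) := by
        intro i
        rw [T_fderiv_add h𝒰 (holo_mul hq' goodW.1) goodR.1, T_fderiv_mul h𝒰 hq' goodW.1, hTW,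
          zero_mul, add_zero]
      simp_rw [this, add_mul, Finset.sum_add_distrib, mul_assoc]
      rw [← Finset.mul_sum, ← hW0, mul_zero, zero_add]
    intro g hg
    have := (good_basis (bvl A) (pi_basis (n := n + 1)) (key g hg)).2
    exact this
  -- algebraicity
  have halg : IsAlgebraic (Filter.Germ (𝒰' : Filter (Fin n → ℂ)) ℂ) x := by
    by_contra htr
    obtain ⟨D, hD0, hD1⟩ := hE.trans _ _ x htr
    have h0 : Chain 𝒰' (pr A z) 0 := by
      intro h _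
      simp
    rw [hx D (hext 0 h0 D fun b => by rw [← halgmap, hD0]; exact (map_zero _).symm)] at hD1
    exact zero_ne_one hD1
  refine mem_const_of_minpoly x halg fun j => ?_
  refine ih (pr A z) 𝒰' hle _ fun D' hD' => ?_
  obtain ⟨D, hD⟩ := hE.ext (Filter.Germ (𝒰' : Filter (Fin n → ℂ)) ℂ)
    (Filter.Germ (𝒰 : Filter (Fin (n + 1) → ℂ)) ℂ) (fun b => pb 𝒰 (pr A) (D' b))
    (fun a b => by rw [map_add, map_add])
    (fun a b => by
      rw [Derivation.leibniz, map_add, smul_eq_mul, smul_eq_mul, map_mul, map_mul]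
      rfl)
    (fun c => by rw [Derivation.map_algebraMap, map_zero])
  exact minpoly_coeff_der x halg D D' hD (hx D (hext D' hD' D hD)) j

end CaseB

theorem ker_chain (hH : SpecHolo) (hP : SpecWPol) (hDv : SpecWDiv) (hE : SpecDerExt) :
    ∀ (n : ℕ) (z : Fin n → ℂ) (𝒰 : Ultrafilter (Fin n → ℂ)),
      (𝒰 : Filter (Fin n → ℂ)) ≤ 𝓝 z →
      ∀ x : Filter.Germ (𝒰 : Filter (Fin n → ℂ)) ℂ, (∀ D, Chain 𝒰 z D → D x = 0) →
        ∃ c : ℂ, x = algebraMap ℂ _ c := by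
  intro n
  induction n with
  | zero =>
    intro z 𝒰 h𝒰 x hx
    refine caseA hH hE z 𝒰 h𝒰 (fun f _ hTf => ?_) x hx
    have hTf' : ∀ᶠ x in (𝒰 : Filter (Fin 0 → ℂ)), f x = 0 := T_eq.1 hTf
    obtain ⟨y, hy⟩ := hTf'.exists
    refine Eventually.of_forall fun w => ?_
    rw [Subsingleton.elim w y]
    exact hy
  | succ n ih =>
    intro z 𝒰 h𝒰 x hx
    by_cases hA : ∀ f, Holo f z → T 𝒰 f = 0 → ∀ᶠ x in 𝓝 z, f x = 0
    · exact caseA hH hE z 𝒰 h𝒰 hA x hx
    · push Not at hA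
      obtain ⟨f, hf, hTf, hnz⟩ := hA
      exact caseB hH hP hDv hE ih z 𝒰 h𝒰 f hf hTf (not_eventually.2 hnz) x hx

end Arc

/-- ARC: the ultrapower fields with chain rule derivations. -/
theorem specArc (hH : SpecHolo) (hP : SpecWPol) (hD : SpecWDiv) (hE : SpecDerExt) :
    SpecArc := by
  intro n z 𝒰 h𝒰
  exact ⟨Filter.Germ (𝒰 : Filter (Fin n → ℂ)) ℂ, inferInstance, inferInstance, ⟨{
    T := Arc.T 𝒰
    M := {D | Arc.Chain 𝒰 z D}
    T_const := Arc.T_const 𝒰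
    T_add := Arc.T_add 𝒰
    T_mul := Arc.T_mul 𝒰
    T_eq := fun f g => Arc.T_eq
    chain := fun D hD f hf => hD f hf
    ker := Arc.ker_chain hH hP hD hE n z 𝒰 h𝒰 }⟩⟩

end Pool.Agent.Lib.MP_47914d_nt
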