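import Pool.Agent.Lib.MP_47914d_nt.DerExt
import Pool.Agent.Lib.MP_47914d_nt.Ricc
import Pool.Agent.Lib.MP_47914d_nt.Curve3

section
/-!
From a polynomial relation between `j(w)` and `j(g w)` to rationality of `g`.
-/
set_option autoImplicit false

open Complex Filter Topology

namespace Pool.Agent.Lib.MP_47914d_nt

/-- Homogenization of a relation between two values of `j`. -/
noncomputable def homRel (P : MvPolynomial (Fin 2) ℂ) : MvPolynomial (Fin 5) ℂ :=
  ∑ m ∈ P.support, MvPolynomial.C (P.coeff m) *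
    (MvPolynomial.C 1728 * MvPolynomial.X 2 ^ 3) ^ (m 0) *
    (MvPolynomial.X 2 ^ 3 - MvPolynomial.X 3 ^ 2) ^ (P.totalDegree - m 0) *
    MvPolynomial.X 4 ^ (m 1)

lemma eval_homRel (P : MvPolynomial (Fin 2) ℂ) (z p q r y : ℂ) (hd : q ^ 3 - r ^ 2 ≠ 0) :
    MvPolynomial.eval ![z, p, q, r, y] (homRel P) =
      (q ^ 3 - r ^ 2) ^ P.totalDegree *
        MvPolynomial.eval ![1728 * q ^ 3 * (q ^ 3 - r ^ 2)⁻¹, y] P := by
  rw [homRel, map_sum, MvPolynomial.eval_eq' _ P, Finset.mul_sum]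
  refine Finset.sum_congr rfl fun m hm => ?_
  have hm0 : m 0 ≤ P.totalDegree := by
    have h1 := MvPolynomial.le_totalDegree hm
    have h2 : m.sum (fun _ e => e) = m 0 + m 1 := by
      rw [Finsupp.sum_fintype _ _ (fun _ => rfl), Fin.sum_univ_two]
    omega
  simp only [map_mul, map_pow, map_sub, MvPolynomial.eval_C, MvPolynomial.eval_X,
    Fin.prod_univ_two, Matrix.cons_val_zero, Matrix.cons_val_one, Matrix.cons_val]
  have h3 : (q ^ 3 - r ^ 2) ^ P.totalDegree =
      (q ^ 3 - r ^ 2) ^ (P.totalDegree - m 0) * (q ^ 3 - r ^ 2) ^ (m 0) := by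
    rw [← pow_add]
    congr 1
    omega
  rw [h3, mul_pow (1728 * q ^ 3) (q ^ 3 - r ^ 2)⁻¹, inv_pow]
  field_simp

lemma homRel_ne {P : MvPolynomial (Fin 2) ℂ} (hP : P ≠ 0) : homRel P ≠ 0 := by
  intro h0
  apply hP
  apply MvPolynomial.funext
  intro x
  obtain ⟨q, hq⟩ := IsAlgClosed.exists_pow_nat_eq (x 0 / 1728) (n := 3) (by norm_num)
  obtain ⟨r, hr⟩ := IsAlgClosed.exists_pow_nat_eq (q ^ 3 - 1) (n := 2) (by norm_num)
  have hd : q ^ 3 - r ^ 2 = 1 := by rw [hr]; ring
  have h1 := eval_homRel P 0 0 q r (x 1) (by rw [hd]; exact one_ne_zero)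
  rw [h0, hd, map_zero, one_pow, one_mul, inv_one, mul_one, hq] at h1
  have h2 : (![1728 * (x 0 / 1728), x 1] : Fin 2 → ℂ) = x := by
    funext j
    fin_cases j
    · simp
      ring
    · simp
  rw [h2] at h1
  rw [← h1, map_zero]

/-- A relation between `j(w)` and `j(g w)` gives linkage. -/
theorem linkedM_of_rel (h : SpecRam) {α β γ δ a : ℂ} (ha : 0 < a.im)
    {P : MvPolynomial (Fin 2) ℂ} (hP : P ≠ 0)
    (hrel : ∀ᶠ w in 𝓝 a, MvPolynomial.eval ![Jc w, Jc ((α * w + β) / (γ * w + δ))] P = 0) :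
    LinkedM α β γ δ a := by
  refine ⟨homRel P, homRel_ne hP, fun v _ => ?_⟩
  have h1 := hrel.eventually_nhds
  filter_upwards [h1, isOpen_im.mem_nhds ha] with w hw1 hw2
  have hw2 : 0 < w.im := hw2
  have hc : ContinuousAt (fun s => mob v s w) 0 :=
    (hasDerivAt_mob v 0 w (by rw [den_zero]; exact one_ne_zero)).continuousAt
  have hc2 : Tendsto (fun s => mob v s w) (𝓝 0) (𝓝 w) := by
    have := hc.tendsto
    rwa [mob_zero] at this
  filter_upwards [hc2.eventually hw1, eventually_flow v hw2] with s hs1 hs2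
  obtain ⟨hd, hj⟩ := disc_fl h hs2.1 hs2.2
  rw [eval_homRel P _ _ _ _ _ hd, hj]
  rw [hs1, mul_zero]

/-- A relation between `j(w)` and `j(g w)` implies that `g` is rational. -/
theorem rational_of_rel (hRam : SpecRam) (hJ : SpecJ) (hB : SpecLinkB) (hC : SpecLinkC)
    {α β γ δ a : ℂ} (hdet : α * δ - β * γ = 1) (ha : 0 < a.im)
    (hga : 0 < ((α * a + β) / (γ * a + δ)).im)
    {P : MvPolynomial (Fin 2) ℂ} (hP : P ≠ 0)
    (hrel : ∀ᶠ w in 𝓝 a, MvPolynomial.eval ![Jc w, Jc ((α * w + β) / (γ * w + δ))] P = 0) :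
    ∃ a' b' c' d' : ℚ, 0 < a' * d' - b' * c' ∧
      ((α * a + β) / (γ * a + δ)) * ((c' : ℂ) * a + d') = (a' : ℂ) * a + b' := by
  have hden : γ * a + δ ≠ 0 := by
    intro h0
    rw [h0, div_zero] at hga
    simp at hga
  set a₁ := (α * a + β) / (γ * a + δ) with ha1
  have h1 : LinkedM α β γ δ a := linkedM_of_rel hRam ha hP hrel
  -- the inverse
  have hden1 : -γ * a₁ + α ≠ 0 := by
    rw [ha1]
    intro h0
    have h2 : (γ * a + δ) * (-γ * ((α * a + β) / (γ * a + δ)) + α) = α * δ - β * γ := by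
      field_simp
      ring
    rw [h0, mul_zero, hdet] at h2
    exact zero_ne_one h2
  have hinv : (δ * a₁ + -β) / (-γ * a₁ + α) = a := by
    rw [div_eq_iff hden1]
    have h3 : a₁ * (γ * a + δ) = α * a + β := by
      rw [ha1, div_mul_cancel₀ _ hden]
    linear_combination h3
  have h2 : LinkedM δ (-β) (-γ) α a₁ := by
    set Q : MvPolynomial (Fin 2) ℂ := MvPolynomial.rename (Equiv.swap (0 : Fin 2) 1) P with hQ
    have hQ0 : Q ≠ 0 := by
      intro h0
      apply hP
      have := MvPolynomial.rename_injective (R := ℂ) _ (Equiv.swap (0 : Fin 2) 1).injective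
      exact this (by rw [← hQ, h0, map_zero])
    apply linkedM_of_rel hRam hga hQ0
    have hcont : ContinuousAt (fun u : ℂ => (δ * u + -β) / (-γ * u + α)) a₁ := by
      refine ContinuousAt.div (by fun_prop) (by fun_prop) hden1
    have hcont2 : Tendsto (fun u : ℂ => (δ * u + -β) / (-γ * u + α)) (𝓝 a₁) (𝓝 a) := by
      have := hcont.tendsto
      rwa [hinv] at this
    have hd1 : ∀ᶠ u in 𝓝 a₁, -γ * u + α ≠ 0 :=
      (ContinuousAt.eventually_ne (by fun_prop) hden1)
    filter_upwards [hcont2.eventually hrel, hd1] with u hu1 hu2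
    set w := (δ * u + -β) / (-γ * u + α) with hw
    have hwm : w * (-γ * u + α) = δ * u + -β := by
      rw [hw, div_mul_cancel₀ _ hu2]
    have hgw : (α * w + β) / (γ * w + δ) = u := by
      have h3 : (γ * w + δ) * (-γ * u + α) = 1 := by linear_combination γ * hwm + hdet
      have h5 : γ * w + δ ≠ 0 := left_ne_zero_of_mul_eq_one h3
      rw [div_eq_iff h5]
      apply mul_right_cancel₀ hu2
      linear_combination α * hwm + u * hdet - u * h3
    rw [hgw] at hu1
    rw [hQ, MvPolynomial.eval_rename]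
    rw [← hu1]
    congr 2
    funext j
    fin_cases j <;> simp
  obtain ⟨a', b', c', d', e1, e2, e3, e4⟩ := hB α β γ δ a hdet ha hga h1 h2
  have hdetR : a' * d' - b' * c' = 1 := by
    have : ((a' * d' - b' * c' : ℝ) : ℂ) = 1 := by
      push_cast
      rw [← e1, ← e2, ← e3, ← e4]
      exact hdet
    exact_mod_cast this
  obtain ⟨m, a'', b'', c'', d'', hm, f1, f2, f3, f4⟩ := hC a' b' c' d' a hdetR ha
    (by rw [← e1, ← e2, ← e3, ← e4]; exact h1)
  refine ⟨a'', b'', c'', d'', ?_, ?_⟩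
  · have h5 : m ^ 2 * ((a'' * d'' - b'' * c'' : ℚ) : ℝ) = 1 := by
      push_cast
      rw [← hdetR, f1, f2, f3, f4]
      ring
    have h6 : (0 : ℝ) < ((a'' * d'' - b'' * c'' : ℚ) : ℝ) := by
      by_contra hneg
      push Not at hneg
      nlinarith [sq_nonneg m]
    exact_mod_cast h6
  · have h3 : a₁ * (γ * a + δ) = α * a + β := by
      rw [ha1, div_mul_cancel₀ _ hden]
    rw [e1, e2, e3, e4, f1, f2, f3, f4] at h3
    push_cast at h3
    have hm' : (m : ℂ) ≠ 0 := by exact_mod_cast hm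
    apply mul_left_cancel₀ hm'
    linear_combination h3

end Pool.Agent.Lib.MP_47914d_nt
end

section
/-!
The Ax-Schanuel theorem for the Klein invariant, evaluated along ultrafilters.
-/
set_option autoImplicit false

open Complex Filter Topology

namespace Pool.Agent.Lib.MP_47914d_nt

variable {n : ℕ} {z : Fin n → ℂ} {𝒰 : Ultrafilter (Fin n → ℂ)} {F : Type} [Field F] [Algebra ℂ F]

theorem ArcField.T_zero (G : ArcField z 𝒰 F) : G.T (fun _ => 0) = 0 := by
  rw [G.T_const]; exact map_zero _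

theorem ArcField.T_eval (G : ArcField z 𝒰 F) {σ : Type*} (P : MvPolynomial σ ℂ)
    (f : σ → (Fin n → ℂ) → ℂ) :
    G.T (fun x => MvPolynomial.eval (fun j => f j x) P) =
      MvPolynomial.aeval (fun j => G.T (f j)) P := by
  induction P using MvPolynomial.induction_on with
  | C a => simp only [MvPolynomial.eval_C, MvPolynomial.aeval_C]; exact G.T_const a
  | add p q hp hq =>
    simp only [map_add]
    rw [G.T_add _ _, hp, hq]
  | mul_X p i hp =>
    simp only [map_mul, MvPolynomial.eval_X, MvPolynomial.aeval_X]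
    rw [G.T_mul _ _, hp]

theorem ArcField.aeval_eq_zero_iff (G : ArcField z 𝒰 F) {σ : Type*} (P : MvPolynomial σ ℂ)
    (f : σ → (Fin n → ℂ) → ℂ) :
    MvPolynomial.aeval (fun j => G.T (f j)) P = 0 ↔
      ∀ᶠ x in (𝒰 : Filter (Fin n → ℂ)), MvPolynomial.eval (fun j => f j x) P = 0 := by
  rw [← G.T_eval P, ← G.T_zero, G.T_eq]

/-- The chain rule for functions of one coordinate. -/
theorem ArcField.chain1 (G : ArcField z 𝒰 F) (h𝒰 : (𝒰 : Filter (Fin n → ℂ)) ≤ 𝓝 z)
    {D : Derivation ℂ F F} (hD : D ∈ G.M) {g g' : ℂ → ℂ} {i : Fin n}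
    (hg : ∀ᶠ w in 𝓝 (z i), HasDerivAt g (g' w) w) :
    D (G.T fun x => g (x i)) = G.T (fun x => g' (x i)) * D (G.T fun x => x i) := by
  classical
  have hev : ∀ᶠ x in 𝓝 z, HasDerivAt g (g' (x i)) (x i) :=
    (continuous_apply i).continuousAt.eventually hg
  have hfd : ∀ x : Fin n → ℂ, HasDerivAt g (g' (x i)) (x i) →
      HasFDerivAt (fun x : Fin n → ℂ => g (x i))
        (g' (x i) • (ContinuousLinearMap.proj (R := ℂ) i : (Fin n → ℂ) →L[ℂ] ℂ)) x := by
    intro x hx
    have h1 : HasFDerivAt (fun x : Fin n → ℂ => x i)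
        (ContinuousLinearMap.proj (R := ℂ) i : (Fin n → ℂ) →L[ℂ] ℂ) x :=
      (ContinuousLinearMap.proj (R := ℂ) i : (Fin n → ℂ) →L[ℂ] ℂ).hasFDerivAt
    exact hx.comp_hasFDerivAt x h1
  have hH : Holo (fun x : Fin n → ℂ => g (x i)) z := by
    unfold Holo
    filter_upwards [hev] with x hx
    exact (hfd x hx).differentiableAt
  rw [G.chain D hD _ hH, Finset.sum_eq_single i]
  · congr 1
    rw [G.T_eq]
    filter_upwards [h𝒰 hev] with x hx
    rw [(hfd x hx).fderiv]
    simp
  · intro j _ hji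
    have : G.T (fun x => (fderiv ℂ (fun x : Fin n → ℂ => g (x i)) x) (Pi.single j 1)) = 0 := by
      rw [← G.T_zero, G.T_eq]
      filter_upwards [h𝒰 hev] with x hx
      rw [(hfd x hx).fderiv]
      simp [Pi.single_apply, hji.symm]
    rw [this, zero_mul]
  · intro h
    exact absurd (Finset.mem_univ i) h

/-- One-variable identity theorem along the ultrafilter. -/
theorem ident_one {i : Fin n} (h𝒰 : (𝒰 : Filter (Fin n → ℂ)) ≤ 𝓝 z)
    (hnc : ∀ᶠ x in (𝒰 : Filter (Fin n → ℂ)), x i ≠ z i) {g : ℂ → ℂ} (hg : AnalyticAt ℂ g (z i))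
    (h : ∀ᶠ x in (𝒰 : Filter (Fin n → ℂ)), g (x i) = 0) : ∀ᶠ w in 𝓝 (z i), g w = 0 := by
  rw [← hg.frequently_zero_iff_eventually_zero, Filter.frequently_iff]
  intro V hV
  rw [mem_nhdsWithin_iff_eventually] at hV
  have h1 : ∀ᶠ x in (𝒰 : Filter (Fin n → ℂ)), x i ∈ ({z i}ᶜ : Set ℂ) → x i ∈ V :=
    h𝒰 ((continuous_apply i).continuousAt.eventually hV)
  obtain ⟨x, hx1, hx2, hx3⟩ := (h1.and (hnc.and h)).exists
  exact ⟨x i, hx1 hx2, hx3⟩

/-- Ax-Schanuel for the Klein invariant. -/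
theorem ax_schanuel (hJ : SpecJ) (hR : SpecRam) (hM : SpecMahler) (hE : SpecExt) (h0 : SpecDer0)
    (hGo : SpecGour) (hSt : SpecStepC) (hRi : SpecRicc) (hNo : SpecNoRicc) (hGa : SpecGauge)
    (hTw : SpecTwist) (hA : SpecAut) (hB : SpecLinkB) (hC : SpecLinkC) (hn : 0 < n)
    (h𝒰 : (𝒰 : Filter (Fin n → ℂ)) ≤ 𝓝 z) (G : ArcField z 𝒰 F) (him : ∀ i, 0 < (z i).im)
    (hnc : ∀ i, ∀ᶠ x in (𝒰 : Filter (Fin n → ℂ)), x i ≠ z i)
    (hne : ∀ i k, i ≠ k → ¬ ∃ a b c d : ℚ, 0 < a * d - b * c ∧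
      z k * ((c : ℂ) * z i + (d : ℂ)) = (a : ℂ) * z i + (b : ℂ)) :
    ∃ s : Finset (Fin n ⊕ Fin n), n + 1 ≤ s.card ∧
      AlgebraicIndepOn ℂ (Sum.elim (fun i => G.T (fun x => x i)) (fun i => G.T (fun x => Jc (x i))))
        (s : Set (Fin n ⊕ Fin n)) := by
  have hPan : ∀ w : ℂ, 0 < w.im → AnalyticAt ℂ Pc w := fun w hw => analyticAt_Pc hR hw
  have hQan : ∀ w : ℂ, 0 < w.im → AnalyticAt ℂ Qc w := fun w hw => analyticAt_Qc hR hw
  have hRan : ∀ w : ℂ, 0 < w.im → AnalyticAt ℂ Rc w := fun w hw => analyticAt_Rc hR hw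
  have hUim : ∀ i, ∀ᶠ w in 𝓝 (z i), 0 < w.im := fun i => isOpen_im.mem_nhds (him i)
  have hxim : ∀ i, ∀ᶠ x in (𝒰 : Filter (Fin n → ℂ)), 0 < (x i).im := fun i =>
    h𝒰 ((continuous_apply i).continuousAt.eventually (hUim i))
  set zF : Fin n → F := fun i => G.T (fun x => x i) with hzF
  set pF : Fin n → F := fun i => G.T (fun x => Pc (x i)) with hpF
  set qF : Fin n → F := fun i => G.T (fun x => Qc (x i)) with hqF
  set rF : Fin n → F := fun i => G.T (fun x => Rc (x i)) with hrF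
  set yF : Fin n → F := fun i => G.T (fun x => Jc (x i)) with hyF
  have hTc : ∀ (c : ℂ) (f : (Fin n → ℂ) → ℂ), G.T (fun x => c * f x) = algebraMap ℂ F c * G.T f := by
    intro c f
    rw [← G.T_const c, ← G.T_mul]
  -- algebraic independence
  have hAI : ∀ i, AlgebraicIndependent ℂ ![zF i, pF i, qF i, rF i] := by
    intro i
    rw [algebraicIndependent_iff]
    intro P hP
    by_contra hP0
    have e : (![zF i, pF i, qF i, rF i] : Fin 4 → F) =
        fun j => G.T ((![fun x => x i, fun x => Pc (x i), fun x => Qc (x i), fun x => Rc (x i)] :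
          Fin 4 → (Fin n → ℂ) → ℂ) j) := by
      funext j
      fin_cases j <;> rfl
    rw [e, G.aeval_eq_zero_iff] at hP
    have hg : AnalyticAt ℂ (fun w => MvPolynomial.eval ![w, Pc w, Qc w, Rc w] P) (z i) := by
      have h1 := evalfun_analyticAt (θ := z i) P (f := ![fun w => w, Pc, Qc, Rc]) (by
        intro j
        fin_cases j
        · exact analyticAt_id
        · exact hPan _ (him i)
        · exact hQan _ (him i)
        · exact hRan _ (him i))
      convert h1 using 2 with w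
      congr 2
      funext j
      fin_cases j <;> rfl
    have h2 := ident_one h𝒰 (hnc i) hg (by
      filter_upwards [hP] with x hx
      convert hx using 3
      funext j
      fin_cases j <;> rfl)
    exact hM (z i) (him i) P hP0 h2
  -- Ramanujan's equations
  have hD : ∀ D ∈ G.M, ∀ i, IsW D (zF i) (pF i) (qF i) (rF i) 0 := by
    intro D hDM i
    have hP := G.chain1 h𝒰 hDM (i := i) (g := Pc) (g' := fun w => Pc w ^ 2 - Qc w) (by
      filter_upwards [hUim i] with w hw
      exact hR.derivP w hw)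
    have hQ := G.chain1 h𝒰 hDM (i := i) (g := Qc) (g' := fun w => 4 * (Pc w * Qc w - Rc w)) (by
      filter_upwards [hUim i] with w hw
      exact hR.derivQ w hw)
    have hRr := G.chain1 h𝒰 hDM (i := i) (g := Rc)
      (g' := fun w => 6 * (Pc w * Rc w - Qc w ^ 2)) (by
      filter_upwards [hUim i] with w hw
      exact hR.derivR w hw)
    have hneg : ∀ f : (Fin n → ℂ) → ℂ, G.T (fun x => -f x) = -G.T f := by
      intro f
      have h1 := hTc (-1) f
      have e : (fun x => -1 * f x) = fun x => -f x := by funext x; ring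
      rw [e] at h1
      rw [h1, map_neg, map_one]
      ring
    have hsub : ∀ f g : (Fin n → ℂ) → ℂ, G.T (fun x => f x - g x) = G.T f - G.T g := by
      intro f g
      have e : (fun x => f x - g x) = fun x => f x + -g x := by funext x; ring
      rw [e, G.T_add, hneg, sub_eq_add_neg]
    have hpow2 : ∀ f : (Fin n → ℂ) → ℂ, G.T (fun x => f x ^ 2) = G.T f ^ 2 := by
      intro f
      have e : (fun x => f x ^ 2) = fun x => f x * f x := by funext x; ring
      rw [e, G.T_mul, sq]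
    have e4 : algebraMap ℂ F 4 = 4 := map_ofNat _ 4
    have e6 : algebraMap ℂ F 6 = 6 := map_ofNat _ 6
    constructor
    · rw [hP, hsub, hpow2]
      simp [om0, om1, hpF, hqF, hzF]
    · rw [hQ, hTc, hsub, G.T_mul, e4]
      simp [om0, om1, hpF, hqF, hzF, hrF]
    · rw [hRr, hTc, hsub, G.T_mul, hpow2, e6]
      simp [om0, om1, hpF, hqF, hzF, hrF]
  have hy : ∀ i, yF i * (qF i ^ 3 - rF i ^ 2) = 1728 * qF i ^ 3 := by
    intro i
    have e1728 : algebraMap ℂ F 1728 = 1728 := map_ofNat _ 1728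
    have hQP : MvPolynomial.aeval (fun j => G.T ((![fun x => Jc (x i), fun x => Qc (x i),
        fun x => Rc (x i)] : Fin 3 → (Fin n → ℂ) → ℂ) j))
        (MvPolynomial.X 0 * (MvPolynomial.X 1 ^ 3 - MvPolynomial.X 2 ^ 2) -
          MvPolynomial.C 1728 * MvPolynomial.X 1 ^ 3 : MvPolynomial (Fin 3) ℂ) = 0 := by
      rw [G.aeval_eq_zero_iff]
      filter_upwards [hxim i] with x hx
      have := hR.jinv (x i) hx
      simp only [map_sub, map_mul, map_pow, MvPolynomial.eval_X, MvPolynomial.eval_C,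
        Matrix.cons_val_zero, Matrix.cons_val_one, Matrix.cons_val]
      rw [this, sub_self]
    simp only [map_sub, map_mul, map_pow, MvPolynomial.aeval_X, MvPolynomial.aeval_C,
      Matrix.cons_val_zero, Matrix.cons_val_one, Matrix.cons_val, e1728] at hQP
    exact sub_eq_zero.mp hQP
  rcases alg2 hE hGo G.M zF pF qF rF yF hn G.ker hD hy hAI with h | ⟨i, k, hik, φ, hφ, hU⟩
  · exact h
  exfalso
  obtain ⟨α, β, γ, δ, hdet, hlin, hdep⟩ := link_alg hE h0 hSt hRi hNo hGa hTw hA G.M G.ker hD hy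
    hAI φ hφ hU
  -- the linear relation
  have hlin' : ∀ᶠ x in (𝒰 : Filter (Fin n → ℂ)), (γ * x i + δ) * x k = α * x i + β := by
    rw [hzF] at hlin
    simp only at hlin
    rw [← hTc, ← hTc, ← G.T_const δ, ← G.T_const β, ← G.T_add, ← G.T_add, ← G.T_mul, G.T_eq] at hlin
    exact hlin
  have hlim : (γ * z i + δ) * z k = α * z i + β := by
    have hc1 : Tendsto (fun x : Fin n → ℂ => (γ * x i + δ) * x k - (α * x i + β)) 𝒰
        (𝓝 ((γ * z i + δ) * z k - (α * z i + β))) := by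
      have : Continuous (fun x : Fin n → ℂ => (γ * x i + δ) * x k - (α * x i + β)) := by fun_prop
      exact this.continuousAt.tendsto.mono_left h𝒰
    have hc2 : Tendsto (fun x : Fin n → ℂ => (γ * x i + δ) * x k - (α * x i + β)) 𝒰 (𝓝 0) := by
      refine tendsto_const_nhds.congr' ?_
      filter_upwards [hlin'] with x hx
      rw [hx, sub_self]
    exact sub_eq_zero.mp (tendsto_nhds_unique hc1 hc2)
  have hden : γ * z i + δ ≠ 0 := by
    intro h
    rw [h, zero_mul] at hlim
    have h1 : α * δ - β * γ = 0 := by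
      linear_combination α * h + γ * hlim
    rw [hdet] at h1
    exact one_ne_zero h1
  have hgz : (α * z i + β) / (γ * z i + δ) = z k := by
    rw [div_eq_iff hden, ← hlim]
    ring
  -- the relation between the values of `j`
  rw [algebraicIndependent_iff] at hdep
  push Not at hdep
  obtain ⟨P, hP, hP0⟩ := hdep
  have e : (![yF i, yF k] : Fin 2 → F) =
      fun j => G.T ((![fun x => Jc (x i), fun x => Jc (x k)] : Fin 2 → (Fin n → ℂ) → ℂ) j) := by
    funext j
    fin_cases j <;> rfl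
  rw [e, G.aeval_eq_zero_iff] at hP
  have hgan : AnalyticAt ℂ (fun w : ℂ => (α * w + β) / (γ * w + δ)) (z i) := by
    refine AnalyticAt.div ?_ ?_ hden
    · exact (analyticAt_const.mul analyticAt_id).add analyticAt_const
    · exact (analyticAt_const.mul analyticAt_id).add analyticAt_const
  have hfan : AnalyticAt ℂ
      (fun w => MvPolynomial.eval ![Jc w, Jc ((α * w + β) / (γ * w + δ))] P) (z i) := by
    have h1 := evalfun_analyticAt (θ := z i) P
      (f := ![Jc, fun w => Jc ((α * w + β) / (γ * w + δ))]) (by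
      intro j
      fin_cases j
      · exact Jc_analyticAt' hJ (him i)
      · have h2 : AnalyticAt ℂ Jc ((α * z i + β) / (γ * z i + δ)) := by
          rw [hgz]
          exact Jc_analyticAt' hJ (him k)
        have h3 : AnalyticAt ℂ (fun w => Jc ((α * w + β) / (γ * w + δ))) (z i) :=
          AnalyticAt.fun_comp (g := Jc) (f := fun w : ℂ => (α * w + β) / (γ * w + δ)) h2 hgan
        exact h3)
    convert h1 using 2 with w
    congr 2
    funext j
    fin_cases j <;> rfl
  have hden' : ∀ᶠ x in (𝒰 : Filter (Fin n → ℂ)), γ * x i + δ ≠ 0 := by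
    have hc : Continuous (fun x : Fin n → ℂ => γ * x i + δ) := by fun_prop
    exact h𝒰 (hc.continuousAt.eventually_ne hden)
  have hrel := ident_one h𝒰 (hnc i) hfan (by
    filter_upwards [hP, hlin', hden'] with x hx hx2 hx3
    have h3 : (α * x i + β) / (γ * x i + δ) = x k := by
      rw [div_eq_iff hx3, ← hx2]
      ring
    rw [h3]
    convert hx using 3
    funext j
    fin_cases j <;> rfl)
  obtain ⟨a', b', c', d', hpos, hrat⟩ := rational_of_rel hR hJ hB hC hdet (him i)
    (by rw [hgz]; exact him k) hP0 hrel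
  rw [hgz] at hrat
  exact hne i k hik ⟨a', b', c', d', hpos, hrat⟩

end Pool.Agent.Lib.MP_47914d_nt
end

section
/-!
Final assembly: the modular Schanuel conjecture for tuples simultaneously approximable by CM
points.
-/
set_option autoImplicit false

open UpperHalfPlane hiding I
open Complex Filter Topology Polynomial
open scoped Real

namespace Pool.Agent.Lib.MP_47914d_nt

/-- The point `(z, j(z))`. -/
noncomputable def ptf {n : ℕ} (x : Fin n → ℂ) : Fin n ⊕ Fin n → ℂ :=
  Sum.elim x (fun i => Jc (x i))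

lemma ptf_diff {n : ℕ} (hJ : SpecJ) {z : Fin n → ℂ} (him : ∀ i, 0 < (z i).im)
    (P : MvPolynomial (Fin n ⊕ Fin n) ℤ) :
    DifferentiableAt ℂ (fun x : Fin n → ℂ => MvPolynomial.aeval (ptf x) P) z := by
  have hJa : ∀ i, DifferentiableAt ℂ (fun x : Fin n → ℂ => Jc (x i)) z := by
    intro i
    have h1 : DifferentiableAt ℂ Jc (z i) := (hJ.holo).differentiableAt
      ((isOpen_lt continuous_const Complex.continuous_im).mem_nhds (him i))
    have h2 : DifferentiableAt ℂ (fun x : Fin n → ℂ => x i) z := differentiableAt_apply i z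
    exact DifferentiableAt.fun_comp' z h1 h2
  induction P using MvPolynomial.induction_on with
  | C a => simp only [MvPolynomial.aeval_C]; exact differentiableAt_const _
  | add p q hp hq => simp only [map_add]; exact hp.add hq
  | mul_X p i hp =>
    simp only [map_mul, MvPolynomial.aeval_X]
    refine hp.mul ?_
    rcases i with i | i
    · exact differentiableAt_apply i z
    · exact hJa i

/-- Integral relations between `z, j(z)` persist at very good approximations. -/
lemma vanish4 {n : ℕ} (hJ : SpecJ) (hCl : SpecClass) (hL : SpecLiou4) (z : Fin n → ℂ)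
    (him : ∀ i, 0 < (z i).im) {s : ℝ} (hs : (n : ℝ) < s) (P : MvPolynomial (Fin n ⊕ Fin n) ℤ)
    (hP : MvPolynomial.aeval (ptf z) P = 0) :
    ∀ᶠ H : ℕ in atTop, ∀ κ, Good z s H κ → MvPolynomial.aeval (ptf κ) P = 0 := by
  have hs0 : 0 < s := lt_of_le_of_lt (Nat.cast_nonneg n) hs
  obtain ⟨ε, hε, hεs⟩ : ∃ ε : ℝ, 0 < ε ∧ (1 + ε) * n < s := by
    refine ⟨(s - n) / (n + 1), div_pos (by linarith) (by positivity), ?_⟩
    have h1 : (0 : ℝ) < n + 1 := by positivity
    have h2 : (s - n) / (n + 1) * n < s - n := by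
      rw [div_mul_eq_mul_div, div_lt_iff₀ h1]
      nlinarith
    linarith
  obtain ⟨C1, hC1⟩ := hCl ε hε
  obtain ⟨k, hk⟩ := hL n n P
  obtain ⟨L, hLip⟩ := ((ptf_diff hJ him P).isBigO_sub).bound
  simp only [hP, sub_zero] at hLip
  have hU : {x : Fin n → ℂ | ∀ i, 0 < (x i).im} ∈ 𝓝 z := by
    have : ∀ᶠ x in 𝓝 z, ∀ i, 0 < (x i).im := by
      rw [Filter.eventually_all]
      intro i
      exact (continuous_apply i).continuousAt.eventually
        ((isOpen_lt continuous_const Complex.continuous_im).mem_nhds (him i))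
    exact this
  have hA1 := close3 z hs0 hLip
  have hA2 := close3 z hs0 hU
  set K : ℝ := max (k * (|C1| + 2) ^ n) (Real.log (|L| + 1)) with hK
  filter_upwards [hA1, hA2, growth_lt K ((1 + ε) * n) s hεs hs0, eventually_ge_atTop 2]
    with H h1 h2 hgr hH κ hκ
  have hHr : (2 : ℝ) ≤ H := by exact_mod_cast hH
  have hH0 : (0 : ℝ) < H := by linarith
  have hlog : 0 ≤ Real.log H := Real.log_nonneg (by linarith)
  have hLκ : ‖MvPolynomial.aeval (ptf κ) P‖ ≤ L * ‖κ - z‖ := h1 κ hκ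
  have hUκ : ∀ i, 0 < (κ i).im := h2 κ hκ
  have hnorm : ‖κ - z‖ ≤ Real.exp (-(H : ℝ) ^ s) := by
    rw [pi_norm_le_iff_of_nonneg (Real.exp_pos _).le]
    intro i
    exact (hκ i).1.le
  -- the common bound
  set x : ℝ := (H : ℝ) ^ (1 + ε) with hx
  have hx1 : 1 ≤ x := Real.one_le_rpow (by linarith) (by linarith)
  set d : ℕ := ⌈(|C1| + 1) * x⌉₊ with hd
  have hd1 : (|C1| + 1) * x ≤ d := Nat.le_ceil _
  have hd2 : (d : ℝ) ≤ (|C1| + 2) * x := by
    have := Nat.ceil_lt_add_one (a := (|C1| + 1) * x) (by positivity)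
    rw [← hd] at this
    nlinarith
  have hd0 : 1 ≤ d := by
    have h1 : (1 : ℝ) ≤ d := by
      refine le_trans ?_ hd1
      nlinarith [abs_nonneg C1]
    exact_mod_cast h1
  have hC1d : C1 * x ≤ d := by
    refine le_trans ?_ hd1
    nlinarith [le_abs_self C1]
  have hdata : ∀ i : Fin n, ∃ F : ℤ[X], F.Monic ∧ aeval (Jc (κ i)) F = 0 ∧ F.natDegree ≤ d ∧
      ∏ r ∈ (F.aroots ℂ).toFinset, max 1 ‖r‖ ≤ Real.exp d := by
    intro i
    obtain ⟨F, hF1, hF2, hF3, hF4⟩ := hC1 H hH _ (hUκ i) (hκ i).2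
    refine ⟨F, hF1, hF2, ?_, hF4.trans (Real.exp_le_exp.mpr hC1d)⟩
    exact_mod_cast hF3.trans hC1d
  rcases hk H d hH hd0 κ (fun i => Jc (κ i)) (fun i => (hκ i).2) hdata with h0 | h0
  · exact h0
  · exfalso
    have h0 : Real.exp (-(k * (1 + Real.log H) * (d : ℝ) ^ n)) ≤
        ‖MvPolynomial.aeval (ptf κ) P‖ := h0
    have h1 : ‖MvPolynomial.aeval (ptf κ) P‖ ≤ (|L| + 1) * Real.exp (-(H : ℝ) ^ s) := by
      refine hLκ.trans ?_
      have h2 : L * ‖κ - z‖ ≤ (|L| + 1) * ‖κ - z‖ :=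
        mul_le_mul_of_nonneg_right (by linarith [le_abs_self L]) (norm_nonneg _)
      exact h2.trans (mul_le_mul_of_nonneg_left hnorm (by positivity))
    have h3 : (|L| + 1) * Real.exp (-(H : ℝ) ^ s) <
        Real.exp (-(k * (1 + Real.log H) * (d : ℝ) ^ n)) := by
      have hL1 : 0 < |L| + 1 := by positivity
      calc (|L| + 1) * Real.exp (-(H : ℝ) ^ s)
          = Real.exp (Real.log (|L| + 1)) * Real.exp (-(H : ℝ) ^ s) := by
            rw [Real.exp_log hL1]
        _ = Real.exp (Real.log (|L| + 1) - (H : ℝ) ^ s) := by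
            rw [← Real.exp_add]; ring_nf
        _ < _ := by
            apply Real.exp_lt_exp.mpr
            have h4 : (d : ℝ) ^ n ≤ (|C1| + 2) ^ n * (H : ℝ) ^ ((1 + ε) * n) := by
              calc (d : ℝ) ^ n ≤ ((|C1| + 2) * x) ^ n := pow_le_pow_left₀ (by positivity) hd2 n
                _ = (|C1| + 2) ^ n * (H : ℝ) ^ ((1 + ε) * n) := by
                  rw [mul_pow, hx, ← Real.rpow_natCast ((H : ℝ) ^ (1 + ε)) n,
                    ← Real.rpow_mul hH0.le]
            have h5 : k * (1 + Real.log H) * (d : ℝ) ^ n ≤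
                K * ((1 + Real.log H) * (H : ℝ) ^ ((1 + ε) * n)) := by
              have h6 : (k : ℝ) * (|C1| + 2) ^ n ≤ K := le_max_left _ _
              have h7 : 0 ≤ (1 + Real.log H) * (H : ℝ) ^ ((1 + ε) * n) :=
                mul_nonneg (by linarith) (Real.rpow_nonneg hH0.le _)
              calc k * (1 + Real.log H) * (d : ℝ) ^ n
                  ≤ k * (1 + Real.log H) * ((|C1| + 2) ^ n * (H : ℝ) ^ ((1 + ε) * n)) :=
                    mul_le_mul_of_nonneg_left h4 (by positivity)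
                _ = (k * (|C1| + 2) ^ n) * ((1 + Real.log H) * (H : ℝ) ^ ((1 + ε) * n)) := by
                    ring
                _ ≤ _ := mul_le_mul_of_nonneg_right h6 h7
            have h8 : Real.log (|L| + 1) ≤ K := le_max_right _ _
            linarith
    linarith

/-- An ultrafilter of very good approximations. -/
lemma exists_ultra {n : ℕ} (z : Fin n → ℂ) {s : ℝ} (happ : ∃ᶠ H : ℕ in atTop, ∃ κ, Good z s H κ) :
    ∃ 𝒰 : Ultrafilter (Fin n → ℂ), ∀ p : (Fin n → ℂ) → Prop,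
      (∀ᶠ H : ℕ in atTop, ∀ κ, Good z s H κ → p κ) → ∀ᶠ x in (𝒰 : Filter (Fin n → ℂ)), p x := by
  rw [Filter.frequently_atTop] at happ
  choose N hN κ hκ using happ
  refine ⟨(Filter.hyperfilter ℕ).map κ, fun p hp => ?_⟩
  have h1 : Tendsto N atTop atTop := tendsto_atTop_mono hN tendsto_id
  have h2 : ∀ᶠ m : ℕ in atTop, p (κ m) := by
    filter_upwards [h1.eventually hp] with m hm
    exact hm _ (hκ m)
  have h3 : ∀ᶠ m in (Filter.hyperfilter ℕ : Filter ℕ), p (κ m) := by
    apply Filter.hyperfilter_le_cofinite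
    rw [Nat.cofinite_eq_atTop]
    exact h2
  exact h3

/-- The main theorem. -/
theorem full (hJ : SpecJ) (hR : SpecRam) (hM : SpecMahler) (hE : SpecExt) (h0 : SpecDer0)
    (hGo : SpecGour) (hSt : SpecStepC) (hRi : SpecRicc) (hNo : SpecNoRicc) (hGa : SpecGauge)
    (hTw : SpecTwist) (hA : SpecAut) (hB : SpecLinkB) (hC : SpecLinkC) (hCl : SpecClass)
    (hL : SpecLiou4) (hArc : SpecArc) {n : ℕ} (hn : 0 < n) (z : Fin n → ℂ)
    (him : ∀ i, 0 < (z i).im)
    (hcm : ∀ i, ¬ ∃ a b c : ℤ, (a ≠ 0 ∨ b ≠ 0 ∨ c ≠ 0) ∧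
      (a : ℂ) * z i ^ 2 + (b : ℂ) * z i + (c : ℂ) = 0)
    (hne : ∀ i k, i ≠ k → ¬ ∃ a b c d : ℚ, 0 < a * d - b * c ∧
      z k * ((c : ℂ) * z i + (d : ℂ)) = (a : ℂ) * z i + (b : ℂ)) {s : ℝ} (hs : (n : ℝ) < s)
    (happ : ∃ᶠ H : ℕ in atTop, ∃ κ, Good z s H κ) :
    ∃ w : Fin (n + 1) → Fin n ⊕ Fin n, AlgebraicIndependent ℚ (fun m => ptf z (w m)) := by
  classical
  have hs0 : 0 < s := lt_of_le_of_lt (Nat.cast_nonneg n) hs
  obtain ⟨𝒰, h𝒰⟩ := exists_ultra z happ
  have hle : (𝒰 : Filter (Fin n → ℂ)) ≤ 𝓝 z := by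
    intro V hV
    exact h𝒰 _ (close3 z hs0 hV)
  obtain ⟨F, _, _, ⟨G⟩⟩ := hArc n z 𝒰 hle
  have hnc : ∀ i, ∀ᶠ x in (𝒰 : Filter (Fin n → ℂ)), x i ≠ z i := by
    intro i
    apply h𝒰
    refine Filter.Eventually.of_forall fun H κ hκ h => ?_
    obtain ⟨a, b, c, h0, -, -, -, hq⟩ := (hκ i).2
    rw [h] at hq
    exact hcm i ⟨a, b, c, h0, hq⟩
  obtain ⟨S, hS, hAI⟩ := ax_schanuel hJ hR hM hE h0 hGo hSt hRi hNo hGa hTw hA hB hC hn hle G him
    hnc hne
  -- transfer of relations
  have htr : AlgebraicIndependent ℚ (fun i : (S : Set (Fin n ⊕ Fin n)) => ptf z i) := by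
    apply algebraicIndependent_of_int
    intro P hP0 hP
    set Q : MvPolynomial (Fin n ⊕ Fin n) ℤ := MvPolynomial.rename Subtype.val P with hQ
    have hQz : MvPolynomial.aeval (ptf z) Q = 0 := by
      rw [hQ, MvPolynomial.aeval_rename]
      exact hP
    have h1 := h𝒰 _ (vanish4 hJ hCl hL z him hs Q hQz)
    have hPC : MvPolynomial.map (Int.castRingHom ℂ) P ≠ 0 := by
      intro h
      apply hP0
      exact MvPolynomial.map_injective (Int.castRingHom ℂ) Int.cast_injective (by rw [h, map_zero])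
    apply hPC
    rw [AlgebraicIndepOn, algebraicIndependent_iff] at hAI
    apply hAI
    have e : (fun i : (S : Set (Fin n ⊕ Fin n)) =>
        Sum.elim (fun i => G.T (fun x => x i)) (fun i => G.T (fun x => Jc (x i))) (i : Fin n ⊕ Fin n)) =
        fun i : (S : Set (Fin n ⊕ Fin n)) => G.T (fun x => ptf x i) := by
      funext i
      rcases i with ⟨i | i, hi⟩ <;> rfl
    rw [e, G.aeval_eq_zero_iff]
    filter_upwards [h1] with x hx
    rw [hQ, MvPolynomial.aeval_rename] at hx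
    rw [MvPolynomial.eval_map]
    exact hx
  -- choose `n + 1` elements
  obtain ⟨S', hS', hcard⟩ := Finset.exists_subset_card_eq hS
  have e : Fin (n + 1) ≃ S' := (Fintype.equivFinOfCardEq (by rw [Fintype.card_coe]; exact hcard)).symm
  refine ⟨fun m => (e m : Fin n ⊕ Fin n), ?_⟩
  have h1 := htr.comp (fun m : Fin (n + 1) => (⟨e m, hS' (e m).2⟩ : (S : Set (Fin n ⊕ Fin n)))) (by
    intro a b hab
    apply e.injective
    apply Subtype.ext
    exact congrArg (fun i : (S : Set (Fin n ⊕ Fin n)) => (i : Fin n ⊕ Fin n)) hab)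
  exact h1

end Pool.Agent.Lib.MP_47914d_nt
end
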