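import Pool.Agent.Lib.MP_47914d_nt.HoloApi

/-!
PARAM and HOLO: holomorphic functions of several variables (for MP_47914d_nt).
-/

set_option autoImplicit false

open Complex Filter Topology Metric

namespace Pool.Agent.Lib.MP_47914d_nt

section

variable {E : Type} [NormedAddCommGroup E] [NormedSpace ℂ E]

theorem circleIntegral_clm_apply {D : ℂ → E →L[ℂ] ℂ} {c : ℂ} {ρ : ℝ} (hρ : 0 ≤ ρ)
    (hD : ContinuousOn D (sphere c ρ)) (v : E) :
    (∮ ζ in C(c, ρ), D ζ) v = ∮ ζ in C(c, ρ), D ζ v := by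
  have hi : CircleIntegrable D c ρ := hD.circleIntegrable hρ
  have h := ((ContinuousLinearMap.apply ℂ ℂ v).intervalIntegral_comp_comm hi.out)
  simp only [circleIntegral]
  rw [← ContinuousLinearMap.apply_apply v (∫ θ in (0)..2 * Real.pi, _), ← h]
  simp

theorem continuousAt_circle {X : Type} [TopologicalSpace X] (h : X × ℂ → ℂ) (z : X) (c : ℂ)
    (ρ : ℝ) (hρ : 0 < ρ) (hc : ∀ ζ ∈ sphere c ρ, ∀ᶠ y in 𝓝 (z, ζ), ContinuousAt h y) :
    ContinuousAt (fun x => ∮ ζ in C(c, ρ), h (x, ζ)) z := by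
  have hK := isCompact_sphere c ρ
  have hA : ∀ᶠ x in 𝓝 z, ∀ ζ ∈ sphere c ρ, ContinuousAt h (x, ζ) :=
    hK.eventually_forall_of_forall_eventually (P := fun x ζ => ContinuousAt h (x, ζ)) hc
  have hint : ∀ᶠ x in 𝓝 z, CircleIntegrable (fun ζ => h (x, ζ)) c ρ := by
    filter_upwards [hA] with x hx
    apply ContinuousOn.circleIntegrable hρ.le
    intro ζ hζ
    have h1 : ContinuousAt (fun ζ : ℂ => (x, ζ)) ζ := by fun_prop
    exact (ContinuousAt.comp (f := fun ζ : ℂ => (x, ζ)) (hx ζ hζ) h1).continuousWithinAt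
  have hint0 := hint.self_of_nhds
  rw [ContinuousAt, Metric.tendsto_nhds]
  intro ε hε
  have hδ : 0 < ε / (2 * Real.pi * ρ + 1) := by positivity
  have hB : ∀ᶠ x in 𝓝 z, ∀ ζ ∈ sphere c ρ, ‖h (x, ζ) - h (z, ζ)‖ ≤
      ε / (2 * Real.pi * ρ + 1) := by
    refine hK.eventually_forall_of_forall_eventually
      (P := fun x ζ => ‖h (x, ζ) - h (z, ζ)‖ ≤ ε / (2 * Real.pi * ρ + 1)) fun ζ hζ => ?_
    have h1 : ContinuousAt h (z, ζ) := (hc ζ hζ).self_of_nhds
    have h2 : ContinuousAt (fun y : X × ℂ => h (z, y.2)) (z, ζ) := by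
      have h3 : ContinuousAt (fun y : X × ℂ => (z, y.2)) (z, ζ) := by fun_prop
      exact ContinuousAt.comp (f := fun y : X × ℂ => (z, y.2)) h1 h3
    have h4 : ContinuousAt (fun y : X × ℂ => ‖h (y.1, y.2) - h (z, y.2)‖) (z, ζ) :=
      (h1.sub h2).norm
    have h5 : ∀ᶠ y : X × ℂ in 𝓝 (z, ζ), ‖h (y.1, y.2) - h (z, y.2)‖ <
        ε / (2 * Real.pi * ρ + 1) := h4.eventually_lt_const (by simpa using hδ)
    exact h5.mono fun y hy => hy.le
  filter_upwards [hint, hB] with x hx hBx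
  rw [dist_eq_norm, ← circleIntegral.integral_sub hx hint0]
  have h6 := circleIntegral.norm_integral_le_of_norm_le_const hρ.le hBx
  refine lt_of_le_of_lt h6 ?_
  rw [mul_div_assoc', div_lt_iff₀ (by positivity)]
  nlinarith [Real.pi_pos]

theorem hasFDerivAt_circle (h : E × ℂ → ℂ) (z : E) (c : ℂ) (ρ : ℝ) (hρ : 0 < ρ)
    (h1 : ∀ ζ ∈ sphere c ρ, ∀ᶠ y in 𝓝 (z, ζ), DifferentiableAt ℂ h y)
    (h2 : ∀ ζ ∈ sphere c ρ, ContinuousAt (fderiv ℂ h) (z, ζ)) :
    HasFDerivAt (fun x => ∮ ζ in C(c, ρ), h (x, ζ))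
      (∮ ζ in C(c, ρ), (fderiv ℂ h (z, ζ)).comp (ContinuousLinearMap.inl ℂ E ℂ)) z := by
  have hK := isCompact_sphere c ρ
  set D : ℂ → E →L[ℂ] ℂ := fun ζ => (fderiv ℂ h (z, ζ)).comp (ContinuousLinearMap.inl ℂ E ℂ)
    with hDdef
  have hDc : ∀ ζ ∈ sphere c ρ, ContinuousAt D ζ := by
    intro ζ hζ
    have h3 : ContinuousAt (fun ζ : ℂ => (z, ζ)) ζ := by fun_prop
    have h4 : ContinuousAt (fun ζ : ℂ => fderiv ℂ h (z, ζ)) ζ :=
      ContinuousAt.comp (f := fun ζ : ℂ => (z, ζ)) (h2 ζ hζ) h3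
    exact h4.clm_comp continuousAt_const
  have hDon : ContinuousOn D (sphere c ρ) := fun ζ hζ => (hDc ζ hζ).continuousWithinAt
  have hA : ∀ᶠ x in 𝓝 z, ∀ ζ ∈ sphere c ρ, DifferentiableAt ℂ h (x, ζ) :=
    hK.eventually_forall_of_forall_eventually (P := fun x ζ => DifferentiableAt ℂ h (x, ζ)) h1
  have hint : ∀ᶠ x in 𝓝 z, CircleIntegrable (fun ζ => h (x, ζ)) c ρ := by
    filter_upwards [hA] with x hx
    apply ContinuousOn.circleIntegrable hρ.le
    intro ζ hζ
    have h3 : ContinuousAt (fun ζ : ℂ => (x, ζ)) ζ := by fun_prop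
    exact (ContinuousAt.comp (f := fun ζ : ℂ => (x, ζ))
      (hx ζ hζ).continuousAt h3).continuousWithinAt
  have hint0 := hint.self_of_nhds
  rw [hasFDerivAt_iff_isLittleO, Asymptotics.isLittleO_iff]
  intro ε hε
  have hδ : 0 < ε / (2 * Real.pi * ρ + 1) / 2 := by positivity
  set δ := ε / (2 * Real.pi * ρ + 1) / 2 with hδdef
  have hB : ∀ᶠ x in 𝓝 z, ∀ ζ ∈ sphere c ρ, ‖h (x, ζ) - h (z, ζ) - D ζ (x - z)‖ ≤
      (δ + δ) * ‖x - z‖ := by
    refine hK.eventually_forall_of_forall_eventually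
      (P := fun x ζ => ‖h (x, ζ) - h (z, ζ) - D ζ (x - z)‖ ≤ (δ + δ) * ‖x - z‖) fun ζ0 hζ0 => ?_
    have hst : HasStrictFDerivAt h (fderiv ℂ h (z, ζ0)) (z, ζ0) :=
      hasStrictFDerivAt_of_hasFDerivAt_of_continuousAt
        ((h1 ζ0 hζ0).mono fun y hy => hy.hasFDerivAt) (h2 ζ0 hζ0)
    rw [hasStrictFDerivAt_iff_isLittleO, Asymptotics.isLittleO_iff] at hst
    have h5 := hst hδ
    have h6 : ContinuousAt (fun y : E × ℂ => ((y.1, y.2), (z, y.2))) (z, ζ0) := by fun_prop
    have h7 := h6.eventually h5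
    have h8 : ∀ᶠ y : E × ℂ in 𝓝 (z, ζ0), ‖D y.2 - D ζ0‖ < δ := by
      have h9 : ContinuousAt (fun y : E × ℂ => D y.2) (z, ζ0) := by
        have h10 : ContinuousAt (fun y : E × ℂ => y.2) (z, ζ0) := by fun_prop
        exact ContinuousAt.comp (f := fun y : E × ℂ => y.2) (hDc ζ0 hζ0) h10
      have h11 : ContinuousAt (fun y : E × ℂ => ‖D y.2 - D ζ0‖) (z, ζ0) :=
        (h9.sub continuousAt_const).norm
      exact h11.eventually_lt_const (by simpa using hδ)
    filter_upwards [h7, h8] with y hy hy'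
    simp only [Prod.mk_sub_mk, sub_self] at hy
    have e1 : ‖((y.1 - z, (0 : ℂ)) : E × ℂ)‖ = ‖y.1 - z‖ := by simp [Prod.norm_def]
    rw [e1] at hy
    have e2 : D ζ0 (y.1 - z) = fderiv ℂ h (z, ζ0) (y.1 - z, 0) := by simp [hDdef]
    rw [← e2] at hy
    have e3 : h (y.1, y.2) - h (z, y.2) - D y.2 (y.1 - z) =
        (h (y.1, y.2) - h (z, y.2) - D ζ0 (y.1 - z)) - (D y.2 - D ζ0) (y.1 - z) := by
      simp only [sub_apply]; ring
    rw [e3]
    refine (norm_sub_le _ _).trans ?_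
    rw [add_mul]
    refine add_le_add hy ?_
    refine ((D y.2 - D ζ0).le_opNorm _).trans ?_
    exact mul_le_mul_of_nonneg_right hy'.le (norm_nonneg _)
  filter_upwards [hint, hB] with x hx hBx
  have hDi : CircleIntegrable (fun ζ => D ζ (x - z)) c ρ :=
    (hDon.clm_apply continuousOn_const).circleIntegrable hρ.le
  rw [circleIntegral_clm_apply hρ.le hDon, ← circleIntegral.integral_sub hx hint0,
    ← circleIntegral.integral_sub (hx.fun_sub hint0) hDi]
  have h6 := circleIntegral.norm_integral_le_of_norm_le_const hρ.le hBx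
  refine h6.trans ?_
  rw [← mul_assoc]
  refine mul_le_mul_of_nonneg_right ?_ (norm_nonneg _)
  rw [hδdef, add_halves, mul_div_assoc', div_le_iff₀ (by positivity)]
  nlinarith [Real.pi_pos]

/-- Cauchy's formula for a directional derivative. -/
theorem fderiv_apply_eq_circle {f : E → ℂ} {x v : E} {s : ℝ} (hs : 0 < s)
    (h : ∀ t ∈ closedBall (0 : ℂ) s, Holo f (x + t • v)) :
    fderiv ℂ f x v = (2 * Real.pi * I)⁻¹ * ∮ t in C(0, s), (t ^ 2)⁻¹ * f (x + t • v) := by
  have hU : IsOpen {t : ℂ | Holo f (x + t • v)} := by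
    have h1 : IsOpen {y : E | Holo f y} := isOpen_setOfPred_eventually_nhds
    exact h1.preimage (by fun_prop)
  have hd : DifferentiableOn ℂ (fun t : ℂ => f (x + t • v)) {t : ℂ | Holo f (x + t • v)} := by
    intro t ht
    have h2 : DifferentiableAt ℂ (fun t : ℂ => x + t • v) t := by fun_prop
    exact (DifferentiableAt.comp (f := fun t : ℂ => x + t • v) t
      (HoloApi.diffAt ht) h2).differentiableWithinAt
  have h3 := two_pi_I_inv_smul_circleIntegral_sub_sq_inv_smul_of_differentiable hU (c := 0)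
    (R := s) (w₀ := 0) h hd (mem_ball_self hs)
  simp only [sub_zero, smul_eq_mul] at h3
  rw [h3]
  have h4 : HasDerivAt (fun t : ℂ => x + t • v) v 0 := by
    have := ((hasDerivAt_id (0 : ℂ)).smul_const v).const_add x
    simpa using this
  have h5 : HasFDerivAt f (fderiv ℂ f x) (x + (0 : ℂ) • v) := by
    have := (HoloApi.diffAt (h 0 (mem_closedBall_self hs.le))).hasFDerivAt
    simpa using this
  have h6 := (h5.comp_hasDerivAt (0 : ℂ) h4).deriv
  exact h6.symm

theorem exists_radius {f : E → ℂ} {z v : E} (hf : Holo f z) : ∃ s : ℝ, 0 < s ∧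
    ∀ᶠ x in 𝓝 z, ∀ t ∈ closedBall (0 : ℂ) s, Holo f (x + t • v) := by
  have h1 : ContinuousAt (fun y : E × ℂ => y.1 + y.2 • v) (z, 0) := by fun_prop
  have h2 : ∀ᶠ y : E × ℂ in 𝓝 (z, 0), Holo f (y.1 + y.2 • v) := by
    refine h1.eventually (p := fun x => Holo f x) ?_
    simp only [zero_smul, add_zero]
    exact HoloApi.ev hf
  rw [nhds_prod_eq, eventually_prod_iff] at h2
  obtain ⟨pa, hpa, pb, hpb, h⟩ := h2
  obtain ⟨ε, hε, hb⟩ := Metric.eventually_nhds_iff_ball.1 hpb
  refine ⟨ε / 2, by positivity, ?_⟩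
  filter_upwards [hpa] with x hx t ht
  exact h hx (hb t (closedBall_subset_ball (by linarith) ht))

theorem fderiv_apply_eventually {f : E → ℂ} {z v : E} (hf : Holo f z) : ∃ s : ℝ, 0 < s ∧
    (∀ t ∈ sphere (0 : ℂ) s, Holo (fun y : E × ℂ => (y.2 ^ 2)⁻¹ * f (y.1 + y.2 • v)) (z, t)) ∧
    ∀ᶠ x in 𝓝 z, fderiv ℂ f x v =
      (2 * Real.pi * I)⁻¹ * ∮ t in C(0, s), (t ^ 2)⁻¹ * f (x + t • v) := by
  obtain ⟨s, hs, h⟩ := exists_radius (v := v) hf
  refine ⟨s, hs, ?_, ?_⟩
  · intro t ht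
    have ht0 : t ≠ 0 := by
      rintro rfl
      rw [mem_sphere, dist_self] at ht
      linarith
    have h1 : Holo (fun y : E × ℂ => f (y.1 + y.2 • v)) (z, t) :=
      HoloApi.comp_of (φ := fun y : E × ℂ => y.1 + y.2 • v) (z' := (z, t)) (by fun_prop)
        (h.self_of_nhds t (sphere_subset_closedBall ht))
    have h2 : Holo (fun y : E × ℂ => y.2 ^ 2) (z, t) :=
      HoloApi.of_differentiable (by fun_prop)
    have h3 := HoloApi.div h1 h2 (by simpa using ht0)
    refine HoloApi.congr h3 (Eventually.of_forall fun y => ?_)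
    rw [div_eq_mul_inv, mul_comm]
  · filter_upwards [h] with x hx
    exact fderiv_apply_eq_circle hs hx

theorem continuousAt_fderiv_apply {f : E → ℂ} {z : E} (v : E) (hf : Holo f z) :
    ContinuousAt (fun x => fderiv ℂ f x v) z := by
  obtain ⟨s, hs, h1, h2⟩ := fderiv_apply_eventually (v := v) hf
  have h3 : ContinuousAt (fun x => (2 * Real.pi * I)⁻¹ *
      ∮ t in C(0, s), (t ^ 2)⁻¹ * f (x + t • v)) z := by
    refine ContinuousAt.mul continuousAt_const ?_
    exact continuousAt_circle (fun y : E × ℂ => (y.2 ^ 2)⁻¹ * f (y.1 + y.2 • v)) z 0 s hs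
      fun t ht => (h1 t ht).mono fun y hy => hy.continuousAt
  exact h3.congr (h2.mono fun x hx => hx.symm)

end

/-- PARAM. -/
theorem specParam : SpecParam := by
  intro E _ _ _ h z c ρ hρ hh
  have hA : ∀ᶠ x in 𝓝 z, ∀ ζ ∈ sphere c ρ, Holo h (x, ζ) :=
    (isCompact_sphere c ρ).eventually_forall_of_forall_eventually
      (P := fun x ζ => Holo h (x, ζ)) fun ζ hζ => HoloApi.ev (hh ζ hζ)
  filter_upwards [hA] with x hx
  refine (hasFDerivAt_circle h x c ρ hρ hx fun ζ hζ => ?_).differentiableAt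
  rw [continuousAt_clm_apply]
  exact fun v => continuousAt_fderiv_apply v (hx ζ hζ)

section

variable {E : Type} [NormedAddCommGroup E] [NormedSpace ℂ E]

/-- Identity theorem on a ball. -/
theorem ident_ball {F : E → ℂ} {z x0 : E} {R : ℝ} (hF : ∀ x ∈ ball z R, DifferentiableAt ℂ F x)
    (hx0 : x0 ∈ ball z R) (h : ∀ v : E, ∀ᶠ t in 𝓝 (0 : ℂ), F (x0 + t • v) = 0) :
    ∀ x ∈ ball z R, F x = 0 := by
  intro x hx
  set v := x - x0 with hv
  set U : Set ℂ := (fun t : ℂ => x0 + t • v) ⁻¹' ball z R with hU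
  have hUo : IsOpen U := isOpen_ball.preimage (by fun_prop)
  have hUc : IsPreconnected U := by
    apply Convex.isPreconnected
    have h1 : Convex ℝ (ball z R) := convex_ball z R
    intro a ha b hb s t hs ht hst
    simp only [hU, Set.mem_preimage] at ha hb ⊢
    have h2 := h1 ha hb hs ht hst
    have h3 : s • (x0 + a • v) + t • (x0 + b • v) = x0 + (s • a + t • b) • v := by
      have h4 : (x0 : E) = s • x0 + t • x0 := by rw [← add_smul, hst, one_smul]
      rw [smul_add, smul_add, add_smul, smul_assoc, smul_assoc]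
      conv_rhs => rw [h4]
      abel
    rwa [h3] at h2
  have hd : DifferentiableOn ℂ (fun t : ℂ => F (x0 + t • v)) U := by
    intro t ht
    have h2 : DifferentiableAt ℂ (fun t : ℂ => x0 + t • v) t := by fun_prop
    exact (DifferentiableAt.comp (f := fun t : ℂ => x0 + t • v) t (hF _ ht)
      h2).differentiableWithinAt
  have ha : AnalyticOnNhd ℂ (fun t : ℂ => F (x0 + t • v)) U := hd.analyticOnNhd hUo
  have h0 : (0 : ℂ) ∈ U := by simpa [hU] using hx0
  have h1 : (1 : ℂ) ∈ U := by simpa [hU, hv] using hx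
  have := ha.eqOn_zero_of_preconnected_of_eventuallyEq_zero hUc h0 (h v) h1
  simpa [hv] using this

end

/-- HOLO. -/
theorem specHolo : SpecHolo where
  partialD := by
    intro E _ _ _ f z v hf
    obtain ⟨s, hs, h1, h2⟩ := fderiv_apply_eventually (v := v) hf
    refine HoloApi.congr ?_ h2
    exact HoloApi.mul (HoloApi.const _) (specParam E
      (fun y : E × ℂ => (y.2 ^ 2)⁻¹ * f (y.1 + y.2 • v)) z 0 s hs h1)
  ident := by
    intro E _ _ f z hf h
    obtain ⟨R, hR, hb⟩ := Metric.eventually_nhds_iff_ball.1 hf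
    filter_upwards [ball_mem_nhds z hR] with x hx
    exact ident_ball hb (mem_ball_self hR) h x hx
  quot := by
    intro E _ _ _ f g z hf hg hg0 hrel
    -- the relation for all directions at once
    obtain ⟨b, hb⟩ : ∃ b : Finset E, Submodule.span ℂ (b : Set E) = ⊤ :=
      Module.Finite.fg_top
    have hall : ∀ᶠ x in 𝓝 z, ∀ v ∈ b, g x * fderiv ℂ f x v = f x * fderiv ℂ g x v :=
      (Finset.eventually_all b).2 fun v _ => hrel v
    have hall' : ∀ᶠ x in 𝓝 z, ∀ v, g x * fderiv ℂ f x v = f x * fderiv ℂ g x v := by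
      filter_upwards [hall] with x hx v
      have hv : v ∈ Submodule.span ℂ (b : Set E) := by rw [hb]; trivial
      induction hv using Submodule.span_induction with
      | mem v hv => exact hx v hv
      | zero => simp
      | add u v _ _ hu hv => simp only [map_add, mul_add, hu, hv]
      | smul a v _ hv =>
        simp only [map_smul, smul_eq_mul]
        linear_combination a * hv
    obtain ⟨R, hR, hball⟩ := Metric.eventually_nhds_iff_ball.1 ((hf.and hg).and hall')
    -- a point where g does not vanish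
    obtain ⟨x0, hx0, hgx0⟩ : ∃ x0 ∈ ball z R, g x0 ≠ 0 := by
      by_contra hcon
      push Not at hcon
      exact hg0 (Filter.mem_of_superset (ball_mem_nhds z hR) hcon)
    have hmem : ∀ᶠ x in 𝓝 x0, x ∈ ball z R := isOpen_ball.mem_nhds hx0
    have hg' : ∀ᶠ x in 𝓝 x0, x ∈ ball z R ∧ g x ≠ 0 :=
      hmem.and ((hball x0 hx0).1.2.continuousAt.eventually_ne hgx0)
    obtain ⟨r, hr, hb2⟩ := Metric.eventually_nhds_iff_ball.1 hg'
    have hq : ∀ x ∈ ball x0 r, HasFDerivAt (fun x => f x / g x) (0 : E →L[ℂ] ℂ) x := by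
      intro x hx
      obtain ⟨hxR, hgx⟩ := hb2 x hx
      obtain ⟨⟨hfd, hgd⟩, hre⟩ := hball x hxR
      have h1 := hfd.hasFDerivAt.mul ((hasDerivAt_inv hgx).comp_hasFDerivAt x hgd.hasFDerivAt)
      simp only [div_eq_mul_inv]
      refine h1.congr_fderiv ?_
      ext v
      simp
      have := hre v
      field_simp
      linear_combination this
    have hconst : ∀ x ∈ ball x0 r, f x / g x = f x0 / g x0 := by
      intro x hx
      refine isOpen_ball.is_const_of_fderiv_eq_zero (𝕜 := ℂ)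
        (convex_ball x0 r).isPreconnected (f := fun x => f x / g x)
        (fun x hx => (hq x hx).differentiableAt.differentiableWithinAt)
        (fun x hx => (hq x hx).fderiv) hx (mem_ball_self hr)
    refine ⟨f x0 / g x0, ?_⟩
    filter_upwards [ball_mem_nhds z hR] with x hx
    have key := ident_ball (F := fun x => f x - f x0 / g x0 * g x) (z := z) (R := R) (x0 := x0)
      (fun x hx => ((hball x hx).1.1).fun_sub (((hball x hx).1.2).const_mul _)) hx0 ?_ x hx
    · exact sub_eq_zero.1 key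
    · intro v
      have h1 : ContinuousAt (fun t : ℂ => x0 + t • v) 0 := by fun_prop
      have h2 : ∀ᶠ t in 𝓝 (0 : ℂ), x0 + t • v ∈ ball x0 r :=
        h1.eventually (isOpen_ball.mem_nhds (by simpa using hr))
      filter_upwards [h2] with t ht
      have h3 := hconst _ ht
      have h4 := (hb2 _ ht).2
      rw [← h3]
      field_simp
      ring

end Pool.Agent.Lib.MP_47914d_nt
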