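import Pool.Agent.Lib.MP_47914d_nt.Defs4
import Pool.Agent.Lib.MP_47914d_nt.DerExt
import Mathlib.RingTheory.DedekindDomain.IntegralClosure
import Mathlib.RingTheory.Valuation.LocalSubring
import Mathlib.FieldTheory.IsAlgClosed.Basic

/-!
Module PLACE: places of function fields of one variable.
-/

set_option autoImplicit false
set_option linter.style.haveILetI false
set_option linter.unusedSimpArgs false

open Polynomial

namespace Pool.Agent.Lib.MP_47914d_nt.PlaceM

variable {E : Type} [Field E] [Algebra ℂ E] {𝒪 : ValuationSubring E}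

lemma v_const (hC : ∀ c : ℂ, algebraMap ℂ E c ∈ 𝒪) {c : ℂ} (hc : c ≠ 0) :
    𝒪.valuation (algebraMap ℂ E c) = 1 := by
  have h1 := (𝒪.valuation_le_one_iff _).2 (hC c)
  have h2 := (𝒪.valuation_le_one_iff _).2 (hC c⁻¹)
  rw [map_inv₀, map_inv₀] at h2
  have h0 : 𝒪.valuation (algebraMap ℂ E c) ≠ 0 := by
    rw [Valuation.ne_zero_iff]
    exact (map_ne_zero_iff _ (algebraMap ℂ E).injective).2 hc
  apply le_antisymm h1
  rwa [inv_le_one₀ (zero_lt_iff.2 h0)] at h2

lemma v_const_le (hC : ∀ c : ℂ, algebraMap ℂ E c ∈ 𝒪) (c : ℂ) :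
    𝒪.valuation (algebraMap ℂ E c) ≤ 1 := (𝒪.valuation_le_one_iff _).2 (hC c)

lemma v_aeval_le (hC : ∀ c : ℂ, algebraMap ℂ E c ∈ 𝒪) {x : E} (hx : 𝒪.valuation x ≤ 1)
    (P : ℂ[X]) : 𝒪.valuation (aeval x P) ≤ 1 := by
  rw [aeval_eq_sum_range]
  apply Valuation.map_sum_le
  intro i _
  rw [Algebra.smul_def, map_mul, map_pow]
  exact mul_le_one' (v_const_le hC _) (pow_le_one' hx i)

lemma v_aeval_sub (hC : ∀ c : ℂ, algebraMap ℂ E c ∈ 𝒪) {x : E} (hx : 𝒪.valuation x < 1)
    (P : ℂ[X]) : 𝒪.valuation (aeval x P - algebraMap ℂ E (P.coeff 0)) < 1 := by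
  have h1 : aeval x P - algebraMap ℂ E (P.coeff 0) = aeval x P.divX * x := by
    conv_lhs => rw [← divX_mul_X_add P]
    simp
  rw [h1, map_mul]
  exact mul_lt_one_of_nonneg_of_lt_one_right (v_aeval_le hC hx.le _) zero_le hx

lemma v_aeval_eq (hC : ∀ c : ℂ, algebraMap ℂ E c ∈ 𝒪) {x : E} (hx : 𝒪.valuation x < 1)
    {P : ℂ[X]} (hP : P.coeff 0 ≠ 0) : 𝒪.valuation (aeval x P) = 1 := by
  have h1 := v_aeval_sub hC hx P
  have h2 := v_const hC hP
  rw [← h2] at h1
  rw [← h2]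
  exact Valuation.map_eq_of_sub_lt _ h1

lemma root_small (hC : ∀ c : ℂ, algebraMap ℂ E c ∈ 𝒪) {z : E} (hz : 𝒪.valuation z ≤ 1) :
    ∀ (n : ℕ) (P : ℂ[X]), P.natDegree = n → P ≠ 0 → 𝒪.valuation (aeval z P) < 1 →
      ∃ r : ℂ, 𝒪.valuation (z - algebraMap ℂ E r) < 1 := by
  intro n
  induction n with
  | zero =>
    intro P hn hP hv
    exfalso
    rw [eq_C_of_natDegree_eq_zero hn, aeval_C] at hv
    have h3 : P.coeff 0 ≠ 0 := by
      intro h0
      apply hP
      rw [eq_C_of_natDegree_eq_zero hn, h0, C_0]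
    rw [v_const hC h3] at hv
    exact lt_irrefl _ hv
  | succ n ih =>
    intro P hn hP hv
    have hdeg : P.degree ≠ 0 := by
      intro h0
      rw [natDegree_eq_zero_iff_degree_le_zero.2 h0.le] at hn
      omega
    obtain ⟨r, hr⟩ := IsAlgClosed.exists_root P hdeg
    obtain ⟨Q, rfl⟩ := dvd_iff_isRoot.2 hr
    have hQ : Q ≠ 0 := right_ne_zero_of_mul hP
    rw [natDegree_mul (X_sub_C_ne_zero r) hQ, natDegree_X_sub_C] at hn
    rw [map_mul, map_mul] at hv
    by_cases h4 : 𝒪.valuation (aeval z Q) < 1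
    · exact ih Q (by omega) hQ h4
    · refine ⟨r, ?_⟩
      have h5 : 𝒪.valuation (aeval z Q) = 1 :=
        le_antisymm (v_aeval_le hC hz Q) (not_lt.1 h4)
      rw [h5, mul_one] at hv
      simpa using hv

/-- nonzero polynomials in `x` -/
lemma poly_decomp {x : E} (P : ℂ[X]) (hP : P ≠ 0) :
    ∃ (n : ℕ) (Q : ℂ[X]), Q.coeff 0 ≠ 0 ∧ aeval x P = x ^ n * aeval x Q := by
  obtain ⟨Q, h1, h2⟩ := exists_eq_pow_rootMultiplicity_mul_and_not_dvd P hP 0
  rw [C_0, sub_zero] at h1 h2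
  refine ⟨rootMultiplicity 0 P, Q, ?_, ?_⟩
  · rwa [X_dvd_iff] at h2
  · conv_lhs => rw [h1]
    simp

lemma field_decomp {x a : E} (hx : x ≠ 0) (ha : a ∈ IntermediateField.adjoin ℂ {x}) (ha0 : a ≠ 0) :
    ∃ (n : ℤ) (P Q : ℂ[X]), P.coeff 0 ≠ 0 ∧ Q.coeff 0 ≠ 0 ∧
      a = x ^ n * (aeval x P / aeval x Q) := by
  rw [IntermediateField.mem_adjoin_simple_iff] at ha
  obtain ⟨r, s, h⟩ := ha
  have hr : r ≠ 0 := by
    rintro rfl
    simp at h
    exact ha0 h
  have hs : s ≠ 0 := by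
    rintro rfl
    simp at h
    exact ha0 h
  obtain ⟨m, P, hP, h1⟩ := poly_decomp (x := x) r hr
  obtain ⟨n, Q, hQ, h2⟩ := poly_decomp (x := x) s hs
  refine ⟨m - n, P, Q, hP, hQ, ?_⟩
  rw [h, h1, h2, zpow_sub₀ hx, zpow_natCast, zpow_natCast]
  by_cases hq : aeval x Q = 0
  · simp [hq]
  · field_simp

/-- a local parameter of the rational function field -/
lemma exists_param {y : E} (hy : Transcendental ℂ y)
    (hfin : FiniteDimensional (IntermediateField.adjoin ℂ {y}) E)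
    (hC : ∀ c : ℂ, algebraMap ℂ E c ∈ 𝒪) (h𝒪 : 𝒪 ≠ ⊤) :
    ∃ x : E, Transcendental ℂ x ∧ 𝒪.valuation x < 1 ∧
      IntermediateField.adjoin ℂ {x} = IntermediateField.adjoin ℂ {y} := by
  by_cases hy1 : y ∈ 𝒪
  · -- some polynomial in `y` is not a unit
    have h1 : ∃ P : ℂ[X], P ≠ 0 ∧ 𝒪.valuation (aeval y P) < 1 := by
      by_contra hne
      push Not at hne
      apply h𝒪
      have hK : ∀ a ∈ IntermediateField.adjoin ℂ {y}, a ∈ 𝒪 := by
        intro a ha
        rw [IntermediateField.mem_adjoin_simple_iff] at ha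
        obtain ⟨r, s, rfl⟩ := ha
        by_cases hs : s = 0
        · subst hs
          simp [zero_mem]
        · rw [← 𝒪.valuation_le_one_iff, map_div₀]
          have h2 := v_aeval_le hC ((𝒪.valuation_le_one_iff _).2 hy1) r
          have h3 := le_antisymm (v_aeval_le hC ((𝒪.valuation_le_one_iff _).2 hy1) s) (hne s hs)
          rw [h3, div_one]
          exact h2
      rw [eq_top_iff]
      intro x _
      have hint : IsIntegral (IntermediateField.adjoin ℂ {y}) x :=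
        Algebra.IsIntegral.isIntegral x
      obtain ⟨p, hp, hpx⟩ := hint
      have hx : IsIntegral 𝒪 x := by
        have hl : p.map (algebraMap (IntermediateField.adjoin ℂ {y}) E) ∈
            Polynomial.lifts (algebraMap 𝒪 E) := by
          rw [Polynomial.lifts_iff_coeff_lifts]
          intro n
          rw [coeff_map]
          exact ⟨⟨_, hK _ (p.coeff n).2⟩, rfl⟩
        obtain ⟨q, hq1, hq2, hq3⟩ := Polynomial.lifts_and_degree_eq_and_monic hl (hp.map _)
        refine ⟨q, hq3, ?_⟩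
        rw [← eval_map, hq1, eval_map]
        exact hpx
      obtain ⟨z, hz⟩ := (IsIntegrallyClosed.isIntegral_iff (R := 𝒪) (K := E)).1 hx
      rw [← hz]
      exact z.2
    obtain ⟨P, hP, hv⟩ := h1
    obtain ⟨r, hr⟩ := root_small hC ((𝒪.valuation_le_one_iff _).2 hy1) _ P rfl hP hv
    have hadj : IntermediateField.adjoin ℂ {y - algebraMap ℂ E r} =
        IntermediateField.adjoin ℂ {y} := by
      apply le_antisymm
      · rw [IntermediateField.adjoin_simple_le_iff]
        exact sub_mem (IntermediateField.mem_adjoin_simple_self ℂ y)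
          (IntermediateField.algebraMap_mem _ r)
      · rw [IntermediateField.adjoin_simple_le_iff]
        have := add_mem (IntermediateField.mem_adjoin_simple_self ℂ (y - algebraMap ℂ E r))
          (IntermediateField.algebraMap_mem (IntermediateField.adjoin ℂ {y - algebraMap ℂ E r}) r)
        rwa [sub_add_cancel] at this
    refine ⟨y - algebraMap ℂ E r, ?_, hr, hadj⟩
    intro halg
    apply hy
    have := halg.add (isAlgebraic_algebraMap (R := ℂ) (A := E) r)
    rwa [sub_add_cancel] at this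
  · have hy0 : y ≠ 0 := fun h => hy1 (h ▸ zero_mem _)
    refine ⟨y⁻¹, ?_, ?_, ?_⟩
    · intro halg
      apply hy
      have := halg.inv
      rwa [inv_inv] at this
    · rw [map_inv₀, inv_lt_one₀ (zero_lt_iff.2 ((Valuation.ne_zero_iff _).2 hy0))]
      rw [← not_le, 𝒪.valuation_le_one_iff]
      exact hy1
    · apply le_antisymm
      · rw [IntermediateField.adjoin_simple_le_iff]
        exact inv_mem (IntermediateField.mem_adjoin_simple_self ℂ y)
      · rw [IntermediateField.adjoin_simple_le_iff]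
        have := inv_mem (IntermediateField.mem_adjoin_simple_self ℂ y⁻¹)
        rwa [inv_inv] at this


section two

omit [Algebra ℂ E] in
lemma two_max {ι : Type} [DecidableEq ι] {s : Finset ι} {f : ι → E} (hs : s.Nonempty)
    (hf : ∀ i ∈ s, f i ≠ 0) (h0 : ∑ i ∈ s, f i = 0) :
    ∃ i ∈ s, ∃ l ∈ s, i ≠ l ∧ 𝒪.valuation (f i) = 𝒪.valuation (f l) := by
  by_contra hne
  push Not at hne
  obtain ⟨j, hj, hmax⟩ := s.exists_max_image (fun i => 𝒪.valuation (f i)) hs
  have h1 := Valuation.map_sum_eq_of_lt 𝒪.valuation hj (f := f) (by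
    intro i hi
    rw [Finset.mem_sdiff, Finset.mem_singleton] at hi
    exact lt_of_le_of_ne (hmax i hi.1) (hne i hi.1 j hj hi.2))
  rw [h0, map_zero] at h1
  exact hf j hj ((Valuation.zero_iff _).1 h1.symm)

end two

section param

variable {x : E}

lemma v_field (hC : ∀ c : ℂ, algebraMap ℂ E c ∈ 𝒪) (hx : 𝒪.valuation x < 1) (hx0 : x ≠ 0) {a : E}
    (ha : a ∈ IntermediateField.adjoin ℂ {x}) (ha0 : a ≠ 0) :
    ∃ n : ℤ, 𝒪.valuation a = 𝒪.valuation x ^ n := by
  obtain ⟨n, P, Q, hP, hQ, h⟩ := field_decomp hx0 ha ha0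
  refine ⟨n, ?_⟩
  rw [h, map_mul, map_div₀, v_aeval_eq hC hx hP, v_aeval_eq hC hx hQ, map_zpow₀]
  simp

lemma poly_rel [FiniteDimensional (IntermediateField.adjoin ℂ {x}) E] (z : E) :
    ∃ (d : ℕ) (a : ℕ → IntermediateField.adjoin ℂ {x}),
      d ≤ Module.finrank (IntermediateField.adjoin ℂ {x}) E ∧ a d ≠ 0 ∧
      ∑ i ∈ Finset.range (d + 1), (a i : E) * z ^ i = 0 := by
  refine ⟨(minpoly (IntermediateField.adjoin ℂ {x}) z).natDegree,
    (minpoly (IntermediateField.adjoin ℂ {x}) z).coeff, minpoly.natDegree_le z, ?_, ?_⟩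
  · have h1 := minpoly.monic (Algebra.IsIntegral.isIntegral (R := IntermediateField.adjoin ℂ {x}) z)
    have h2 : (minpoly (IntermediateField.adjoin ℂ {x}) z).leadingCoeff = 1 := h1
    rw [leadingCoeff] at h2
    rw [h2]
    exact one_ne_zero
  · have h1 := minpoly.aeval (IntermediateField.adjoin ℂ {x}) z
    rw [aeval_eq_sum_range] at h1
    simpa [Algebra.smul_def] using h1

lemma exists_kj (hC : ∀ c : ℂ, algebraMap ℂ E c ∈ 𝒪) (hx : 𝒪.valuation x < 1) (hx0 : x ≠ 0)
    [FiniteDimensional (IntermediateField.adjoin ℂ {x}) E] {z : E} (hz : z ≠ 0) :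
    ∃ (k : ℕ) (j : ℤ), 1 ≤ k ∧ k ≤ Module.finrank (IntermediateField.adjoin ℂ {x}) E ∧
      𝒪.valuation z ^ k = 𝒪.valuation x ^ j := by
  classical
  obtain ⟨d, a, hd, had, hsum⟩ := poly_rel (x := x) z
  have hvz : 𝒪.valuation z ≠ 0 := (Valuation.ne_zero_iff _).2 hz
  have hvx : 𝒪.valuation x ≠ 0 := (Valuation.ne_zero_iff _).2 hx0
  have h1 : ∑ i ∈ (Finset.range (d + 1)).filter (fun i => a i ≠ 0), (a i : E) * z ^ i = 0 := by
    rw [← hsum]
    apply Finset.sum_subset (Finset.filter_subset _ _)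
    intro i hi hi2
    rw [Finset.mem_filter, not_and_not_right] at hi2
    have := hi2 hi
    simp [this]
  obtain ⟨i, hi, l, hl, hil, hv⟩ := two_max (𝒪 := 𝒪)
    (s := (Finset.range (d + 1)).filter (fun i => a i ≠ 0)) (f := fun i => (a i : E) * z ^ i)
    ⟨d, by simp [had]⟩ (by
      intro i hi
      rw [Finset.mem_filter] at hi
      exact mul_ne_zero (by simpa using hi.2) (pow_ne_zero _ hz)) h1
  -- wlog i < l
  have key : ∀ i l : ℕ, i < l → l ≤ d → a i ≠ 0 → a l ≠ 0 →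
      𝒪.valuation ((a i : E) * z ^ i) = 𝒪.valuation ((a l : E) * z ^ l) →
      ∃ (k : ℕ) (j : ℤ), 1 ≤ k ∧ k ≤ Module.finrank (IntermediateField.adjoin ℂ {x}) E ∧
        𝒪.valuation z ^ k = 𝒪.valuation x ^ j := by
    intro i l hlt hld hai hal hv
    obtain ⟨n, hn⟩ := v_field (𝒪 := 𝒪) hC hx hx0 (a i).2 (by simpa using hai)
    obtain ⟨m, hm⟩ := v_field (𝒪 := 𝒪) hC hx hx0 (a l).2 (by simpa using hal)
    refine ⟨l - i, n - m, by omega, by omega, ?_⟩
    rw [map_mul, map_mul, map_pow, map_pow, hn, hm] at hv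
    have h2 : 𝒪.valuation z ^ l = 𝒪.valuation z ^ (l - i) * 𝒪.valuation z ^ i := by
      rw [← pow_add]
      congr 1
      omega
    rw [h2, ← mul_assoc] at hv
    have h3 := mul_right_cancel₀ (pow_ne_zero _ hvz) hv
    rw [zpow_sub₀ hvx, h3]
    field_simp
  rw [Finset.mem_filter, Finset.mem_range] at hi hl
  rcases lt_or_gt_of_ne hil with h | h
  · exact key i l h (by omega) hi.2 hl.2 hv
  · exact key l i h (by omega) hl.2 hi.2 hv.symm

lemma exists_res (hC : ∀ c : ℂ, algebraMap ℂ E c ∈ 𝒪) (hx : 𝒪.valuation x < 1) (hx0 : x ≠ 0)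
    [FiniteDimensional (IntermediateField.adjoin ℂ {x}) E] {z : E} (hz : 𝒪.valuation z ≤ 1) :
    ∃ c : ℂ, 𝒪.valuation (z - algebraMap ℂ E c) < 1 := by
  obtain ⟨d, a, hd, had, hsum⟩ := poly_rel (x := x) z
  obtain ⟨m, hm, hmax⟩ := (Finset.range (d + 1)).exists_max_image
    (fun i => 𝒪.valuation (a i : E)) ⟨d, by simp⟩
  have ham : (a m : E) ≠ 0 := by
    intro h0
    have := hmax d (by simp)
    rw [h0, map_zero] at this
    have h1 := le_zero_iff.1 this
    rw [Valuation.zero_iff] at h1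
    exact had (by simpa using h1)
  have hvm : 𝒪.valuation (a m : E) ≠ 0 := (Valuation.ne_zero_iff _).2 ham
  -- constants
  have hc : ∀ i ∈ Finset.range (d + 1), ∃ c : ℂ,
      𝒪.valuation ((a i : E) / a m - algebraMap ℂ E c) < 1 := by
    intro i hi
    by_cases hlt : 𝒪.valuation ((a i : E) / a m) < 1
    · exact ⟨0, by simpa using hlt⟩
    · have hle : 𝒪.valuation ((a i : E) / a m) ≤ 1 := by
        rw [map_div₀]
        exact div_le_one_of_le₀ (hmax i hi) zero_le
      have heq : 𝒪.valuation ((a i : E) / a m) = 1 := le_antisymm hle (not_lt.1 hlt)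
      have hne : (a i : E) / a m ≠ 0 := by
        intro h0
        rw [h0, map_zero] at heq
        exact zero_ne_one heq
      obtain ⟨n, P, Q, hP, hQ, h⟩ := field_decomp hx0 (div_mem (a i).2 (a m).2) hne
      have hP1 := v_aeval_eq (𝒪 := 𝒪) hC hx hP
      have hQ1 := v_aeval_eq (𝒪 := 𝒪) hC hx hQ
      have hn : n = 0 := by
        rw [h, map_mul, map_div₀, hP1, hQ1, div_one, mul_one, map_zpow₀] at heq
        have hvx : 0 < 𝒪.valuation x := zero_lt_iff.2 ((Valuation.ne_zero_iff _).2 hx0)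
        rcases lt_trichotomy n 0 with h1 | h1 | h1
        · exfalso
          have h2 := one_lt_zpow_of_neg₀ hvx hx h1
          rw [heq] at h2
          exact lt_irrefl _ h2
        · exact h1
        · exfalso
          have h2 := zpow_lt_one₀ hvx hx h1
          rw [heq] at h2
          exact lt_irrefl _ h2
      rw [hn, zpow_zero, one_mul] at h
      refine ⟨P.coeff 0 / Q.coeff 0, ?_⟩
      have hQ0 : aeval x Q ≠ 0 := by
        intro h0
        rw [h0, map_zero] at hQ1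
        exact zero_ne_one hQ1
      have hQc : algebraMap ℂ E (Q.coeff 0) ≠ 0 := by simpa using hQ
      have h3 : aeval x P / aeval x Q - algebraMap ℂ E (P.coeff 0 / Q.coeff 0) =
          ((aeval x P - algebraMap ℂ E (P.coeff 0)) * algebraMap ℂ E (Q.coeff 0) -
            algebraMap ℂ E (P.coeff 0) * (aeval x Q - algebraMap ℂ E (Q.coeff 0))) /
            (aeval x Q * algebraMap ℂ E (Q.coeff 0)) := by
        rw [map_div₀]
        field_simp
        ring
      rw [h, h3, map_div₀, map_mul, hQ1, v_const hC hQ, mul_one, div_one]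
      apply Valuation.map_sub_lt
      · rw [map_mul, v_const hC hQ, mul_one]
        exact v_aeval_sub hC hx P
      · rw [map_mul, v_const hC hP, one_mul]
        exact v_aeval_sub hC hx Q
  choose! c hc using hc
  -- the reduced polynomial
  let q : ℂ[X] := ∑ i ∈ Finset.range (d + 1), C (c i) * X ^ i
  have hqm : q.coeff m = c m := by
    simp only [q, finsetSum_coeff, coeff_C_mul, coeff_X_pow]
    rw [Finset.sum_eq_single m]
    · simp
    · intro b _ hb
      rw [if_neg (Ne.symm hb), mul_zero]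
    · intro h
      exact absurd hm h
  have hcm : c m ≠ 0 := by
    intro h0
    have := hc m hm
    rw [h0, map_zero, sub_zero, div_self ham, map_one] at this
    exact lt_irrefl _ this
  have hq0 : q ≠ 0 := by
    intro h0
    rw [h0, coeff_zero] at hqm
    exact hcm hqm.symm
  have hqv : 𝒪.valuation (aeval z q) < 1 := by
    have h1 : aeval z q = ∑ i ∈ Finset.range (d + 1), algebraMap ℂ E (c i) * z ^ i := by
      simp [q]
    have h2 : ∑ i ∈ Finset.range (d + 1), ((a i : E) / a m) * z ^ i = 0 := by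
      have : ∑ i ∈ Finset.range (d + 1), ((a i : E) / a m) * z ^ i =
          (∑ i ∈ Finset.range (d + 1), (a i : E) * z ^ i) / a m := by
        rw [Finset.sum_div]
        apply Finset.sum_congr rfl
        intro i _
        ring
      rw [this, hsum, zero_div]
    have h3 : aeval z q = - ∑ i ∈ Finset.range (d + 1),
        ((a i : E) / a m - algebraMap ℂ E (c i)) * z ^ i := by
      rw [h1]
      simp only [sub_mul]
      rw [Finset.sum_sub_distrib, h2]
      ring
    rw [h3, Valuation.map_neg]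
    apply Valuation.map_sum_lt' _ one_pos
    intro i hi
    rw [map_mul, map_pow]
    exact mul_lt_one_of_nonneg_of_lt_one_left zero_le (hc i hi) (pow_le_one' hz i)
  exact root_small hC hz _ q rfl hq0 hqv

end param

section deriv

variable {x : E} {θ : Derivation ℂ E E}

/-- logarithmic derivative -/
def ld (θ : Derivation ℂ E E) (a : E) : E := θ a / a

lemma ld_mul {a b : E} (ha : a ≠ 0) (hb : b ≠ 0) : ld θ (a * b) = ld θ a + ld θ b := by
  rw [ld, ld, ld, Derivation.leibniz, smul_eq_mul, smul_eq_mul]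
  field_simp
  ring

lemma ld_pow {a : E} (ha : a ≠ 0) (n : ℕ) : ld θ (a ^ n) = n * ld θ a := by
  induction n with
  | zero => simp [ld]
  | succ n ih =>
    rw [pow_succ, ld_mul (pow_ne_zero _ ha) ha, ih]
    push_cast
    ring

lemma ld_inv {a : E} (ha : a ≠ 0) : ld θ a⁻¹ = - ld θ a := by
  have h1 := ld_mul (θ := θ) ha (inv_ne_zero ha)
  rw [mul_inv_cancel₀ ha] at h1
  have h2 : ld θ (1 : E) = 0 := by simp [ld]
  rw [h2] at h1
  linear_combination -h1

lemma ld_div {a b : E} (ha : a ≠ 0) (hb : b ≠ 0) : ld θ (a / b) = ld θ a - ld θ b := by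
  rw [div_eq_mul_inv, ld_mul ha (inv_ne_zero hb), ld_inv hb]
  ring

lemma ld_zpow {a : E} (ha : a ≠ 0) (n : ℤ) : ld θ (a ^ n) = n * ld θ a := by
  cases n with
  | ofNat n =>
    rw [Int.ofNat_eq_natCast, zpow_natCast, ld_pow ha]
    push_cast
    ring
  | negSucc n =>
    rw [zpow_negSucc, ld_inv (pow_ne_zero _ ha), ld_pow ha]
    push_cast
    ring

lemma v_nat (hC : ∀ c : ℂ, algebraMap ℂ E c ∈ 𝒪) {k : ℕ} (hk : k ≠ 0) :
    𝒪.valuation (k : E) = 1 := by
  have h1 := v_const hC (c := (k : ℂ)) (by exact_mod_cast hk)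
  simpa using h1

lemma v_int_le (hC : ∀ c : ℂ, algebraMap ℂ E c ∈ 𝒪) (k : ℤ) :
    𝒪.valuation (k : E) ≤ 1 := by
  have h1 := v_const_le hC (k : ℂ)
  rwa [map_intCast] at h1

/-- the logarithmic derivative on the rational function field -/
lemma v_theta_field (hC : ∀ c : ℂ, algebraMap ℂ E c ∈ 𝒪) (hx : 𝒪.valuation x < 1) (hx0 : x ≠ 0)
    (hθ : θ x = x) {a : E} (ha : a ∈ IntermediateField.adjoin ℂ {x}) :
    𝒪.valuation (θ a) ≤ 𝒪.valuation a := by
  by_cases ha0 : a = 0
  · simp [ha0]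
  obtain ⟨n, P, Q, hP, hQ, h⟩ := field_decomp hx0 ha ha0
  have hP1 := v_aeval_eq (𝒪 := 𝒪) hC hx hP
  have hQ1 := v_aeval_eq (𝒪 := 𝒪) hC hx hQ
  have hP0 : aeval x P ≠ 0 := by
    intro h0
    rw [h0, map_zero] at hP1
    exact zero_ne_one hP1
  have hQ0 : aeval x Q ≠ 0 := by
    intro h0
    rw [h0, map_zero] at hQ1
    exact zero_ne_one hQ1
  have h1 : ∀ R : ℂ[X], 𝒪.valuation (θ (aeval x R)) ≤ 1 := by
    intro R
    rw [Derivation.map_aeval, hθ, smul_eq_mul, map_mul]
    exact mul_le_one' (v_aeval_le hC hx.le _) hx.le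
  have h2 : ∀ R : ℂ[X], 𝒪.valuation (aeval x R) = 1 → 𝒪.valuation (ld θ (aeval x R)) ≤ 1 := by
    intro R hR
    rw [ld, map_div₀, hR, div_one]
    exact h1 R
  have h3 : ld θ a = n + (ld θ (aeval x P) - ld θ (aeval x Q)) := by
    rw [h, ld_mul (zpow_ne_zero _ hx0) (div_ne_zero hP0 hQ0), ld_zpow hx0, ld_div hP0 hQ0]
    have : ld θ x = 1 := by rw [ld, hθ, div_self hx0]
    rw [this]
    ring
  have h4 : 𝒪.valuation (ld θ a) ≤ 1 := by
    rw [h3]
    apply (Valuation.map_add _ _ _).trans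
    apply max_le (v_int_le hC n)
    exact (Valuation.map_sub _ _ _).trans (max_le (h2 P hP1) (h2 Q hQ1))
  have h5 : θ a = a * ld θ a := by
    rw [ld]
    field_simp
  rw [h5, map_mul]
  exact mul_le_of_le_one_right' h4

end deriv

section integral

variable {x : E}

/-- the constants of the place on the rational function field -/
noncomputable def A (𝒪 : ValuationSubring E) (x : E) :
    ValuationSubring (IntermediateField.adjoin ℂ {x}) :=
  𝒪.comap (algebraMap (IntermediateField.adjoin ℂ {x}) E)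

lemma mem_A (a : IntermediateField.adjoin ℂ {x}) : a ∈ A 𝒪 x ↔ (a : E) ∈ 𝒪 := Iff.rfl

noncomputable instance : Algebra (A 𝒪 x) E :=
  ((algebraMap (IntermediateField.adjoin ℂ {x}) E).comp
    (algebraMap (A 𝒪 x) (IntermediateField.adjoin ℂ {x}))).toAlgebra

instance : IsScalarTower (A 𝒪 x) (IntermediateField.adjoin ℂ {x}) E :=
  IsScalarTower.of_algebraMap_eq fun _ => rfl

lemma algebraMap_A (a : A 𝒪 x) : algebraMap (A 𝒪 x) E a = (a.1 : E) := rfl

lemma isIntegral_of_forall {z : E}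
    (h : ∀ V : ValuationSubring E, (∀ a : A 𝒪 x, (a.1 : E) ∈ V) → z ∈ V) :
    IsIntegral (A 𝒪 x) z := by
  let f : A 𝒪 x →+* E := algebraMap (A 𝒪 x) E
  have h1 : z ∈ (⨅ V : {V : ValuationSubring E // Set.range f ⊆ V.toSubring}, V.1.toSubring) := by
    rw [Subring.mem_iInf]
    rintro ⟨V, hV⟩
    exact h V fun a => hV ⟨a, rfl⟩
  rw [iInf_valuationSubring_superset] at h1
  have h2 : IsIntegral (Subring.closure (Set.range f)) z := h1
  obtain ⟨p, hp, hpz⟩ := h2
  have hcl : ∀ b : Subring.closure (Set.range f), ∃ a, f a = b.1 := by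
    rintro ⟨b, hb⟩
    have : Subring.closure (Set.range f) ≤ f.range := by
      rw [Subring.closure_le]
      rintro _ ⟨a, rfl⟩
      exact ⟨a, rfl⟩
    exact this hb
  have hl : p.map (algebraMap (Subring.closure (Set.range f)) E) ∈ Polynomial.lifts f := by
    rw [Polynomial.lifts_iff_coeff_lifts]
    intro n
    rw [coeff_map]
    exact hcl _
  obtain ⟨q, hq1, hq2, hq3⟩ := Polynomial.lifts_and_degree_eq_and_monic hl (hp.map _)
  refine ⟨q, hq3, ?_⟩
  change eval₂ f z q = 0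
  rw [← eval_map, hq1, eval_map]
  exact hpz

lemma exists_finite_span [FiniteDimensional (IntermediateField.adjoin ℂ {x}) E] :
    ∃ (t : Finset E), ∀ z : E, IsIntegral (A 𝒪 x) z → z ∈ Submodule.span (A 𝒪 x) (t : Set E) := by
  classical
  obtain ⟨s, b, hb⟩ := FiniteDimensional.exists_is_basis_integral (A 𝒪 x)
    (IntermediateField.adjoin ℂ {x}) E
  refine ⟨Finset.univ.image ((Algebra.traceForm (IntermediateField.adjoin ℂ {x}) E).dualBasis
    (traceForm_nondegenerate _ E) b), fun z hz => ?_⟩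
  have h1 := integralClosure_le_span_dualBasis (A := A 𝒪 x) b hb
  have h2 : z ∈ Subalgebra.toSubmodule (integralClosure (A 𝒪 x) E) := hz
  have h3 := h1 h2
  rwa [Finset.coe_image, Finset.coe_univ, Set.image_univ]

end integral

section bound

variable {x : E} {θ : Derivation ℂ E E}

lemma exists_bound (hC : ∀ c : ℂ, algebraMap ℂ E c ∈ 𝒪) (hx : 𝒪.valuation x < 1) (hx0 : x ≠ 0)
    (hθ : θ x = x) [FiniteDimensional (IntermediateField.adjoin ℂ {x}) E] :
    ∃ g : E, 1 ≤ 𝒪.valuation g ∧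
      ∀ z : E, IsIntegral (A 𝒪 x) z → 𝒪.valuation (θ z) ≤ 𝒪.valuation g := by
  classical
  obtain ⟨t, ht⟩ := exists_finite_span (𝒪 := 𝒪) (x := x)
  obtain ⟨g, hg, hmax⟩ := (insert 1 (t ∪ t.image θ)).exists_max_image
    (fun e => 𝒪.valuation e) ⟨1, by simp⟩
  have hg1 : 1 ≤ 𝒪.valuation g := by
    have := hmax 1 (by simp)
    simpa using this
  refine ⟨g, hg1, fun z hz => ?_⟩
  have h1 : 𝒪.valuation z ≤ 𝒪.valuation g ∧ 𝒪.valuation (θ z) ≤ 𝒪.valuation g := by
    refine Submodule.span_induction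
      (p := fun z _ => 𝒪.valuation z ≤ 𝒪.valuation g ∧ 𝒪.valuation (θ z) ≤ 𝒪.valuation g)
      ?_ ?_ ?_ ?_ (ht z hz)
    · intro e he
      refine ⟨hmax e ?_, hmax (θ e) ?_⟩
      · simp only [Finset.mem_insert, Finset.mem_union]
        exact Or.inr (Or.inl he)
      · simp only [Finset.mem_insert, Finset.mem_union]
        exact Or.inr (Or.inr (Finset.mem_image_of_mem _ he))
    · simp
    · intro a b _ _ ha hb
      refine ⟨(Valuation.map_add _ _ _).trans (max_le ha.1 hb.1), ?_⟩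
      rw [map_add]
      exact (Valuation.map_add _ _ _).trans (max_le ha.2 hb.2)
    · intro a e _ he
      have h2 : 𝒪.valuation (a.1 : E) ≤ 1 := (𝒪.valuation_le_one_iff _).2 a.2
      have h3 : 𝒪.valuation (θ (a.1 : E)) ≤ 1 :=
        (v_theta_field hC hx hx0 hθ a.1.2).trans h2
      have h4 : a • e = (a.1 : E) * e := rfl
      rw [h4]
      refine ⟨?_, ?_⟩
      · rw [map_mul]
        exact (mul_le_mul' h2 he.1).trans (one_mul _).le
      · rw [Derivation.leibniz, smul_eq_mul, smul_eq_mul]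
        refine (Valuation.map_add _ _ _).trans (max_le ?_ ?_)
        · rw [map_mul]
          exact (mul_le_mul' h2 he.2).trans (one_mul _).le
        · rw [map_mul]
          exact (mul_le_mul' he.1 h3).trans (mul_one _).le
  exact h1.2

lemma exists_s [FiniteDimensional (IntermediateField.adjoin ℂ {x}) E] {u : E}
    (hu : 𝒪.valuation u = 1) :
    ∃ s : E, 𝒪.valuation s = 1 ∧ IsIntegral (A 𝒪 x) s ∧ IsIntegral (A 𝒪 x) (s * u) := by
  classical
  have hu0 : u ≠ 0 := by
    rintro rfl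
    rw [map_zero] at hu
    exact zero_ne_one hu
  obtain ⟨d, a, hd, had, hsum⟩ := poly_rel (x := x) u
  obtain ⟨m, hm, hmax⟩ := (Finset.range (d + 1)).exists_max_image
    (fun i => 𝒪.valuation (a i : E)) ⟨d, by simp⟩
  obtain ⟨j, hj, hjmax⟩ := ((Finset.range (d + 1)).filter
    (fun i => 𝒪.valuation (a i : E) = 𝒪.valuation (a m : E))).exists_max_image id
    ⟨m, Finset.mem_filter.2 ⟨hm, rfl⟩⟩
  rw [Finset.mem_filter] at hj
  have hjd : j ≤ d := by
    have := Finset.mem_range.1 hj.1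
    omega
  have haj : (a j : E) ≠ 0 := by
    intro h0
    have h1 := hmax d (by simp)
    rw [← hj.2, h0, map_zero] at h1
    have h1 := le_zero_iff.1 h1
    rw [Valuation.zero_iff] at h1
    exact had (by simpa using h1)
  have hvj : 𝒪.valuation (a j : E) ≠ 0 := (Valuation.ne_zero_iff _).2 haj
  -- normalized coefficients
  have hb1 : ∀ i, i ≤ d → 𝒪.valuation ((a i : E) / a j) ≤ 1 := by
    intro i hi
    rw [map_div₀, hj.2]
    exact div_le_one_of_le₀ (hmax i (by simp; omega)) zero_le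
  have hb2 : ∀ i, j < i → i ≤ d → 𝒪.valuation ((a i : E) / a j) < 1 := by
    intro i hji hi
    refine lt_of_le_of_ne (hb1 i hi) fun h => ?_
    rw [map_div₀, div_eq_one_iff_eq hvj] at h
    have := hjmax i (by
      simp only [Finset.mem_filter, Finset.mem_range]
      exact ⟨by omega, h.trans hj.2⟩)
    simp only [id] at this
    omega
  have hbA : ∀ V : ValuationSubring E, (∀ a : A 𝒪 x, (a.1 : E) ∈ V) → ∀ i, i ≤ d →
      (a i : E) / a j ∈ V := by
    intro V hV i hi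
    have h1 : (a i / a j : IntermediateField.adjoin ℂ {x}) ∈ A 𝒪 x := by
      rw [mem_A, ← 𝒪.valuation_le_one_iff]
      simpa using hb1 i hi
    have h2 := hV ⟨_, h1⟩
    simpa using h2
  set s : E := ∑ i ∈ Finset.range (d + 1 - j), ((a (j + i) : E) / a j) * u ^ i with hs
  have hrel : ∑ i ∈ Finset.range j, ((a i : E) / a j) * u ^ i + u ^ j * s = 0 := by
    have h1 : ∑ i ∈ Finset.range (d + 1), ((a i : E) / a j) * u ^ i = 0 := by
      have : ∑ i ∈ Finset.range (d + 1), ((a i : E) / a j) * u ^ i =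
          (∑ i ∈ Finset.range (d + 1), (a i : E) * u ^ i) / a j := by
        rw [Finset.sum_div]
        apply Finset.sum_congr rfl
        intro i _
        ring
      rw [this, hsum, zero_div]
    have h2 : d + 1 = j + (d + 1 - j) := by omega
    rw [h2, Finset.sum_range_add] at h1
    rw [← h1, hs, Finset.mul_sum]
    congr 1
    apply Finset.sum_congr rfl
    intro i _
    rw [pow_add]
    ring
  have hsu : s * u = - ∑ i ∈ Finset.range j, ((a i : E) / a j) * u⁻¹ ^ (j - 1 - i) := by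
    have h1 : (∑ i ∈ Finset.range j, ((a i : E) / a j) * u⁻¹ ^ (j - 1 - i)) * u ^ j =
        u * ∑ i ∈ Finset.range j, ((a i : E) / a j) * u ^ i := by
      rw [Finset.sum_mul, Finset.mul_sum]
      apply Finset.sum_congr rfl
      intro i hi
      rw [Finset.mem_range] at hi
      have h2 : u ^ j = u ^ (j - 1 - i) * u ^ (i + 1) := by
        rw [← pow_add]
        congr 1
        omega
      rw [h2, inv_pow, pow_succ]
      field_simp
    have h3 : u ^ j ≠ 0 := pow_ne_zero _ hu0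
    apply mul_right_cancel₀ h3
    rw [neg_mul, h1]
    linear_combination u * hrel
  refine ⟨s, ?_, ?_, ?_⟩
  · have h1 : s - 1 = ∑ i ∈ Finset.range (d - j), ((a (j + (i + 1)) : E) / a j) * u ^ (i + 1) := by
      have h2 : d + 1 - j = (d - j) + 1 := by omega
      rw [hs, h2, Finset.sum_range_succ', add_zero, div_self haj]
      simp
    have h2 : 𝒪.valuation (s - 1) < 1 := by
      rw [h1]
      apply Valuation.map_sum_lt' _ one_pos
      intro i hi
      rw [Finset.mem_range] at hi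
      rw [map_mul, map_pow, hu, one_pow, mul_one]
      exact hb2 _ (by omega) (by omega)
    have h3 : 𝒪.valuation (s - 1) < 𝒪.valuation 1 := by simpa using h2
    have h4 := Valuation.map_eq_of_sub_lt 𝒪.valuation h3
    simpa using h4
  · apply isIntegral_of_forall
    intro V hV
    rcases V.mem_or_inv_mem u with h | h
    · rw [hs]
      apply sum_mem
      intro i hi
      rw [Finset.mem_range] at hi
      exact mul_mem (hbA V hV _ (by omega)) (pow_mem h _)
    · have h1 : s = (s * u) * u⁻¹ := by field_simp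
      rw [h1, hsu]
      refine mul_mem (neg_mem (sum_mem ?_)) h
      intro i hi
      rw [Finset.mem_range] at hi
      exact mul_mem (hbA V hV _ (by omega)) (pow_mem h _)
  · apply isIntegral_of_forall
    intro V hV
    rcases V.mem_or_inv_mem u with h | h
    · refine mul_mem ?_ h
      rw [hs]
      apply sum_mem
      intro i hi
      rw [Finset.mem_range] at hi
      exact mul_mem (hbA V hV _ (by omega)) (pow_mem h _)
    · rw [hsu]
      refine neg_mem (sum_mem ?_)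
      intro i hi
      rw [Finset.mem_range] at hi
      exact mul_mem (hbA V hV _ (by omega)) (pow_mem h _)

/-- decomposition of the logarithmic derivative -/
lemma exists_unit (hC : ∀ c : ℂ, algebraMap ℂ E c ∈ 𝒪) (hx : 𝒪.valuation x < 1) (hx0 : x ≠ 0)
    (hθ : θ x = x) [FiniteDimensional (IntermediateField.adjoin ℂ {x}) E] {z : E} (hz : z ≠ 0) :
    ∃ (k : ℕ) (j : ℤ) (u : E), 1 ≤ k ∧
      k ≤ Module.finrank (IntermediateField.adjoin ℂ {x}) E ∧
      𝒪.valuation z ^ k = 𝒪.valuation x ^ j ∧ 𝒪.valuation u = 1 ∧ k * ld θ z = j + ld θ u := by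
  obtain ⟨k, j, hk, hkN, h⟩ := exists_kj (𝒪 := 𝒪) hC hx hx0 hz
  have hvx : 𝒪.valuation x ≠ 0 := (Valuation.ne_zero_iff _).2 hx0
  have hu0 : z ^ k / x ^ j ≠ 0 := div_ne_zero (pow_ne_zero _ hz) (zpow_ne_zero _ hx0)
  refine ⟨k, j, z ^ k / x ^ j, hk, hkN, h, ?_, ?_⟩
  · rw [map_div₀, map_pow, map_zpow₀, h, div_self (zpow_ne_zero _ hvx)]
  · rw [ld_div (pow_ne_zero _ hz) (zpow_ne_zero _ hx0), ld_pow hz, ld_zpow hx0]
    have : ld θ x = 1 := by rw [ld, hθ, div_self hx0]
    rw [this]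
    ring

lemma v_ld_le (hC : ∀ c : ℂ, algebraMap ℂ E c ∈ 𝒪) {k : ℕ} {j : ℤ} {z u : E} (hk : 1 ≤ k)
    (h : k * ld θ z = j + ld θ u) : 𝒪.valuation (ld θ z) ≤ max 1 (𝒪.valuation (ld θ u)) := by
  have h1 : 𝒪.valuation (k * ld θ z) = 𝒪.valuation (ld θ z) := by
    rw [map_mul, v_nat hC (by omega), one_mul]
  rw [← h1, h]
  exact (Valuation.map_add _ _ _).trans (max_le_max (v_int_le hC j) le_rfl)

omit [Algebra ℂ E] in
lemma small_pow (hx : 𝒪.valuation x < 1) (hx0 : x ≠ 0) {N k : ℕ} {j : ℤ} {z : E}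
    (hkN : k ≤ N) (hk : 1 ≤ k) (h : 𝒪.valuation z ^ k = 𝒪.valuation x ^ j)
    (hz : 𝒪.valuation z < 1) : 𝒪.valuation z ^ N ≤ 𝒪.valuation x := by
  have hvx : 0 < 𝒪.valuation x := zero_lt_iff.2 ((Valuation.ne_zero_iff _).2 hx0)
  have h1 : 𝒪.valuation z ^ N ≤ 𝒪.valuation z ^ k := pow_le_pow_right_of_le_one' hz.le hkN
  have h2 : 𝒪.valuation z ^ k < 1 := pow_lt_one' hz (by omega)
  have hj : 1 ≤ j := by
    by_contra hj
    rw [h] at h2
    have h3 : (1 : 𝒪.ValueGroup) ≤ 𝒪.valuation x ^ j := by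
      rcases (show j < 0 ∨ j = 0 by omega) with h4 | h4
      · exact (one_lt_zpow_of_neg₀ hvx hx h4).le
      · rw [h4, zpow_zero]
    exact absurd h2 (not_lt.2 h3)
  refine h1.trans ?_
  rw [h]
  calc 𝒪.valuation x ^ j ≤ 𝒪.valuation x ^ (1 : ℤ) := by
        exact zpow_le_zpow_right_of_le_one₀ hvx hx.le hj
    _ = 𝒪.valuation x := zpow_one _

lemma ld_le_one (hC : ∀ c : ℂ, algebraMap ℂ E c ∈ 𝒪) (hx : 𝒪.valuation x < 1) (hx0 : x ≠ 0)
    (hθ : θ x = x) [FiniteDimensional (IntermediateField.adjoin ℂ {x}) E] {z : E} (hz : z ≠ 0) :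
    𝒪.valuation (ld θ z) ≤ 1 := by
  obtain ⟨g, hg1, hg⟩ := exists_bound (𝒪 := 𝒪) hC hx hx0 hθ
  have hvx : 0 < 𝒪.valuation x := zero_lt_iff.2 ((Valuation.ne_zero_iff _).2 hx0)
  have hg0 : g ≠ 0 := by
    rintro rfl
    rw [map_zero] at hg1
    exact absurd hg1 (not_le.2 one_pos)
  have hunit : ∀ u : E, 𝒪.valuation u = 1 → 𝒪.valuation (ld θ u) ≤ 𝒪.valuation g := by
    intro u hu
    obtain ⟨s, hs, hsi, hsu⟩ := exists_s (x := x) hu
    have h1 : s * θ u = θ (s * u) - θ s * u := by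
      rw [Derivation.leibniz, smul_eq_mul, smul_eq_mul]
      ring
    have h2 : 𝒪.valuation (s * θ u) ≤ 𝒪.valuation g := by
      rw [h1]
      refine (Valuation.map_sub _ _ _).trans (max_le (hg _ hsu) ?_)
      rw [map_mul, hu, mul_one]
      exact hg _ hsi
    rw [map_mul, hs, one_mul] at h2
    rw [ld, map_div₀, hu, div_one]
    exact h2
  set N := Module.finrank (IntermediateField.adjoin ℂ {x}) E with hN
  have hstart : ∃ M : ℕ, ∀ z : E, z ≠ 0 →
      𝒪.valuation (ld θ z) ^ N * 𝒪.valuation x ^ M ≤ 1 := by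
    obtain ⟨k, j, hk, hkN, h⟩ := exists_kj (𝒪 := 𝒪) hC hx hx0 hg0
    refine ⟨j.natAbs * N, fun z hz => ?_⟩
    obtain ⟨k', j', u, hk', -, -, hu, hld⟩ := exists_unit (𝒪 := 𝒪) hC hx hx0 hθ hz
    have h1 : 𝒪.valuation (ld θ z) ≤ 𝒪.valuation g :=
      (v_ld_le (𝒪 := 𝒪) hC hk' hld).trans (max_le hg1 (hunit u hu))
    have h2 : 𝒪.valuation g * 𝒪.valuation x ^ j.natAbs ≤ 1 := by
      have h3 : 𝒪.valuation g ≤ 𝒪.valuation g ^ k := by
        calc 𝒪.valuation g = 𝒪.valuation g ^ 1 := (pow_one _).symm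
          _ ≤ 𝒪.valuation g ^ k := pow_le_pow_right' hg1 hk
      refine (mul_le_mul' h3 le_rfl).trans ?_
      rw [h, ← zpow_natCast, ← zpow_add₀ hvx.ne']
      rcases (show j + (j.natAbs : ℤ) = 0 ∨ 0 < j + (j.natAbs : ℤ) by omega) with h4 | h4
      · rw [h4, zpow_zero]
      · exact (zpow_lt_one₀ hvx hx h4).le
    calc 𝒪.valuation (ld θ z) ^ N * 𝒪.valuation x ^ (j.natAbs * N)
        ≤ 𝒪.valuation g ^ N * 𝒪.valuation x ^ (j.natAbs * N) :=
          mul_le_mul' (pow_le_pow_left' h1 N) le_rfl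
      _ = (𝒪.valuation g * 𝒪.valuation x ^ j.natAbs) ^ N := by rw [mul_pow, pow_mul]
      _ ≤ 1 := pow_le_one' h2 N
  obtain ⟨M, hM⟩ := hstart
  have hstep : ∀ M : ℕ, (∀ z : E, z ≠ 0 → 𝒪.valuation (ld θ z) ^ N * 𝒪.valuation x ^ M ≤ 1) →
      ∀ z : E, z ≠ 0 → 𝒪.valuation (ld θ z) ^ N ≤ 1 := by
    intro M
    induction M with
    | zero =>
      intro h z hz
      have := h z hz
      rwa [pow_zero, mul_one] at this
    | succ M ih =>
      intro h
      apply ih
      intro z hz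
      obtain ⟨k, j, u, hk, hkN, -, hu, hld⟩ := exists_unit (𝒪 := 𝒪) hC hx hx0 hθ hz
      have h1 := v_ld_le (𝒪 := 𝒪) hC hk hld
      have hxM : 𝒪.valuation x ^ M ≤ 1 := pow_le_one' hx.le M
      obtain ⟨c, hc⟩ := exists_res (𝒪 := 𝒪) hC hx hx0 hu.le
      have h2 : 𝒪.valuation (ld θ u) ^ N * 𝒪.valuation x ^ M ≤ 1 := by
        have h3 : 𝒪.valuation (ld θ u) = 𝒪.valuation (θ (u - algebraMap ℂ E c)) := by
          rw [ld, map_div₀, hu, div_one, map_sub, Derivation.map_algebraMap, sub_zero]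
        rw [h3]
        by_cases h4 : u - algebraMap ℂ E c = 0
        · rw [h4, map_zero, map_zero]
          by_cases hN0 : N = 0
          · rw [hN0, pow_zero, one_mul]
            exact hxM
          · rw [zero_pow hN0, zero_mul]
            exact zero_le
        · obtain ⟨k', j', hk', hkN', h5⟩ := exists_kj (𝒪 := 𝒪) hC hx hx0 h4
          have h6 := small_pow hx hx0 hkN' hk' h5 hc
          have h7 : θ (u - algebraMap ℂ E c) =
              (u - algebraMap ℂ E c) * ld θ (u - algebraMap ℂ E c) := by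
            rw [ld]
            field_simp
          rw [h7, map_mul, mul_pow]
          calc 𝒪.valuation (u - algebraMap ℂ E c) ^ N *
                𝒪.valuation (ld θ (u - algebraMap ℂ E c)) ^ N * 𝒪.valuation x ^ M
              ≤ 𝒪.valuation x * 𝒪.valuation (ld θ (u - algebraMap ℂ E c)) ^ N *
                  𝒪.valuation x ^ M := mul_le_mul' (mul_le_mul' h6 le_rfl) le_rfl
            _ = 𝒪.valuation (ld θ (u - algebraMap ℂ E c)) ^ N * 𝒪.valuation x ^ (M + 1) := by
                rw [pow_succ, mul_comm (𝒪.valuation x), mul_assoc, mul_comm (𝒪.valuation x)]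
            _ ≤ 1 := h _ h4
      rcases le_total 1 (𝒪.valuation (ld θ u)) with h8 | h8
      · rw [max_eq_right h8] at h1
        exact (mul_le_mul' (pow_le_pow_left' h1 N) le_rfl).trans h2
      · rw [max_eq_left h8] at h1
        exact mul_le_one' (pow_le_one' h1 N) hxM
  have h1 := hstep M hM z hz
  have hN0 : N ≠ 0 := Module.finrank_pos.ne'
  by_contra hne
  exact absurd h1 (not_le.2 (one_lt_pow' (not_le.1 hne) hN0))

end bound

section nu

variable {x : E}

omit [Algebra ℂ E] in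
/-- two expressions of the order -/
lemma order_unique (hx : 𝒪.valuation x < 1) (hx0 : x ≠ 0) {z : E} {k k' : ℕ} {j j' : ℤ}
    (hk : 1 ≤ k) (hk' : 1 ≤ k') (h : 𝒪.valuation z ^ k = 𝒪.valuation x ^ j)
    (h' : 𝒪.valuation z ^ k' = 𝒪.valuation x ^ j') : (j : ℚ) / k = (j' : ℚ) / k' := by
  have hvx : 0 < 𝒪.valuation x := zero_lt_iff.2 ((Valuation.ne_zero_iff _).2 hx0)
  have h1 : 𝒪.valuation x ^ (j * k') = 𝒪.valuation x ^ (j' * k) := by
    rw [zpow_mul, zpow_mul, zpow_natCast, zpow_natCast, ← h, ← h', ← pow_mul, ← pow_mul, mul_comm]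
  have h2 : j * k' = j' * k := by
    rcases lt_trichotomy (j * k') (j' * k) with h3 | h3 | h3
    · exact absurd h1 (zpow_lt_zpow_right_of_lt_one₀ hvx hx h3).ne'
    · exact h3
    · exact absurd h1 (zpow_lt_zpow_right_of_lt_one₀ hvx hx h3).ne
  have h3 : (k : ℚ) ≠ 0 := by exact_mod_cast (show k ≠ 0 by omega)
  have h4 : (k' : ℚ) ≠ 0 := by exact_mod_cast (show k' ≠ 0 by omega)
  rw [div_eq_div_iff h3 h4]
  exact_mod_cast h2

open Classical in
/-- the order function -/
noncomputable def nu (𝒪 : ValuationSubring E) (x z : E) : ℚ :=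
  if h : z ≠ 0 ∧ ∃ kj : ℕ × ℤ, 1 ≤ kj.1 ∧ 𝒪.valuation z ^ kj.1 = 𝒪.valuation x ^ kj.2 then
    (h.2.choose.2 : ℚ) / h.2.choose.1 else 0

omit [Algebra ℂ E] in
lemma nu_eq (hx : 𝒪.valuation x < 1) (hx0 : x ≠ 0) {z : E} (hz : z ≠ 0) {k : ℕ} {j : ℤ}
    (hk : 1 ≤ k) (h : 𝒪.valuation z ^ k = 𝒪.valuation x ^ j) : nu 𝒪 x z = (j : ℚ) / k := by
  have h1 : z ≠ 0 ∧ ∃ kj : ℕ × ℤ, 1 ≤ kj.1 ∧ 𝒪.valuation z ^ kj.1 = 𝒪.valuation x ^ kj.2 :=
    ⟨hz, ⟨(k, j), hk, h⟩⟩
  rw [nu, dif_pos h1]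
  exact order_unique hx hx0 h1.2.choose_spec.1 hk h1.2.choose_spec.2 h

omit [Algebra ℂ E] in
lemma nu_pos (hx : 𝒪.valuation x < 1) (hx0 : x ≠ 0) {z : E} (hz : z ≠ 0) {k : ℕ} {j : ℤ}
    (hk : 1 ≤ k) (h : 𝒪.valuation z ^ k = 𝒪.valuation x ^ j) :
    0 < nu 𝒪 x z ↔ 𝒪.valuation z < 1 := by
  have hvx : 0 < 𝒪.valuation x := zero_lt_iff.2 ((Valuation.ne_zero_iff _).2 hx0)
  have hk0 : (0 : ℚ) < k := by exact_mod_cast (show 0 < k by omega)
  rw [nu_eq hx hx0 hz hk h, div_pos_iff_of_pos_right hk0, ← pow_lt_one_iff (by omega : k ≠ 0), h]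
  have : (0 : ℚ) < j ↔ 0 < j := by exact_mod_cast Iff.rfl
  rw [this]
  constructor
  · intro hj
    exact zpow_lt_one₀ hvx hx hj
  · intro h1
    by_contra hj
    rcases (show j < 0 ∨ j = 0 by omega) with h4 | h4
    · exact absurd h1 (not_lt.2 (one_lt_zpow_of_neg₀ hvx hx h4).le)
    · rw [h4, zpow_zero] at h1
      exact lt_irrefl _ h1

omit [Algebra ℂ E] in
lemma nu_nonneg (hx : 𝒪.valuation x < 1) (hx0 : x ≠ 0) {z : E} (hz : z ≠ 0) {k : ℕ} {j : ℤ}
    (hk : 1 ≤ k) (h : 𝒪.valuation z ^ k = 𝒪.valuation x ^ j) :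
    0 ≤ nu 𝒪 x z ↔ 𝒪.valuation z ≤ 1 := by
  have hvx : 0 < 𝒪.valuation x := zero_lt_iff.2 ((Valuation.ne_zero_iff _).2 hx0)
  have hk0 : (0 : ℚ) < k := by exact_mod_cast (show 0 < k by omega)
  rw [nu_eq hx hx0 hz hk h, le_div_iff₀ hk0, zero_mul, ← pow_le_one_iff (by omega : k ≠ 0), h]
  have : (0 : ℚ) ≤ j ↔ 0 ≤ j := by exact_mod_cast Iff.rfl
  rw [this]
  constructor
  · intro hj
    rcases (show 0 < j ∨ j = 0 by omega) with h4 | h4
    · exact (zpow_lt_one₀ hvx hx h4).le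
    · rw [h4, zpow_zero]
  · intro h1
    by_contra hj
    exact absurd h1 (not_le.2 (one_lt_zpow_of_neg₀ hvx hx (by omega)))

omit [Algebra ℂ E] in
lemma nu_mul (hx : 𝒪.valuation x < 1) (hx0 : x ≠ 0) {z z' : E} (hz : z ≠ 0) (hz' : z' ≠ 0)
    {k k' : ℕ} {j j' : ℤ} (hk : 1 ≤ k) (hk' : 1 ≤ k')
    (h : 𝒪.valuation z ^ k = 𝒪.valuation x ^ j)
    (h' : 𝒪.valuation z' ^ k' = 𝒪.valuation x ^ j') :
    nu 𝒪 x (z * z') = nu 𝒪 x z + nu 𝒪 x z' := by
  have hvx : 0 < 𝒪.valuation x := zero_lt_iff.2 ((Valuation.ne_zero_iff _).2 hx0)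
  have h1 : 𝒪.valuation (z * z') ^ (k * k') = 𝒪.valuation x ^ (j * k' + j' * k) := by
    rw [map_mul, mul_pow, pow_mul, h, mul_comm k k', pow_mul, h', zpow_add₀ hvx.ne', zpow_mul,
      zpow_mul, zpow_natCast, zpow_natCast]
  have hkk : 1 ≤ k * k' := Nat.mul_pos (by omega) (by omega)
  have h3 : (k : ℚ) ≠ 0 := by exact_mod_cast (show k ≠ 0 by omega)
  have h4 : (k' : ℚ) ≠ 0 := by exact_mod_cast (show k' ≠ 0 by omega)
  rw [nu_eq hx hx0 (mul_ne_zero hz hz') hkk h1, nu_eq hx hx0 hz hk h, nu_eq hx hx0 hz' hk' h']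
  push_cast
  field_simp

end nu

theorem place_of_param {x : E} (hC : ∀ c : ℂ, algebraMap ℂ E c ∈ 𝒪) (hx : 𝒪.valuation x < 1)
    (hxt : Transcendental ℂ x) (hfin : FiniteDimensional (IntermediateField.adjoin ℂ {x}) E) :
    ∃ (θ : Derivation ℂ E E) (ν : E → ℚ), Place 𝒪 θ ν := by
  have hx0 : x ≠ 0 := by
    rintro rfl
    exact hxt isAlgebraic_zero
  obtain ⟨D, hD⟩ : ∃ D : Derivation ℂ E E, D x = 1 := by
    have hai : AlgebraicIndependent ℂ (fun _ : Unit => x) := by
      rw [algebraicIndependent_unique_type_iff]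
      exact hxt
    obtain ⟨D, hD⟩ := specExt E Unit (fun _ => x) hai (fun _ => 1)
    exact ⟨D, hD ()⟩
  let θ : Derivation ℂ E E := x • D
  have hθ : θ x = x := by
    change x • D x = x
    rw [hD, smul_eq_mul, mul_one]
  have hkj : ∀ z : E, z ≠ 0 → ∃ (k : ℕ) (j : ℤ), 1 ≤ k ∧
      𝒪.valuation z ^ k = 𝒪.valuation x ^ j := by
    intro z hz
    obtain ⟨k, j, hk, -, h⟩ := exists_kj (𝒪 := 𝒪) hC hx hx0 hz
    exact ⟨k, j, hk, h⟩
  have hpos : ∀ z : E, z ≠ 0 → (0 < nu 𝒪 x z ↔ 𝒪.valuation z < 1) := by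
    intro z hz
    obtain ⟨k, j, hk, h⟩ := hkj z hz
    exact nu_pos hx hx0 hz hk h
  have hnonneg : ∀ z : E, z ≠ 0 → (0 ≤ nu 𝒪 x z ↔ 𝒪.valuation z ≤ 1) := by
    intro z hz
    obtain ⟨k, j, hk, h⟩ := hkj z hz
    exact nu_nonneg hx hx0 hz hk h
  have hmul : ∀ z z' : E, z ≠ 0 → z' ≠ 0 → nu 𝒪 x (z * z') = nu 𝒪 x z + nu 𝒪 x z' := by
    intro z z' hz hz'
    obtain ⟨k, j, hk, h⟩ := hkj z hz
    obtain ⟨k', j', hk', h'⟩ := hkj z' hz'
    exact nu_mul hx hx0 hz hz' hk hk' h h'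
  have hsmall : ∀ z : E, 𝒪.valuation z < 1 → (z = 0 ∨ 0 < nu 𝒪 x z) := by
    intro z hz
    by_cases h0 : z = 0
    · exact Or.inl h0
    · exact Or.inr ((hpos z h0).2 hz)
  -- ultrametric inequality, ordered case
  have hadd : ∀ z z' : E, z ≠ 0 → z' ≠ 0 → z + z' ≠ 0 → nu 𝒪 x z ≤ nu 𝒪 x z' →
      nu 𝒪 x z ≤ nu 𝒪 x (z + z') := by
    intro z z' hz hz' hzz hle
    have h1 : nu 𝒪 x z' = nu 𝒪 x z + nu 𝒪 x (z' / z) := by
      rw [← hmul z (z' / z) hz (div_ne_zero hz' hz)]
      congr 1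
      field_simp
    have h2 : nu 𝒪 x (z + z') = nu 𝒪 x z + nu 𝒪 x (1 + z' / z) := by
      have h3 : z + z' = z * (1 + z' / z) := by field_simp
      have h4 : (1 + z' / z) ≠ 0 := by
        intro h0
        rw [h0, mul_zero] at h3
        exact hzz h3
      rw [h3, hmul z _ hz h4]
    have h5 : (1 + z' / z) ≠ 0 := by
      intro h0
      apply hzz
      have h3 : z + z' = z * (1 + z' / z) := by field_simp
      rw [h3, h0, mul_zero]
    have h6 : 𝒪.valuation (z' / z) ≤ 1 := (hnonneg _ (div_ne_zero hz' hz)).1 (by linarith)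
    have h7 : 𝒪.valuation (1 + z' / z) ≤ 1 := by
      refine (Valuation.map_add _ _ _).trans (max_le ?_ h6)
      rw [map_one]
    have h8 := (hnonneg _ h5).2 h7
    linarith
  refine ⟨θ, nu 𝒪 x, ⟨hmul, ?_, ?_, ?_, ?_⟩⟩
  · intro z z' hz hz' hzz
    rcases le_total (nu 𝒪 x z) (nu 𝒪 x z') with h | h
    · rw [min_eq_left h]
      exact hadd z z' hz hz' hzz h
    · rw [min_eq_right h, add_comm]
      exact hadd z' z hz' hz (by rwa [add_comm]) h
  · intro z hz
    rw [hnonneg z hz, 𝒪.valuation_le_one_iff]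
  · intro z hz
    obtain ⟨k, j, u, hk, hkN, h, hu, hld⟩ := exists_unit (𝒪 := 𝒪) hC hx hx0 hθ hz
    obtain ⟨c, hc⟩ := exists_res (𝒪 := 𝒪) hC hx hx0 hu.le
    have hk0 : (k : E) ≠ 0 := by
      intro h0
      have := v_nat (𝒪 := 𝒪) hC (k := k) (by omega)
      rw [h0, map_zero] at this
      exact zero_ne_one this
    have hsm : 𝒪.valuation (ld θ u) < 1 := by
      rw [ld, map_div₀, hu, div_one]
      have h3 : θ u = θ (u - algebraMap ℂ E c) := by
        rw [map_sub, Derivation.map_algebraMap, sub_zero]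
      rw [h3]
      by_cases h4 : u - algebraMap ℂ E c = 0
      · rw [h4, map_zero, map_zero]
        exact one_pos
      · have h7 : θ (u - algebraMap ℂ E c) =
              (u - algebraMap ℂ E c) * ld θ (u - algebraMap ℂ E c) := by
            rw [ld]
            field_simp
        rw [h7, map_mul]
        exact mul_lt_one_of_nonneg_of_lt_one_left zero_le hc
          (ld_le_one (𝒪 := 𝒪) hC hx hx0 hθ h4)
    refine ⟨ld θ u / k, hsmall _ ?_, ?_⟩
    · rw [map_div₀, v_nat hC (by omega), div_one]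
      exact hsm
    · rw [nu_eq hx hx0 hz hk h]
      have h9 : θ z = z * ld θ z := by
        rw [ld]
        field_simp
      have h10 : ld θ z = (j : E) / k + ld θ u / k := by
        field_simp
        linear_combination hld
      rw [h9, h10]
      haveI : CharZero E := charZero_of_injective_algebraMap (algebraMap ℂ E).injective
      push_cast
      ring
  · intro z hz
    obtain ⟨c, hc⟩ := exists_res (𝒪 := 𝒪) hC hx hx0 ((𝒪.valuation_le_one_iff z).2 hz)
    exact ⟨c, hsmall _ hc⟩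

end Pool.Agent.Lib.MP_47914d_nt.PlaceM

namespace Pool.Agent.Lib.MP_47914d_nt

theorem specPlace : SpecPlace := by
  intro E _ _ y hy hfin 𝒪 hC h𝒪
  obtain ⟨x, hxt, hx, hadj⟩ := PlaceM.exists_param hy hfin hC h𝒪
  apply PlaceM.place_of_param hC hx hxt
  rw [hadj]
  exact hfin

end Pool.Agent.Lib.MP_47914d_nt
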