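import Pool.Agent.Lib.MP_47914d_nt.Defs4

/-!
STEPC: there is no algebraic gauge transformation which is not triangular (for MP_47914d_nt).
-/

set_option autoImplicit false

open Polynomial

namespace Pool.Agent.Lib.MP_47914d_nt

section PlaceLemmas

variable {E : Type} [Field E] [Algebra ℂ E]

/-- Elements of the maximal ideal. -/
def Sm (ν : E → ℚ) (m : E) : Prop := m = 0 ∨ 0 < ν m

variable {𝒪 : ValuationSubring E} {θ : Derivation ℂ E E} {ν : E → ℚ}

namespace Place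

theorem nu_one (H : Place 𝒪 θ ν) : ν 1 = 0 := by
  have := H.mul 1 1 one_ne_zero one_ne_zero
  rw [one_mul] at this; linarith

theorem nu_neg_one (H : Place 𝒪 θ ν) : ν (-1) = 0 := by
  have := H.mul (-1) (-1) (neg_ne_zero.2 one_ne_zero) (neg_ne_zero.2 one_ne_zero)
  rw [neg_one_mul, neg_neg, H.nu_one] at this; linarith

theorem nu_neg (H : Place 𝒪 θ ν) {x : E} (hx : x ≠ 0) : ν (-x) = ν x := by
  have := H.mul (-1) x (neg_ne_zero.2 one_ne_zero) hx
  rw [neg_one_mul, H.nu_neg_one] at this; linarith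

theorem nu_inv (H : Place 𝒪 θ ν) {x : E} (hx : x ≠ 0) : ν x⁻¹ = - ν x := by
  have := H.mul x x⁻¹ hx (inv_ne_zero hx)
  rw [mul_inv_cancel₀ hx, H.nu_one] at this; linarith

theorem nu_div (H : Place 𝒪 θ ν) {x y : E} (hx : x ≠ 0) (hy : y ≠ 0) :
    ν (x / y) = ν x - ν y := by
  rw [div_eq_mul_inv, H.mul _ _ hx (inv_ne_zero hy), H.nu_inv hy]; ring

theorem nu_pow (H : Place 𝒪 θ ν) {x : E} (hx : x ≠ 0) (n : ℕ) : ν (x ^ n) = n * ν x := by
  induction n with
  | zero => simp [H.nu_one]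
  | succ n ih =>
    rw [pow_succ, H.mul _ _ (pow_ne_zero _ hx) hx, ih]; push_cast; ring

theorem nu_const (H : Place 𝒪 θ ν) (hC : ∀ c : ℂ, algebraMap ℂ E c ∈ 𝒪) {c : ℂ} (hc : c ≠ 0) :
    ν (algebraMap ℂ E c) = 0 := by
  have h0 : algebraMap ℂ E c ≠ 0 := by simpa using hc
  have h1 := (H.mem _ h0).1 (hC c)
  have h2 : algebraMap ℂ E c⁻¹ ≠ 0 := by simpa using hc
  have h3 := (H.mem _ h2).1 (hC c⁻¹)
  rw [map_inv₀, H.nu_inv h0] at h3
  linarith

theorem sm_neg (H : Place 𝒪 θ ν) {x : E} (hx : Sm ν x) : Sm ν (-x) := by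
  by_cases h0 : x = 0
  · left; rw [h0, neg_zero]
  · right; rw [H.nu_neg h0]; exact hx.resolve_left h0

theorem sm_add (H : Place 𝒪 θ ν) {x y : E} (hx : Sm ν x) (hy : Sm ν y) : Sm ν (x + y) := by
  by_cases hx0 : x = 0
  · rw [hx0, zero_add]; exact hy
  by_cases hy0 : y = 0
  · rw [hy0, add_zero]; exact hx
  by_cases h : x + y = 0
  · left; exact h
  · right
    exact lt_of_lt_of_le (lt_min (hx.resolve_left hx0) (hy.resolve_left hy0)) (H.add _ _ hx0 hy0 h)

theorem sm_sub (H : Place 𝒪 θ ν) {x y : E} (hx : Sm ν x) (hy : Sm ν y) : Sm ν (x - y) := by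
  rw [sub_eq_add_neg]; exact H.sm_add hx (H.sm_neg hy)

theorem sm_mul (H : Place 𝒪 θ ν) {x y : E} (hx : Sm ν x) (hy : y ∈ 𝒪) : Sm ν (x * y) := by
  by_cases hx0 : x = 0
  · left; rw [hx0, zero_mul]
  by_cases hy0 : y = 0
  · left; rw [hy0, mul_zero]
  right
  rw [H.mul _ _ hx0 hy0]
  have h1 := hx.resolve_left hx0
  have h2 := (H.mem _ hy0).1 hy
  linarith

theorem sm_mul' (H : Place 𝒪 θ ν) {x y : E} (hx : x ∈ 𝒪) (hy : Sm ν y) : Sm ν (x * y) := by
  rw [mul_comm]; exact H.sm_mul hy hx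

theorem sm_mem (H : Place 𝒪 θ ν) {x : E} (hx : Sm ν x) : x ∈ 𝒪 := by
  by_cases hx0 : x = 0
  · rw [hx0]; exact 𝒪.zero_mem
  · exact (H.mem _ hx0).2 (hx.resolve_left hx0).le

theorem sm_const (H : Place 𝒪 θ ν) (hC : ∀ c : ℂ, algebraMap ℂ E c ∈ 𝒪) {c : ℂ}
    (hc : Sm ν (algebraMap ℂ E c)) : c = 0 := by
  by_contra h
  have h0 : algebraMap ℂ E c ≠ 0 := by simpa using h
  have := hc.resolve_left h0
  rw [H.nu_const hC h] at this
  exact lt_irrefl _ this

/-- A nonzero constant plus a small element is a unit. -/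
theorem unit_of (H : Place 𝒪 θ ν) (hC : ∀ c : ℂ, algebraMap ℂ E c ∈ 𝒪) {c : ℂ} (hc : c ≠ 0)
    {x : E} (hx : Sm ν (x - algebraMap ℂ E c)) : x ≠ 0 ∧ ν x = 0 := by
  have h0 : algebraMap ℂ E c ≠ 0 := by simpa using hc
  have hx0 : x ≠ 0 := by
    rintro rfl
    apply hc
    apply H.sm_const hC
    simpa using H.sm_neg hx
  refine ⟨hx0, ?_⟩
  have hmem : x ∈ 𝒪 := by
    have := 𝒪.add_mem _ _ (H.sm_mem hx) (hC c)
    simpa using this
  have h1 := (H.mem _ hx0).1 hmem
  by_contra h2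
  have h3 : Sm ν x := Or.inr (lt_of_le_of_ne h1 (Ne.symm h2))
  apply hc
  apply H.sm_const hC
  have := H.sm_sub h3 hx
  simpa using this

theorem algMap_rat (q : ℚ) : algebraMap ℂ E (q : ℂ) = (q : E) := map_ratCast _ q

theorem rat_mem (hC : ∀ c : ℂ, algebraMap ℂ E c ∈ 𝒪) (q : ℚ) : (q : E) ∈ 𝒪 := by
  rw [← algMap_rat]; exact hC _

/-- Derivatives of elements of the valuation ring are small. -/
theorem sm_theta (H : Place 𝒪 θ ν) (hC : ∀ c : ℂ, algebraMap ℂ E c ∈ 𝒪) {x : E} (hx : x ∈ 𝒪) :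
    Sm ν (θ x) := by
  obtain ⟨c, hc⟩ := H.res x hx
  have h1 : θ x = θ (x - algebraMap ℂ E c) := by
    rw [map_sub, Derivation.map_algebraMap, sub_zero]
  rw [h1]
  by_cases h0 : x - algebraMap ℂ E c = 0
  · left; rw [h0, map_zero]
  · obtain ⟨m, hm, he⟩ := H.log _ h0
    rw [he]
    exact H.sm_mul (Or.inr (hc.resolve_left h0)) (𝒪.add_mem _ _ (rat_mem hC _) (H.sm_mem hm))

/-- Logarithmic derivatives. -/
theorem sm_log (H : Place 𝒪 θ ν) {x : E} (hx : x ≠ 0) : Sm ν (θ x / x - (ν x : E)) := by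
  obtain ⟨m, hm, he⟩ := H.log _ hx
  rw [he, mul_div_cancel_left₀ _ hx, add_sub_cancel_left]
  exact hm

/-- The valuation of a derivative. -/
theorem nu_theta (H : Place 𝒪 θ ν) (hC : ∀ c : ℂ, algebraMap ℂ E c ∈ 𝒪) {x : E} (hx : x ≠ 0)
    (hν : ν x ≠ 0) : θ x ≠ 0 ∧ ν (θ x) = ν x := by
  obtain ⟨m, hm, he⟩ := H.log _ hx
  have h1 : ((ν x : ℚ) : ℂ) ≠ 0 := by exact_mod_cast hν
  have h2 := H.unit_of hC h1 (x := (ν x : E) + m)
    (by rw [algMap_rat, add_sub_cancel_left]; exact hm)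
  rw [he]
  refine ⟨mul_ne_zero hx h2.1, ?_⟩
  rw [H.mul _ _ hx h2.1, h2.2, add_zero]

/-- The Riccati equation at a place. -/
theorem riccati (H : Place 𝒪 θ ν) (hC : ∀ c : ℂ, algebraMap ℂ E c ∈ 𝒪) {C m1 m2 : E} {a v : ℚ}
    (h1 : Sm ν m1) (h2 : Sm ν m2) (hC1 : θ C = C ^ 2 + (a + m1) * C + v + m2) :
    ∃ r : ℂ, Sm ν (C - algebraMap ℂ E r) ∧ r ^ 2 + a * r + v = 0 := by
  have hmem : C ∈ 𝒪 := by
    by_cases h0 : C = 0
    · rw [h0]; exact 𝒪.zero_mem
    rw [H.mem _ h0]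
    by_contra hneg
    push Not at hneg
    have hinv : Sm ν C⁻¹ := by
      right; rw [H.nu_inv h0]; linarith
    obtain ⟨m, hm, he⟩ := H.log _ h0
    have key : (1 : E) = C⁻¹ * ((ν C : E) + m) - C⁻¹ * (a + m1) - C⁻¹ * (C⁻¹ * (v + m2)) := by
      have : C * ((ν C : E) + m) = C ^ 2 + (a + m1) * C + v + m2 := by rw [← he, hC1]
      field_simp
      linear_combination -this
    have h3 : Sm ν (1 : E) := by
      rw [key]
      refine H.sm_sub (H.sm_sub ?_ ?_) ?_
      · exact H.sm_mul hinv (𝒪.add_mem _ _ (rat_mem hC _) (H.sm_mem hm))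
      · exact H.sm_mul hinv (𝒪.add_mem _ _ (rat_mem hC _) (H.sm_mem h1))
      · exact H.sm_mul hinv (𝒪.mul_mem _ _ (H.sm_mem hinv)
          (𝒪.add_mem _ _ (rat_mem hC _) (H.sm_mem h2)))
    have h4 := H.sm_const hC (c := 1) (by simpa using h3)
    exact one_ne_zero h4
  obtain ⟨r, hr⟩ := H.res C hmem
  refine ⟨r, hr, ?_⟩
  apply H.sm_const hC
  have hθ := H.sm_theta hC hmem
  have hr' : Sm ν (C - algebraMap ℂ E r) := hr
  have key : algebraMap ℂ E (r ^ 2 + a * r + v) =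
      θ C - (C - algebraMap ℂ E r) * (C + algebraMap ℂ E r + a) - m1 * C - m2 := by
    rw [map_add, map_add, map_mul, map_pow, algMap_rat, algMap_rat, hC1]
    ring
  rw [key]
  refine H.sm_sub (H.sm_sub (H.sm_sub hθ ?_) ?_) h2
  · exact H.sm_mul hr' (𝒪.add_mem _ _ (𝒪.add_mem _ _ hmem (hC r)) (rat_mem hC _))
  · exact H.sm_mul h1 hmem

theorem sub_ne {y : E} (hy : Transcendental ℂ y) (c : ℂ) : y - algebraMap ℂ E c ≠ 0 := by
  intro h
  apply hy
  rw [sub_eq_zero] at h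
  rw [h]
  exact isAlgebraic_algebraMap c

theorem alg1728 : algebraMap ℂ E 1728 = 1728 := map_ofNat _ 1728

theorem alg144 : algebraMap ℂ E 144 = 144 := map_ofNat _ 144

theorem sm_R1 (H : Place 𝒪 θ ν) (hC : ∀ c : ℂ, algebraMap ℂ E c ∈ 𝒪) {y : E}
    (h0 : y ≠ 0) (h1 : y - 1728 ≠ 0) :
    Sm ν (R1 y * θ y - ((ν (y - 1728) / 2 + 2 * ν y / 3 : ℚ) : E)) := by
  have : CharZero E := charZero_of_injective_algebraMap (algebraMap ℂ E).injective
  have e1 : θ (y - 1728) = θ y := by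
    have : (1728 : E) = algebraMap ℂ E 1728 := (map_ofNat _ 1728).symm
    rw [map_sub, this, Derivation.map_algebraMap, sub_zero]
  have key : R1 y * θ y - ((ν (y - 1728) / 2 + 2 * ν y / 3 : ℚ) : E) =
      (θ (y - 1728) / (y - 1728) - (ν (y - 1728) : E)) * (((1 / 2 : ℚ)) : E) +
      (θ y / y - (ν y : E)) * (((2 / 3 : ℚ)) : E) := by
    rw [e1, R1]
    push_cast
    field_simp
    ring
  rw [key]
  exact H.sm_add (H.sm_mul (H.sm_log h1) (rat_mem hC _)) (H.sm_mul (H.sm_log h0) (rat_mem hC _))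

/-- Local data of a transcendental element. -/
theorem localData (H : Place 𝒪 θ ν) (hC : ∀ c : ℂ, algebraMap ℂ E c ∈ 𝒪) {y : E}
    (hy : Transcendental ℂ y) :
    ∃ N ρ v : ℚ, ρ = ν (y - 1728) / 2 + 2 * ν y / 3 ∧ θ y ≠ 0 ∧ ν (θ y) = N ∧ ρ < N ∧
      Sm ν (R1 y * θ y - ρ) ∧ Sm ν (V1 y * θ y ^ 2 - v) ∧
      ∀ r : ℂ, r ^ 2 + ((N - ρ : ℚ) : ℂ) * r + v = 0 →
        ∃ q : ℚ, r = q ∧ q ≤ 0 ∧ (y ∉ 𝒪 → q < 0) := by
  have : CharZero E := charZero_of_injective_algebraMap (algebraMap ℂ E).injective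
  have h0 : y ≠ 0 := by simpa using sub_ne hy 0
  have h1 : y - 1728 ≠ 0 := by rw [← alg1728]; exact sub_ne hy 1728
  have hR := H.sm_R1 hC h0 h1
  by_cases hmem : y ∈ 𝒪
  · obtain ⟨y0, hy0⟩ := H.res y hmem
    have hne := sub_ne hy y0
    have ht := hy0.resolve_left hne
    have hθ := H.nu_theta hC hne ht.ne'
    have e1 : θ (y - algebraMap ℂ E y0) = θ y := by
      rw [map_sub, Derivation.map_algebraMap, sub_zero]
    rw [e1] at hθ
    set t := ν (y - algebraMap ℂ E y0) with ht_def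
    -- the values at `0` and `1728`
    have hval : (ν y = t ∧ ν (y - 1728) = 0) ∨ (ν y = 0 ∧ ν (y - 1728) = t) ∨
        (ν y = 0 ∧ ν (y - 1728) = 0) := by
      by_cases ha : y0 = 0
      · left
        constructor
        · rw [ht_def, ha]; simp
        · refine (H.unit_of hC (c := -1728) (by norm_num) ?_).2
          have : y - 1728 - algebraMap ℂ E (-1728) = y - algebraMap ℂ E y0 := by
            rw [ha, map_neg, alg1728]; simp
          rw [this]; exact hy0
      · right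
        have hν : ν y = 0 := (H.unit_of hC ha hy0).2
        by_cases hb : y0 = 1728
        · left
          refine ⟨hν, ?_⟩
          rw [ht_def, hb, alg1728]
        · right
          refine ⟨hν, ?_⟩
          refine (H.unit_of hC (c := y0 - 1728) (sub_ne_zero.2 hb) ?_).2
          have : y - 1728 - algebraMap ℂ E (y0 - 1728) = y - algebraMap ℂ E y0 := by
            rw [map_sub, alg1728]; ring
          rw [this]; exact hy0
    have hρ : ν (y - 1728) / 2 + 2 * ν y / 3 < t := by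
      rcases hval with h | h | h <;> rw [h.1, h.2] <;> linarith
    refine ⟨t, _, 0, rfl, hθ.1, hθ.2, hρ, hR, ?_, ?_⟩
    · right
      have h144 : (144 : E) ≠ 0 := by norm_num
      have hν144 : ν (144 : E) = 0 := by
        have := H.nu_const hC (c := 144) (by norm_num)
        rwa [alg144] at this
      have e2 : V1 y * θ y ^ 2 - ((0 : ℚ) : E) = θ y ^ 2 / (144 * y * (y - 1728)) := by
        rw [V1]; push_cast; ring
      rw [e2, H.nu_div (pow_ne_zero _ hθ.1) (mul_ne_zero (mul_ne_zero h144 h0) h1),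
        H.mul _ _ (mul_ne_zero h144 h0) h1, H.mul _ _ h144 h0, hν144, H.nu_pow hθ.1, hθ.2]
      rcases hval with h | h | h <;> rw [h.1, h.2] <;> push_cast <;> linarith
    · intro r hr
      have hr2 : r * (r + ((t - (ν (y - 1728) / 2 + 2 * ν y / 3) : ℚ) : ℂ)) = 0 := by
        rw [← hr]; push_cast; ring
      rcases mul_eq_zero.1 hr2 with h | h
      · exact ⟨0, by rw [h]; simp, le_rfl, fun h' => absurd hmem h'⟩
      · refine ⟨-(t - (ν (y - 1728) / 2 + 2 * ν y / 3)), ?_, by linarith,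
          fun h' => absurd hmem h'⟩
        rw [eq_neg_of_add_eq_zero_left h]; push_cast; ring
  · have ht : ν y < 0 := by
      by_contra h
      exact hmem ((H.mem _ h0).2 (not_lt.1 h))
    have hθ := H.nu_theta hC h0 ht.ne
    have hinv : Sm ν y⁻¹ := by
      right; rw [H.nu_inv h0]; linarith
    have hu : Sm ν ((1 - 1728 * y⁻¹) - algebraMap ℂ E 1) := by
      have : (1 - 1728 * y⁻¹) - algebraMap ℂ E 1 = - (y⁻¹ * (1728 : ℚ)) := by
        rw [map_one]; push_cast; ring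
      rw [this]
      exact H.sm_neg (H.sm_mul hinv (rat_mem hC _))
    obtain ⟨hu0, hu1⟩ := H.unit_of hC one_ne_zero hu
    have e0 : y - 1728 = y * (1 - 1728 * y⁻¹) := by
      field_simp
    have hν1 : ν (y - 1728) = ν y := by
      rw [e0, H.mul _ _ h0 hu0, hu1, add_zero]
    refine ⟨ν y, _, (ν y) ^ 2 / 144, rfl, hθ.1, hθ.2, by rw [hν1]; linarith, hR, ?_, ?_⟩
    · set u := 1 - 1728 * y⁻¹ with hu_def
      have hum : u⁻¹ ∈ 𝒪 := by
        rw [H.mem _ (inv_ne_zero hu0), H.nu_inv hu0, hu1]; simp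
      have hlog := H.sm_log h0
      set m := θ y / y - (ν y : E) with hm_def
      have key : V1 y * θ y ^ 2 - (((ν y) ^ 2 / 144 : ℚ) : E) =
          (y⁻¹ * (((1728 : ℚ) : E) * u⁻¹ * ((ν y : E) + m) ^ 2) +
            m * (((2 : ℚ) : E) * (ν y : E) + m)) * ((1 / 144 : ℚ) : E) := by
        have e3 : θ y = y * ((ν y : E) + m) := by
          rw [hm_def]; field_simp; ring
        have e4 : y - 1728 = y * u := e0
        have e5 : y * u = y - 1728 := e0.symm
        rw [V1, e3, e4]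
        push_cast
        have e6 : y = y * u + 1728 := by rw [e5]; ring
        field_simp
        linear_combination ((ν y : E) + m) ^ 2 * e6
      rw [key]
      refine H.sm_mul (H.sm_add (H.sm_mul hinv ?_) (H.sm_mul hlog ?_)) (rat_mem hC _)
      · exact 𝒪.mul_mem _ _ (𝒪.mul_mem _ _ (rat_mem hC _) hum)
          (pow_mem (𝒪.add_mem _ _ (rat_mem hC _) (H.sm_mem hlog)) 2)
      · exact 𝒪.add_mem _ _ (𝒪.mul_mem _ _ (rat_mem hC _) (rat_mem hC _)) (H.sm_mem hlog)
    · intro r hr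
      refine ⟨ν y / 12, ?_, by linarith, fun _ => by linarith⟩
      have : (r - ((ν y / 12 : ℚ) : ℂ)) ^ 2 = 0 := by
        rw [← hr, hν1]; push_cast; ring
      have := pow_eq_zero_iff (two_ne_zero) |>.1 this
      exact sub_eq_zero.1 this

/-- The Riccati equation of the gauge transformation at a place. -/
theorem gaugeRiccati (H : Place 𝒪 θ ν) (hC : ∀ c : ℂ, algebraMap ℂ E c ∈ 𝒪) {y y' b c : E}
    {N ρ v : ℚ} (hθ : θ y ≠ 0) (hN : ν (θ y) = N)
    (hR : Sm ν (R1 y * θ y - ρ)) (hV : Sm ν (V1 y * θ y ^ 2 - v))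
    (hb : Sm ν (θ y * θ y' / b))
    (g : θ c = (c ^ 2 - R1 y * c + V1 y) * θ y - θ y' / b) :
    ∃ r : ℂ, Sm ν (c * θ y - algebraMap ℂ E r) ∧ r ^ 2 + ((N - ρ : ℚ) : ℂ) * r + v = 0 := by
  have : CharZero E := charZero_of_injective_algebraMap (algebraMap ℂ E).injective
  have hlog := H.sm_log hθ
  rw [hN] at hlog
  refine H.riccati hC (m1 := (θ (θ y) / θ y - (N : E)) - (R1 y * θ y - ρ))
    (m2 := (V1 y * θ y ^ 2 - v) - θ y * θ y' / b) (H.sm_sub hlog hR) (H.sm_sub hV hb) ?_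
  rw [Derivation.leibniz, smul_eq_mul, smul_eq_mul, g]
  push_cast
  field_simp
  ring

/-- The valuation of `b`. -/
theorem nu_b (H : Place 𝒪 θ ν) (hC : ∀ c : ℂ, algebraMap ℂ E c ∈ 𝒪) {y y' b c c' : E}
    (hy : Transcendental ℂ y) (hy' : Transcendental ℂ y') (hb : b ≠ 0)
    (hG : GaugeRel θ y y' b c c') :
    (ν (y - 1728) / 2 + 2 * ν y / 3) + (ν (y' - 1728) / 2 + 2 * ν y' / 3) ≤ ν b ∧
    (y ∉ 𝒪 → (ν (y - 1728) / 2 + 2 * ν y / 3) + (ν (y' - 1728) / 2 + 2 * ν y' / 3) < ν b) := by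
  have : CharZero E := charZero_of_injective_algebraMap (algebraMap ℂ E).injective
  obtain ⟨N, ρ, v, hρ, hθ, hN, hlt, hR, hV, hroot⟩ := H.localData hC hy
  obtain ⟨N', ρ', v', hρ', hθ', hN', hlt', hR', hV', hroot'⟩ := H.localData hC hy'
  rw [← hρ, ← hρ']
  by_cases hcase : N + N' ≤ ν b
  · exact ⟨by linarith, fun _ => by linarith⟩
  push Not at hcase
  have hsm : Sm ν (θ y * θ y' / b) := by
    right
    rw [H.nu_div (mul_ne_zero hθ hθ') hb, H.mul _ _ hθ hθ', hN, hN']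
    linarith
  have hsm' : Sm ν (θ y' * θ y / b) := by rw [mul_comm (θ y') (θ y)]; exact hsm
  obtain ⟨r, hr, hr2⟩ := H.gaugeRiccati hC hθ hN hR hV hsm hG.g1
  obtain ⟨r', hr', hr2'⟩ := H.gaugeRiccati hC hθ' hN' hR' hV' hsm' hG.g2
  obtain ⟨q, hq, hq0, hq1⟩ := hroot r hr2
  obtain ⟨q', hq', hq0', -⟩ := hroot' r' hr2'
  rw [hq, algMap_rat] at hr
  rw [hq', algMap_rat] at hr'
  have hlog := H.sm_log hb
  have hcalc : algebraMap ℂ E ((ρ + ρ' - 2 * q - 2 * q' - ν b : ℚ) : ℂ) =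
      (θ b / b - (ν b : E)) - (R1 y * θ y - ρ) - (R1 y' * θ y' - ρ') +
      ((2 : ℚ) : E) * (c * θ y - (q : E)) + ((2 : ℚ) : E) * (c' * θ y' - (q' : E)) := by
    rw [algMap_rat, hG.g3, mul_div_cancel_left₀ _ hb]
    push_cast
    ring
  have hs : Sm ν (algebraMap ℂ E ((ρ + ρ' - 2 * q - 2 * q' - ν b : ℚ) : ℂ)) := by
    rw [hcalc]
    exact H.sm_add (H.sm_add (H.sm_sub (H.sm_sub hlog hR) hR') (H.sm_mul' (rat_mem hC _) hr))
      (H.sm_mul' (rat_mem hC _) hr')
  have hz := H.sm_const hC hs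
  have hz2 : ρ + ρ' - 2 * q - 2 * q' - ν b = 0 := by exact_mod_cast hz
  exact ⟨by linarith, fun h => by have := hq1 h; linarith⟩

end Place

end PlaceLemmas

section FunctionField

variable {E : Type} [Field E] [Algebra ℂ E]

theorem exists_valuation_of_not_integral {x : E} (hx : ¬ IsIntegral ℂ x) :
    ∃ V : ValuationSubring E, (∀ c : ℂ, algebraMap ℂ E c ∈ V) ∧ x ∉ V := by
  have hx' : x ∉ (integralClosure ℂ E).toSubring := hx
  obtain ⟨V, hV, hxV⟩ := Subring.exists_le_valuationSubring_of_isIntegrallyClosedIn hx'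
  exact ⟨V, fun c => hV (isIntegral_algebraMap (R := ℂ) (x := c)), hxV⟩

theorem const_of_integral {x : E} (hx : IsIntegral ℂ x) : ∃ c : ℂ, x = algebraMap ℂ E c := by
  have h1 : IntermediateField.adjoin ℂ {x} = ⊥ := by
    have : Algebra.IsAlgebraic ℂ (IntermediateField.adjoin ℂ {x}) :=
      (IntermediateField.isAlgebraic_adjoin_simple hx)
    exact IntermediateField.eq_bot_of_isAlgClosed_of_isAlgebraic _
  have h2 : x ∈ (⊥ : IntermediateField ℂ E) := by
    rw [← h1]; exact IntermediateField.mem_adjoin_simple_self ℂ x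
  obtain ⟨c, hc⟩ := IntermediateField.mem_bot.1 h2
  exact ⟨c, hc.symm⟩

/-- The theorem for function fields of one variable. -/
theorem stepC_field (hPl : SpecPlace) {y y' b c c' : E} (hy : Transcendental ℂ y)
    (hy' : Transcendental ℂ y') (hfin : FiniteDimensional (IntermediateField.adjoin ℂ {y}) E)
    (hG : ∀ θ : Derivation ℂ E E, GaugeRel θ y y' b c c') : b = 0 := by
  by_contra hb
  have h0 : y ≠ 0 := by simpa using Place.sub_ne hy 0
  have h1 : y - 1728 ≠ 0 := by rw [← Place.alg1728]; exact Place.sub_ne hy 1728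
  have h0' : y' ≠ 0 := by simpa using Place.sub_ne hy' 0
  have h1' : y' - 1728 ≠ 0 := by rw [← Place.alg1728]; exact Place.sub_ne hy' 1728
  set f := b ^ 6 / (y ^ 4 * (y - 1728) ^ 3 * (y' ^ 4 * (y' - 1728) ^ 3)) with hf_def
  have hd : y ^ 4 * (y - 1728) ^ 3 ≠ 0 := mul_ne_zero (pow_ne_zero _ h0) (pow_ne_zero _ h1)
  have hd' : y' ^ 4 * (y' - 1728) ^ 3 ≠ 0 := mul_ne_zero (pow_ne_zero _ h0') (pow_ne_zero _ h1')
  have hf0 : f ≠ 0 := div_ne_zero (pow_ne_zero _ hb) (mul_ne_zero hd hd')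
  have key : ∀ V : ValuationSubring E, (∀ c : ℂ, algebraMap ℂ E c ∈ V) → V ≠ ⊤ →
      ∃ (θ : Derivation ℂ E E) (ν : E → ℚ), Place V θ ν ∧ 0 ≤ ν f ∧ (y ∉ V → 0 < ν f) := by
    intro V hV hVt
    obtain ⟨θ, ν, H⟩ := hPl E y hy hfin V hV hVt
    obtain ⟨k1, k2⟩ := H.nu_b hV hy hy' hb (hG θ)
    have hν : ν f = 6 * (ν b - ((ν (y - 1728) / 2 + 2 * ν y / 3) +
        (ν (y' - 1728) / 2 + 2 * ν y' / 3))) := by
      rw [hf_def, H.nu_div (pow_ne_zero _ hb) (mul_ne_zero hd hd'), H.mul _ _ hd hd',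
        H.mul _ _ (pow_ne_zero _ h0) (pow_ne_zero _ h1),
        H.mul _ _ (pow_ne_zero _ h0') (pow_ne_zero _ h1'), H.nu_pow hb, H.nu_pow h0,
        H.nu_pow h1, H.nu_pow h0', H.nu_pow h1']
      push_cast
      ring
    refine ⟨θ, ν, H, by rw [hν]; linarith, fun h => ?_⟩
    have := k2 h
    rw [hν]; linarith
  have hfi : IsIntegral ℂ f := by
    by_contra hni
    obtain ⟨V, hV, hfV⟩ := exists_valuation_of_not_integral hni
    have hVt : V ≠ ⊤ := by
      rintro rfl
      exact hfV (ValuationSubring.mem_top _)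
    obtain ⟨θ, ν, H, hpos, -⟩ := key V hV hVt
    exact hfV ((H.mem _ hf0).2 hpos)
  obtain ⟨a, ha⟩ := const_of_integral hfi
  have hyi : ¬ IsIntegral ℂ y := fun h => hy h.isAlgebraic
  obtain ⟨V, hV, hyV⟩ := exists_valuation_of_not_integral hyi
  have hVt : V ≠ ⊤ := by
    rintro rfl
    exact hyV (ValuationSubring.mem_top _)
  obtain ⟨θ, ν, H, -, hpos⟩ := key V hV hVt
  have h3 := hpos hyV
  have ha0 : a ≠ 0 := by
    rintro rfl
    apply hf0
    rw [ha, map_zero]
  rw [ha, H.nu_const hV ha0] at h3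
  exact lt_irrefl _ h3

end FunctionField

section Reduction

theorem isAlgebraic_of_not_indep {E : Type} [Field E] [Algebra ℂ E] {y x : E}
    (hy : Transcendental ℂ y) (h : ¬ AlgebraicIndependent ℂ ![y, x]) :
    IsAlgebraic (IntermediateField.adjoin ℂ {y}) x := by
  rw [IntermediateField.isAlgebraic_adjoin_iff]
  by_contra hx
  apply h
  rw [AlgebraicIndependent.iff_transcendental_adjoin_image (1 : Fin 2)]
  refine ⟨?_, ?_⟩
  · let huniq : Unique {j : Fin 2 // j ≠ 1} :=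
      { default := ⟨0, by decide⟩
        uniq := by
          rintro ⟨j, hj⟩
          apply Subtype.ext
          show j = 0
          omega }
    rw [algebraicIndependent_unique_type_iff]
    exact hy
  · have e : (![y, x] : Fin 2 → E) '' {1}ᶜ = {y} := by
      ext u
      simp only [Set.mem_image, Set.mem_compl_iff, Set.mem_singleton_iff]
      constructor
      · rintro ⟨j, hj, rfl⟩
        have : j = 0 := by
          revert hj
          fin_cases j
          · intro _; rfl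
          · intro h; exact absurd rfl h
        rw [this]; rfl
      · rintro rfl
        exact ⟨0, by decide, rfl⟩
    rw [e]
    exact hx

theorem not_indep_of_val {F : Type} [Field F] [Algebra ℂ F] {K : IntermediateField ℂ F} {y x : K}
    (h : ¬ AlgebraicIndependent ℂ ![(y : F), (x : F)]) : ¬ AlgebraicIndependent ℂ ![y, x] := by
  intro h'
  apply h
  have := h'.map' (f := K.val) K.val.injective
  convert this using 1
  ext i
  fin_cases i <;> rfl

theorem transcendental_of_val {F : Type} [Field F] [Algebra ℂ F] {K : IntermediateField ℂ F} {y : K}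
    (h : Transcendental ℂ (y : F)) : Transcendental ℂ y := by
  intro h'
  exact h (IsAlgebraic.algHom K.val h')

theorem finDim {E : Type} [Field E] [Algebra ℂ E] {y y' b c c' : E} (hy : Transcendental ℂ y)
    (h1 : ¬ AlgebraicIndependent ℂ ![y, y']) (h2 : ¬ AlgebraicIndependent ℂ ![y, b])
    (h3 : ¬ AlgebraicIndependent ℂ ![y, c]) (h4 : ¬ AlgebraicIndependent ℂ ![y, c'])
    (htop : IntermediateField.adjoin ℂ {y, y', b, c, c'} = ⊤) :
    FiniteDimensional (IntermediateField.adjoin ℂ {y}) E := by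
  have k1 : FiniteDimensional (IntermediateField.adjoin ℂ {y})
      (IntermediateField.adjoin (IntermediateField.adjoin ℂ {y}) {y', b, c, c'}) := by
    apply IntermediateField.finiteDimensional_adjoin
    intro x hx
    apply IsAlgebraic.isIntegral
    simp only [Set.mem_insert_iff, Set.mem_singleton_iff] at hx
    rcases hx with rfl | rfl | rfl | rfl
    · exact isAlgebraic_of_not_indep hy h1
    · exact isAlgebraic_of_not_indep hy h2
    · exact isAlgebraic_of_not_indep hy h3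
    · exact isAlgebraic_of_not_indep hy h4
  have k2 : IntermediateField.adjoin (IntermediateField.adjoin ℂ {y}) {y', b, c, c'} = ⊤ := by
    apply IntermediateField.restrictScalars_injective ℂ
    rw [IntermediateField.adjoin_adjoin_left, IntermediateField.restrictScalars_top, ← htop,
      Set.singleton_union]
  rw [k2] at k1
  exact Module.Finite.equiv (IntermediateField.topEquiv
    (F := IntermediateField.adjoin ℂ {y}) (E := E)).toLinearEquiv

theorem adjoin_top {F : Type} [Field F] [Algebra ℂ F] {K : IntermediateField ℂ F}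
    {y y' b c c' : K}
    (hK : K = IntermediateField.adjoin ℂ {(y : F), (y' : F), (b : F), (c : F), (c' : F)}) :
    IntermediateField.adjoin ℂ {y, y', b, c, c'} = ⊤ := by
  apply IntermediateField.lift_injective K
  rw [IntermediateField.lift_adjoin, IntermediateField.lift_top]
  refine Eq.trans ?_ hK.symm
  congr 1
  ext u
  simp only [Set.mem_image, Set.mem_insert_iff, Set.mem_singleton_iff]
  constructor
  · rintro ⟨x, hx, rfl⟩
    rcases hx with rfl | rfl | rfl | rfl | rfl <;> simp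
  · rintro (rfl | rfl | rfl | rfl | rfl)
    · exact ⟨_, Or.inl rfl, rfl⟩
    · exact ⟨_, Or.inr (Or.inl rfl), rfl⟩
    · exact ⟨_, Or.inr (Or.inr (Or.inl rfl)), rfl⟩
    · exact ⟨_, Or.inr (Or.inr (Or.inr (Or.inl rfl))), rfl⟩
    · exact ⟨_, Or.inr (Or.inr (Or.inr (Or.inr rfl))), rfl⟩

theorem gaugeRel_of_map {E F : Type} [Field E] [Algebra ℂ E] [Field F] [Algebra ℂ F]
    [Algebra E F] {θ : Derivation ℂ E E} {D : Derivation ℂ F F} {y y' b c c' : E}
    (hD : ∀ a, D (algebraMap E F a) = algebraMap E F (θ a))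
    (hG : GaugeRel D (algebraMap E F y) (algebraMap E F y') (algebraMap E F b)
      (algebraMap E F c) (algebraMap E F c')) : GaugeRel θ y y' b c c' := by
  have inj := (algebraMap E F).injective
  obtain ⟨g1, g2, g3⟩ := hG
  simp only [hD, R1, V1] at g1 g2 g3
  refine ⟨inj ?_, inj ?_, inj ?_⟩
  · simp only [R1, V1, map_sub, map_add, map_mul, map_pow, map_div₀, map_one, map_ofNat]
    exact g1
  · simp only [R1, V1, map_sub, map_add, map_mul, map_pow, map_div₀, map_one, map_ofNat]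
    exact g2
  · simp only [R1, map_sub, map_add, map_mul, map_div₀, map_one, map_ofNat]
    exact g3

theorem exists_ext (hE : SpecDerExt) {E F : Type} [Field E] [Algebra ℂ E] [Field F] [Algebra ℂ F]
    [Algebra E F] [IsScalarTower ℂ E F] (θ : Derivation ℂ E E) :
    ∃ D : Derivation ℂ F F, ∀ a, D (algebraMap E F a) = algebraMap E F (θ a) := by
  refine hE.ext E F (fun x => algebraMap E F (θ x)) (fun a b => ?_) (fun a b => ?_) (fun a => ?_)
  · rw [map_add θ, map_add]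
  · rw [Derivation.leibniz, smul_eq_mul, smul_eq_mul, map_add, map_mul, map_mul]
  · rw [Derivation.map_algebraMap, map_zero]

theorem specStepC (hE : SpecDerExt) (hPl : SpecPlace) : SpecStepC := by
  intro F _ _ y y' b c c' hy hy' hyy' hyb hyc hyc' hG
  obtain ⟨K, hK⟩ : ∃ K : IntermediateField ℂ F,
      K = IntermediateField.adjoin ℂ {y, y', b, c, c'} := ⟨_, rfl⟩
  obtain ⟨y, rfl⟩ : ∃ u : K, (u : F) = y :=
    ⟨⟨y, by rw [hK]; exact IntermediateField.subset_adjoin _ _ (by simp)⟩, rfl⟩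
  obtain ⟨y', rfl⟩ : ∃ u : K, (u : F) = y' :=
    ⟨⟨y', by rw [hK]; exact IntermediateField.subset_adjoin _ _ (by simp)⟩, rfl⟩
  obtain ⟨b, rfl⟩ : ∃ u : K, (u : F) = b :=
    ⟨⟨b, by rw [hK]; exact IntermediateField.subset_adjoin _ _ (by simp)⟩, rfl⟩
  obtain ⟨c, rfl⟩ : ∃ u : K, (u : F) = c :=
    ⟨⟨c, by rw [hK]; exact IntermediateField.subset_adjoin _ _ (by simp)⟩, rfl⟩
  obtain ⟨c', rfl⟩ : ∃ u : K, (u : F) = c' :=
    ⟨⟨c', by rw [hK]; exact IntermediateField.subset_adjoin _ _ (by simp)⟩, rfl⟩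
  have hyK : Transcendental ℂ y := transcendental_of_val hy
  have hres : b = 0 := by
    refine stepC_field hPl hyK (transcendental_of_val hy')
      (finDim hyK (not_indep_of_val hyy') (not_indep_of_val hyb) (not_indep_of_val hyc)
        (not_indep_of_val hyc') (adjoin_top hK)) (c := c) (c' := c') ?_
    intro θ
    obtain ⟨D, hD⟩ := exists_ext hE (F := F) θ
    exact gaugeRel_of_map hD (hG D)
  rw [hres]
  rfl

end Reduction

end Pool.Agent.Lib.MP_47914d_nt
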