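import Pool.Agent.Lib.MP_47914d_nt.HoloApi

section
/-!
WDIV: division by a monic polynomial in the last variable (for MP_47914d_nt).
-/
set_option autoImplicit false

open Complex Filter Topology Metric

namespace Pool.Agent.Lib.MP_47914d_nt

section WDiv

theorem pow_sub_pow_fin {k m : ℕ} (hm : m ≤ k) (ζ w : ℂ) :
    ζ ^ m - w ^ m = (ζ - w) * ∑ j : Fin k, w ^ (j : ℕ) *
      (if (j : ℕ) < m then ζ ^ (m - 1 - j) else 0) := by
  rw [Fin.sum_univ_eq_sum_range (fun j => w ^ j * (if j < m then ζ ^ (m - 1 - j) else 0)) k]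
  have h1 : ∑ j ∈ Finset.range k, w ^ j * (if j < m then ζ ^ (m - 1 - j) else 0) =
      ∑ j ∈ Finset.range m, w ^ j * ζ ^ (m - 1 - j) := by
    rw [← Finset.sum_subset (Finset.range_subset_range.2 hm)]
    · apply Finset.sum_congr rfl
      intro j hj
      rw [if_pos (Finset.mem_range.1 hj)]
    · intro j _ hj
      rw [if_neg (fun h => hj (Finset.mem_range.2 h)), mul_zero]
  rw [h1]
  have h2 := geom_sum₂_mul w ζ m
  linear_combination h2

/-- The coefficients of the difference quotient of `WP a`. -/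
def wc {n k : ℕ} (a : Fin k → (Fin n → ℂ) → ℂ) (j : Fin k) (x : (Fin n → ℂ) × ℂ) : ℂ :=
  x.2 ^ (k - 1 - (j : ℕ)) +
    ∑ i : Fin k, a i x.1 * (if (j : ℕ) < i then x.2 ^ ((i : ℕ) - 1 - (j : ℕ)) else 0)

theorem WP_sub {n k : ℕ} (a : Fin k → (Fin n → ℂ) → ℂ) (x : Fin n → ℂ) (ζ w : ℂ) :
    WP a (x, ζ) - WP a (x, w) = (ζ - w) * ∑ j : Fin k, w ^ (j : ℕ) * wc a j (x, ζ) := by
  unfold WP wc
  simp only
  have h0 := pow_sub_pow_fin (le_refl k) ζ w
  have h1 : ∀ i : Fin k, ζ ^ (i : ℕ) - w ^ (i : ℕ) = (ζ - w) * ∑ j : Fin k, w ^ (j : ℕ) *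
      (if (j : ℕ) < i then ζ ^ ((i : ℕ) - 1 - j) else 0) := fun i => pow_sub_pow_fin i.2.le ζ w
  have h2 : ∀ j : Fin k, (if (j : ℕ) < k then ζ ^ (k - 1 - (j : ℕ)) else 0) =
      ζ ^ (k - 1 - (j : ℕ)) := fun j => if_pos j.2
  simp only [h2] at h0
  calc ζ ^ k + ∑ i, a i x * ζ ^ (i : ℕ) - (w ^ k + ∑ i, a i x * w ^ (i : ℕ))
      = (ζ ^ k - w ^ k) + ∑ i, a i x * (ζ ^ (i : ℕ) - w ^ (i : ℕ)) := by
        simp only [mul_sub, Finset.sum_sub_distrib]; ring
    _ = (ζ - w) * ∑ j : Fin k, w ^ (j : ℕ) * ζ ^ (k - 1 - (j : ℕ)) +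
        ∑ i, a i x * ((ζ - w) * ∑ j : Fin k, w ^ (j : ℕ) *
          (if (j : ℕ) < i then ζ ^ ((i : ℕ) - 1 - j) else 0)) := by
        rw [h0]
        congr 1
        exact Finset.sum_congr rfl fun i _ => by rw [h1 i]
    _ = _ := by
        simp only [mul_add, Finset.mul_sum, Finset.sum_add_distrib]
        congr 1
        rw [Finset.sum_comm]
        refine Finset.sum_congr rfl fun j _ => Finset.sum_congr rfl fun i _ => ?_
        ring

theorem holo_WP {n k : ℕ} {a : Fin k → (Fin n → ℂ) → ℂ} {x : (Fin n → ℂ) × ℂ}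
    (ha : ∀ i, Holo (a i) x.1) : Holo (WP a) x := by
  unfold WP
  exact HoloApi.add (HoloApi.pow HoloApi.snd k)
    (HoloApi.sum _ fun i _ => HoloApi.mul (HoloApi.fst (ha i)) (HoloApi.pow HoloApi.snd _))

theorem holo_wc {n k : ℕ} {a : Fin k → (Fin n → ℂ) → ℂ} {x : (Fin n → ℂ) × ℂ} (j : Fin k)
    (ha : ∀ i, Holo (a i) x.1) : Holo (wc a j) x := by
  unfold wc
  refine HoloApi.add (HoloApi.pow HoloApi.snd _)
    (HoloApi.sum _ fun i _ => HoloApi.mul (HoloApi.fst (ha i)) ?_)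
  split_ifs
  · exact HoloApi.pow HoloApi.snd _
  · exact HoloApi.const 0

theorem continuous_WP {n k : ℕ} (a : Fin k → (Fin n → ℂ) → ℂ) (x : Fin n → ℂ) :
    Continuous fun w => WP a (x, w) := by
  unfold WP
  simp only
  fun_prop

theorem continuous_wc {n k : ℕ} (a : Fin k → (Fin n → ℂ) → ℂ) (j : Fin k) (x : Fin n → ℂ) :
    Continuous fun w => wc a j (x, w) := by
  unfold wc
  simp only
  refine Continuous.add (by fun_prop) (continuous_finsetSum _ fun i _ => ?_)
  split_ifs <;> fun_prop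

/-- WDIV. -/
theorem specWDiv (hP : SpecParam) : SpecWDiv := by
  intro n k a z w0 ha hW g hg
  have h2 : ∀ᶠ w in 𝓝 w0, Holo g (z, w) := by
    have hc : ContinuousAt (fun w : ℂ => (z, w)) w0 := by fun_prop
    exact hc.eventually (HoloApi.ev hg)
  obtain ⟨ρ, hρ, hball⟩ : ∃ ρ > 0, ∀ w ∈ closedBall w0 ρ, Holo g (z, w) := by
    obtain ⟨ε, hε, h⟩ := Metric.eventually_nhds_iff_ball.1 h2
    exact ⟨ε / 2, by positivity, fun w hw => h w (closedBall_subset_ball (by linarith) hw)⟩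
  have hsph : ∀ ζ ∈ sphere w0 ρ, WP a (z, ζ) ≠ 0 := by
    intro ζ hζ h
    rw [hW ζ h, mem_sphere, dist_self] at hζ
    linarith
  have hsb : ∀ ζ ∈ sphere w0 ρ, Holo g (z, ζ) := fun ζ hζ => hball ζ (sphere_subset_closedBall hζ)
  -- differentiability near
  have hA : ∀ᶠ x in 𝓝 z, ∀ ζ ∈ closedBall w0 ρ, DifferentiableAt ℂ g (x, ζ) :=
    (isCompact_closedBall w0 ρ).eventually_forall_of_forall_eventually
      (P := fun x ζ => DifferentiableAt ℂ g (x, ζ)) fun ζ hζ => hball ζ hζ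
  have hB : ∀ᶠ x in 𝓝 z, ∀ ζ ∈ sphere w0 ρ, WP a (x, ζ) ≠ 0 :=
    (isCompact_sphere w0 ρ).eventually_forall_of_forall_eventually
      (P := fun x ζ => WP a (x, ζ) ≠ 0) fun ζ hζ =>
        (HoloApi.diffAt (holo_WP (x := (z, ζ)) ha)).continuousAt.eventually_ne (hsph ζ hζ)
  have hpi : (2 * (Real.pi : ℂ) * I) ≠ 0 := Complex.two_pi_I_ne_zero
  refine ⟨fun x => (2 * Real.pi * I)⁻¹ * ∮ ζ in C(w0, ρ), g (x.1, ζ) / (WP a (x.1, ζ) * (ζ - x.2)),
    fun j x => (2 * Real.pi * I)⁻¹ * ∮ ζ in C(w0, ρ), g (x, ζ) / WP a (x, ζ) * wc a j (x, ζ),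
    ?_, ?_, ?_⟩
  · -- q is holomorphic
    refine HoloApi.mul (HoloApi.const _) ?_
    refine hP ((Fin n → ℂ) × ℂ)
      (fun y => g (y.1.1, y.2) / (WP a (y.1.1, y.2) * (y.2 - y.1.2))) (z, w0) w0 ρ hρ ?_
    intro ζ hζ
    have hφ : Differentiable ℂ (fun y : ((Fin n → ℂ) × ℂ) × ℂ => (y.1.1, y.2)) := by fun_prop
    refine HoloApi.div ?_ (HoloApi.mul ?_ ?_) ?_
    · exact HoloApi.comp_of (φ := fun y : ((Fin n → ℂ) × ℂ) × ℂ => (y.1.1, y.2))
        (z' := ((z, w0), ζ)) hφ (hsb ζ hζ)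
    · exact HoloApi.comp_of (φ := fun y : ((Fin n → ℂ) × ℂ) × ℂ => (y.1.1, y.2))
        (z' := ((z, w0), ζ)) hφ (holo_WP (x := (z, ζ)) ha)
    · exact HoloApi.of_differentiable (by fun_prop)
    · refine mul_ne_zero (hsph ζ hζ) ?_
      simp only
      rw [sub_ne_zero]
      rintro rfl
      rw [mem_sphere, dist_self] at hζ
      linarith
  · -- r is holomorphic
    intro j
    refine HoloApi.mul (HoloApi.const _) ?_
    refine hP (Fin n → ℂ) (fun y => g y / WP a y * wc a j y) z w0 ρ hρ ?_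
    intro ζ hζ
    exact HoloApi.mul (HoloApi.div (hsb ζ hζ) (holo_WP (x := (z, ζ)) ha) (hsph ζ hζ))
      (holo_wc (x := (z, ζ)) j ha)
  · -- the identity
    have hC : ∀ᶠ w in 𝓝 w0, w ∈ ball w0 ρ := ball_mem_nhds w0 hρ
    have := (hA.and hB).prod_nhds hC
    filter_upwards [this] with x hx
    obtain ⟨⟨hA', hB'⟩, hw⟩ := hx
    obtain ⟨x, w⟩ := x
    simp only at hA' hB' hw ⊢
    have hgd : DifferentiableOn ℂ (fun ζ => g (x, ζ)) (closedBall w0 ρ) := by
      intro ζ hζ
      have h1 : DifferentiableAt ℂ (fun ζ : ℂ => (x, ζ)) ζ := by fun_prop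
      exact ((hA' ζ hζ).comp ζ h1).differentiableWithinAt
    have hgc : ContinuousOn (fun ζ => g (x, ζ)) (sphere w0 ρ) :=
      hgd.continuousOn.mono sphere_subset_closedBall
    have hcauchy := hgd.circleIntegral_sub_inv_smul hw
    have hne : ∀ ζ ∈ sphere w0 ρ, ζ - w ≠ 0 := by
      intro ζ hζ h
      rw [sub_eq_zero] at h
      subst h
      rw [mem_sphere] at hζ
      rw [mem_ball, hζ] at hw
      exact lt_irrefl _ hw
    have hWc : ContinuousOn (fun ζ => WP a (x, ζ)) (sphere w0 ρ) := (continuous_WP a x).continuousOn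
    -- integrability
    have hi1 : CircleIntegrable (fun ζ => g (x, ζ) / (WP a (x, ζ) * (ζ - w)) * WP a (x, w))
        w0 ρ := by
      apply ContinuousOn.circleIntegrable hρ.le
      refine ContinuousOn.mul (ContinuousOn.div hgc (hWc.mul (by fun_prop)) ?_) continuousOn_const
      intro ζ hζ
      exact mul_ne_zero (hB' ζ hζ) (hne ζ hζ)
    have hi2 : ∀ j : Fin k, CircleIntegrable
        (fun ζ => w ^ (j : ℕ) * (g (x, ζ) / WP a (x, ζ) * wc a j (x, ζ))) w0 ρ := by
      intro j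
      apply ContinuousOn.circleIntegrable hρ.le
      refine ContinuousOn.mul continuousOn_const (ContinuousOn.mul (ContinuousOn.div hgc hWc hB')
        (continuous_wc a j x).continuousOn)
    have hkey : (∮ ζ in C(w0, ρ), (ζ - w)⁻¹ • g (x, ζ)) =
        (∮ ζ in C(w0, ρ), g (x, ζ) / (WP a (x, ζ) * (ζ - w)) * WP a (x, w)) +
        ∑ j : Fin k, ∮ ζ in C(w0, ρ),
          w ^ (j : ℕ) * (g (x, ζ) / WP a (x, ζ) * wc a j (x, ζ)) := by
      rw [← circleIntegral.integral_fun_sum (fun j _ => hi2 j), ← circleIntegral.integral_add hi1]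
      · apply circleIntegral.integral_congr hρ.le
        intro ζ hζ
        have hz1 := hB' ζ hζ
        have hz2 := hne ζ hζ
        have hsub := WP_sub a x ζ w
        have : ∑ j : Fin k, w ^ (j : ℕ) * (g (x, ζ) / WP a (x, ζ) * wc a j (x, ζ)) =
            g (x, ζ) / WP a (x, ζ) * ∑ j : Fin k, w ^ (j : ℕ) * wc a j (x, ζ) := by
          rw [Finset.mul_sum]
          exact Finset.sum_congr rfl fun j _ => by ring
        simp only [smul_eq_mul]
        rw [this]
        have h3 : ∑ j : Fin k, w ^ (j : ℕ) * wc a j (x, ζ) =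
            (WP a (x, ζ) - WP a (x, w)) / (ζ - w) := by
          rw [hsub]; field_simp
        rw [h3]
        field_simp
        ring
      · exact CircleIntegrable.fun_sum _ fun j _ => hi2 j
    rw [hcauchy] at hkey
    have hq : (∮ ζ in C(w0, ρ), g (x, ζ) / (WP a (x, ζ) * (ζ - w)) * WP a (x, w)) =
        (∮ ζ in C(w0, ρ), g (x, ζ) / (WP a (x, ζ) * (ζ - w))) * WP a (x, w) := by
      rw [mul_comm, ← circleIntegral.integral_const_mul]
      exact circleIntegral.integral_congr hρ.le fun ζ _ => mul_comm _ _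
    have hr : ∀ j : Fin k, (∮ ζ in C(w0, ρ),
          w ^ (j : ℕ) * (g (x, ζ) / WP a (x, ζ) * wc a j (x, ζ))) =
        w ^ (j : ℕ) * ∮ ζ in C(w0, ρ), g (x, ζ) / WP a (x, ζ) * wc a j (x, ζ) := by
      intro j
      exact circleIntegral.integral_const_mul _ _ _ _
    rw [hq, Finset.sum_congr rfl fun j _ => hr j, smul_eq_mul] at hkey
    have hfin : g (x, w) = (2 * Real.pi * I)⁻¹ * (2 * Real.pi * I * g (x, w)) := by
      field_simp
    rw [hfin, hkey, mul_add, Finset.mul_sum]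
    congr 1
    · ring
    · exact Finset.sum_congr rfl fun j _ => by ring

end WDiv

end Pool.Agent.Lib.MP_47914d_nt
end

section
/-!
Zeros of a holomorphic function in a disc and contour integrals of the logarithmic derivative
(for MP_47914d_nt).
-/
set_option autoImplicit false

open Complex Filter Topology Metric

namespace Pool.Agent.Lib.MP_47914d_nt

/-- The zeros (with multiplicity) of `F` in a disc and their power sums. -/
structure ZeroData (F : ℂ → ℂ) (c : ℂ) (ρ : ℝ) (k : ℕ) (r : Fin k → ℂ) : Prop where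
  mem : ∀ l, r l ∈ ball c ρ
  zero : ∀ l, F (r l) = 0
  all : ∀ w ∈ closedBall c ρ, F w = 0 → ∃ l, w = r l
  int : ∀ j : ℕ, (∮ w in C(c, ρ), w ^ j * (deriv F w / F w)) =
    2 * Real.pi * I * ∑ l, r l ^ j

theorem analyticOnNhd_dslope {F : ℂ → ℂ} {K : Set ℂ} {z0 : ℂ} (hz0 : z0 ∈ K)
    (hF : AnalyticOnNhd ℂ F K) : AnalyticOnNhd ℂ (dslope F z0) K := by
  have hV : IsOpen {w | AnalyticAt ℂ F w} := isOpen_analyticAt ℂ F
  have hd : DifferentiableOn ℂ F {w | AnalyticAt ℂ F w} :=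
    fun w hw => (AnalyticAt.differentiableAt hw).differentiableWithinAt
  have hd' : DifferentiableOn ℂ (dslope F z0) {w | AnalyticAt ℂ F w} :=
    (Complex.differentiableOn_dslope (hV.mem_nhds (hF z0 hz0))).2 hd
  intro w hw
  exact hd'.analyticAt (hV.mem_nhds (hF w hw))

theorem zeroData_of_ne {F : ℂ → ℂ} {c : ℂ} {ρ : ℝ} (hρ : 0 < ρ)
    (hF : AnalyticOnNhd ℂ F (closedBall c ρ)) (h0 : ∀ w ∈ closedBall c ρ, F w ≠ 0) :
    ZeroData F c ρ 0 Fin.elim0 where
  mem l := l.elim0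
  zero l := l.elim0
  all w hw h := absurd h (h0 w hw)
  int j := by
    have hd : DifferentiableOn ℂ (fun w => w ^ j * (deriv F w / F w)) (closedBall c ρ) := by
      intro w hw
      have h1 := (hF w hw).differentiableAt
      have h2 := (hF w hw).deriv.differentiableAt
      exact (((differentiableAt_id.pow j).mul
        (h2.div h1 (h0 w hw)))).differentiableWithinAt
    have := (hd.mono closure_ball_subset_closedBall).diffContOnCl.circleIntegral_eq_zero hρ.le
    rw [this]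
    simp

theorem zeroData_cons {F G : ℂ → ℂ} {c z0 : ℂ} {ρ : ℝ} (hρ : 0 < ρ) (hz0 : z0 ∈ ball c ρ)
    (hFG : ∀ w, F w = (w - z0) * G w) (hG : AnalyticOnNhd ℂ G (closedBall c ρ))
    (hs : ∀ w ∈ sphere c ρ, G w ≠ 0) {k : ℕ} {r : Fin k → ℂ} (h : ZeroData G c ρ k r) :
    ZeroData F c ρ (k + 1) (Fin.cons z0 r) where
  mem l := by
    refine Fin.cases ?_ (fun l => ?_) l
    · simpa using hz0
    · simpa using h.mem l
  zero l := by
    refine Fin.cases ?_ (fun l => ?_) l
    · simp [hFG]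
    · simp [hFG, h.zero l]
  all w hw hw0 := by
    rw [hFG, mul_eq_zero, sub_eq_zero] at hw0
    rcases hw0 with rfl | hw0
    · exact ⟨0, by simp⟩
    · obtain ⟨l, hl⟩ := h.all w hw hw0
      exact ⟨l.succ, by simpa using hl⟩
  int j := by
    have hne : ∀ w ∈ sphere c ρ, w - z0 ≠ 0 := by
      intro w hw h
      rw [sub_eq_zero] at h
      subst h
      rw [mem_sphere] at hw
      rw [mem_ball, hw] at hz0
      exact lt_irrefl _ hz0
    have hder : ∀ w ∈ sphere c ρ, w ^ j * (deriv F w / F w) =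
        w ^ j / (w - z0) + w ^ j * (deriv G w / G w) := by
      intro w hw
      have h1 : F = fun w => (w - z0) * G w := funext hFG
      have h2 := (hG w (sphere_subset_closedBall hw)).differentiableAt
      have h3 : deriv F w = G w + (w - z0) * deriv G w := by
        rw [h1, deriv_fun_mul (by fun_prop) h2]
        simp
      rw [h3, hFG w]
      have h4 := hne w hw
      have h5 := hs w hw
      field_simp
    rw [circleIntegral.integral_congr hρ.le hder, circleIntegral.integral_add]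
    · rw [h.int j, circleIntegral_div_sub_of_differentiable_on_off_countable
        Set.countable_empty hz0 (f := fun w => w ^ j) (by fun_prop) (fun _ _ => by fun_prop)]
      rw [Fin.sum_univ_succ]
      simp only [Fin.cons_zero, Fin.cons_succ]
      ring
    · apply ContinuousOn.circleIntegrable hρ.le
      exact ContinuousOn.div (by fun_prop) (by fun_prop) hne
    · apply ContinuousOn.circleIntegrable hρ.le
      refine ContinuousOn.mul (by fun_prop) (ContinuousOn.div ?_ ?_ hs)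
      · intro w hw
        exact (hG w (sphere_subset_closedBall hw)).deriv.continuousAt.continuousWithinAt
      · intro w hw
        exact (hG w (sphere_subset_closedBall hw)).continuousAt.continuousWithinAt

theorem exists_zeroData_aux (c : ℂ) (ρ : ℝ) (hρ : 0 < ρ) (Z : Finset ℂ)
    (hZ : ∀ w ∈ Z, w ∈ closedBall c ρ) : ∀ (N : ℕ) (F : ℂ → ℂ),
    AnalyticOnNhd ℂ F (closedBall c ρ) → (∀ w ∈ sphere c ρ, F w ≠ 0) →
    (∀ w ∈ closedBall c ρ, F w = 0 → w ∈ Z) → (∀ w ∈ Z, analyticOrderAt F w ≠ ⊤) →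
    ∑ w ∈ Z, analyticOrderNatAt F w = N → ∃ (k : ℕ) (r : Fin k → ℂ), ZeroData F c ρ k r := by
  intro N
  induction N with
  | zero => 
    intro F hF hs hz ho hN
    refine ⟨0, Fin.elim0, zeroData_of_ne hρ hF fun w hw h => ?_⟩
    have h1 := hz w hw h
    have h2 : analyticOrderNatAt F w = 0 := by
      have := (Finset.sum_eq_zero_iff.1 hN) w h1
      exact this
    have h3 := ho w h1
    rw [← Nat.cast_analyticOrderNatAt h3, h2] at h3
    have h4 : analyticOrderAt F w = 0 := by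
      rw [← Nat.cast_analyticOrderNatAt (ho w h1), h2]; rfl
    exact ((hF w hw).analyticOrderAt_eq_zero.1 h4) h
  | succ N ih =>
    intro F hF hs hz ho hN
    by_cases hz0 : ∃ w ∈ closedBall c ρ, F w = 0
    · obtain ⟨z0, hz0, h0⟩ := hz0
      have hzb : z0 ∈ ball c ρ := by
        rw [mem_ball]
        refine lt_of_le_of_ne hz0 fun h => ?_
        exact hs z0 h h0
      set G := dslope F z0 with hGdef
      have hG : AnalyticOnNhd ℂ G (closedBall c ρ) := analyticOnNhd_dslope hz0 hF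
      have hFG : ∀ w, F w = (w - z0) * G w := by
        intro w
        have := sub_smul_dslope F z0 w
        rw [h0, sub_zero, smul_eq_mul] at this
        exact this.symm
      have hFG' : F = (fun w => w - z0) * G := funext hFG
      have hGs : ∀ w ∈ sphere c ρ, G w ≠ 0 := by
        intro w hw h
        apply hs w hw
        rw [hFG, h, mul_zero]
      have hoG : ∀ w ∈ Z, analyticOrderAt G w ≠ ⊤ := by
        intro w hw h
        apply ho w hw
        rw [hFG']
        exact analyticOrderAt_mul_eq_top_of_right h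
      have hoI : ∀ w, analyticOrderAt (fun w => w - z0) w ≠ ⊤ := by
        intro w
        by_cases h : w = z0
        · subst h; simp
        · rw [analyticOrderAt_id_sub_const_of_ne h]; simp
      have hsum : ∑ w ∈ Z, analyticOrderNatAt F w =
          ∑ w ∈ Z, analyticOrderNatAt (fun w => w - z0) w + ∑ w ∈ Z, analyticOrderNatAt G w := by
        rw [← Finset.sum_add_distrib]
        refine Finset.sum_congr rfl fun w hw => ?_
        conv_lhs => rw [hFG']
        exact analyticOrderNatAt_mul (by fun_prop) (hG w (hZ w hw)) (hoI w) (hoG w hw)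
      have hone : ∑ w ∈ Z, analyticOrderNatAt (fun w => w - z0) w = 1 := by
        rw [Finset.sum_eq_single z0]
        · simp [analyticOrderNatAt]
        · intro w _ hw
          simp [analyticOrderNatAt, analyticOrderAt_id_sub_const_of_ne hw]
        · intro h
          exact absurd (hz z0 hz0 h0) h
      obtain ⟨k, r, h⟩ := ih G hG hGs (fun w hw h => hz w hw (by rw [hFG, h, mul_zero])) hoG
        (by omega)
      exact ⟨k + 1, Fin.cons z0 r, zeroData_cons hρ hzb hFG hG hGs h⟩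
    · push Not at hz0
      exact ⟨0, Fin.elim0, zeroData_of_ne hρ hF hz0⟩

theorem exists_zeroData {F : ℂ → ℂ} {c : ℂ} {ρ : ℝ} (hρ : 0 < ρ)
    (hF : AnalyticOnNhd ℂ F (closedBall c ρ)) (hs : ∀ w ∈ sphere c ρ, F w ≠ 0) :
    ∃ (k : ℕ) (r : Fin k → ℂ), ZeroData F c ρ k r := by
  obtain ⟨w1, hw1⟩ : (sphere c ρ).Nonempty := NormedSpace.sphere_nonempty.2 hρ.le
  have hw1' : w1 ∈ closedBall c ρ := sphere_subset_closedBall hw1
  have hconn : IsConnected (closedBall c ρ) :=
    ⟨⟨w1, hw1'⟩, (convex_closedBall c ρ).isPreconnected⟩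
  have hcod := hF.preimage_zero_mem_codiscreteWithin (hs w1 hw1) hw1' hconn
  have hfin := (isCompact_closedBall c ρ).finite_sdiff_of_mem_codiscreteWithin hcod
  have hmem : ∀ w, w ∈ hfin.toFinset ↔ w ∈ closedBall c ρ ∧ F w = 0 := by
    intro w
    simp
  refine exists_zeroData_aux c ρ hρ hfin.toFinset (fun w hw => ((hmem w).1 hw).1) _ F hF hs
    (fun w hw h => (hmem w).2 ⟨hw, h⟩) ?_ rfl
  intro w hw
  have h1 : analyticOrderAt F w1 ≠ ⊤ := by
    rw [(hF w1 hw1').analyticOrderAt_eq_zero.2 (hs w1 hw1)]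
    simp
  exact hF.analyticOrderAt_ne_top_of_isPreconnected hconn.isPreconnected hw1'
    ((hmem w).1 hw).1 h1

end Pool.Agent.Lib.MP_47914d_nt
end

section
/-!
WPOL: the zeros of a holomorphic function are zeros of a monic polynomial in the last variable
(for MP_47914d_nt).
-/
set_option autoImplicit false

open Complex Filter Topology Metric

namespace Pool.Agent.Lib.MP_47914d_nt

theorem exists_esymm {E : Type} [NormedAddCommGroup E] [NormedSpace ℂ E] (k : ℕ)
    (S : ℕ → E → ℂ) (z : E) (hS : ∀ j, Holo (S j) z) : ∀ m : ℕ, ∃ e : E → ℂ, Holo e z ∧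
      ∀ (x : E) (r : Fin k → ℂ), (∀ j, S j x = ∑ l, r l ^ j) →
        e x = (Finset.univ.val.map r).esymm m := by
  intro m
  induction m using Nat.strong_induction_on with
  | _ m ih =>
    rcases Nat.eq_zero_or_pos m with rfl | hm
    · exact ⟨fun _ => 1, HoloApi.const 1, fun x r _ => by simp [Multiset.esymm]⟩
    · choose! e he hes using ih
      refine ⟨fun x => (m : ℂ)⁻¹ * ((-1) ^ (m + 1) *
        ∑ a ∈ Finset.HasAntidiagonal.antidiagonal m with a.1 < m, (-1) ^ a.1 * e a.1 x * S a.2 x), ?_, ?_⟩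
      · refine HoloApi.mul (HoloApi.const _) (HoloApi.mul (HoloApi.const _)
          (HoloApi.sum _ fun a ha => ?_))
        rw [Finset.mem_filter] at ha
        exact HoloApi.mul (HoloApi.mul (HoloApi.const _) (he a.1 ha.2)) (hS a.2)
      · intro x r hr
        have hN := congrArg (MvPolynomial.aeval r)
          (MvPolynomial.mul_esymm_eq_sum (Fin k) ℂ m)
        simp only [map_mul, map_natCast, map_pow, map_neg, map_one, map_sum,
          MvPolynomial.aeval_esymm_eq_multiset_esymm, MvPolynomial.psum,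
          MvPolynomial.aeval_X] at hN
        have hm0 : (m : ℂ) ≠ 0 := Nat.cast_ne_zero.2 hm.ne'
        rw [inv_mul_eq_iff_eq_mul₀ hm0, hN]
        congr 1
        refine Finset.sum_congr rfl fun a ha => ?_
        rw [Finset.mem_filter] at ha
        rw [hes a.1 ha.2 x r hr, hr a.2]

theorem WP_eq_prod {n k : ℕ} (a : Fin k → (Fin n → ℂ) → ℂ) (x : Fin n → ℂ) (r : Fin k → ℂ)
    (ha : ∀ i : Fin k, a i x = (-1) ^ (k - (i : ℕ)) *
      (Finset.univ.val.map r).esymm (k - (i : ℕ))) (w : ℂ) :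
    WP a (x, w) = ∏ l, (w - r l) := by
  set s : Multiset ℂ := Finset.univ.val.map r with hs
  have hcard : Multiset.card s = k := by simp [hs]
  have h1 : ((s.map fun t => Polynomial.X - Polynomial.C t).prod).eval w = ∏ l, (w - r l) := by
    rw [Polynomial.eval_multiset_prod, hs, Multiset.map_map, Multiset.map_map]
    refine Eq.trans (show _ = ∏ l, _ from rfl) (Finset.prod_congr rfl fun l _ => ?_)
    simp
  rw [← h1, Polynomial.eval_eq_sum_range' (n := k + 1) ?_ w, Finset.sum_range_succ]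
  · have h2 : ∀ i ∈ Finset.range k, ((s.map fun t => Polynomial.X - Polynomial.C t).prod).coeff i *
        w ^ i = (-1) ^ (k - i) * s.esymm (k - i) * w ^ i := by
      intro i hi
      rw [Multiset.prod_X_sub_C_coeff s (by rw [hcard]; exact (Finset.mem_range.1 hi).le), hcard]
    rw [Finset.sum_congr rfl h2, Multiset.prod_X_sub_C_coeff s hcard.ge, hcard]
    unfold WP
    simp only [ha]
    rw [Fin.sum_univ_eq_sum_range (fun i => (-1) ^ (k - i) * s.esymm (k - i) * w ^ i) k]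
    simp [Multiset.esymm, add_comm]
  · rw [Polynomial.natDegree_multiset_prod_X_sub_C_eq_card, hcard]
    exact Nat.lt_succ_self k

theorem holo_analyticAt {n : ℕ} {f : (Fin n → ℂ) × ℂ → ℂ} {x : Fin n → ℂ} {ζ : ℂ}
    (h : Holo f (x, ζ)) : AnalyticAt ℂ (fun w => f (x, w)) ζ := by
  rw [Complex.analyticAt_iff_eventually_differentiableAt]
  have hc : ContinuousAt (fun w : ℂ => (x, w)) ζ := by fun_prop
  filter_upwards [hc.eventually h] with w hw
  have h1 : DifferentiableAt ℂ (fun w : ℂ => (x, w)) w := by fun_prop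
  exact hw.comp w h1

theorem deriv_slice {n : ℕ} {f : (Fin n → ℂ) × ℂ → ℂ} {x : Fin n → ℂ} {ζ : ℂ}
    (h : Holo f (x, ζ)) : deriv (fun w => f (x, w)) ζ = fderiv ℂ f (x, ζ) (0, 1) := by
  have h1 : HasDerivAt (fun w : ℂ => (x, w)) ((0 : Fin n → ℂ), (1 : ℂ)) ζ :=
    (hasDerivAt_const ζ x).prodMk (hasDerivAt_id ζ)
  exact ((HoloApi.diffAt h).hasFDerivAt.comp_hasDerivAt ζ h1).deriv

/-- WPOL. -/
theorem specWPol (hP : SpecParam) (hH : SpecHolo) : SpecWPol := by
  intro n f z w0 hf hne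
  have h1 : ∀ᶠ w in 𝓝 w0, Holo f (z, w) := by
    have hc : ContinuousAt (fun w : ℂ => (z, w)) w0 := by fun_prop
    exact hc.eventually (HoloApi.ev hf)
  have h2 : ∀ᶠ w in 𝓝[≠] w0, f (z, w) ≠ 0 :=
    ((holo_analyticAt hf).eventually_eq_zero_or_eventually_ne_zero).resolve_left hne
  have h3 : ∀ᶠ w in 𝓝 w0, w ≠ w0 → f (z, w) ≠ 0 := by
    rw [eventually_nhdsWithin_iff] at h2
    exact h2
  obtain ⟨ρ, hρ, hball⟩ : ∃ ρ > 0, ∀ w ∈ closedBall w0 ρ, Holo f (z, w) ∧
      (w ≠ w0 → f (z, w) ≠ 0) := by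
    obtain ⟨ε, hε, h⟩ := Metric.eventually_nhds_iff_ball.1 (h1.and h3)
    exact ⟨ε / 2, by positivity, fun w hw => h w (closedBall_subset_ball (by linarith) hw)⟩
  have hsb : ∀ ζ ∈ sphere w0 ρ, Holo f (z, ζ) :=
    fun ζ hζ => (hball ζ (sphere_subset_closedBall hζ)).1
  have hfne : ∀ ζ ∈ sphere w0 ρ, f (z, ζ) ≠ 0 := by
    intro ζ hζ
    refine (hball ζ (sphere_subset_closedBall hζ)).2 ?_
    rintro rfl
    rw [mem_sphere, dist_self] at hζ
    linarith
  have hA : ∀ᶠ x in 𝓝 z, ∀ ζ ∈ closedBall w0 ρ, Holo f (x, ζ) :=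
    (isCompact_closedBall w0 ρ).eventually_forall_of_forall_eventually
      (P := fun x ζ => Holo f (x, ζ)) fun ζ hζ => HoloApi.ev (hball ζ hζ).1
  have hB : ∀ᶠ x in 𝓝 z, ∀ ζ ∈ sphere w0 ρ, f (x, ζ) ≠ 0 :=
    (isCompact_sphere w0 ρ).eventually_forall_of_forall_eventually
      (P := fun x ζ => f (x, ζ) ≠ 0) fun ζ hζ =>
        (HoloApi.diffAt (hsb ζ hζ)).continuousAt.eventually_ne (hfne ζ hζ)
  set S : ℕ → (Fin n → ℂ) → ℂ := fun j x => (2 * Real.pi * I)⁻¹ * ∮ w in C(w0, ρ),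
    w ^ j * (fderiv ℂ f (x, w) (0, 1) / f (x, w)) with hSdef
  have hS : ∀ j, Holo (S j) z := by
    intro j
    refine HoloApi.mul (HoloApi.const _) ?_
    refine hP (Fin n → ℂ) (fun y => y.2 ^ j * (fderiv ℂ f y (0, 1) / f y)) z w0 ρ hρ ?_
    intro ζ hζ
    exact HoloApi.mul (HoloApi.pow HoloApi.snd j)
      (HoloApi.div (hH.partialD _ f (z, ζ) (0, 1) (hsb ζ hζ)) (hsb ζ hζ) (hfne ζ hζ))
  have hD : ∀ᶠ x in 𝓝 z, ∃ (m : ℕ) (r : Fin m → ℂ),
      ZeroData (fun w => f (x, w)) w0 ρ m r ∧ ∀ j, S j x = ∑ l, r l ^ j := by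
    filter_upwards [hA, hB] with x hAx hBx
    obtain ⟨m, r, h⟩ := exists_zeroData (F := fun w => f (x, w)) hρ
      (fun w hw => holo_analyticAt (hAx w hw)) hBx
    refine ⟨m, r, h, fun j => ?_⟩
    have h4 : (∮ w in C(w0, ρ), w ^ j * (fderiv ℂ f (x, w) (0, 1) / f (x, w))) =
        ∮ w in C(w0, ρ), w ^ j * (deriv (fun w => f (x, w)) w / f (x, w)) := by
      apply circleIntegral.integral_congr hρ.le
      intro ζ hζ
      simp only
      rw [deriv_slice (hAx ζ (sphere_subset_closedBall hζ))]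
    simp only [hSdef]
    rw [h4, h.int j, inv_mul_cancel_left₀ Complex.two_pi_I_ne_zero]
  obtain ⟨k, r0, hr0, hS0⟩ := hD.self_of_nhds
  have hcont : ∀ᶠ x in 𝓝 z, dist (S 0 x) (S 0 z) < 1 :=
    (HoloApi.diffAt (hS 0)).continuousAt.eventually (ball_mem_nhds _ one_pos)
  have hE : ∀ᶠ x in 𝓝 z, ∃ r : Fin k → ℂ,
      (∀ w ∈ closedBall w0 ρ, f (x, w) = 0 → ∃ l, w = r l) ∧ ∀ j, S j x = ∑ l, r l ^ j := by
    filter_upwards [hD, hcont] with x hx hx'
    obtain ⟨m, r, h, hSx⟩ := hx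
    have hm : m = k := by
      have e1 : S 0 x = m := by rw [hSx 0]; simp
      have e2 : S 0 z = k := by rw [hS0 0]; simp
      rw [e1, e2, Complex.dist_eq] at hx'
      have e3 : ((m : ℂ) - k) = (((m : ℤ) - (k : ℤ) : ℤ) : ℂ) := by push_cast; ring
      rw [e3, Complex.norm_intCast] at hx'
      have e4 : |(m : ℤ) - (k : ℤ)| < 1 := by exact_mod_cast hx'
      have e5 := Int.abs_lt_one_iff.1 e4
      omega
    subst hm
    exact ⟨r, h.all, hSx⟩
  choose e he hes using exists_esymm k S z hS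
  refine ⟨k, fun i x => (-1) ^ (k - (i : ℕ)) * e (k - (i : ℕ)) x, ?_, ?_, ?_⟩
  · intro i
    exact HoloApi.mul (HoloApi.const _) (he _)
  · intro w hw
    rw [WP_eq_prod _ z r0 (fun i => by rw [hes _ z r0 hS0]) w, Finset.prod_eq_zero_iff] at hw
    obtain ⟨l, -, hl⟩ := hw
    rw [sub_eq_zero] at hl
    rw [hl]
    by_contra hcon
    exact (hball (r0 l) (ball_subset_closedBall (hr0.mem l))).2 hcon (hr0.zero l)
  · have hC : ∀ᶠ w in 𝓝 w0, w ∈ ball w0 ρ := ball_mem_nhds w0 hρ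
    filter_upwards [hE.prod_nhds hC] with x hx hfx
    obtain ⟨⟨r, hr, hSr⟩, hw⟩ := hx
    obtain ⟨x, w⟩ := x
    simp only at hr hSr hw
    obtain ⟨l, hl⟩ := hr w (ball_subset_closedBall hw) hfx
    rw [WP_eq_prod _ x r (fun i => by rw [hes _ x r hSr]) w]
    exact Finset.prod_eq_zero (Finset.mem_univ l) (by rw [hl, sub_self])

end Pool.Agent.Lib.MP_47914d_nt
end
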