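import Pool.Agent.Lib.MP_47914d_nt.Defs4
import Pool.Agent.Lib.MP_47914d_nt.Liou3
import Pool.Agent.Lib.MP_47914d_nt.All3
import Pool.Agent.Lib.MP_47914d_nt.Holo
import Pool.Agent.Lib.MP_47914d_nt.WPol
import Pool.Agent.Lib.MP_47914d_nt.DerExt
import Pool.Agent.Lib.MP_47914d_nt.Arc
import Pool.Agent.Lib.MP_47914d_nt.Place
import Pool.Agent.Lib.MP_47914d_nt.StepC
import Pool.Agent.Lib.MP_47914d_nt.Ricc
import Pool.Agent.Lib.MP_47914d_nt.Full

section
/-!
Module LIOU4: Liouville inequality with several quadratic numbers.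
-/
set_option autoImplicit false

open Polynomial

namespace Pool.Agent.Lib.MP_47914d_nt

open L3

theorem specLiou4 : SpecLiou4 := by
  classical
  intro l m P
  set D := P.totalDegree with hD
  refine ⟨2 ^ l * (3 * l * D + cSum P + m * D) + l * D, fun H d hH hd κ α hκ hα => ?_⟩
  set x : Fin l ⊕ Fin m → ℂ := Sum.elim κ α with hx
  by_cases hv : MvPolynomial.aeval x P = 0
  · exact Or.inl hv
  right
  choose G0 hG0 hG0κ hG0deg hG0lc hG0roots using fun i => exists_quad_poly (hκ i)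
  choose F hFm hFα hFdeg hFprod using hα
  set G : Fin l ⊕ Fin m → ℤ[X] := Sum.elim G0 F with hG
  have hGne : ∀ o, G o ≠ 0 := by
    rintro (i | i)
    · exact hG0 i
    · exact (hFm i).ne_zero
  have hGx : ∀ o, aeval (x o) (G o) = 0 := by
    rintro (i | i)
    · exact hG0κ i
    · exact hFα i
  -- the number field
  set K := IntermediateField.adjoin ℚ (Set.range x) with hK
  have hint : ∀ i, IsIntegral ℚ (x i) := by
    intro i
    refine IsAlgebraic.isIntegral ?_
    refine ⟨(G i).map (Int.castRingHom ℚ), ?_, ?_⟩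
    · exact (Polynomial.map_ne_zero_iff (RingHom.injective_int _)).2 (hGne i)
    · have : aeval (x i) ((G i).map (Int.castRingHom ℚ)) = aeval (x i) (G i) := by
        rw [← algebraMap_int_eq, aeval_map_algebraMap]
      rw [this, hGx i]
  have hfd : FiniteDimensional ℚ K := by
    refine IntermediateField.finiteDimensional_adjoin ?_
    rintro _ ⟨i, rfl⟩
    exact hint i
  let β : Fin l ⊕ Fin m → K := fun i => ⟨x i, IntermediateField.subset_adjoin _ _ ⟨i, rfl⟩⟩
  have hβG : ∀ i, aeval (β i) (G i) = 0 := by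
    intro i
    have h : (algebraMap K ℂ) (aeval (β i) (G i)) = aeval (x i) (G i) := by
      rw [← aeval_algebraMap_apply]; rfl
    rw [hGx i] at h
    exact (map_eq_zero _).1 h
  set L : ℤ := ∏ i, (G0 i).leadingCoeff with hL
  have hL0 : L ≠ 0 := Finset.prod_ne_zero_iff.2 fun i _ => leadingCoeff_ne_zero.2 (hG0 i)
  have hLβ : ∀ i, IsIntegral ℤ ((L : K) * β i) := by
    rintro (i | i)
    · have h1 : IsIntegral ℤ ((G (Sum.inl i)).leadingCoeff • β (Sum.inl i)) :=
        isIntegral_leadingCoeff_smul _ _ (hβG (Sum.inl i))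
      rw [zsmul_eq_mul] at h1
      have h2 : (L : K) = ((∏ j ∈ Finset.univ.erase i, (G0 j).leadingCoeff : ℤ) : K) *
          (((G (Sum.inl i)).leadingCoeff : ℤ) : K) := by
        rw [← Int.cast_mul, hL, ← Finset.mul_prod_erase _ _ (Finset.mem_univ i), mul_comm]
        rfl
      rw [h2, mul_assoc]
      exact (isIntegral_algebraMap (R := ℤ) (A := K)).mul h1
    · refine IsIntegral.mul (isIntegral_algebraMap (R := ℤ) (A := K) (x := L)) ?_
      exact ⟨F i, hFm i, by rw [← aeval_def]; exact hβG (Sum.inr i)⟩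
  set y : K := (L : K) ^ D * MvPolynomial.aeval β P with hy
  have hyint : IsIntegral ℤ y := L3.isIntegral_pow_mul_aeval P β L hLβ
  have hyval : ∀ σ : K →ₐ[ℚ] ℂ, σ y = (L : ℂ) ^ D * MvPolynomial.aeval (fun i => σ (β i)) P := by
    intro σ
    rw [hy, map_mul, map_pow, map_intCast]
    congr 1
    rw [MvPolynomial.aeval_def, MvPolynomial.aeval_def, MvPolynomial.eval₂_eq', MvPolynomial.eval₂_eq',
      map_sum]
    refine Finset.sum_congr rfl fun m _ => ?_
    rw [map_mul, map_prod]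
    simp
  have hyα : (K.val) y = (L : ℂ) ^ D * MvPolynomial.aeval x P := hyval K.val
  have hy0 : y ≠ 0 := by
    intro h
    rw [h, map_zero] at hyα
    have : (L : ℂ) ^ D ≠ 0 := pow_ne_zero _ (Int.cast_ne_zero.2 hL0)
    exact hv ((mul_eq_zero.1 hyα.symm).resolve_left this)
  -- norm
  have hnorm : (algebraMap ℚ ℂ) (Algebra.norm ℚ y) = ∏ σ : K →ₐ[ℚ] ℂ, σ y :=
    Algebra.norm_eq_prod_embeddings ℚ ℂ y
  have hnint : IsIntegral ℤ (Algebra.norm ℚ y) := Algebra.isIntegral_norm ℚ hyint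
  obtain ⟨N, hN⟩ := IsIntegrallyClosed.isIntegral_iff.1 hnint
  have hN0 : N ≠ 0 := by
    rintro rfl
    rw [map_zero] at hN
    exact hy0 (Algebra.norm_eq_zero_iff.1 hN.symm)
  have hprod : 1 ≤ ∏ σ : K →ₐ[ℚ] ℂ, ‖σ y‖ := by
    rw [← norm_prod, ← hnorm, ← hN]
    have : ‖(algebraMap ℚ ℂ) ((algebraMap ℤ ℚ) N)‖ = |(N : ℝ)| := by
      simp
    rw [this]
    exact_mod_cast Int.one_le_abs hN0
  -- the conjugates
  set T : Fin l ⊕ Fin m → Finset ℂ := fun o => ((G o).aroots ℂ).toFinset with hT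
  have hσT : ∀ (σ : K →ₐ[ℚ] ℂ) (o : Fin l ⊕ Fin m), σ (β o) ∈ T o := by
    intro σ o
    rw [hT, Multiset.mem_toFinset, mem_aroots]
    refine ⟨hGne o, ?_⟩
    have h : aeval (σ (β o)) (G o) = σ (aeval (β o) (G o)) := by
      rw [aeval_def, aeval_def, ← AlgHom.coe_toRingHom, hom_eval₂]
      congr 1
      exact RingHom.ext_int _ _
    rw [h, hβG o, map_zero]
  have hTcard : ∀ o, (T o).card ≤ (G o).natDegree := by
    intro o
    refine (Multiset.toFinset_card_le _).trans ?_
    exact (card_roots' _).trans natDegree_map_le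
  have hTn : ∀ i, (T (Sum.inl i)).card ≤ 2 := fun i => (hTcard (Sum.inl i)).trans (hG0deg i)
  have hTs : ∀ i, (T (Sum.inr i)).card ≤ d := fun i => (hTcard (Sum.inr i)).trans (hFdeg i)
  have hinj : ∀ σ τ : K →ₐ[ℚ] ℂ, (∀ o, σ (β o) = τ (β o)) → σ = τ := by
    intro σ τ hστ
    refine IntermediateField.algHom_ext_of_eq_adjoin ℚ hK ?_
    rintro _ ⟨i, rfl⟩
    exact hστ i
  -- number of embeddings
  have hcount : ∀ (S : Finset (K →ₐ[ℚ] ℂ)) (U : Fin l ⊕ Fin m → Finset ℂ),
      (∀ σ ∈ S, ∀ o, σ (β o) ∈ U o) → S.card ≤ ∏ o, (U o).card := by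
    intro S U hU
    rw [← Fintype.card_piFinset]
    apply Finset.card_le_card_of_injOn (fun σ o => σ (β o))
    · intro σ hσ
      exact Finset.mem_coe.2 (Fintype.mem_piFinset.2 fun o => hU σ hσ o)
    · intro σ _ τ _ h
      exact hinj σ τ fun o => congrFun h o
  have hcard : (Finset.univ : Finset (K →ₐ[ℚ] ℂ)).card ≤ 2 ^ l * d ^ m := by
    refine (hcount _ T fun σ _ o => hσT σ o).trans ?_
    rw [Fintype.prod_sum_type]
    refine Nat.mul_le_mul ?_ ?_
    · calc ∏ i, (T (Sum.inl i)).card ≤ ∏ _i : Fin l, 2 := Finset.prod_le_prod' fun i _ => hTn i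
        _ = 2 ^ l := by simp
    · calc ∏ i, (T (Sum.inr i)).card ≤ ∏ _i : Fin m, d := Finset.prod_le_prod' fun i _ => hTs i
        _ = d ^ m := by simp
  -- product over the embeddings of the sizes of one generator
  have hone : ∀ o : Fin l ⊕ Fin m, (1 : ℝ) ≤ ∏ σ : K →ₐ[ℚ] ℂ, max 1 ‖σ (β o)‖ := fun o =>
    one_le_prod_max _ _
  have hgen : ∀ i : Fin m, ∏ σ : K →ₐ[ℚ] ℂ, max 1 ‖σ (β (Sum.inr i))‖ ≤
      Real.exp (2 ^ l * (d : ℝ) ^ m) := by
    intro i
    have hm1 : 1 ≤ m := by have := i.2; omega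
    have hfib : ∀ r ∈ T (Sum.inr i),
        (Finset.univ.filter (fun σ : K →ₐ[ℚ] ℂ => σ (β (Sum.inr i)) = r)).card ≤
          2 ^ l * d ^ (m - 1) := by
      intro r _
      refine (hcount _ (Function.update T (Sum.inr i) {r}) ?_).trans ?_
      · intro σ hσ o
        rcases eq_or_ne o (Sum.inr i) with rfl | ho
        · rw [Function.update_self]
          exact Finset.mem_singleton.2 (Finset.mem_filter.1 hσ).2
        · rw [Function.update_of_ne ho]
          exact hσT σ o
      · rw [Fintype.prod_sum_type]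
        have h1 : ∏ j, (Function.update T (Sum.inr i) {r} (Sum.inl j)).card ≤ 2 ^ l := by
          calc ∏ j, (Function.update T (Sum.inr i) {r} (Sum.inl j)).card ≤ ∏ _j : Fin l, 2 := by
                apply Finset.prod_le_prod'
                intro j _
                rw [Function.update_of_ne (by simp)]; exact hTn j
            _ = 2 ^ l := by simp
        refine Nat.mul_le_mul h1 ?_
        rw [← Finset.mul_prod_erase _ _ (Finset.mem_univ i), Function.update_self,
          Finset.card_singleton, one_mul]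
        calc ∏ j ∈ Finset.univ.erase i, (Function.update T (Sum.inr i) {r} (Sum.inr j)).card
            ≤ ∏ _j ∈ Finset.univ.erase i, d := by
              apply Finset.prod_le_prod'
              intro j hj
              have hji : (Sum.inr j : Fin l ⊕ Fin m) ≠ Sum.inr i := by
                intro h
                exact (Finset.ne_of_mem_erase hj) (Sum.inr.inj h)
              rw [Function.update_of_ne hji]
              exact hTs j
          _ = d ^ (m - 1) := by
              rw [Finset.prod_const, Finset.card_erase_of_mem (Finset.mem_univ _),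
                Finset.card_univ, Fintype.card_fin]
    rw [← Finset.prod_fiberwise_of_maps_to (g := fun σ : K →ₐ[ℚ] ℂ => σ (β (Sum.inr i)))
      (t := T (Sum.inr i)) (fun σ _ => hσT σ (Sum.inr i))]
    have h1 : ∀ r ∈ T (Sum.inr i),
        ∏ σ ∈ Finset.univ.filter (fun σ : K →ₐ[ℚ] ℂ => σ (β (Sum.inr i)) = r),
          max 1 ‖σ (β (Sum.inr i))‖ ≤ (max 1 ‖r‖) ^ (2 ^ l * d ^ (m - 1)) := by
      intro r hr
      have h2 : ∏ σ ∈ Finset.univ.filter (fun σ : K →ₐ[ℚ] ℂ => σ (β (Sum.inr i)) = r),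
          max 1 ‖σ (β (Sum.inr i))‖ =
          (max 1 ‖r‖) ^ (Finset.univ.filter
            (fun σ : K →ₐ[ℚ] ℂ => σ (β (Sum.inr i)) = r)).card := by
        rw [← Finset.prod_const]
        apply Finset.prod_congr rfl
        intro σ hσ
        rw [(Finset.mem_filter.1 hσ).2]
      rw [h2]
      exact pow_le_pow_right₀ (le_max_left _ _) (hfib r hr)
    calc ∏ r ∈ T (Sum.inr i), ∏ σ ∈ Finset.univ.filter (fun σ : K →ₐ[ℚ] ℂ => σ (β (Sum.inr i)) = r),
          max 1 ‖σ (β (Sum.inr i))‖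
        ≤ ∏ r ∈ T (Sum.inr i), (max 1 ‖r‖) ^ (2 ^ l * d ^ (m - 1)) :=
          Finset.prod_le_prod (fun r _ => Finset.prod_nonneg fun _ _ => by positivity) h1
      _ = (∏ r ∈ T (Sum.inr i), max 1 ‖r‖) ^ (2 ^ l * d ^ (m - 1)) := by rw [Finset.prod_pow]
      _ ≤ (Real.exp d) ^ (2 ^ l * d ^ (m - 1)) := by
          apply pow_le_pow_left₀ (Finset.prod_nonneg fun _ _ => by positivity)
          exact hFprod i
      _ = Real.exp (2 ^ l * (d : ℝ) ^ m) := by
          rw [← Real.exp_nat_mul]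
          congr 1
          push_cast
          have : (d : ℝ) ^ m = (d : ℝ) ^ (m - 1) * d := by
            rw [← pow_succ, Nat.sub_add_cancel hm1]
          rw [this]; ring
  have hHr : (2 : ℝ) ≤ H := by exact_mod_cast hH
  have hgen0 : ∀ i : Fin l, ∏ σ : K →ₐ[ℚ] ℂ, max 1 ‖σ (β (Sum.inl i))‖ ≤
      (2 * (H : ℝ)) ^ (2 ^ l * d ^ m) := by
    intro i
    calc ∏ σ : K →ₐ[ℚ] ℂ, max 1 ‖σ (β (Sum.inl i))‖ ≤ ∏ _σ : K →ₐ[ℚ] ℂ, (2 * (H : ℝ)) := by
          apply Finset.prod_le_prod (fun _ _ => by positivity)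
          intro σ _
          apply max_le (by linarith)
          exact hG0roots i _ (Multiset.mem_toFinset.1 (hσT σ (Sum.inl i)))
      _ = (2 * (H : ℝ)) ^ (Finset.univ : Finset (K →ₐ[ℚ] ℂ)).card := by
          rw [Finset.prod_const]
      _ ≤ _ := pow_le_pow_right₀ (by linarith) hcard
  -- bounds of the conjugates of `y`
  have hcS : 1 ≤ cSum P := one_le_cSum (by rintro rfl; exact hv (map_zero _))
  have hcSr : (1 : ℝ) ≤ cSum P := by exact_mod_cast hcS
  have hLabs : ‖(L : ℂ)‖ ≤ (H : ℝ) ^ l := by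
    rw [hL, Int.cast_prod, norm_prod]
    calc ∏ i, ‖(((G0 i).leadingCoeff : ℤ) : ℂ)‖ ≤ ∏ _i : Fin l, (H : ℝ) := by
          apply Finset.prod_le_prod (fun _ _ => norm_nonneg _)
          intro i _
          rw [Complex.norm_intCast]; exact hG0lc i
      _ = (H : ℝ) ^ l := by simp
  set b : (K →ₐ[ℚ] ℂ) → ℝ := fun σ =>
    ((H : ℝ) ^ l) ^ D * ((cSum P : ℝ) * (∏ o, max 1 ‖σ (β o)‖) ^ D) with hb
  have hb1 : ∀ σ, 1 ≤ b σ := by
    intro σ
    have h1 : (1 : ℝ) ≤ ((H : ℝ) ^ l) ^ D := one_le_pow₀ (one_le_pow₀ (by linarith))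
    have h2 : (1 : ℝ) ≤ (∏ o, max 1 ‖σ (β o)‖) ^ D :=
      one_le_pow₀ (one_le_prod_max _ _)
    exact one_le_mul_of_one_le_of_one_le h1 (one_le_mul_of_one_le_of_one_le hcSr h2)
  have hyb : ∀ σ, ‖σ y‖ ≤ b σ := by
    intro σ
    rw [hyval σ, norm_mul, norm_pow]
    exact mul_le_mul (pow_le_pow_left₀ (norm_nonneg _) hLabs _)
      (L3.norm_aeval_le P (fun i => σ (β i))) (norm_nonneg _) (by positivity)
  have hprodb : ∏ σ, b σ ≤ (((H : ℝ) ^ l) ^ D * cSum P) ^ (2 ^ l * d ^ m) *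
      (((2 * (H : ℝ)) ^ (2 ^ l * d ^ m)) ^ l * Real.exp (2 ^ l * (d : ℝ) ^ m) ^ m) ^ D := by
    have h1 : ∏ σ, b σ = (((H : ℝ) ^ l) ^ D * cSum P) ^ (Finset.univ : Finset (K →ₐ[ℚ] ℂ)).card *
        (∏ o, ∏ σ : K →ₐ[ℚ] ℂ, max 1 ‖σ (β o)‖) ^ D := by
      rw [Finset.prod_comm, ← Finset.prod_pow, ← Finset.prod_const, ← Finset.prod_mul_distrib]
      apply Finset.prod_congr rfl
      intro σ _
      rw [hb]; ring
    rw [h1]
    apply mul_le_mul
    · apply pow_le_pow_right₀ _ hcard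
      exact one_le_mul_of_one_le_of_one_le (one_le_pow₀ (one_le_pow₀ (by linarith))) hcSr
    · apply pow_le_pow_left₀ (Finset.prod_nonneg fun _ _ =>
        Finset.prod_nonneg fun _ _ => by positivity)
      rw [Fintype.prod_sum_type]
      have hgen0' : ∏ i, ∏ σ : K →ₐ[ℚ] ℂ, max 1 ‖σ (β (Sum.inl i))‖ ≤
          ((2 * (H : ℝ)) ^ (2 ^ l * d ^ m)) ^ l := by
        calc ∏ i, ∏ σ : K →ₐ[ℚ] ℂ, max 1 ‖σ (β (Sum.inl i))‖
            ≤ ∏ _i : Fin l, (2 * (H : ℝ)) ^ (2 ^ l * d ^ m) :=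
              Finset.prod_le_prod (fun _ _ => Finset.prod_nonneg fun _ _ => by positivity)
                fun i _ => hgen0 i
          _ = _ := by simp
      apply mul_le_mul hgen0' _ (Finset.prod_nonneg fun _ _ =>
        Finset.prod_nonneg fun _ _ => by positivity) (by positivity)
      calc ∏ i, ∏ σ : K →ₐ[ℚ] ℂ, max 1 ‖σ (β (Sum.inr i))‖
          ≤ ∏ _i : Fin m, Real.exp (2 ^ l * (d : ℝ) ^ m) :=
            Finset.prod_le_prod (fun _ _ => Finset.prod_nonneg fun _ _ => by positivity)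
              fun i _ => hgen i
        _ = Real.exp (2 ^ l * (d : ℝ) ^ m) ^ m := by simp
    · exact pow_nonneg (Finset.prod_nonneg fun _ _ =>
        Finset.prod_nonneg fun _ _ => by positivity) _
    · positivity
  -- in terms of the exponential function
  have hHpos : (0 : ℝ) < H := by linarith
  have hlogH : 0 ≤ Real.log H := Real.log_nonneg (by linarith)
  have hexpH : (H : ℝ) = Real.exp (Real.log H) := (Real.exp_log hHpos).symm
  have h2H : (2 * (H : ℝ)) ≤ Real.exp (1 + Real.log H) := by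
    rw [Real.exp_add, Real.exp_log hHpos]
    have := Real.add_one_le_exp (1 : ℝ)
    exact mul_le_mul_of_nonneg_right (by linarith) hHpos.le
  have hcSe : (cSum P : ℝ) ≤ Real.exp (cSum P) := by
    linarith [Real.add_one_le_exp (cSum P : ℝ)]
  have hdm : (1 : ℝ) ≤ (d : ℝ) ^ m := one_le_pow₀ (by exact_mod_cast hd)
  set E : ℝ := (1 + Real.log H) * (d : ℝ) ^ m with hE
  have hbig : ∏ σ, b σ ≤ Real.exp ((2 ^ l * (3 * l * D + cSum P + m * D) : ℕ) * E) := by
    refine hprodb.trans ?_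
    have e1 : ((H : ℝ) ^ l) ^ D * cSum P ≤ Real.exp (D * (l * Real.log H) + cSum P) := by
      rw [Real.exp_add, Real.exp_nat_mul, Real.exp_nat_mul, Real.exp_log hHpos]
      exact mul_le_mul_of_nonneg_left hcSe (by positivity)
    calc (((H : ℝ) ^ l) ^ D * cSum P) ^ (2 ^ l * d ^ m) *
        (((2 * (H : ℝ)) ^ (2 ^ l * d ^ m)) ^ l * Real.exp (2 ^ l * (d : ℝ) ^ m) ^ m) ^ D
        ≤ Real.exp (D * (l * Real.log H) + cSum P) ^ (2 ^ l * d ^ m) *
        ((Real.exp (1 + Real.log H) ^ (2 ^ l * d ^ m)) ^ l *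
          Real.exp (2 ^ l * (d : ℝ) ^ m) ^ m) ^ D := by
          gcongr
      _ = Real.exp (2 ^ l * (d : ℝ) ^ m * (D * (l * Real.log H) + cSum P +
            D * (l * (1 + Real.log H)) + m * D)) := by
          rw [← Real.exp_nat_mul, ← Real.exp_nat_mul, ← Real.exp_nat_mul, ← Real.exp_nat_mul,
            ← Real.exp_add, ← Real.exp_nat_mul, ← Real.exp_add]
          congr 1
          push_cast; ring
      _ ≤ _ := by
          apply Real.exp_le_exp.2
          have e2 : D * (l * Real.log H) + cSum P + D * (l * (1 + Real.log H)) + m * D ≤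
              (3 * l * D + cSum P + m * D) * (1 + Real.log H) := by
            have f1 : 0 ≤ (D * l : ℝ) * Real.log H := by positivity
            have f2 : 0 ≤ (cSum P : ℝ) * Real.log H := by positivity
            have f3 : 0 ≤ (m * D : ℝ) * Real.log H := by positivity
            have f4 : 0 ≤ (D * l : ℝ) := by positivity
            nlinarith
          have e3 : 2 ^ l * (d : ℝ) ^ m * (D * (l * Real.log H) + cSum P +
              D * (l * (1 + Real.log H)) + m * D) ≤
              2 ^ l * (d : ℝ) ^ m * ((3 * l * D + cSum P + m * D) * (1 + Real.log H)) :=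
            mul_le_mul_of_nonneg_left e2 (by positivity)
          refine e3.trans (le_of_eq ?_)
          rw [hE]; push_cast; ring
  have hsplit : ∏ σ : K →ₐ[ℚ] ℂ, ‖σ y‖ =
      ‖(K.val) y‖ * ∏ σ ∈ Finset.univ.erase K.val, ‖σ y‖ :=
    (Finset.mul_prod_erase Finset.univ (fun σ : K →ₐ[ℚ] ℂ => ‖σ y‖) (Finset.mem_univ K.val)).symm
  have hrest : ∏ σ ∈ Finset.univ.erase K.val, ‖σ y‖ ≤ ∏ σ, b σ := by
    calc ∏ σ ∈ Finset.univ.erase K.val, ‖σ y‖ ≤ ∏ σ ∈ Finset.univ.erase K.val, b σ :=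
          Finset.prod_le_prod (fun _ _ => norm_nonneg _) fun σ _ => hyb σ
      _ = 1 * ∏ σ ∈ Finset.univ.erase K.val, b σ := (one_mul _).symm
      _ ≤ b K.val * ∏ σ ∈ Finset.univ.erase K.val, b σ :=
          mul_le_mul_of_nonneg_right (hb1 _)
            (Finset.prod_nonneg fun σ _ => (zero_le_one.trans (hb1 σ)))
      _ = ∏ σ, b σ := Finset.mul_prod_erase Finset.univ b (Finset.mem_univ K.val)
  have hval : ‖(K.val) y‖ ≤ Real.exp (l * D * E) * ‖MvPolynomial.aeval x P‖ := by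
    rw [hyα, norm_mul, norm_pow]
    refine mul_le_mul_of_nonneg_right ?_ (norm_nonneg _)
    refine (pow_le_pow_left₀ (norm_nonneg _) hLabs _).trans ?_
    rw [hexpH, ← Real.exp_nat_mul, ← Real.exp_nat_mul]
    apply Real.exp_le_exp.2
    have g1 : Real.log H ≤ E := by
      rw [hE]
      nlinarith
    calc (D : ℝ) * (l * Real.log H) = l * D * Real.log H := by ring
      _ ≤ l * D * E := mul_le_mul_of_nonneg_left g1 (by positivity)
  have hfin : 1 ≤ Real.exp ((2 ^ l * (3 * l * D + cSum P + m * D) + l * D : ℕ) * E) *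
      ‖MvPolynomial.aeval x P‖ := by
    calc (1 : ℝ) ≤ ‖(K.val) y‖ * ∏ σ ∈ Finset.univ.erase K.val, ‖σ y‖ := by
          rw [← hsplit]; exact hprod
      _ ≤ (Real.exp (l * D * E) * ‖MvPolynomial.aeval x P‖) *
          Real.exp ((2 ^ l * (3 * l * D + cSum P + m * D) : ℕ) * E) :=
          mul_le_mul hval (hrest.trans hbig) (Finset.prod_nonneg fun _ _ => norm_nonneg _)
            (by positivity)
      _ = _ := by
          have : Real.exp ((2 ^ l * (3 * l * D + cSum P + m * D) + l * D : ℕ) * E) =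
              Real.exp ((2 ^ l * (3 * l * D + cSum P + m * D) : ℕ) * E) * Real.exp (l * D * E) := by
            rw [← Real.exp_add]; congr 1; push_cast; ring
          rw [this]; ring
  have hgoal : ((2 ^ l * (3 * l * D + cSum P + m * D) + l * D : ℕ) : ℝ) * (1 + Real.log H) * (d : ℝ) ^ m =
      ((2 ^ l * (3 * l * D + cSum P + m * D) + l * D : ℕ) : ℝ) * E := by rw [hE]; ring
  rw [hgoal, Real.exp_neg]
  exact (inv_le_iff_one_le_mul₀' (Real.exp_pos _)).2 hfin

end Pool.Agent.Lib.MP_47914d_nt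
end

section
set_option autoImplicit false

open Complex Filter Topology

namespace Pool.Agent.Lib.MP_47914d_nt

theorem specArc_all : SpecArc :=
  specArc specHolo (specWPol specParam specHolo) (specWDiv specParam) specDerExt

theorem specStepC_all : SpecStepC := specStepC specDerExt specPlace

theorem specLinkB_all : SpecLinkB := specLinkB specRam specJ specMahler_all

theorem specLinkC_all : SpecLinkC := specLinkC specRam specJ specMahler_all (specInj specJ)

theorem specNoRicc_all : SpecNoRicc := specNoRicc specDerExt specExt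

theorem full_all {n : ℕ} (hn : 0 < n) (z : Fin n → ℂ)
    (him : ∀ i, 0 < (z i).im)
    (hcm : ∀ i, ¬ ∃ a b c : ℤ, (a ≠ 0 ∨ b ≠ 0 ∨ c ≠ 0) ∧
      (a : ℂ) * z i ^ 2 + (b : ℂ) * z i + (c : ℂ) = 0)
    (hne : ∀ i k, i ≠ k → ¬ ∃ a b c d : ℚ, 0 < a * d - b * c ∧
      z k * ((c : ℂ) * z i + (d : ℂ)) = (a : ℂ) * z i + (b : ℂ)) {s : ℝ} (hs : (n : ℝ) < s)
    (happ : ∃ᶠ H : ℕ in atTop, ∃ κ, Good z s H κ) :
    ∃ w : Fin (n + 1) → Fin n ⊕ Fin n, AlgebraicIndependent ℚ (fun m => ptf z (w m)) :=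
  full specJ specRam specMahler_all specExt specDer0 specGour specStepC_all specRicc
    specNoRicc_all specGauge specTwist specAut specLinkB_all specLinkC_all specClass_all specLiou4
    specArc_all hn z him hcm hne hs happ

end Pool.Agent.Lib.MP_47914d_nt
end
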