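import Mathlib

/-!
Definitions and module specifications for the partial result on MP_47914d_nt
(modular Schanuel conjecture on orbits of CM-Liouville points).
-/

set_option autoImplicit false

open UpperHalfPlane ModularForm Complex Polynomial Filter Topology
open scoped Real MatrixGroups

namespace Pool.Agent.Lib.MP_47914d_nt

/-- The Klein invariant on the upper half plane. -/
noncomputable def J (z : ℍ) : ℂ := E₄ z ^ 3 / discriminant z

/-- The Klein invariant on `ℂ`, extended by `0` outside the upper half plane. -/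
noncomputable def Jc (w : ℂ) : ℂ := if h : 0 < w.im then J ⟨w, h⟩ else 0

/-- The frozen formula for `j`. -/
noncomputable def jFormula (τ : ℂ) : ℂ :=
  1728 * (60 * ∑' p : ℤ × ℤ, 1 / ((p.1 : ℂ) * τ + (p.2 : ℂ)) ^ 4) ^ 3 /
    ((60 * ∑' p : ℤ × ℤ, 1 / ((p.1 : ℂ) * τ + (p.2 : ℂ)) ^ 4) ^ 3 -
      27 * (140 * ∑' p : ℤ × ℤ, 1 / ((p.1 : ℂ) * τ + (p.2 : ℂ)) ^ 6) ^ 2)

/-- `κ` is a zero of a nonzero integer polynomial of degree at most two with coefficients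
bounded by `H`. -/
def QuadHeight (κ : ℂ) (H : ℕ) : Prop :=
  ∃ a b c : ℤ, (a ≠ 0 ∨ b ≠ 0 ∨ c ≠ 0) ∧ |a| ≤ H ∧ |b| ≤ H ∧ |c| ≤ H ∧
    (a : ℂ) * κ ^ 2 + (b : ℂ) * κ + (c : ℂ) = 0

/-- `α` is a zero of a nonzero integer polynomial of degree at most `B`, all of whose complex
zeros and whose leading coefficient are at most `exp B` in absolute value. -/
def AlgData (α : ℂ) (B : ℕ) : Prop :=
  ∃ F : ℤ[X], F ≠ 0 ∧ aeval α F = 0 ∧ F.natDegree ≤ B ∧
    |(F.leadingCoeff : ℝ)| ≤ Real.exp B ∧ ∀ r ∈ F.aroots ℂ, ‖r‖ ≤ Real.exp B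

/-- The real quadratic form describing the disc `{t | 0 < Im ((α t + β) / (γ t + δ))}`. -/
noncomputable def Qf (α β γ δ t : ℂ) : ℝ :=
  ((α * t + β) * (starRingEnd ℂ) (γ * t + δ)).im

/-- Sum of `f` over the upper triangular representatives of integral matrices of determinant `N`. -/
noncomputable def heckeSum (N : ℕ) (f : ℂ → ℂ) (z : ℂ) : ℂ :=
  ∑ p ∈ N.divisorsAntidiagonal, ∑ b ∈ Finset.range p.2, f (((p.1 : ℂ) * z + (b : ℂ)) / (p.2 : ℂ))

/-- `f` has an integral Laurent expansion in `q` with a pole of order at most `L`. -/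
def IntLaurent (f : ℂ → ℂ) (L : ℕ) : Prop :=
  ∃ c : ℕ → ℤ, ∀ z : ℂ, 0 < z.im →
    HasSum (fun n : ℕ => (c n : ℂ) * cexp (2 * π * Complex.I * z) ^ n) (f z * cexp (2 * π * Complex.I * z) ^ L)

/-- Invariance under `SL₂(ℤ)` (generators). -/
def Inv (f : ℂ → ℂ) : Prop :=
  ∀ z : ℂ, 0 < z.im → f (z + 1) = f z ∧ f (-1 / z) = f z

/-! ### Specifications (each is proved in its own module) -/

/-- JF: the frozen formula is `Jc`. -/
def SpecFormula : Prop := ∀ τ : ℂ, 0 < τ.im → jFormula τ = Jc τ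

/-- JA: holomorphy, invariance, growth, surjectivity of `Jc`. -/
structure SpecJ : Prop where
  holo : DifferentiableOn ℂ Jc {w | 0 < w.im}
  smul : ∀ (γ : SL(2, ℤ)) (z : ℍ), J (γ • z) = J z
  inv : Inv Jc
  growth : ∃ C : ℝ, ∀ w : ℂ, 1 ≤ w.im → ‖Jc w - cexp (-(2 * π * Complex.I * w))‖ ≤ C
  surj : ∀ r : ℂ, ∃ w : ℂ, 1 / 2 ≤ w.im ∧ Jc w = r

/-- JL: `Jc` has an integral Laurent expansion with a simple pole and residue one. -/
def SpecJLaurent : Prop :=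
  ∃ c : ℕ → ℤ, c 0 = 1 ∧ ∀ z : ℂ, 0 < z.im →
    HasSum (fun n : ℕ => (c n : ℂ) * cexp (2 * π * Complex.I * z) ^ n) (Jc z * cexp (2 * π * Complex.I * z) ^ 1)

/-- PJ: invariant holomorphic functions with integral Laurent expansions are integral polynomials
in `Jc`. -/
def SpecPolyJ : Prop :=
  ∀ (f : ℂ → ℂ) (L : ℕ), DifferentiableOn ℂ f {w | 0 < w.im} → Inv f → IntLaurent f L →
    ∃ Q : ℤ[X], Q.natDegree ≤ L ∧ ∀ z : ℂ, 0 < z.im → f z = aeval (Jc z) Q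

/-- HI: Hecke sums of invariant functions are invariant. -/
def SpecHeckeInv : Prop :=
  ∀ (f : ℂ → ℂ) (N : ℕ), 0 < N → Inv f → Inv (heckeSum N f)

/-- HL: Hecke sums preserve integral Laurent expansions. -/
def SpecHeckeLaurent : Prop :=
  ∀ (f : ℂ → ℂ) (L N : ℕ), 0 < N → IntLaurent f L → IntLaurent (heckeSum N f) (L * N)

/-- NW: from integral power sums to the (denominator cleared) modular polynomial on the diagonal. -/
def SpecNewton : Prop :=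
  ∀ (N : ℕ), 0 < N →
    (∀ m : ℕ, ∃ Q : ℤ[X], Q.natDegree ≤ m * N ∧
      ∀ z : ℂ, 0 < z.im → heckeSum N (fun w => Jc w ^ m) z = aeval (Jc z) Q) →
    ∃ Ψ : ℤ[X], Ψ.natDegree ≤ N ^ 4 + 1 ∧ ∀ z : ℂ, 0 < z.im →
      aeval (Jc z) Ψ = ((∑ p ∈ N.divisorsAntidiagonal, p.2).factorial : ℂ) *
        ∏ p ∈ N.divisorsAntidiagonal, ∏ b ∈ Finset.range p.2,
          (Jc z - Jc (((p.1 : ℂ) * z + (b : ℂ)) / (p.2 : ℂ)))

/-- CM: polynomial control of singular moduli. -/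
def SpecCM : Prop :=
  ∃ C : ℕ, ∀ H : ℕ, 2 ≤ H → ∀ κ : ℂ, 0 < κ.im → QuadHeight κ H → AlgData (Jc κ) (H ^ C)

/-- LI: Liouville inequality for several algebraic numbers. -/
def SpecLiouville : Prop :=
  ∀ (n : ℕ) (P : MvPolynomial (Fin n) ℤ), ∃ C : ℕ, ∀ B : ℕ, 2 ≤ B → ∀ α : Fin n → ℂ,
    (∀ i, AlgData (α i) B) →
      MvPolynomial.aeval α P = 0 ∨ Real.exp (-(B : ℝ) ^ C) ≤ ‖MvPolynomial.aeval α P‖

/-- FI: functional independence of `t, j(g₁ t), …, j(gₙ t)` for pairwise distinct discs. -/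
def SpecFunc : Prop :=
  ∀ (n : ℕ) (α β γ δ : Fin n → ℂ) (θ : ℂ),
    (∀ i, α i * δ i - β i * γ i ≠ 0) →
    (∀ i, 0 < Qf (α i) (β i) (γ i) (δ i) θ) →
    (∀ i k, i ≠ k → ¬ ∃ c : ℝ, ∀ t : ℂ,
      Qf (α i) (β i) (γ i) (δ i) t = c * Qf (α k) (β k) (γ k) (δ k) t) →
    ∀ P : MvPolynomial (Option (Fin n)) ℂ, P ≠ 0 →
      ¬ ∀ᶠ t in 𝓝 θ, MvPolynomial.eval
        (fun o : Option (Fin n) => o.elim t
          (fun i => Jc ((α i * t + β i) / (γ i * t + δ i)))) P = 0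

end Pool.Agent.Lib.MP_47914d_nt
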