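import Pool.Agent.Lib.MP_47914d_nt.Defs4

/-!
Basic closure properties of `Holo` (for MP_47914d_nt).
-/

set_option autoImplicit false

open Complex Filter Topology Metric

namespace Pool.Agent.Lib.MP_47914d_nt.HoloApi

variable {E : Type} [NormedAddCommGroup E] [NormedSpace ℂ E] {f g : E → ℂ} {z : E}

theorem ev (h : Holo f z) : ∀ᶠ x in 𝓝 z, Holo f x :=
  eventually_eventually_nhds.2 h

theorem diffAt (h : Holo f z) : DifferentiableAt ℂ f z := h.self_of_nhds

theorem congr (h : Holo f z) (hfg : ∀ᶠ x in 𝓝 z, g x = f x) : Holo g z := by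
  have h' : ∀ᶠ x in 𝓝 z, ∀ᶠ y in 𝓝 x, g y = f y := eventually_eventually_nhds.2 hfg
  filter_upwards [h, h'] with x h1 h2
  exact h1.congr_of_eventuallyEq h2

theorem const (c : ℂ) : Holo (fun _ : E => c) z :=
  Eventually.of_forall fun _ => differentiableAt_const c

theorem add (hf : Holo f z) (hg : Holo g z) : Holo (fun x => f x + g x) z := by
  filter_upwards [hf, hg] with x h1 h2 using h1.add h2

theorem sub (hf : Holo f z) (hg : Holo g z) : Holo (fun x => f x - g x) z := by
  filter_upwards [hf, hg] with x h1 h2 using h1.sub h2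

theorem neg (hf : Holo f z) : Holo (fun x => - f x) z := by
  filter_upwards [hf] with x h1 using h1.neg

theorem mul (hf : Holo f z) (hg : Holo g z) : Holo (fun x => f x * g x) z := by
  filter_upwards [hf, hg] with x h1 h2 using h1.mul h2

theorem pow (hf : Holo f z) (n : ℕ) : Holo (fun x => f x ^ n) z := by
  filter_upwards [hf] with x h1 using h1.pow n

theorem div (hf : Holo f z) (hg : Holo g z) (h0 : g z ≠ 0) : Holo (fun x => f x / g x) z := by
  have h : ∀ᶠ x in 𝓝 z, g x ≠ 0 := (diffAt hg).continuousAt.eventually_ne h0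
  filter_upwards [hf, hg, h] with x h1 h2 h3
  simp only [div_eq_mul_inv]
  exact h1.mul (h2.inv h3)

theorem sum {ι : Type} (s : Finset ι) {F : ι → E → ℂ} (h : ∀ i ∈ s, Holo (F i) z) :
    Holo (fun x => ∑ i ∈ s, F i x) z := by
  have h' : ∀ᶠ x in 𝓝 z, ∀ i ∈ s, DifferentiableAt ℂ (F i) x :=
    (Finset.eventually_all s).2 h
  filter_upwards [h'] with x h1
  exact DifferentiableAt.fun_sum h1

theorem of_differentiable {F : E → ℂ} (h : Differentiable ℂ F) : Holo F z :=
  Eventually.of_forall fun _ => h _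

theorem comp_of {E' : Type} [NormedAddCommGroup E'] [NormedSpace ℂ E'] {φ : E' → E} {z' : E'}
    (hφ : Differentiable ℂ φ) (hf : Holo f (φ z')) : Holo (fun x => f (φ x)) z' := by
  have h : ∀ᶠ x in 𝓝 z', DifferentiableAt ℂ f (φ x) :=
    hφ.continuous.continuousAt.eventually hf
  filter_upwards [h] with x h1
  exact h1.comp x (hφ x)

theorem fst {n : ℕ} {b : (Fin n → ℂ) → ℂ} {x : (Fin n → ℂ) × ℂ} (h : Holo b x.1) :
    Holo (fun y : (Fin n → ℂ) × ℂ => b y.1) x :=
  comp_of (φ := fun y : (Fin n → ℂ) × ℂ => y.1) differentiable_fst h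

theorem snd {n : ℕ} {x : (Fin n → ℂ) × ℂ} :
    Holo (fun y : (Fin n → ℂ) × ℂ => y.2) x :=
  of_differentiable differentiable_snd

end Pool.Agent.Lib.MP_47914d_nt.HoloApi
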