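import Pool.Agent.Lib.MP_47914d_nt.Liouville2

set_option autoImplicit false

open UpperHalfPlane hiding I
open ModularForm Complex Filter Topology
open scoped Real MatrixGroups CongruenceSubgroup Manifold

namespace Pool.Agent.Lib.MP_47914d_nt

/-- coefficientwise: integral power series. -/
noncomputable def toC : PowerSeries ℤ →+* PowerSeries ℂ := PowerSeries.map (Int.castRingHom ℂ)

lemma toC_inj : Function.Injective toC := by
  intro f g h
  ext n
  have := congrArg (fun s => PowerSeries.coeff n s) h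
  simpa [toC] using this

/-- The power series `∑_{n ≥ 1} σ_k(n) X^n`. -/
noncomputable def sig (k : ℕ) : PowerSeries ℤ :=
  PowerSeries.mk fun n => (ArithmeticFunction.sigma k n : ℤ)

/-- Integral `q`-expansion of `E₄`. -/
noncomputable def E4z : PowerSeries ℤ := 1 + PowerSeries.C 240 * sig 3

/-- Integral `q`-expansion of `E₆`. -/
noncomputable def E6z : PowerSeries ℤ := 1 - PowerSeries.C 504 * sig 5

lemma qE4 : qExpansion 1 E₄ = toC E4z := by
  ext n
  rw [EisensteinSeries.E_qExpansion_coeff _ (by decide)]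
  rcases eq_or_ne n 0 with rfl | hn
  · simp only [toC, sig, E4z, if_true, PowerSeries.coeff_map, map_add, PowerSeries.coeff_one,
      PowerSeries.coeff_C_mul, PowerSeries.coeff_mk]
    simp
  · simp only [toC, sig, E4z, hn, if_false, PowerSeries.coeff_map, map_add, PowerSeries.coeff_one,
      PowerSeries.coeff_C_mul, PowerSeries.coeff_mk, show bernoulli 4 = -1 / 30 by decide +kernel]
    norm_num

lemma qE6 : qExpansion 1 E₆ = toC E6z := by
  ext n
  rw [EisensteinSeries.E_qExpansion_coeff _ (by decide)]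
  rcases eq_or_ne n 0 with rfl | hn
  · simp only [toC, sig, E6z, if_true, PowerSeries.coeff_map, map_sub, PowerSeries.coeff_one,
      PowerSeries.coeff_C_mul, PowerSeries.coeff_mk]
    simp
  · simp only [toC, sig, E6z, hn, if_false, PowerSeries.coeff_map, map_sub, PowerSeries.coeff_one,
      PowerSeries.coeff_C_mul, PowerSeries.coeff_mk, show bernoulli 6 = 1 / 42 by decide +kernel]
    norm_num

lemma sig_cong (n : ℕ) : ∃ m : ℤ, 5 * (ArithmeticFunction.sigma 3 n : ℤ) +
    7 * (ArithmeticFunction.sigma 5 n : ℤ) = 12 * m := by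
  change (12 : ℤ) ∣ _
  rw [ArithmeticFunction.sigma_apply, ArithmeticFunction.sigma_apply]
  push_cast
  rw [Finset.mul_sum, Finset.mul_sum, ← Finset.sum_add_distrib]
  refine Finset.dvd_sum fun d _ => ?_
  have h : ∀ x : ZMod 12, 5 * x ^ 3 + 7 * x ^ 5 = 0 := by decide
  have := h (d : ZMod 12)
  have h2 := (ZMod.intCast_zmod_eq_zero_iff_dvd (5 * (d : ℤ) ^ 3 + 7 * (d : ℤ) ^ 5) 12).mp
  push_cast at h2
  exact h2 this

/-- Integral power series of the discriminant. -/
lemma exists_Dz : ∃ D : PowerSeries ℤ, E4z ^ 3 - E6z ^ 2 = PowerSeries.C 1728 * D := by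
  choose m hm using sig_cong
  refine ⟨PowerSeries.mk m + PowerSeries.C 100 * sig 3 ^ 2 + PowerSeries.C 8000 * sig 3 ^ 3 -
    PowerSeries.C 147 * sig 5 ^ 2, ?_⟩
  have h : PowerSeries.C (5 : ℤ) * sig 3 + PowerSeries.C 7 * sig 5 = PowerSeries.C 12 * PowerSeries.mk m := by
    ext n
    simp only [sig, map_add, PowerSeries.coeff_C_mul, PowerSeries.coeff_mk]
    exact hm n
  have e : ∀ k : ℕ, (PowerSeries.C (k : ℤ) : PowerSeries ℤ) = (k : PowerSeries ℤ) := fun k => by simp
  have e5 := e 5; have e7 := e 7; have e12 := e 12; have e240 := e 240; have e504 := e 504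
  have e100 := e 100; have e8000 := e 8000; have e147 := e 147; have e1728 := e 1728
  push_cast at e5 e7 e12 e240 e504 e100 e8000 e147 e1728
  rw [e5, e7, e12] at h
  simp only [E4z, E6z, e240, e504, e100, e8000, e147, e1728]
  linear_combination 144 * h

/-- Integral power series of the discriminant. -/
noncomputable def Dz : PowerSeries ℤ := exists_Dz.choose

lemma Dz_spec : E4z ^ 3 - E6z ^ 2 = PowerSeries.C 1728 * Dz := exists_Dz.choose_spec


lemma an_mul {f g : ℍ → ℂ} (hf : AnalyticAt ℂ (cuspFunction 1 f) 0)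
    (hg : AnalyticAt ℂ (cuspFunction 1 g) 0) : AnalyticAt ℂ (cuspFunction 1 (f * g)) 0 := by
  rw [cuspFunction_mul hf.continuousAt hg.continuousAt]
  exact hf.mul hg

lemma an_sub {f g : ℍ → ℂ} (hf : AnalyticAt ℂ (cuspFunction 1 f) 0)
    (hg : AnalyticAt ℂ (cuspFunction 1 g) 0) : AnalyticAt ℂ (cuspFunction 1 (f - g)) 0 := by
  rw [cuspFunction_sub hf.continuousAt hg.continuousAt]
  exact hf.sub hg

lemma an_E4 : AnalyticAt ℂ (cuspFunction 1 E₄) 0 :=
  ModularFormClass.analyticAt_cuspFunction_zero E₄ one_pos one_mem_strictPeriods_SL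

lemma an_E6 : AnalyticAt ℂ (cuspFunction 1 E₆) 0 :=
  ModularFormClass.analyticAt_cuspFunction_zero E₆ one_pos one_mem_strictPeriods_SL

lemma an_disc : AnalyticAt ℂ (cuspFunction 1 discriminant) 0 :=
  ModularFormClass.analyticAt_cuspFunction_zero CuspForm.discriminant one_pos
    one_mem_strictPeriods_SL

lemma qdisc : qExpansion 1 discriminant = toC Dz := by
  have h : (1728 : ℂ) • discriminant = (E₄ : ℍ → ℂ) * (E₄ * E₄) - E₆ * E₆ := by
    ext z
    simp only [Pi.smul_apply, smul_eq_mul, Pi.sub_apply, Pi.mul_apply]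
    rw [discriminant_eq_E₄_cube_sub_E₆_sq]
    ring
  have h2 := congrArg (qExpansion 1) h
  rw [qExpansion_smul an_disc, qExpansion_sub (an_mul an_E4 (an_mul an_E4 an_E4))
    (an_mul an_E6 an_E6), qExpansion_mul an_E4 (an_mul an_E4 an_E4), qExpansion_mul an_E4 an_E4,
    qExpansion_mul an_E6 an_E6, qE4, qE6] at h2
  have h3 : toC E4z * (toC E4z * toC E4z) - toC E6z * toC E6z = toC (E4z ^ 3 - E6z ^ 2) := by
    rw [map_sub, map_pow, map_pow]; ring
  rw [h3, Dz_spec, map_mul] at h2
  ext n
  have h4 := congrArg (PowerSeries.coeff n) h2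
  simp only [toC, PowerSeries.coeff_smul, PowerSeries.map_C, PowerSeries.coeff_C_mul,
    smul_eq_mul] at h4
  have h5 : (Int.castRingHom ℂ) 1728 = 1728 := by norm_num
  rw [h5] at h4
  exact mul_left_cancel₀ (by norm_num) h4

lemma Dz_coeff_zero : PowerSeries.coeff 0 Dz = 0 := by
  have h : PowerSeries.coeff 0 (qExpansion 1 discriminant) = 0 := by
    simpa using CuspFormClass.qExpansion_coeff_zero CuspForm.discriminant one_pos
      one_mem_strictPeriods_SL
  rw [qdisc] at h
  simpa [toC] using h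

lemma Dz_coeff_one : PowerSeries.coeff 1 Dz = 1 := by
  have h := discriminant_qExpansion_coeff_one
  rw [qdisc] at h
  simp only [toC, PowerSeries.coeff_map, eq_intCast] at h
  exact_mod_cast h

lemma exists_Dinv : ∃ u D' : PowerSeries ℤ, Dz = PowerSeries.X * D' ∧ D' * u = 1 ∧
    PowerSeries.coeff 0 u = 1 := by
  have hX : PowerSeries.X ∣ Dz := by
    rw [PowerSeries.X_dvd_iff]
    simpa using Dz_coeff_zero
  obtain ⟨D', hD'⟩ := hX
  have h1 : PowerSeries.coeff 0 D' = 1 := by
    have := Dz_coeff_one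
    rw [hD', show (1 : ℕ) = 0 + 1 from rfl, PowerSeries.coeff_succ_X_mul] at this
    exact this
  have hu : IsUnit D' := by
    rw [PowerSeries.isUnit_iff_constantCoeff]
    simp only [PowerSeries.coeff_zero_eq_constantCoeff] at h1
    rw [h1]
    exact isUnit_one
  obtain ⟨u, hu⟩ := hu.exists_right_inv
  refine ⟨u, D', hD', hu, ?_⟩
  have := congrArg (PowerSeries.coeff 0) hu
  rw [PowerSeries.coeff_mul] at this
  simpa [h1] using this

/-- The function `q` on the upper half plane. -/
noncomputable def qf (z : ℍ) : ℂ := Function.Periodic.qParam 1 z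

lemma qf_eq (z : ℍ) : qf z = cexp (2 * π * Complex.I * z) := by
  simp [qf, Function.Periodic.qParam]

/-- `j q` on the upper half plane. -/
noncomputable def Jq : ℍ → ℂ := J * qf

lemma Jq_mul : Jq * discriminant = (E₄ : ℍ → ℂ) * (E₄ * E₄) * qf := by
  ext z
  have := discriminant_ne_zero z
  simp only [Jq, J, Pi.mul_apply]
  field_simp

lemma periodic_of {f : ℍ → ℂ} {g : ℂ → ℂ} (h : ∀ z : ℍ, f z = g z)
    (hg : ∀ z : ℂ, 0 < z.im → g (z + 1) = g z) : Function.Periodic (f ∘ ofComplex) (1 : ℝ) := by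
  intro w
  by_cases hw : 0 < w.im
  · have h1 : 0 < (w + 1).im := by simpa using hw
    simp only [Function.comp, ofReal_one, ofComplex_apply_of_im_pos h1, ofComplex_apply_of_im_pos hw,
      h]
    exact hg w hw
  · have h1 : (w + (1 : ℝ)).im ≤ 0 := by simpa using hw
    simp only [Function.comp, ofComplex_apply_of_im_nonpos h1,
      ofComplex_apply_of_im_nonpos (not_lt.mp hw)]

lemma qf_periodic : Function.Periodic (qf ∘ ofComplex) (1 : ℝ) := by
  refine periodic_of (g := fun z => cexp (2 * π * Complex.I * z)) qf_eq fun z _ => ?_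
  rw [mul_add, mul_one, Complex.exp_add, Complex.exp_two_pi_mul_I, mul_one]

lemma J_periodic : Function.Periodic (J ∘ ofComplex) (1 : ℝ) :=
  periodic_of (g := Jc) (fun z => (Jc_coe z).symm) fun z hz => (Jc_inv z hz).1

lemma Jq_periodic : Function.Periodic (Jq ∘ ofComplex) (1 : ℝ) := by
  intro w
  have h1 := J_periodic w
  have h2 := qf_periodic w
  simp only [Function.comp] at h1 h2 ⊢
  simp only [Jq, Pi.mul_apply, h1, h2]

lemma qf_mdiff : MDiff qf := by
  rw [UpperHalfPlane.mdifferentiable_iff]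
  have : DifferentiableOn ℂ (fun z : ℂ => cexp (2 * π * Complex.I * z)) {w | 0 < w.im} := by
    fun_prop
  refine this.congr fun w hw => ?_
  simp only [Function.comp, qf_eq, ofComplex_apply_of_im_pos hw]

lemma Jq_mdiff : MDiff Jq := J_mdiff.mul qf_mdiff

lemma Jq_bdd : IsBoundedAtImInfty Jq := by
  have h4 : IsBoundedAtImInfty (E₄ : ℍ → ℂ) := ModularFormClass.bdd_at_infty E₄
  have hq : (fun z : ℍ => qf z) =O[atImInfty] (discriminant : ℍ → ℂ) := by
    refine Asymptotics.IsBigO.trans (Asymptotics.IsBigO.of_bound 1 ?_) exp_isBigO_discriminant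
    filter_upwards with z
    rw [qf_eq, Complex.norm_exp, one_mul]
    simp
  have h : (fun z : ℍ => qf z / discriminant z) =O[atImInfty] (fun _ => (1 : ℝ)) := by
    rw [Asymptotics.isBigO_iff] at hq ⊢
    obtain ⟨c, hc⟩ := hq
    refine ⟨c, ?_⟩
    filter_upwards [hc] with z hz
    rw [norm_div, norm_one, mul_one, div_le_iff₀ (norm_pos_iff.mpr (discriminant_ne_zero z))]
    exact hz
  have h2 : Jq = fun z => (E₄ z * (E₄ z * E₄ z)) * (qf z / discriminant z) := by
    ext z
    simp only [Jq, J, Pi.mul_apply]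
    ring
  rw [h2]
  have h3 := (h4.mul (h4.mul h4)).mul h
  simpa [IsBoundedAtImInfty, BoundedAtFilter] using! h3

lemma an_Jq : AnalyticAt ℂ (cuspFunction 1 Jq) 0 :=
  analyticAt_cuspFunction_zero one_pos Jq_periodic Jq_mdiff Jq_bdd

lemma norm_qf (z : ℍ) : ‖qf z‖ = Real.exp (-2 * π * z.im) := by
  rw [qf_eq, Complex.norm_exp]
  simp

lemma qf_bdd : IsBoundedAtImInfty qf := by
  refine Asymptotics.IsBigO.of_bound 1 ?_
  filter_upwards with z
  rw [norm_qf]
  simp only [Pi.one_apply, norm_one, mul_one]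
  rw [Real.exp_le_one_iff]
  have := z.im_pos
  have := Real.pi_pos
  nlinarith [mul_pos Real.pi_pos z.im_pos]

lemma an_qf : AnalyticAt ℂ (cuspFunction 1 qf) 0 :=
  analyticAt_cuspFunction_zero one_pos qf_periodic qf_mdiff qf_bdd

lemma qExp_unique {f : ℍ → ℂ} {c : ℕ → ℂ} (hf : AnalyticAt ℂ (cuspFunction 1 f) 0)
    (h : ∀ τ : ℍ, HasSum (fun m => c m • Function.Periodic.qParam 1 τ ^ m) (f τ)) (m : ℕ) :
    c m = (qExpansion 1 f).coeff m := by
  have h1 := (hasFPowerSeriesOnBall_cuspFunction one_pos hf h).hasFPowerSeriesAt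
  have h2 := hf.hasFPowerSeriesAt
  have h3 := congr_arg (FormalMultilinearSeries.coeff · m) (h1.eq_formalMultilinearSeries h2)
  rw [qExpansion_coeff]
  simpa [div_eq_mul_inv, mul_comm] using h3

lemma q_qf : qExpansion 1 qf = PowerSeries.X := by
  ext n
  have h := qExp_unique (f := qf) (c := fun n => if n = 1 then 1 else 0) an_qf
    (fun τ => by
      have := hasSum_single (f := fun m : ℕ => (if m = 1 then (1 : ℂ) else 0) • Function.Periodic.qParam 1 τ ^ m) 1
        (fun m hm => by simp [hm])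
      simpa [qf] using this) n
  rw [← h, PowerSeries.coeff_X]

lemma exists_Jz : ∃ F : PowerSeries ℤ, PowerSeries.coeff 0 F = 1 ∧ qExpansion 1 Jq = toC F := by
  obtain ⟨u, D', hD, hu, hu0⟩ := exists_Dinv
  refine ⟨E4z ^ 3 * u, ?_, ?_⟩
  · rw [PowerSeries.coeff_mul]
    simp only [Finset.HasAntidiagonal.antidiagonal_zero, Finset.sum_singleton, hu0, mul_one]
    have : PowerSeries.coeff 0 E4z = 1 := by
      simp [E4z, sig]
    rw [PowerSeries.coeff_zero_eq_constantCoeff] at this ⊢
    rw [map_pow, this, one_pow]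
  · have h := congrArg (qExpansion 1) Jq_mul
    rw [qExpansion_mul an_Jq an_disc, qExpansion_mul (an_mul an_E4 (an_mul an_E4 an_E4)) an_qf,
      qExpansion_mul an_E4 (an_mul an_E4 an_E4), qExpansion_mul an_E4 an_E4, q_qf, qE4, qdisc,
      hD, map_mul] at h
    have hX : toC PowerSeries.X = PowerSeries.X := by simp [toC]
    rw [hX] at h
    have h2 : qExpansion 1 Jq * toC D' = toC (E4z ^ 3) := by
      have hX0 : (PowerSeries.X : PowerSeries ℂ) ≠ 0 := PowerSeries.X_ne_zero
      apply mul_right_cancel₀ hX0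
      rw [map_pow]
      linear_combination h
    have h3 : toC D' * toC u = 1 := by rw [← map_mul, hu, map_one]
    rw [map_mul, ← h2, mul_assoc, h3, mul_one]

theorem specJLaurent : SpecJLaurent := by
  obtain ⟨F, hF0, hF⟩ := exists_Jz
  refine ⟨fun n => PowerSeries.coeff n F, hF0, fun z hz => ?_⟩
  have h := hasSum_qExpansion one_pos Jq_periodic Jq_mdiff Jq_bdd ⟨z, hz⟩
  rw [hF] at h
  have e1 : Jq ⟨z, hz⟩ = Jc z * cexp (2 * π * Complex.I * z) ^ 1 := by
    simp only [Jq, Pi.mul_apply, qf_eq, Jc_of_pos hz, pow_one]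
  rw [e1] at h
  convert h using 2 with n
  simp [toC, Function.Periodic.qParam]

end Pool.Agent.Lib.MP_47914d_nt
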